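import Pool.Agent.Work.MP_8da9ea_nt.FR.Stmts

/-!
# Block FR, part V: arbitrary lattices

The invariants may be transcendental. The criterion then also perturbs the lattice; the zero estimate is
applied to the perturbed lattice, with constants uniform for lattices in a bounded region, and the
linear independence over `k` is replaced by the linear independence over all imaginary quadratic fields
(the perturbed lattice could have complex multiplication).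
-/

set_option autoImplicit false

namespace Pool.Agent.Work.MP_8da9ea_nt.FR

open MvPolynomial Metric Filter Topology Pool.Agent.Work.MP_327059_nt.GL
  Pool.Agent.Work.MP_8da9ea_nt.S Pool.Agent.Work.MP_8da9ea_nt.EB Pool.Agent.Work.MP_8da9ea_nt.EC

/-- Independent over every field of endomorphisms (`ℚ` and all imaginary quadratic fields). -/
def SLI {m : ℕ} (b : Fin m → ℂ) : Prop := ∀ τ : ℂ, 0 < τ.im → KLI τ b

/-- A bounded region for `τ` (for `1 ≤ R` the nonzero points of `Lam τ` have absolute value `≥ 1 / R`). -/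
def LR (R : ℝ) (τ : ℂ) : Prop := 1 ≤ R * τ.im ∧ ‖τ‖ ≤ R

/-! ## The zero estimate with uniform constants -/

/-- V1. `S_Fin` with a constant depending only on `R`. Copy `Fin_pf` (`EB/I_Fin.lean`): there
`C = ⌈3 / δ⌉ + 1`, where `δ` is a lower bound for the nonzero points of the lattice, here `δ = 1 / R`
(`|p + q τ| ≥ |q| im τ ≥ 1 / R` if `q ≠ 0`, and `≥ 1 ≥ 1 / R` if `q = 0`). -/
def S_FinV : Prop := ∀ R : ℝ, 1 ≤ R → ∃ C : ℕ, 1 ≤ C ∧ ∀ τ : ℂ, LR R τ → ∀ (m B : ℕ)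
  (F : MvPolynomial (Fin (m + 1)) ℂ) (α : Fin m → ℂ) (ι : Type) (D : Finset ι) (κ : ι → ℂ),
  1 ≤ B → F ≠ 0 → (∀ i, F.degreeOf i ≤ B) → D.Nonempty →
  (∀ d ∈ D, ∃ v : Fin m → ℂ, κ d + ∑ i, α i * v i ∉ Lam τ) →
  (∀ d ∈ D, ∀ v : Fin m → ℂ, (∀ i, v i ∉ Lam τ) → κ d + ∑ i, α i * v i ∉ Lam τ →
    eval (pw τ v (κ d + ∑ i, α i * v i)) F = 0) →
  ∃ N : ℕ, N ≠ 0 ∧ N ≤ (4 * B * B) ^ m ∧ (∀ i, IsI τ ((N : ℂ) * α i)) ∧
    (∀ i, ‖α i‖ ≤ ((C * B : ℕ) : ℝ)) ∧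
    ∃ D' ⊆ D, D.card ≤ 2 * B * D'.card ∧ ∀ d ∈ D', ∀ d' ∈ D', κ d - κ d' ∈ Lam τ

/-- The zero estimate for `m` functions, uniformly for `LR R τ`. -/
def ZEV (m : ℕ) : Prop := ∃ c : ℕ, ∀ R : ℝ, 1 ≤ R → ∀ n : ℕ, ∃ C : ℕ, 1 ≤ C ∧ ∀ τ : ℂ, LR R τ →
  ∀ (S B K : ℕ) (a : Fin m → ℂ) (u : Fin n → Fin m → ℂ) (A : Finset (Fin n → ℤ))
    (F : MvPolynomial (Fin m) ℂ), 1 ≤ B → 1 ≤ K → (∀ s ∈ A, ∀ i, 0 ≤ s i ∧ s i ≤ (S : ℤ)) →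
    (S + 1) ^ n ≤ K * A.card → F ≠ 0 → (∀ i, F.degreeOf i ≤ B) →
    (∀ s ∈ A, (∀ j, a j + pc u s j ∉ Lam τ) ∧ eval (fun j => wp 1 τ (a j + pc u s j)) F = 0) →
      ∃ w : Fin m → ℂ, w ≠ 0 ∧ (∀ j, IsI τ (w j)) ∧
        (∀ j, ‖w j‖ ≤ ((C * (2 * B * K) ^ c : ℕ) : ℝ)) ∧
        (S + 1) ^ n ≤ C * (2 * B * K) ^ c * cntR τ (c * S) u w

/-- V2. Copy `ZStepE_pf` (`EB/I_ZStepE.lean`) and `ZEE_pf` (`EB/I_ZEE.lean`): the only constant depending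
on `τ` there is the one of `S_Fin`, replaced by V1. -/
def S_ZEV : Prop := ∀ m : ℕ, ZEV m

/-! ## Measure and small points -/

/-- V3. Linear forms with integral endomorphisms of ANY lattice as coefficients. Proof. Let
`Λ = ∑ w_j b_j`, `Λ' = ∑ conj(w_j) b_j`. For integral endomorphisms `w, w'` of `Lam τ`, `w conj(w)` and
`w conj(w') + conj(w) w'` are integers (if `w` is not real then `w = p + q τ`, `q ≠ 0`, `τ` is imaginary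
quadratic; `w`, `w'` act on the lattice by commuting integral matrices with eigenvalues `w`, `conj(w)`;
or directly: `w = p + q τ`, `w' = p' + q' τ`, `w τ = r + s τ` give `w + conj(w) = p + s`,
`w conj(w) = p s - q r`, and polarise: `w conj(w') + conj(w) w' = N(w + w') - N(w) - N(w')`), and
`conj(w)` is again an integral endomorphism. So `Λ Λ' = ∑_j N(w_j) b_j² + ∑_{i<j} Tr(w_i conj(w_j)) b_i b_j`
is `P(b)` with `P` an integer polynomial of total degree `≤ 2` and length `≤ 2 m² T^(2 c)`, it is nonzero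
by `SLI`, so `I_LMk.main` (`EB/I_LMk.lean`) bounds it from below by `exp(-T/2)`, say, and
`|Λ'| ≤ T^c ∑ |b_j|`. -/
def S_LMV : Prop := ∀ (Q m : ℕ) (b : Fin m → ℂ), FT Q b → SLI b → ∀ c : ℕ, ∃ T₀ : ℕ, ∀ T : ℕ,
  T₀ ≤ T → ∀ τ : ℂ, 0 < τ.im → ∀ w : Fin m → ℂ, w ≠ 0 → (∀ j, IsI τ (w j)) →
    (∀ j, ‖w j‖ ≤ ((T ^ c : ℕ) : ℝ)) → Real.exp (-(T : ℝ)) ≤ ‖∑ j, w j * b j‖

/-- V4. Copy `NZ_pf` (`EB/I_NZ.lean`) with V2, V3: all constants there (`C` of the zero estimate, `T₂` of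
`S_LMk`, `K₁ ≥ 1 / im τ + ‖τ‖ + 1`) are uniform for `LR R τ`. -/
def S_NZV : Prop := ∀ (Q m q : ℕ), 1 ≤ m → ∃ n₀ : ℕ, ∀ b : Fin m → ℂ, FT Q b → SLI b →
  ∀ R : ℝ, 1 ≤ R → ∀ n : ℕ, n₀ ≤ n → ∀ x : Fin n → ℂ, ∃ T₀ : ℕ, ∀ T : ℕ, T₀ ≤ T →
    ∀ τ : ℂ, LR R τ → ∀ (ε : ℝ) (u : Fin n → Fin m → ℂ) (F : MvPolynomial (Fin m) ℂ),
      0 ≤ ε → ε ≤ 1 → (∀ i j, ‖u i j - b j * x i‖ ≤ ε) → F ≠ 0 → (∀ j, F.degreeOf j ≤ T ^ q) →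
      (∀ s : Fin n → ℤ, (∀ i, 0 ≤ s i ∧ s i ≤ (T : ℤ)) → (∀ j, pc u s j ∉ Lam τ) →
        eval (fun j => wp 1 τ (pc u s j)) F = 0) →
      ∃ s : Fin n → ℤ, s ≠ 0 ∧ (∀ i, |s i| ≤ ((T ^ 3 : ℕ) : ℤ)) ∧
        ‖cmb s x‖ ≤ ε * Real.exp T

/-! ## The criterion -/

/-- V5. The map `(τ, μ, u) ↦ (μ⁴ g₂(τ), μ⁶ g₃(τ), μ² ℘(u_ij))` is a local homeomorphism, and
`Y(u_ij)` is determined by the curve equation and the sign. Proof. The map is strictly differentiable at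
the point (`hasStrictFDerivAt_wp`, `Ode.lean`; `analyticAt_gg2`, `analyticAt_gg3`), and its derivative
is injective, so an equivalence: if `(dτ, dμ, du)` is in the kernel, then `dτ = dμ = 0`, as the Jacobian
`μ⁹ (6 g₂'(τ) g₃ - 4 g₂ g₃'(τ))` is a nonzero multiple of `g₂³ - 27 g₃²` by `ode_gg2`, `ode_gg3`
(`Ode.lean`) and `Fx.disc_ne`; then `du_ij = 0` by `℘'(u_ij) ≠ 0`. The local inverse is continuous and
`O(·)` (`HasStrictFDerivAt.to_localInverse`, as in `EB/I_LocInv.lean`). -/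
def S_LocV : Prop := ∀ (τ μ : ℂ), 0 < τ.im → μ ≠ 0 → ∀ (n m : ℕ) (u : Fin n → Fin m → ℂ),
  (∀ i j, u i j ∉ Lam τ ∧ wpd τ (u i j) ≠ 0) → ∃ C η : ℝ, 1 ≤ C ∧ 0 < η ∧
    ∀ (θ : VI n m → ℂ) (ε : ℝ), ε ≤ η → (∀ o, ‖θ o - ptE τ μ u o‖ ≤ ε) →
      (∀ i j, θ (Sum.inr (i, j, true)) ^ 2 = 4 * θ (Sum.inr (i, j, false)) ^ 3 -
        θ (Sum.inl 0) * θ (Sum.inr (i, j, false)) - θ (Sum.inl 1)) →
      ∃ (τ' μ' : ℂ) (u' : Fin n → Fin m → ℂ), 0 < τ'.im ∧ μ' ≠ 0 ∧ (∀ i j, u' i j ∉ Lam τ') ∧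
        ptE τ' μ' u' = θ ∧ ‖τ' - τ‖ ≤ C * ε ∧ ‖μ' - μ‖ ≤ C * ε ∧
        ∀ i j, ‖u' i j - u i j‖ ≤ C * ε

/-- V6. The criterion step. Copy `CritE_pf` (`EB/I_CritE.lean`): the hypothesis on the transcendence
degree is already the one for `ptE`; in `CritE.lift` use only the equations `EQ i j` and V5;
`CritE.near_good` for `(τ', u)` close to `(τ, b x)` by `Dom_open` (`Ode.lean`). -/
def S_CritV : Prop := ∀ (m n G : ℕ), 2 ≤ m → 2 ≤ n → 1 ≤ G → ∀ (τ μ : ℂ) (b : Fin m → ℂ)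
  (x : Fin n → ℂ), 0 < τ.im → μ ≠ 0 → NT τ b x →
  TrLe (m - 2) (ptE τ μ (fun i j => b j * x i)) →
  ∃ (C : ℝ) (T₀ : ℕ), 1 ≤ C ∧ ∀ T : ℕ, T₀ ≤ T → ∀ (W : ℕ) (h U : ℝ), 1 ≤ W → 1 ≤ h →
    C * (W * (T : ℝ) ^ 11 + h) ^ (m - 1) ≤ U →
    ∀ p : (Fin G → Fin m → Fin W) → ℤ, p ≠ 0 → (∀ x, |(p x : ℝ)| ≤ Real.exp h) →
    (∀ s : Fin G → Fin n → ℤ, (∀ r, s r ≠ 0 ∧ ∀ i, 0 ≤ s r i ∧ s r i ≤ (T : ℤ)) →
      ‖AF τ μ b p (fun r => cmb (s r) x)‖ * ∏ r, ∏ j, d1 τ (b j * cmb (s r) x) ^ (2 * W) ≤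
        Real.exp (-U)) →
    ∃ (τ' : ℂ) (u : Fin n → Fin m → ℂ) (F : MvPolynomial (Fin m) ℂ), ‖τ' - τ‖ ≤ τ.im / 2 ∧
      (∀ i j, ‖u i j - b j * x i‖ ≤ Real.exp (-U / (C * (W * (T : ℝ) ^ 11 + h) ^ (m - 2)))) ∧
      F ≠ 0 ∧ (∀ j, F.degreeOf j < W) ∧
      ∀ s : Fin n → ℤ, (∀ i, 0 ≤ s i ∧ s i ≤ (T : ℤ)) → (∀ j, pc u s j ∉ Lam τ') →
        eval (fun j => wp 1 τ' (pc u s j)) F = 0

/-! ## The transcendence input -/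

/-- V7. Copy `TIE_pf` (`EB/I_TIE.lean`), with the measure `MS Q' x` as a hypothesis, V6, V4
(`R = 1 + 2 / im τ + ‖τ‖ + im τ`). -/
def S_TIV : Prop := ∀ (Q Q' m : ℕ), 2 ≤ m → ∃ n₀ : ℕ, ∀ (τ μ : ℂ), 0 < τ.im → μ ≠ 0 →
  ∀ b : Fin m → ℂ, FT Q b → SLI b → ∀ n : ℕ, n₀ ≤ n → ∀ x : Fin n → ℂ, MS Q' x → NT τ b x →
    ¬ TrLe (m - 2) (ptE τ μ (fun i j => b j * x i))

/-- V8. Powers of a primitive element `α` of `L`: the field `kf τ` of the endomorphisms has degree `≤ 2`,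
so `α` has degree `≥ [L : ℚ] / 2 ≥ M` over it. -/
def S_SLIex : Prop := ∀ (L : IntermediateField ℚ ℂ) (M : ℕ), FiniteDimensional ℚ L →
  2 * M ≤ Module.finrank ℚ L → ∃ b : Fin M → ℂ, (∀ j, b j ∈ L) ∧ SLI b

/-- V9. Small fields do not contain all exponentials, or all values of `X`, of a space stable under a
large number field. Proof. Let `0 ≠ x₀ ∈ V`, `β` a basis of `L`; the `β_i x₀` are independent elements
of `V`. Take `b` from V8. Exponentials: `NoSmall_pf` (`FR/I_NoSmall.lean`). Values of `X`: suppose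
`X(y) ∈ E` for all `y ∈ V`, `y ∉ Lam τ`. `RedNT_pf` (`EB/I_RedNT.lean`) for `b` and `x_i = β_i x₀` gives
`x'_i = β'_i x₀` (`β'_i = cmb (g i) β`), `n' ≥ n - 2 M` of them, with `NT τ b x'`; `MS 1 x'`, as `β'` is
algebraic and independent over `ℚ` (`x_FTalg`, polynomial of degree 1); all coordinates of `ptE` are in
`E` (`Y² = 4 X³ - G₂ X - G₃` and `E` is algebraically closed in `ℂ`), so `TrLe (M - 2)`, which
contradicts V7 (`Q = Q' = 1`). -/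
def S_NoSmallV : Prop := ∀ M : ℕ, ∃ n₀ : ℕ, ∀ L : IntermediateField ℚ ℂ, FiniteDimensional ℚ L →
  n₀ ≤ Module.finrank ℚ L → ∀ V : Submodule ℚ ℂ, V ≠ ⊥ → (∀ β ∈ L, ∀ y ∈ V, β * y ∈ V) →
  ∀ E : IntermediateField ℚ ℂ, ACl E → ¬ HasTrdeg E (M - 1) →
    (∀ ω : ℂ, ω ≠ 0 → ∃ y ∈ V, Complex.exp (ω * y) ∉ E) ∧
    ∀ τ μ : ℂ, GF τ μ E → ∃ y ∈ V, y ∉ Lam τ ∧ xe τ μ y ∉ E

/-- V10. **Main statement, every lattice.** As `FRMain_pf`, with V9 in place of `S_NoSmall`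
(`M = N + s + 2 n + q + 2`). -/
def S_FRMainV : Prop := ∀ N s n q : ℕ, ∃ n₀ : ℕ, ∀ (τ μ : ℂ), ∀ L : IntermediateField ℚ ℂ,
  FiniteDimensional ℚ L → n₀ ≤ Module.finrank ℚ L → (∀ g, IsE τ g → g ∈ L) →
  ∀ ν : ℕ, 0 < ν → ∀ x : Fin ν → ℂ, LinearIndependent ℚ x → Stab L x →
  ∀ ω : ℂ, ω ≠ 0 → ∀ K₀ : IntermediateField ℚ ℂ, (K₀ : Set ℂ).Countable → ACl K₀ →
    GF τ μ K₀ → PerK τ μ K₀ → ¬ HasTrdeg K₀ (N + 1) →
  ∀ β : Fin s → Fin q → ℂ, (∀ j i, β j i ∈ L) → LinearIndependent ℚ β →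
  ∀ β' : Fin n → Fin q → ℂ, (∀ j i, β' j i ∈ L) →
    (∀ g : Fin n → ℂ, (∀ j, IsE τ (g j)) → (∀ i, ∑ j, g j * β' j i = 0) → g = 0) →
  ∃ P : MvPolynomial (Fin q × Fin ν) ℂ, P ≠ 0 ∧ P.totalDegree ≤ s + 2 * n + q ∧
  ∀ w : Fin q → Fin ν → ℚ, MvPolynomial.eval (fun a => (w a.1 a.2 : ℂ)) P ≠ 0 →
  ∀ z : Fin q → ℂ, (∀ i, z i = ∑ a, (w i a : ℂ) * x a) →
    (∀ j, ∑ i, β' j i * z i ∉ Lam τ) ∧
    AlgebraicIndependent (IntermediateField.adjoin ℚ ((K₀ : Set ℂ) ∪ Set.range z))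
      (fm τ μ (fun j => ω * ∑ i, β j i * z i) (fun j => ∑ i, β' j i * z i))

end Pool.Agent.Work.MP_8da9ea_nt.FR
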