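import Pool.Agent.Work.MP_8da9ea_nt.FR.StmtsK

/-!
# K8, no combination of the derivatives stays in a small field
-/

set_option autoImplicit false

namespace Pool.Agent.Work.MP_8da9ea_nt.FR

open MvPolynomial Metric Filter Topology Pool.Agent.Work.MP_327059_nt.GL
  Pool.Agent.Work.MP_8da9ea_nt.S Pool.Agent.Work.MP_8da9ea_nt.EB Pool.Agent.Work.MP_8da9ea_nt.EC

namespace I_BigW

variable {q D : ℕ}

/-- The rational vectors at the place `i₀`. -/
def iota (i₀ : Fin q) : (Fin D → ℚ) →ₗ[ℚ] (Fin q × Fin D → ℚ) where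
  toFun w := fun o => if o.1 = i₀ then w o.2 else 0
  map_add' a b := by
    funext o
    simp only [Pi.add_apply]
    split_ifs
    · rfl
    · rw [add_zero]
  map_smul' c a := by
    funext o
    simp only [Pi.smul_apply, smul_eq_mul, RingHom.id_apply]
    split_ifs
    · rfl
    · rw [mul_zero]

lemma iota_apply (i₀ : Fin q) (w : Fin D → ℚ) (i : Fin q) (a : Fin D) :
    iota i₀ w (i, a) = if i = i₀ then w a else 0 := rfl

lemma iota_inj (i₀ : Fin q) : Function.Injective (iota (D := D) i₀) := by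
  intro w w' h
  funext a
  have h1 := congrFun h (i₀, a)
  rwa [iota_apply, iota_apply, if_pos rfl, if_pos rfl] at h1

/-- The point with coordinates `w`. -/
noncomputable def Le (e : Fin D → ℂ) : (Fin D → ℚ) →ₗ[ℚ] ℂ := Fintype.linearCombination ℚ e

lemma Le_apply (e : Fin D → ℂ) (w : Fin D → ℚ) : Le e w = ∑ a, (w a : ℂ) * e a := by
  rw [Le, Fintype.linearCombination_apply]
  refine Finset.sum_congr rfl fun a _ => ?_
  rw [Rat.smul_def]

lemma cx_iota (e : Fin D → ℂ) (i₀ : Fin q) (w : Fin D → ℚ) (i : Fin q) :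
    cx e (iota i₀ w) i = if i = i₀ then Le e w else 0 := by
  unfold cx co
  by_cases hi : i = i₀
  · rw [if_pos hi, Le_apply]
    refine Finset.sum_congr rfl fun a _ => ?_
    show ((iota i₀ w (i, a) : ℚ) : ℂ) * e a = _
    rw [iota_apply, if_pos hi]
  · rw [if_neg hi]
    refine Finset.sum_eq_zero fun a _ => ?_
    show ((iota i₀ w (i, a) : ℚ) : ℂ) * e a = _
    rw [iota_apply, if_neg hi, Rat.cast_zero, zero_mul]

lemma tv_iota {s : ℕ} (R : Fin s → MvPolynomial (Fin q) ℂ) (e : Fin D → ℂ)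
    (z : Fin q × Fin D → ℚ) (i₀ : Fin q) (w : Fin D → ℚ) (j : Fin s) :
    tv R e z (iota i₀ w) j = Le e w * pg R (cx e z) i₀ j := by
  unfold tv
  rw [Finset.sum_eq_single i₀]
  · rw [cx_iota, if_pos rfl]
  · intro i _ hi
    rw [cx_iota, if_neg hi, zero_mul]
  · intro h
    exact absurd (Finset.mem_univ i₀) h

lemma sum_tv {s : ℕ} (R : Fin s → MvPolynomial (Fin q) ℂ) (e : Fin D → ℂ)
    (z : Fin q × Fin D → ℚ) (i₀ : Fin q) (w : Fin D → ℚ) (c : Fin s → ℂ) :
    ∑ j, c j * tv R e z (iota i₀ w) j = Le e w * ∑ j, c j * pg R (cx e z) i₀ j := by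
  rw [Finset.mul_sum]
  refine Finset.sum_congr rfl fun j _ => ?_
  rw [tv_iota]
  ring

/-- The subspace at the place `i₀`. -/
noncomputable def Vi (e : Fin D → ℂ) (i₀ : Fin q) (T : Submodule ℚ (Fin q × Fin D → ℚ)) :
    Submodule ℚ ℂ := (T.comap (iota i₀)).map (Le e)

lemma Vi_le (e : Fin D → ℂ) (i₀ : Fin q) (T : Submodule ℚ (Fin q × Fin D → ℚ)) :
    Vi e i₀ T ≤ Submodule.span ℚ (Set.range e) := by
  rintro _ ⟨w, -, rfl⟩
  rw [Le, Fintype.linearCombination_apply]
  exact sum_mem fun a _ => Submodule.smul_mem _ _ (Submodule.subset_span ⟨a, rfl⟩)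

lemma Vi_dim {e : Fin D → ℂ} (he : LinearIndependent ℚ e) (i₀ : Fin q)
    (T : Submodule ℚ (Fin q × Fin D → ℚ)) {κ : ℕ} (hT : q * D ≤ Module.finrank ℚ T + κ) :
    Module.finrank ℚ (Submodule.span ℚ (Set.range e)) ≤ Module.finrank ℚ (Vi e i₀ T) + κ := by
  have hLe : Function.Injective (Le e) := by
    exact linearIndependent_iff_injective_fintypeLinearCombination.1 he
  have h1 : Module.finrank ℚ (Vi e i₀ T) = Module.finrank ℚ (T.comap (iota i₀)) :=
    (Submodule.equivMapOfInjective (Le e) hLe _).finrank_eq.symm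
  have h2 : Module.finrank ℚ ((T.comap (iota i₀)).map (iota i₀)) =
      Module.finrank ℚ (T.comap (iota i₀)) :=
    (Submodule.equivMapOfInjective (iota i₀) (iota_inj i₀) _).finrank_eq.symm
  rw [Submodule.map_comap_eq] at h2
  have h3 := Submodule.finrank_sup_add_finrank_inf_eq (LinearMap.range (iota (D := D) i₀)) T
  have h4 : Module.finrank ℚ (LinearMap.range (iota (D := D) i₀)) = D := by
    rw [LinearMap.finrank_range_of_inj (iota_inj i₀), Module.finrank_fin_fun]
  have h5 : Module.finrank ℚ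
      ((LinearMap.range (iota (D := D) i₀) ⊔ T : Submodule ℚ (Fin q × Fin D → ℚ))) ≤ q * D := by
    refine (Submodule.finrank_le _).trans (le_of_eq ?_)
    rw [Module.finrank_fintype_fun_eq_card, Fintype.card_prod, Fintype.card_fin, Fintype.card_fin]
  have h6 : Module.finrank ℚ (Submodule.span ℚ (Set.range e)) = D := by
    rw [finrank_span_eq_card he, Fintype.card_fin]
  omega

end I_BigW

open I_BigW in
/-- **K8.** -/
theorem BigW_pf : S_BigW := by
  intro τ μ E s n q D κ e he hK R S z T hT hR hS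
  refine ⟨?_, ?_⟩
  · intro c hc
    obtain ⟨i₀, hi₀⟩ : ∃ i, ∑ j, (c j : ℂ) * pg R (cx e z) i j ≠ 0 := by
      by_contra hcon
      push Not at hcon
      have h1 := hR (fun j => (c j : ℂ)) (fun j => ⟨c j, rfl⟩) hcon
      apply hc
      funext j
      have h2 : ((c j : ℚ) : ℂ) = 0 := congrFun h1 j
      have h3 : c j = 0 := by exact_mod_cast h2
      exact h3
    obtain ⟨γ, ⟨w, hw, rfl⟩, hγ⟩ := (hK (Vi e i₀ T) (Vi_le e i₀ T) (Vi_dim he i₀ T hT) _ hi₀).1
    refine ⟨⟨iota i₀ w, hw⟩, ?_⟩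
    show Complex.exp (∑ j, (c j : ℂ) * tv R e z (iota i₀ w) j) ∉ E
    rw [sum_tv R e z i₀ w (fun j => (c j : ℂ))]
    exact hγ
  · intro g hg hg0
    have hn : 0 < n := by
      rcases Nat.eq_zero_or_pos n with h | h
      · subst h
        exact absurd (Subsingleton.elim g 0) hg0
      · exact h
    obtain ⟨i₀, hi₀⟩ : ∃ i, ∑ j, g j * pg S (cx e z) i j ≠ 0 := by
      by_contra hcon
      push Not at hcon
      exact hg0 (hS g hg hcon)
    obtain ⟨γ, ⟨w, hw, rfl⟩, hγ⟩ :=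
      (hK (Vi e i₀ T) (Vi_le e i₀ T) (Vi_dim he i₀ T hT) _ hi₀).2 hn
    refine ⟨⟨iota i₀ w, hw⟩, ?_⟩
    show ∑ j, g j * tv S e z (iota i₀ w) j ∉ Lam τ ∧
      xe τ μ (∑ j, g j * tv S e z (iota i₀ w) j) ∉ E
    rw [sum_tv S e z i₀ w g]
    exact hγ

end Pool.Agent.Work.MP_8da9ea_nt.FR
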