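import Pool.Agent.Work.MP_8da9ea_nt.FR.Stmts

/-!
# Block FR: closedness of the invariant differential forms over a field containing the invariants
(item ClosedK)
-/

set_option autoImplicit false

namespace Pool.Agent.Work.MP_8da9ea_nt.FR

open MvPolynomial Pool.Agent.Work.MP_327059_nt.GL Pool.Agent.Work.MP_8da9ea_nt.S
  Pool.Agent.Work.MP_8da9ea_nt.EB Pool.Agent.Work.MP_8da9ea_nt.EC

namespace I_ClosedK

/-- The Weierstrass equation in the normalised coordinates. -/
theorem weierK {τ μ u : ℂ} {K : IntermediateField ℚ ℂ} (h : GF τ μ K) (hu : u ∉ Lam τ) :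
    ye τ μ u ^ 2 = 4 * xe τ μ u ^ 3 - (μ ^ 4 * gg2 τ) * xe τ μ u - μ ^ 6 * gg3 τ := by
  have e := wpd_sq h.im hu
  unfold ye xe
  linear_combination μ ^ 6 * e

/-- `2 Y δY = (12 X² - G₂) δX`. -/
theorem der_yK {τ μ u : ℂ} {K : IntermediateField ℚ ℂ} (h : GF τ μ K) (hu : u ∉ Lam τ)
    (δ : Derivation ℚ ℂ ℂ) (hδ : δ ∈ DK K) :
    2 * ye τ μ u * δ (ye τ μ u) = (12 * xe τ μ u ^ 2 - μ ^ 4 * gg2 τ) * δ (xe τ μ u) := by
  have e := congrArg δ (weierK h hu)
  have g2 : δ (μ ^ 4 * gg2 τ) = 0 := hδ _ h.g2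
  have g3 : δ (μ ^ 6 * gg3 τ) = 0 := hδ _ h.g3
  have h4 : δ (4 : ℂ) = 0 := by
    have := δ.map_natCast 4
    simpa using this
  rw [map_sub, map_sub, Derivation.leibniz_pow, Derivation.leibniz, Derivation.leibniz,
    Derivation.leibniz_pow, g2, g3, h4] at e
  simp only [smul_eq_mul, nsmul_eq_mul] at e
  push_cast at e
  linear_combination e

end I_ClosedK

open I_ClosedK

theorem ClosedK_pf : S_ClosedK := by
  intro τ μ K h δ hδ δ' hδ' u
  by_cases hu : u ∈ Lam τ
  · unfold etf lam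
    simp only [hu, if_true, map_zero, sub_zero, and_self]
  · have hl : ∀ D : Derivation ℚ ℂ ℂ, lam τ μ D u = D (xe τ μ u) / ye τ μ u := fun D => by
      unfold lam
      rw [if_neg hu]
    have he : ∀ D : Derivation ℚ ℂ ℂ, etf τ μ D u = D (ze τ μ u) + xe τ μ u * lam τ μ D u :=
      fun D => by
        unfold etf
        rw [if_neg hu]
    have key : δ (lam τ μ δ' u) - δ' (lam τ μ δ u) = lam τ μ ⁅δ, δ'⁆ u := by
      rw [hl, hl, hl]
      by_cases hy : ye τ μ u = 0
      · rw [hy, div_zero, div_zero, div_zero, map_zero, map_zero, sub_zero]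
      · have h1 := der_yK h hu δ hδ
        have h2 := der_yK h hu δ' hδ'
        rw [Derivation.leibniz_div, Derivation.leibniz_div, Derivation.commutator_apply]
        simp only [smul_eq_mul]
        have h3 : ye τ μ u * (δ' (xe τ μ u) * δ (ye τ μ u) - δ (xe τ μ u) * δ' (ye τ μ u)) = 0 := by
          linear_combination (1 / 2) * δ' (xe τ μ u) * h1 - (1 / 2) * δ (xe τ μ u) * h2
        have h4 := (mul_eq_zero.1 h3).resolve_left hy
        field_simp
        linear_combination (-1) * h4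
    refine ⟨key, ?_⟩
    rw [he, he, he, map_add, map_add, Derivation.leibniz, Derivation.leibniz, ← key,
      Derivation.commutator_apply]
    simp only [smul_eq_mul]
    have h5 : lam τ μ δ' u * δ (xe τ μ u) = lam τ μ δ u * δ' (xe τ μ u) := by
      rw [hl, hl]
      ring
    linear_combination h5

end Pool.Agent.Work.MP_8da9ea_nt.FR
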