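import Pool.Agent.Work.MP_8da9ea_nt.FR.Stmts

/-!
# FR12, the core
-/

set_option autoImplicit false

namespace Pool.Agent.Work.MP_8da9ea_nt.FR

open MvPolynomial Pool.Agent.Work.MP_327059_nt.GL Pool.Agent.Work.MP_8da9ea_nt.S
  Pool.Agent.Work.MP_8da9ea_nt.EB Pool.Agent.Work.MP_8da9ea_nt.EC

namespace I_Core

theorem th_add (δ : Derivation ℚ ℂ ℂ) (u v : ℂ) : th δ (u + v) = th δ u + th δ v := by
  unfold th
  rw [Complex.exp_add, Derivation.leibniz, smul_eq_mul, smul_eq_mul]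
  have h1 := Complex.exp_ne_zero u
  have h2 := Complex.exp_ne_zero v
  field_simp
  ring

theorem lc_add {q : ℕ} (B z w : Fin q → ℂ) : lc B (z + w) = lc B z + lc B w := by
  unfold lc
  rw [← Finset.sum_add_distrib]
  refine Finset.sum_congr rfl fun i _ => ?_
  rw [Pi.add_apply]
  ring

/-- The forms are additive on the derivations killing `K`. -/
theorem omW_add (l1 : S_LamAddK) (l3 : S_EtaAddK) {τ μ ω : ℂ} {s n q : ℕ}
    (B : Fin s → Fin q → ℂ) (B' : Fin n → Fin q → ℂ) {K : IntermediateField ℚ ℂ}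
    (hK : KF n τ μ K) (w w' : Fin q → ℂ) (δ : Derivation ℚ ℂ ℂ) (hδ : δ ∈ DK K) :
    omW τ μ ω B B' (w + w') δ = omW τ μ ω B B' w δ + omW τ μ ω B B' w' δ := by
  funext o
  rcases o with j | ⟨j, e⟩
  · show th δ (ω * lc (B j) (w + w')) = th δ (ω * lc (B j) w) + th δ (ω * lc (B j) w')
    rw [lc_add, mul_add, th_add]
  · have hn : 0 < n := j.pos
    obtain ⟨g1, g2⟩ := hK.ell hn
    cases e
    · show lam τ μ δ (lc (B' j) (w + w')) = lam τ μ δ (lc (B' j) w) + lam τ μ δ (lc (B' j) w')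
      rw [lc_add]
      exact l1 τ μ K g1 δ hδ _ _
    · show etf τ μ δ (lc (B' j) (w + w')) = etf τ μ δ (lc (B' j) w) + etf τ μ δ (lc (B' j) w')
      rw [lc_add]
      exact l3 τ μ K g1 g2 δ hδ _ _

/-- All forms, with values in functions on one type. -/
noncomputable def omS (τ μ ω : ℂ) {s n q : ℕ} (B : Fin s → Fin q → ℂ) (B' : Fin n → Fin q → ℂ)
    (w : Fin q → ℂ) : Derivation ℚ ℂ ℂ →ₗ[ℂ] ((Fin s ⊕ Fin n × Bool) ⊕ Fin q → ℂ) :=
  ((LinearEquiv.sumArrowLequivProdArrow (Fin s ⊕ Fin n × Bool) (Fin q) ℂ ℂ).symm.toLinearMap).comp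
    (omX τ μ ω B B' w)

theorem omS_inl (τ μ ω : ℂ) {s n q : ℕ} (B : Fin s → Fin q → ℂ) (B' : Fin n → Fin q → ℂ)
    (w : Fin q → ℂ) (δ : Derivation ℚ ℂ ℂ) (o : Fin s ⊕ Fin n × Bool) :
    omS τ μ ω B B' w δ (Sum.inl o) = omW τ μ ω B B' w δ o := rfl

theorem omS_inr (τ μ ω : ℂ) {s n q : ℕ} (B : Fin s → Fin q → ℂ) (B' : Fin n → Fin q → ℂ)
    (w : Fin q → ℂ) (δ : Derivation ℚ ℂ ℂ) (i : Fin q) :
    omS τ μ ω B B' w δ (Sum.inr i) = δ (w i) := rfl

/-- The forms at the points of `V^q`, on the derivations killing `K`. -/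
noncomputable def om (l1 : S_LamAddK) (l3 : S_EtaAddK) {τ μ : ℂ} (ω : ℂ) {s n q : ℕ}
    (B : Fin s → Fin q → ℂ) (B' : Fin n → Fin q → ℂ) {K : IntermediateField ℚ ℂ}
    (hK : KF n τ μ K) (V : Submodule ℚ ℂ) :
    (Fin q → V) →+ (DK K →ₗ[ℂ] ((Fin s ⊕ Fin n × Bool) ⊕ Fin q → ℂ)) :=
  AddMonoidHom.mk' (fun w => (omS τ μ ω B B' (fun i => (w i : ℂ))).comp (DK K).subtype) (by
    intro w w'
    apply LinearMap.ext
    intro δ
    funext o
    rcases o with o | i
    · exact congrFun (omW_add l1 l3 B B' hK (fun i => (w i : ℂ)) (fun i => (w' i : ℂ)) δ.1 δ.2) o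
    · show δ.1 ((w i : ℂ) + (w' i : ℂ)) = δ.1 (w i : ℂ) + δ.1 (w' i : ℂ)
      rw [map_add])

theorem range_om (l1 : S_LamAddK) (l3 : S_EtaAddK) {τ μ : ℂ} (ω : ℂ) {s n q : ℕ}
    (B : Fin s → Fin q → ℂ) (B' : Fin n → Fin q → ℂ) {K : IntermediateField ℚ ℂ}
    (hK : KF n τ μ K) (V : Submodule ℚ ℂ) (w : Fin q → V) :
    Module.finrank ℂ (LinearMap.range (om l1 l3 ω B B' hK V w)) =
      Module.finrank ℂ ((DK K).map (omX τ μ ω B B' (fun i => (w i : ℂ)))) := by
  have h1 : LinearMap.range (om l1 l3 ω B B' hK V w) =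
      ((DK K).map (omX τ μ ω B B' (fun i => (w i : ℂ)))).map
        (LinearEquiv.sumArrowLequivProdArrow (Fin s ⊕ Fin n × Bool) (Fin q) ℂ ℂ).symm.toLinearMap := by
    show LinearMap.range ((omS τ μ ω B B' (fun i => (w i : ℂ))).comp (DK K).subtype) = _
    rw [LinearMap.range_comp, Submodule.range_subtype, omS, Submodule.map_comp]
  rw [h1]
  exact LinearEquiv.finrank_map_eq _ _

end I_Core

open I_Core in
theorem Core_pf (h1 : S_Key) (h2 : S_Pert) (h3 : S_RelE) (h4 : S_EField) (h5 : S_RelStab)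
    (l1 : S_LamAddK) (l3 : S_EtaAddK) : S_Core := by
  classical
  intro τ μ ω hω L V s n q N B B' hS K hK hT hbig z hzV hmax
  have hcard : Fintype.card (Fin s ⊕ Fin n × Bool) = s + 2 * n := by
    rw [Fintype.card_sum, Fintype.card_prod, Fintype.card_fin, Fintype.card_fin, Fintype.card_bool]
    ring
  let F := om l1 l3 ω B B' hK V
  let zz : Fin q → V := fun i => ⟨z i, hzV i⟩
  have hF : ∀ w : Fin q → V, Module.finrank ℂ (LinearMap.range (F w)) ≤
      Module.finrank ℂ (LinearMap.range (F zz)) := by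
    intro w
    rw [range_om, range_om]
    exact hmax (fun i => (w i : ℂ)) (fun i => (w i).2)
  by_contra hlt
  push Not at hlt
  -- the relations at the point
  set u : Fin s → ℂ := fun j => ω * lc (B j) z with hu
  set v : Fin n → ℂ := fun j => lc (B' j) z with hv
  let R : Submodule ℂ ((Fin s ⊕ Fin n × Bool) ⊕ Fin q → ℂ) :=
    { carrier := {κ | ∀ δ ∈ DK K, ∑ o, κ (Sum.inl o) * omV τ μ u v δ o +
        ∑ i, κ (Sum.inr i) * dz z δ i = 0}
      add_mem' := by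
        intro a a' ha ha' δ hδ
        have e1 := ha δ hδ
        have e2 := ha' δ hδ
        simp only [Pi.add_apply, add_mul, Finset.sum_add_distrib]
        linear_combination e1 + e2
      zero_mem' := by
        intro δ _
        simp
      smul_mem' := by
        intro a κ ha δ hδ
        have e1 := ha δ hδ
        simp only [Pi.smul_apply, smul_eq_mul, mul_assoc]
        rw [← Finset.mul_sum, ← Finset.mul_sum, ← mul_add, e1, mul_zero] }
  have hR : ∃ κ ∈ R, ∃ o ∈ Set.range (Sum.inl : (Fin s ⊕ Fin n × Bool) →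
      (Fin s ⊕ Fin n × Bool) ⊕ Fin q), κ o ≠ 0 := by
    have hne : (DK K ⊓ TT z).map (omW τ μ ω B B' z) < ⊤ := by
      rw [lt_top_iff_ne_top]
      intro h
      rw [h, finrank_top, Module.finrank_fintype_fun_eq_card, hcard] at hlt
      exact lt_irrefl _ hlt
    obtain ⟨f, hf, hle⟩ := Submodule.exists_le_ker_of_lt_top _ hne
    let Lf : Fin q → (DK K →ₗ[ℂ] ℂ) := fun i =>
      (LinearMap.proj i).comp ((dz z).comp (DK K).subtype)
    let Kf : DK K →ₗ[ℂ] ℂ := f.comp ((omW τ μ ω B B' z).comp (DK K).subtype)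
    have hker : ⨅ i, LinearMap.ker (Lf i) ≤ LinearMap.ker Kf := by
      intro δ hδ
      rw [Submodule.mem_iInf] at hδ
      rw [LinearMap.mem_ker]
      apply hle
      refine ⟨δ.1, ⟨δ.2, ?_⟩, rfl⟩
      intro i
      exact LinearMap.mem_ker.1 (hδ i)
    obtain ⟨κ', hκ'⟩ := (Submodule.mem_span_range_iff_exists_fun ℂ).1
      (mem_span_of_iInf_ker_le_ker hker)
    let κ₀ : Fin s ⊕ Fin n × Bool → ℂ := fun o => f (fun j => if o = j then 1 else 0)
    refine ⟨Sum.elim κ₀ (fun i => -κ' i), ?_, ?_⟩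
    · intro δ hδ
      have e1 : f (omV τ μ u v δ) = ∑ i, κ' i * dz z δ i := by
        have e2 := congrArg (fun g : DK K →ₗ[ℂ] ℂ => g ⟨δ, hδ⟩) hκ'
        simp only [LinearMap.sum_apply, LinearMap.smul_apply, smul_eq_mul] at e2
        exact e2.symm
      rw [LinearMap.pi_apply_eq_sum_univ f] at e1
      simp only [Sum.elim_inl, Sum.elim_inr, neg_mul, Finset.sum_neg_distrib]
      rw [← e1, add_neg_eq_zero]
      refine Finset.sum_congr rfl fun o _ => ?_
      rw [smul_eq_mul, mul_comm]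
    · by_contra hcon
      push Not at hcon
      apply hf
      apply LinearMap.ext
      intro y
      rw [LinearMap.pi_apply_eq_sum_univ f, LinearMap.zero_apply]
      refine Finset.sum_eq_zero fun o _ => ?_
      have e1 : f (fun j => if o = j then 1 else 0) = 0 := hcon (Sum.inl o) ⟨o, rfl⟩
      rw [e1, smul_zero]
  -- the field of the values
  obtain ⟨E, hE, hKE, hTE, hiff⟩ := h4 τ μ K s n q N hK u v z hT
  have hDK : ∀ δ ∈ DK E, δ ∈ DK K := fun δ hδ x hx => hδ x (hKE hx)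
  obtain ⟨κ, hκR, ⟨_, ⟨o₀, rfl⟩, hκ0⟩, hκE⟩ := h3 E hE.acl _ _ R hR (by
    intro δ₀ hδ₀ κ hκ δ hδ
    obtain ⟨e1, e2⟩ := (hiff δ₀ (hDK δ₀ hδ₀)).2 hδ₀
    exact h5 τ μ K s n q (fun hn => (hK.ell hn).1) u v z δ₀ (hDK δ₀ hδ₀) e1 e2
      (fun o => κ (Sum.inl o)) (fun i => κ (Sum.inr i)) hκ δ hδ)
  -- the relation holds everywhere
  have hrel : ∀ w : Fin q → ℂ, (∀ i, w i ∈ V) → ∀ δ ∈ DK E,
      ∑ o, κ (Sum.inl o) * omW τ μ ω B B' w δ o + ∑ i, κ (Sum.inr i) * δ (w i) = 0 := by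
    intro w hw δ hδ
    have e1 := h2 (DK K) (Fin q → V) ((Fin s ⊕ Fin n × Bool) ⊕ Fin q) F
      (fun a a' => F.map_add a a')
      (by
        intro a y
        rw [Rat.cast_smul_eq_qsmul]
        exact map_rat_smul F a y) zz hF κ (by
        intro δ
        rw [Fintype.sum_sum_type]
        exact hκR δ.1 δ.2) (fun i => ⟨w i, hw i⟩) ⟨δ, hDK δ hδ⟩ (by
        obtain ⟨e1, e2⟩ := (hiff δ (hDK δ hδ)).2 hδ
        funext o
        rcases o with o | i
        · exact congrFun e1 o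
        · exact congrFun e2 i)
    rw [Fintype.sum_sum_type] at e1
    exact e1
  obtain ⟨k1, k2⟩ := h1 τ μ ω hω L V s n q B B' hS E hE (fun o => κ (Sum.inl o))
    (fun o => hκE _) (by
      intro w hw
      refine ⟨-∑ i, κ (Sum.inr i) * w i, fun δ hδ => ?_⟩
      rw [map_neg, map_sum, eq_neg_iff_add_eq_zero, ← hrel w hw δ hδ]
      congr 1
      refine Finset.sum_congr rfl fun i _ => ?_
      rw [Derivation.leibniz, hδ _ (hκE (Sum.inr i)), smul_zero, add_zero, smul_eq_mul])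
  obtain ⟨b1, b2⟩ := hbig E hE hTE
  apply hκ0
  rcases o₀ with j | o
  · exact k1 b1 j
  · exact k2 b2 o

end Pool.Agent.Work.MP_8da9ea_nt.FR
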