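import Pool.Agent.Work.MP_8da9ea_nt.FR.StmtsP
import Pool.Agent.Work.MP_8da9ea_nt.FR.I_Core

/-!
# P4, the core for polynomial families
-/

set_option autoImplicit false

namespace Pool.Agent.Work.MP_8da9ea_nt.FR

open MvPolynomial Pool.Agent.Work.MP_327059_nt.GL Pool.Agent.Work.MP_8da9ea_nt.S
  Pool.Agent.Work.MP_8da9ea_nt.EB Pool.Agent.Work.MP_8da9ea_nt.EC

namespace I_CoreP

/-- The forms are additive on the derivations killing `K`. -/
theorem omV_add (l1 : S_LamAddK) (l3 : S_EtaAddK) {τ μ : ℂ} {s n : ℕ}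
    {K : IntermediateField ℚ ℂ} (hK : KF n τ μ K) (u u' : Fin s → ℂ) (v v' : Fin n → ℂ)
    (δ : Derivation ℚ ℂ ℂ) (hδ : δ ∈ DK K) :
    omV τ μ (u + u') (v + v') δ = omV τ μ u v δ + omV τ μ u' v' δ := by
  funext o
  rcases o with j | ⟨j, e⟩
  · show th δ (u j + u' j) = th δ (u j) + th δ (u' j)
    exact I_Core.th_add δ _ _
  · have hn : 0 < n := j.pos
    obtain ⟨g1, g2⟩ := hK.ell hn
    cases e
    · show lam τ μ δ (v j + v' j) = lam τ μ δ (v j) + lam τ μ δ (v' j)
      exact l1 τ μ K g1 δ hδ _ _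
    · show etf τ μ δ (v j + v' j) = etf τ μ δ (v j) + etf τ μ δ (v' j)
      exact l3 τ μ K g1 g2 δ hδ _ _

/-- The space of the points. -/
abbrev PSp (s n ρ : ℕ) : Type := (Fin s → ℂ) × (Fin n → ℂ) × (Fin ρ → ℂ)

/-- All forms, with values in functions on one type. -/
noncomputable def omS (τ μ : ℂ) {s n ρ : ℕ} (w : PSp s n ρ) :
    Derivation ℚ ℂ ℂ →ₗ[ℂ] ((Fin s ⊕ Fin n × Bool) ⊕ Fin ρ → ℂ) :=
  ((LinearEquiv.sumArrowLequivProdArrow (Fin s ⊕ Fin n × Bool) (Fin ρ) ℂ ℂ).symm.toLinearMap).comp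
    (omZ τ μ w.1 w.2.1 w.2.2)

/-- The forms, on the derivations killing `K`. -/
noncomputable def om (l1 : S_LamAddK) (l3 : S_EtaAddK) {τ μ : ℂ} {s n : ℕ} (ρ : ℕ)
    {K : IntermediateField ℚ ℂ} (hK : KF n τ μ K) :
    PSp s n ρ →+ (DK K →ₗ[ℂ] ((Fin s ⊕ Fin n × Bool) ⊕ Fin ρ → ℂ)) :=
  AddMonoidHom.mk' (fun w => (omS τ μ w).comp (DK K).subtype) (by
    intro w w'
    apply LinearMap.ext
    intro δ
    funext o
    rcases o with o | i
    · exact congrFun (omV_add l1 l3 hK w.1 w'.1 w.2.1 w'.2.1 δ.1 δ.2) o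
    · show δ.1 (w.2.2 i + w'.2.2 i) = δ.1 (w.2.2 i) + δ.1 (w'.2.2 i)
      rw [map_add])

theorem range_om (l1 : S_LamAddK) (l3 : S_EtaAddK) {τ μ : ℂ} {s n ρ : ℕ}
    {K : IntermediateField ℚ ℂ} (hK : KF n τ μ K) (w : PSp s n ρ) :
    Module.finrank ℂ (LinearMap.range (om l1 l3 ρ hK w)) =
      Module.finrank ℂ ((DK K).map (omZ τ μ w.1 w.2.1 w.2.2)) := by
  have h1 : LinearMap.range (om l1 l3 ρ hK w) =
      ((DK K).map (omZ τ μ w.1 w.2.1 w.2.2)).map
        (LinearEquiv.sumArrowLequivProdArrow (Fin s ⊕ Fin n × Bool) (Fin ρ) ℂ ℂ).symm.toLinearMap := by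
    show LinearMap.range ((omS τ μ w).comp (DK K).subtype) = _
    rw [LinearMap.range_comp, Submodule.range_subtype, omS, Submodule.map_comp]
  rw [h1]
  exact LinearEquiv.finrank_map_eq _ _

/-- Evaluation of a polynomial as a sum of multiples of its coefficients. -/
theorem eval_sum {f : Polynomial ℂ} {m : ℕ} (hf : f.natDegree < m) (c : ℚ) :
    ∑ k ∈ Finset.range m, (c ^ k) • f.coeff k = f.eval (c : ℂ) := by
  rw [Polynomial.eval_eq_sum_range' hf]
  refine Finset.sum_congr rfl fun k _ => ?_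
  rw [Rat.smul_def, Rat.cast_pow, mul_comm]

end I_CoreP

open I_CoreP in
theorem CoreP_pf (h1 : S_KeyP) (h2 : S_PertP) (h3 : S_RelE) (h4 : S_EField) (h5 : S_RelStab)
    (h6 : S_Line) (l1 : S_LamAddK) (l3 : S_EtaAddK) : S_CoreP := by
  classical
  intro τ μ V s n q ρ N R S Z K hK hT hbig β hβ hmax hR hS
  have hcard : Fintype.card (Fin s ⊕ Fin n × Bool) = s + 2 * n := by
    rw [Fintype.card_sum, Fintype.card_prod, Fintype.card_fin, Fintype.card_fin, Fintype.card_bool]
    ring
  let F := om (s := s) l1 l3 ρ hK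
  by_contra hlt
  push Not at hlt
  -- the relations at the point
  set u : Fin s → ℂ := pv R β with hu
  set v : Fin n → ℂ := pv S β with hv
  set z : Fin ρ → ℂ := pv Z β with hz
  let Rel : Submodule ℂ ((Fin s ⊕ Fin n × Bool) ⊕ Fin ρ → ℂ) :=
    { carrier := {κ | ∀ δ ∈ DK K, ∑ o, κ (Sum.inl o) * omV τ μ u v δ o +
        ∑ i, κ (Sum.inr i) * dz z δ i = 0}
      add_mem' := by
        intro a a' ha ha' δ hδ
        have e1 := ha δ hδ
        have e2 := ha' δ hδ
        simp only [Pi.add_apply, add_mul, Finset.sum_add_distrib]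
        linear_combination e1 + e2
      zero_mem' := by
        intro δ _
        simp
      smul_mem' := by
        intro a κ ha δ hδ
        have e1 := ha δ hδ
        simp only [Pi.smul_apply, smul_eq_mul, mul_assoc]
        rw [← Finset.mul_sum, ← Finset.mul_sum, ← mul_add, e1, mul_zero] }
  have hRel : ∃ κ ∈ Rel, ∃ o ∈ Set.range (Sum.inl : (Fin s ⊕ Fin n × Bool) →
      (Fin s ⊕ Fin n × Bool) ⊕ Fin ρ), κ o ≠ 0 := by
    have hne : (DK K ⊓ TT z).map (omV τ μ u v) < ⊤ := by
      rw [lt_top_iff_ne_top]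
      intro h
      rw [h, finrank_top, Module.finrank_fintype_fun_eq_card, hcard] at hlt
      exact lt_irrefl _ hlt
    obtain ⟨f, hf, hle⟩ := Submodule.exists_le_ker_of_lt_top _ hne
    let Lf : Fin ρ → (DK K →ₗ[ℂ] ℂ) := fun i =>
      (LinearMap.proj i).comp ((dz z).comp (DK K).subtype)
    let Kf : DK K →ₗ[ℂ] ℂ := f.comp ((omV τ μ u v).comp (DK K).subtype)
    have hker : ⨅ i, LinearMap.ker (Lf i) ≤ LinearMap.ker Kf := by
      intro δ hδ
      rw [Submodule.mem_iInf] at hδ
      rw [LinearMap.mem_ker]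
      apply hle
      refine ⟨δ.1, ⟨δ.2, ?_⟩, rfl⟩
      intro i
      exact LinearMap.mem_ker.1 (hδ i)
    obtain ⟨κ', hκ'⟩ := (Submodule.mem_span_range_iff_exists_fun ℂ).1
      (mem_span_of_iInf_ker_le_ker hker)
    let κ₀ : Fin s ⊕ Fin n × Bool → ℂ := fun o => f (fun j => if o = j then 1 else 0)
    refine ⟨Sum.elim κ₀ (fun i => -κ' i), ?_, ?_⟩
    · intro δ hδ
      have e1 : f (omV τ μ u v δ) = ∑ i, κ' i * dz z δ i := by
        have e2 := congrArg (fun g : DK K →ₗ[ℂ] ℂ => g ⟨δ, hδ⟩) hκ'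
        simp only [LinearMap.sum_apply, LinearMap.smul_apply, smul_eq_mul] at e2
        exact e2.symm
      rw [LinearMap.pi_apply_eq_sum_univ f] at e1
      simp only [Sum.elim_inl, Sum.elim_inr, neg_mul, Finset.sum_neg_distrib]
      rw [← e1, add_neg_eq_zero]
      refine Finset.sum_congr rfl fun o _ => ?_
      rw [smul_eq_mul, mul_comm]
    · by_contra hcon
      push Not at hcon
      apply hf
      apply LinearMap.ext
      intro y
      rw [LinearMap.pi_apply_eq_sum_univ f, LinearMap.zero_apply]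
      refine Finset.sum_eq_zero fun o _ => ?_
      have e1 : f (fun j => if o = j then 1 else 0) = 0 := hcon (Sum.inl o) ⟨o, rfl⟩
      rw [e1, smul_zero]
  -- the field of the values
  obtain ⟨E, hE, hKE, hTE, hiff⟩ := h4 τ μ K s n ρ N hK u v z hT
  have hDK : ∀ δ ∈ DK E, δ ∈ DK K := fun δ hδ x hx => hδ x (hKE hx)
  obtain ⟨κ, hκR, ⟨_, ⟨o₀, rfl⟩, hκ0⟩, hκE⟩ := h3 E hE.acl _ _ Rel hRel (by
    intro δ₀ hδ₀ κ hκ δ hδ
    obtain ⟨e1, e2⟩ := (hiff δ₀ (hDK δ₀ hδ₀)).2 hδ₀
    exact h5 τ μ K s n ρ (fun hn => (hK.ell hn).1) u v z δ₀ (hDK δ₀ hδ₀) e1 e2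
      (fun o => κ (Sum.inl o)) (fun i => κ (Sum.inr i)) hκ δ hδ)
  -- the relation holds along the gradients
  have hrel : ∀ i : Fin q, ∀ γ ∈ V, ∀ δ ∈ DK E,
      ∑ o, κ (Sum.inl o) * omV τ μ (fun j => γ * pg R β i j) (fun j => γ * pg S β i j) δ o +
        ∑ l, κ (Sum.inr l) * δ (γ * pg Z β i l) = 0 := by
    intro i γ hγ δ hδ
    choose fR hR1 hR2 hR3 hR4 using fun j => h6 q (R j) β i γ
    choose fS hS1 hS2 hS3 hS4 using fun j => h6 q (S j) β i γ
    choose fZ hZ1 hZ2 hZ3 hZ4 using fun j => h6 q (Z j) β i γ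
    let d : ℕ := (∑ j, (fR j).natDegree) + (∑ j, (fS j).natDegree) + ∑ j, (fZ j).natDegree
    have hdR : ∀ j, (fR j).natDegree < d + 2 := by
      intro j
      have e1 := Finset.single_le_sum (f := fun j => (fR j).natDegree)
        (fun _ _ => Nat.zero_le _) (Finset.mem_univ j)
      omega
    have hdS : ∀ j, (fS j).natDegree < d + 2 := by
      intro j
      have e1 := Finset.single_le_sum (f := fun j => (fS j).natDegree)
        (fun _ _ => Nat.zero_le _) (Finset.mem_univ j)
      omega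
    have hdZ : ∀ j, (fZ j).natDegree < d + 2 := by
      intro j
      have e1 := Finset.single_le_sum (f := fun j => (fZ j).natDegree)
        (fun _ _ => Nat.zero_le _) (Finset.mem_univ j)
      omega
    let w : ℕ → PSp s n ρ := fun k => (fun j => (fR j).coeff k, fun j => (fS j).coeff k,
      fun j => (fZ j).coeff k)
    have hw0 : w 0 = (u, v, z) := by
      refine Prod.ext ?_ (Prod.ext ?_ ?_)
      · funext j
        exact hR2 j
      · funext j
        exact hS2 j
      · funext j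
        exact hZ2 j
    have hsum : ∀ c : ℚ, ∑ k ∈ Finset.range (d + 2), c ^ k • w k =
        (pv R (fun l => β l + if l = i then (c : ℂ) * γ else 0),
          pv S (fun l => β l + if l = i then (c : ℂ) * γ else 0),
          pv Z (fun l => β l + if l = i then (c : ℂ) * γ else 0)) := by
      intro c
      refine Prod.ext ?_ (Prod.ext ?_ ?_)
      · rw [Prod.fst_sum]
        funext j
        rw [Finset.sum_apply]
        show ∑ k ∈ Finset.range (d + 2), (c ^ k) • (fR j).coeff k = _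
        rw [eval_sum (hdR j) c, ← hR4 j]
        rfl
      · rw [Prod.snd_sum, Prod.fst_sum]
        funext j
        rw [Finset.sum_apply]
        show ∑ k ∈ Finset.range (d + 2), (c ^ k) • (fS j).coeff k = _
        rw [eval_sum (hdS j) c, ← hS4 j]
        rfl
      · rw [Prod.snd_sum, Prod.snd_sum]
        funext j
        rw [Finset.sum_apply]
        show ∑ k ∈ Finset.range (d + 2), (c ^ k) • (fZ j).coeff k = _
        rw [eval_sum (hdZ j) c, ← hZ4 j]
        rfl
    have hF : ∀ c : ℚ, Module.finrank ℂ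
        (LinearMap.range (F (∑ k ∈ Finset.range (d + 2), c ^ k • w k))) ≤
        Module.finrank ℂ (LinearMap.range (F (w 0))) := by
      intro c
      rw [range_om, range_om, hsum c, hw0]
      refine hmax _ fun l => ?_
      by_cases hl : l = i
      · rw [if_pos hl]
        refine V.add_mem (hβ l) ?_
        rw [← Rat.smul_def]
        exact V.smul_mem c hγ
      · rw [if_neg hl, add_zero]
        exact hβ l
    have e1 := h2 (DK K) (PSp s n ρ) ((Fin s ⊕ Fin n × Bool) ⊕ Fin ρ) F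
      (fun a a' => F.map_add a a')
      (by
        intro a y
        rw [Rat.cast_smul_eq_qsmul]
        exact map_rat_smul F a y) d w hF κ (by
        intro δ
        rw [hw0, Fintype.sum_sum_type]
        exact hκR δ.1 δ.2) ⟨δ, hDK δ hδ⟩ (by
        rw [hw0]
        obtain ⟨e1, e2⟩ := (hiff δ (hDK δ hδ)).2 hδ
        funext o
        rcases o with o | i
        · exact congrFun e1 o
        · exact congrFun e2 i)
    rw [Fintype.sum_sum_type] at e1
    have hw1 : w 1 = (fun j => γ * pg R β i j, fun j => γ * pg S β i j,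
        fun j => γ * pg Z β i j) := by
      refine Prod.ext ?_ (Prod.ext ?_ ?_)
      · funext j
        exact hR3 j
      · funext j
        exact hS3 j
      · funext j
        exact hZ3 j
    rw [hw1] at e1
    exact e1
  have hk := h1 τ μ (V : Set ℂ) E s n q hE (hbig E hE hTE) (fun i j => pg R β i j) (fun i j => pg S β i j)
    (by
      intro c hc
      have e1 := hR (fun j => (c j : ℂ)) (fun j => SubfieldClass.ratCast_mem _ (c j)) hc
      funext j
      have e2 := congrFun e1 j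
      simpa using e2) hS (fun o => κ (Sum.inl o)) (fun o => hκE _) (by
      intro i γ hγ
      refine ⟨-∑ l, κ (Sum.inr l) * (γ * pg Z β i l), fun δ hδ => ?_⟩
      rw [map_neg, map_sum, eq_neg_iff_add_eq_zero, ← hrel i γ hγ δ hδ]
      congr 1
      refine Finset.sum_congr rfl fun l _ => ?_
      rw [Derivation.leibniz, hδ _ (hκE (Sum.inr l)), smul_zero, add_zero, smul_eq_mul])
  exact hκ0 (congrFun hk o₀)

end Pool.Agent.Work.MP_8da9ea_nt.FR
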