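import Pool.Agent.Work.MP_8da9ea_nt.FR.StmtsK
import Pool.Agent.Work.MP_8da9ea_nt.FR.I_CoreP

/-!
# K7, the core on a closed set
-/

set_option autoImplicit false

namespace Pool.Agent.Work.MP_8da9ea_nt.FR

open MvPolynomial Pool.Agent.Work.MP_327059_nt.GL Pool.Agent.Work.MP_8da9ea_nt.S
  Pool.Agent.Work.MP_8da9ea_nt.EB Pool.Agent.Work.MP_8da9ea_nt.EC

namespace I_CoreW

/-- The polynomial `A(∑_a x_ia e_a)` in the variables `x_ia`. -/
noncomputable def sbx {q D : ℕ} (e : Fin D → ℂ) (A : MvPolynomial (Fin q) ℂ) :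
    MvPolynomial (Fin q × Fin D) ℂ :=
  aeval (fun i => ∑ a, C (e a) * X (i, a)) A

theorem eval_sbx {q D : ℕ} (e : Fin D → ℂ) (A : MvPolynomial (Fin q) ℂ)
    (x : Fin q × Fin D → ℚ) :
    eval (fun o => (x o : ℂ)) (sbx e A) = eval (cx e x) A := by
  unfold sbx
  induction A using MvPolynomial.induction_on with
  | C a => simp
  | add p p' hp hp' => rw [map_add, map_add, map_add, hp, hp']
  | mul_X p i hp =>
    rw [map_mul, map_mul, map_mul, hp, aeval_X, eval_X, map_sum]
    congr 1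
    unfold cx co
    refine Finset.sum_congr rfl fun a _ => ?_
    rw [map_mul, eval_C, eval_X, mul_comm]

theorem pderiv_sbx {q D : ℕ} (e : Fin D → ℂ) (A : MvPolynomial (Fin q) ℂ) (i : Fin q)
    (a : Fin D) : pderiv (i, a) (sbx e A) = C (e a) * sbx e (pderiv i A) := by
  unfold sbx
  induction A using MvPolynomial.induction_on with
  | C c => simp
  | add p p' hp hp' => rw [map_add, map_add, map_add, map_add, hp, hp', mul_add]
  | mul_X p l hp =>
    have hX : pderiv (i, a) (∑ b, C (e b) * X (l, b) : MvPolynomial (Fin q × Fin D) ℂ) =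
        if l = i then C (e a) else 0 := by
      rw [map_sum]
      by_cases hl : l = i
      · subst hl
        rw [if_pos rfl, Finset.sum_eq_single a]
        · rw [pderiv_C_mul, pderiv_X_self, mul_one]
        · intro b _ hb
          rw [pderiv_C_mul, pderiv_X_of_ne, mul_zero]
          intro h
          exact hb (congrArg Prod.snd h)
        · intro h
          exact absurd (Finset.mem_univ a) h
      · rw [if_neg hl]
        refine Finset.sum_eq_zero fun b _ => ?_
        rw [pderiv_C_mul, pderiv_X_of_ne, mul_zero]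
        intro h
        exact hl (congrArg Prod.fst h)
    rw [map_mul, aeval_X, Derivation.leibniz, Derivation.leibniz, smul_eq_mul, smul_eq_mul,
      smul_eq_mul, smul_eq_mul, hp, hX, map_add, map_mul, map_mul, aeval_X]
    by_cases hl : l = i
    · subst hl
      rw [if_pos rfl, pderiv_X_self, map_one]
      ring
    · rw [if_neg hl, pderiv_X_of_ne (fun h => hl h), map_zero]
      ring

theorem castm {I : Type} (x : I → ℚ) (b : I →₀ ℕ) (c : ℚ) :
    eval (fun o => (x o : ℂ)) (monomial b (c : ℂ)) = ((eval x (monomial b c) : ℚ) : ℂ) := by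
  rw [eval_monomial, eval_monomial]
  unfold Finsupp.prod
  push_cast
  rfl

theorem sum_pe {I : Type} (A : MvPolynomial I ℂ) {T : Finset (I →₀ ℕ)} (hT : A.support ⊆ T)
    (x : I → ℚ) :
    ∑ b ∈ T, eval x (monomial b (1 : ℚ)) • coeff b A = eval (fun o => (x o : ℂ)) A := by
  have h1 : A = ∑ b ∈ T, monomial b (coeff b A) := by
    conv_lhs => rw [A.as_sum]
    refine Finset.sum_subset hT fun b _ hb => ?_
    rw [notMem_support_iff.1 hb, map_zero]
  conv_rhs => rw [h1]
  rw [map_sum]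
  refine Finset.sum_congr rfl fun b _ => ?_
  have h2 : (monomial b (coeff b A) : MvPolynomial I ℂ) =
      C (coeff b A) * monomial b ((1 : ℚ) : ℂ) := by
    rw [C_mul_monomial, Rat.cast_one, mul_one]
  rw [h2, map_mul, eval_C, castm, Rat.smul_def, mul_comm]

theorem sum_pd {I : Type} [Fintype I] (A : MvPolynomial I ℂ) {T : Finset (I →₀ ℕ)}
    (hT : A.support ⊆ T) (x h : I → ℚ) :
    ∑ b ∈ T, (∑ i, h i * eval x (pderiv i (monomial b (1 : ℚ)))) • coeff b A =
      ∑ i, (h i : ℂ) * eval (fun o => (x o : ℂ)) (pderiv i A) := by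
  classical
  have h1 : A = ∑ b ∈ T, monomial b (coeff b A) := by
    conv_lhs => rw [A.as_sum]
    refine Finset.sum_subset hT fun b _ hb => ?_
    rw [notMem_support_iff.1 hb, map_zero]
  have h2 : ∀ i, eval (fun o => (x o : ℂ)) (pderiv i A) =
      ∑ b ∈ T, ((eval x (pderiv i (monomial b (1 : ℚ))) : ℚ) : ℂ) * coeff b A := by
    intro i
    conv_lhs => rw [h1]
    rw [map_sum, map_sum]
    refine Finset.sum_congr rfl fun b _ => ?_
    have h3 : (monomial b (coeff b A) : MvPolynomial I ℂ) =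
        C (coeff b A) * monomial b (1 : ℂ) := by
      rw [C_mul_monomial, mul_one]
    rw [h3, pderiv_C_mul, map_mul, eval_C, pderiv_monomial, pderiv_monomial]
    have h4 : ((1 : ℂ) * (b i : ℂ)) = (((1 : ℚ) * (b i : ℚ) : ℚ) : ℂ) := by
      push_cast
      rfl
    rw [h4, castm, mul_comm]
  simp only [h2, Finset.mul_sum]
  rw [Finset.sum_comm]
  refine Finset.sum_congr rfl fun b _ => ?_
  rw [Rat.smul_def, Rat.cast_sum, Finset.sum_mul]
  refine Finset.sum_congr rfl fun i _ => ?_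
  rw [Rat.cast_mul, mul_assoc]

/-- The monomials of a family. -/
noncomputable def spt {q s D : ℕ} (e : Fin D → ℂ) (R : Fin s → MvPolynomial (Fin q) ℂ) :
    Finset ((Fin q × Fin D) →₀ ℕ) := by
  classical
  exact Finset.univ.biUnion fun j => (sbx e (R j)).support

theorem spt_sub {q s D : ℕ} (e : Fin D → ℂ) (R : Fin s → MvPolynomial (Fin q) ℂ) (j : Fin s) :
    (sbx e (R j)).support ⊆ spt e R := by
  classical
  intro b hb
  unfold spt
  exact Finset.mem_biUnion.2 ⟨j, Finset.mem_univ j, hb⟩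

open Classical in
/-- The coefficients of all polynomials in the rational variables. -/
noncomputable def Ph {q s n ρ D : ℕ} (e : Fin D → ℂ) (R : Fin s → MvPolynomial (Fin q) ℂ)
    (S : Fin n → MvPolynomial (Fin q) ℂ) (Z : Fin ρ → MvPolynomial (Fin q) ℂ) :
    ((Fin q × Fin D) →₀ ℕ) →₀ I_CoreP.PSp s n ρ :=
  Finsupp.onFinset (spt e R ∪ (spt e S ∪ spt e Z))
    (fun b => (fun j => coeff b (sbx e (R j)), fun j => coeff b (sbx e (S j)),
      fun j => coeff b (sbx e (Z j)))) (by
      intro b hb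
      by_contra hcon
      rw [Finset.mem_union, Finset.mem_union, not_or, not_or] at hcon
      apply hb
      refine Prod.ext ?_ (Prod.ext ?_ ?_)
      · funext j
        exact notMem_support_iff.1 fun h => hcon.1 (spt_sub e R j h)
      · funext j
        exact notMem_support_iff.1 fun h => hcon.2.1 (spt_sub e S j h)
      · funext j
        exact notMem_support_iff.1 fun h => hcon.2.2 (spt_sub e Z j h))

theorem pe_Ph {q s n ρ D : ℕ} (e : Fin D → ℂ) (R : Fin s → MvPolynomial (Fin q) ℂ)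
    (S : Fin n → MvPolynomial (Fin q) ℂ) (Z : Fin ρ → MvPolynomial (Fin q) ℂ)
    (x : Fin q × Fin D → ℚ) :
    pe (Ph e R S Z) x = (pv R (cx e x), pv S (cx e x), pv Z (cx e x)) := by
  classical
  unfold pe Ph
  rw [Finsupp.onFinset_sum _ (fun b => smul_zero _)]
  refine Prod.ext ?_ (Prod.ext ?_ ?_)
  · rw [Prod.fst_sum]
    funext j
    rw [Finset.sum_apply]
    show ∑ b ∈ _, eval x (monomial b (1 : ℚ)) • coeff b (sbx e (R j)) = _
    rw [sum_pe _ ((spt_sub e R j).trans Finset.subset_union_left), eval_sbx]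
    rfl
  · rw [Prod.snd_sum, Prod.fst_sum]
    funext j
    rw [Finset.sum_apply]
    show ∑ b ∈ _, eval x (monomial b (1 : ℚ)) • coeff b (sbx e (S j)) = _
    rw [sum_pe _ ((spt_sub e S j).trans (Finset.subset_union_left.trans
      Finset.subset_union_right)), eval_sbx]
    rfl
  · rw [Prod.snd_sum, Prod.snd_sum]
    funext j
    rw [Finset.sum_apply]
    show ∑ b ∈ _, eval x (monomial b (1 : ℚ)) • coeff b (sbx e (Z j)) = _
    rw [sum_pe _ ((spt_sub e Z j).trans (Finset.subset_union_right.trans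
      Finset.subset_union_right)), eval_sbx]
    rfl

theorem sum_tv {q s D : ℕ} (e : Fin D → ℂ) (R : Fin s → MvPolynomial (Fin q) ℂ)
    (x h : Fin q × Fin D → ℚ) (j : Fin s) :
    ∑ o, (h o : ℂ) * eval (fun o => (x o : ℂ)) (pderiv o (sbx e (R j))) = tv R e x h j := by
  rw [Fintype.sum_prod_type]
  unfold tv
  refine Finset.sum_congr rfl fun i _ => ?_
  have h1 : cx e h i = ∑ a, (h (i, a) : ℂ) * e a := rfl
  rw [h1, Finset.sum_mul]
  refine Finset.sum_congr rfl fun a _ => ?_
  rw [pderiv_sbx, map_mul, eval_C, eval_sbx]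
  unfold pg
  ring

theorem pd_Ph {q s n ρ D : ℕ} (e : Fin D → ℂ) (R : Fin s → MvPolynomial (Fin q) ℂ)
    (S : Fin n → MvPolynomial (Fin q) ℂ) (Z : Fin ρ → MvPolynomial (Fin q) ℂ)
    (x h : Fin q × Fin D → ℚ) :
    pd (Ph e R S Z) x h = (tv R e x h, tv S e x h, tv Z e x h) := by
  classical
  unfold pd Ph
  rw [Finsupp.onFinset_sum _ (fun b => smul_zero _)]
  refine Prod.ext ?_ (Prod.ext ?_ ?_)
  · rw [Prod.fst_sum]
    funext j
    rw [Finset.sum_apply]
    show ∑ b ∈ _, (∑ i, h i * eval x (pderiv i (monomial b (1 : ℚ)))) •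
      coeff b (sbx e (R j)) = _
    rw [sum_pd _ ((spt_sub e R j).trans Finset.subset_union_left), sum_tv]
  · rw [Prod.snd_sum, Prod.fst_sum]
    funext j
    rw [Finset.sum_apply]
    show ∑ b ∈ _, (∑ i, h i * eval x (pderiv i (monomial b (1 : ℚ)))) •
      coeff b (sbx e (S j)) = _
    rw [sum_pd _ ((spt_sub e S j).trans (Finset.subset_union_left.trans
      Finset.subset_union_right)), sum_tv]
  · rw [Prod.snd_sum, Prod.snd_sum]
    funext j
    rw [Finset.sum_apply]
    show ∑ b ∈ _, (∑ i, h i * eval x (pderiv i (monomial b (1 : ℚ)))) •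
      coeff b (sbx e (Z j)) = _
    rw [sum_pd _ ((spt_sub e Z j).trans (Finset.subset_union_right.trans
      Finset.subset_union_right)), sum_tv]

end I_CoreW

open I_CoreP I_CoreW in
theorem CoreW_pf (h1 : S_KeyW) (h2 : S_PertW) (h3 : S_RelE) (h4 : S_EField) (h5 : S_RelStab)
    (l1 : S_LamAddK) (l3 : S_EtaAddK) : S_CoreW := by
  classical
  intro τ μ s n q ρ N D R S Z K hK hT e ξ E' hE' z₀ _ hmax hbig
  have hcard : Fintype.card (Fin s ⊕ Fin n × Bool) = s + 2 * n := by
    rw [Fintype.card_sum, Fintype.card_prod, Fintype.card_fin, Fintype.card_fin, Fintype.card_bool]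
    ring
  let F := om (s := s) l1 l3 ρ hK
  by_contra hlt
  push Not at hlt
  -- the relations at the point
  set u : Fin s → ℂ := pv R (cx e z₀) with hu
  set v : Fin n → ℂ := pv S (cx e z₀) with hv
  set z : Fin ρ → ℂ := pv Z (cx e z₀) with hz
  let Rel : Submodule ℂ ((Fin s ⊕ Fin n × Bool) ⊕ Fin ρ → ℂ) :=
    { carrier := {κ | ∀ δ ∈ DK K, ∑ o, κ (Sum.inl o) * omV τ μ u v δ o +
        ∑ i, κ (Sum.inr i) * dz z δ i = 0}
      add_mem' := by
        intro a a' ha ha' δ hδ
        have e1 := ha δ hδ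
        have e2 := ha' δ hδ
        simp only [Pi.add_apply, add_mul, Finset.sum_add_distrib]
        linear_combination e1 + e2
      zero_mem' := by
        intro δ _
        simp
      smul_mem' := by
        intro a κ ha δ hδ
        have e1 := ha δ hδ
        simp only [Pi.smul_apply, smul_eq_mul, mul_assoc]
        rw [← Finset.mul_sum, ← Finset.mul_sum, ← mul_add, e1, mul_zero] }
  have hRel : ∃ κ ∈ Rel, ∃ o ∈ Set.range (Sum.inl : (Fin s ⊕ Fin n × Bool) →
      (Fin s ⊕ Fin n × Bool) ⊕ Fin ρ), κ o ≠ 0 := by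
    have hne : (DK K ⊓ TT z).map (omV τ μ u v) < ⊤ := by
      rw [lt_top_iff_ne_top]
      intro h
      rw [h, finrank_top, Module.finrank_fintype_fun_eq_card, hcard] at hlt
      exact lt_irrefl _ hlt
    obtain ⟨f, hf, hle⟩ := Submodule.exists_le_ker_of_lt_top _ hne
    let Lf : Fin ρ → (DK K →ₗ[ℂ] ℂ) := fun i =>
      (LinearMap.proj i).comp ((dz z).comp (DK K).subtype)
    let Kf : DK K →ₗ[ℂ] ℂ := f.comp ((omV τ μ u v).comp (DK K).subtype)
    have hker : ⨅ i, LinearMap.ker (Lf i) ≤ LinearMap.ker Kf := by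
      intro δ hδ
      rw [Submodule.mem_iInf] at hδ
      rw [LinearMap.mem_ker]
      apply hle
      refine ⟨δ.1, ⟨δ.2, ?_⟩, rfl⟩
      intro i
      exact LinearMap.mem_ker.1 (hδ i)
    obtain ⟨κ', hκ'⟩ := (Submodule.mem_span_range_iff_exists_fun ℂ).1
      (mem_span_of_iInf_ker_le_ker hker)
    let κ₀ : Fin s ⊕ Fin n × Bool → ℂ := fun o => f (fun j => if o = j then 1 else 0)
    refine ⟨Sum.elim κ₀ (fun i => -κ' i), ?_, ?_⟩
    · intro δ hδ
      have e1 : f (omV τ μ u v δ) = ∑ i, κ' i * dz z δ i := by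
        have e2 := congrArg (fun g : DK K →ₗ[ℂ] ℂ => g ⟨δ, hδ⟩) hκ'
        simp only [LinearMap.sum_apply, LinearMap.smul_apply, smul_eq_mul] at e2
        exact e2.symm
      rw [LinearMap.pi_apply_eq_sum_univ f] at e1
      simp only [Sum.elim_inl, Sum.elim_inr, neg_mul, Finset.sum_neg_distrib]
      rw [← e1, add_neg_eq_zero]
      refine Finset.sum_congr rfl fun o _ => ?_
      rw [smul_eq_mul, mul_comm]
    · by_contra hcon
      push Not at hcon
      apply hf
      apply LinearMap.ext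
      intro y
      rw [LinearMap.pi_apply_eq_sum_univ f, LinearMap.zero_apply]
      refine Finset.sum_eq_zero fun o _ => ?_
      have e1 : f (fun j => if o = j then 1 else 0) = 0 := hcon (Sum.inl o) ⟨o, rfl⟩
      rw [e1, smul_zero]
  -- the field of the values
  obtain ⟨E, hE, hKE, hTE, hiff⟩ := h4 τ μ K s n ρ N hK u v z hT
  have hDK : ∀ δ ∈ DK E, δ ∈ DK K := fun δ hδ x hx => hδ x (hKE hx)
  obtain ⟨κ, hκR, ⟨_, ⟨o₀, rfl⟩, hκ0⟩, hκE⟩ := h3 E hE.acl _ _ Rel hRel (by
    intro δ₀ hδ₀ κ hκ δ hδ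
    obtain ⟨e1, e2⟩ := (hiff δ₀ (hDK δ₀ hδ₀)).2 hδ₀
    exact h5 τ μ K s n ρ (fun hn => (hK.ell hn).1) u v z δ₀ (hDK δ₀ hδ₀) e1 e2
      (fun o => κ (Sum.inl o)) (fun i => κ (Sum.inr i)) hκ δ hδ)
  -- the relation holds along the tangent vectors
  have hw0 : pe (Ph e R S Z) z₀ = (u, v, z) := pe_Ph e R S Z z₀
  have hrel : ∀ h ∈ Tz ξ z₀, ∀ δ ∈ DK E,
      ∑ o, κ (Sum.inl o) * omV τ μ (tv R e z₀ h) (tv S e z₀ h) δ o +
        ∑ l, κ (Sum.inr l) * δ (tv Z e z₀ h l) = 0 := by
    intro h hh δ hδ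
    have e1 := h2 (Fin q × Fin D) (DK K) (PSp s n ρ) ((Fin s ⊕ Fin n × Bool) ⊕ Fin ρ) F
      (fun a a' => F.map_add a a')
      (by
        intro a y
        rw [Rat.cast_smul_eq_qsmul]
        exact map_rat_smul F a y) (Ph e R S Z) ξ E' hE' z₀ (by
        intro x hx
        rw [range_om, range_om, pe_Ph, pe_Ph]
        exact hmax x hx) κ (by
        intro δ
        rw [hw0, Fintype.sum_sum_type]
        exact hκR δ.1 δ.2) ⟨δ, hDK δ hδ⟩ (by
        rw [hw0]
        obtain ⟨e1, e2⟩ := (hiff δ (hDK δ hδ)).2 hδ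
        funext o
        rcases o with o | i
        · exact congrFun e1 o
        · exact congrFun e2 i) h hh
    rw [Fintype.sum_sum_type, pd_Ph] at e1
    exact e1
  have hk := h1 τ μ E s n (Tz ξ z₀) hE (fun h => tv R e z₀ h) (fun h => tv S e z₀ h)
    (hbig E hE hTE) (fun o => κ (Sum.inl o)) (fun o => hκE _) (by
      intro h
      refine ⟨-∑ l, κ (Sum.inr l) * tv Z e z₀ h l, fun δ hδ => ?_⟩
      rw [map_neg, map_sum, eq_neg_iff_add_eq_zero, ← hrel h.1 h.2 δ hδ]
      congr 1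
      refine Finset.sum_congr rfl fun l _ => ?_
      rw [Derivation.leibniz, hδ _ (hκE (Sum.inr l)), smul_zero, add_zero, smul_eq_mul])
  exact hκ0 (congrFun hk o₀)

end Pool.Agent.Work.MP_8da9ea_nt.FR
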