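import Pool.Agent.Work.MP_8da9ea_nt.FR.StmtsK
import Mathlib.FieldTheory.IsAlgClosed.Classification
import Mathlib.RingTheory.Ideal.MinimalPrime.Noetherian
import Mathlib.RingTheory.Polynomial.Basic

/-!
# Block FR, part K, item Dec: decomposition of a set of rational points
-/

set_option autoImplicit false

namespace Pool.Agent.Work.MP_8da9ea_nt.FR

open MvPolynomial Metric Filter Topology Pool.Agent.Work.MP_327059_nt.GL
  Pool.Agent.Work.MP_8da9ea_nt.S Pool.Agent.Work.MP_8da9ea_nt.EB Pool.Agent.Work.MP_8da9ea_nt.EC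

namespace I_Dec

open Cardinal

/-- A countable field of characteristic zero embeds into the complex numbers. -/
lemma emb (K : Type) [Field K] [CharZero K] [Countable K] : Nonempty (K →+* ℂ) := by
  let F := FractionRing (MvPolynomial ℂ K)
  let L := AlgebraicClosure F
  have hK : #K ≤ ℵ₀ := Cardinal.mk_le_aleph0
  have hC : ℵ₀ < #ℂ := by
    rw [Cardinal.mk_complex]
    exact Cardinal.aleph0_lt_continuum
  have h1 : #(MvPolynomial ℂ K) ≤ #ℂ := by
    refine (MvPolynomial.cardinalMk_le_max).trans ?_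
    exact max_le (max_le (hK.trans hC.le) le_rfl) hC.le
  have h2 : #F ≤ #ℂ :=
    (IsLocalization.cardinalMk_le (nonZeroDivisors (MvPolynomial ℂ K))).trans h1
  have h3 : #L ≤ #ℂ :=
    (Algebra.IsAlgebraic.cardinalMk_le_max F L).trans (max_le h2 hC.le)
  have hinj : Function.Injective (fun z : ℂ =>
      algebraMap F L (algebraMap (MvPolynomial ℂ K) F (X z))) := by
    intro a b hab
    have h4 := (algebraMap F L).injective hab
    have h5 := IsFractionRing.injective (MvPolynomial ℂ K) F h4
    exact (MvPolynomial.X_injective h5)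
  have h4 : #ℂ ≤ #L := Cardinal.mk_le_of_injective hinj
  have h5 : #L = #ℂ := le_antisymm h3 h4
  have : CharZero F := charZero_of_injective_algebraMap (R := K)
    (((IsFractionRing.injective (MvPolynomial ℂ K) F)).comp (MvPolynomial.C_injective ℂ K))
  have : CharZero L := charZero_of_injective_algebraMap (algebraMap F L).injective
  obtain ⟨e⟩ := IsAlgClosed.ringEquiv_of_equiv_of_charZero (K := L) (L := ℂ) (by rw [h5]; exact hC)
    (Cardinal.eq.1 h5)
  exact ⟨(e : L →+* ℂ).comp ((algebraMap F L).comp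
    ((algebraMap (MvPolynomial ℂ K) F).comp MvPolynomial.C))⟩

/-- A prime ideal is the ideal of a point with complex coordinates. -/
lemma point {I : Type} [Fintype I] (P : Ideal (MvPolynomial I ℚ)) (hP : P.IsPrime) :
    ∃ ξ : I → ℂ, ∀ f : MvPolynomial I ℚ, aeval ξ f = 0 ↔ f ∈ P := by
  let A := MvPolynomial I ℚ ⧸ P
  let K := FractionRing A
  have hA : Function.Injective (algebraMap ℚ A) := (algebraMap ℚ A).injective
  have : CharZero K := charZero_of_injective_algebraMap (R := ℚ) (algebraMap ℚ K).injective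
  have : Countable (MvPolynomial I ℚ) := by
    have h : #(MvPolynomial I ℚ) ≤ ℵ₀ := by
      refine (MvPolynomial.cardinalMk_le_max).trans ?_
      exact max_le (max_le Cardinal.mk_le_aleph0 Cardinal.mk_le_aleph0) le_rfl
    exact Cardinal.mk_le_aleph0_iff.1 h
  have : Countable A := Function.Surjective.countable (Ideal.Quotient.mk_surjective (I := P))
  have : Countable K := by
    have h : #K ≤ ℵ₀ :=
      (IsLocalization.cardinalMk_le (nonZeroDivisors A)).trans Cardinal.mk_le_aleph0
    exact Cardinal.mk_le_aleph0_iff.1 h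
  obtain ⟨φ⟩ := emb K
  let ψ : MvPolynomial I ℚ →+* ℂ := (φ.comp (algebraMap A K)).comp (Ideal.Quotient.mk P)
  have hψ : ∀ f, ψ f = 0 ↔ f ∈ P := by
    intro f
    have h1 : ψ f = φ (algebraMap A K (Ideal.Quotient.mk P f)) := rfl
    rw [h1, map_eq_zero_iff φ φ.injective,
      map_eq_zero_iff _ (IsFractionRing.injective A K), Ideal.Quotient.eq_zero_iff_mem]
  refine ⟨fun i => ψ (X i), fun f => ?_⟩
  rw [← hψ f]
  have h2 : (aeval (fun i => ψ (X i)) : MvPolynomial I ℚ →ₐ[ℚ] ℂ).toRingHom = ψ := by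
    apply MvPolynomial.ringHom_ext
    · intro r
      have h3 : (ψ.comp MvPolynomial.C) = algebraMap ℚ ℂ := Subsingleton.elim _ _
      have h4 : ψ (C r) = algebraMap ℚ ℂ r := by rw [← h3]; rfl
      simp [h4]
    · intro i
      simp
  have h5 : aeval (fun i => ψ (X i)) f = ψ f := congrArg (fun χ : MvPolynomial I ℚ →+* ℂ => χ f) h2
  rw [h5]

end I_Dec

open I_Dec in
/-- **K1, decomposition.** -/
theorem Dec_pf : S_Dec := by
  classical
  intro I _ E
  -- the ideal of polynomials vanishing on `E`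
  let J : Ideal (MvPolynomial I ℚ) :=
    { carrier := {f | ∀ x ∈ E, eval x f = 0}
      add_mem' := fun {a b} ha hb x hx => by rw [map_add, ha x hx, hb x hx, add_zero]
      zero_mem' := fun x _ => map_zero _
      smul_mem' := fun c {a} ha x hx => by rw [smul_eq_mul, map_mul, ha x hx, mul_zero] }
  have hJ : ∀ f, f ∈ J ↔ ∀ x ∈ E, eval x f = 0 := fun f => Iff.rfl
  have hfin : J.minimalPrimes.Finite := Ideal.finite_minimalPrimes_of_isNoetherianRing _ J
  have : Fintype J.minimalPrimes := hfin.fintype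
  let e := Fintype.equivFin J.minimalPrimes
  let P : Fin (Fintype.card J.minimalPrimes) → Ideal (MvPolynomial I ℚ) := fun k => (e.symm k).1
  have hPm : ∀ k, P k ∈ J.minimalPrimes := fun k => (e.symm k).2
  have hPp : ∀ k, (P k).IsPrime := fun k => (hPm k).1.1
  have hPJ : ∀ k, J ≤ P k := fun k => (hPm k).1.2
  choose ξ hξ using fun k => point (P k) (hPp k)
  have hW : ∀ k (x : I → ℚ), x ∈ Wv (ξ k) ↔ ∀ f ∈ P k, eval x f = 0 := by
    intro k x
    constructor
    · intro h f hf
      exact h f ((hξ k f).2 hf)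
    · intro h f hf
      exact h f ((hξ k f).1 hf)
  have hcov : ∀ x ∈ E, ∃ k, x ∈ Wv (ξ k) := by
    intro x hx
    have hpr : (RingHom.ker (eval x : MvPolynomial I ℚ →+* ℚ)).IsPrime := RingHom.ker_isPrime _
    have hle : J ≤ RingHom.ker (eval x : MvPolynomial I ℚ →+* ℚ) := fun f hf => hf x hx
    obtain ⟨p, hp, hple⟩ := Ideal.exists_minimalPrimes_le hle
    refine ⟨e ⟨p, hp⟩, ?_⟩
    rw [hW]
    intro f hf
    have h1 : P (e ⟨p, hp⟩) = p := by
      show (e.symm (e ⟨p, hp⟩)).1 = p
      rw [Equiv.symm_apply_apply]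
    rw [h1] at hf
    exact hple hf
  refine ⟨Fintype.card J.minimalPrimes, ξ, fun x hx => Set.mem_iUnion.2 (hcov x hx), fun k => ⟨?_, ?_⟩⟩
  · exact Set.inter_subset_right
  · intro f hf
    rw [hξ]
    -- a polynomial in the other primes
    have hg : ∃ g, g ∉ P k ∧ ∀ j, j ≠ k → g ∈ P j := by
      by_contra hcon
      push Not at hcon
      have h1 : (Finset.univ.erase k).inf P ≤ P k := by
        intro g hg
        by_contra h2
        obtain ⟨j, hj, hgj⟩ := hcon g h2
        have h3 : (Finset.univ.erase k).inf P ≤ P j :=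
          Finset.inf_le (Finset.mem_erase.2 ⟨hj, Finset.mem_univ j⟩)
        exact hgj (h3 hg)
      obtain ⟨j, hj, hjk⟩ := ((hPp k).inf_le').1 h1
      have h3 : P k ≤ P j := (hPm k).2 ⟨hPp j, hPJ j⟩ hjk
      have h4 : P j = P k := le_antisymm hjk h3
      have h5 : e.symm j = e.symm k := Subtype.ext h4
      exact (Finset.mem_erase.1 hj).1 (e.symm.injective h5)
    obtain ⟨g, hgk, hgj⟩ := hg
    have hfg : f * g ∈ J := by
      rw [hJ]
      intro x hx
      rw [map_mul]
      obtain ⟨j, hj⟩ := hcov x hx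
      by_cases hjk : j = k
      · subst hjk
        rw [hf x ⟨hx, hj⟩, zero_mul]
      · rw [(hW j x).1 hj g (hgj j hjk), mul_zero]
    rcases (hPp k).mem_or_mem (hPJ k hfg) with h | h
    · exact h
    · exact absurd h hgk

end Pool.Agent.Work.MP_8da9ea_nt.FR
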