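import Pool.Agent.Work.MP_8da9ea_nt.FR.Stmts
import Pool.Agent.Work.MP_8da9ea_nt.Der
import Pool.Agent.Work.MP_8da9ea_nt.EB.I_AxOutE
import Pool.Agent.Work.MP_327059_nt.Bd.B09

/-!
# Block FR, item EField: the field of the values
-/

set_option autoImplicit false

namespace Pool.Agent.Work.MP_8da9ea_nt.FR

open MvPolynomial Pool.Agent.Work.MP_327059_nt.GL Pool.Agent.Work.MP_8da9ea_nt.S
  Pool.Agent.Work.MP_8da9ea_nt.EB Pool.Agent.ED

namespace I_EField

/-- the algebraic closure of a finitely generated field -/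
noncomputable def clos {ι : Type} (y : ι → ℂ) : IntermediateField ℚ ℂ :=
  (algebraicClosure (IntermediateField.adjoin ℚ (Set.range y)) ℂ).restrictScalars ℚ

theorem mem_clos {ι : Type} (y : ι → ℂ) (x : ℂ) : x ∈ clos y ↔ AlgOver y x := by
  unfold clos AlgOver
  rw [IntermediateField.mem_restrictScalars, mem_algebraicClosure_iff]

theorem self_mem {ι : Type} (y : ι → ℂ) (i : ι) : y i ∈ clos y := by
  rw [mem_clos]
  exact isAlgebraic_algebraMap (⟨y i, IntermediateField.subset_adjoin _ _ ⟨i, rfl⟩⟩ :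
    IntermediateField.adjoin ℚ (Set.range y))

theorem clos_cnt {ι : Type} [Finite ι] (y : ι → ℂ) : Countable (clos y) := by
  have h := EB.I_AxOutE.countable_adj (Set.range y) (Set.finite_range y).countable
  have hcount := Algebraic.countable (IntermediateField.adjoin ℚ (Set.range y)) ℂ
  refine Set.Countable.to_subtype (hcount.mono ?_)
  intro e he
  exact (mem_clos y e).1 he

theorem clos_acl {ι : Type} (y : ι → ℂ) : ACl (clos y) := by
  intro x hx
  rw [mem_clos]
  unfold AlgOver
  set L := IntermediateField.adjoin ℚ (Set.range y) with hL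
  have hx' : IsAlgebraic (algebraicClosure L ℂ) x := hx
  have h := algebraicClosure.isAlgebraic L ℂ
  exact hx'.restrictScalars L

theorem clos_mono {ι κ : Type} (y : ι → ℂ) (z : κ → ℂ) (h : ∀ i, y i ∈ clos z) (x : ℂ)
    (hx : x ∈ clos y) : x ∈ clos z := by
  apply clos_acl z
  have h1 : IntermediateField.adjoin ℚ (Set.range y) ≤ clos z := by
    rw [IntermediateField.adjoin_le_iff]
    rintro _ ⟨i, rfl⟩
    exact h i
  have h2 : IsAlgebraic (IntermediateField.adjoin ℚ (Set.range y)) x := (mem_clos y x).1 hx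
  let _ : Algebra (IntermediateField.adjoin ℚ (Set.range y)) (clos z) :=
    (IntermediateField.inclusion h1).toAlgebra
  have _ : IsScalarTower (IntermediateField.adjoin ℚ (Set.range y)) (clos z) ℂ :=
    IsScalarTower.of_algebraMap_eq fun _ => rfl
  exact h2.extendScalars (IntermediateField.inclusion h1).injective

theorem der_clos {ι : Type} (y : ι → ℂ) (δ : Derivation ℚ ℂ ℂ) (h : ∀ i, δ (y i) = 0) :
    δ ∈ DK (clos y) := by
  intro x hx
  refine der_zero_alg (IntermediateField.adjoin ℚ (Set.range y)) δ ?_ x ((mem_clos y x).1 hx)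
  have h1 : IntermediateField.adjoin ℚ (Set.range y) ≤ EB.I_AxOutE.EE (Submodule.span ℂ {δ})
      (0 : Derivation ℚ ℂ ℂ →ₗ[ℂ] (Fin 0 → ℂ)) := by
    rw [IntermediateField.adjoin_le_iff]
    rintro _ ⟨i, rfl⟩ δ' hδ' _
    obtain ⟨c, rfl⟩ := Submodule.mem_span_singleton.1 hδ'
    rw [Derivation.smul_apply, h i, smul_zero]
  intro s hs
  exact h1 hs δ (Submodule.mem_span_singleton_self δ) rfl

/-- a transcendence basis of a field of small transcendence degree -/
theorem basis (K : IntermediateField ℚ ℂ) (N : ℕ) (h : ¬ HasTrdeg K (N + 1)) :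
    ∃ (r : ℕ) (f : Fin r → ℂ), r ≤ N ∧ (∀ t, f t ∈ K) ∧ ∀ x ∈ K, x ∈ clos f := by
  classical
  let P : ℕ → Prop := fun k => HasTrdeg K k
  have hP0 : P 0 := ⟨Fin.elim0, fun t => Fin.elim0 t, algebraicIndependent_empty_type_iff.2
    (algebraMap ℚ ℂ).injective⟩
  obtain ⟨k, hkN, hPk, hmax⟩ : ∃ k, k ≤ N ∧ P k ∧ ¬ P (k + 1) := by
    refine ⟨Nat.findGreatest P N, Nat.findGreatest_le N, Nat.findGreatest_spec (Nat.zero_le N) hP0, ?_⟩
    intro h6
    by_cases h7 : Nat.findGreatest P N + 1 ≤ N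
    · exact absurd (Nat.le_findGreatest h7 h6) (by omega)
    · have h8 : Nat.findGreatest P N = N := by
        have := Nat.findGreatest_le (P := P) N
        omega
      rw [h8] at h6
      exact h h6
  obtain ⟨f, hfK, hf⟩ := hPk
  refine ⟨k, f, hkN, hfK, ?_⟩
  intro e he
  rw [mem_clos]
  by_contra hne
  apply hmax
  have hne' : Transcendental (Algebra.adjoin ℚ (Set.range f)) e := by
    intro hal
    apply hne
    unfold AlgOver
    have h1 : Algebra.adjoin ℚ (Set.range f) ≤
        (IntermediateField.adjoin ℚ (Set.range f)).toSubalgebra :=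
      IntermediateField.algebra_adjoin_le_adjoin _ _
    let _ : Algebra (Algebra.adjoin ℚ (Set.range f)) (IntermediateField.adjoin ℚ (Set.range f)) :=
      (Subalgebra.inclusion h1).toAlgebra
    have _ : IsScalarTower (Algebra.adjoin ℚ (Set.range f))
        (IntermediateField.adjoin ℚ (Set.range f)) ℂ :=
      IsScalarTower.of_algebraMap_eq fun _ => rfl
    exact hal.extendScalars (Subalgebra.inclusion_injective h1)
  have h7 := (hf.option_iff_transcendental e).2 hne'
  refine ⟨fun t => (finSuccEquiv k t).elim e f, ?_, ?_⟩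
  · intro t
    refine Fin.cases ?_ (fun t => ?_) t
    · change (finSuccEquiv k 0).elim e f ∈ K
      rw [finSuccEquiv_zero]
      exact he
    · change (finSuccEquiv k t.succ).elim e f ∈ K
      rw [finSuccEquiv_succ]
      exact hfK t
  · exact h7.comp (finSuccEquiv k) (finSuccEquiv k).injective

/-- the values -/
noncomputable def vls (τ μ : ℂ) {s n : ℕ} (u : Fin s → ℂ) (v : Fin n → ℂ) :
    Fin s ⊕ Fin n × Bool → ℂ :=
  open Classical in
  Sum.elim (fun j => Complex.exp (u j)) (fun o => if v o.1 ∈ Lam τ then 0 else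
    if o.2 then ze τ μ (v o.1) else xe τ μ (v o.1))

theorem vls_of {τ μ : ℂ} {K : IntermediateField ℚ ℂ} (hK : ACl K) {s n : ℕ}
    (hG : 0 < n → GF τ μ K) (u : Fin s → ℂ) (v : Fin n → ℂ) (δ : Derivation ℚ ℂ ℂ) (hδ : δ ∈ DK K)
    (h : omV τ μ u v δ = 0) (o : Fin s ⊕ Fin n × Bool) : δ (vls τ μ u v o) = 0 := by
  classical
  have hlam : ∀ j, v j ∉ Lam τ → lam τ μ δ (v j) = 0 ∧ δ (xe τ μ (v j)) = 0 := by
    intro j hj
    have hN := hG (lt_of_le_of_lt (Nat.zero_le _) j.2)
    have h1 : lam τ μ δ (v j) = 0 := congrFun h (Sum.inr (j, false))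
    refine ⟨h1, ?_⟩
    unfold lam at h1
    rw [if_neg hj, div_eq_zero_iff] at h1
    rcases h1 with h1 | h1
    · exact h1
    · have hc : ye τ μ (v j) ^ 2 = 4 * xe τ μ (v j) ^ 3 -
          (μ ^ 4 * gg2 τ) * xe τ μ (v j) - μ ^ 6 * gg3 τ := by
        have := wpd_sq hN.im hj
        unfold xe ye
        linear_combination μ ^ 6 * this
      rw [h1] at hc
      have e2 : μ ^ 4 * gg2 τ ∈ K := hN.g2
      have e3 : μ ^ 6 * gg3 τ ∈ K := hN.g3
      refine hδ _ (hK _ ?_)
      let p : Polynomial K := Polynomial.C 4 * Polynomial.X ^ 3 -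
        Polynomial.C (⟨_, e2⟩ : K) * Polynomial.X - Polynomial.C (⟨_, e3⟩ : K)
      refine ⟨p, ?_, ?_⟩
      · intro hp
        have h3 : p.coeff 3 = 0 := by rw [hp, Polynomial.coeff_zero]
        have h4 : p.coeff 3 = 4 := by
          simp only [p, Polynomial.coeff_sub, Polynomial.coeff_C_mul, Polynomial.coeff_X_pow,
            Polynomial.coeff_X, Polynomial.coeff_C]
          norm_num
        rw [h4] at h3
        norm_num at h3
      · simp only [p, map_sub, map_mul, map_pow, Polynomial.aeval_X, Polynomial.aeval_C]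
        have h5 : (algebraMap K ℂ) 4 = 4 := by
          exact map_ofNat (algebraMap K ℂ) 4
        have h6 : (algebraMap K ℂ) (⟨_, e2⟩ : K) = μ ^ 4 * gg2 τ := rfl
        have h7 : (algebraMap K ℂ) (⟨_, e3⟩ : K) = μ ^ 6 * gg3 τ := rfl
        rw [h5, h6, h7]
        linear_combination (-1 : ℂ) * hc
  rcases o with j | ⟨j, c⟩
  · have h1 : th δ (u j) = 0 := congrFun h (Sum.inl j)
    unfold th at h1
    rw [div_eq_zero_iff] at h1
    exact h1.resolve_right (Complex.exp_ne_zero _)
  · show δ (if v j ∈ Lam τ then 0 else if c then ze τ μ (v j) else xe τ μ (v j)) = 0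
    by_cases hj : v j ∈ Lam τ
    · rw [if_pos hj, map_zero]
    · rw [if_neg hj]
      obtain ⟨h2, h3⟩ := hlam j hj
      cases c
      · simpa using h3
      · have h1 : etf τ μ δ (v j) = 0 := congrFun h (Sum.inr (j, true))
        unfold etf at h1
        rw [if_neg hj, h2, mul_zero, add_zero] at h1
        simpa using h1

theorem om_of {τ μ : ℂ} {s n : ℕ} (u : Fin s → ℂ) (v : Fin n → ℂ) (δ : Derivation ℚ ℂ ℂ)
    (h : ∀ o, δ (vls τ μ u v o) = 0) : omV τ μ u v δ = 0 := by
  classical
  have hl : ∀ j, lam τ μ δ (v j) = 0 := by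
    intro j
    unfold lam
    by_cases hj : v j ∈ Lam τ
    · rw [if_pos hj]
    · rw [if_neg hj]
      have h1 : δ (if v j ∈ Lam τ then 0 else if false then ze τ μ (v j) else xe τ μ (v j)) = 0 :=
        h (Sum.inr (j, false))
      rw [if_neg hj] at h1
      have h2 : δ (xe τ μ (v j)) = 0 := by simpa using h1
      rw [h2, zero_div]
  funext o
  rcases o with j | ⟨j, c⟩
  · show th δ (u j) = 0
    have h1 : δ (Complex.exp (u j)) = 0 := h (Sum.inl j)
    unfold th
    rw [h1, zero_div]
  · cases c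
    · exact hl j
    · show etf τ μ δ (v j) = 0
      unfold etf
      by_cases hj : v j ∈ Lam τ
      · rw [if_pos hj]
      · rw [if_neg hj, hl j, mul_zero, add_zero]
        have h1 : δ (if v j ∈ Lam τ then 0 else if true then ze τ μ (v j) else xe τ μ (v j)) = 0 :=
          h (Sum.inr (j, true))
        rw [if_neg hj] at h1
        simpa using h1

end I_EField

open I_EField in
theorem EField_pf : S_EField := by
  classical
  intro τ μ K s n q N hK u v z htr
  obtain ⟨r, f, hr, hfK, hKf⟩ := basis K N htr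
  let y : Fin r ⊕ ((Fin s ⊕ Fin n × Bool) ⊕ Fin q) → ℂ := Sum.elim f (Sum.elim (vls τ μ u v) z)
  have hKE : K ≤ clos y := by
    intro x hx
    exact clos_mono f y (fun i => self_mem y (Sum.inl i)) x (hKf x hx)
  refine ⟨clos y, ⟨clos_cnt y, clos_acl y, fun hn => ?_⟩, hKE, ?_, ?_⟩
  · obtain ⟨hG, h1, h2, h3, h4⟩ := hK.ell hn
    exact ⟨⟨hG.im, hG.mu, hKE hG.g2, hKE hG.g3⟩, hKE h1, hKE h2, hKE h3, hKE h4⟩
  · rintro ⟨x, hx, hind⟩
    have h3 := pr_TrCount (Fin (N + s + 2 * n + q + 1))
      (Fin r ⊕ ((Fin s ⊕ Fin n × Bool) ⊕ Fin q)) x y hind (fun i => (mem_clos y _).1 (hx i))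
    simp only [Fintype.card_fin, Fintype.card_sum, Fintype.card_prod, Fintype.card_bool] at h3
    omega
  · intro δ hδ
    constructor
    · rintro ⟨h, h'⟩
      apply der_clos
      rintro (i | o | i)
      · exact hδ _ (hfK i)
      · exact vls_of hK.acl (fun hn => (hK.ell hn).1) u v δ hδ h o
      · exact congrFun h' i
    · intro h
      refine ⟨om_of u v δ fun o => h _ (self_mem y (Sum.inr (Sum.inl o))), ?_⟩
      funext i
      exact h _ (self_mem y (Sum.inr (Sum.inr i)))

end Pool.Agent.Work.MP_8da9ea_nt.FR
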