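import Pool.Agent.Work.MP_8da9ea_nt.FR.Stmts
import Pool.Agent.Work.MP_8da9ea_nt.Bd.B01

/-!
# Block FR, item EtaAddK
-/

set_option autoImplicit false

namespace Pool.Agent.Work.MP_8da9ea_nt.FR

open Pool.Agent.Work.MP_327059_nt.GL Pool.Agent.Work.MP_8da9ea_nt.S
  Pool.Agent.Work.MP_8da9ea_nt.EB Pool.Agent.Work.MP_8da9ea_nt.EC

namespace I_EtaAddK

open Pool.Agent.Work.MP_8da9ea_nt.Fx

lemma der_nat (δ : Derivation ℚ ℂ ℂ) (n : ℕ) : δ (n : ℂ) = 0 := δ.map_natCast n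

lemma der_int (δ : Derivation ℚ ℂ ℂ) (n : ℤ) : δ (n : ℂ) = 0 := δ.map_intCast n

lemma der_two (δ : Derivation ℚ ℂ ℂ) (x : ℂ) : δ (2 * x) = 2 * δ x := by
  have h : δ ((2 : ℂ)) = 0 := by simpa using der_nat δ 2
  rw [Derivation.leibniz, h]
  simp

lemma der_sq (δ : Derivation ℚ ℂ ℂ) (x : ℂ) : δ (x ^ 2) = 2 * x * δ x := by
  rw [Derivation.leibniz_pow]
  simp
  ring

variable {τ μ : ℂ} {K : IntermediateField ℚ ℂ}

lemma curve (h : GF τ μ K) {u : ℂ} (hu : u ∉ Lam τ) :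
    ye τ μ u ^ 2 = 4 * xe τ μ u ^ 3 - (μ ^ 4 * gg2 τ) * xe τ μ u - μ ^ 6 * gg3 τ := by
  have := wpd_sq h.im hu
  unfold xe ye
  linear_combination μ ^ 6 * this

lemma lam_of (δ : Derivation ℚ ℂ ℂ) {u : ℂ} (hu : u ∉ Lam τ) :
    lam τ μ δ u = δ (xe τ μ u) / ye τ μ u := by
  unfold lam
  rw [if_neg hu]

lemma lam_in (δ : Derivation ℚ ℂ ℂ) {u : ℂ} (hu : u ∈ Lam τ) : lam τ μ δ u = 0 := by
  unfold lam
  rw [if_pos hu]

lemma etf_of (δ : Derivation ℚ ℂ ℂ) {u : ℂ} (hu : u ∉ Lam τ) :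
    etf τ μ δ u = δ (ze τ μ u) + xe τ μ u * lam τ μ δ u := by
  unfold etf
  rw [if_neg hu]

lemma etf_in (δ : Derivation ℚ ℂ ℂ) {u : ℂ} (hu : u ∈ Lam τ) : etf τ μ δ u = 0 := by
  unfold etf
  rw [if_pos hu]

/-- the differentiated equation of the curve -/
lemma dcurve (h : GF τ μ K) {δ : Derivation ℚ ℂ ℂ} (hδ : δ ∈ DK K) {u : ℂ} (hu : u ∉ Lam τ) :
    2 * ye τ μ u * δ (ye τ μ u) = (12 * xe τ μ u ^ 2 - μ ^ 4 * gg2 τ) * δ (xe τ μ u) := by
  have h1 := congrArg δ (curve h hu)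
  have h4 : δ ((4 : ℂ)) = 0 := by simpa using der_nat δ 4
  rw [der_sq, map_sub, map_sub, Derivation.leibniz δ (μ ^ 4 * gg2 τ), hδ _ h.g2,
    hδ _ h.g3, Derivation.leibniz δ 4 (xe τ μ u ^ 3), Derivation.leibniz_pow, h4] at h1
  simp only [smul_eq_mul, nsmul_eq_mul, mul_zero, add_zero, sub_zero] at h1
  push_cast at h1
  linear_combination h1

/-- the derivative of `X` -/
lemma dX (h : GF τ μ K) {δ : Derivation ℚ ℂ ℂ} (hδ : δ ∈ DK K) {u : ℂ} (hu : u ∉ Lam τ) :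
    δ (xe τ μ u) = lam τ μ δ u * ye τ μ u := by
  rw [lam_of δ hu]
  by_cases hy : ye τ μ u = 0
  · have h1 := dcurve h hδ hu
    have h0 := curve h hu
    rw [hy] at h1 h0
    have h2 : (12 * xe τ μ u ^ 2 - μ ^ 4 * gg2 τ) ≠ 0 := by
      intro h3
      have hd := disc_ne h.im
      have e2 : μ ^ 4 * gg2 τ = 12 * xe τ μ u ^ 2 := by linear_combination -h3
      have e3 : μ ^ 6 * gg3 τ = -8 * xe τ μ u ^ 3 := by
        rw [e2] at h0
        linear_combination h0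
      have e4 : μ ^ 12 * (gg2 τ ^ 3 - 27 * gg3 τ ^ 2) = 0 := by
        have : μ ^ 12 * (gg2 τ ^ 3 - 27 * gg3 τ ^ 2) =
            (μ ^ 4 * gg2 τ) ^ 3 - 27 * (μ ^ 6 * gg3 τ) ^ 2 := by ring
        rw [this, e2, e3]
        ring
      exact (mul_ne_zero (pow_ne_zero 12 h.mu) hd) e4
    have h5 : δ (xe τ μ u) = 0 := by
      have h6 : (12 * xe τ μ u ^ 2 - μ ^ 4 * gg2 τ) * δ (xe τ μ u) = 0 := by
        rw [← h1]; ring
      exact (mul_eq_zero.1 h6).resolve_left h2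
    rw [h5, hy]
    simp
  · field_simp

/-- the derivative of `Y` -/
lemma dY (h : GF τ μ K) {δ : Derivation ℚ ℂ ℂ} (hδ : δ ∈ DK K) {u : ℂ} (hu : u ∉ Lam τ) :
    δ (ye τ μ u) = lam τ μ δ u * (6 * xe τ μ u ^ 2 - (μ ^ 4 * gg2 τ) / 2) := by
  by_cases hy : ye τ μ u = 0
  · rw [hy, map_zero, lam_of δ hu, hy]
    simp
  · have h1 := dcurve h hδ hu
    have hd := dX h hδ hu
    rw [hd] at h1
    have h2 : ye τ μ u * (δ (ye τ μ u) -
        lam τ μ δ u * (6 * xe τ μ u ^ 2 - (μ ^ 4 * gg2 τ) / 2)) = 0 := by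
      linear_combination h1 / 2
    exact sub_eq_zero.1 ((mul_eq_zero.1 h2).resolve_left hy)

/-- the generic case -/
lemma gen (hL : S_LamAddK) (h : GF τ μ K) {δ : Derivation ℚ ℂ ℂ} (hδ : δ ∈ DK K) {a b : ℂ} (ha : a ∉ Lam τ)
    (hb : b ∉ Lam τ) (hab : a + b ∉ Lam τ) :
    etf τ μ δ (a + b) = etf τ μ δ a + etf τ μ δ b := by
  rw [etf_of δ hab, etf_of δ ha, etf_of δ hb, hL τ μ K h δ hδ a b]
  set S := ze τ μ (a + b) - ze τ μ a - ze τ μ b with hS
  have hba : b + a ∉ Lam τ := by rwa [add_comm]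
  have r1 : S ^ 2 = xe τ μ a + xe τ μ b + xe τ μ (a + b) := by
    have := zt_add_sq h.im ha hb hab
    rw [hS]
    unfold xe ze
    linear_combination μ ^ 2 * this
  have r2 : 2 * S * (xe τ μ a - xe τ μ (a + b)) = ye τ μ a + ye τ μ (a + b) := by
    have := zt_add_lin h.im ha hb hab
    rw [hS]
    unfold xe ze ye
    linear_combination μ ^ 3 * this
  have r2' : 2 * S * (xe τ μ b - xe τ μ (a + b)) = ye τ μ b + ye τ μ (a + b) := by
    have := zt_add_lin h.im hb ha hba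
    rw [add_comm b a] at this
    rw [hS]
    unfold xe ze ye
    linear_combination μ ^ 3 * this
  have r3 : 2 * S * (ye τ μ a - ye τ μ (a + b)) = 4 * (xe τ μ a ^ 2 +
      xe τ μ a * xe τ μ (a + b) + xe τ μ (a + b) ^ 2) - μ ^ 4 * gg2 τ := by
    have := zt_add_quad h.im ha hb hab
    rw [hS]
    unfold xe ze ye
    linear_combination μ ^ 4 * this
  have r3' : 2 * S * (ye τ μ b - ye τ μ (a + b)) = 4 * (xe τ μ b ^ 2 +
      xe τ μ b * xe τ μ (a + b) + xe τ μ (a + b) ^ 2) - μ ^ 4 * gg2 τ := by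
    have := zt_add_quad h.im hb ha hba
    rw [add_comm b a] at this
    rw [hS]
    unfold xe ze ye
    linear_combination μ ^ 4 * this
  have d1 := dX h hδ ha
  have d2 := dX h hδ hb
  have d3 := dX h hδ hab
  have e1 := dY h hδ ha
  have e2 := dY h hδ hb
  have e3 := dY h hδ hab
  rw [hL τ μ K h δ hδ a b] at d3 e3
  have key : δ S = (xe τ μ a - xe τ μ (a + b)) * lam τ μ δ a +
      (xe τ μ b - xe τ μ (a + b)) * lam τ μ δ b := by
    have q1 := congrArg δ r1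
    rw [der_sq, map_add, map_add, d1, d2, d3] at q1
    by_cases hS0 : S = 0
    · rw [hS0] at r1 r2 r2' r3 r3' ⊢
      rw [map_zero]
      have q2 := congrArg δ (show ye τ μ a + ye τ μ (a + b) = 0 by linear_combination -r2)
      have q3 := congrArg δ (show ye τ μ b + ye τ μ (a + b) = 0 by linear_combination -r2')
      rw [map_add, e1, e3, map_zero] at q2
      rw [map_add, e2, e3, map_zero] at q3
      by_cases x1 : xe τ μ a - xe τ μ (a + b) = 0
      · by_cases x2 : xe τ μ b - xe τ μ (a + b) = 0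
        · rw [x1, x2]
          ring
        · have : (xe τ μ b - xe τ μ (a + b)) * ((xe τ μ a - xe τ μ (a + b)) * lam τ μ δ a +
              (xe τ μ b - xe τ μ (a + b)) * lam τ μ δ b) = 0 := by
            linear_combination q3 / 2 + (2 * lam τ μ δ b + lam τ μ δ a) / 4 * r3' -
              (xe τ μ b - xe τ μ (a + b)) * lam τ μ δ a * r1
          exact ((mul_eq_zero.1 this).resolve_left x2).symm
      · have : (xe τ μ a - xe τ μ (a + b)) * ((xe τ μ a - xe τ μ (a + b)) * lam τ μ δ a +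
              (xe τ μ b - xe τ μ (a + b)) * lam τ μ δ b) = 0 := by
          linear_combination q2 / 2 + (2 * lam τ μ δ a + lam τ μ δ b) / 4 * r3 -
              (xe τ μ a - xe τ μ (a + b)) * lam τ μ δ b * r1
        exact ((mul_eq_zero.1 this).resolve_left x1).symm
    · have : 2 * S * (δ S - ((xe τ μ a - xe τ μ (a + b)) * lam τ μ δ a +
          (xe τ μ b - xe τ μ (a + b)) * lam τ μ δ b)) = 0 := by
        linear_combination q1 - lam τ μ δ a * r2 - lam τ μ δ b * r2'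
      exact sub_eq_zero.1 ((mul_eq_zero.1 this).resolve_left (by simpa using hS0))
  have hsub : δ S = δ (ze τ μ (a + b)) - δ (ze τ μ a) - δ (ze τ μ b) := by
    rw [hS, map_sub, map_sub]
  rw [hsub] at key
  linear_combination key

lemma xe_add (h : GF τ μ K) (u : ℂ) (m n : ℤ) : xe τ μ (u + (m + n * τ)) = xe τ μ u := by
  unfold xe
  rw [wp_add_lp h.im]

lemma ye_add (h : GF τ μ K) (u : ℂ) (m n : ℤ) : ye τ μ (u + (m + n * τ)) = ye τ μ u := by
  have h1 := periodic_int (f := wpd τ) (ω := 1) (c := 0) (fun z => by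
    rw [wpd_add_one h.im, add_zero]) m u
  have h2 := periodic_int (f := wpd τ) (ω := τ) (c := 0) (fun z => by
    rw [wpd_add_tau h.im, add_zero]) n (u + m * 1)
  unfold ye
  rw [show u + (m + n * τ) = u + m * 1 + n * τ by ring, h2, h1]
  ring

lemma ze_add (h : GF τ μ K) (u : ℂ) (m n : ℤ) : ze τ μ (u + (m + n * τ)) =
    ze τ μ u + (m : ℂ) * (μ * et τ) + (n : ℂ) * (μ * (τ * et τ - kap)) := by
  unfold ze kap
  rw [zt_add_lp h.im]
  ring

lemma per (h : GF τ μ K) (δ : Derivation ℚ ℂ ℂ) (h1 : δ (μ * et τ) = 0)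
    (h2 : δ (μ * (τ * et τ - kap)) = 0) (u : ℂ) {w : ℂ} (hw : w ∈ Lam τ) :
    etf τ μ δ (u + w) = etf τ μ δ u := by
  obtain ⟨m, n, rfl⟩ := mem_Lam.1 hw
  by_cases hu : u ∈ Lam τ
  · rw [etf_in δ ((add_mem_Lam_iff m n).2 hu), etf_in δ hu]
  · have hu' : u + (m + n * τ) ∉ Lam τ := fun h' => hu ((add_mem_Lam_iff m n).1 h')
    rw [etf_of δ hu', etf_of δ hu, lam_of δ hu', lam_of δ hu, xe_add h, ye_add h, ze_add h,
      map_add, map_add, Derivation.leibniz δ (m : ℂ) (μ * et τ),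
      Derivation.leibniz δ (n : ℂ) (μ * (τ * et τ - kap)), h1, h2, der_int, der_int]
    simp

lemma neg (h : GF τ μ K) (δ : Derivation ℚ ℂ ℂ) (u : ℂ) : etf τ μ δ (-u) = -etf τ μ δ u := by
  by_cases hu : u ∈ Lam τ
  · rw [etf_in δ (neg_mem_Lam.2 hu), etf_in δ hu, neg_zero]
  · have hu' : -u ∉ Lam τ := fun h' => hu (neg_mem_Lam.1 h')
    have ex : xe τ μ (-u) = xe τ μ u := by
      unfold xe
      rw [wp_neg]
    have ey : ye τ μ (-u) = -ye τ μ u := by
      unfold ye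
      rw [wpd_neg h.im]
      ring
    have ez : ze τ μ (-u) = -ze τ μ u := by
      unfold ze
      rw [zt_neg]
      ring
    rw [etf_of δ hu', etf_of δ hu, lam_of δ hu', lam_of δ hu, ex, ey, ez, map_neg, div_neg]
    ring

end I_EtaAddK

open I_EtaAddK in
theorem EtaAddK_pf (l1 : S_LamAddK) : S_EtaAddK := by
  intro τ μ K h hp δ hδ u v
  have h1 : δ (μ * et τ) = 0 := hδ _ (mul_mem hp.mu hp.et)
  have h2 : δ (μ * (τ * et τ - kap)) = 0 :=
    hδ _ (mul_mem hp.mu (sub_mem (mul_mem hp.tau hp.et) hp.kap))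
  by_cases hu : u ∈ Lam τ
  · rw [add_comm, per h δ h1 h2 v hu, etf_in δ hu, zero_add]
  by_cases hv : v ∈ Lam τ
  · rw [per h δ h1 h2 u hv, etf_in δ hv, add_zero]
  by_cases huv : u + v ∈ Lam τ
  · have e : v = -u + (u + v) := by ring
    rw [etf_in δ huv]
    conv_rhs => rw [e]
    rw [per h δ h1 h2 (-u) huv, neg h δ u]
    ring
  exact gen l1 h hδ hu hv huv

end Pool.Agent.Work.MP_8da9ea_nt.FR
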