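import Pool.Agent.Work.MP_8da9ea_nt.FR.Stmts
import Pool.Agent.Work.MP_8da9ea_nt.EB.I_LamAdd

/-!
# Block FR: the invariant differential is additive, invariants in the field of constants
-/

set_option autoImplicit false

namespace Pool.Agent.Work.MP_8da9ea_nt.FR

open Pool.Agent.Work.MP_8da9ea_nt.EB
open Pool.Agent.Work.MP_8da9ea_nt.EB.I_LamAdd (wpd_add_Lam wp_add_Lam add_mem_iff one lag
  lam_of_mem cv avoid)

namespace I_LamAddK

lemma gen {τ μ : ℂ} (hτ : 0 < τ.im) (hμ : μ ≠ 0) (δ : Derivation ℚ ℂ ℂ)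
    (d2 : δ (μ ^ 4 * gg2 τ) = 0) (d3 : δ (μ ^ 6 * gg3 τ) = 0) {a b : ℂ} (ha : a ∉ Lam τ)
    (hb : b ∉ Lam τ) (hab : a + b ∉ Lam τ) (h12 : wp 1 τ a ≠ wp 1 τ b)
    (h13 : wp 1 τ a ≠ wp 1 τ (a + b)) (h23 : wp 1 τ b ≠ wp 1 τ (a + b)) :
    lam τ μ δ (a + b) = lam τ μ δ a + lam τ μ δ b := by
  have k1 := Fx.zt_add_sq hτ ha hb hab
  have k2 := Fx.zt_add_lin hτ ha hb hab
  have k3 := Fx.zt_add_lin hτ hb ha (by rwa [add_comm])
  rw [add_comm b a] at k3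
  have c1 := wpd_sq hτ ha
  have c2 := wpd_sq hτ hb
  have c3 := wpd_sq hτ hab
  have hdisc : (μ ^ 4 * gg2 τ) ^ 3 - 27 * (μ ^ 6 * gg3 τ) ^ 2 ≠ 0 := by
    have h := Fx.disc_ne hτ
    have e : (μ ^ 4 * gg2 τ) ^ 3 - 27 * (μ ^ 6 * gg3 τ) ^ 2 =
        μ ^ 12 * (gg2 τ ^ 3 - 27 * gg3 τ ^ 2) := by ring
    rw [e]
    exact mul_ne_zero (pow_ne_zero _ hμ) h
  unfold lam
  rw [if_neg ha, if_neg hb, if_neg hab]
  unfold xe ye
  set s : ℂ := zt 1 τ (a + b) - zt 1 τ a - zt 1 τ b with hs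
  have k3' : 2 * s * (wp 1 τ b - wp 1 τ (a + b)) = wpd τ b + wpd τ (a + b) := by
    rw [← k3, hs]
    ring
  set x1 := wp 1 τ a
  set x2 := wp 1 τ b
  set x3 := wp 1 τ (a + b)
  set y1 := wpd τ a
  set y2 := wpd τ b
  set y3 := wpd τ (a + b)
  set g2 := gg2 τ
  set g3 := gg3 τ
  have hμ2 : μ ^ 2 ≠ 0 := pow_ne_zero _ hμ
  -- the line
  have l1 : μ ^ 3 * y1 = 2 * μ * s * (μ ^ 2 * x1) + μ ^ 3 * (y1 - 2 * s * x1) := by ring
  have l2 : μ ^ 3 * y2 = 2 * μ * s * (μ ^ 2 * x2) + μ ^ 3 * (y1 - 2 * s * x1) := by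
    linear_combination μ ^ 3 * (k2 - k3')
  have l3 : -(μ ^ 3 * y3) = 2 * μ * s * (μ ^ 2 * x3) + μ ^ 3 * (y1 - 2 * s * x1) := by
    linear_combination μ ^ 3 * k2
  have q1 : (μ ^ 3 * y1) ^ 2 = 4 * (μ ^ 2 * x1) ^ 3 - μ ^ 4 * g2 * (μ ^ 2 * x1) - μ ^ 6 * g3 := by
    linear_combination μ ^ 6 * c1
  have q2 : (μ ^ 3 * y2) ^ 2 = 4 * (μ ^ 2 * x2) ^ 3 - μ ^ 4 * g2 * (μ ^ 2 * x2) - μ ^ 6 * g3 := by
    linear_combination μ ^ 6 * c2
  have q3 : (-(μ ^ 3 * y3)) ^ 2 =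
      4 * (μ ^ 2 * x3) ^ 3 - μ ^ 4 * g2 * (μ ^ 2 * x3) - μ ^ 6 * g3 := by
    linear_combination μ ^ 6 * c3
  have m1 : (2 * μ * s) ^ 2 = 4 * (μ ^ 2 * x1 + μ ^ 2 * x2 + μ ^ 2 * x3) := by
    linear_combination 4 * μ ^ 2 * k1
  have f1 := one δ d2 d3 hdisc q1 l1
  have f2 := one δ d2 d3 hdisc q2 l2
  have f3 := one δ d2 d3 hdisc q3 l3
  set G2 := μ ^ 4 * g2
  set G3 := μ ^ 6 * g3
  set X1 := μ ^ 2 * x1
  set X2 := μ ^ 2 * x2
  set X3 := μ ^ 2 * x3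
  set Y1 := μ ^ 3 * y1
  set Y2 := μ ^ 3 * y2
  set Y3 := μ ^ 3 * y3
  set M := 2 * μ * s
  set K := μ ^ 3 * (y1 - 2 * s * x1)
  have n12 : X1 ≠ X2 := fun h => h12 (mul_left_cancel₀ hμ2 h)
  have n13 : X1 ≠ X3 := fun h => h13 (mul_left_cancel₀ hμ2 h)
  have n23 : X2 ≠ X3 := fun h => h23 (mul_left_cancel₀ hμ2 h)
  have m2 : -G2 - 2 * M * K = 4 * (X1 * X2 + X1 * X3 + X2 * X3) := by
    have h : (X1 - X2) * (-G2 - 2 * M * K - 4 * (X1 * X2 + X1 * X3 + X2 * X3)) = 0 := by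
      rw [l1] at q1
      rw [l2] at q2
      linear_combination q2 - q1 + (X1 ^ 2 - X2 ^ 2) * m1
    have h' := (mul_eq_zero.1 h).resolve_left (sub_ne_zero.2 n12)
    linear_combination h'
  have g1 : 12 * X1 ^ 2 - G2 - 2 * M * Y1 = 4 * (X1 - X2) * (X1 - X3) := by
    rw [l1]
    linear_combination m2 - 2 * X1 * m1
  have g2' : 12 * X2 ^ 2 - G2 - 2 * M * Y2 = 4 * (X2 - X1) * (X2 - X3) := by
    rw [l2]
    linear_combination m2 - 2 * X2 * m1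
  have g3' : 12 * X3 ^ 2 - G2 - 2 * M * -Y3 = 4 * (X3 - X1) * (X3 - X2) := by
    rw [l3]
    linear_combination m2 - 2 * X3 * m1
  rw [g1] at f1
  rw [g2'] at f2
  rw [g3'] at f3
  have := lag n12 n13 n23 f1 f2 f3
  rw [div_neg] at this
  linear_combination -this

/-- generic additivity in terms of the lattice -/
lemma gen2 {τ μ : ℂ} (hτ : 0 < τ.im) (hμ : μ ≠ 0) (δ : Derivation ℚ ℂ ℂ)
    (d2 : δ (μ ^ 4 * gg2 τ) = 0) (d3 : δ (μ ^ 6 * gg3 τ) = 0) {a b : ℂ} (ha : a ∉ Lam τ)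
    (hb : b ∉ Lam τ) (hab : a + b ∉ Lam τ) (h1 : a - b ∉ Lam τ) (h2 : 2 * a + b ∉ Lam τ)
    (h3 : a + 2 * b ∉ Lam τ) :
    lam τ μ δ (a + b) = lam τ μ δ a + lam τ μ δ b := by
  refine gen hτ hμ δ d2 d3 ha hb hab ?_ ?_ ?_
  · intro h
    rcases Fx.wp_inj hτ ha hb h with h | h
    · exact h1 h
    · exact hab h
  · intro h
    rcases Fx.wp_inj hτ ha hab h with h | h
    · apply hb
      rw [← neg_mem_Lam]
      have e : a - (a + b) = -b := by ring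
      rwa [e] at h
    · apply h2
      have e : a + (a + b) = 2 * a + b := by ring
      rwa [e] at h
  · intro h
    rcases Fx.wp_inj hτ hb hab h with h | h
    · apply ha
      rw [← neg_mem_Lam]
      have e : b - (a + b) = -a := by ring
      rwa [e] at h
    · apply h3
      have e : b + (a + b) = a + 2 * b := by ring
      rwa [e] at h

lemma lam_add_Lam {τ μ : ℂ} (hτ : 0 < τ.im) (δ : Derivation ℚ ℂ ℂ) (u : ℂ) {l : ℂ}
    (hl : l ∈ Lam τ) : lam τ μ δ (u + l) = lam τ μ δ u := by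
  by_cases hu : u ∈ Lam τ
  · rw [lam_of_mem δ hu, lam_of_mem δ ((add_mem_iff hl).2 hu)]
  · have hu' : u + l ∉ Lam τ := fun h => hu ((add_mem_iff hl).1 h)
    unfold lam xe ye
    rw [if_neg hu, if_neg hu', wp_add_Lam hτ u hl, wpd_add_Lam hτ u hl]

lemma lam_neg {τ μ : ℂ} (hτ : 0 < τ.im) (δ : Derivation ℚ ℂ ℂ) (u : ℂ) :
    lam τ μ δ (-u) = -lam τ μ δ u := by
  by_cases hu : u ∈ Lam τ
  · rw [lam_of_mem δ hu, lam_of_mem δ (neg_mem_Lam.2 hu), neg_zero]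
  · have hu' : -u ∉ Lam τ := fun h => hu (neg_mem_Lam.1 h)
    unfold lam xe ye
    rw [if_neg hu, if_neg hu', wp_neg, wpd_neg hτ, mul_neg, div_neg]

end I_LamAddK

open I_LamAddK in
theorem LamAddK_pf : S_LamAddK := by
  intro τ μ K hK δ hδ u v
  have hτ := hK.im
  have hμ := hK.mu
  have d2 : δ (μ ^ 4 * gg2 τ) = 0 := hδ _ hK.g2
  have d3 : δ (μ ^ 6 * gg3 τ) = 0 := hδ _ hK.g3
  by_cases hu : u ∈ Lam τ
  · rw [add_comm, lam_add_Lam hτ δ v hu, lam_of_mem δ hu, zero_add]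
  by_cases hv : v ∈ Lam τ
  · rw [lam_add_Lam hτ δ u hv, lam_of_mem δ hv, add_zero]
  by_cases huv : u + v ∈ Lam τ
  · have e : v = -u + (u + v) := by ring
    rw [lam_of_mem δ huv, e, lam_add_Lam hτ δ (-u) huv, lam_neg hτ]
    ring
  obtain ⟨t, ht⟩ := avoid (τ := τ) {((1 : ℂ), (0 : ℂ)), (1, u + v), (-1, u + v),
    (1, 2 * (u + v)), (2, u + v), (1, v), (-1, v), (1, 2 * v), (2, v), (-1, u - v),
    (1, 2 * u + v), (2, u + 2 * v)} (by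
      intro p hp
      simp only [Finset.mem_insert, Finset.mem_singleton] at hp
      rcases hp with rfl | rfl | rfl | rfl | rfl | rfl | rfl | rfl | rfl | rfl | rfl | rfl <;>
        norm_num)
  simp only [Finset.mem_insert, Finset.mem_singleton, forall_eq_or_imp, forall_eq] at ht
  obtain ⟨t1, t2, t3, t4, t5, t6, t7, t8, t9, t10, t11, t12⟩ := ht
  have r1 : lam τ μ δ (u + v + t) = lam τ μ δ (u + v) + lam τ μ δ t := by
    refine gen2 hτ hμ δ d2 d3 huv (by simpa using t1) ?_ ?_ ?_ ?_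
    · exact cv t2 (by ring)
    · exact cv t3 (by ring)
    · exact cv t4 (by ring)
    · exact cv t5 (by ring)
  have r2 : lam τ μ δ (v + t) = lam τ μ δ v + lam τ μ δ t := by
    refine gen2 hτ hμ δ d2 d3 hv (by simpa using t1) ?_ ?_ ?_ ?_
    · exact cv t6 (by ring)
    · exact cv t7 (by ring)
    · exact cv t8 (by ring)
    · exact cv t9 (by ring)
  have r3 : lam τ μ δ (u + (v + t)) = lam τ μ δ u + lam τ μ δ (v + t) := by
    refine gen2 hτ hμ δ d2 d3 hu ?_ ?_ ?_ ?_ ?_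
    · exact cv t6 (by ring)
    · exact cv t2 (by ring)
    · exact cv t10 (by ring)
    · exact cv t11 (by ring)
    · exact cv t12 (by ring)
  rw [← add_assoc] at r3
  linear_combination r3 - r1 + r2

end Pool.Agent.Work.MP_8da9ea_nt.FR
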