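import Pool.Agent.Work.MP_8da9ea_nt.FR.Stmts
import Pool.Agent.Work.MP_8da9ea_nt.EB.I_LamMul
import Pool.Agent.Work.MP_8da9ea_nt.EB.I_Kf
import Pool.Agent.Work.MP_8da9ea_nt.CD.Sum

/-!
# Block FR: the invariant differential and multiplication by endomorphisms, invariants in the field
of constants
-/

set_option autoImplicit false

namespace Pool.Agent.Work.MP_8da9ea_nt.FR

open Pool.Agent.Work.MP_327059_nt.GL Pool.Agent.Work.MP_8da9ea_nt.S
  Pool.Agent.Work.MP_8da9ea_nt.EB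
open Pool.Agent.Work.MP_8da9ea_nt.EB.I_LamMul (der_alg lam_mem lam_not der_cub sum_der)

namespace I_LamMulK

/-- The derivation of the first coordinate, without division. -/
lemma der_xe {τ μ : ℂ} (hτ : 0 < τ.im) (hμ : μ ≠ 0) (δ : Derivation ℚ ℂ ℂ)
    (d2 : δ (μ ^ 4 * gg2 τ) = 0) (d3 : δ (μ ^ 6 * gg3 τ) = 0) {z : ℂ} (hz : z ∉ Lam τ) :
    δ (xe τ μ z) = lam τ μ δ z * ye τ μ z := by
  by_cases hy : ye τ μ z = 0
  · rw [hy, mul_zero]
    have hw : wpd τ z = 0 := by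
      rcases mul_eq_zero.1 hy with h5 | h5
      · exact absurd h5 (pow_ne_zero 3 hμ)
      · exact h5
    have hsq := wpd_sq hτ hz
    rw [hw] at hsq
    have hsq' : 4 * xe τ μ z ^ 3 - (μ ^ 4 * gg2 τ) * xe τ μ z - μ ^ 6 * gg3 τ = 0 := by
      unfold xe
      linear_combination -μ ^ 6 * hsq
    have hne : 12 * xe τ μ z ^ 2 - μ ^ 4 * gg2 τ ≠ 0 := by
      intro h
      have e4 : 12 * wp 1 τ z ^ 2 = gg2 τ := by
        have h6 : μ ^ 4 * (12 * wp 1 τ z ^ 2 - gg2 τ) = 0 := by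
          unfold xe at h
          linear_combination h
        rcases mul_eq_zero.1 h6 with h7 | h7
        · exact absurd h7 (pow_ne_zero 4 hμ)
        · linear_combination h7
      apply Fx.disc_ne hτ
      have e5 : gg3 τ = -8 * wp 1 τ z ^ 3 := by
        rw [← e4] at hsq
        linear_combination hsq
      rw [← e4, e5]
      ring
    rcases mul_eq_zero.1 (der_cub δ d2 d3 hsq') with h6 | h6
    · exact absurd h6 hne
    · exact h6
  · rw [lam_not δ hz, div_mul_cancel₀ _ hy]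

/-- Multiplication by natural numbers. -/
lemma lam_nat {τ μ : ℂ} (δ : Derivation ℚ ℂ ℂ)
    (hAdd : ∀ u v, lam τ μ δ (u + v) = lam τ μ δ u + lam τ μ δ v) (n : ℕ) (u : ℂ) :
    lam τ μ δ ((n : ℂ) * u) = (n : ℂ) * lam τ μ δ u := by
  have h := map_nsmul (AddMonoidHom.mk' (lam τ μ δ) hAdd) n u
  simpa [nsmul_eq_mul] using h

/-- Multiplication by integers. -/
lemma lam_int {τ μ : ℂ} (δ : Derivation ℚ ℂ ℂ)
    (hAdd : ∀ u v, lam τ μ δ (u + v) = lam τ μ δ u + lam τ μ δ v) (n : ℤ) (u : ℂ) :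
    lam τ μ δ ((n : ℂ) * u) = (n : ℂ) * lam τ μ δ u := by
  have h := map_zsmul (AddMonoidHom.mk' (lam τ μ δ) hAdd) n u
  simpa [zsmul_eq_mul] using h

/-- Torsion points. -/
lemma lam_tor {τ μ : ℂ} (δ : Derivation ℚ ℂ ℂ)
    (hAdd : ∀ u v, lam τ μ δ (u + v) = lam τ μ δ u + lam τ μ δ v) {n : ℕ} {w : ℂ}
    (hn : 0 < n) (hw : (n : ℂ) * w ∈ Lam τ) : lam τ μ δ w = 0 := by
  have h := lam_nat δ hAdd n w
  rw [lam_mem δ hw] at h
  rcases mul_eq_zero.1 h.symm with h1 | h1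
  · exact absurd h1 (by exact_mod_cast hn.ne')
  · exact h1

/-- Integral endomorphisms. -/
lemma lam_end (hSum : CD.StSum) {τ μ : ℂ} (hτ : 0 < τ.im) (hμ : μ ≠ 0)
    (δ : Derivation ℚ ℂ ℂ) (d2 : δ (μ ^ 4 * gg2 τ) = 0) (d3 : δ (μ ^ 6 * gg3 τ) = 0)
    (hAdd : ∀ u v, lam τ μ δ (u + v) = lam τ μ δ u + lam τ μ δ v)
    {g : ℂ} (hg : CD.IsInt τ g) (hga : δ g = 0) (u : ℂ) :
    lam τ μ δ (g * u) = g * lam τ μ δ u := by
  by_cases hg0 : g = 0
  · rw [hg0, zero_mul, zero_mul]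
    exact lam_mem δ CD.Mul_zero_mem
  obtain ⟨M, hM, hMz⟩ := CD.Sum_norm hτ hg hg0
  by_cases hu : g * u ∈ Lam τ
  · rw [lam_mem δ hu, lam_tor δ hAdd hM (hMz u hu), mul_zero]
  obtain ⟨W, c, c₁, c₀, hW, hz⟩ := hSum τ hτ g hg hg0
  have hWg : ∀ w ∈ W, g * w ∈ Lam τ := fun w hw => (hW w hw).1
  have hwp : ∀ z : ℂ, g * z ∉ Lam τ →
      g ^ 2 * wp 1 τ (g * z) = ∑ w ∈ W, wp 1 τ (z + w) + c := fun z h => (hz z h).1
  have hnot : ∀ z : ℂ, g * z ∉ Lam τ → ∀ w ∈ W, z + w ∉ Lam τ := by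
    intro z hgz w hw h
    refine hgz ?_
    have h1 := CD.Sum_sub (CD.Sum_mul hg h) (hW w hw).1
    have e : g * (z + w) - g * w = g * z := by ring
    rwa [e] at h1
  have hlw : ∀ z : ℂ, ∀ w ∈ W, lam τ μ δ (z + w) = lam τ μ δ z := by
    intro z w hw
    obtain ⟨n, hn, hnw⟩ := (hW w hw).2
    rw [hAdd z w, lam_tor δ hAdd hn hnw, add_zero]
  -- the normalised formulas
  have hx : ∀ z : ℂ, g * z ∉ Lam τ →
      g ^ 2 * xe τ μ (g * z) = ∑ w ∈ W, xe τ μ (z + w) + μ ^ 2 * c := by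
    intro z h
    have h1 := hwp z h
    unfold xe
    rw [← Finset.mul_sum]
    linear_combination μ ^ 2 * h1
  have hy : ∀ z : ℂ, g * z ∉ Lam τ →
      g ^ 3 * ye τ μ (g * z) = ∑ w ∈ W, ye τ μ (z + w) := by
    intro z h
    have h1 := sum_der hτ hg hWg hwp h
    unfold ye
    rw [← Finset.mul_sum]
    linear_combination μ ^ 3 * h1
  have hg2 : δ (g ^ 2) = 0 := by
    rw [pow_two, Derivation.leibniz, hga, smul_zero, add_zero]
  -- the derivative of the formula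
  have hd : ∀ z : ℂ, g * z ∉ Lam τ →
      g ^ 2 * (lam τ μ δ (g * z) * ye τ μ (g * z)) =
        lam τ μ δ z * (g ^ 3 * ye τ μ (g * z)) + δ (μ ^ 2 * c) := by
    intro z h
    have h1 := congrArg δ (hx z h)
    rw [Derivation.leibniz, hg2, smul_zero, add_zero, smul_eq_mul, der_xe hτ hμ δ d2 d3 h, map_add,
      map_sum] at h1
    rw [h1, hy z h, Finset.mul_sum]
    congr 1
    refine Finset.sum_congr rfl fun w hw => ?_
    rw [der_xe hτ hμ δ d2 d3 (hnot z h w hw), hlw z w hw]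
  have hc : δ (μ ^ 2 * c) = 0 := by
    obtain ⟨n, z, hn, hnz, hgz⟩ := CD.Mul_exists_tor hτ hg.1 hg0
    have h1 := hd z hgz
    have h2 : (n : ℂ) * z ∈ Lam τ := by
      rw [hnz]
      exact CD.Mul_one_mem
    have h3 : (n : ℂ) * (g * z) ∈ Lam τ := by
      have e : (n : ℂ) * (g * z) = g * (n * z) := by ring
      rw [e]
      exact CD.Sum_mul hg h2
    rw [lam_tor δ hAdd hn h2, lam_tor δ hAdd hn h3, zero_mul, mul_zero, zero_mul,
      zero_add] at h1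
    exact h1.symm
  by_cases hyu : ye τ μ (g * u) = 0
  · have hw : wpd τ (g * u) = 0 := by
      rcases mul_eq_zero.1 hyu with h5 | h5
      · exact absurd h5 (pow_ne_zero 3 hμ)
      · exact h5
    have h2 := wpd_zero hτ hu hw
    have h3 : g * (2 * u) ∈ Lam τ := by
      have e : g * (2 * u) = 2 * (g * u) := by ring
      rw [e]
      exact h2
    have h4 := hMz _ h3
    have h5 : ((M * 2 : ℕ) : ℂ) * u ∈ Lam τ := by
      push_cast
      rw [mul_assoc]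
      exact h4
    have h6 : ((2 : ℕ) : ℂ) * (g * u) ∈ Lam τ := by
      push_cast
      exact h2
    rw [lam_tor δ hAdd (Nat.mul_pos hM two_pos) h5, lam_tor δ hAdd two_pos h6, mul_zero]
  · have h1 := hd u hu
    rw [hc, add_zero] at h1
    have h2 : g ^ 2 * ye τ μ (g * u) ≠ 0 := mul_ne_zero (pow_ne_zero 2 hg0) hyu
    apply mul_left_cancel₀ h2
    linear_combination h1

end I_LamMulK

/-- L2: `λ` and multiplication by endomorphisms. -/
theorem LamMulK_pf (l1 : S_LamAddK) : S_LamMulK := by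
  intro τ μ K hK δ hδ g u hg
  have hτ := hK.im
  have hμ := hK.mu
  have d2 : δ (μ ^ 4 * gg2 τ) = 0 := hδ _ hK.g2
  have d3 : δ (μ ^ 6 * gg3 τ) = 0 := hδ _ hK.g3
  have hAdd : ∀ u v, lam τ μ δ (u + v) = lam τ μ δ u + lam τ μ δ v := l1 τ μ K hK δ hδ
  have hga : δ g = 0 := der_alg δ ((Kf_pf τ hτ).1 g hg)
  obtain ⟨n, hn, h1, h2⟩ := hg
  have hint : CD.IsInt τ ((n : ℂ) * g) := ⟨h1, h2⟩
  have hn0 : (n : ℂ) ≠ 0 := by exact_mod_cast hn
  have hna : δ ((n : ℂ) * g) = 0 := by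
    have h3 : δ ((n : ℂ)) = 0 := by
      simp
    rw [Derivation.leibniz, hga, h3, smul_zero, smul_zero, add_zero]
  have h3 := I_LamMulK.lam_end CD.prf_Sum hτ hμ δ d2 d3 hAdd hint hna u
  rw [mul_assoc, I_LamMulK.lam_int δ hAdd n (g * u), mul_assoc] at h3
  exact mul_left_cancel₀ hn0 h3

end Pool.Agent.Work.MP_8da9ea_nt.FR
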