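import Pool.Agent.Work.MP_8da9ea_nt.FR.Stmts
import Pool.Agent.Work.MP_8da9ea_nt.FR.I_LamAddK
import Pool.Agent.Work.MP_8da9ea_nt.FR.I_LamMulK
import Pool.Agent.Work.MP_8da9ea_nt.FR.I_EtaAddK
import Pool.Agent.Work.MP_8da9ea_nt.EC.I_EtaMul
import Pool.Agent.Work.MP_8da9ea_nt.EB.I_Kf

/-!
# Block FR, item EtaMul: the form of the second kind and multiplication by endomorphisms
-/

set_option autoImplicit false

namespace Pool.Agent.Work.MP_8da9ea_nt.FR

open MvPolynomial Pool.Agent.Work.MP_327059_nt.GL Pool.Agent.Work.MP_8da9ea_nt.S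
  Pool.Agent.Work.MP_8da9ea_nt.EB

namespace I_EtaMul

open Pool.Agent.Work.MP_8da9ea_nt.EC.I_EtaMul (etf_mem etf_not mem_of_alg small)

/-- Multiplication by integers. -/
lemma etf_int {τ μ : ℂ} (δ : Derivation ℚ ℂ ℂ)
    (hE : ∀ u v, etf τ μ δ (u + v) = etf τ μ δ u + etf τ μ δ v) (n : ℤ) (u : ℂ) :
    etf τ μ δ ((n : ℂ) * u) = (n : ℂ) * etf τ μ δ u := by
  have h := map_zsmul (AddMonoidHom.mk' (etf τ μ δ) hE) n u
  simpa [zsmul_eq_mul] using h

/-- Torsion points. -/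
lemma etf_tor {τ μ : ℂ} (δ : Derivation ℚ ℂ ℂ)
    (hE : ∀ u v, etf τ μ δ (u + v) = etf τ μ δ u + etf τ μ δ v) {n : ℕ} {w : ℂ}
    (hn : 0 < n) (hw : (n : ℂ) * w ∈ Lam τ) : etf τ μ δ w = 0 := by
  have h := etf_int δ hE (n : ℤ) w
  rw [Int.cast_natCast, etf_mem δ hw] at h
  rcases mul_eq_zero.1 h.symm with h5 | h5
  · exact absurd h5 (by exact_mod_cast hn.ne')
  · exact h5

/-- The base field. -/
lemma base {τ μ : ℂ} {K : IntermediateField ℚ ℂ} (hN : GF τ μ K) (hK : EC.PerK τ μ K) :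
    CD.Base τ (CD.acl K) where
  ac := CD.AC_acl K
  tau := CD.le_acl K hK.tau
  et := CD.le_acl K hK.et
  kap := CD.le_acl K hK.kap
  g2 := by
    have h1 : μ ∈ CD.acl K := CD.le_acl K hK.mu
    have h2 : gg2 τ = (μ ^ 4)⁻¹ * (μ ^ 4 * gg2 τ) := by
      rw [inv_mul_cancel_left₀ (pow_ne_zero 4 hN.mu)]
    rw [h2]
    exact mul_mem (inv_mem (pow_mem h1 4)) (CD.le_acl K hN.g2)
  g3 := by
    have h1 : μ ∈ CD.acl K := CD.le_acl K hK.mu
    have h2 : gg3 τ = (μ ^ 6)⁻¹ * (μ ^ 6 * gg3 τ) := by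
      rw [inv_mul_cancel_left₀ (pow_ne_zero 6 hN.mu)]
    rw [h2]
    exact mul_mem (inv_mem (pow_mem h1 6)) (CD.le_acl K hN.g3)

/-- The number of points in the kernel. -/
lemma card_eq {τ g c₁ c₀ : ℂ} (hτ : 0 < τ.im) (hg : CD.IsInt τ g) (hg0 : g ≠ 0) {W : Finset ℂ}
    (h : ∀ z : ℂ, g * z ∉ Lam τ →
      g * zt 1 τ (g * z) = ∑ w ∈ W, zt 1 τ (z + w) + c₁ * z + c₀) :
    (W.card : ℂ) = (starRingEnd ℂ) g * g := by
  obtain ⟨n, z, hn, hnz, hgz⟩ := CD.Mul_exists_tor hτ hg.1 hg0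
  obtain ⟨a, b, hab⟩ := mem_Lam.1 hg.1
  obtain ⟨c, d, hcd⟩ := mem_Lam.1 hg.2
  have hz1 : g * (z + 1) ∉ Lam τ := by
    intro h1
    refine hgz ?_
    have e : g * z = g * (z + 1) - g := by ring
    rw [e]
    exact CD.Sum_sub h1 hg.1
  have hz2 : g * (z + τ) ∉ Lam τ := by
    intro h1
    refine hgz ?_
    have e : g * z = g * (z + τ) - g * τ := by ring
    rw [e]
    exact CD.Sum_sub h1 hg.2
  have e0 := h z hgz
  have e1 := h (z + 1) hz1
  have e2 := h (z + τ) hz2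
  have s1 : ∑ w ∈ W, zt 1 τ (z + 1 + w) = ∑ w ∈ W, zt 1 τ (z + w) + W.card * et τ := by
    have t1 : ∀ w ∈ W, zt 1 τ (z + 1 + w) = zt 1 τ (z + w) + et τ := by
      intro w _
      have := zt_add_lp hτ (z + w) 1 0
      push_cast at this
      rw [show z + 1 + w = z + w + (1 + 0 * τ) by ring, this]
      ring
    rw [Finset.sum_congr rfl t1, Finset.sum_add_distrib, Finset.sum_const, nsmul_eq_mul]
  have s2 : ∑ w ∈ W, zt 1 τ (z + τ + w) =
      ∑ w ∈ W, zt 1 τ (z + w) + W.card * (et τ * τ - kap) := by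
    have t1 : ∀ w ∈ W, zt 1 τ (z + τ + w) = zt 1 τ (z + w) + (et τ * τ - kap) := by
      intro w _
      have := zt_add_lp hτ (z + w) 0 1
      push_cast at this
      rw [show z + τ + w = z + w + (0 + 1 * τ) by ring, this]
      unfold kap
      ring
    rw [Finset.sum_congr rfl t1, Finset.sum_add_distrib, Finset.sum_const, nsmul_eq_mul]
  have g1 : zt 1 τ (g * (z + 1)) = zt 1 τ (g * z) + et τ * g - kap * b := by
    have := zt_add_lp hτ (g * z) a b
    rw [← hab] at this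
    rw [show g * (z + 1) = g * z + g by ring, this]
    unfold kap
    ring
  have g2 : zt 1 τ (g * (z + τ)) = zt 1 τ (g * z) + et τ * (g * τ) - kap * d := by
    have := zt_add_lp hτ (g * z) c d
    rw [← hcd] at this
    rw [show g * (z + τ) = g * z + g * τ by ring, this]
    unfold kap
    ring
  rw [g1, s1] at e1
  rw [g2, s2] at e2
  have hk : (kap : ℂ) ≠ 0 := kap_ne_zero
  have key : kap * (W.card : ℂ) = kap * (((d : ℂ) - b * τ) * g) := by
    linear_combination τ * e0 - e0 - τ * e1 + e2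
  have hcard := mul_left_cancel₀ hk key
  rw [hcard]
  congr 1
  -- the conjugate
  have hq : (b : ℂ) * τ ^ 2 + (a - d) * τ - c = 0 := by
    rw [hab] at hcd
    linear_combination hcd
  have hre := congrArg Complex.re hq
  have him := congrArg Complex.im hq
  have him' : τ.im * (2 * b * τ.re + (a - d)) = 0 := by
    simp [pow_two] at him
    linear_combination him
  have h2 : 2 * b * τ.re + ((a : ℝ) - d) = 0 := by
    rcases mul_eq_zero.1 him' with h3 | h3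
    · exact absurd h3 hτ.ne'
    · exact h3
  rw [hab]
  apply Complex.ext
  · simp
    linarith
  · simp

/-- Integral endomorphisms. -/
lemma end_case (hAdd : S_LamAddK) (hMul : S_LamMulK) (hEta : S_EtaAddK) (hKf : S_Kf) {τ μ : ℂ}
    {K : IntermediateField ℚ ℂ} (hN : GF τ μ K) (hK : EC.PerK τ μ K) {g : ℂ}
    (hg : CD.IsInt τ g) : ∃ a b : ℂ,
    ∀ δ ∈ DK K, δ a = 0 ∧ δ b = 0 ∧ ∀ u : ℂ,
      etf τ μ δ (g * u) = (starRingEnd ℂ) g * etf τ μ δ u + a * lam τ μ δ u + b * δ u := by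
  by_cases hg0 : g = 0
  · refine ⟨0, 0, fun δ _ => ⟨map_zero δ, map_zero δ, fun u => ?_⟩⟩
    rw [hg0, zero_mul, zero_mul, zero_mul, map_zero, zero_mul, add_zero, add_zero]
    exact etf_mem δ CD.Mul_zero_mem
  have hgE : IsE τ g := ⟨1, one_ne_zero, by simpa using hg.1, by simpa using hg.2⟩
  have hga : IsAlgebraic ℚ g := (hKf τ hN.im).1 g hgE
  obtain ⟨M, hM, hMz⟩ := CD.Sum_norm hN.im hg hg0
  obtain ⟨W, c, c₁, c₀, hW, hz⟩ := CD.prf_Sum τ hN.im g hg hg0
  have hcard := card_eq hN.im hg hg0 (fun z h => (hz z h).2)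
  have hB := base hN hK
  have hμL : μ ∈ CD.acl K := CD.le_acl K hK.mu
  have hgL : g ∈ CD.acl K := mem_of_alg hga
  -- no poles
  have hnot : ∀ z : ℂ, g * z ∉ Lam τ → ∀ w ∈ W, z + w ∉ Lam τ := by
    intro z hgz w hw h
    refine hgz ?_
    have h1 := CD.Sum_sub (CD.Sum_mul hg h) (hW w hw).1
    have e : g * (z + w) - g * w = g * z := by ring
    rwa [e] at h1
  -- the values at torsion points
  have htor : ∀ (n : ℕ) (z : ℂ), 0 < n → (n : ℂ) * z ∈ Lam τ → z ∉ Lam τ →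
      wp 1 τ z ∈ CD.acl K ∧ zt 1 τ z ∈ CD.acl K := by
    intro n z hn h1 h2
    rcases CD.prf_Tor CD.prf_Add τ hN.im (CD.acl K) hB n z hn h1 with h | h
    · exact absurd h h2
    · exact h
  have hval : ∀ (n : ℕ) (z : ℂ), 0 < n → (n : ℂ) * z ∈ Lam τ → g * z ∉ Lam τ →
      c ∈ CD.acl K ∧ c₁ * z + c₀ ∈ CD.acl K := by
    intro n z hn h1 h2
    have h3 := hz z h2
    have hgz : (n : ℂ) * (g * z) ∈ Lam τ := by
      have e : (n : ℂ) * (g * z) = g * (n * z) := by ring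
      rw [e]
      exact CD.Sum_mul hg h1
    have h4 := htor n (g * z) hn hgz h2
    have h5 : ∀ w ∈ W, wp 1 τ (z + w) ∈ CD.acl K ∧ zt 1 τ (z + w) ∈ CD.acl K := by
      intro w hw
      obtain ⟨n', hn', hnw'⟩ := (hW w hw).2
      refine htor (n * n') (z + w) (Nat.mul_pos hn hn') ?_ (hnot z h2 w hw)
      have e : ((n * n' : ℕ) : ℂ) * (z + w) = (n' : ℤ) * ((n : ℂ) * z) + (n : ℤ) * ((n' : ℂ) * w) := by
        push_cast
        ring
      rw [e]
      exact CD.Sum_add (CD.Sum_int _ h1) (CD.Sum_int _ hnw')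
    constructor
    · have e : c = g ^ 2 * wp 1 τ (g * z) - ∑ w ∈ W, wp 1 τ (z + w) := by
        linear_combination -h3.1
      rw [e]
      exact sub_mem (mul_mem (pow_mem hgL 2) h4.1) (sum_mem fun w hw => (h5 w hw).1)
    · have e : c₁ * z + c₀ = g * zt 1 τ (g * z) - ∑ w ∈ W, zt 1 τ (z + w) := by
        linear_combination -h3.2
      rw [e]
      exact sub_mem (mul_mem hgL h4.2) (sum_mem fun w hw => (h5 w hw).2)
  obtain ⟨n, z, hn, hz0, hnz, hgz, hg2z⟩ := small hN.im hg hg0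
  have hn2z : (n : ℂ) * (2 * z) ∈ Lam τ := by
    have h := CD.Sum_int (τ := τ) 2 hnz
    have e : (n : ℂ) * (2 * z) = ((2 : ℤ) : ℂ) * ((n : ℂ) * z) := by
      push_cast
      ring
    rw [e]
    exact h
  have v1 := hval n z hn hnz hgz
  have v2 := hval n (2 * z) hn hn2z hg2z
  have hcL : c ∈ CD.acl K := v1.1
  have hc0L : c₀ ∈ CD.acl K := by
    have e : c₀ = (c₁ * z + c₀) + (c₁ * z + c₀) - (c₁ * (2 * z) + c₀) := by ring
    rw [e]
    exact sub_mem (add_mem v1.2 v1.2) v2.2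
  have hc1z : c₁ * z ∈ CD.acl K := by
    have e : c₁ * z = (c₁ * z + c₀) - c₀ := by ring
    rw [e]
    exact sub_mem v1.2 hc0L
  have hc1L : c₁ ∈ CD.acl K := by
    have hzL : z ∈ CD.acl K := by
      have hl : (n : ℂ) * z ∈ CD.acl K := CD.Lam_sub hB.tau hnz
      have hn0 : (n : ℂ) ≠ 0 := by exact_mod_cast hn.ne'
      have e : z = (n : ℂ)⁻¹ * ((n : ℂ) * z) := by
        rw [inv_mul_cancel_left₀ hn0]
      rw [e]
      exact mul_mem (inv_mem (natCast_mem _ n)) hl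
    have e : c₁ = c₁ * z * z⁻¹ := by
      rw [mul_inv_cancel_right₀ hz0]
    rw [e]
    exact mul_mem hc1z (inv_mem hzL)
  have haL : μ ^ 2 * c / g ∈ CD.acl K := div_mem (mul_mem (pow_mem hμL 2) hcL) hgL
  have hbL : μ * c₁ / g ∈ CD.acl K := div_mem (mul_mem hμL hc1L) hgL
  refine ⟨μ ^ 2 * c / g, μ * c₁ / g, fun δ hδ => ?_⟩
  have hkill : ∀ x ∈ CD.acl K, δ x = 0 := fun x hx =>
    Pool.Agent.ED.der_zero_alg K δ hδ x (CD.mem_acl.1 hx)
  have hA := hAdd τ μ K hN δ hδ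
  have hE := hEta τ μ K hN hK δ hδ
  refine ⟨hkill _ haL, hkill _ hbL, fun u => ?_⟩
  by_cases hgu : g * u ∈ Lam τ
  · have hMu := hMz u hgu
    have hul : u ∈ CD.acl K := by
      have hl : (M : ℂ) * u ∈ CD.acl K := CD.Lam_sub hB.tau hMu
      have hn0 : (M : ℂ) ≠ 0 := by exact_mod_cast hM.ne'
      have e : u = (M : ℂ)⁻¹ * ((M : ℂ) * u) := by
        rw [inv_mul_cancel_left₀ hn0]
      rw [e]
      exact mul_mem (inv_mem (natCast_mem _ M)) hl
    rw [etf_mem δ hgu, etf_tor δ hE hM hMu, I_LamMulK.lam_tor δ hA hM hMu,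
      hkill u hul, mul_zero, mul_zero, mul_zero, add_zero, add_zero]
  have hlw : ∀ w ∈ W, lam τ μ δ (u + w) = lam τ μ δ u := by
    intro w hw
    obtain ⟨n', hn', hnw'⟩ := (hW w hw).2
    rw [hA u w, I_LamMulK.lam_tor δ hA hn' hnw', add_zero]
  have hew : ∀ w ∈ W, etf τ μ δ (u + w) = etf τ μ δ u := by
    intro w hw
    obtain ⟨n', hn', hnw'⟩ := (hW w hw).2
    rw [hE u w, etf_tor δ hE hn' hnw', add_zero]
  have hlg : lam τ μ δ (g * u) = g * lam τ μ δ u := hMul τ μ K hN δ hδ g u hgE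
  -- the normalised formulas
  have hx : g ^ 2 * xe τ μ (g * u) = ∑ w ∈ W, xe τ μ (u + w) + μ ^ 2 * c := by
    have h1 := (hz u hgu).1
    unfold xe
    rw [← Finset.mul_sum]
    linear_combination μ ^ 2 * h1
  have hzz : g * ze τ μ (g * u) = ∑ w ∈ W, ze τ μ (u + w) + (μ * c₁ * u + μ * c₀) := by
    have h1 := (hz u hgu).2
    unfold ze
    rw [← Finset.mul_sum]
    linear_combination μ * h1
  have hd : g * δ (ze τ μ (g * u)) = ∑ w ∈ W, δ (ze τ μ (u + w)) + μ * c₁ * δ u := by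
    have h1 := congrArg δ hzz
    have h2 : δ (μ * c₁ * u + μ * c₀) = μ * c₁ * δ u := by
      rw [map_add, Derivation.leibniz, hkill _ (mul_mem hμL hc1L), hkill _ (mul_mem hμL hc0L),
        smul_zero, add_zero, add_zero, smul_eq_mul]
    rw [Derivation.leibniz, hkill g hgL, smul_zero, add_zero, smul_eq_mul, map_add, h2,
      map_sum] at h1
    exact h1
  have hs : ∑ w ∈ W, δ (ze τ μ (u + w)) =
      W.card * etf τ μ δ u - (∑ w ∈ W, xe τ μ (u + w)) * lam τ μ δ u := by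
    have h1 : ∀ w ∈ W, δ (ze τ μ (u + w)) = etf τ μ δ u - xe τ μ (u + w) * lam τ μ δ u := by
      intro w hw
      have h2 := etf_not (μ := μ) δ (hnot u hgu w hw)
      rw [hew w hw, hlw w hw] at h2
      linear_combination -h2
    rw [Finset.sum_congr rfl h1, Finset.sum_sub_distrib, Finset.sum_const, nsmul_eq_mul,
      ← Finset.sum_mul]
  have hf := etf_not (μ := μ) δ hgu
  rw [hlg] at hf
  have key : g * etf τ μ δ (g * u) =
      W.card * etf τ μ δ u + μ ^ 2 * c * lam τ μ δ u + μ * c₁ * δ u := by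
    rw [hf]
    have h5 := hd
    rw [hs] at h5
    linear_combination h5 + lam τ μ δ u * hx
  rw [hcard] at key
  apply mul_left_cancel₀ hg0
  rw [key]
  field_simp

end I_EtaMul

/-- The form of the second kind and multiplication by endomorphisms. -/
theorem EtaMul_pf : S_EtaMul := by
  intro τ μ K hN hK g hg
  obtain ⟨n, hn, hn1, hn2⟩ := hg
  have hint : CD.IsInt τ ((n : ℂ) * g) := ⟨hn1, hn2⟩
  have hn0 : (n : ℂ) ≠ 0 := by exact_mod_cast hn
  have hEta : S_EtaAddK := EtaAddK_pf LamAddK_pf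
  obtain ⟨a, b, h⟩ := I_EtaMul.end_case LamAddK_pf (LamMulK_pf LamAddK_pf) hEta Kf_pf hN hK hint
  refine ⟨a / n, b / n, fun δ hδ => ?_⟩
  obtain ⟨ha, hb, h5⟩ := h δ hδ
  have hdn : δ ((n : ℂ)⁻¹) = 0 := by
    rw [Derivation.leibniz_inv, δ.map_intCast, smul_zero]
  refine ⟨?_, ?_, fun u => ?_⟩
  · rw [div_eq_mul_inv, Derivation.leibniz, ha, hdn, smul_zero, smul_zero, add_zero]
  · rw [div_eq_mul_inv, Derivation.leibniz, hb, hdn, smul_zero, smul_zero, add_zero]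
  have h6 := h5 u
  rw [mul_assoc, I_EtaMul.etf_int δ (hEta τ μ K hN hK δ hδ) n (g * u), map_mul] at h6
  have hc : (starRingEnd ℂ) (n : ℂ) = n := by simp
  rw [hc] at h6
  apply mul_left_cancel₀ hn0
  rw [h6]
  field_simp

end Pool.Agent.Work.MP_8da9ea_nt.FR
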