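import Pool.Agent.Work.MP_8da9ea_nt.FR.StmtsK

/-!
# K12, exceptional sets of high codimension: the general form (item FRKG)
-/

set_option autoImplicit false

namespace Pool.Agent.Work.MP_8da9ea_nt.FR

open MvPolynomial Pool.Agent.Work.MP_327059_nt.GL Pool.Agent.Work.MP_8da9ea_nt.S
  Pool.Agent.Work.MP_8da9ea_nt.EB Pool.Agent.Work.MP_8da9ea_nt.EC

/-- **K12, general form.** -/
theorem FRKG_pf (h1 : S_Dec) (h2 : S_TanDim) (h3 : S_MaxX) (h4 : S_CoreW) (h5 : S_BigW)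
    (h6 : S_FormBZ) : S_FRKG := by
  intro N s n ρ κ τ μ D e he hbig q R S Z K₀ hc hacl hell hN
  have hKF : KF n τ μ K₀ := ⟨hc.to_subtype, hacl, hell⟩
  obtain ⟨m, ξ, hsub, hdns⟩ := h1 (Fin q × Fin D) {x : Fin q × Fin D → ℚ | NDf ⊥ R (cx e x) ∧
      (∀ g : Fin n → ℂ, (∀ j, IsE τ (g j)) → (∀ i, ∑ j, g j * pg S (cx e x) i j = 0) → g = 0) ∧
      ¬ Cc τ μ K₀ R S Z e x}
  refine ⟨m, ξ, fun k => ?_, hsub⟩
  by_contra hcon
  push Not at hcon
  obtain ⟨z, hz, hmax⟩ := h3 τ μ s n q ρ D R S Z K₀ hKF e (ξ k) _ (hdns k)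
  obtain ⟨⟨hzR, hzS, hzC⟩, hzW⟩ := hz
  have hdim : q * D ≤ Module.finrank ℚ (Tz (ξ k) z) + κ := by
    by_cases hlt : κ < q * D
    · have hcard : Fintype.card (Fin q × Fin D) = q * D := by
        rw [Fintype.card_prod, Fintype.card_fin, Fintype.card_fin]
      have hd := h2 (Fin q × Fin D) (ξ k) z hzW (q * D - κ - 1)
        (hcon (q * D - κ - 1) (by rw [hcard]; omega))
      omega
    · omega
  have hr := h4 τ μ s n q ρ N D R S Z K₀ hKF hN e (ξ k) _ (hdns k) z hzW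
    (fun x hx => hmax x hx.2)
    (fun E hE hT => h5 τ μ E s n q D κ e he (hbig E hE hT) R S z (Tz (ξ k) z) hdim hzR hzS)
  exact hzC (h6 τ μ K₀ s n ρ hKF _ _ _ hr)

end Pool.Agent.Work.MP_8da9ea_nt.FR
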