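import Pool.Agent.Work.MP_8da9ea_nt.FR.StmtsK

/-!
# K14, exceptional sets of high codimension for every lattice
-/

set_option autoImplicit false

namespace Pool.Agent.Work.MP_8da9ea_nt.FR

open MvPolynomial Metric Filter Topology Pool.Agent.Work.MP_327059_nt.GL
  Pool.Agent.Work.MP_8da9ea_nt.S Pool.Agent.Work.MP_8da9ea_nt.EB Pool.Agent.Work.MP_8da9ea_nt.EC

theorem FRKV_pf (h1 : S_FRKG) (h2 : S_NoSmallVK) : S_FRKV := by
  intro Q Q' N s n ρ κ
  obtain ⟨n₁, hn₁⟩ := h2 Q Q' (N + s + 2 * n + ρ + 2) κ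
  refine ⟨n₁, ?_⟩
  intro τ μ a x hFT hSLI hMS D e he hmem
  refine h1 N s n ρ κ τ μ D e he ?_
  intro E hKE hEN
  exact hn₁ a x hFT hSLI hMS (Submodule.span ℚ (Set.range e))
    (FiniteDimensional.span_of_finite ℚ (Set.finite_range e)) hmem τ μ n E hKE.acl
    (fun hn => (hKE.ell hn).1) hEN

end Pool.Agent.Work.MP_8da9ea_nt.FR
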