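import Pool.Agent.Work.MP_8da9ea_nt.FR.Stmts
import Pool.Agent.Work.MP_8da9ea_nt.EC.I_AlgL

/-!
# FR14b, the main statement
-/

set_option autoImplicit false

namespace Pool.Agent.Work.MP_8da9ea_nt.FR

open MvPolynomial Pool.Agent.Work.MP_327059_nt.GL Pool.Agent.Work.MP_8da9ea_nt.S
  Pool.Agent.Work.MP_8da9ea_nt.EB Pool.Agent.Work.MP_8da9ea_nt.EC

namespace I_FRMain

/-- The span of `x` is stable under `L` as soon as the products `l x_a` are in it. -/
lemma stab_span {L : IntermediateField ℚ ℂ} {ν : ℕ} {x : Fin ν → ℂ} (h : Stab L x) :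
    ∀ β ∈ L, ∀ y ∈ Submodule.span ℚ (Set.range x), β * y ∈ Submodule.span ℚ (Set.range x) := by
  intro β hβ y hy
  induction hy using Submodule.span_induction with
  | mem y hy =>
    obtain ⟨l, rfl⟩ := hy
    exact h β hβ l
  | zero =>
    rw [mul_zero]
    exact Submodule.zero_mem _
  | add y y' _ _ h1 h2 =>
    rw [mul_add]
    exact Submodule.add_mem _ h1 h2
  | smul q y _ h1 =>
    rw [mul_smul_comm]
    exact Submodule.smul_mem _ q h1

/-- Elements of a number field are algebraic. -/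
lemma alg_of_fin {L : IntermediateField ℚ ℂ} (hL : FiniteDimensional ℚ L) {y : ℂ} (hy : y ∈ L) :
    IsAlgebraic ℚ y := by
  have h1 : IsAlgebraic ℚ (⟨y, hy⟩ : L) := Algebra.IsAlgebraic.isAlgebraic _
  exact h1.algebraMap

/-- An algebraic number is in every field which is algebraically closed in `ℂ`. -/
lemma mem_of_alg {K : IntermediateField ℚ ℂ} (hK : ACl K) {y : ℂ} (hy : IsAlgebraic ℚ y) :
    y ∈ K := hK y (hy.extendScalars (algebraMap ℚ K).injective)

/-- Linear independence over `k` implies linear independence over `ℚ`. -/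
lemma li_of_KLI {τ : ℂ} {m : ℕ} {a : Fin m → ℂ} (h : KLI τ a) : LinearIndependent ℚ a := by
  rw [Fintype.linearIndependent_iff]
  intro q hq i
  have h1 := h (fun i => (q i : ℂ)) (fun j => I_AlgL.IsE_rat τ (q j)) (by
    rw [← hq]
    exact Finset.sum_congr rfl fun j _ => (Rat.smul_def _ _).symm)
  have h2 := congrFun h1 i
  simpa using h2

end I_FRMain

open I_FRMain in
/-- **FR14b, the main statement.** -/
theorem FRMain_pf (h1 : S_Core) (h2 : S_FormA) (h3 : S_FormB) (h4 : S_NoSmall) : S_FRMain := by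
  intro N s n q
  obtain ⟨n₀, hn₀⟩ := h4 (N + s + 2 * n + q + 2)
  refine ⟨n₀, ?_⟩
  intro τ μ hN L hL hE ha ν hν x hx hst ω hω K₀ hc hacl hper hKN β hβ hβi β' hβ' hβi'
  obtain ⟨a, haL, haK⟩ := ha
  have hV := stab_span hst
  have hKF : KF n τ μ K₀ := ⟨hc.to_subtype, hacl,
    fun _ => ⟨⟨hN.im, hN.mu, mem_of_alg hacl hN.g2, mem_of_alg hacl hN.g3⟩, hper⟩⟩
  have hS : Setup τ L (Submodule.span ℚ (Set.range x)) β β' := ⟨hV, hβ, hβ', hβi, hβi', fun _ => hE⟩
  have hbig : ∀ E : IntermediateField ℚ ℂ, KF n τ μ E → ¬ HasTrdeg E (N + s + 2 * n + q + 1) →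
      (∃ y ∈ Submodule.span ℚ (Set.range x), Complex.exp (ω * y) ∉ E) ∧
      (0 < n → ∃ y ∈ Submodule.span ℚ (Set.range x), y ∉ Lam τ ∧ xe τ μ y ∉ E) := by
    intro E _ hEN
    obtain ⟨h5, h6⟩ := hn₀ (Submodule.span ℚ (Set.range x)) a
      (fun j => alg_of_fin hL (haL j)) (fun j y hy => hV _ (haL j) y hy)
      ⟨fun i => x (Fin.castLE hν i), fun i => Submodule.subset_span ⟨_, rfl⟩,
        hx.comp _ (Fin.castLE_injective hν)⟩ E hEN
    exact ⟨h5 (li_of_KLI haK) ω hω, fun _ => h6 τ μ hN haK⟩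
  obtain ⟨P, hP, hPd, hPw⟩ := h2 τ μ ω K₀ s n q ν hKF β β' x
  refine ⟨P, hP, hPd, fun w hw z hz => ?_⟩
  have hzV : ∀ i, z i ∈ Submodule.span ℚ (Set.range x) := by
    intro i
    rw [hz i]
    refine sum_mem fun l _ => ?_
    rw [← Rat.smul_def]
    exact Submodule.smul_mem _ _ (Submodule.subset_span ⟨l, rfl⟩)
  have h5 := h1 τ μ ω hω L (Submodule.span ℚ (Set.range x)) s n q N β β' hS K₀ hKF hKN hbig z hzV
    (hPw w hw z hz)
  exact h3 τ μ ω K₀ s n q hKF β β' z h5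

end Pool.Agent.Work.MP_8da9ea_nt.FR
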