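import Pool.Agent.Work.MP_8da9ea_nt.FR.StmtsP

/-!
# Item P12: polynomial families, lattices with algebraic invariants
-/

set_option autoImplicit false

namespace Pool.Agent.Work.MP_8da9ea_nt.FR

open MvPolynomial Metric Filter Topology Pool.Agent.Work.MP_327059_nt.GL
  Pool.Agent.Work.MP_8da9ea_nt.S Pool.Agent.Work.MP_8da9ea_nt.EB Pool.Agent.Work.MP_8da9ea_nt.EC

namespace I_FRPA

/-- The span of `e` contains the independent numbers `a x_i`, so `D` is large. -/
theorem le_of_mem {n₀ D : ℕ} {e : Fin D → ℂ} {x : Fin n₀ → ℂ} (hx : LinearIndependent ℚ x)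
    {y : ℂ} (hy : y ≠ 0) (h : ∀ i, y * x i ∈ Submodule.span ℚ (Set.range e)) : n₀ ≤ D := by
  have hli : LinearIndependent ℚ (fun i => y * x i) := by
    have h := hx.map' (LinearMap.mulLeft ℚ y) (by
      rw [LinearMap.ker_eq_bot']
      intro z hz
      rw [LinearMap.mulLeft_apply] at hz
      exact (mul_eq_zero.1 hz).resolve_left hy)
    exact h
  have hfin : Module.Finite ℚ (Submodule.span ℚ (Set.range e)) :=
    Module.Finite.span_of_finite ℚ (Set.finite_range e)
  have hle : Submodule.span ℚ (Set.range (fun i => y * x i)) ≤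
      Submodule.span ℚ (Set.range e) := by
    rw [Submodule.span_le]
    rintro _ ⟨i, rfl⟩
    exact h i
  have h1 := Submodule.finrank_mono hle
  have h2 := finrank_span_eq_card hli
  have h3 := finrank_range_le_card (R := ℚ) e
  rw [Fintype.card_fin] at h2 h3
  unfold Set.finrank at h3
  omega

end I_FRPA

open I_FRPA in
/-- **P12** -/
theorem FRPA_pf (h1 : S_FRPG) (h2 : S_NoSmallC) : S_FRPA := by
  intro Q N s n ρ Δ
  obtain ⟨n₁, h₁⟩ := h1 N s n ρ Δ
  obtain ⟨n₂, h₂⟩ := h2 Q (N + s + 2 * n + ρ + 2)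
  refine ⟨n₁ + n₂, ?_⟩
  intro τ μ a x hFT ha hx hn D e he hax
  have hD : n₁ + n₂ ≤ D := le_of_mem hx (ha.ne_zero 0) (hax 0)
  refine h₁ τ μ D (by omega) e he ?_
  intro E _ hE
  exact h₂ a (fun i => x (Fin.natAdd n₁ i)) hFT ha
    (hx.comp _ (Fin.natAdd_injective n₂ n₁)) _ (fun l i => hax l _) τ μ n hn E hE

end Pool.Agent.Work.MP_8da9ea_nt.FR
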