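import Pool.Agent.Work.MP_8da9ea_nt.FR.StmtsV
import Pool.Agent.Work.MP_8da9ea_nt.EB.I_Kf

/-!
# [SLIex] powers of a primitive element are independent over all fields of endomorphisms
-/

set_option autoImplicit false

namespace Pool.Agent.Work.MP_8da9ea_nt.FR

open Pool.Agent.Work.MP_327059_nt.GL Pool.Agent.Work.MP_8da9ea_nt.S
  Pool.Agent.Work.MP_8da9ea_nt.EB Pool.Agent.Work.MP_8da9ea_nt.EC

namespace I_SLIex

open Pool.Agent.Work.MP_8da9ea_nt.EB.I_Kf Polynomial IntermediateField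

theorem finrank_kI_le (τ : ℂ) : Module.finrank ℚ (kI τ) ≤ 2 := by
  have h1 : Module.Finite ℚ (V τ) := by
    unfold V
    exact Module.Finite.span_of_finite ℚ (Set.toFinite _)
  have h2 : Module.finrank ℚ (V τ) ≤ 2 := by
    have h : Set.finrank ℚ ((({1, τ} : Finset ℂ)) : Set ℂ) ≤ ({1, τ} : Finset ℂ).card :=
      finrank_span_finset_le_card (R := ℚ) ({1, τ} : Finset ℂ)
    rw [Finset.coe_pair] at h
    exact h.trans Finset.card_le_two
  have h3 : Module.finrank ℚ (Subalgebra.toSubmodule (kA τ)) ≤ Module.finrank ℚ (V τ) :=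
    Submodule.finrank_mono (kA_le τ)
  exact h3.trans h2

theorem main (L : IntermediateField ℚ ℂ) (M : ℕ) (_hL : FiniteDimensional ℚ L)
    (hM : 2 * M ≤ Module.finrank ℚ L) (α : L) (hα : ℚ⟮α⟯ = ⊤) (τ : ℂ) (g : Fin M → ℂ)
    (hg : ∀ j, IsE τ (g j)) (h : ∑ j, g j * (α : ℂ) ^ (j : ℕ) = 0) : g = 0 := by
  by_contra hne
  have hk : FiniteDimensional ℚ (kI τ) := finite_kA τ
  let f : Fin M → kI τ := fun j => ⟨g j, mem_kI.mpr (hg j)⟩
  let p : (kI τ)[X] := ∑ j : Fin M, C (f j) * X ^ (j : ℕ)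
  have hcoeff : ∀ j : Fin M, p.coeff (j : ℕ) = f j := by
    intro j
    have h1 : p.coeff (j : ℕ) = ∑ i : Fin M, (C (f i) * X ^ (i : ℕ) : (kI τ)[X]).coeff (j : ℕ) :=
      finsetSum_coeff _ _ _
    rw [h1, Finset.sum_eq_single j]
    · simp
    · intro i _ hij
      rw [coeff_C_mul, coeff_X_pow, if_neg, mul_zero]
      intro h2
      exact hij (Fin.ext h2.symm)
    · intro h2
      exact absurd (Finset.mem_univ j) h2
  have hp0 : p ≠ 0 := by
    intro h0
    apply hne
    funext j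
    have h1 := hcoeff j
    rw [h0, coeff_zero] at h1
    have h2 : ((f j : kI τ) : ℂ) = 0 := by rw [← h1]; rfl
    exact h2
  have hpe : aeval (α : ℂ) p = 0 := by
    have h1 : aeval (α : ℂ) p = ∑ j : Fin M, g j * (α : ℂ) ^ (j : ℕ) := by
      rw [map_sum]
      apply Finset.sum_congr rfl
      intro j _
      rw [map_mul, aeval_C, map_pow, aeval_X]
      rfl
    rw [h1]
    exact h
  have hdeg : p.degree < M := degree_sum_fin_lt f
  have halg : IsAlgebraic (kI τ) (α : ℂ) := ⟨p, hp0, hpe⟩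
  have hint : IsIntegral (kI τ) (α : ℂ) := halg.isIntegral
  have hmin : (minpoly (kI τ) (α : ℂ)).degree < M :=
    lt_of_le_of_lt (minpoly.degree_le_of_ne_zero (kI τ) (α : ℂ) hp0 hpe) hdeg
  have hnat : (minpoly (kI τ) (α : ℂ)).natDegree < M := by
    have h1 := minpoly.ne_zero hint
    rw [degree_eq_natDegree h1] at hmin
    exact_mod_cast hmin
  have hE : Module.finrank (kI τ) (kI τ)⟮(α : ℂ)⟯ = (minpoly (kI τ) (α : ℂ)).natDegree :=
    IntermediateField.adjoin.finrank hint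
  have hfin : FiniteDimensional (kI τ) (kI τ)⟮(α : ℂ)⟯ :=
    IntermediateField.adjoin.finiteDimensional hint
  have hfinQ : FiniteDimensional ℚ (kI τ)⟮(α : ℂ)⟯ := Module.Finite.trans (kI τ) _
  have htower : Module.finrank ℚ (kI τ) * Module.finrank (kI τ) (kI τ)⟮(α : ℂ)⟯ =
      Module.finrank ℚ (kI τ)⟮(α : ℂ)⟯ := Module.finrank_mul_finrank ℚ (kI τ) _
  have hLα : L = ℚ⟮(α : ℂ)⟯ := by
    have h1 : IntermediateField.lift (ℚ⟮α⟯) = ℚ⟮(α : ℂ)⟯ :=
      IntermediateField.lift_adjoin_simple ℚ L α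
    have h2 : IntermediateField.lift (⊤ : IntermediateField ℚ L) = L :=
      IntermediateField.lift_top ℚ L
    exact h2.symm.trans ((congrArg IntermediateField.lift hα).symm.trans h1)
  have hle : L ≤ (kI τ)⟮(α : ℂ)⟯.restrictScalars ℚ := by
    refine hLα.le.trans ?_
    rw [IntermediateField.adjoin_simple_le_iff]
    exact IntermediateField.mem_adjoin_simple_self (kI τ) (α : ℂ)
  have hrank : Module.finrank ℚ L ≤ Module.finrank ℚ (kI τ)⟮(α : ℂ)⟯ :=
    LinearMap.finrank_le_finrank_of_injective (f := (IntermediateField.inclusion hle).toLinearMap)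
      (IntermediateField.inclusion hle).injective
  have h2 := finrank_kI_le τ
  rw [← htower, hE] at hrank
  have h3 : Module.finrank ℚ (kI τ) * (minpoly (kI τ) (α : ℂ)).natDegree ≤
      2 * (minpoly (kI τ) (α : ℂ)).natDegree := Nat.mul_le_mul_right _ h2
  omega

end I_SLIex

/-- **[SLIex]** -/
theorem SLIex_pf : S_SLIex := by
  intro L M hL hM
  obtain ⟨α, hα⟩ := Field.exists_primitive_element ℚ L
  refine ⟨fun j => (α : ℂ) ^ (j : ℕ), fun j => pow_mem α.2 _, ?_⟩
  intro τ _ g hg hsum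
  exact I_SLIex.main L M hL hM α hα τ g hg hsum

end Pool.Agent.Work.MP_8da9ea_nt.FR
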