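import Pool.Agent.Work.MP_8da9ea_nt.FR.StmtsP
import Pool.Agent.Work.MP_8da9ea_nt.FR.I_SLIex

/-!
# P11, polynomial families: the general form (item FRPG)
-/

set_option autoImplicit false

namespace Pool.Agent.Work.MP_8da9ea_nt.FR

open MvPolynomial Pool.Agent.Work.MP_327059_nt.GL Pool.Agent.Work.MP_8da9ea_nt.S
  Pool.Agent.Work.MP_8da9ea_nt.EB Pool.Agent.Work.MP_8da9ea_nt.EC

namespace I_FRPG

open Pool.Agent.Work.MP_8da9ea_nt.EB.I_Kf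

/-- The point `co e w` has its coordinates in the span of `e`. -/
theorem co_mem {q D : ℕ} (e : Fin D → ℂ) (w : Fin q → Fin D → ℚ) (i : Fin q) :
    co e w i ∈ Submodule.span ℚ (Set.range e) := by
  unfold co
  refine sum_mem fun a _ => ?_
  rw [← Rat.smul_def]
  exact Submodule.smul_mem _ _ (Submodule.subset_span ⟨a, rfl⟩)

/-- The toric polynomials. -/
theorem tor {s q D n₀ Δ : ℕ} (h4 : S_NDex) (h5 : S_NDform)
    (hn₀ : n₀ = (h4 s Δ 1).choose) (hD : n₀ ≤ D) (e : Fin D → ℂ) (he : LinearIndependent ℚ e)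
    (R : Fin s → MvPolynomial (Fin q) ℂ) (hR : ∀ j, (R j).totalDegree ≤ Δ)
    (hRi : ∀ c : Fin s → ℚ, ∀ a : ℂ, ∑ j, C (c j : ℂ) * R j = C a → c = 0) :
    ∃ P : MvPolynomial (Fin q × Fin D) ℂ, P ≠ 0 ∧
      ∀ w : Fin q → Fin D → ℚ, eval (fun o => (w o.1 o.2 : ℂ)) P ≠ 0 → NDf ⊥ R (co e w) := by
  have hsp := (h4 s Δ 1).choose_spec
  rw [← hn₀] at hsp
  have hfr : Module.finrank ℚ (⊥ : IntermediateField ℚ ℂ) ≤ 1 := by
    rw [IntermediateField.finrank_bot]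
  obtain ⟨w₀, hw₀⟩ := hsp ⊥ inferInstance hfr D hD e he q R hR (fun c hc a ha => by
    choose r hr using fun j => IntermediateField.mem_bot.1 (hc j)
    have hr' : ∀ j, ((r j : ℚ) : ℂ) = c j := fun j => hr j
    have h0 := hRi r a (by simpa only [hr'] using ha)
    funext j
    rw [← hr' j, h0]
    simp)
  exact h5 ⊥ s q D R e w₀ hw₀

/-- The elliptic polynomials. -/
theorem ell {n q D n₀ Δ : ℕ} (h4 : S_NDex) (h5 : S_NDform)
    (hn₀ : n₀ = (h4 n Δ 2).choose) (hD : n₀ ≤ D) (e : Fin D → ℂ) (he : LinearIndependent ℚ e)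
    (τ : ℂ) (S : Fin n → MvPolynomial (Fin q) ℂ) (hS : ∀ j, (S j).totalDegree ≤ Δ)
    (hSi : ∀ g : Fin n → ℂ, (∀ j, IsE τ (g j)) → ∀ a : ℂ, ∑ j, C (g j) * S j = C a → g = 0) :
    ∃ P : MvPolynomial (Fin q × Fin D) ℂ, P ≠ 0 ∧
      ∀ w : Fin q → Fin D → ℚ, eval (fun o => (w o.1 o.2 : ℂ)) P ≠ 0 →
        NDf (kI τ) S (co e w) := by
  have hsp := (h4 n Δ 2).choose_spec
  rw [← hn₀] at hsp
  obtain ⟨w₀, hw₀⟩ := hsp (kI τ) (finite_kA τ) (I_SLIex.finrank_kI_le τ) D hD e he q S hS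
    (fun c hc a ha => hSi c (fun j => mem_kI.1 (hc j)) a ha)
  exact h5 (kI τ) n q D S e w₀ hw₀

end I_FRPG

open I_FRPG Pool.Agent.Work.MP_8da9ea_nt.EB.I_Kf in
/-- **P11, general form.** -/
theorem FRPG_pf (h1 : S_CoreP) (h2 : S_FormP) (h3 : S_FormBZ) (h4 : S_NDex) (h5 : S_NDform) :
    S_FRPG := by
  intro N s n ρ Δ
  refine ⟨max (h4 s Δ 1).choose (h4 n Δ 2).choose, ?_⟩
  intro τ μ D hD e he hbig q R S Z hR hS hRi hSi K₀ hc hacl hell hN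
  obtain ⟨P₁, hP₁, hP₁w⟩ := tor h4 h5 rfl ((le_max_left _ _).trans hD) e he R hR hRi
  obtain ⟨P₂, hP₂, hP₂w⟩ := ell h4 h5 rfl ((le_max_right _ _).trans hD) e he τ S hS hSi
  have hKF : KF n τ μ K₀ := ⟨hc.to_subtype, hacl, hell⟩
  obtain ⟨P₃, hP₃, hP₃w⟩ := h2 τ μ K₀ s n q ρ D hKF R S Z e
  refine ⟨P₁ * P₂ * P₃, mul_ne_zero (mul_ne_zero hP₁ hP₂) hP₃, fun w hw => ?_⟩
  rw [map_mul, map_mul] at hw
  have hw₃ := right_ne_zero_of_mul hw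
  have hw₁ := left_ne_zero_of_mul (left_ne_zero_of_mul hw)
  have hw₂ := right_ne_zero_of_mul (left_ne_zero_of_mul hw)
  have h6 := h1 τ μ (Submodule.span ℚ (Set.range e)) s n q ρ N R S Z K₀ hKF hN hbig (co e w)
    (co_mem e w) (hP₃w w hw₃) (hP₁w w hw₁)
    (fun g hg hgs => hP₂w w hw₂ g (fun j => mem_kI.2 (hg j)) hgs)
  exact h3 τ μ K₀ s n ρ hKF (pv R (co e w)) (pv S (co e w)) (pv Z (co e w)) h6

end Pool.Agent.Work.MP_8da9ea_nt.FR
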