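import Pool.Agent.Work.MP_8da9ea_nt.FR.Stmts

/-!
# FR14a: the main statement for toric points
-/

set_option autoImplicit false

namespace Pool.Agent.Work.MP_8da9ea_nt.FR

open MvPolynomial Pool.Agent.Work.MP_327059_nt.GL Pool.Agent.Work.MP_8da9ea_nt.S
  Pool.Agent.Work.MP_8da9ea_nt.EB Pool.Agent.Work.MP_8da9ea_nt.EC

namespace I_FRTor

/-- The span of a stable family is stable. -/
lemma stab_span (L : IntermediateField ℚ ℂ) {ν : ℕ} (x : Fin ν → ℂ) (h : Stab L x) :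
    ∀ β ∈ L, ∀ y ∈ Submodule.span ℚ (Set.range x), β * y ∈ Submodule.span ℚ (Set.range x) := by
  intro β hβ y hy
  induction hy using Submodule.span_induction with
  | mem y hy =>
    obtain ⟨a, rfl⟩ := hy
    exact h β hβ a
  | zero => rw [mul_zero]; exact Submodule.zero_mem _
  | add u v _ _ hu hv => rw [mul_add]; exact Submodule.add_mem _ hu hv
  | smul c u _ hu => rw [mul_smul_comm]; exact Submodule.smul_mem _ _ hu

/-- Many independent elements of `L`. -/
lemma exists_li (L : IntermediateField ℚ ℂ) [FiniteDimensional ℚ L] (M : ℕ)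
    (h : M ≤ Module.finrank ℚ L) : ∃ b : Fin M → ℂ, (∀ j, b j ∈ L) ∧ LinearIndependent ℚ b := by
  let B := Module.finBasis ℚ L
  refine ⟨fun j => (B (Fin.castLE h j) : ℂ), fun j => (B (Fin.castLE h j)).2, ?_⟩
  have h1 : LinearIndependent ℚ (fun j : Fin M => B (Fin.castLE h j)) :=
    B.linearIndependent.comp _ (Fin.castLE_injective h)
  exact h1.map' L.val.toLinearMap (LinearMap.ker_eq_bot.2 (fun a b hab => Subtype.ext hab))

end I_FRTor

open I_FRTor in
theorem FRTor_pf (h1 : S_Core) (h2 : S_FormA) (h3 : S_FormB) (h4 : S_NoSmall) : S_FRTor := by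
  intro N s q
  obtain ⟨n₀, hn₀⟩ := h4 (N + s + q + 2)
  refine ⟨n₀, ?_⟩
  intro L hL hrk ν hν x hx hst ω hω K₀ hcnt hacl hK β hβL hβ
  have hKF : KF 0 0 0 K₀ := ⟨hcnt.to_subtype, hacl, fun h => absurd h (lt_irrefl _)⟩
  set V : Submodule ℚ ℂ := Submodule.span ℚ (Set.range x) with hV
  obtain ⟨b, hbL, hb⟩ := exists_li L (N + s + q + 2) hrk
  have hstV := stab_span L x hst
  have hset : Setup 0 L V β (fun j : Fin 0 => (Fin.elim0 j : Fin q → ℂ)) :=
    { stab := hstV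
      mB := hβL
      mB' := fun j => Fin.elim0 j
      liB := hβ
      liB' := fun g _ _ => Subsingleton.elim _ _
      kL := fun h => absurd h (lt_irrefl _) }
  obtain ⟨P, hP0, hPd, hP⟩ := h2 0 0 ω K₀ s 0 q ν hKF β (fun j : Fin 0 => (Fin.elim0 j : Fin q → ℂ)) x
  refine ⟨P, hP0, by simpa using hPd, ?_⟩
  intro w hw z hz
  have hmax := hP w hw z hz
  have hzV : ∀ i, z i ∈ V := by
    intro i
    rw [hz i]
    refine Submodule.sum_mem _ (fun a _ => ?_)
    have : (w i a : ℂ) * x a = w i a • x a := by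
      rw [Rat.smul_def]
    rw [this]
    exact Submodule.smul_mem _ _ (Submodule.subset_span ⟨a, rfl⟩)
  have hbig : ∀ E : IntermediateField ℚ ℂ, KF 0 0 0 E → ¬ HasTrdeg E (N + s + 2 * 0 + q + 1) →
      (∃ y ∈ V, Complex.exp (ω * y) ∉ E) ∧ (0 < 0 → ∃ y ∈ V, y ∉ Lam 0 ∧ xe 0 0 y ∉ E) := by
    intro E _ hE
    refine ⟨?_, fun h => absurd h (lt_irrefl _)⟩
    refine (hn₀ V b (fun j => ?_) (fun j y hy => hstV _ (hbL j) y hy)
      ⟨fun i => x (Fin.castLE hν i), fun i => Submodule.subset_span ⟨_, rfl⟩,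
        hx.comp _ (Fin.castLE_injective hν)⟩ E ?_).1 hb ω hω
    · have h5 : IsAlgebraic ℚ (⟨b j, hbL j⟩ : L) := Algebra.IsAlgebraic.isAlgebraic _
      exact h5.algebraMap (A := ℂ)
    · have e : N + s + q + 2 - 1 = N + s + 2 * 0 + q + 1 := by omega
      rw [e]
      exact hE
  have hcore := h1 0 0 ω hω L V s 0 q N β (fun j : Fin 0 => (Fin.elim0 j : Fin q → ℂ)) hset K₀ hKF hK
    hbig z hzV hmax
  have hB := (h3 0 0 ω K₀ s 0 q hKF β (fun j : Fin 0 => (Fin.elim0 j : Fin q → ℂ)) z hcore).2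
  have hC := hB.comp (Sum.inl : Fin s → Fin s ⊕ Fin 0 × Bool) Sum.inl_injective
  exact hC

end Pool.Agent.Work.MP_8da9ea_nt.FR
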