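import Pool.Agent.Work.MP_8da9ea_nt.FR.StmtsV
import Pool.Agent.Work.MP_8da9ea_nt.EB.I_Fin

/-!
# A linear branch is an endomorphism relation, uniformly in the lattice
-/

set_option autoImplicit false

namespace Pool.Agent.Work.MP_8da9ea_nt.FR

open MvPolynomial Metric Filter Topology Pool.Agent.Work.MP_8da9ea_nt
  Pool.Agent.Work.MP_8da9ea_nt.EB

namespace I_FinV

/-- a lower bound for the nonzero lattice points -/
lemma delta {R : ℝ} (hR : 1 ≤ R) {τ : ℂ} (h : LR R τ) : ∀ l ∈ Lam τ, l ≠ 0 → 1 / R ≤ ‖l‖ := by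
  intro l hl h0
  have hR0 : 0 < R := lt_of_lt_of_le one_pos hR
  obtain ⟨p, q, rfl⟩ := mem_Lam.1 hl
  by_cases hq : q = 0
  · subst hq
    have hp : p ≠ 0 := by
      rintro rfl
      apply h0
      simp
    have h1 : (1 : ℝ) ≤ |(p : ℝ)| := by
      exact_mod_cast Int.one_le_abs hp
    have h2 : ‖(p : ℂ) + ((0 : ℤ) : ℂ) * τ‖ = |(p : ℝ)| := by
      simp
    rw [h2]
    refine le_trans ?_ h1
    rw [div_le_one hR0]
    exact hR
  · have h1 : (1 : ℝ) ≤ |(q : ℝ)| := by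
      exact_mod_cast Int.one_le_abs hq
    have h2 : |((p : ℂ) + (q : ℂ) * τ).im| ≤ ‖(p : ℂ) + (q : ℂ) * τ‖ := Complex.abs_im_le_norm _
    have h3 : ((p : ℂ) + (q : ℂ) * τ).im = q * τ.im := by
      simp
    have him : 1 / R ≤ τ.im := by
      rw [div_le_iff₀ hR0, mul_comm]
      exact h.1
    have him0 : 0 < τ.im := lt_of_lt_of_le (by positivity) him
    rw [h3, abs_mul, abs_of_pos him0] at h2
    refine him.trans (le_trans ?_ h2)
    nlinarith

end I_FinV

open EB in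
theorem FinV_pf : S_FinV := by
  classical
  intro R hR
  have hR0 : 0 < R := lt_of_lt_of_le one_pos hR
  refine ⟨⌈3 * R⌉₊ + 1, by omega, ?_⟩
  intro τ hLR m B F α ι D κ hB1 hF hB hD h1 h2
  have hτ : 0 < τ.im := by
    have h3 := hLR.1
    by_contra h4
    push Not at h4
    nlinarith
  have hδ : (0 : ℝ) < 1 / R := by positivity
  have hH : ∀ d ∈ D, XFin.Hy τ F α (κ d) := fun d hd => ⟨h1 d hd, h2 d hd⟩
  obtain ⟨d₀, hd₀⟩ := hD
  choose N hN1 hN2 hN3 using fun i => (hH d₀ hd₀).int hτ hF hB1 (hB 0) i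
  refine ⟨∏ i, N i, ?_, ?_, ?_, ?_, ?_⟩
  · exact Finset.prod_ne_zero_iff.2 fun i _ => by have := hN1 i; omega
  · calc ∏ i, N i ≤ ∏ _i : Fin m, (4 * B * B) := Finset.prod_le_prod' fun i _ => hN2 i
      _ = (4 * B * B) ^ m := by simp
  · intro i
    have h3 : (((∏ j, N j : ℕ)) : ℂ) * α i =
        ((∏ j ∈ Finset.univ.erase i, N j : ℕ) : ℂ) * ((N i : ℂ) * α i) := by
      rw [← Finset.mul_prod_erase Finset.univ N (Finset.mem_univ i)]
      push_cast
      ring
    constructor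
    · rw [h3, ← nsmul_eq_mul]
      exact (XFin.LG τ).nsmul_mem (hN3 i).1 _
    · rw [h3, mul_assoc, ← nsmul_eq_mul]
      exact (XFin.LG τ).nsmul_mem (hN3 i).2 _
  · intro i
    refine (XFin.size hτ hδ (I_FinV.delta hR hLR) hF hB (hH d₀ hd₀) i).trans ?_
    have h3 : (2 * (B : ℝ) + 1) / (1 / R) ≤ 3 * R * B := by
      rw [div_div_eq_mul_div, div_one]
      have : (1 : ℝ) ≤ B := by exact_mod_cast hB1
      nlinarith
    refine h3.trans ?_
    push_cast
    apply mul_le_mul_of_nonneg_right _ (Nat.cast_nonneg B)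
    exact (Nat.le_ceil _).trans (by linarith)
  · exact XFin.classes hτ hF hB1 (hB 0) α D κ ⟨d₀, hd₀⟩ hH

end Pool.Agent.Work.MP_8da9ea_nt.FR
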