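import Pool.Agent.Work.MP_8da9ea_nt.FR.I_FormP

/-!
# Block FR, item FormA (version 2): the polynomial of the points of maximal rank
-/

set_option autoImplicit false

namespace Pool.Agent.Work.MP_8da9ea_nt.FR

open MvPolynomial Pool.Agent.Work.MP_327059_nt.GL Pool.Agent.Work.MP_8da9ea_nt.S
  Pool.Agent.Work.MP_8da9ea_nt.EB Pool.Agent.Work.MP_8da9ea_nt.EC

namespace I_FormA

open I_FormP

/-- a linear form -/
noncomputable def lin {σ : Type} [Fintype σ] (a : σ → ℂ) : MvPolynomial σ ℂ := ∑ o, X o * C (a o)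

theorem lin_deg {σ : Type} [Fintype σ] (a : σ → ℂ) : (lin a).totalDegree ≤ 1 := by
  unfold lin
  refine (totalDegree_finset_sum _ _).trans (Finset.sup_le fun o _ => ?_)
  refine (totalDegree_mul _ _).trans ?_
  rw [totalDegree_C, totalDegree_X]

theorem lin_eval {σ : Type} [Fintype σ] (a : σ → ℂ) (w : σ → ℚ) :
    eval (fun o => (w o : ℂ)) (lin a) = ∑ o, (w o : ℂ) * a o := by
  unfold lin
  rw [map_sum]
  refine Finset.sum_congr rfl fun o _ => ?_
  rw [map_mul, eval_X, eval_C]

/-- additive functions of the coordinates -/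
theorem linPol {q ν : ℕ} (f : ℂ → ℂ) (hf : ∀ u v, f (u + v) = f u + f v) (b : Fin q → ℂ)
    (x : Fin ν → ℂ) (c : ℂ) : Pol 1 (fun w : Fin q × Fin ν → ℚ =>
      f (c * lc b (fun i => ∑ l, (w (i, l) : ℂ) * x l))) := by
  have h1 : (fun w : Fin q × Fin ν → ℚ => f (c * lc b (fun i => ∑ l, (w (i, l) : ℂ) * x l))) =
      fun w => f (eval (fun o => (w o : ℂ))
        (lin (fun o : Fin q × Fin ν => c * (b o.1 * x o.2)))) := by
    funext w
    congr 1
    rw [lin_eval, Fintype.sum_prod_type]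
    unfold lc
    rw [Finset.mul_sum]
    refine Finset.sum_congr rfl fun i _ => ?_
    rw [Finset.mul_sum, Finset.mul_sum]
    refine Finset.sum_congr rfl fun l _ => ?_
    ring
  rw [h1]
  exact (addPol f hf _).mono (lin_deg _)

end I_FormA

open I_FormP I_FormA in
theorem FormA_pf (l1 : S_LamAddK) (l3 : S_EtaAddK) : S_FormA := by
  classical
  intro τ μ ω K s n q ν hK B B' x
  have hcard : Module.finrank ℂ ((Fin s ⊕ Fin n × Bool → ℂ) × (Fin q → ℂ)) = s + 2 * n + q := by
    rw [Module.finrank_prod, Module.finrank_fintype_fun_eq_card,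
      Module.finrank_fintype_fun_eq_card, Fintype.card_sum, Fintype.card_prod, Fintype.card_fin,
      Fintype.card_fin, Fintype.card_bool, Fintype.card_fin, mul_comm n 2]
  -- the maximal rank
  let rk : (Fin q → ℂ) → ℕ := fun γ => Module.finrank ℂ ((DK K).map (omX τ μ ω B B' γ))
  let Q : Set ℕ := {k | ∃ γ : Fin q → ℂ, (∀ i, γ i ∈ Submodule.span ℚ (Set.range x)) ∧ rk γ = k}
  have hQ : Q.Nonempty := ⟨rk 0, 0, fun i => Submodule.zero_mem _, rfl⟩
  have hQb : BddAbove Q := by
    refine ⟨Module.finrank ℂ ((Fin s ⊕ Fin n × Bool → ℂ) × (Fin q → ℂ)), ?_⟩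
    rintro k ⟨γ, _, rfl⟩
    exact Submodule.finrank_le _
  obtain ⟨β, hβ, hβr⟩ := Nat.sSup_mem hQ hQb
  have hmax : ∀ γ : Fin q → ℂ, (∀ i, γ i ∈ Submodule.span ℚ (Set.range x)) → rk γ ≤ rk β := by
    intro γ hγ
    rw [hβr]
    exact le_csSup hQb ⟨γ, hγ, rfl⟩
  have hw : ∀ i, ∃ w : Fin ν → ℚ, β i = ∑ l, (w l : ℂ) * x l := by
    intro i
    obtain ⟨w, hw⟩ := (Submodule.mem_span_range_iff_exists_fun ℚ).1 (hβ i)
    refine ⟨w, ?_⟩
    rw [← hw]
    refine Finset.sum_congr rfl fun l _ => ?_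
    rw [Rat.smul_def]
  choose w₀ hw₀ using hw
  have hβe : β = fun i => ∑ l, (w₀ i l : ℂ) * x l := funext hw₀
  obtain ⟨P, hP0, hPd, hP⟩ := rankPol (DK K)
    (fun w : Fin q × Fin ν → ℚ => omX τ μ ω B B' (fun i => ∑ l, (w (i, l) : ℂ) * x l)) 1 (by
      intro δ hδ ψ
      have h1 : ∀ x : (Fin s ⊕ Fin n × Bool → ℂ) × (Fin q → ℂ), ψ x =
          ∑ o, ψ (Pi.single o 1, 0) * x.1 o + ∑ i, ψ (0, Pi.single i 1) * x.2 i := by
        rintro ⟨x, y⟩
        have e1 : ((x, y) : (Fin s ⊕ Fin n × Bool → ℂ) × (Fin q → ℂ)) =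
            ∑ o, x o • ((Pi.single o 1, 0) : (Fin s ⊕ Fin n × Bool → ℂ) × (Fin q → ℂ)) +
            ∑ i, y i • ((0, Pi.single i 1) : (Fin s ⊕ Fin n × Bool → ℂ) × (Fin q → ℂ)) := by
          refine Prod.ext ?_ ?_
          · rw [Prod.fst_add, Prod.fst_sum, Prod.fst_sum]
            simp only [Prod.smul_fst, smul_zero, Finset.sum_const_zero, add_zero]
            exact single_sum x
          · rw [Prod.snd_add, Prod.snd_sum, Prod.snd_sum]
            simp only [Prod.smul_snd, smul_zero, Finset.sum_const_zero, zero_add]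
            exact single_sum y
        rw [e1, map_add, map_sum, map_sum]
        simp only [map_smul, smul_eq_mul, ← e1]
        congr 1
        · refine Finset.sum_congr rfl fun o _ => mul_comm _ _
        · refine Finset.sum_congr rfl fun o _ => mul_comm _ _
      have h2 : (fun w : Fin q × Fin ν → ℚ => ψ (omX τ μ ω B B'
          (fun i => ∑ l, (w (i, l) : ℂ) * x l) δ)) =
          fun w => (∑ o, ψ (Pi.single o 1, 0) * omW τ μ ω B B'
            (fun i => ∑ l, (w (i, l) : ℂ) * x l) δ o) +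
            ∑ i, ψ (0, Pi.single i 1) * δ (∑ l, (w (i, l) : ℂ) * x l) := by
        funext w
        rw [h1]
        rfl
      rw [h2]
      refine Pol.add (Pol.sum _ _ fun o => ?_) (Pol.sum _ _ fun i => ?_)
      · rcases o with j | ⟨j, c⟩
        · exact linPol (th δ) (EB.I_RelPol.dlog_add δ) (B j) x ω
        · obtain ⟨g1, g2⟩ := hK.ell j.pos
          cases c with
          | true =>
            have h3 := linPol (etf τ μ δ) (l3 τ μ K g1 g2 δ hδ) (B' j) x 1
            simp only [one_mul] at h3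
            exact h3
          | false =>
            have h3 := linPol (lam τ μ δ) (l1 τ μ K g1 δ hδ) (B' j) x 1
            simp only [one_mul] at h3
            exact h3
      · have h3 := linPol (fun x => δ x) (fun u v => map_add δ u v) (Pi.single i 1) x 1
        simp only [one_mul, lc, Pi.single_apply, ite_mul, zero_mul, Finset.sum_ite_eq',
          Finset.mem_univ, if_true] at h3
        exact h3) (fun o => w₀ o.1 o.2)
  refine ⟨P, hP0, ?_, fun w hw z hz γ hγ => ?_⟩
  · refine hPd.trans ?_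
    rw [mul_one, ← hcard]
    exact Submodule.finrank_le _
  · have h1 := hP (fun o => w o.1 o.2) hw
    have h2 := hmax γ hγ
    rw [hβe] at h2
    have h3 : z = fun i => ∑ l, (w i l : ℂ) * x l := funext hz
    rw [h3]
    exact h2.trans h1

end Pool.Agent.Work.MP_8da9ea_nt.FR
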