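import Pool.Agent.Work.MP_8da9ea_nt.FR.Stmts
import Pool.Agent.Work.MP_8da9ea_nt.TG.RelH

/-!
# Block FR, item FormB: the Jacobian criterion
-/

set_option autoImplicit false

namespace Pool.Agent.Work.MP_8da9ea_nt.FR

open MvPolynomial Pool.Agent.Work.MP_327059_nt.GL Pool.Agent.Work.MP_8da9ea_nt.S
  Pool.Agent.Work.MP_8da9ea_nt.EB Pool.Agent.Work.MP_8da9ea_nt.EC

namespace I_FormB

/-- the criterion for points `u`, `v` -/
theorem crit (τ μ : ℂ) (K : IntermediateField ℚ ℂ) {s n : ℕ} (u : Fin s → ℂ) (v : Fin n → ℂ)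
    (δ : Fin s ⊕ Fin n × Bool → Derivation ℚ ℂ ℂ) (hδ : ∀ o, ∀ x ∈ K, δ o x = 0)
    (hP : (Matrix.of fun o o' => omV τ μ u v (δ o) o').det ≠ 0) :
    (∀ j, v j ∉ Lam τ) ∧ AlgebraicIndependent K (fm τ μ u v) := by
  classical
  have hvL : ∀ i, v i ∉ Lam τ := by
    intro i hi
    apply hP
    refine Matrix.det_eq_zero_of_column_eq_zero (Sum.inr (i, false)) fun o => ?_
    change lam τ μ (δ o) (v i) = 0
    unfold lam
    rw [if_pos hi]
  have hy : ∀ i, ye τ μ (v i) ≠ 0 := by
    intro i hi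
    apply hP
    refine Matrix.det_eq_zero_of_column_eq_zero (Sum.inr (i, false)) fun o => ?_
    change lam τ μ (δ o) (v i) = 0
    unfold lam
    rw [if_neg (hvL i), hi, div_zero]
  refine ⟨hvL, ?_⟩
  have hlam : ∀ o i, δ o (xe τ μ (v i)) = ye τ μ (v i) * lam τ μ (δ o) (v i) := by
    intro o i
    unfold lam
    rw [if_neg (hvL i), mul_div_cancel₀ _ (hy i)]
  have hetf : ∀ o i, δ o (ze τ μ (v i)) = etf τ μ (δ o) (v i) -
      xe τ μ (v i) * lam τ μ (δ o) (v i) := by
    intro o i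
    unfold etf
    rw [if_neg (hvL i)]
    ring
  refine TG.rel_jac K _ δ hδ ?_
  intro h0
  obtain ⟨a, ha, haJ⟩ := Matrix.exists_mulVec_eq_zero_iff.2 h0
  let a' : Fin s ⊕ Fin n × Bool → ℂ := Sum.elim (fun i => Complex.exp (u i) * a (Sum.inl i))
    (fun q => if q.2 then a (Sum.inr (q.1, true)) else
      ye τ μ (v q.1) * a (Sum.inr (q.1, false)) - xe τ μ (v q.1) * a (Sum.inr (q.1, true)))
  have hM : (Matrix.of fun o o' => omV τ μ u v (δ o) o').mulVec a' = 0 := by
    funext o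
    have h3 := congrFun haJ o
    simp only [Matrix.mulVec, dotProduct, Matrix.of_apply, Fintype.sum_sum_type,
      Fintype.sum_prod_type, Fintype.sum_bool, Pi.zero_apply, fm] at h3 ⊢
    simp only [Sum.elim_inl, Sum.elim_inr, if_true, Bool.false_eq_true, if_false] at h3
    rw [← h3]
    congr 1
    · refine Finset.sum_congr rfl fun i _ => ?_
      change δ o (Complex.exp (u i)) / Complex.exp (u i) * (Complex.exp (u i) * a (Sum.inl i)) =
        δ o (Complex.exp (u i)) * a (Sum.inl i)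
      rw [← mul_assoc, div_mul_cancel₀ _ (Complex.exp_ne_zero _)]
    · refine Finset.sum_congr rfl fun i _ => ?_
      change etf τ μ (δ o) (v i) * a (Sum.inr (i, true)) + lam τ μ (δ o) (v i) *
        (ye τ μ (v i) * a (Sum.inr (i, false)) - xe τ μ (v i) * a (Sum.inr (i, true))) =
        δ o (ze τ μ (v i)) * a (Sum.inr (i, true)) + δ o (xe τ μ (v i)) * a (Sum.inr (i, false))
      rw [hlam, hetf]
      ring
  have ha' : a' = 0 := by
    by_contra hne
    exact hP (Matrix.exists_mulVec_eq_zero_iff.1 ⟨a', hne, hM⟩)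
  apply ha
  funext o
  rcases o with i | ⟨i, b⟩
  · have h3 : Complex.exp (u i) * a (Sum.inl i) = 0 := congrFun ha' (Sum.inl i)
    exact (mul_eq_zero.1 h3).resolve_left (Complex.exp_ne_zero _)
  · have h3 : a (Sum.inr (i, true)) = 0 := congrFun ha' (Sum.inr (i, true))
    cases b with
    | true => exact h3
    | false =>
      have h4 : ye τ μ (v i) * a (Sum.inr (i, false)) - xe τ μ (v i) *
        a (Sum.inr (i, true)) = 0 := congrFun ha' (Sum.inr (i, false))
      rw [h3, mul_zero, sub_zero] at h4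
      exact (mul_eq_zero.1 h4).resolve_left (hy i)

end I_FormB

open I_FormB in
theorem FormB_pf : S_FormB := by
  classical
  intro τ μ ω K s n q _ B B' z hr
  obtain ⟨δ, hδ, hli⟩ := TG.lin_ker (DK K ⊓ TT z) (omW τ μ ω B B' z)
    (0 : Derivation ℚ ℂ ℂ →ₗ[ℂ] (Fin 0 → ℂ)) (s + 2 * n) (by
      rw [Module.finrank_fintype_fun_eq_card, Fintype.card_fin, add_zero]
      exact hr)
  have hcard : Fintype.card (Fin s ⊕ Fin n × Bool) = s + 2 * n := by
    rw [Fintype.card_sum, Fintype.card_prod, Fintype.card_fin, Fintype.card_fin,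
      Fintype.card_bool, mul_comm]
  let e : Fin s ⊕ Fin n × Bool ≃ Fin (s + 2 * n) := Fintype.equivFinOfCardEq hcard
  have hK : ∀ o, ∀ x ∈ IntermediateField.adjoin ℚ ((K : Set ℂ) ∪ Set.range z),
      δ (e o) x = 0 := by
    intro o
    refine Pool.Agent.ED.der_zero_adjoin _ (δ (e o)) ?_
    rintro x (hx | ⟨i, rfl⟩)
    · exact (Submodule.mem_inf.1 (hδ (e o)).1).1 x hx
    · exact (Submodule.mem_inf.1 (hδ (e o)).1).2 i
  have hdet : (Matrix.of fun o o' => omV τ μ (fun j => ω * lc (B j) z)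
      (fun j => lc (B' j) z) (δ (e o)) o').det ≠ 0 := by
    have h1 : LinearIndependent ℂ (fun o : Fin s ⊕ Fin n × Bool =>
        omW τ μ ω B B' z (δ (e o))) := hli.comp e e.injective
    have h2 := (Matrix.linearIndependent_rows_iff_isUnit
      (A := Matrix.of fun o o' => omV τ μ (fun j => ω * lc (B j) z)
        (fun j => lc (B' j) z) (δ (e o)) o')).1 h1
    exact ((Matrix.isUnit_iff_isUnit_det _).1 h2).ne_zero
  exact crit τ μ _ _ _ (fun o => δ (e o)) hK hdet

end Pool.Agent.Work.MP_8da9ea_nt.FR
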