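import Pool.Agent.Work.MP_8da9ea_nt.FR.StmtsP
import Pool.Agent.Work.MP_8da9ea_nt.FR.I_FormB

/-!
# Block FR, item FormBZ: the Jacobian criterion for arbitrary points
-/

set_option autoImplicit false

namespace Pool.Agent.Work.MP_8da9ea_nt.FR

open MvPolynomial Pool.Agent.Work.MP_327059_nt.GL Pool.Agent.Work.MP_8da9ea_nt.S
  Pool.Agent.Work.MP_8da9ea_nt.EB Pool.Agent.Work.MP_8da9ea_nt.EC

theorem FormBZ_pf : S_FormBZ := by
  classical
  intro τ μ K s n ρ _ u v z hr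
  obtain ⟨δ, hδ, hli⟩ := TG.lin_ker (DK K ⊓ TT z) (omV τ μ u v)
    (0 : Derivation ℚ ℂ ℂ →ₗ[ℂ] (Fin 0 → ℂ)) (s + 2 * n) (by
      rw [Module.finrank_fintype_fun_eq_card, Fintype.card_fin, add_zero]
      exact hr)
  have hcard : Fintype.card (Fin s ⊕ Fin n × Bool) = s + 2 * n := by
    rw [Fintype.card_sum, Fintype.card_prod, Fintype.card_fin, Fintype.card_fin,
      Fintype.card_bool, mul_comm]
  let e : Fin s ⊕ Fin n × Bool ≃ Fin (s + 2 * n) := Fintype.equivFinOfCardEq hcard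
  have hK : ∀ o, ∀ x ∈ IntermediateField.adjoin ℚ ((K : Set ℂ) ∪ Set.range z),
      δ (e o) x = 0 := by
    intro o
    refine Pool.Agent.ED.der_zero_adjoin _ (δ (e o)) ?_
    rintro x (hx | ⟨i, rfl⟩)
    · exact (Submodule.mem_inf.1 (hδ (e o)).1).1 x hx
    · exact (Submodule.mem_inf.1 (hδ (e o)).1).2 i
  have hdet : (Matrix.of fun o o' => omV τ μ u v (δ (e o)) o').det ≠ 0 := by
    have h1 : LinearIndependent ℂ (fun o : Fin s ⊕ Fin n × Bool =>
        omV τ μ u v (δ (e o))) := hli.comp e e.injective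
    have h2 := (Matrix.linearIndependent_rows_iff_isUnit
      (A := Matrix.of fun o o' => omV τ μ u v (δ (e o)) o')).1 h1
    exact ((Matrix.isUnit_iff_isUnit_det _).1 h2).ne_zero
  exact I_FormB.crit τ μ _ _ _ (fun o => δ (e o)) hK hdet

end Pool.Agent.Work.MP_8da9ea_nt.FR
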