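import Pool.Agent.Work.MP_8da9ea_nt.FR.StmtsP
import Pool.Agent.Work.MP_8da9ea_nt.EB.I_RelPol

/-!
# Block FR, part P, item FormP: the polynomial of the points of maximal rank
-/

set_option autoImplicit false

namespace Pool.Agent.Work.MP_8da9ea_nt.FR

open MvPolynomial Pool.Agent.Work.MP_327059_nt.GL Pool.Agent.Work.MP_8da9ea_nt.S
  Pool.Agent.Work.MP_8da9ea_nt.EB Pool.Agent.Work.MP_8da9ea_nt.EC

namespace I_FormP

/-- `g` is the restriction of a polynomial of degree `≤ d` to the rational points. -/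
def Pol {σ : Type} (d : ℕ) (g : (σ → ℚ) → ℂ) : Prop :=
  ∃ F : MvPolynomial σ ℂ, F.totalDegree ≤ d ∧ ∀ w, eval (fun o => (w o : ℂ)) F = g w

theorem Pol.mono {σ : Type} {d d' : ℕ} (h : d ≤ d') {g : (σ → ℚ) → ℂ} (hg : Pol d g) :
    Pol d' g := by
  obtain ⟨F, h1, h2⟩ := hg
  exact ⟨F, h1.trans h, h2⟩

theorem Pol.sum {σ ι : Type} [Fintype ι] {d : ℕ} (c : ι → ℂ) (g : ι → (σ → ℚ) → ℂ)
    (h : ∀ i, Pol d (g i)) : Pol d (fun w => ∑ i, c i * g i w) := by
  choose F h1 h2 using h
  refine ⟨∑ i, C (c i) * F i, ?_, ?_⟩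
  · refine (totalDegree_finset_sum _ _).trans (Finset.sup_le fun i _ => ?_)
    refine (totalDegree_mul _ _).trans ?_
    rw [totalDegree_C, zero_add]
    exact h1 i
  · intro w
    rw [map_sum]
    refine Finset.sum_congr rfl fun i _ => ?_
    rw [map_mul, eval_C, h2]

theorem Pol.add {σ : Type} {d : ℕ} {g g' : (σ → ℚ) → ℂ} (h : Pol d g) (h' : Pol d g') :
    Pol d (fun w => g w + g' w) := by
  obtain ⟨F, h1, h2⟩ := h
  obtain ⟨F', h1', h2'⟩ := h'
  refine ⟨F + F', (totalDegree_add _ _).trans (max_le h1 h1'), fun w => ?_⟩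
  rw [map_add, h2, h2']

/-- the degree of a determinant -/
theorem det_deg {σ : Type} {r d : ℕ} (M : Matrix (Fin r) (Fin r) (MvPolynomial σ ℂ))
    (h : ∀ i j, (M i j).totalDegree ≤ d) : M.det.totalDegree ≤ r * d := by
  rw [Matrix.det_apply]
  refine (totalDegree_finset_sum _ _).trans (Finset.sup_le fun p _ => ?_)
  have h1 : (∏ i, M (p i) i).totalDegree ≤ r * d := by
    refine (totalDegree_finset_prod _ _).trans ?_
    refine (Finset.sum_le_sum fun i _ => h (p i) i).trans ?_
    rw [Finset.sum_const, Finset.card_univ, Fintype.card_fin, smul_eq_mul]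
  rcases Int.units_eq_one_or (Equiv.Perm.sign p) with h2 | h2
  · rw [h2, one_smul]
    exact h1
  · rw [h2, Units.neg_smul, one_smul, totalDegree_neg]
    exact h1

/-- **The rank of a polynomial family does not drop outside a hypersurface.** -/
theorem rankPol {T U σ : Type} [AddCommGroup T] [Module ℂ T] [AddCommGroup U] [Module ℂ U]
    [FiniteDimensional ℂ U] (S : Submodule ℂ T) (om : (σ → ℚ) → (T →ₗ[ℂ] U)) (d : ℕ)
    (hpol : ∀ δ ∈ S, ∀ ψ : U →ₗ[ℂ] ℂ, Pol d (fun w => ψ (om w δ))) (w₀ : σ → ℚ) :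
    ∃ P : MvPolynomial σ ℂ, P ≠ 0 ∧ P.totalDegree ≤ Module.finrank ℂ (S.map (om w₀)) * d ∧
      ∀ w, eval (fun o => (w o : ℂ)) P ≠ 0 →
        Module.finrank ℂ (S.map (om w₀)) ≤ Module.finrank ℂ (S.map (om w)) := by
  classical
  set r := Module.finrank ℂ (S.map (om w₀)) with hr
  let b := Module.finBasis ℂ (S.map (om w₀))
  have hb : ∀ i, ∃ δ ∈ S, om w₀ δ = (b i : U) := fun i => (b i).2
  choose δ hδ hbδ using hb
  have hli : LinearIndependent ℂ (fun i => (b i : U)) := by
    have h1 := b.linearIndependent.map' (S.map (om w₀)).subtype (Submodule.ker_subtype _)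
    exact h1
  obtain ⟨g, hg⟩ := LinearMap.exists_leftInverse_of_injective
    (Finsupp.linearCombination ℂ (fun i => (b i : U)))
    (by rw [LinearMap.ker_eq_bot]; exact hli)
  have hgb : ∀ i, g (b i : U) = Finsupp.single i 1 := by
    intro i
    have h1 := LinearMap.congr_fun hg (Finsupp.single i 1)
    rw [LinearMap.comp_apply, Finsupp.linearCombination_single, one_smul] at h1
    exact h1
  have hp : ∀ i j, Pol d (fun w => ((Finsupp.lapply j).comp g) (om w (δ i))) :=
    fun i j => hpol (δ i) (hδ i) _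
  choose F hF1 hF2 using hp
  have hev : ∀ w : σ → ℚ, eval (fun o => (w o : ℂ)) (Matrix.of F).det =
      (Matrix.of fun i j => g (om w (δ i)) j).det := by
    intro w
    rw [RingHom.map_det]
    congr 1
    ext i j
    rw [Matrix.of_apply, RingHom.mapMatrix_apply, Matrix.map_apply, Matrix.of_apply]
    exact hF2 i j w
  refine ⟨(Matrix.of F).det, ?_, det_deg _ hF1, ?_⟩
  · intro h0
    have h1 := hev w₀
    rw [h0, map_zero] at h1
    have h2 : (Matrix.of fun i j => g (om w₀ (δ i)) j) = (1 : Matrix _ _ ℂ) := by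
      ext i j
      rw [Matrix.of_apply, hbδ, hgb, Matrix.one_apply, Finsupp.single_apply]
    rw [h2, Matrix.det_one] at h1
    exact zero_ne_one h1
  · intro w hw
    rw [hev] at hw
    have h1 : LinearIndependent ℂ (fun i => om w (δ i)) := by
      refine LinearIndependent.of_comp g ?_
      refine LinearIndependent.of_comp (Finsupp.linearEquivFunOnFinite ℂ ℂ _).toLinearMap ?_
      exact Matrix.linearIndependent_rows_of_det_ne_zero hw
    have h2 : LinearIndependent ℂ
        (fun i => (⟨om w (δ i), Submodule.mem_map_of_mem (hδ i)⟩ : S.map (om w))) := by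
      refine LinearIndependent.of_comp (S.map (om w)).subtype ?_
      exact h1
    have h3 := h2.fintype_card_le_finrank
    rw [Fintype.card_fin] at h3
    exact h3

/-- An additive function of a polynomial in rational variables is a polynomial. -/
theorem addPol {σ : Type} (f : ℂ → ℂ) (hf : ∀ u v, f (u + v) = f u + f v) (A : MvPolynomial σ ℂ) :
    Pol A.totalDegree (fun w : σ → ℚ => f (eval (fun o => (w o : ℂ)) A)) := by
  classical
  have h0 : f 0 = 0 := by
    have e1 := hf 0 0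
    rw [add_zero] at e1
    have e2 : f 0 + 0 = f 0 + f 0 := by rw [add_zero]; exact e1
    exact (add_left_cancel e2).symm
  let F : ℂ →+ ℂ := { toFun := f, map_zero' := h0, map_add' := hf }
  refine ⟨∑ b ∈ A.support, monomial b (f (A.coeff b)), ?_, ?_⟩
  · refine (totalDegree_finset_sum _ _).trans (Finset.sup_le fun b hb => ?_)
    refine (totalDegree_monomial_le _ _).trans ?_
    exact le_totalDegree hb
  · intro w
    have h1 : ∀ b : σ →₀ ℕ, (∏ i ∈ b.support, ((w i : ℚ) : ℂ) ^ b i) =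
        ((∏ i ∈ b.support, w i ^ b i : ℚ) : ℂ) := by
      intro b
      push_cast
      rfl
    rw [map_sum]
    change _ = F (eval (fun o => (w o : ℂ)) A)
    rw [eval_eq, map_sum]
    refine Finset.sum_congr rfl fun b _ => ?_
    rw [eval_monomial, Finsupp.prod, h1, mul_comm (A.coeff b)]
    have h2 := map_rat_smul F (∏ i ∈ b.support, w i ^ b i) (A.coeff b)
    rw [Rat.smul_def, Rat.smul_def] at h2
    rw [h2, mul_comm]
    rfl

/-- the polynomial in the coordinates -/
noncomputable def sub {q D : ℕ} (e : Fin D → ℂ) (A : MvPolynomial (Fin q) ℂ) :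
    MvPolynomial (Fin q × Fin D) ℂ :=
  bind₁ (fun i => ∑ a, X (i, a) * C (e a)) A

theorem eval_subs {q D : ℕ} (e : Fin D → ℂ) (A : MvPolynomial (Fin q) ℂ)
    (w : Fin q × Fin D → ℚ) : eval (fun o => (w o : ℂ)) (sub e A) =
      eval (co e (fun i a => w (i, a))) A := by
  unfold sub
  rw [← MvPolynomial.coe_aeval_eq_eval, ← MvPolynomial.coe_aeval_eq_eval]
  change aeval _ (bind₁ _ A) = aeval _ A
  rw [aeval_bind₁]
  congr 1
  apply congrArg
  funext i
  unfold co
  rw [map_sum]
  refine Finset.sum_congr rfl fun a _ => ?_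
  rw [map_mul, aeval_X]
  simp

theorem single_sum {ι : Type} [Fintype ι] [DecidableEq ι] (x : ι → ℂ) :
    x = ∑ o, x o • (Pi.single o 1 : ι → ℂ) := by
  funext o
  rw [Finset.sum_apply]
  simp only [Pi.smul_apply, Pi.single_apply, smul_eq_mul, mul_ite, mul_one, mul_zero,
    Finset.sum_ite_eq, Finset.mem_univ, if_true]

/-- the functions of the points -/
noncomputable def frm (τ μ : ℂ) {s n : ℕ} (δ : Derivation ℚ ℂ ℂ) (o : Fin s ⊕ Fin n × Bool)
    (u : ℂ) : ℂ :=
  Sum.elim (fun _ => th δ u) (fun p : Fin n × Bool => if p.2 then etf τ μ δ u else lam τ μ δ u) o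

theorem frm_add (l1 : S_LamAddK) (l3 : S_EtaAddK) {τ μ : ℂ} {s n : ℕ}
    {K : IntermediateField ℚ ℂ} (hK : KF n τ μ K) {δ : Derivation ℚ ℂ ℂ} (hδ : δ ∈ DK K)
    (o : Fin s ⊕ Fin n × Bool) (u v : ℂ) :
    frm τ μ δ o (u + v) = frm τ μ δ o u + frm τ μ δ o v := by
  rcases o with j | ⟨j, b⟩
  · exact EB.I_RelPol.dlog_add δ u v
  · obtain ⟨g1, g2⟩ := hK.ell j.pos
    cases b with
    | true => exact l3 τ μ K g1 g2 δ hδ u v
    | false => exact l1 τ μ K g1 δ hδ u v

/-- the polynomials of the points -/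
noncomputable def pnt {q s n : ℕ} (R : Fin s → MvPolynomial (Fin q) ℂ)
    (S : Fin n → MvPolynomial (Fin q) ℂ) (o : Fin s ⊕ Fin n × Bool) : MvPolynomial (Fin q) ℂ :=
  Sum.elim R (fun p => S p.1) o

theorem omV_pnt (τ μ : ℂ) {q s n : ℕ} (R : Fin s → MvPolynomial (Fin q) ℂ)
    (S : Fin n → MvPolynomial (Fin q) ℂ) (β : Fin q → ℂ) (δ : Derivation ℚ ℂ ℂ)
    (o : Fin s ⊕ Fin n × Bool) :
    omV τ μ (pv R β) (pv S β) δ o = frm τ μ δ o (eval β (pnt R S o)) := by
  rcases o with j | ⟨j, b⟩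
  · rfl
  · cases b <;> rfl

end I_FormP

open I_FormP in
theorem FormP_pf (l1 : S_LamAddK) (l3 : S_EtaAddK) : S_FormP := by
  classical
  intro τ μ K s n q ρ D hK R S Z e
  -- the maximal rank
  let rk : (Fin q → ℂ) → ℕ := fun γ =>
    Module.finrank ℂ ((DK K).map (omZ τ μ (pv R γ) (pv S γ) (pv Z γ)))
  let Q : Set ℕ :=
    {k | ∃ γ : Fin q → ℂ, (∀ i, γ i ∈ Submodule.span ℚ (Set.range e)) ∧ rk γ = k}
  have hQ : Q.Nonempty := ⟨rk 0, 0, fun i => Submodule.zero_mem _, rfl⟩
  have hQb : BddAbove Q := by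
    refine ⟨Module.finrank ℂ ((Fin s ⊕ Fin n × Bool → ℂ) × (Fin ρ → ℂ)), ?_⟩
    rintro k ⟨γ, _, rfl⟩
    exact Submodule.finrank_le _
  obtain ⟨β, hβ, hβr⟩ := Nat.sSup_mem hQ hQb
  have hmax : ∀ γ : Fin q → ℂ, (∀ i, γ i ∈ Submodule.span ℚ (Set.range e)) → rk γ ≤ rk β := by
    intro γ hγ
    rw [hβr]
    exact le_csSup hQb ⟨γ, hγ, rfl⟩
  have hw : ∀ i, ∃ w : Fin D → ℚ, β i = ∑ l, (w l : ℂ) * e l := by
    intro i
    obtain ⟨w, hw⟩ := (Submodule.mem_span_range_iff_exists_fun ℚ).1 (hβ i)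
    refine ⟨w, ?_⟩
    rw [← hw]
    refine Finset.sum_congr rfl fun l _ => ?_
    rw [Rat.smul_def]
  choose w₀ hw₀ using hw
  have hβe : β = co e w₀ := funext hw₀
  -- the polynomials
  let d : ℕ := (∑ o, (sub e (pnt R S o)).totalDegree) + ∑ i, (sub e (Z i)).totalDegree
  obtain ⟨P, hP0, -, hP⟩ := rankPol (DK K)
    (fun w : Fin q × Fin D → ℚ => omZ τ μ (pv R (co e (fun i a => w (i, a))))
      (pv S (co e (fun i a => w (i, a)))) (pv Z (co e (fun i a => w (i, a))))) d (by
      intro δ hδ ψ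
      have h1 : ∀ x : (Fin s ⊕ Fin n × Bool → ℂ) × (Fin ρ → ℂ), ψ x =
          ∑ o, ψ (Pi.single o 1, 0) * x.1 o + ∑ i, ψ (0, Pi.single i 1) * x.2 i := by
        rintro ⟨x, y⟩
        have e1 : ((x, y) : (Fin s ⊕ Fin n × Bool → ℂ) × (Fin ρ → ℂ)) =
            ∑ o, x o • ((Pi.single o 1, 0) : (Fin s ⊕ Fin n × Bool → ℂ) × (Fin ρ → ℂ)) +
            ∑ i, y i • ((0, Pi.single i 1) : (Fin s ⊕ Fin n × Bool → ℂ) × (Fin ρ → ℂ)) := by
          refine Prod.ext ?_ ?_
          · rw [Prod.fst_add, Prod.fst_sum, Prod.fst_sum]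
            simp only [Prod.smul_fst, smul_zero, Finset.sum_const_zero, add_zero]
            exact single_sum x
          · rw [Prod.snd_add, Prod.snd_sum, Prod.snd_sum]
            simp only [Prod.smul_snd, smul_zero, Finset.sum_const_zero, zero_add]
            exact single_sum y
        rw [e1, map_add, map_sum, map_sum]
        simp only [map_smul, smul_eq_mul, ← e1]
        congr 1
        · refine Finset.sum_congr rfl fun o _ => mul_comm _ _
        · refine Finset.sum_congr rfl fun o _ => mul_comm _ _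
      have h2 : (fun w : Fin q × Fin D → ℚ => ψ (omZ τ μ (pv R (co e (fun i a => w (i, a))))
          (pv S (co e (fun i a => w (i, a)))) (pv Z (co e (fun i a => w (i, a)))) δ)) =
          fun w => (∑ o, ψ (Pi.single o 1, 0) * frm τ μ δ o
            (eval (fun o => (w o : ℂ)) (sub e (pnt R S o)))) +
            ∑ i, ψ (0, Pi.single i 1) * δ (eval (fun o => (w o : ℂ)) (sub e (Z i))) := by
        funext w
        rw [h1]
        congr 1
        · refine Finset.sum_congr rfl fun o _ => ?_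
          rw [eval_subs, ← omV_pnt]
          rfl
        · refine Finset.sum_congr rfl fun i _ => ?_
          rw [eval_subs]
          rfl
      rw [h2]
      refine Pol.add (Pol.sum _ _ fun o => ?_) (Pol.sum _ _ fun i => ?_)
      · refine (addPol (frm τ μ δ o) (frm_add l1 l3 hK hδ o) (sub e (pnt R S o))).mono ?_
        refine le_trans ?_ (Nat.le_add_right _ _)
        exact Finset.single_le_sum (f := fun o => (sub e (pnt R S o)).totalDegree)
          (fun _ _ => Nat.zero_le _) (Finset.mem_univ o)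
      · refine (addPol (fun x => δ x) (fun u v => map_add δ u v) (sub e (Z i))).mono ?_
        refine le_trans ?_ (Nat.le_add_left _ _)
        exact Finset.single_le_sum (f := fun o => (sub e (Z o)).totalDegree)
          (fun _ _ => Nat.zero_le _) (Finset.mem_univ i)) (fun o => w₀ o.1 o.2)
  refine ⟨P, hP0, fun w hw γ hγ => ?_⟩
  have h1 := hP (fun o => w o.1 o.2) hw
  have h2 := hmax γ hγ
  rw [hβe] at h2
  exact h2.trans h1

end Pool.Agent.Work.MP_8da9ea_nt.FR
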