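import Pool.Agent.Work.MP_8da9ea_nt.FR.Stmts

/-!
# FR6: functions with values in a subfield, independent over it, are independent over `ℂ`
-/

set_option autoImplicit false

namespace Pool.Agent.Work.MP_8da9ea_nt.FR

theorem Fun_pf : S_Fun := by
  intro k X n φ hφ hind κ hκ
  let b := Module.Basis.ofVectorSpace k ℂ
  have key : ∀ i, (fun j => ((b.repr (κ j) i : k) : ℂ)) = 0 := by
    intro i
    apply hind
    · intro j
      exact (b.repr (κ j) i).2
    · intro x
      have h1 : ∀ j, κ j * φ j x = (⟨φ j x, hφ j x⟩ : k) • κ j := by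
        intro j
        rw [Algebra.smul_def, mul_comm]
        rfl
      have h2 : b.repr (∑ j, κ j * φ j x) i = 0 := by
        rw [hκ x, map_zero, Finsupp.zero_apply]
      rw [map_sum, Finsupp.finsetSum_apply] at h2
      have h3 : ∀ j, b.repr (κ j * φ j x) i = (⟨φ j x, hφ j x⟩ : k) * b.repr (κ j) i := by
        intro j
        rw [h1 j, map_smul, Finsupp.smul_apply, smul_eq_mul]
      have h4 : ((∑ j, b.repr (κ j * φ j x) i : k) : ℂ) = 0 := by
        rw [h2]
        rfl
      rw [← h4]
      have h5 : ((∑ j, b.repr (κ j * φ j x) i : k) : ℂ)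
          = ∑ j, ((b.repr (κ j * φ j x) i : k) : ℂ) := map_sum (algebraMap k ℂ) _ _
      rw [h5]
      refine Finset.sum_congr rfl fun j _ => ?_
      rw [h3 j, mul_comm]
      rfl
  funext j
  apply b.repr.injective
  rw [Pi.zero_apply, map_zero]
  ext i
  exact congrFun (key i) j

end Pool.Agent.Work.MP_8da9ea_nt.FR
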