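import Pool.Agent.Work.MP_8da9ea_nt.FR.StmtsP

/-!
# Block FR, part P, item Indep: specialisation to points of a number field keeps independence
-/

set_option autoImplicit false

namespace Pool.Agent.Work.MP_8da9ea_nt.FR

open MvPolynomial

namespace I_Indep

/-- Schwartz-Zippel for any finite set of variables. -/
theorem sz {σ R : Type} [Fintype σ] [DecidableEq σ] [CommRing R] [IsDomain R] [DecidableEq R]
    (p : MvPolynomial σ R) (hp : p ≠ 0) (S : Finset R) :
    ((Fintype.piFinset fun _ : σ => S).filter fun f => eval f p = 0).card * S.card ≤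
      p.totalDegree * S.card ^ Fintype.card σ := by
  classical
  obtain ⟨e⟩ : Nonempty (σ ≃ Fin (Fintype.card σ)) := ⟨Fintype.equivFin σ⟩
  have hq : rename e p ≠ 0 := by
    intro h
    exact hp (rename_injective _ e.injective (by rw [h, map_zero]))
  have h1 := schwartz_zippel_totalDegree hq S
  have hd : (rename e p).totalDegree ≤ p.totalDegree := totalDegree_rename_le _ _
  have hcard : ((Fintype.piFinset fun _ : σ => S).filter fun f => eval f p = 0).card =
      ((Fintype.piFinset fun _ : Fin (Fintype.card σ) => S).filter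
        fun f => eval f (rename e p) = 0).card := by
    refine Finset.card_bij (fun f _ => f ∘ e.symm) ?_ ?_ ?_
    · intro f hf
      rw [Finset.mem_filter, Fintype.mem_piFinset] at hf ⊢
      refine ⟨fun i => hf.1 _, ?_⟩
      rw [eval_rename]
      have : (f ∘ e.symm) ∘ e = f := by
        funext i
        simp
      rw [this]
      exact hf.2
    · intro f _ g _ h
      funext i
      have := congrFun h (e i)
      simpa using this
    · intro g hg
      rw [Finset.mem_filter, Fintype.mem_piFinset] at hg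
      refine ⟨g ∘ e, ?_, ?_⟩
      · rw [Finset.mem_filter, Fintype.mem_piFinset]
        refine ⟨fun i => hg.1 _, ?_⟩
        rw [← eval_rename]
        exact hg.2
      · funext i
        simp
  rw [hcard]
  rcases S.eq_empty_or_nonempty with hS | hS
  · simp [hS]
  · have hs : (0 : ℚ≥0) < S.card := by exact_mod_cast hS.card_pos
    have hsn : (0 : ℚ≥0) < (S.card : ℚ≥0) ^ Fintype.card σ := pow_pos hs _
    rw [div_le_div_iff₀ hsn hs] at h1
    have h2 : (((Fintype.piFinset fun _ : Fin (Fintype.card σ) => S).filter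
        fun f => eval f (rename e p) = 0).card : ℚ≥0) * S.card ≤
        p.totalDegree * S.card ^ Fintype.card σ := by
      refine h1.trans ?_
      gcongr
    exact_mod_cast h2

/-- Size of the values of an integer polynomial. -/
theorem bd {σ : Type} (h : MvPolynomial σ ℤ) : ∃ C : ℕ, ∀ (B : ℕ) (w : σ → ℤ), 1 ≤ B →
    (∀ i, |w i| ≤ B) → |eval w h| ≤ (C : ℤ) * B ^ h.totalDegree := by
  refine ⟨∑ d ∈ h.support, (coeff d h).natAbs, fun B w hB hw => ?_⟩
  rw [eval_eq]
  refine (Finset.abs_sum_le_sum_abs _ _).trans ?_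
  rw [Nat.cast_sum, Finset.sum_mul]
  refine Finset.sum_le_sum fun d hd => ?_
  rw [abs_mul, Int.natCast_natAbs]
  refine mul_le_mul_of_nonneg_left ?_ (abs_nonneg _)
  rw [Finset.abs_prod]
  have h1 : ∏ i ∈ d.support, |w i ^ d i| ≤ ∏ i ∈ d.support, (B : ℤ) ^ d i := by
    refine Finset.prod_le_prod (fun _ _ => abs_nonneg _) fun i _ => ?_
    rw [abs_pow]
    exact pow_le_pow_left₀ (abs_nonneg _) (hw i) _
  refine h1.trans ?_
  rw [Finset.prod_pow_eq_pow_sum]
  exact pow_le_pow_right₀ (by exact_mod_cast hB) (le_totalDegree hd)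

/-- The point with the coordinates `w`. -/
noncomputable def bt {q D : ℕ} (e : Fin D → ℂ) (w : Fin q × Fin D → ℚ) : Fin q → ℂ :=
  fun i => ∑ a, (w (i, a) : ℂ) * e a

theorem totalDegree_aeval {σ τ : Type} (f : σ → MvPolynomial τ ℂ)
    (hf : ∀ i, (f i).totalDegree ≤ 1) (P : MvPolynomial σ ℂ) :
    (aeval f P : MvPolynomial τ ℂ).totalDegree ≤ P.totalDegree := by
  rw [aeval_def, eval₂_eq]
  refine (totalDegree_finsetSum _ _).trans (Finset.sup_le fun d hd => ?_)
  refine (totalDegree_mul _ _).trans ?_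
  have h1 : ((algebraMap ℂ (MvPolynomial τ ℂ)) (coeff d P)).totalDegree = 0 := by
    rw [algebraMap_eq, totalDegree_C]
  rw [h1, zero_add]
  refine (totalDegree_finsetProd _ _).trans ?_
  refine le_trans ?_ (le_totalDegree hd)
  refine Finset.sum_le_sum fun i _ => ?_
  refine (totalDegree_pow _ _).trans ?_
  calc d i * (f i).totalDegree ≤ d i * 1 := Nat.mul_le_mul_left _ (hf i)
    _ = d i := mul_one _

theorem evae {σ τ : Type} (f : σ → MvPolynomial τ ℂ) (x : τ → ℂ) (P : MvPolynomial σ ℂ) :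
    eval x (aeval f P : MvPolynomial τ ℂ) = eval (fun i => eval x (f i)) P := by
  induction P using MvPolynomial.induction_on with
  | C a => simp
  | add p r hp hr => simp only [map_add, hp, hr]
  | mul_X p i hp => simp only [map_mul, hp, aeval_X, eval_X]

theorem evc {σ : Type} (w : σ → ℤ) (P : MvPolynomial σ ℤ) :
    aeval (fun o => (w o : ℚ)) P = ((eval w P : ℤ) : ℚ) := by
  induction P using MvPolynomial.induction_on with
  | C a => simp
  | add p r hp hr => simp only [map_add, hp, hr, Int.cast_add]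
  | mul_X p i hp => simp only [map_mul, hp, aeval_X, eval_X, Int.cast_mul]

/-- A rational functional of the values of a complex polynomial at the points `bt e w` is a rational
polynomial in `w`. -/
theorem ev {q D : ℕ} (e : Fin D → ℂ) (P : MvPolynomial (Fin q) ℂ) (ψ : ℂ →ₗ[ℚ] ℚ) :
    ∃ h : MvPolynomial (Fin q × Fin D) ℚ, h.totalDegree ≤ P.totalDegree ∧
      ∀ w : Fin q × Fin D → ℚ, eval w h = ψ (eval (bt e w) P) := by
  classical
  obtain ⟨f, hf⟩ : ∃ f : Fin q → MvPolynomial (Fin q × Fin D) ℂ,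
    f = fun i => ∑ a, X (i, a) * C (e a) := ⟨_, rfl⟩
  obtain ⟨H, hH⟩ : ∃ H : MvPolynomial (Fin q × Fin D) ℂ, H = aeval f P := ⟨_, rfl⟩
  have hHd : H.totalDegree ≤ P.totalDegree := by
    rw [hH]
    refine totalDegree_aeval f (fun i => ?_) P
    rw [hf]
    refine (totalDegree_finsetSum _ _).trans (Finset.sup_le fun a _ => ?_)
    refine (totalDegree_mul _ _).trans ?_
    rw [totalDegree_X, totalDegree_C]
  have hev : ∀ w : Fin q × Fin D → ℚ, eval (fun o => (w o : ℂ)) H = eval (bt e w) P := by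
    intro w
    rw [hH, evae]
    congr 2
    funext i
    rw [hf]
    simp [bt, map_sum]
  refine ⟨∑ d ∈ H.support, monomial d (ψ (coeff d H)), ?_, fun w => ?_⟩
  · refine (totalDegree_finsetSum _ _).trans (Finset.sup_le fun d hd => ?_)
    refine (totalDegree_monomial_le _ _).trans ?_
    exact (le_totalDegree hd).trans hHd
  · rw [← hev w, map_sum, eval_eq (fun o => (w o : ℂ)) H, map_sum]
    refine Finset.sum_congr rfl fun d _ => ?_
    rw [eval_monomial]
    have h2 : coeff d H * ∏ i ∈ d.support, (w i : ℂ) ^ d i =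
        (∏ i ∈ d.support, w i ^ d i : ℚ) • coeff d H := by
      rw [Rat.smul_def, mul_comm]
      push_cast
      ring
    rw [h2, map_smul, smul_eq_mul, mul_comm]
    rfl

/-- Clearing denominators in a finite family. -/
theorem clear {σ κ : Type} [Fintype κ] (h : κ → MvPolynomial σ ℚ) :
    ∃ (m : ℤ) (z : κ → MvPolynomial σ ℤ), m ≠ 0 ∧
      (∀ i, (z i).totalDegree ≤ (h i).totalDegree) ∧
      ∀ i (w : σ → ℚ), aeval w (z i) = (m : ℚ) * eval w (h i) := by
  classical
  obtain ⟨b, hb⟩ := IsLocalization.exist_integer_multiples_of_finset (nonZeroDivisors ℤ)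
    (Finset.univ.biUnion fun i => (h i).support.image fun d => coeff d (h i))
  have hz : ∀ i, ∀ d, ∃ z : ℤ, d ∈ (h i).support → (z : ℚ) = ((b : ℤ) : ℚ) * coeff d (h i) := by
    intro i d
    by_cases hd : d ∈ (h i).support
    · obtain ⟨z, hz⟩ := hb (coeff d (h i)) (by
        rw [Finset.mem_biUnion]
        exact ⟨i, Finset.mem_univ _, Finset.mem_image_of_mem _ hd⟩)
      refine ⟨z, fun _ => ?_⟩
      have h2 : (algebraMap ℤ ℚ) z = (b : ℤ) • coeff d (h i) := hz
      rw [zsmul_eq_mul] at h2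
      simpa using h2
    · exact ⟨0, fun h => absurd h hd⟩
  choose z hz using hz
  refine ⟨(b : ℤ), fun i => ∑ d ∈ (h i).support, monomial d (z i d),
    nonZeroDivisors.ne_zero b.2, fun i => ?_, fun i w => ?_⟩
  · refine (totalDegree_finsetSum _ _).trans (Finset.sup_le fun d hd => ?_)
    exact (totalDegree_monomial_le _ _).trans (le_totalDegree hd)
  · rw [eval_eq w (h i), map_sum, Finset.mul_sum]
    refine Finset.sum_congr rfl fun d hd => ?_
    rw [aeval_monomial, ← mul_assoc, ← hz i d hd]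
    simp [Finsupp.prod]

/-- Functionals of the vectors `G j (bt e w)` as integer polynomials. -/
theorem fam {q D s t r : ℕ} (e : Fin D → ℂ) (G : Fin s → Fin t → MvPolynomial (Fin q) ℂ)
    (Δ : ℕ) (hG : ∀ j l, (G j l).totalDegree ≤ Δ) (φ : Fin r → Module.Dual ℚ (Fin t → ℂ)) :
    ∃ (m : ℤ) (h : Fin s → Fin r → MvPolynomial (Fin q × Fin D) ℤ), m ≠ 0 ∧
      (∀ j k, (h j k).totalDegree ≤ Δ) ∧
      ∀ j k (w : Fin q × Fin D → ℚ),
        aeval w (h j k) = (m : ℚ) * φ k (fun l => eval (bt e w) (G j l)) := by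
  classical
  have h1 : ∀ (p : Fin s × Fin r), ∃ g : MvPolynomial (Fin q × Fin D) ℚ, g.totalDegree ≤ Δ ∧
      ∀ w : Fin q × Fin D → ℚ, eval w g = φ p.2 (fun l => eval (bt e w) (G p.1 l)) := by
    intro p
    have h2 : ∀ l, ∃ g : MvPolynomial (Fin q × Fin D) ℚ, g.totalDegree ≤ (G p.1 l).totalDegree ∧
        ∀ w : Fin q × Fin D → ℚ, eval w g =
          ((φ p.2).comp (LinearMap.single ℚ (fun _ : Fin t => ℂ) l)) (eval (bt e w) (G p.1 l)) :=
      fun l => ev e (G p.1 l) _
    choose g hg1 hg2 using h2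
    refine ⟨∑ l, g l, ?_, fun w => ?_⟩
    · exact (totalDegree_finsetSum _ _).trans
        (Finset.sup_le fun l _ => (hg1 l).trans (hG _ _))
    · rw [map_sum]
      have h3 : (fun l => eval (bt e w) (G p.1 l)) =
          ∑ l, (LinearMap.single ℚ (fun _ : Fin t => ℂ) l) (eval (bt e w) (G p.1 l)) := by
        funext l
        rw [Finset.sum_apply]
        simp [Pi.single_apply]
      rw [h3, map_sum]
      exact Finset.sum_congr rfl fun l _ => hg2 l w
  choose g hg1 hg2 using h1
  obtain ⟨m, z, hm, hz1, hz2⟩ := clear g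
  refine ⟨m, fun j k => z (j, k), hm, fun j k => (hz1 _).trans (hg1 _), fun j k w => ?_⟩
  rw [hz2, hg2]

/-- The dual family of an independent family. -/
theorem dual {V : Type} [AddCommGroup V] [Module ℚ V] {s : ℕ} (v : Fin s → V)
    (hv : LinearIndependent ℚ v) : ∃ φ : Fin s → Module.Dual ℚ V,
      ∀ j k, φ k (v j) = if j = k then 1 else 0 := by
  classical
  have h1 : Function.Injective (Fintype.linearCombination ℚ v) :=
    hv.fintypeLinearCombination_injective
  obtain ⟨g, hg⟩ := LinearMap.exists_leftInverse_of_injective (Fintype.linearCombination ℚ v)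
    (LinearMap.ker_eq_bot.mpr h1)
  refine ⟨fun k => (LinearMap.proj k).comp g, fun j k => ?_⟩
  have h2 : v j = Fintype.linearCombination ℚ v (Pi.single j 1) := by
    rw [Fintype.linearCombination_apply_single, one_smul]
  have h3 : g (v j) = Pi.single j 1 := by
    rw [h2]
    exact LinearMap.congr_fun hg _
  show (g (v j)) k = _
  rw [h3, Pi.single_apply]
  by_cases h : k = j
  · simp [h]
  · simp [h, Ne.symm h]

/-- The cofactor combination of the rows of an integral matrix, if the rows satisfy a relation. -/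
theorem cofac {V : Type} [AddCommGroup V] [Module ℚ V] {s : ℕ} (u : Fin (s + 1) → V)
    (N : Matrix (Fin (s + 1)) (Fin s) ℤ) (m : ℤ) (φ : Fin s → Module.Dual ℚ V)
    (hN : ∀ j k, (N j k : ℚ) = (m : ℚ) * φ k (u j)) (c : Fin (s + 1) → ℚ) (hc : c ≠ 0)
    (hcu : ∑ j, c j • u j = 0) :
    ∑ j : Fin (s + 1),
      (((-1) ^ (j : ℕ) * (N.submatrix j.succAbove id).det : ℤ) : ℚ) • u j = 0 := by
  rw [← Module.forall_dual_apply_eq_zero_iff ℚ]
  intro ψ
  obtain ⟨M, hM⟩ : ∃ M : Matrix (Fin (s + 1)) (Fin (s + 1)) ℚ,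
    M = Matrix.of fun j k => Fin.cases (motive := fun _ => ℚ) (ψ (u j)) (fun i => (N j i : ℚ)) k :=
    ⟨_, rfl⟩
  have hdet : M.det = 0 := by
    rw [← Matrix.exists_vecMul_eq_zero_iff]
    refine ⟨c, hc, ?_⟩
    funext k
    refine Fin.cases ?_ (fun i => ?_) k
    · have h1 := congrArg ψ hcu
      rw [map_sum, map_zero] at h1
      simp only [map_smul, smul_eq_mul] at h1
      rw [hM]
      exact h1
    · have h1 := congrArg (φ i) hcu
      rw [map_sum, map_zero] at h1
      simp only [map_smul, smul_eq_mul] at h1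
      rw [hM]
      show ∑ j, c j * (N j i : ℚ) = 0
      simp only [hN]
      calc ∑ j, c j * ((m : ℚ) * φ i (u j)) = (m : ℚ) * ∑ j, c j * φ i (u j) := by
            rw [Finset.mul_sum]
            exact Finset.sum_congr rfl fun j _ => by ring
        _ = 0 := by rw [h1, mul_zero]
  rw [Matrix.det_succ_column_zero] at hdet
  rw [map_sum, ← hdet]
  refine Finset.sum_congr rfl fun j _ => ?_
  rw [map_smul, smul_eq_mul]
  have h2 : (M.submatrix j.succAbove Fin.succ) =
      (N.submatrix j.succAbove id).map (Int.castRingHom ℚ) := by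
    ext a b
    rw [hM]
    rfl
  have h3 : M j 0 = ψ (u j) := by
    rw [hM]
    rfl
  rw [h2, h3, ← RingHom.mapMatrix_apply, ← RingHom.map_det, Int.cast_mul, Int.cast_pow,
    Int.cast_neg, Int.cast_one, eq_intCast]
  ring

/-- The counting inequality. -/
theorem count {B d Δ T C E Z n Gd M : ℕ} (hB : 1 ≤ B) (hT : 0 < T) (h1 : Z * B ≤ d * T)
    (h2 : n * B ^ (E + 1) ≤ Δ * T) (h3 : Gd ≤ n * M) (h4 : M ≤ C * B ^ E) (h5 : T = Z + Gd) :
    B ≤ d + C * Δ := by
  have hBE : 0 < B ^ E := pow_pos hB _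
  have h6 : Gd * B * B ^ E ≤ C * Δ * T * B ^ E := by
    calc Gd * B * B ^ E ≤ n * M * B * B ^ E := by gcongr
      _ = M * (n * B ^ (E + 1)) := by ring
      _ ≤ (C * B ^ E) * (Δ * T) := Nat.mul_le_mul h4 h2
      _ = C * Δ * T * B ^ E := by ring
  have h7 : Gd * B ≤ C * Δ * T := Nat.le_of_mul_le_mul_right h6 hBE
  have h8 : B * T ≤ (d + C * Δ) * T := by
    calc B * T = Z * B + Gd * B := by rw [h5]; ring
      _ ≤ d * T + C * Δ * T := Nat.add_le_add h1 h7
      _ = (d + C * Δ) * T := by ring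
  exact Nat.le_of_mul_le_mul_right h8 hT

/-- Few points of the box lie on a hypersurface. -/
theorem fib {q D B : ℕ} (e : Fin D → ℂ) (he : LinearIndependent ℚ e) (P : MvPolynomial (Fin q) ℂ)
    (hP : P ≠ 0) (S : Finset ℤ) (hS : S.card = B) :
    ((Fintype.piFinset fun _ : Fin q × Fin D => S).filter
      fun w => eval (bt e fun o => (w o : ℚ)) P = 0).card * B ^ D ≤
      P.totalDegree * B ^ (D * q) := by
  classical
  have hinj : Function.Injective fun n : Fin D → ℤ => ∑ a, ((n a : ℚ) : ℂ) * e a := by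
    intro n n' h
    have h1 : ∑ a, ((n a : ℚ) - (n' a : ℚ)) • e a = 0 := by
      have h2 : ∑ a, ((n a : ℚ) : ℂ) * e a = ∑ a, ((n' a : ℚ) : ℂ) * e a := h
      simp only [Rat.smul_def, Rat.cast_sub, sub_mul, Finset.sum_sub_distrib]
      rw [h2, sub_self]
    have h3 := Fintype.linearIndependent_iff.mp he _ h1
    funext a
    have h4 := h3 a
    have h5 : (n a : ℚ) = (n' a : ℚ) := by linarith
    exact_mod_cast h5
  obtain ⟨A, hA⟩ : ∃ A : Finset ℂ, A = (Fintype.piFinset fun _ : Fin D => S).image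
    fun n : Fin D → ℤ => ∑ a, ((n a : ℚ) : ℂ) * e a := ⟨_, rfl⟩
  have hAc : A.card = B ^ D := by
    rw [hA, Finset.card_image_of_injective _ hinj, Fintype.card_piFinset_const, hS]
  have h1 := sz P hP A
  rw [hAc, Fintype.card_fin, ← pow_mul] at h1
  refine le_trans (Nat.mul_le_mul_right _ ?_) h1
  refine Finset.card_le_card_of_injOn (fun w => bt e fun o => (w o : ℚ)) ?_ ?_
  · intro w hw
    rw [Finset.mem_coe, Finset.mem_filter, Fintype.mem_piFinset] at hw
    rw [Finset.mem_coe, Finset.mem_filter, Fintype.mem_piFinset]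
    refine ⟨fun i => ?_, hw.2⟩
    rw [hA, Finset.mem_image]
    exact ⟨fun a => w (i, a), by
      rw [Fintype.mem_piFinset]
      exact fun a => hw.1 _, rfl⟩
  · intro w _ w' _ h
    funext o
    have h2 := congrFun h o.1
    have h3 := hinj (a₁ := fun a => w (o.1, a)) (a₂ := fun a => w' (o.1, a)) h2
    exact congrFun h3 o.2

end I_Indep

open I_Indep in
theorem Indep_pf : S_Indep := by
  classical
  intro s Δ
  induction s with
  | zero =>
    refine ⟨0, fun D _ e _ q t G _ _ => ⟨fun _ _ => 0, fun c _ => ?_⟩⟩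
    exact Subsingleton.elim _ _
  | succ s ih =>
    obtain ⟨n₀, ih⟩ := ih
    refine ⟨max n₀ (Δ * s * (s + 1) + 1), fun D hD e hei q t G hG hind => ?_⟩
    by_contra hno'
    push Not at hno'
    have hno : ∀ w : Fin q × Fin D → ℚ, ∃ c : Fin (s + 1) → ℚ,
        (∀ l, ∑ j, (c j : ℂ) * eval (bt e w) (G j l) = 0) ∧ c ≠ 0 :=
      fun w => hno' fun i a => w (i, a)
    -- the first vectors
    obtain ⟨w₀', hβ₀i'⟩ := ih D ((le_max_left _ _).trans hD) e hei q t (fun j => G j.castSucc)
      (fun j l => hG _ l) (by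
        intro c hc
        have h1 := hind (Fin.snoc c 0) (fun l => by
          rw [Fin.sum_univ_castSucc]
          simp only [Fin.snoc_castSucc, Fin.snoc_last, Rat.cast_zero, map_zero, zero_mul, add_zero]
          exact hc l)
        funext j
        have h2 := congrFun h1 j.castSucc
        simpa using h2)
    obtain ⟨β₀, hβ₀⟩ : ∃ β₀ : Fin q → ℂ, β₀ = co e w₀' := ⟨_, rfl⟩
    have hβ₀i : ∀ c : Fin s → ℚ, (∀ l, ∑ j, (c j : ℂ) * eval β₀ (G j.castSucc l) = 0) → c = 0 := by
      rw [hβ₀]
      exact hβ₀i'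
    obtain ⟨w₀, hw₀⟩ : ∃ w₀ : Fin q × Fin D → ℚ, w₀ = fun o => w₀' o.1 o.2 := ⟨_, rfl⟩
    have hbw₀ : bt e w₀ = β₀ := by
      rw [hw₀, hβ₀]
      rfl
    -- functionals
    obtain ⟨φ, hφ⟩ := dual (fun (j : Fin s) (l : Fin t) => eval β₀ (G j.castSucc l)) (by
      rw [Fintype.linearIndependent_iff]
      intro c hc
      have h1 := hβ₀i c (fun l => by
        have h2 := congrFun hc l
        rw [Finset.sum_apply] at h2
        simpa [Rat.smul_def] using h2)
      exact fun i => congrFun h1 i)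
    obtain ⟨m, h, hm, hdeg, hval⟩ := fam e G Δ hG φ
    obtain ⟨μ, hμ⟩ : ∃ μ : MvPolynomial (Fin q × Fin D) ℤ,
      μ = (Matrix.of fun (j k : Fin s) => h j.castSucc k).det := ⟨_, rfl⟩
    obtain ⟨cc, hcc⟩ : ∃ cc : (Fin q × Fin D → ℤ) → Fin (s + 1) → ℤ,
      cc = fun (w : Fin q × Fin D → ℤ) (j : Fin (s + 1)) => (-1) ^ (j : ℕ) *
        ((Matrix.of fun (j : Fin (s + 1)) (k : Fin s) => eval w (h j k)).submatrix
          j.succAbove id).det := ⟨_, rfl⟩
    have hlast : ∀ w, cc w (Fin.last s) = (-1) ^ s * eval w μ := by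
      intro w
      rw [hcc, hμ]
      show (-1) ^ ((Fin.last s : Fin (s + 1)) : ℕ) * _ = _
      rw [Fin.val_last, RingHom.map_det]
      congr 2
      ext a b
      simp
    have hμ0 : μ ≠ 0 := by
      intro h0
      have h1 : aeval w₀ μ = (m : ℚ) ^ s := by
        rw [hμ, AlgHom.map_det]
        have h2 : ((aeval w₀ : MvPolynomial (Fin q × Fin D) ℤ →ₐ[ℤ] ℚ).mapMatrix
            (Matrix.of fun (j k : Fin s) => h j.castSucc k)) =
            Matrix.diagonal fun _ : Fin s => (m : ℚ) := by
          ext j k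
          rw [AlgHom.mapMatrix_apply, Matrix.map_apply, Matrix.of_apply, hval, hbw₀, hφ,
            Matrix.diagonal_apply]
          by_cases hjk : j = k
          · simp [hjk]
          · simp [hjk]
        rw [h2, Matrix.det_diagonal]
        simp
      rw [h0, map_zero] at h1
      exact pow_ne_zero s (Int.cast_ne_zero.mpr hm) h1.symm
    have hkey : ∀ (w : Fin q × Fin D → ℤ) l,
        ∑ j, (((cc w j : ℤ) : ℚ) : ℂ) * eval (bt e fun o => (w o : ℚ)) (G j l) = 0 := by
      intro w l
      obtain ⟨c, hc1, hc2⟩ := hno fun o => (w o : ℚ)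
      have h1 := cofac (fun (j : Fin (s + 1)) (l : Fin t) =>
        eval (bt e fun o => (w o : ℚ)) (G j l)) (Matrix.of fun j k => eval w (h j k)) m φ
        (by
          intro j k
          rw [Matrix.of_apply, ← hval, evc]) c hc2 (by
          funext l
          rw [Finset.sum_apply]
          have h2 := hc1 l
          simpa [Rat.smul_def] using h2)
      have h2 := congrFun h1 l
      rw [Finset.sum_apply] at h2
      rw [hcc]
      simpa [Rat.smul_def] using h2
    -- sizes
    have hC : ∃ c1 : ℕ, ∀ (B : ℕ) (w : Fin q × Fin D → ℤ), 1 ≤ B → (∀ i, |w i| ≤ B) →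
        ∀ j k, |eval w (h j k)| ≤ ((c1 * B ^ Δ : ℕ) : ℤ) := by
      choose C hC using fun p : Fin (s + 1) × Fin s => bd (h p.1 p.2)
      refine ⟨∑ p, C p, fun B w hB hw j k => ?_⟩
      refine (hC (j, k) B w hB hw).trans ?_
      have h1 : C (j, k) ≤ ∑ p, C p := Finset.single_le_sum (f := C) (fun _ _ => Nat.zero_le _)
        (Finset.mem_univ _)
      have h2 : B ^ (h j k).totalDegree ≤ B ^ Δ := pow_le_pow_right₀ hB (hdeg j k)
      exact_mod_cast Nat.mul_le_mul h1 h2
    obtain ⟨c1, hC⟩ := hC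
    obtain ⟨C2, hC2⟩ : ∃ C2 : ℕ, C2 = (2 * (s.factorial * c1 ^ s) + 1) ^ (s + 1) := ⟨_, rfl⟩
    obtain ⟨B, hBd⟩ : ∃ B : ℕ, B = μ.totalDegree + C2 * Δ + 1 := ⟨_, rfl⟩
    have hB1 : 1 ≤ B := by omega
    obtain ⟨E, hE⟩ : ∃ E, D = E + 1 := ⟨D - 1, by
      have := (le_max_right n₀ (Δ * s * (s + 1) + 1)).trans hD
      omega⟩
    have hEb : Δ * s * (s + 1) ≤ E := by
      have := (le_max_right n₀ (Δ * s * (s + 1) + 1)).trans hD
      omega
    obtain ⟨X, hX⟩ : ∃ X : ℕ, X = s.factorial * (c1 * B ^ Δ) ^ s := ⟨_, rfl⟩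
    obtain ⟨S, hS⟩ : ∃ S : Finset ℤ, S = Finset.Ico (0 : ℤ) B := ⟨_, rfl⟩
    have hSc : S.card = B := by rw [hS]; simp
    have hSb : ∀ w ∈ (Fintype.piFinset fun _ : Fin q × Fin D => S), ∀ i, |w i| ≤ B := by
      intro w hw i
      have h1 := (Fintype.mem_piFinset.mp hw) i
      rw [hS, Finset.mem_Ico] at h1
      rw [abs_of_nonneg h1.1]
      exact h1.2.le
    have hbox : ∀ w ∈ (Fintype.piFinset fun _ : Fin q × Fin D => S), ∀ j, |cc w j| ≤ X := by
      intro w hw j
      rw [hcc]
      show |(-1) ^ (j : ℕ) * _| ≤ _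
      rw [abs_mul, abs_pow, abs_neg, abs_one, one_pow, one_mul]
      have h1 := Matrix.det_le (abv := AbsoluteValue.abs) (x := ((c1 * B ^ Δ : ℕ) : ℤ))
        (A := ((Matrix.of fun j k => eval w (h j k)).submatrix j.succAbove id))
        (fun a b => hC B w hB1 (hSb w hw) _ _)
      rw [hX]
      rw [Fintype.card_fin, nsmul_eq_mul] at h1
      push_cast at h1 ⊢
      exact h1
    -- counting
    obtain ⟨box, hboxd⟩ : ∃ box, box = (Fintype.piFinset fun _ : Fin q × Fin D => S) := ⟨_, rfl⟩
    have hboxc : box.card = B ^ (q * D) := by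
      rw [hboxd, Fintype.card_piFinset, Finset.prod_const, hSc, Finset.card_univ,
        Fintype.card_prod, Fintype.card_fin, Fintype.card_fin]
    have hZ := sz μ hμ0 S
    rw [hSc, Fintype.card_prod, Fintype.card_fin, Fintype.card_fin, ← hboxd] at hZ
    have hfib : ∀ b ∈ Fintype.piFinset (fun _ : Fin (s + 1) => Finset.Icc (-(X : ℤ)) X),
        ((box.filter fun w => ¬ eval w μ = 0).filter fun w => cc w = b).card ≤
          Δ * B ^ (q * D) / B ^ D := by
      intro b _
      rw [Nat.le_div_iff_mul_le (pow_pos hB1 _)]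
      by_cases hb : b = 0
      · have h1 : ((box.filter fun w => ¬ eval w μ = 0).filter fun w => cc w = b) = ∅ := by
          rw [Finset.filter_eq_empty_iff]
          intro w hw hwb
          rw [Finset.mem_filter] at hw
          apply hw.2
          have h2 := hlast w
          rw [hwb, hb] at h2
          have h3 : (-1 : ℤ) ^ s * eval w μ = 0 := h2.symm
          rcases mul_eq_zero.mp h3 with h4 | h4
          · exact absurd h4 (pow_ne_zero _ (by norm_num))
          · exact h4
        rw [h1, Finset.card_empty, zero_mul]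
        exact Nat.zero_le _
      · have hex : ∃ l, ∑ j, C (((b j : ℤ) : ℚ) : ℂ) * G j l ≠ 0 := by
          by_contra hcon
          push Not at hcon
          have h1 := hind (fun j => ((b j : ℤ) : ℚ)) hcon
          apply hb
          funext j
          have h2 : ((b j : ℤ) : ℚ) = 0 := congrFun h1 j
          exact_mod_cast h2
        obtain ⟨l, hl⟩ := hex
        have h1 := fib e hei _ hl S hSc
        have h2 : (∑ j, C (((b j : ℤ) : ℚ) : ℂ) * G j l).totalDegree ≤ Δ := by
          refine (totalDegree_finsetSum _ _).trans (Finset.sup_le fun j _ => ?_)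
          refine (totalDegree_mul _ _).trans ?_
          rw [totalDegree_C, zero_add]
          exact hG j l
        refine le_trans (Nat.mul_le_mul_right _ ?_) (h1.trans ?_)
        · refine Finset.card_le_card ?_
          intro w hw
          rw [Finset.mem_filter, Finset.mem_filter] at hw
          rw [Finset.mem_filter, ← hboxd]
          refine ⟨hw.1.1, ?_⟩
          rw [map_sum]
          have h3 := hkey w l
          rw [hw.2] at h3
          rw [← h3]
          refine Finset.sum_congr rfl fun j _ => ?_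
          rw [map_mul, eval_C]
        · rw [mul_comm D q]
          exact Nat.mul_le_mul_right _ h2
    have hcard := Finset.card_le_mul_card_image_of_maps_to (f := cc)
      (s := box.filter fun w => ¬ eval w μ = 0)
      (t := Fintype.piFinset (fun _ : Fin (s + 1) => Finset.Icc (-(X : ℤ)) X)) (by
        intro w hw
        rw [Finset.mem_filter, hboxd] at hw
        rw [Fintype.mem_piFinset]
        intro j
        rw [Finset.mem_Icc]
        exact abs_le.mp (hbox w hw.1 j)) _ hfib
    have hM : (Fintype.piFinset (fun _ : Fin (s + 1) => Finset.Icc (-(X : ℤ)) X)).card ≤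
        C2 * B ^ E := by
      rw [Fintype.card_piFinset_const, Int.card_Icc]
      have h1 : ((X : ℤ) + 1 - -(X : ℤ)).toNat = 2 * X + 1 := by omega
      rw [h1]
      have h2 : 2 * X + 1 ≤ (2 * (s.factorial * c1 ^ s) + 1) * B ^ (Δ * s) := by
        rw [hX, mul_pow, ← pow_mul]
        have h3 : 1 ≤ B ^ (Δ * s) := Nat.one_le_pow _ _ hB1
        calc 2 * (s.factorial * (c1 ^ s * B ^ (Δ * s))) + 1
            ≤ 2 * (s.factorial * (c1 ^ s * B ^ (Δ * s))) + B ^ (Δ * s) := by omega
          _ = (2 * (s.factorial * c1 ^ s) + 1) * B ^ (Δ * s) := by ring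
      calc (2 * X + 1) ^ (s + 1) ≤ ((2 * (s.factorial * c1 ^ s) + 1) * B ^ (Δ * s)) ^ (s + 1) :=
            Nat.pow_le_pow_left h2 _
        _ = C2 * B ^ (Δ * s * (s + 1)) := by rw [mul_pow, ← pow_mul, hC2]
        _ ≤ C2 * B ^ E := Nat.mul_le_mul_left _ (pow_le_pow_right₀ hB1 hEb)
    have hsplit : B ^ (q * D) = (box.filter fun w => eval w μ = 0).card +
        (box.filter fun w => ¬ eval w μ = 0).card := by
      rw [← hboxc, Finset.card_filter_add_card_filter_not]
    have hfin := count hB1 (pow_pos hB1 (q * D)) hZ (by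
      rw [← hE]
      exact Nat.div_mul_le_self _ _) hcard hM hsplit
    omega

end Pool.Agent.Work.MP_8da9ea_nt.FR
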