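import Pool.Agent.Work.MP_8da9ea_nt.FR.Stmts
import Pool.Agent.Work.MP_8da9ea_nt.EB.I_Kf

/-!
# [Key] relations at all points of a space
-/

set_option autoImplicit false

namespace Pool.Agent.Work.MP_8da9ea_nt.FR

open MvPolynomial Pool.Agent.Work.MP_327059_nt.GL Pool.Agent.Work.MP_8da9ea_nt.S
  Pool.Agent.Work.MP_8da9ea_nt.EB

namespace I_Key

/-- The `ℚ`-space of the logarithms of elements of `E`. -/
noncomputable def SE {E : IntermediateField ℚ ℂ} (hE : ACl E) : Submodule ℚ ℂ where
  carrier := {x | Complex.exp x ∈ E}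
  add_mem' {a b} ha hb := by
    show Complex.exp (a + b) ∈ E
    rw [Complex.exp_add]
    exact mul_mem ha hb
  zero_mem' := by
    show Complex.exp 0 ∈ E
    rw [Complex.exp_zero]
    exact one_mem _
  smul_mem' q x hx := by
    show Complex.exp (q • x) ∈ E
    apply hE
    have hd : q.den ≠ 0 := q.den_nz
    have h1 : Complex.exp (q • x) ^ q.den = Complex.exp x ^ q.num := by
      rw [← Complex.exp_nat_mul, ← Complex.exp_int_mul, Rat.smul_def]
      congr 1
      have h2 : (q : ℂ) * (q.den : ℂ) = (q.num : ℂ) := by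
        have := Rat.mul_den_eq_num q
        exact_mod_cast this
      linear_combination x * h2
    have h3 : Complex.exp x ^ q.num ∈ E := zpow_mem hx _
    have h4 : IsAlgebraic E (Complex.exp (q • x) ^ q.den) := by
      rw [h1]
      exact isAlgebraic_algebraMap (⟨_, h3⟩ : E)
    exact IsAlgebraic.of_pow (Nat.pos_of_ne_zero hd) h4

theorem lam_zero (τ μ : ℂ) (δ : Derivation ℚ ℂ ℂ) : lam τ μ δ 0 = 0 := by
  have h0 : (0 : ℂ) ∈ Lam τ := by
    rw [mem_Lam]
    exact ⟨0, 0, by simp⟩
  unfold lam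
  rw [if_pos h0]

/-- The space of the points defined over `E`. -/
noncomputable def SL (l1 : S_LamAddK) (l2 : S_LamMulK) {τ μ : ℂ} {E : IntermediateField ℚ ℂ}
    (hG : GF τ μ E) : Submodule (kf τ) ℂ where
  carrier := {x | ∀ δ ∈ DK E, lam τ μ δ x = 0}
  add_mem' {a b} ha hb δ hδ := by
    rw [l1 τ μ E hG δ hδ, ha δ hδ, hb δ hδ, add_zero]
  zero_mem' δ _ := lam_zero τ μ δ
  smul_mem' g x hx δ hδ := by
    have hg : IsE τ (g : ℂ) := ((Kf_pf τ hG.im).2.1 g).mp g.2
    show lam τ μ δ ((g : ℂ) * x) = 0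
    rw [l2 τ μ E hG δ hδ g x hg, hx δ hδ, mul_zero]

/-- The point with one coordinate. -/
theorem lc_single {q : ℕ} (b : Fin q → ℂ) (i : Fin q) (x : ℂ) :
    lc b (Pi.single i x) = b i * x := by
  unfold lc
  rw [Finset.sum_eq_single i]
  · rw [Pi.single_eq_same]
  · intro j _ hj
    rw [Pi.single_eq_of_ne hj, mul_zero]
  · intro h
    exact absurd (Finset.mem_univ i) h

theorem single_mem {q : ℕ} (V : Submodule ℚ ℂ) (i : Fin q) {x : ℂ} (hx : x ∈ V) (l : Fin q) :
    (Pi.single i x : Fin q → ℂ) l ∈ V := by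
  by_cases h : l = i
  · subst h
    rw [Pi.single_eq_same]
    exact hx
  · rw [Pi.single_eq_of_ne h]
    exact V.zero_mem

end I_Key

open I_Key in
/-- **[FR11]** -/
theorem Key_pf (h1 : S_AxF) (h2 : S_Fun) (l1 : S_LamAddK) (l2 : S_LamMulK) (l4 : S_LamZeroK) :
    S_Key := by
  classical
  intro τ μ ω hω L V s n q B B' hS E hKF κ hκ hrel
  have hE : ACl E := hKF.acl
  -- the functional form at the points with one coordinate
  have hpt : ∀ (y : ℂ), y ∈ V → ∀ (i : Fin q) (β : L),
      (∀ g : ℂ →ₗ[ℚ] ℚ, (∀ x, Complex.exp x ∈ E → g x = 0) →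
        ∑ j, κ (Sum.inl j) * (g (ω * (B j i * ((β : ℂ) * y))) : ℂ) = 0) ∧
      (∀ g : ℂ →ₗ[kf τ] kf τ, (∀ x, (x ∈ Lam τ ∨ xe τ μ x ∈ E) → g x = 0) →
        ∑ j, κ (Sum.inr (j, true)) * (starRingEnd ℂ) (g (B' j i * ((β : ℂ) * y)) : ℂ) = 0 ∧
        ((∀ j, κ (Sum.inr (j, true)) = 0) →
          ∑ j, κ (Sum.inr (j, false)) * (g (B' j i * ((β : ℂ) * y)) : ℂ) = 0)) := by
    intro y hy i β
    obtain ⟨T, hT⟩ := hrel (Pi.single i ((β : ℂ) * y)) (fun l =>
      single_mem V i (hS.stab β β.2 y hy) l)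
    have h3 := h1 τ μ E s n hKF (fun j => ω * lc (B j) (Pi.single i ((β : ℂ) * y)))
      (fun j => lc (B' j) (Pi.single i ((β : ℂ) * y))) κ hκ T hT
    simpa only [lc_single] using h3
  refine ⟨?_, ?_⟩
  · rintro ⟨y, hy, hye⟩
    obtain ⟨g, hg, hgS⟩ := Submodule.exists_le_ker_of_notMem (p := SE hE) (v := ω * y) hye
    have h3 : ∀ p : Fin q × L, ∑ j, κ (Sum.inl j) *
        (fun (j : Fin s) (p : Fin q × L) => (g (ω * (B j p.1 * ((p.2 : ℂ) * y))) : ℂ)) j p = 0 :=
      fun p => (hpt y hy p.1 p.2).1 g (fun x hx => hgS hx)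
    have h4 := h2 ⊥ (Fin q × L) s
      (fun (j : Fin s) (p : Fin q × L) => (g (ω * (B j p.1 * ((p.2 : ℂ) * y))) : ℂ))
      (fun j p => SubfieldClass.ratCast_mem _ _) (by
        intro c hc hz
        have hc' : ∀ j, ∃ r : ℚ, (r : ℂ) = c j := by
          intro j
          obtain ⟨r, hr⟩ := IntermediateField.mem_bot.mp (hc j)
          exact ⟨r, by rw [← hr]; simp⟩
        choose r hr using hc'
        have h5 : ∀ i, ∑ j, (r j : ℂ) * B j i = 0 := by
          intro i
          by_contra hne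
          set a := ∑ j, (r j : ℂ) * B j i with ha
          have haL : a⁻¹ ∈ L := L.inv_mem (sum_mem fun j _ =>
            mul_mem (SubfieldClass.ratCast_mem L _) (hS.mB j i))
          have h6 := hz (i, ⟨a⁻¹, haL⟩)
          have h7 : (g (ω * y) : ℂ) = 0 := by
            have h8 : ω * y = ∑ j, r j • (ω * (B j i * (a⁻¹ * y))) := by
              have h9 : ∑ j, r j • (ω * (B j i * (a⁻¹ * y))) =
                  (∑ j, (r j : ℂ) * B j i) * (ω * (a⁻¹ * y)) := by
                rw [Finset.sum_mul]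
                refine Finset.sum_congr rfl fun j _ => ?_
                rw [Rat.smul_def]
                ring
              rw [h9, ← ha]
              field_simp
            rw [h8, map_sum]
            push_cast
            rw [← h6]
            refine Finset.sum_congr rfl fun j _ => ?_
            rw [map_smul, smul_eq_mul, ← hr j]
            push_cast
            rfl
          exact hg (by exact_mod_cast h7)
        have h10 : ∑ j, r j • B j = 0 := by
          funext i
          rw [Finset.sum_apply, Pi.zero_apply, ← h5 i]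
          refine Finset.sum_congr rfl fun j _ => ?_
          rw [Pi.smul_apply, Rat.smul_def]
        have h11 := Fintype.linearIndependent_iff.mp hS.liB r h10
        funext j
        rw [← hr j, h11 j]
        simp) (fun j => κ (Sum.inl j)) h3
    intro j
    exact congrFun h4 j
  · intro hy
    by_cases hn : 0 < n
    swap
    · rintro ⟨j, b⟩
      exact absurd (Fin.pos j) hn
    obtain ⟨y, hyV, hyL, hyE⟩ := hy hn
    have hG : GF τ μ E := (hKF.ell hn).1
    have hKf := Kf_pf τ hG.im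
    have hyn : y ∉ SL l1 l2 hG := by
      intro hm
      rcases (l4 τ μ E hG hE y).mp hm with h | h
      · exact hyL h
      · exact hyE h
    obtain ⟨g, hg, hgS⟩ := Submodule.exists_le_ker_of_notMem hyn
    have hgz : ∀ x, (x ∈ Lam τ ∨ xe τ μ x ∈ E) → g x = 0 := by
      intro x hx
      have h3 : x ∈ SL l1 l2 hG := (l4 τ μ E hG hE x).mpr hx
      exact hgS h3
    -- independence of the functions
    have hind : ∀ c : Fin n → ℂ, (∀ j, c j ∈ kf τ) →
        (∀ p : Fin q × L, ∑ j, c j *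
          (fun (j : Fin n) (p : Fin q × L) => (g (B' j p.1 * ((p.2 : ℂ) * y)) : ℂ)) j p = 0) →
        c = 0 := by
      intro c hc hz
      apply hS.liB' c (fun j => (hKf.2.1 _).mp (hc j))
      intro i
      by_contra hne
      set a := ∑ j, c j * B' j i with ha
      have haL : a⁻¹ ∈ L := L.inv_mem (sum_mem fun j _ =>
        mul_mem (hS.kL hn _ ((hKf.2.1 _).mp (hc j))) (hS.mB' j i))
      have h6 := hz (i, ⟨a⁻¹, haL⟩)
      have h7 : (g y : ℂ) = 0 := by
        have h8 : y = ∑ j, (⟨c j, hc j⟩ : kf τ) • (B' j i * (a⁻¹ * y)) := by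
          have h9 : ∑ j, (⟨c j, hc j⟩ : kf τ) • (B' j i * (a⁻¹ * y)) =
              (∑ j, c j * B' j i) * (a⁻¹ * y) := by
            rw [Finset.sum_mul]
            refine Finset.sum_congr rfl fun j _ => ?_
            show c j * (B' j i * (a⁻¹ * y)) = _
            ring
          rw [h9, ← ha]
          field_simp
        rw [h8, map_sum]
        have h10 : ((∑ j, g ((⟨c j, hc j⟩ : kf τ) • (B' j i * (a⁻¹ * y))) : kf τ) : ℂ) =
            ∑ j, ((g ((⟨c j, hc j⟩ : kf τ) • (B' j i * (a⁻¹ * y))) : kf τ) : ℂ) :=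
          map_sum (algebraMap (kf τ) ℂ) _ _
        rw [h10, ← h6]
        refine Finset.sum_congr rfl fun j _ => ?_
        rw [map_smul, smul_eq_mul]
        rfl
      apply hg
      exact Subtype.ext h7
    have hE3 : ∀ p : Fin q × L, ∑ j, κ (Sum.inr (j, true)) *
        (starRingEnd ℂ) (g (B' j p.1 * ((p.2 : ℂ) * y)) : ℂ) = 0 :=
      fun p => ((hpt y hyV p.1 p.2).2 g hgz).1
    have hφ : ∀ (j : Fin n) (p : Fin q × L),
        (fun (j : Fin n) (p : Fin q × L) => (g (B' j p.1 * ((p.2 : ℂ) * y)) : ℂ)) j p ∈ kf τ :=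
      fun j p => (g (B' j p.1 * ((p.2 : ℂ) * y))).2
    have h12 := h2 (kf τ) (Fin q × L) n
      (fun (j : Fin n) (p : Fin q × L) => (g (B' j p.1 * ((p.2 : ℂ) * y)) : ℂ)) hφ hind
      (fun j => (starRingEnd ℂ) (κ (Sum.inr (j, true)))) (by
        intro p
        have h13 := congrArg (starRingEnd ℂ) (hE3 p)
        rw [map_sum, map_zero] at h13
        rw [← h13]
        refine Finset.sum_congr rfl fun j _ => ?_
        rw [map_mul (starRingEnd ℂ), Complex.conj_conj])
    have h14 : ∀ j, κ (Sum.inr (j, true)) = 0 := by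
      intro j
      have h15 := congrFun h12 j
      simpa using h15
    have h16 := h2 (kf τ) (Fin q × L) n
      (fun (j : Fin n) (p : Fin q × L) => (g (B' j p.1 * ((p.2 : ℂ) * y)) : ℂ)) hφ hind
      (fun j => κ (Sum.inr (j, false)))
      (fun p => ((hpt y hyV p.1 p.2).2 g hgz).2 h14)
    rintro ⟨j, b⟩
    cases b
    · exact congrFun h16 j
    · exact h14 j

end Pool.Agent.Work.MP_8da9ea_nt.FR
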