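import Pool.Agent.Work.MP_8da9ea_nt.FR.Stmts
import Pool.Agent.Work.MP_8da9ea_nt.Der

/-!
# Block FR, item L4: the vanishing of the form of the first kind over a field of constants
-/

set_option autoImplicit false

namespace Pool.Agent.Work.MP_8da9ea_nt.FR

open MvPolynomial Pool.Agent.Work.MP_327059_nt.GL Pool.Agent.Work.MP_8da9ea_nt.S
  Pool.Agent.Work.MP_8da9ea_nt.EB Pool.Agent.Work.MP_8da9ea_nt.EC

namespace I_LamZeroK

/-- The curve equation for the normalised functions. -/
lemma ye_sq {τ μ u : ℂ} (him : 0 < τ.im) (hu : u ∉ Lam τ) :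
    ye τ μ u ^ 2 = 4 * xe τ μ u ^ 3 - (μ ^ 4 * gg2 τ) * xe τ μ u - μ ^ 6 * gg3 τ := by
  have h1 := wpd_sq him hu
  unfold ye xe
  linear_combination μ ^ 6 * h1

/-- `X(u)` is algebraic over the field of the invariants at the points of order two. -/
lemma xe_alg {τ μ u : ℂ} {E : IntermediateField ℚ ℂ} (h : GF τ μ E) (hu : u ∉ Lam τ)
    (h0 : ye τ μ u = 0) : IsAlgebraic E (xe τ μ u) := by
  have h1 := ye_sq (μ := μ) h.im hu
  rw [h0] at h1
  let a2 : E := ⟨μ ^ 4 * gg2 τ, h.g2⟩
  let a3 : E := ⟨μ ^ 6 * gg3 τ, h.g3⟩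
  let p : Polynomial E := Polynomial.X ^ 3 - (Polynomial.C (1 / 4 * a2) * Polynomial.X +
    Polynomial.C (1 / 4 * a3))
  have hp : p.Monic := by
    apply Polynomial.monic_X_pow_sub
    refine lt_of_le_of_lt Polynomial.degree_linear_le ?_
    norm_num
  have hint : IsIntegral E (xe τ μ u) := by
    refine ⟨p, hp, ?_⟩
    have ha2 : algebraMap E ℂ a2 = μ ^ 4 * gg2 τ := rfl
    have ha3 : algebraMap E ℂ a3 = μ ^ 6 * gg3 τ := rfl
    have hq : algebraMap E ℂ (1 / 4) = 1 / 4 := by
      rw [map_div₀, map_one, map_ofNat]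
    simp only [p, Polynomial.eval₂_sub, Polynomial.eval₂_pow, Polynomial.eval₂_X,
      Polynomial.eval₂_add, Polynomial.eval₂_mul, Polynomial.eval₂_C, map_mul, hq, ha2, ha3]
    linear_combination (-1 / 4 : ℂ) * h1
  exact hint.isAlgebraic

end I_LamZeroK

open I_LamZeroK

theorem LamZeroK_pf : S_LamZeroK := by
  intro τ μ E hN hE u
  constructor
  · intro h
    by_cases hu : u ∈ Lam τ
    · exact Or.inl hu
    right
    by_cases h0 : ye τ μ u = 0
    · exact hE _ (xe_alg hN hu h0)
    · apply hE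
      have h1 := Pool.Agent.ED.isAlgebraic_of_derivation (K := ℚ) (E : Set ℂ) (xe τ μ u) (by
        intro X hX
        have h2 := h X hX
        unfold lam at h2
        rw [if_neg hu, div_eq_zero_iff] at h2
        exact h2.resolve_right h0)
      have h3 : IntermediateField.adjoin ℚ (E : Set ℂ) = E := IntermediateField.adjoin_self ℚ E
      rw [h3] at h1
      exact h1
  · rintro (hu | hx) δ hδ
    · unfold lam
      rw [if_pos hu]
    · unfold lam
      split_ifs
      · rfl
      · rw [hδ _ hx, zero_div]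

end Pool.Agent.Work.MP_8da9ea_nt.FR
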