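import Pool.Agent.Work.MP_8da9ea_nt.FR.StmtsP
import Pool.Agent.Work.MP_8da9ea_nt.FR.I_Key
import Pool.Agent.Work.MP_8da9ea_nt.FR.I_LamAddK
import Pool.Agent.Work.MP_8da9ea_nt.FR.I_LamMulK
import Pool.Agent.Work.MP_8da9ea_nt.FR.I_LamZeroK

/-!
# [KeyP] relations at all multiples of the gradients
-/

set_option autoImplicit false

namespace Pool.Agent.Work.MP_8da9ea_nt.FR

open MvPolynomial Pool.Agent.Work.MP_327059_nt.GL Pool.Agent.Work.MP_8da9ea_nt.S
  Pool.Agent.Work.MP_8da9ea_nt.EB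

namespace I_KeyP

/-- The functionals vanishing on the logarithms of `E`. -/
def GQ (E : IntermediateField ℚ ℂ) : Type :=
  {g : ℂ →ₗ[ℚ] ℚ // ∀ x, Complex.exp x ∈ E → g x = 0}

/-- The functionals vanishing on the points defined over `E`. -/
def GK (τ μ : ℂ) (E : IntermediateField ℚ ℂ) : Type :=
  {g : ℂ →ₗ[kf τ] kf τ // ∀ x, (x ∈ Lam τ ∨ xe τ μ x ∈ E) → g x = 0}

end I_KeyP

open I_Key I_KeyP in
/-- **P3, the key lemma.** -/
theorem KeyP_pf (h1 : S_AxF) (h2 : S_Fun) : S_KeyP := by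
  classical
  intro τ μ V E s n q hKF hbig u v hu hv κ hκ hrel
  have hE : ACl E := hKF.acl
  -- the functional form
  have hpt : ∀ (i : Fin q) (γ : V),
      (∀ g : ℂ →ₗ[ℚ] ℚ, (∀ x, Complex.exp x ∈ E → g x = 0) →
        ∑ j, κ (Sum.inl j) * (g ((γ : ℂ) * u i j) : ℂ) = 0) ∧
      (∀ g : ℂ →ₗ[kf τ] kf τ, (∀ x, (x ∈ Lam τ ∨ xe τ μ x ∈ E) → g x = 0) →
        ∑ j, κ (Sum.inr (j, true)) * (starRingEnd ℂ) (g ((γ : ℂ) * v i j) : ℂ) = 0 ∧
        ((∀ j, κ (Sum.inr (j, true)) = 0) →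
          ∑ j, κ (Sum.inr (j, false)) * (g ((γ : ℂ) * v i j) : ℂ) = 0)) := by
    intro i γ
    obtain ⟨T, hT⟩ := hrel i γ γ.2
    exact h1 τ μ E s n hKF (fun j => (γ : ℂ) * u i j) (fun j => (γ : ℂ) * v i j) κ hκ T hT
  -- the toric places
  have hL : ∀ j, κ (Sum.inl j) = 0 := by
    have h4 := h2 ⊥ (Fin q × V × GQ E) s
      (fun (j : Fin s) (p : Fin q × V × GQ E) => ((p.2.2.1 ((p.2.1 : ℂ) * u p.1 j) : ℚ) : ℂ))
      (fun j p => SubfieldClass.ratCast_mem _ _) (by
        intro c hc hz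
        have hc' : ∀ j, ∃ r : ℚ, (r : ℂ) = c j := by
          intro j
          obtain ⟨r, hr⟩ := IntermediateField.mem_bot.mp (hc j)
          exact ⟨r, by rw [← hr]; simp⟩
        choose r hr using hc'
        have h5 : ∀ i, ∑ j, (r j : ℂ) * u i j = 0 := by
          intro i
          by_contra hne
          obtain ⟨γ, hγ, hγE⟩ := (hbig _ hne).1
          obtain ⟨g, hg, hgS⟩ := Submodule.exists_le_ker_of_notMem (p := SE hE)
            (v := γ * ∑ j, (r j : ℂ) * u i j) hγE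
          have h6 := hz (i, ⟨γ, hγ⟩, ⟨g, fun x hx => hgS hx⟩)
          apply hg
          have h8 : γ * ∑ j, (r j : ℂ) * u i j = ∑ j, r j • (γ * u i j) := by
            rw [Finset.mul_sum]
            refine Finset.sum_congr rfl fun j _ => ?_
            rw [Rat.smul_def]
            ring
          have h7 : ((g (γ * ∑ j, (r j : ℂ) * u i j) : ℚ) : ℂ) = 0 := by
            rw [h8, map_sum]
            push_cast
            rw [← h6]
            refine Finset.sum_congr rfl fun j _ => ?_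
            rw [map_smul, smul_eq_mul, ← hr j]
            push_cast
            rfl
          exact_mod_cast h7
        have h11 := hu r h5
        funext j
        rw [← hr j, h11]
        simp) (fun j => κ (Sum.inl j)) (fun p => (hpt p.1 p.2.1).1 p.2.2.1 p.2.2.2)
    intro j
    exact congrFun h4 j
  -- the elliptic places
  by_cases hn : 0 < n
  swap
  · funext o
    rcases o with j | ⟨j, b⟩
    · exact hL j
    · exact absurd (Fin.pos j) hn
  have hG : GF τ μ E := (hKF.ell hn).1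
  have hKf := Kf_pf τ hG.im
  have hind : ∀ c : Fin n → ℂ, (∀ j, c j ∈ kf τ) →
      (∀ p : Fin q × V × GK τ μ E, ∑ j, c j *
        (fun (j : Fin n) (p : Fin q × V × GK τ μ E) =>
          (p.2.2.1 ((p.2.1 : ℂ) * v p.1 j) : ℂ)) j p = 0) →
      c = 0 := by
    intro c hc hz
    apply hv c (fun j => (hKf.2.1 _).mp (hc j))
    intro i
    by_contra hne
    obtain ⟨γ, hγ, hγL, hγE⟩ := (hbig _ hne).2 hn
    have hyn : γ * ∑ j, c j * v i j ∉ SL LamAddK_pf (LamMulK_pf LamAddK_pf) hG := by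
      intro hm
      rcases (LamZeroK_pf τ μ E hG hE _).mp hm with h | h
      · exact hγL h
      · exact hγE h
    obtain ⟨g, hg, hgS⟩ := Submodule.exists_le_ker_of_notMem hyn
    have hgz : ∀ x, (x ∈ Lam τ ∨ xe τ μ x ∈ E) → g x = 0 := by
      intro x hx
      have h3 : x ∈ SL LamAddK_pf (LamMulK_pf LamAddK_pf) hG := (LamZeroK_pf τ μ E hG hE x).mpr hx
      exact hgS h3
    have h6 := hz (i, ⟨γ, hγ⟩, ⟨g, hgz⟩)
    have h7 : ((g (γ * ∑ j, c j * v i j) : kf τ) : ℂ) = 0 := by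
      have h8 : γ * ∑ j, c j * v i j = ∑ j, (⟨c j, hc j⟩ : kf τ) • (γ * v i j) := by
        rw [Finset.mul_sum]
        refine Finset.sum_congr rfl fun j _ => ?_
        show _ = c j * (γ * v i j)
        ring
      rw [h8, map_sum]
      have h10 : ((∑ j, g ((⟨c j, hc j⟩ : kf τ) • (γ * v i j)) : kf τ) : ℂ) =
          ∑ j, ((g ((⟨c j, hc j⟩ : kf τ) • (γ * v i j)) : kf τ) : ℂ) :=
        map_sum (algebraMap (kf τ) ℂ) _ _
      rw [h10, ← h6]
      refine Finset.sum_congr rfl fun j _ => ?_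
      rw [map_smul, smul_eq_mul]
      rfl
    apply hg
    exact Subtype.ext h7
  have hφ : ∀ (j : Fin n) (p : Fin q × V × GK τ μ E),
      (fun (j : Fin n) (p : Fin q × V × GK τ μ E) =>
        (p.2.2.1 ((p.2.1 : ℂ) * v p.1 j) : ℂ)) j p ∈ kf τ :=
    fun j p => (p.2.2.1 ((p.2.1 : ℂ) * v p.1 j)).2
  have h12 := h2 (kf τ) (Fin q × V × GK τ μ E) n
    (fun (j : Fin n) (p : Fin q × V × GK τ μ E) =>
      (p.2.2.1 ((p.2.1 : ℂ) * v p.1 j) : ℂ)) hφ hind
    (fun j => (starRingEnd ℂ) (κ (Sum.inr (j, true)))) (by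
      intro p
      have h13 := congrArg (starRingEnd ℂ) ((hpt p.1 p.2.1).2 p.2.2.1 p.2.2.2).1
      rw [map_sum, map_zero] at h13
      rw [← h13]
      refine Finset.sum_congr rfl fun j _ => ?_
      rw [map_mul (starRingEnd ℂ), Complex.conj_conj])
  have h14 : ∀ j, κ (Sum.inr (j, true)) = 0 := by
    intro j
    have h15 := congrFun h12 j
    simpa using h15
  have h16 := h2 (kf τ) (Fin q × V × GK τ μ E) n
    (fun (j : Fin n) (p : Fin q × V × GK τ μ E) =>
      (p.2.2.1 ((p.2.1 : ℂ) * v p.1 j) : ℂ)) hφ hind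
    (fun j => κ (Sum.inr (j, false)))
    (fun p => ((hpt p.1 p.2.1).2 p.2.2.1 p.2.2.2).2 h14)
  funext o
  rcases o with j | ⟨j, b⟩
  · exact hL j
  · cases b
    · exact congrFun h16 j
    · exact h14 j

end Pool.Agent.Work.MP_8da9ea_nt.FR
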