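import Pool.Agent.Work.MP_8da9ea_nt.FR.StmtsK
import Pool.Agent.Work.MP_8da9ea_nt.EB.I_Kf

/-!
# [KeyW] relations for families of points
-/

set_option autoImplicit false

namespace Pool.Agent.Work.MP_8da9ea_nt.FR

open MvPolynomial Pool.Agent.Work.MP_327059_nt.GL Pool.Agent.Work.MP_8da9ea_nt.S
  Pool.Agent.Work.MP_8da9ea_nt.EB

namespace I_KeyW

/-- The `ℚ`-space of the logarithms of elements of `E`. -/
noncomputable def SE {E : IntermediateField ℚ ℂ} (hE : ACl E) : Submodule ℚ ℂ where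
  carrier := {x | Complex.exp x ∈ E}
  add_mem' {a b} ha hb := by
    show Complex.exp (a + b) ∈ E
    rw [Complex.exp_add]
    exact mul_mem ha hb
  zero_mem' := by
    show Complex.exp 0 ∈ E
    rw [Complex.exp_zero]
    exact one_mem _
  smul_mem' q x hx := by
    show Complex.exp (q • x) ∈ E
    apply hE
    have hd : q.den ≠ 0 := q.den_nz
    have h1 : Complex.exp (q • x) ^ q.den = Complex.exp x ^ q.num := by
      rw [← Complex.exp_nat_mul, ← Complex.exp_int_mul, Rat.smul_def]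
      congr 1
      have h2 : (q : ℂ) * (q.den : ℂ) = (q.num : ℂ) := by
        have := Rat.mul_den_eq_num q
        exact_mod_cast this
      linear_combination x * h2
    have h3 : Complex.exp x ^ q.num ∈ E := zpow_mem hx _
    have h4 : IsAlgebraic E (Complex.exp (q • x) ^ q.den) := by
      rw [h1]
      exact isAlgebraic_algebraMap (⟨_, h3⟩ : E)
    exact IsAlgebraic.of_pow (Nat.pos_of_ne_zero hd) h4

theorem lam_zero (τ μ : ℂ) (δ : Derivation ℚ ℂ ℂ) : lam τ μ δ 0 = 0 := by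
  have h0 : (0 : ℂ) ∈ Lam τ := by
    rw [mem_Lam]
    exact ⟨0, 0, by simp⟩
  unfold lam
  rw [if_pos h0]

/-- The space of the points defined over `E`. -/
noncomputable def SL (l1 : S_LamAddK) (l2 : S_LamMulK) {τ μ : ℂ} {E : IntermediateField ℚ ℂ}
    (hG : GF τ μ E) : Submodule (kf τ) ℂ where
  carrier := {x | ∀ δ ∈ DK E, lam τ μ δ x = 0}
  add_mem' {a b} ha hb δ hδ := by
    rw [l1 τ μ E hG δ hδ, ha δ hδ, hb δ hδ, add_zero]
  zero_mem' δ _ := lam_zero τ μ δ
  smul_mem' g x hx δ hδ := by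
    have hg : IsE τ (g : ℂ) := ((Kf_pf τ hG.im).2.1 g).mp g.2
    show lam τ μ δ ((g : ℂ) * x) = 0
    rw [l2 τ μ E hG δ hδ g x hg, hx δ hδ, mul_zero]

end I_KeyW

open I_KeyW in
/-- **[K5]** -/
theorem KeyW_pf (h1 : S_AxF) (h2 : S_Fun) (l1 : S_LamAddK) (l2 : S_LamMulK) (l4 : S_LamZeroK) :
    S_KeyW := by
  classical
  intro τ μ E s n Θ hKF u v hB κ hκ hrel
  have hE : ACl E := hKF.acl
  -- the functional form at the points of the families
  have hpt : ∀ θ : Θ,
      (∀ g : ℂ →ₗ[ℚ] ℚ, (∀ x, Complex.exp x ∈ E → g x = 0) →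
        ∑ j, κ (Sum.inl j) * (g (u θ j) : ℂ) = 0) ∧
      (∀ g : ℂ →ₗ[kf τ] kf τ, (∀ x, (x ∈ Lam τ ∨ xe τ μ x ∈ E) → g x = 0) →
        ∑ j, κ (Sum.inr (j, true)) * (starRingEnd ℂ) (g (v θ j) : ℂ) = 0 ∧
        ((∀ j, κ (Sum.inr (j, true)) = 0) →
          ∑ j, κ (Sum.inr (j, false)) * (g (v θ j) : ℂ) = 0)) := by
    intro θ
    obtain ⟨T, hT⟩ := hrel θ
    exact h1 τ μ E s n hKF (u θ) (v θ) κ hκ T hT
  -- the toric places
  have hA : ∀ j, κ (Sum.inl j) = 0 := by
    let X := Θ × {g : ℂ →ₗ[ℚ] ℚ // ∀ x, Complex.exp x ∈ E → g x = 0}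
    let φ : Fin s → X → ℂ := fun j p => (p.2.1 (u p.1 j) : ℂ)
    have h4 := h2 ⊥ X s φ (fun j p => SubfieldClass.ratCast_mem _ _) (by
        intro c hc hz
        have hc' : ∀ j, ∃ r : ℚ, (r : ℂ) = c j := by
          intro j
          obtain ⟨r, hr⟩ := IntermediateField.mem_bot.mp (hc j)
          exact ⟨r, by rw [← hr]; simp⟩
        choose r hr using hc'
        by_contra hne
        have hrne : r ≠ 0 := by
          intro h0
          apply hne
          funext j
          rw [← hr j, h0]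
          simp
        obtain ⟨θ, hθ⟩ := hB.1 r hrne
        obtain ⟨g, hg, hgS⟩ := Submodule.exists_le_ker_of_notMem (p := SE hE)
          (v := ∑ j, (r j : ℂ) * u θ j) hθ
        have h6 := hz (θ, ⟨g, fun x hx => hgS hx⟩)
        apply hg
        have h8 : ∑ j, (r j : ℂ) * u θ j = ∑ j, r j • u θ j :=
          Finset.sum_congr rfl fun j _ => (Rat.smul_def _ _).symm
        have h9 : (g (∑ j, (r j : ℂ) * u θ j) : ℂ) = 0 := by
          rw [h8, map_sum]
          push_cast
          rw [← h6]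
          refine Finset.sum_congr rfl fun j _ => ?_
          show ((g (r j • u θ j) : ℚ) : ℂ) = c j * (g (u θ j) : ℂ)
          rw [map_smul, smul_eq_mul, ← hr j]
          push_cast
          rfl
        exact_mod_cast h9) (fun j => κ (Sum.inl j)) (by
        intro p
        exact (hpt p.1).1 p.2.1 p.2.2)
    intro j
    exact congrFun h4 j
  -- the elliptic places
  have hC : ∀ o : Fin n × Bool, κ (Sum.inr o) = 0 := by
    by_cases hn : 0 < n
    swap
    · rintro ⟨j, b⟩
      exact absurd (Fin.pos j) hn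
    have hG : GF τ μ E := (hKF.ell hn).1
    have hKf := Kf_pf τ hG.im
    let X := Θ × {g : ℂ →ₗ[kf τ] kf τ // ∀ x, (x ∈ Lam τ ∨ xe τ μ x ∈ E) → g x = 0}
    let φ : Fin n → X → ℂ := fun j p => ((p.2.1 (v p.1 j) : kf τ) : ℂ)
    have hind : ∀ c : Fin n → ℂ, (∀ j, c j ∈ kf τ) → (∀ p : X, ∑ j, c j * φ j p = 0) →
        c = 0 := by
      intro c hc hz
      by_contra hne
      obtain ⟨θ, hθ1, hθ2⟩ := hB.2 c (fun j => (hKf.2.1 _).mp (hc j)) hne
      have hyn : ∑ j, c j * v θ j ∉ SL l1 l2 hG := by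
        intro hm
        rcases (l4 τ μ E hG hE _).mp hm with h | h
        · exact hθ1 h
        · exact hθ2 h
      obtain ⟨g, hg, hgS⟩ := Submodule.exists_le_ker_of_notMem hyn
      have hgz : ∀ x, (x ∈ Lam τ ∨ xe τ μ x ∈ E) → g x = 0 := by
        intro x hx
        have h3 : x ∈ SL l1 l2 hG := (l4 τ μ E hG hE x).mpr hx
        exact hgS h3
      have h6 := hz (θ, ⟨g, hgz⟩)
      have h8 : ∑ j, c j * v θ j = ∑ j, (⟨c j, hc j⟩ : kf τ) • v θ j :=
        Finset.sum_congr rfl fun j _ => rfl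
      apply hg
      have h9 : ((g (∑ j, c j * v θ j) : kf τ) : ℂ) = 0 := by
        rw [h8, map_sum]
        have h10 : ((∑ j, g ((⟨c j, hc j⟩ : kf τ) • v θ j) : kf τ) : ℂ) =
            ∑ j, ((g ((⟨c j, hc j⟩ : kf τ) • v θ j) : kf τ) : ℂ) :=
          map_sum (algebraMap (kf τ) ℂ) _ _
        rw [h10, ← h6]
        refine Finset.sum_congr rfl fun j _ => ?_
        show ((g ((⟨c j, hc j⟩ : kf τ) • v θ j) : kf τ) : ℂ) = c j * ((g (v θ j) : kf τ) : ℂ)
        rw [map_smul, smul_eq_mul]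
        rfl
      exact Subtype.ext h9
    have hφ : ∀ (j : Fin n) (p : X), φ j p ∈ kf τ := fun j p => (p.2.1 (v p.1 j)).2
    have hE3 : ∀ p : X, ∑ j, κ (Sum.inr (j, true)) * (starRingEnd ℂ) (φ j p) = 0 :=
      fun p => ((hpt p.1).2 p.2.1 p.2.2).1
    have h12 := h2 (kf τ) X n φ hφ hind
      (fun j => (starRingEnd ℂ) (κ (Sum.inr (j, true)))) (by
        intro p
        have h13 := congrArg (starRingEnd ℂ) (hE3 p)
        rw [map_sum, map_zero] at h13
        rw [← h13]
        refine Finset.sum_congr rfl fun j _ => ?_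
        rw [map_mul (starRingEnd ℂ), Complex.conj_conj])
    have h14 : ∀ j, κ (Sum.inr (j, true)) = 0 := by
      intro j
      have h15 := congrFun h12 j
      simpa using h15
    have h16 := h2 (kf τ) X n φ hφ hind (fun j => κ (Sum.inr (j, false)))
      (fun p => ((hpt p.1).2 p.2.1 p.2.2).2 h14)
    rintro ⟨j, b⟩
    cases b
    · exact congrFun h16 j
    · exact h14 j
  funext o
  rcases o with j | o
  · exact hA j
  · exact hC o

end Pool.Agent.Work.MP_8da9ea_nt.FR
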