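import Pool.Agent.Work.MP_8da9ea_nt.FR.StmtsV
import Pool.Agent.Work.MP_8da9ea_nt.EB.I_LMk

/-! Item LMV of the block FR, part V. -/

set_option autoImplicit false

namespace Pool.Agent.Work.MP_8da9ea_nt.FR

open MvPolynomial Pool.Agent.Work.MP_327059_nt.GL
  Pool.Agent.Work.MP_8da9ea_nt.S Pool.Agent.Work.MP_8da9ea_nt.EB Pool.Agent.Work.MP_8da9ea_nt.EC

namespace I_LMV

theorem conj_ne {τ : ℂ} (hτ : 0 < τ.im) : starRingEnd ℂ τ - τ ≠ 0 := by
  intro h
  have h1 := congrArg Complex.im h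
  rw [Complex.sub_im, Complex.conj_im, Complex.zero_im] at h1
  linarith

/-- Norm and trace. -/
theorem norm_trace {τ w : ℂ} (hτ : 0 < τ.im) {p q r s : ℤ} (h1 : w = p + q * τ)
    (h2 : w * τ = r + s * τ) :
    w * starRingEnd ℂ w = ((p * s - q * r : ℤ) : ℂ) ∧
      w + starRingEnd ℂ w = ((p + s : ℤ) : ℂ) := by
  have hne := conj_ne hτ
  have c1 : starRingEnd ℂ w = p + q * starRingEnd ℂ τ := by
    rw [h1, map_add, map_mul, map_intCast, map_intCast]
  have c2 : starRingEnd ℂ w * starRingEnd ℂ τ = r + s * starRingEnd ℂ τ := by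
    rw [← map_mul, h2, map_add, map_mul, map_intCast, map_intCast]
  constructor
  · apply mul_right_cancel₀ hne
    push_cast
    linear_combination w * c2 - starRingEnd ℂ w * h2 + (r + s * starRingEnd ℂ τ) * h1 -
      (r + s * τ) * c1
  · apply mul_right_cancel₀ hne
    push_cast
    linear_combination (starRingEnd ℂ τ) * h1 - τ * c1 - h2 + c2

theorem norm_int {τ w : ℂ} (hτ : 0 < τ.im) (h : IsI τ w) :
    ∃ n : ℤ, w * starRingEnd ℂ w = (n : ℂ) := by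
  obtain ⟨p, q, h1⟩ := mem_Lam.mp h.1
  obtain ⟨r, s, h2⟩ := mem_Lam.mp h.2
  exact ⟨_, (norm_trace hτ h1 h2).1⟩

theorem add_isI {τ w v : ℂ} (h : IsI τ w) (h' : IsI τ v) : IsI τ (w + v) := by
  obtain ⟨p, q, h1⟩ := mem_Lam.mp h.1
  obtain ⟨r, s, h2⟩ := mem_Lam.mp h.2
  obtain ⟨p', q', h1'⟩ := mem_Lam.mp h'.1
  obtain ⟨r', s', h2'⟩ := mem_Lam.mp h'.2
  refine ⟨mem_Lam.mpr ⟨p + p', q + q', ?_⟩, mem_Lam.mpr ⟨r + r', s + s', ?_⟩⟩
  · rw [h1, h1']
    push_cast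
    ring
  · rw [add_mul, h2, h2']
    push_cast
    ring

theorem conj_isI {τ w : ℂ} (hτ : 0 < τ.im) (h : IsI τ w) : IsI τ (starRingEnd ℂ w) := by
  obtain ⟨p, q, h1⟩ := mem_Lam.mp h.1
  obtain ⟨r, s, h2⟩ := mem_Lam.mp h.2
  have ht := (norm_trace hτ h1 h2).2
  have hc : starRingEnd ℂ w = ((p + s : ℤ) : ℂ) - w := by
    rw [← ht]
    ring
  refine ⟨mem_Lam.mpr ⟨s, -q, ?_⟩, mem_Lam.mpr ⟨-r, p, ?_⟩⟩
  · rw [hc, h1]
    push_cast
    ring
  · rw [hc, sub_mul, h2]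
    push_cast
    ring

/-- The trace form is integral. -/
theorem tr_int {τ w v : ℂ} (hτ : 0 < τ.im) (h : IsI τ w) (h' : IsI τ v) :
    ∃ n : ℤ, w * starRingEnd ℂ v + starRingEnd ℂ w * v = (n : ℂ) := by
  obtain ⟨n1, e1⟩ := norm_int hτ h
  obtain ⟨n2, e2⟩ := norm_int hτ h'
  obtain ⟨n3, e3⟩ := norm_int hτ (add_isI h h')
  refine ⟨n3 - n1 - n2, ?_⟩
  rw [map_add] at e3
  push_cast
  linear_combination e3 - e1 - e2

/-- The quadratic form. -/
noncomputable def PQ {m : ℕ} (t : Fin m → Fin m → ℤ) : MvPolynomial (Fin m) ℤ :=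
  ∑ i, ∑ j, C (t i j) * (X i * X j)

theorem PQ_eval {m : ℕ} (t : Fin m → Fin m → ℤ) (w b : Fin m → ℂ)
    (ht : ∀ i j, w i * starRingEnd ℂ (w j) + starRingEnd ℂ (w i) * w j = (t i j : ℂ)) :
    aeval b (PQ t) = 2 * ((∑ j, w j * b j) * ∑ j, starRingEnd ℂ (w j) * b j) := by
  have e1 : aeval b (PQ t) = ∑ i, ∑ j, (w i * starRingEnd ℂ (w j) + starRingEnd ℂ (w i) * w j) *
      (b i * b j) := by
    unfold PQ
    rw [map_sum]
    refine Finset.sum_congr rfl fun i _ => ?_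
    rw [map_sum]
    refine Finset.sum_congr rfl fun j _ => ?_
    rw [map_mul, map_mul, aeval_X, aeval_X, aeval_C, ht]
    simp
  have e2 : ∑ i, ∑ j, (w i * starRingEnd ℂ (w j) + starRingEnd ℂ (w i) * w j) *
      (b i * b j) = ∑ i, ∑ j, (w i * b i) * (starRingEnd ℂ (w j) * b j) +
        ∑ i, ∑ j, (starRingEnd ℂ (w i) * b i) * (w j * b j) := by
    rw [← Finset.sum_add_distrib]
    refine Finset.sum_congr rfl fun i _ => ?_
    rw [← Finset.sum_add_distrib]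
    refine Finset.sum_congr rfl fun j _ => ?_
    ring
  rw [e1, e2, ← Finset.sum_mul_sum, ← Finset.sum_mul_sum]
  ring

theorem PQ_deg {m : ℕ} (t : Fin m → Fin m → ℤ) : (PQ t).totalDegree ≤ 2 := by
  unfold PQ
  refine totalDegree_finsetSum_le fun i _ => totalDegree_finsetSum_le fun j _ => ?_
  refine (totalDegree_mul _ _).trans ?_
  have h1 := totalDegree_mul (X i : MvPolynomial (Fin m) ℤ) (X j)
  rw [totalDegree_X, totalDegree_X] at h1
  rw [totalDegree_C]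
  omega

theorem PQ_len {m : ℕ} (t : Fin m → Fin m → ℤ) (B : ℝ) (hB : ∀ i j, |(t i j : ℝ)| ≤ B) :
    len (PQ t) ≤ m * (m * B) := by
  unfold PQ
  refine (Val_len_sum Finset.univ _).trans ?_
  have h2 : ∀ i ∈ (Finset.univ : Finset (Fin m)),
      len (∑ j, C (t i j) * (X i * X j) : MvPolynomial (Fin m) ℤ) ≤ m * B := by
    intro i _
    refine (Val_len_sum Finset.univ _).trans ?_
    have h3 : ∀ j ∈ (Finset.univ : Finset (Fin m)),
        len (C (t i j) * (X i * X j) : MvPolynomial (Fin m) ℤ) ≤ B := by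
      intro j _
      refine (Val_len_mul _ _).trans ?_
      have e1 := Val_len_C (σ := Fin m) (t i j)
      have e2 : len (X i * X j : MvPolynomial (Fin m) ℤ) ≤ 1 := by
        refine (Val_len_mul _ _).trans ?_
        have a1 := Val_len_X (σ := Fin m) i
        have a2 := Val_len_X (σ := Fin m) j
        have a3 := Val_len_nonneg (X j : MvPolynomial (Fin m) ℤ)
        calc len (X i : MvPolynomial (Fin m) ℤ) * len (X j : MvPolynomial (Fin m) ℤ)
            ≤ 1 * 1 := mul_le_mul a1 a2 a3 zero_le_one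
          _ = 1 := one_mul 1
      have e3 := Val_len_nonneg (X i * X j : MvPolynomial (Fin m) ℤ)
      refine (mul_le_mul e1 e2 e3 (abs_nonneg _)).trans ?_
      rw [mul_one]
      exact hB i j
    refine (Finset.sum_le_sum h3).trans ?_
    rw [Finset.sum_const, Finset.card_univ, Fintype.card_fin, nsmul_eq_mul]
  refine (Finset.sum_le_sum h2).trans ?_
  rw [Finset.sum_const, Finset.card_univ, Fintype.card_fin, nsmul_eq_mul]

/-- Growth of the exponential. -/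
theorem growth (A : ℝ) (c : ℕ) : ∃ T₁ : ℕ, ∀ T : ℕ, T₁ ≤ T →
    A * (T : ℝ) ^ c ≤ Real.exp ((T : ℝ) / 2) := by
  have h1 : Filter.Tendsto (fun x : ℝ => x ^ c * Real.exp (-x)) Filter.atTop (nhds 0) :=
    Real.tendsto_pow_mul_exp_neg_atTop_nhds_zero c
  have h2 : Filter.Tendsto (fun T : ℕ => (T : ℝ) / 2) Filter.atTop Filter.atTop :=
    Filter.Tendsto.atTop_div_const (by norm_num) tendsto_natCast_atTop_atTop
  have h3 := h1.comp h2
  have hpos : (0 : ℝ) < 1 / ((|A| + 1) * 2 ^ c) := by positivity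
  have h4 := h3.eventually (gt_mem_nhds hpos)
  obtain ⟨T₁, hT₁⟩ := Filter.eventually_atTop.1 h4
  refine ⟨T₁, fun T hT => ?_⟩
  have h5 := hT₁ T hT
  simp only [Function.comp] at h5
  have hT0 : (0 : ℝ) ≤ (T : ℝ) ^ c := by positivity
  have he : 0 < Real.exp ((T : ℝ) / 2) := Real.exp_pos _
  rw [Real.exp_neg, div_pow, lt_div_iff₀ (by positivity)] at h5
  have h6 : (T : ℝ) ^ c / 2 ^ c * (Real.exp ((T : ℝ) / 2))⁻¹ * ((|A| + 1) * 2 ^ c) =
      (|A| + 1) * (T : ℝ) ^ c / Real.exp ((T : ℝ) / 2) := by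
    field_simp
  rw [h6, div_lt_one he] at h5
  refine le_trans ?_ h5.le
  apply mul_le_mul_of_nonneg_right _ hT0
  have := le_abs_self A
  linarith

end I_LMV

open I_LMV in
theorem LMV_pf : S_LMV := by
  intro Q m b hFT hSLI c
  have hmm : (0 : ℝ) ≤ m := Nat.cast_nonneg m
  set K : ℝ := (2 * (m : ℝ) * m + 1) * 9 ^ c with hK
  have hK1 : 1 ≤ K := by
    have e1 : (1 : ℝ) ≤ 2 * (m : ℝ) * m + 1 := by nlinarith
    have e2 : (1 : ℝ) ≤ 9 ^ c := one_le_pow₀ (by norm_num)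
    rw [hK]
    nlinarith
  obtain ⟨T₀, hT₀⟩ := I_LMk.main Q b hFT (2 * c) K hK1
  obtain ⟨T₁, hT₁⟩ := growth (2 * (∑ j, ‖b j‖)) c
  refine ⟨max (2 * T₀ + 2) T₁, fun T hT τ hτ w hw hI hb => ?_⟩
  have hTa : 2 * T₀ + 2 ≤ T := (le_max_left _ _).trans hT
  have hTb : T₁ ≤ T := (le_max_right _ _).trans hT
  choose t ht using fun i j => tr_int hτ (hI i) (hI j)
  -- nonvanishing
  have hne : ∀ v : Fin m → ℂ, v ≠ 0 → (∀ j, IsI τ (v j)) → ∑ j, v j * b j ≠ 0 := by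
    intro v hv hIv h0
    apply hv
    refine hSLI τ hτ v (fun j => ⟨1, one_ne_zero, ?_, ?_⟩) h0
    · rw [Int.cast_one, one_mul]
      exact (hIv j).1
    · rw [Int.cast_one, one_mul]
      exact (hIv j).2
  have hn1 := hne w hw hI
  have hn2 := hne (fun j => starRingEnd ℂ (w j)) (by
    intro h0
    apply hw
    funext j
    have h1 := congrFun h0 j
    simpa using h1) (fun j => conj_isI hτ (hI j))
  have hev := PQ_eval t w b ht
  have hne2 : aeval b (PQ t) ≠ 0 := by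
    rw [hev]
    exact mul_ne_zero two_ne_zero (mul_ne_zero hn1 hn2)
  have hTc : (0 : ℝ) ≤ (T : ℝ) ^ c := by positivity
  have hbT : ∀ j, ‖w j‖ ≤ (T : ℝ) ^ c := fun j => by
    have := hb j
    push_cast at this
    exact this
  have hcb : ∀ j, ‖starRingEnd ℂ (w j)‖ ≤ (T : ℝ) ^ c := fun j => by
    rw [Complex.norm_conj]
    exact hbT j
  have htb : ∀ i j, |(t i j : ℝ)| ≤ 2 * ((T : ℝ) ^ c * (T : ℝ) ^ c) := by
    intro i j
    have e1 : |(t i j : ℝ)| = ‖((t i j : ℤ) : ℂ)‖ := by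
      rw [Complex.norm_intCast]
    rw [e1, ← ht i j]
    refine (norm_add_le _ _).trans ?_
    rw [norm_mul, norm_mul]
    have e2 := mul_le_mul (hbT i) (hcb j) (norm_nonneg _) hTc
    have e3 := mul_le_mul (hcb i) (hbT j) (norm_nonneg _) hTc
    linarith
  -- the bound at S = T / 2
  set S : ℕ := T / 2 with hS
  have hS0 : T₀ ≤ S := by omega
  have hS1 : T ≤ 3 * S := by omega
  have hS1' : (T : ℝ) ≤ 3 * S := by exact_mod_cast hS1
  have hlen : len (PQ t) ≤ K * (S : ℝ) ^ (2 * c) := by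
    refine (PQ_len t _ htb).trans ?_
    have e1 : (T : ℝ) ^ c ≤ (3 * (S : ℝ)) ^ c := pow_le_pow_left₀ (Nat.cast_nonneg T) hS1' c
    have e2 : (T : ℝ) ^ c * (T : ℝ) ^ c ≤ (3 * (S : ℝ)) ^ c * (3 * (S : ℝ)) ^ c :=
      mul_le_mul e1 e1 hTc (by positivity)
    have e3 : (3 * (S : ℝ)) ^ c * (3 * (S : ℝ)) ^ c = 9 ^ c * (S : ℝ) ^ (2 * c) := by
      rw [← mul_pow, pow_mul, ← mul_pow]
      congr 1
      ring
    rw [e3] at e2
    have e4 : (0 : ℝ) ≤ 9 ^ c * (S : ℝ) ^ (2 * c) := by positivity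
    calc (m : ℝ) * (m * (2 * ((T : ℝ) ^ c * (T : ℝ) ^ c)))
        = 2 * (m : ℝ) * m * ((T : ℝ) ^ c * (T : ℝ) ^ c) := by ring
      _ ≤ 2 * (m : ℝ) * m * (9 ^ c * (S : ℝ) ^ (2 * c)) := by
          apply mul_le_mul_of_nonneg_left e2
          positivity
      _ ≤ K * (S : ℝ) ^ (2 * c) := by
          rw [hK]
          nlinarith
  have hmain := hT₀ S hS0 (PQ t) (PQ_deg t) hlen hne2
  rw [hev, norm_mul, norm_mul] at hmain
  have h2 : ‖(2 : ℂ)‖ = 2 := by norm_num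
  rw [h2] at hmain
  have hΛ' : ‖∑ j, starRingEnd ℂ (w j) * b j‖ ≤ (T : ℝ) ^ c * ∑ j, ‖b j‖ := by
    refine (norm_sum_le _ _).trans ?_
    rw [Finset.mul_sum]
    refine Finset.sum_le_sum fun j _ => ?_
    rw [norm_mul]
    exact mul_le_mul_of_nonneg_right (hcb j) (norm_nonneg _)
  have hgr := hT₁ T hTb
  have hST : (S : ℝ) ≤ (T : ℝ) / 2 := by
    have : 2 * S ≤ T := by omega
    have h3 : (2 : ℝ) * S ≤ T := by exact_mod_cast this
    linarith
  have hexp : Real.exp (-((T : ℝ) / 2)) ≤ Real.exp (-(S : ℝ)) :=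
    Real.exp_le_exp.mpr (by linarith)
  set x : ℝ := ‖∑ j, w j * b j‖ with hx
  have hx0 : 0 ≤ x := norm_nonneg _
  have h4 : Real.exp (-((T : ℝ) / 2)) ≤ x * Real.exp ((T : ℝ) / 2) := by
    refine hexp.trans (hmain.trans ?_)
    calc 2 * (x * ‖∑ j, starRingEnd ℂ (w j) * b j‖)
        ≤ 2 * (x * ((T : ℝ) ^ c * ∑ j, ‖b j‖)) := by
          apply mul_le_mul_of_nonneg_left _ (by norm_num)
          exact mul_le_mul_of_nonneg_left hΛ' hx0
      _ = x * (2 * (∑ j, ‖b j‖) * (T : ℝ) ^ c) := by ring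
      _ ≤ x * Real.exp ((T : ℝ) / 2) := mul_le_mul_of_nonneg_left hgr hx0
  have h5 : Real.exp (-(T : ℝ)) = Real.exp (-((T : ℝ) / 2)) * Real.exp (-((T : ℝ) / 2)) := by
    rw [← Real.exp_add]
    congr 1
    ring
  have h6 : Real.exp ((T : ℝ) / 2) * Real.exp (-((T : ℝ) / 2)) = 1 := by
    rw [← Real.exp_add]
    simp
  rw [h5]
  calc Real.exp (-((T : ℝ) / 2)) * Real.exp (-((T : ℝ) / 2))
      ≤ x * Real.exp ((T : ℝ) / 2) * Real.exp (-((T : ℝ) / 2)) :=
        mul_le_mul_of_nonneg_right h4 (Real.exp_pos _).le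
    _ = x := by rw [mul_assoc, h6, mul_one]

end Pool.Agent.Work.MP_8da9ea_nt.FR
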