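import Pool.Agent.Work.MP_8da9ea_nt.FR.StmtsK

/-!
# Block FR, part K, item MaxW: points of maximal rank exist in every dense set
-/

set_option autoImplicit false

namespace Pool.Agent.Work.MP_8da9ea_nt.FR

open MvPolynomial

namespace I_MaxW

/-- A complex polynomial which vanishes on a dense set of rational points vanishes at all rational
points of the closed set. -/
theorem vanish {I : Type} {ξ : I → ℂ} {E' : Set (I → ℚ)} (hE : Dns ξ E')
    (F : MvPolynomial I ℂ) (hF : ∀ z ∈ E', eval (fun i => (z i : ℂ)) F = 0) (x : I → ℚ)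
    (hx : x ∈ Wv ξ) : eval (fun i => (x i : ℂ)) F = 0 := by
  classical
  have key : ∀ (lam : ℂ →ₗ[ℚ] ℚ) (y : I → ℚ),
      eval y (∑ b ∈ F.support, monomial b (lam (F.coeff b))) =
        lam (eval (fun i => (y i : ℂ)) F) := by
    intro lam y
    rw [map_sum, eval_eq, map_sum]
    refine Finset.sum_congr rfl fun b _ => ?_
    rw [eval_monomial, Finsupp.prod]
    have h1 : (∏ i ∈ b.support, ((y i : ℚ) : ℂ) ^ b i) =
        ((∏ i ∈ b.support, y i ^ b i : ℚ) : ℂ) := by
      push_cast
      rfl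
    rw [h1, mul_comm (F.coeff b)]
    have h2 := map_smul lam (∏ i ∈ b.support, y i ^ b i) (F.coeff b)
    rw [Rat.smul_def, smul_eq_mul] at h2
    rw [h2, mul_comm]
  refine (Module.forall_dual_apply_eq_zero_iff ℚ _).mp fun lam => ?_
  rw [← key lam x]
  refine hx _ (hE.2 _ fun z hz => ?_)
  rw [key lam z, hF z hz, map_zero]

/-- **The rank does not drop where a polynomial minor is nonzero.** -/
theorem rank {I T U : Type} [AddCommGroup T] [Module ℂ T] [AddCommGroup U] [Module ℂ U]
    [FiniteDimensional ℂ U] (om : (I → ℚ) → (T →ₗ[ℂ] U))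
    (hpol : ∀ (δ : T) (ψ : U →ₗ[ℂ] ℂ), ∃ F : MvPolynomial I ℂ,
      ∀ x : I → ℚ, eval (fun i => (x i : ℂ)) F = ψ (om x δ)) (x₀ : I → ℚ) :
    ∃ P : MvPolynomial I ℂ, eval (fun i => (x₀ i : ℂ)) P ≠ 0 ∧
      ∀ x : I → ℚ, eval (fun i => (x i : ℂ)) P ≠ 0 →
        Module.finrank ℂ (LinearMap.range (om x₀)) ≤
          Module.finrank ℂ (LinearMap.range (om x)) := by
  classical
  set r := Module.finrank ℂ (LinearMap.range (om x₀)) with hr
  let b := Module.finBasis ℂ (LinearMap.range (om x₀))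
  have hb : ∀ i, ∃ δ, om x₀ δ = (b i : U) := fun i => (b i).2
  choose δ hbδ using hb
  have hli : LinearIndependent ℂ (fun i => (b i : U)) :=
    b.linearIndependent.map' (LinearMap.range (om x₀)).subtype (Submodule.ker_subtype _)
  obtain ⟨g, hg⟩ := LinearMap.exists_leftInverse_of_injective
    (Finsupp.linearCombination ℂ (fun i => (b i : U)))
    (by rw [LinearMap.ker_eq_bot]; exact hli)
  have hgb : ∀ i, g (b i : U) = Finsupp.single i 1 := by
    intro i
    have h1 := LinearMap.congr_fun hg (Finsupp.single i 1)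
    rw [LinearMap.comp_apply, Finsupp.linearCombination_single, one_smul] at h1
    exact h1
  have hp := fun i j => hpol (δ i) ((Finsupp.lapply j).comp g)
  choose F hF using hp
  have hev : ∀ x : I → ℚ, eval (fun i => (x i : ℂ)) (Matrix.of F).det =
      (Matrix.of fun i j => g (om x (δ i)) j).det := by
    intro x
    rw [RingHom.map_det]
    congr 1
    ext i j
    rw [Matrix.of_apply, RingHom.mapMatrix_apply, Matrix.map_apply, Matrix.of_apply]
    exact hF i j x
  refine ⟨(Matrix.of F).det, ?_, ?_⟩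
  · rw [hev]
    have h2 : (Matrix.of fun i j => g (om x₀ (δ i)) j) = (1 : Matrix _ _ ℂ) := by
      ext i j
      rw [Matrix.of_apply, hbδ, hgb, Matrix.one_apply, Finsupp.single_apply]
    rw [h2, Matrix.det_one]
    exact one_ne_zero
  · intro x hx
    rw [hev] at hx
    have h1 : LinearIndependent ℂ (fun i => om x (δ i)) := by
      refine LinearIndependent.of_comp g ?_
      refine LinearIndependent.of_comp (Finsupp.linearEquivFunOnFinite ℂ ℂ _).toLinearMap ?_
      exact Matrix.linearIndependent_rows_of_det_ne_zero hx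
    have h2 : LinearIndependent ℂ
        (fun i => (⟨om x (δ i), ⟨δ i, rfl⟩⟩ : LinearMap.range (om x))) := by
      refine LinearIndependent.of_comp (LinearMap.range (om x)).subtype ?_
      exact h1
    have h3 := h2.fintype_card_le_finrank
    rw [Fintype.card_fin] at h3
    exact h3

end I_MaxW

theorem MaxW_pf : S_MaxW := by
  classical
  intro I T W S _ _ _ _ _ _ om hadd hsmul Φ ξ E' hE
  have hne : E'.Nonempty := by
    rw [Set.nonempty_iff_ne_empty]
    intro h
    have h1 := hE.2 1 (by rw [h]; intro x hx; exact absurd hx (Set.notMem_empty x))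
    rw [map_one] at h1
    exact one_ne_zero h1
  obtain ⟨z₁, hz₁⟩ := hne
  have hom0 : om 0 = 0 := by
    have h := hsmul 0 0
    simpa using h
  have hsum : ∀ (s : Finset (I →₀ ℕ)) (v : (I →₀ ℕ) → W), om (∑ k ∈ s, v k) = ∑ k ∈ s, om (v k) := by
    intro s v
    induction s using Finset.induction_on with
    | empty => simpa using hom0
    | insert a s ha ih => rw [Finset.sum_insert ha, Finset.sum_insert ha, hadd, ih]
  have hpol : ∀ (δ : T) (ψ : (S → ℂ) →ₗ[ℂ] ℂ), ∃ F : MvPolynomial I ℂ,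
      ∀ x : I → ℚ, eval (fun i => (x i : ℂ)) F = ψ (om (pe Φ x) δ) := by
    intro δ ψ
    refine ⟨∑ b ∈ Φ.support, monomial b (ψ (om (Φ b) δ)), fun x => ?_⟩
    unfold pe
    rw [Finsupp.sum, hsum, LinearMap.sum_apply, map_sum, map_sum]
    refine Finset.sum_congr rfl fun b _ => ?_
    rw [hsmul, LinearMap.smul_apply, map_smul, smul_eq_mul, eval_monomial, eval_monomial, one_mul,
      mul_comm]
    congr 1
    rw [Finsupp.prod, Finsupp.prod]
    push_cast
    rfl
  -- a point of maximal rank of the closed set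
  obtain ⟨x₀, hx₀, hmax⟩ : ∃ x₀ ∈ Wv ξ, ∀ x ∈ Wv ξ,
      Module.finrank ℂ (LinearMap.range (om (pe Φ x))) ≤
        Module.finrank ℂ (LinearMap.range (om (pe Φ x₀))) := by
    have hb : ∀ x, Module.finrank ℂ (LinearMap.range (om (pe Φ x))) ≤ Fintype.card S := by
      intro x
      have h1 := Submodule.finrank_le (LinearMap.range (om (pe Φ x)))
      rwa [Module.finrank_fintype_fun_eq_card] at h1
    let R : Set ℕ := (fun x => Module.finrank ℂ (LinearMap.range (om (pe Φ x)))) '' Wv ξ
    have hR : R.Nonempty := ⟨_, z₁, hE.1 hz₁, rfl⟩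
    have hRb : BddAbove R := by
      refine ⟨Fintype.card S, ?_⟩
      rintro _ ⟨x, _, rfl⟩
      exact hb x
    obtain ⟨x₀, hx₀, h0⟩ := Nat.sSup_mem hR hRb
    refine ⟨x₀, hx₀, fun x hx => ?_⟩
    have h2 : Module.finrank ℂ (LinearMap.range (om (pe Φ x))) ≤ sSup R :=
      le_csSup hRb ⟨x, hx, rfl⟩
    rw [← h0] at h2
    exact h2
  obtain ⟨P, hP0, hP⟩ := I_MaxW.rank (fun x => om (pe Φ x)) hpol x₀
  have hz : ∃ z ∈ E', eval (fun i => (z i : ℂ)) P ≠ 0 := by
    by_contra hcon
    push Not at hcon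
    exact hP0 (I_MaxW.vanish hE P hcon x₀ hx₀)
  obtain ⟨z, hzE, hz⟩ := hz
  exact ⟨z, hzE, fun x hx => (hmax x hx).trans (hP z hz)⟩

end Pool.Agent.Work.MP_8da9ea_nt.FR
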