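import Pool.Agent.Work.MP_8da9ea_nt.FR.StmtsK
import Pool.Agent.Work.MP_8da9ea_nt.FR.I_FormP
import Pool.Agent.Work.MP_8da9ea_nt.FR.I_MaxW

/-!
# Block FR, part K, item MaxX: maximal rank in dense sets, for the forms
-/

set_option autoImplicit false

namespace Pool.Agent.Work.MP_8da9ea_nt.FR

open MvPolynomial Pool.Agent.Work.MP_327059_nt.GL Pool.Agent.Work.MP_8da9ea_nt.S
  Pool.Agent.Work.MP_8da9ea_nt.EB Pool.Agent.Work.MP_8da9ea_nt.EC

namespace I_MaxX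

/-- The forms at the points with rational coordinates are polynomials in the coordinates. -/
theorem pol (l1 : S_LamAddK) (l3 : S_EtaAddK) {τ μ : ℂ} {s n q ρ D : ℕ}
    (R : Fin s → MvPolynomial (Fin q) ℂ) (S : Fin n → MvPolynomial (Fin q) ℂ)
    (Z : Fin ρ → MvPolynomial (Fin q) ℂ) {K : IntermediateField ℚ ℂ} (hK : KF n τ μ K)
    (e : Fin D → ℂ) (δ : Derivation ℚ ℂ ℂ) (hδ : δ ∈ DK K)
    (ψ : ((Fin s ⊕ Fin n × Bool → ℂ) × (Fin ρ → ℂ)) →ₗ[ℂ] ℂ) :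
    ∃ F : MvPolynomial (Fin q × Fin D) ℂ, ∀ x : Fin q × Fin D → ℚ,
      eval (fun i => (x i : ℂ)) F =
        ψ (omZ τ μ (pv R (cx e x)) (pv S (cx e x)) (pv Z (cx e x)) δ) := by
  classical
  have hp : ∀ o, ∃ F : MvPolynomial (Fin q × Fin D) ℂ, ∀ x : Fin q × Fin D → ℚ,
      eval (fun i => (x i : ℂ)) F = I_FormP.frm τ μ δ o (eval (cx e x) (I_FormP.pnt R S o)) := by
    intro o
    obtain ⟨F, -, hF⟩ := I_FormP.addPol (I_FormP.frm τ μ δ o) (I_FormP.frm_add l1 l3 hK hδ o)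
      (I_FormP.sub e (I_FormP.pnt R S o))
    refine ⟨F, fun x => (hF x).trans ?_⟩
    change I_FormP.frm τ μ δ o (eval (fun o => (x o : ℂ)) (I_FormP.sub e (I_FormP.pnt R S o))) = _
    rw [I_FormP.eval_subs]
    rfl
  have hz : ∀ i, ∃ F : MvPolynomial (Fin q × Fin D) ℂ, ∀ x : Fin q × Fin D → ℚ,
      eval (fun i => (x i : ℂ)) F = δ (eval (cx e x) (Z i)) := by
    intro i
    obtain ⟨F, -, hF⟩ := I_FormP.addPol (fun x => δ x) (fun u v => map_add δ u v)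
      (I_FormP.sub e (Z i))
    refine ⟨F, fun x => (hF x).trans ?_⟩
    change δ (eval (fun o => (x o : ℂ)) (I_FormP.sub e (Z i))) = _
    rw [I_FormP.eval_subs]
    rfl
  choose F hF using hp
  choose G hG using hz
  refine ⟨(∑ o, C (ψ (Pi.single o 1, 0)) * F o) + ∑ i, C (ψ (0, Pi.single i 1)) * G i,
    fun x => ?_⟩
  have h1 : ∀ x : (Fin s ⊕ Fin n × Bool → ℂ) × (Fin ρ → ℂ), ψ x =
      ∑ o, ψ (Pi.single o 1, 0) * x.1 o + ∑ i, ψ (0, Pi.single i 1) * x.2 i := by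
    rintro ⟨x, y⟩
    have e1 : ((x, y) : (Fin s ⊕ Fin n × Bool → ℂ) × (Fin ρ → ℂ)) =
        ∑ o, x o • ((Pi.single o 1, 0) : (Fin s ⊕ Fin n × Bool → ℂ) × (Fin ρ → ℂ)) +
        ∑ i, y i • ((0, Pi.single i 1) : (Fin s ⊕ Fin n × Bool → ℂ) × (Fin ρ → ℂ)) := by
      refine Prod.ext ?_ ?_
      · rw [Prod.fst_add, Prod.fst_sum, Prod.fst_sum]
        simp only [Prod.smul_fst, smul_zero, Finset.sum_const_zero, add_zero]
        exact I_FormP.single_sum x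
      · rw [Prod.snd_add, Prod.snd_sum, Prod.snd_sum]
        simp only [Prod.smul_snd, smul_zero, Finset.sum_const_zero, zero_add]
        exact I_FormP.single_sum y
    rw [e1, map_add, map_sum, map_sum]
    simp only [map_smul, smul_eq_mul, ← e1]
    congr 1
    · refine Finset.sum_congr rfl fun o _ => mul_comm _ _
    · refine Finset.sum_congr rfl fun o _ => mul_comm _ _
  rw [h1, map_add, map_sum, map_sum]
  congr 1
  · refine Finset.sum_congr rfl fun o _ => ?_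
    rw [map_mul, eval_C, hF, ← I_FormP.omV_pnt]
    rfl
  · refine Finset.sum_congr rfl fun i _ => ?_
    rw [map_mul, eval_C, hG]
    rfl

end I_MaxX

theorem MaxX_pf (h1 : S_MaxW) (l1 : S_LamAddK) (l3 : S_EtaAddK) : S_MaxX := by
  classical
  have _ := h1
  intro τ μ s n q ρ D R S Z K hK e ξ E' hE
  have hne : E'.Nonempty := by
    rw [Set.nonempty_iff_ne_empty]
    intro h
    have h1 := hE.2 1 (by rw [h]; intro x hx; exact absurd hx (Set.notMem_empty x))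
    rw [map_one] at h1
    exact one_ne_zero h1
  obtain ⟨z₁, hz₁⟩ := hne
  -- a point of maximal rank of the closed set
  obtain ⟨x₀, hx₀, hmax⟩ : ∃ x₀ ∈ Wv ξ, ∀ x ∈ Wv ξ,
      rkx τ μ K R S Z e x ≤ rkx τ μ K R S Z e x₀ := by
    let Q : Set ℕ := rkx τ μ K R S Z e '' Wv ξ
    have hQ : Q.Nonempty := ⟨_, z₁, hE.1 hz₁, rfl⟩
    have hQb : BddAbove Q := by
      refine ⟨Module.finrank ℂ ((Fin s ⊕ Fin n × Bool → ℂ) × (Fin ρ → ℂ)), ?_⟩
      rintro _ ⟨x, _, rfl⟩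
      exact Submodule.finrank_le _
    obtain ⟨x₀, hx₀, h0⟩ := Nat.sSup_mem hQ hQb
    refine ⟨x₀, hx₀, fun x hx => ?_⟩
    rw [h0]
    exact le_csSup hQb ⟨x, hx, rfl⟩
  let om : (Fin q × Fin D → ℚ) → (DK K →ₗ[ℂ] ((Fin s ⊕ Fin n × Bool → ℂ) × (Fin ρ → ℂ))) :=
    fun x => (omZ τ μ (pv R (cx e x)) (pv S (cx e x)) (pv Z (cx e x))).domRestrict (DK K)
  have hr : ∀ x, Module.finrank ℂ (LinearMap.range (om x)) = rkx τ μ K R S Z e x := by
    intro x
    have h := LinearMap.range_domRestrict (DK K)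
      (omZ τ μ (pv R (cx e x)) (pv S (cx e x)) (pv Z (cx e x)))
    change Module.finrank ℂ (LinearMap.range
      ((omZ τ μ (pv R (cx e x)) (pv S (cx e x)) (pv Z (cx e x))).domRestrict (DK K))) = _
    rw [h]
    rfl
  obtain ⟨P, hP0, hP⟩ := I_MaxW.rank om
    (fun δ ψ => I_MaxX.pol l1 l3 R S Z hK e δ.1 δ.2 ψ) x₀
  simp only [hr] at hP
  have hz : ∃ z ∈ E', eval (fun i => (z i : ℂ)) P ≠ 0 := by
    by_contra hcon
    push Not at hcon
    exact hP0 (I_MaxW.vanish hE P hcon x₀ hx₀)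
  obtain ⟨z, hzE, hz⟩ := hz
  exact ⟨z, hzE, fun x hx => (hmax x hx).trans (hP z hz)⟩

end Pool.Agent.Work.MP_8da9ea_nt.FR
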