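import Pool.Agent.Work.MP_8da9ea_nt.FR.Stmts
import Pool.Agent.Work.MP_8da9ea_nt.EB.I_AK1
import Pool.Agent.Work.MP_8da9ea_nt.EB.I_Kf
import Pool.Agent.Work.MP_8da9ea_nt.CD.End
import Pool.Agent.Work.MP_8da9ea_nt.FixEnd

/-!
# FR1: the mixed theorem of Ax for independent families
-/

set_option autoImplicit false

namespace Pool.Agent.Work.MP_8da9ea_nt.FR

open MvPolynomial Pool.Agent.Work.MP_327059_nt.GL Pool.Agent.Work.MP_8da9ea_nt.S
  Pool.Agent.Work.MP_8da9ea_nt.EB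
open Filter Topology

namespace I_MixAx

/-- A germ which is analytic and not zero at the point is an exponential. -/
theorem loglift {u₀ : ℂ} (m : MG u₀) (u : ℂ) (h : SpecAux.IsAn m (Complex.exp u)) :
    ∃ t : ℂ → ℂ, AnalyticAt ℂ t u₀ ∧ gm u₀ (fun s => Complex.exp (t s)) = m := by
  obtain ⟨F, hF, rfl, hv⟩ := h
  have h1 : F u₀ / Complex.exp u = 1 := by rw [hv, div_self (Complex.exp_ne_zero _)]
  have hA : AnalyticAt ℂ (fun s => F s / Complex.exp u) u₀ :=
    hF.div analyticAt_const (Complex.exp_ne_zero _)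
  have hsl : F u₀ / Complex.exp u ∈ Complex.slitPlane := by
    rw [h1]
    exact Complex.one_mem_slitPlane
  have hL : AnalyticAt ℂ (fun s => Complex.log (F s / Complex.exp u)) u₀ := hA.clog hsl
  have hT : AnalyticAt ℂ (fun s => u + Complex.log (F s / Complex.exp u)) u₀ :=
    analyticAt_const.add hL
  refine ⟨fun s => u + Complex.log (F s / Complex.exp u), hT, ?_⟩
  rw [← gm_mk hF.meromorphicAt]
  refine gm_eq_of hT.cexp ?_
  have hne : ∀ᶠ s in 𝓝 u₀, F s ≠ 0 := hF.continuousAt.eventually_ne (by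
    rw [hv]
    exact Complex.exp_ne_zero _)
  filter_upwards [hne] with s hs
  rw [Complex.exp_add, Complex.exp_log (div_ne_zero hs (Complex.exp_ne_zero _))]
  field_simp

/-- The logarithmic derivative is additive. -/
theorem th_add (δ : Derivation ℚ ℂ ℂ) (a b : ℂ) : th δ (a + b) = th δ a + th δ b := by
  unfold th
  have ha := Complex.exp_ne_zero a
  have hb := Complex.exp_ne_zero b
  rw [Complex.exp_add, Derivation.leibniz, smul_eq_mul, smul_eq_mul]
  field_simp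
  ring

/-- The logarithmic derivative as a homomorphism. -/
noncomputable def thh (δ : Derivation ℚ ℂ ℂ) : ℂ →+ ℂ where
  toFun := th δ
  map_zero' := by
    unfold th
    rw [Complex.exp_zero, Derivation.map_one_eq_zero, zero_div]
  map_add' := th_add δ

theorem th_sum {ι : Type} [Fintype ι] (δ : Derivation ℚ ℂ ℂ) (u : ι → ℂ) (m : ι → ℤ) :
    th δ (∑ i, (m i : ℂ) * u i) = ∑ i, (m i : ℂ) * th δ (u i) := by
  have h1 : ∑ i, (m i : ℂ) * u i = ∑ i, m i • u i := by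
    refine Finset.sum_congr rfl fun i _ => ?_
    rw [zsmul_eq_mul]
  have h2 : thh δ (∑ i, m i • u i) = ∑ i, m i • thh δ (u i) := by
    rw [map_sum]
    refine Finset.sum_congr rfl fun i _ => ?_
    rw [map_zsmul]
  rw [h1]
  refine h2.trans (Finset.sum_congr rfl fun i _ => ?_)
  rw [zsmul_eq_mul]
  rfl

/-- `λ` of a combination. -/
theorem lam_sum {κ : Type} [Fintype κ] (hAdd : S_LamAddK) (hMul : S_LamMulK) {τ μ : ℂ}
    {K : IntermediateField ℚ ℂ} (hN : GF τ μ K) {δ : Derivation ℚ ℂ ℂ} (hδ : δ ∈ DK K)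
    (v g : κ → ℂ) (hg : ∀ j, IsE τ (g j)) :
    lam τ μ δ (∑ j, g j * v j) = ∑ j, g j * lam τ μ δ (v j) := by
  classical
  have h0 : lam τ μ δ 0 = 0 := by
    have h := hAdd τ μ K hN δ hδ 0 0
    rw [add_zero] at h
    linear_combination -h
  have h1 : ∀ s : Finset κ, lam τ μ δ (∑ j ∈ s, g j * v j) = ∑ j ∈ s, g j * lam τ μ δ (v j) := by
    intro s
    induction s using Finset.induction_on with
    | empty => rw [Finset.sum_empty, Finset.sum_empty, h0]
    | insert a s ha ih =>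
      rw [Finset.sum_insert ha, Finset.sum_insert ha, hAdd τ μ K hN δ hδ, ih,
        hMul τ μ K hN δ hδ _ _ (hg a)]
  exact h1 _

/-- Numbers killed by all derivations which kill `E` are in `E`. -/
theorem mem_of_DK {E : IntermediateField ℚ ℂ} (hE : ACl E) {x : ℂ} (h : ∀ δ ∈ DK E, δ x = 0) :
    x ∈ E := by
  apply hE
  have h1 := Pool.Agent.ED.isAlgebraic_of_derivation (K := ℚ) (E : Set ℂ) x (by
    intro X hX
    exact h X hX)
  have h3 : IntermediateField.adjoin ℚ (E : Set ℂ) = E := IntermediateField.adjoin_self ℚ E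
  rw [h3] at h1
  exact h1

theorem isE_zero (τ : ℂ) : IsE τ 0 := isEnd_zero τ

theorem isE_nat (τ : ℂ) (n : ℕ) : IsE τ (n : ℂ) :=
  ⟨1, one_ne_zero, ⟨(n, 0), by simp [lp]⟩, ⟨(0, n), by simp [lp]⟩⟩

/-- The lift of a point of the curve over a field of germs. -/
theorem lift {τ μ : ℂ} (hτ : 0 < τ.im) (hμ : μ ≠ 0) {u₀ : ℂ} (X Y : MG u₀) (u : ℂ) (hu : u ∉ Lam τ)
    (hy : wpd τ u ≠ 0) (hX : SpecAux.IsAn X (xe τ μ u)) (hY : SpecAux.IsAn Y (ye τ μ u))
    (hXY : Y ^ 2 = 4 * X ^ 3 - algebraMap ℂ (MG u₀) (μ ^ 4 * gg2 τ) * X -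
      algebraMap ℂ (MG u₀) (μ ^ 6 * gg3 τ)) :
    ∃ z : ℂ → ℂ, AnalyticAt ℂ z u₀ ∧ z u₀ = u ∧
      X = algebraMap ℂ (MG u₀) (μ ^ 2) * gm u₀ (fun s => wp 1 τ (z s)) ∧
      Y = algebraMap ℂ (MG u₀) (μ ^ 3) * gm u₀ (fun s => wpd τ (z s)) ∧
      algebraMap ℂ (MG u₀) μ * (MG.DD X / Y) = MG.DD (gm u₀ z) := by
  set A := algebraMap ℂ (MG u₀) with hA
  have hAμ : A μ ≠ 0 := by
    rw [Ne, map_eq_zero]
    exact hμ
  have hc : ∀ c : ℂ, SpecAux.IsAn (A c) c := fun c =>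
    ⟨fun _ => c, analyticAt_const, MG.algebraMap_eq c, rfl⟩
  have h1 : SpecAux.IsAn (A (μ ^ 2)⁻¹ * X) (Fx.ef τ true u) := by
    have h := (hc (μ ^ 2)⁻¹).mul hX
    have e : (μ ^ 2)⁻¹ * xe τ μ u = Fx.ef τ true u := by
      unfold xe
      rw [← mul_assoc, inv_mul_cancel₀ (pow_ne_zero 2 hμ), one_mul]
      rfl
    rwa [e] at h
  have h2 : SpecAux.IsAn (A (μ ^ 3)⁻¹ * Y) (Fx.df τ true u) := by
    have h := (hc (μ ^ 3)⁻¹).mul hY
    have e : (μ ^ 3)⁻¹ * ye τ μ u = Fx.df τ true u := by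
      unfold ye
      rw [← mul_assoc, inv_mul_cancel₀ (pow_ne_zero 3 hμ), one_mul]
      rfl
    rwa [e] at h
  obtain ⟨z, hz, hzu, hzX, hzY, hzD, -⟩ := Fx.loc_one hτ true (A (μ ^ 2)⁻¹ * X)
    (A (μ ^ 3)⁻¹ * Y) u hu hy h1 h2 (by
      simp only [if_true]
      have e1 : A (μ ^ 2)⁻¹ = (A μ ^ 2)⁻¹ := by rw [map_inv₀, map_pow]
      have e2 : A (μ ^ 3)⁻¹ = (A μ ^ 3)⁻¹ := by rw [map_inv₀, map_pow]
      rw [e1, e2, mul_pow, hXY, map_mul, map_mul, map_pow, map_pow, ← hA]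
      field_simp)
  refine ⟨z, hz, hzu, ?_, ?_, ?_⟩
  · have e : gm u₀ (fun s => wp 1 τ (z s)) = A (μ ^ 2)⁻¹ * X := hzX
    rw [e, ← mul_assoc, ← map_mul, mul_inv_cancel₀ (pow_ne_zero 2 hμ), map_one, one_mul]
  · have e : gm u₀ (fun s => wpd τ (z s)) = A (μ ^ 3)⁻¹ * Y := hzY
    rw [e, ← mul_assoc, ← map_mul, mul_inv_cancel₀ (pow_ne_zero 3 hμ), map_one, one_mul]
  · rw [hzD, Derivation.leibniz, MG.DD.map_algebraMap, smul_zero, add_zero, smul_eq_mul]
    have e1 : A (μ ^ 2)⁻¹ = (A μ ^ 2)⁻¹ := by rw [map_inv₀, map_pow]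
    have e2 : A (μ ^ 3)⁻¹ = (A μ ^ 3)⁻¹ := by rw [map_inv₀, map_pow]
    rw [e1, e2]
    by_cases hY0 : Y = 0
    · rw [hY0]; simp
    · field_simp

theorem core (h1 : S_Emb) (hadd : S_LamAddK) (hmul : S_LamMulK) (hzero : S_LamZeroK) {τ μ : ℂ}
    (hτ : 0 < τ.im) (hμ : μ ≠ 0) (E : IntermediateField ℚ ℂ) (hEc : Countable E) (hEa : ACl E)
    (ι κ : Type) [Fintype ι] [Fintype κ] (hG : Nonempty κ → GF τ μ E) (u : ι → ℂ) (v : κ → ℂ)
    (hu : ∀ q : ι → ℚ, Complex.exp (∑ i, (q i : ℂ) * u i) ∈ E → q = 0)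
    (hv : ∀ g : κ → ℂ, (∀ j, IsE τ (g j)) →
      (∑ j, g j * v j ∈ Lam τ ∨ xe τ μ (∑ j, g j * v j) ∈ E) → g = 0)
    (A : ι → ℂ) (B C : κ → ℂ) (hAE : ∀ i, A i ∈ E) (hBE : ∀ j, B j ∈ E) (hCE : ∀ j, C j ∈ E) (T : ℂ)
    (hrel : ∀ δ ∈ DK E, ∑ i, A i * th δ (u i) + ∑ j, B j * lam τ μ δ (v j) +
      ∑ j, C j * etf τ μ δ (v j) = δ T) : A = 0 ∧ B = 0 ∧ C = 0 := by
  classical
  have halg : ∀ x : ℂ, IsAlgebraic ℚ x → x ∈ E := fun x hx =>
    hEa x (hx.extendScalars (algebraMap ℚ E).injective)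
  have hKf : S_Kf := Kf_pf
  by_contra hABC
  -- the points are not torsion
  have hsing : ∀ (j : κ) (n : ℕ), n ≠ 0 → (n : ℂ) * v j ∉ Lam τ := by
    intro j n hn hm
    have h2 := hv (Pi.single j (n : ℂ)) (by
      intro l
      by_cases hl : l = j
      · subst hl
        rw [Pi.single_eq_same]
        exact isE_nat τ n
      · rw [Pi.single_eq_of_ne hl]
        exact isE_zero τ) (by
      left
      rw [Finset.sum_eq_single j]
      · rwa [Pi.single_eq_same]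
      · intro l _ hl
        rw [Pi.single_eq_of_ne hl, zero_mul]
      · intro h
        exact absurd (Finset.mem_univ j) h)
    have h3 := congrFun h2 j
    rw [Pi.single_eq_same, Pi.zero_apply] at h3
    exact hn (by exact_mod_cast h3)
  have hvL : ∀ j, v j ∉ Lam τ := by
    intro j
    have h := hsing j 1 one_ne_zero
    rwa [Nat.cast_one, one_mul] at h
  have hyd : ∀ j, wpd τ (v j) ≠ 0 := by
    intro j h
    refine hsing j 2 two_ne_zero ?_
    have h3 := wpd_zero hτ (hvL j) h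
    exact_mod_cast h3
  have hye : ∀ j, ye τ μ (v j) ≠ 0 := fun j => mul_ne_zero (pow_ne_zero 3 hμ) (hyd j)
  have hlam : ∀ δ j, lam τ μ δ (v j) = δ (xe τ μ (v j)) / ye τ μ (v j) := by
    intro δ j
    unfold lam
    rw [if_neg (hvL j)]
  have hetf : ∀ δ j, etf τ μ δ (v j) = δ (ze τ μ (v j)) + xe τ μ (v j) * lam τ μ δ (v j) := by
    intro δ j
    unfold etf
    rw [if_neg (hvL j)]
  let T' : ℂ := T - ∑ j, C j * ze τ μ (v j)
  let f : Option (ι ⊕ κ × Bool) → ℂ := fun o => o.elim T' (Sum.elim (fun i => Complex.exp (u i))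
    (fun q => if q.2 then ye τ μ (v q.1) else xe τ μ (v q.1)))
  obtain ⟨u₀, Φ, hΦE, hΦT, hΦ3, hΦ4⟩ := h1 E hEc hEa (Option (ι ⊕ κ × Bool)) f
  let L := IntermediateField.adjoin E (Set.range f)
  set Am := algebraMap ℂ (MG u₀) with hA
  have hΦL : ∀ a : E, Φ (algebraMap E L a) = Am (a : ℂ) := hΦE
  have hΦ3' : ∀ (S : Type) [Fintype S] (a y : S → L),
      (∀ δ ∈ DK E, ∑ s, (a s : ℂ) * δ (y s : ℂ) = 0) →
        ∀ D : Derivation ℂ (MG u₀) (MG u₀), ∑ s, Φ (a s) * D (Φ (y s)) = 0 := by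
    intro S _ a y h D
    have e := Fintype.equivFin S
    have h2 := hΦ3 (Fintype.card S) (fun n => a (e.symm n)) (fun n => y (e.symm n)) (by
      intro δ hδ
      rw [← h δ hδ]
      exact Equiv.sum_comp e.symm (fun s => (a s : ℂ) * δ (y s : ℂ))) D
    rw [← h2]
    exact (Equiv.sum_comp e.symm (fun s => Φ (a s) * D (Φ (y s)))).symm
  have hΦ4' : ∀ (S : Type) [Fintype S] (a y : S → L),
      ∑ s, Φ (a s) * MG.DD (Φ (y s)) = 0 → ∀ δ ∈ DK E, ∑ s, (a s : ℂ) * δ (y s : ℂ) = 0 := by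
    intro S _ a y h δ hδ
    have e := Fintype.equivFin S
    have h2 := hΦ4 (Fintype.card S) (fun n => a (e.symm n)) (fun n => y (e.symm n)) (by
      rw [← h]
      exact Equiv.sum_comp e.symm (fun s => Φ (a s) * MG.DD (Φ (y s)))) δ hδ
    rw [← h2]
    exact (Equiv.sum_comp e.symm (fun s => (a s : ℂ) * δ (y s : ℂ))).symm
  let eL : ι → L := fun i =>
    ⟨Complex.exp (u i), IntermediateField.subset_adjoin E _ ⟨some (Sum.inl i), rfl⟩⟩
  let xL : κ → L := fun j =>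
    ⟨xe τ μ (v j), IntermediateField.subset_adjoin E _ ⟨some (Sum.inr (j, false)), rfl⟩⟩
  let yL : κ → L := fun j =>
    ⟨ye τ μ (v j), IntermediateField.subset_adjoin E _ ⟨some (Sum.inr (j, true)), rfl⟩⟩
  let tL : L := ⟨T', IntermediateField.subset_adjoin E _ ⟨none, rfl⟩⟩
  have hX : ∀ j, SpecAux.IsAn (Φ (xL j)) (xe τ μ (v j)) := by
    intro j
    obtain ⟨F, hF, hF1, hF2⟩ := hΦT (some (Sum.inr (j, false))) (xL j) rfl
    exact ⟨F, hF, hF2, hF1⟩
  have hY : ∀ j, SpecAux.IsAn (Φ (yL j)) (ye τ μ (v j)) := by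
    intro j
    obtain ⟨F, hF, hF1, hF2⟩ := hΦT (some (Sum.inr (j, true))) (yL j) rfl
    exact ⟨F, hF, hF2, hF1⟩
  have hEx : ∀ i, SpecAux.IsAn (Φ (eL i)) (Complex.exp (u i)) := by
    intro i
    obtain ⟨F, hF, hF1, hF2⟩ := hΦT (some (Sum.inl i)) (eL i) rfl
    exact ⟨F, hF, hF2, hF1⟩
  have hyL0 : ∀ j, yL j ≠ 0 := by
    intro j h
    exact hye j (congrArg (fun z : L => (z : ℂ)) h)
  have heL0 : ∀ i, eL i ≠ 0 := by
    intro i h
    exact Complex.exp_ne_zero (u i) (congrArg (fun z : L => (z : ℂ)) h)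
  have hΦy0 : ∀ j, Φ (yL j) ≠ 0 := fun j => by
    rw [Ne, map_eq_zero]
    exact hyL0 j
  have hΦe0 : ∀ i, Φ (eL i) ≠ 0 := fun i => by
    rw [Ne, map_eq_zero]
    exact heL0 i
  have hXY : ∀ j, Φ (yL j) ^ 2 = 4 * Φ (xL j) ^ 3 - Am (μ ^ 4 * gg2 τ) * Φ (xL j) -
      Am (μ ^ 6 * gg3 τ) := by
    intro j
    have hN := hG ⟨j⟩
    let a2 : E := ⟨μ ^ 4 * gg2 τ, hN.g2⟩
    let a3 : E := ⟨μ ^ 6 * gg3 τ, hN.g3⟩
    have h3 : yL j ^ 2 = 4 * xL j ^ 3 - algebraMap E L a2 * xL j - algebraMap E L a3 := by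
      apply Subtype.ext
      change ye τ μ (v j) ^ 2 = 4 * xe τ μ (v j) ^ 3 - (μ ^ 4 * gg2 τ) * xe τ μ (v j) -
        (μ ^ 6 * gg3 τ)
      have h4 := wpd_sq hτ (hvL j)
      unfold ye xe
      linear_combination μ ^ 6 * h4
    have h4 := congrArg Φ h3
    rw [map_pow, map_sub, map_sub, map_mul, map_mul, map_pow, map_ofNat, hΦE, hΦE] at h4
    exact h4
  choose z hz hzu hzX hzY hzD using fun j => lift hτ hμ (Φ (xL j)) (Φ (yL j)) (v j) (hvL j)
    (hyd j) (hX j) (hY j) (hXY j)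
  choose t ht htE using fun i => loglift (Φ (eL i)) (u i) (hEx i)
  have hAμ : Am μ ≠ 0 := by
    rw [Ne, map_eq_zero]
    exact hμ
  -- the relation for all derivations of the germs
  have hD : ∀ X : Derivation ℂ (MG u₀) (MG u₀),
      ∑ i, Am (A i) * (X (Φ (eL i)) / Φ (eL i)) +
        ∑ j, (Am (B j) + Am (C j) * Φ (xL j)) * (X (Φ (xL j)) / Φ (yL j)) = X (Φ tL) := by
    intro X
    have h3 := hΦ3' (ι ⊕ κ ⊕ Unit)
      (Sum.elim (fun i => algebraMap E L ⟨A i, hAE i⟩ * (eL i)⁻¹)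
        (Sum.elim (fun j => (algebraMap E L ⟨B j, hBE j⟩ + algebraMap E L ⟨C j, hCE j⟩ * xL j) *
          (yL j)⁻¹) (fun _ => -1)))
      (Sum.elim eL (Sum.elim xL (fun _ => tL))) (by
      intro δ hδ
      have h4 := hrel δ hδ
      have h5 : δ T' = δ T - ∑ j, C j * δ (ze τ μ (v j)) := by
        rw [map_sub, map_sum]
        congr 1
        refine Finset.sum_congr rfl fun j _ => ?_
        rw [Derivation.leibniz, hδ _ (hCE j), smul_zero, add_zero, smul_eq_mul]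
      simp only [Fintype.sum_sum_type, Sum.elim_inl, Sum.elim_inr, Finset.univ_unique,
        Finset.sum_singleton]
      change ∑ i, (A i * (Complex.exp (u i))⁻¹) * δ (Complex.exp (u i)) +
        (∑ j, ((B j + C j * xe τ μ (v j)) * (ye τ μ (v j))⁻¹) * δ (xe τ μ (v j)) +
          (-1) * δ T') = 0
      rw [h5, ← h4]
      have h6 : ∀ j, C j * etf τ μ δ (v j) = C j * δ (ze τ μ (v j)) +
          C j * xe τ μ (v j) * (ye τ μ (v j))⁻¹ * δ (xe τ μ (v j)) := by
        intro j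
        rw [hetf, hlam, div_eq_mul_inv]
        ring
      have h7 : ∀ j, B j * lam τ μ δ (v j) =
          B j * (ye τ μ (v j))⁻¹ * δ (xe τ μ (v j)) := by
        intro j
        rw [hlam, div_eq_mul_inv]
        ring
      have h8 : ∀ i, A i * th δ (u i) = (A i * (Complex.exp (u i))⁻¹) * δ (Complex.exp (u i)) := by
        intro i
        unfold th
        rw [div_eq_mul_inv]
        ring
      simp only [h6, h7, h8, Finset.sum_add_distrib, add_mul]
      ring) X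
    simp only [Fintype.sum_sum_type, Sum.elim_inl, Sum.elim_inr, Finset.univ_unique,
      Finset.sum_singleton, map_mul, map_inv₀, map_add, map_neg, map_one, hΦL] at h3
    have h9 : ∑ i, Am (A i) * (X (Φ (eL i)) / Φ (eL i)) =
        ∑ i, Am (A i) * (Φ (eL i))⁻¹ * X (Φ (eL i)) := by
      refine Finset.sum_congr rfl fun i _ => ?_
      rw [div_eq_mul_inv]
      ring
    have h10 : ∑ j, (Am (B j) + Am (C j) * Φ (xL j)) * (X (Φ (xL j)) / Φ (yL j)) =
        ∑ j, (Am (B j) + Am (C j) * Φ (xL j)) * (Φ (yL j))⁻¹ * X (Φ (xL j)) := by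
      refine Finset.sum_congr rfl fun j _ => ?_
      rw [div_eq_mul_inv]
      ring
    rw [h9, h10]
    linear_combination h3
  have hFX := fx_prop κ ι τ u₀ hτ z hz (fun j => ⟨by rw [hzu]; exact hvL j, by
    rw [hzu]; exact hyd j⟩) t ht (fun j => B j * μ⁻¹) (fun j => C j * μ) A
    (by
      rintro ⟨hB0, hC0, hA0⟩
      apply hABC
      refine ⟨hA0, ?_, ?_⟩
      · funext j
        have h := congrFun hB0 j
        exact (mul_eq_zero.1 h).resolve_right (inv_ne_zero hμ)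
      · funext j
        have h := congrFun hC0 j
        exact (mul_eq_zero.1 h).resolve_right hμ)
    (Φ tL) (by
      intro X
      rw [← hD X, add_comm]
      congr 1
      · refine Finset.sum_congr rfl fun i _ => ?_
        rw [htE]
      · refine Finset.sum_congr rfl fun j _ => ?_
        have h5 : gm u₀ (fun s => wpd τ (z j s)) ≠ 0 := by
          intro h6
          apply hΦy0 j
          rw [hzY j, h6, mul_zero]
        have h6 : Am μ * Am μ⁻¹ = 1 := by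
          rw [← map_mul, mul_inv_cancel₀ hμ, map_one]
        rw [hzX j, hzY j, Derivation.leibniz, X.map_algebraMap, smul_zero, add_zero, smul_eq_mul,
          ← hA, map_pow, map_pow, map_mul, map_mul, map_inv₀]
        field_simp)
  rcases hFX with ⟨g, hg0, hgE, c, hc⟩ | ⟨m, hm0, c, hc⟩
  · have hgE' : ∀ j, IsE τ (g j) := hgE
    have hgm : ∀ j, g j ∈ E := fun j => halg _ ((hKf τ hτ).1 _ (hgE' j))
    have hsum : ∑ j, Am (g j) * gm u₀ (z j) = Am c := by
      rw [hA, Fx.gm_sum_lin g z hz, ← gm_const]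
      exact gm_eq_of (Finset.analyticAt_fun_sum _ fun j _ => analyticAt_const.mul (hz j)) hc
    have hder : ∑ j, Am (g j) * MG.DD (gm u₀ (z j)) = 0 := by
      have h3 := congrArg MG.DD hsum
      rw [map_sum, hA, MG.DD.map_algebraMap] at h3
      rw [← h3]
      refine Finset.sum_congr rfl fun j _ => ?_
      rw [Derivation.leibniz, MG.DD.map_algebraMap, smul_zero, add_zero, smul_eq_mul]
    have h4 : ∑ j, Φ (algebraMap E L ⟨g j, hgm j⟩ * (yL j)⁻¹) * MG.DD (Φ (xL j)) = 0 := by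
      have h5 : Am μ * ∑ j, Φ (algebraMap E L ⟨g j, hgm j⟩ * (yL j)⁻¹) * MG.DD (Φ (xL j)) = 0 := by
        rw [← hder, Finset.mul_sum]
        refine Finset.sum_congr rfl fun j _ => ?_
        rw [← hzD j, map_mul, map_inv₀, hΦE, div_eq_mul_inv, ← hA]
        ring
      exact (mul_eq_zero.1 h5).resolve_left hAμ
    have hN : GF τ μ E := by
      obtain ⟨j, -⟩ := Function.ne_iff.1 hg0
      exact hG ⟨j⟩
    have h6 : ∀ δ ∈ DK E, lam τ μ δ (∑ j, g j * v j) = 0 := by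
      intro δ hδ
      have h5 := hΦ4' κ _ xL h4 δ hδ
      rw [lam_sum hadd hmul hN hδ v g hgE', ← h5]
      refine Finset.sum_congr rfl fun j _ => ?_
      rw [hlam]
      change _ = (g j * (ye τ μ (v j))⁻¹) * δ (xe τ μ (v j))
      rw [div_eq_mul_inv]
      ring
    exact hg0 (hv g hgE' ((hzero τ μ E hN hEa _).1 h6))
  · have hsum : ∑ i, Am (m i : ℂ) * gm u₀ (t i) = Am c := by
      rw [hA, Fx.gm_sum_lin (fun i => (m i : ℂ)) t ht, ← gm_const]
      exact gm_eq_of (Finset.analyticAt_fun_sum _ fun i _ => analyticAt_const.mul (ht i)) hc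
    have hder : ∑ i, Am (m i : ℂ) * MG.DD (gm u₀ (t i)) = 0 := by
      have h3 := congrArg MG.DD hsum
      rw [map_sum, hA, MG.DD.map_algebraMap] at h3
      rw [← h3]
      refine Finset.sum_congr rfl fun i _ => ?_
      rw [Derivation.leibniz, MG.DD.map_algebraMap, smul_zero, add_zero, smul_eq_mul]
    have hmm : ∀ i, (m i : ℂ) ∈ E := fun i => intCast_mem E (m i)
    have h4 : ∑ i, Φ (algebraMap E L ⟨(m i : ℂ), hmm i⟩ * (eL i)⁻¹) * MG.DD (Φ (eL i)) = 0 := by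
      rw [← hder]
      refine Finset.sum_congr rfl fun i _ => ?_
      have h5 := rel_exp (ht i)
      rw [htE] at h5
      rw [h5, map_mul, map_inv₀, hΦE]
      have h6 := hΦe0 i
      change Am (m i : ℂ) * (Φ (eL i))⁻¹ * (Φ (eL i) * _) = _
      field_simp
    have h6 : ∀ δ ∈ DK E, δ (Complex.exp (∑ i, (m i : ℂ) * u i)) = 0 := by
      intro δ hδ
      have h5 := hΦ4' ι _ eL h4 δ hδ
      have h7 : th δ (∑ i, (m i : ℂ) * u i) = 0 := by
        rw [th_sum, ← h5]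
        refine Finset.sum_congr rfl fun i _ => ?_
        change _ = ((m i : ℂ) * (Complex.exp (u i))⁻¹) * δ (Complex.exp (u i))
        unfold th
        rw [div_eq_mul_inv]
        ring
      unfold th at h7
      exact (div_eq_zero_iff.1 h7).resolve_right (Complex.exp_ne_zero _)
    have h7 := hu (fun i => (m i : ℚ)) (by
      have h8 := mem_of_DK hEa h6
      simpa using h8)
    apply hm0
    funext i
    have h8 := congrFun h7 i
    simp only [Pi.zero_apply] at h8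
    exact_mod_cast h8

end I_MixAx

open I_MixAx in
theorem MixAx_pf (h1 : S_Emb) (l1 : S_LamAddK) (l2 : S_LamMulK) (l4 : S_LamZeroK) : S_MixAx := by
  classical
  intro τ μ E hEc hEa ι κ _ _ hG u v hu hv A B C hAE hBE hCE T hrel
  rcases isEmpty_or_nonempty κ with hκ | hκ
  · refine core h1 l1 l2 l4 (τ := Complex.I) (μ := 1) (by simp) one_ne_zero E hEc hEa ι κ
      (fun h => ?_) u v hu (fun g _ _ => Subsingleton.elim _ _) A B C hAE hBE hCE T (fun δ hδ => ?_)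
    · exact absurd h (not_nonempty_iff.2 hκ)
    · rw [← hrel δ hδ]
      simp
  · have hN := hG hκ
    exact core h1 l1 l2 l4 hN.im hN.mu E hEc hEa ι κ hG u v hu hv A B C hAE hBE hCE T hrel

end Pool.Agent.Work.MP_8da9ea_nt.FR
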