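import Pool.Agent.Work.MP_8da9ea_nt.FR.StmtsP

/-!
# Block FR, item NDex: nondegenerate points exist
-/

set_option autoImplicit false

namespace Pool.Agent.Work.MP_8da9ea_nt.FR

open MvPolynomial

namespace I_NDex

theorem totalDegree_pderiv_le {q : ℕ} (i : Fin q) (p : MvPolynomial (Fin q) ℂ) :
    (pderiv i p).totalDegree ≤ p.totalDegree := by
  classical
  rw [MvPolynomial.totalDegree, Finset.sup_le_iff]
  intro m hm
  rw [mem_support_iff, coeff_pderiv] at hm
  have h1 : coeff (m + Finsupp.single i 1) p ≠ 0 := fun h => hm (by rw [h, zero_mul])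
  have h2 := le_totalDegree (mem_support_iff.2 h1)
  refine le_trans ?_ h2
  rw [Finsupp.sum_add_index' (fun _ => rfl) (fun _ _ _ => rfl)]
  exact Nat.le_add_right _ _

theorem eq_C_of_pderiv {q : ℕ} (p : MvPolynomial (Fin q) ℂ) (h : ∀ i, pderiv i p = 0) :
    p = C (coeff 0 p) := by
  classical
  ext m
  rw [coeff_C]
  by_cases hm : m = 0
  · subst hm
    rw [if_pos rfl]
  · rw [if_neg (fun h0 => hm h0.symm)]
    obtain ⟨i, hi⟩ : ∃ i, m i ≠ 0 := by
      by_contra hcon
      push Not at hcon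
      exact hm (Finsupp.ext hcon)
    by_contra hne
    have h2 : m - Finsupp.single i 1 + Finsupp.single i 1 = m := by
      refine tsub_add_cancel_of_le ?_
      rw [Finsupp.single_le_iff]
      omega
    have h1 := coeff_pderiv (i := i) p (m - Finsupp.single i 1)
    rw [h i, coeff_zero, h2] at h1
    rcases mul_eq_zero.1 h1.symm with h3 | h3
    · exact hne h3
    · norm_cast at h3

end I_NDex

theorem NDex_pf (hI : S_Indep) : S_NDex := by
  classical
  intro s Δ d
  choose n₁ hn₁ using hI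
  refine ⟨(Finset.range (d + 1)).sup fun d' => n₁ (s * d') Δ, ?_⟩
  intro k hk hkd D hD e he q R hR hind
  obtain ⟨d', hd'⟩ : ∃ d', d' = Module.finrank ℚ k := ⟨_, rfl⟩
  have hle : n₁ (s * d') Δ ≤ D := by
    refine le_trans ?_ hD
    exact Finset.le_sup (f := fun d' => n₁ (s * d') Δ)
      (Finset.mem_range.2 (by rw [hd']; exact Nat.lt_succ_of_le hkd))
  have θ : Module.Basis (Fin d') ℚ k := (Module.finBasis ℚ k).reindex (finCongr hd'.symm)
  have hsum : ∀ f : Fin d' → ℚ, ((∑ a, f a • θ a : k) : ℂ) = ∑ a, (f a : ℂ) * (θ a : ℂ) := by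
    intro f
    push_cast
    refine Finset.sum_congr rfl fun a _ => ?_
    rw [← Rat.smul_def]
  -- the index
  obtain ⟨ε, -⟩ : ∃ ε : Fin s × Fin d' ≃ Fin (s * d'), True := ⟨finProdFinEquiv, trivial⟩
  obtain ⟨w, hw⟩ := hn₁ (s * d') Δ D hle e he q q
    (fun o i => C ((θ (ε.symm o).2 : k) : ℂ) * pderiv i (R (ε.symm o).1))
    (fun o i => by
      refine (totalDegree_mul _ _).trans ?_
      rw [totalDegree_C, zero_add]
      exact (I_NDex.totalDegree_pderiv_le i _).trans (hR _))
    (fun c hc => by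
      have h1 : (fun j => ((∑ a, c (ε (j, a)) • θ a : k) : ℂ)) = 0 := by
        refine hind _ (fun j => (∑ a, c (ε (j, a)) • θ a : k).2)
          (coeff 0 (∑ j, C ((∑ a, c (ε (j, a)) • θ a : k) : ℂ) * R j)) ?_
        refine I_NDex.eq_C_of_pderiv _ fun i => ?_
        rw [map_sum]
        have h2 := hc i
        rw [← ε.sum_comp] at h2
        rw [Fintype.sum_prod_type] at h2
        rw [← h2]
        refine Finset.sum_congr rfl fun j _ => ?_
        rw [(pderiv i).leibniz, pderiv_C, smul_zero, add_zero, smul_eq_mul]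
        rw [show ((∑ a, c (ε (j, a)) • θ a : k) : ℂ) = ∑ a, (c (ε (j, a)) : ℂ) * (θ a : ℂ) from
          hsum _]
        rw [map_sum, Finset.sum_mul]
        refine Finset.sum_congr rfl fun a _ => ?_
        rw [Equiv.symm_apply_apply, map_mul, mul_assoc]
      funext o
      obtain ⟨⟨j, a⟩, rfl⟩ := ε.surjective o
      have h3 : (∑ a, c (ε (j, a)) • θ a : k) = 0 := by
        have h6 := congrFun h1 j
        exact Subtype.ext h6
      exact Fintype.linearIndependent_iff.1 θ.linearIndependent _ h3 a)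
  refine ⟨w, ?_⟩
  intro c hc hz
  have hrep : ∀ j, c j = ∑ a, ((θ.repr ⟨c j, hc j⟩ a : ℚ) : ℂ) * (θ a : ℂ) := by
    intro j
    have h1 := θ.sum_repr ⟨c j, hc j⟩
    have h2 := congrArg (fun x : k => (x : ℂ)) h1
    simp only at h2
    exact h2.symm.trans (hsum _)
  have h4 := hw (fun o => θ.repr ⟨c (ε.symm o).1, hc _⟩ (ε.symm o).2) (fun i => by
    rw [← ε.sum_comp, Fintype.sum_prod_type, ← hz i]
    refine Finset.sum_congr rfl fun j _ => ?_
    rw [hrep j, Finset.sum_mul, pg]
    refine Finset.sum_congr rfl fun a _ => ?_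
    simp only [Equiv.symm_apply_apply]
    rw [map_mul, eval_C, mul_assoc])
  funext j
  rw [hrep j]
  refine Finset.sum_eq_zero fun a _ => ?_
  have h5 := congrFun h4 (ε (j, a))
  simp only [Equiv.symm_apply_apply, Pi.zero_apply] at h5
  rw [h5, Rat.cast_zero, zero_mul]

end Pool.Agent.Work.MP_8da9ea_nt.FR
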