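import Pool.Agent.Work.MP_8da9ea_nt.FR.StmtsP

/-!
# P6: nondegeneracy of the gradients is an open condition
-/

set_option autoImplicit false

namespace Pool.Agent.Work.MP_8da9ea_nt.FR

open MvPolynomial

namespace I_NDform

/-- A linear map applied to the coefficients. -/
noncomputable def mapf {σ : Type} (f : ℂ →ₗ[ℚ] ℂ) (A : MvPolynomial σ ℂ) : MvPolynomial σ ℂ :=
  ∑ b ∈ A.support, monomial b (f (coeff b A))

theorem eval_mapf {σ : Type} (f : ℂ →ₗ[ℚ] ℂ) (A : MvPolynomial σ ℂ) (w : σ → ℚ) :
    eval (fun o => (w o : ℂ)) (mapf f A) = f (eval (fun o => (w o : ℂ)) A) := by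
  unfold mapf
  rw [map_sum, eval_eq, map_sum]
  refine Finset.sum_congr rfl fun b _ => ?_
  rw [eval_monomial]
  have h1 : (∏ i ∈ b.support, ((w i : ℂ)) ^ b i) = ((∏ i ∈ b.support, w i ^ b i : ℚ) : ℂ) := by
    push_cast
    rfl
  have h2 : (b.prod fun i n => ((w i : ℂ)) ^ n) = ∏ i ∈ b.support, ((w i : ℂ)) ^ b i := rfl
  rw [h2, h1]
  set Q : ℚ := ∏ i ∈ b.support, w i ^ b i
  have h3 : coeff b A * (Q : ℂ) = Q • coeff b A := by
    rw [Rat.smul_def]
    ring
  rw [h3, map_smul, Rat.smul_def]
  ring

/-- Substitution of the point with coordinates `w`. -/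
noncomputable def sb {q D : ℕ} (e : Fin D → ℂ) :
    MvPolynomial (Fin q) ℂ →ₐ[ℂ] MvPolynomial (Fin q × Fin D) ℂ :=
  aeval fun i => ∑ a, X (i, a) * C (e a)

theorem eval_sb {q D : ℕ} (e : Fin D → ℂ) (w : Fin q → Fin D → ℚ) (A : MvPolynomial (Fin q) ℂ) :
    eval (fun o : Fin q × Fin D => (w o.1 o.2 : ℂ)) (sb e A) = eval (co e w) A := by
  unfold sb
  induction A using MvPolynomial.induction_on with
  | C a => rw [algHom_C, eval_C, algebraMap_eq, eval_C]
  | add p r hp hr => rw [map_add, map_add, map_add, hp, hr]
  | mul_X p i hp =>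
    rw [map_mul, map_mul, map_mul, hp, aeval_X, eval_X, map_sum]
    congr 1
    unfold co
    refine Finset.sum_congr rfl fun a _ => ?_
    rw [map_mul, eval_X, eval_C]

end I_NDform

open I_NDform in
theorem NDform_pf : S_NDform := by
  classical
  intro k s q D R e w₀ h0
  -- the dual functionals
  have hli : LinearIndependent k (fun j : Fin s => fun i : Fin q => pg R (co e w₀) i j) := by
    rw [Fintype.linearIndependent_iff]
    intro g hg j
    have h1 := h0 (fun j => (g j : ℂ)) (fun j => (g j).2) (by
      intro i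
      have h2 := congrFun hg i
      rw [Finset.sum_apply] at h2
      exact h2)
    have h3 := congrFun h1 j
    exact Subtype.ext h3
  obtain ⟨F, hF⟩ := LinearMap.exists_leftInverse_of_injective
    (Fintype.linearCombination k (fun j : Fin s => fun i : Fin q => pg R (co e w₀) i j)) (by
      rw [LinearMap.ker_eq_bot]
      intro a b hab
      have h1 : Fintype.linearCombination k
          (fun j : Fin s => fun i : Fin q => pg R (co e w₀) i j) (a - b) = 0 := by
        rw [map_sub, hab, sub_self]
      rw [Fintype.linearCombination_apply] at h1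
      have h2 := (Fintype.linearIndependent_iff.1 hli) (a - b) h1
      funext j
      exact sub_eq_zero.1 (h2 j))
  have hF1 : ∀ j a : Fin s, F (fun i => pg R (co e w₀) i j) a = if a = j then 1 else 0 := by
    intro j a
    have h1 := LinearMap.congr_fun hF (Pi.single j 1)
    rw [LinearMap.comp_apply, Fintype.linearCombination_apply] at h1
    have h2 : ∑ i : Fin s, (Pi.single j (1 : k) : Fin s → k) i •
        (fun l : Fin q => pg R (co e w₀) l i) = fun l => pg R (co e w₀) l j := by
      rw [Finset.sum_eq_single j]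
      · rw [Pi.single_eq_same, one_smul]
      · intro b _ hb
        rw [Pi.single_eq_of_ne hb, zero_smul]
      · intro h
        exact absurd (Finset.mem_univ j) h
    rw [h2] at h1
    rw [h1]
    simp [Pi.single_apply]
  -- the components of the functionals
  let fc : Fin s → Fin q → ℂ →ₗ[ℚ] ℂ := fun a i =>
    { toFun := fun x => (F (Pi.single i x) a : ℂ)
      map_add' := fun x y => by
        rw [Pi.single_add, map_add]
        rfl
      map_smul' := fun c x => by
        have h1 : (Pi.single i (c • x) : Fin q → ℂ) = (algebraMap ℚ k c) • Pi.single i x := by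
          funext l
          by_cases hl : l = i
          · subst hl
            rw [Pi.smul_apply, Pi.single_eq_same, Pi.single_eq_same, algebraMap_smul]
          · rw [Pi.smul_apply, Pi.single_eq_of_ne hl, Pi.single_eq_of_ne hl, smul_zero]
        rw [h1, map_smul, algebraMap_smul]
        rfl }
  have hfc : ∀ (v : Fin q → ℂ) (a : Fin s), (F v a : ℂ) = ∑ i, fc a i (v i) := by
    intro v a
    have h1 : v = ∑ i, (Pi.single i (v i) : Fin q → ℂ) := by
      funext l
      rw [Finset.sum_apply, Finset.sum_eq_single l]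
      · rw [Pi.single_eq_same]
      · intro b _ hb
        rw [Pi.single_eq_of_ne hb.symm]
      · intro h
        exact absurd (Finset.mem_univ l) h
    conv_lhs => rw [h1]
    rw [map_sum, Finset.sum_apply]
    exact map_sum (algebraMap k ℂ) _ _
  let Mx : Matrix (Fin s) (Fin s) (MvPolynomial (Fin q × Fin D) ℂ) := Matrix.of fun a j =>
    ∑ i, mapf (fc a i) (sb e (pderiv i (R j)))
  have hM : ∀ w : Fin q → Fin D → ℚ, eval (fun o : Fin q × Fin D => (w o.1 o.2 : ℂ)) Mx.det =
      (Matrix.of fun a j => (F (fun i => pg R (co e w) i j) a : ℂ)).det := by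
    intro w
    rw [RingHom.map_det]
    congr 1
    ext a j
    change eval (fun o : Fin q × Fin D => (w o.1 o.2 : ℂ))
      (∑ i, mapf (fc a i) (sb e (pderiv i (R j)))) = (F (fun i => pg R (co e w) i j) a : ℂ)
    rw [map_sum, hfc]
    refine Finset.sum_congr rfl fun i _ => ?_
    rw [eval_mapf (fc a i) _ (fun o : Fin q × Fin D => w o.1 o.2), eval_sb]
    rfl
  refine ⟨Mx.det, ?_, ?_⟩
  · intro h
    have h1 := hM w₀
    rw [h, map_zero] at h1
    have h2 : (Matrix.of fun a j => (F (fun i => pg R (co e w₀) i j) a : ℂ)) = 1 := by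
      ext a j
      rw [Matrix.of_apply, hF1, Matrix.one_apply]
      split_ifs
      · rfl
      · rfl
    rw [h2, Matrix.det_one] at h1
    exact zero_ne_one h1
  · intro w hw c hc hz
    rw [hM] at hw
    have h1 : (Matrix.of fun a j => (F (fun i => pg R (co e w) i j) a : ℂ)).mulVec c = 0 := by
      funext a
      have h2 : F (∑ j, (⟨c j, hc j⟩ : k) • (fun i => pg R (co e w) i j)) = 0 := by
        have h3 : ∑ j, (⟨c j, hc j⟩ : k) • (fun i => pg R (co e w) i j) = 0 := by
          funext i
          rw [Finset.sum_apply]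
          exact hz i
        rw [h3, map_zero]
      rw [map_sum] at h2
      have h4 := congrArg (algebraMap k ℂ) (congrFun h2 a)
      rw [Finset.sum_apply, map_sum, Pi.zero_apply, map_zero] at h4
      rw [Pi.zero_apply, ← h4]
      unfold Matrix.mulVec dotProduct
      refine Finset.sum_congr rfl fun j _ => ?_
      rw [map_smul, Pi.smul_apply, smul_eq_mul, map_mul]
      exact mul_comm _ _
    exact Matrix.eq_zero_of_mulVec_eq_zero hw h1

end Pool.Agent.Work.MP_8da9ea_nt.FR
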