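import Pool.Agent.Work.MP_8da9ea_nt.FR.StmtsV
import Pool.Agent.Work.MP_8da9ea_nt.EB.I_NZ

/-!
# Block FR, V4: a polynomial vanishing at the perturbed points gives a small point, uniformly
for lattices in a bounded region
-/

set_option autoImplicit false

namespace Pool.Agent.Work.MP_8da9ea_nt.FR

open MvPolynomial Pool.Agent.Work.MP_327059_nt.GL
  Pool.Agent.Work.MP_8da9ea_nt.S Pool.Agent.Work.MP_8da9ea_nt.EB Pool.Agent.Work.MP_8da9ea_nt.EC

namespace I_NZV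

/-- the two cases -/
theorem rel (m q : ℕ) (hm : 1 ≤ m) (hZ : ZEV m) : ∃ c' e : ℕ, 1 ≤ c' ∧ ∀ R : ℝ, 1 ≤ R →
    ∀ n : ℕ, ∃ T₁ : ℕ, ∀ T : ℕ, T₁ ≤ T → ∀ τ : ℂ, LR R τ →
    ∀ (u : Fin n → Fin m → ℂ) (F : MvPolynomial (Fin m) ℂ),
      F ≠ 0 → (∀ j, F.degreeOf j ≤ T ^ q) →
      (∀ s : Fin n → ℤ, (∀ i, 0 ≤ s i ∧ s i ≤ (T : ℤ)) → (∀ j, pc u s j ∉ Lam τ) →
        eval (fun j => wp 1 τ (pc u s j)) F = 0) →
      ∃ w : Fin m → ℂ, w ≠ 0 ∧ (∀ j, IsI τ (w j)) ∧ (∀ j, ‖w j‖ ≤ ((T ^ e : ℕ) : ℝ)) ∧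
        (T + 1) ^ n ≤ T ^ e * cntR τ (c' * T) u w := by
  obtain ⟨c, hc⟩ := hZ
  refine ⟨c + 1, q * c + 1, by omega, fun R hR n => ?_⟩
  obtain ⟨C, hC1, hC⟩ := hc R hR n
  refine ⟨C * 4 ^ c + 2 * m + 1, fun T hT τ hτ u F hF hdeg hvan => ?_⟩
  classical
  have hT1 : 1 ≤ T := by omega
  have hTC : C * 4 ^ c ≤ T := by omega
  have hTm : 2 * m ≤ T := by omega
  have hTq : 1 ≤ T ^ q := Nat.one_le_pow _ _ hT1
  set Bx : Finset (Fin n → ℤ) := Finset.Icc (0 : Fin n → ℤ) (fun _ => (T : ℤ)) with hBx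
  have hmem : ∀ s ∈ Bx, ∀ i, 0 ≤ s i ∧ s i ≤ (T : ℤ) := by
    intro s hs i
    rw [hBx, Finset.mem_Icc] at hs
    exact ⟨hs.1 i, hs.2 i⟩
  have hcard : Bx.card = (T + 1) ^ n := EB.I_NZ.card_box n T
  have hpowc : C * (2 * T ^ q * 2) ^ c ≤ T ^ (q * c + 1) := by
    calc C * (2 * T ^ q * 2) ^ c = (C * 4 ^ c) * T ^ (q * c) := by
          rw [show 2 * T ^ q * 2 = 4 * T ^ q by ring, mul_pow, ← pow_mul]; ring
      _ ≤ T * T ^ (q * c) := Nat.mul_le_mul_right _ hTC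
      _ = T ^ (q * c + 1) := by ring
  by_cases hbig : (T + 1) ^ n ≤ 2 * (Bx.filter fun s => ∀ j, pc u s j ∉ Lam τ).card
  · obtain ⟨w, hw0, hwI, hwb, hwc⟩ := hC τ hτ T (T ^ q) 2 0 u
      (Bx.filter fun s => ∀ j, pc u s j ∉ Lam τ) F hTq (by norm_num)
      (fun s hs => hmem s (Finset.mem_filter.1 hs).1) hbig hF hdeg (by
        intro s hs
        have h1 := (Finset.mem_filter.1 hs)
        have h2 := hvan s (hmem s h1.1) h1.2
        refine ⟨fun j => ?_, ?_⟩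
        · rw [Pi.zero_apply, zero_add]
          exact h1.2 j
        · simpa using h2)
    refine ⟨w, hw0, hwI, fun j => (hwb j).trans (by exact_mod_cast hpowc), ?_⟩
    calc (T + 1) ^ n ≤ C * (2 * T ^ q * 2) ^ c * cntR τ (c * T) u w := hwc
      _ ≤ T ^ (q * c + 1) * cntR τ ((c + 1) * T) u w := by
          refine Nat.mul_le_mul hpowc (EB.I_NZ.cnt_mono τ ?_ u w)
          exact Nat.mul_le_mul_right _ (by omega)
  · push Not at hbig
    have hsum : (Bx.filter fun s => ∀ j, pc u s j ∉ Lam τ).card +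
        (Bx.filter fun s => ¬ ∀ j, pc u s j ∉ Lam τ).card = Bx.card :=
      Finset.card_filter_add_card_filter_not _
    have hsub : (Bx.filter fun s => ¬ ∀ j, pc u s j ∉ Lam τ) ⊆
        Finset.univ.biUnion fun j : Fin m => Bx.filter fun s => pc u s j ∈ Lam τ := by
      intro s hs
      obtain ⟨h1, h2⟩ := Finset.mem_filter.1 hs
      push Not at h2
      obtain ⟨j, hj⟩ := h2
      exact Finset.mem_biUnion.2 ⟨j, Finset.mem_univ j, Finset.mem_filter.2 ⟨h1, hj⟩⟩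
    have h3 := (Finset.card_le_card hsub).trans Finset.card_biUnion_le
    obtain ⟨j, hj⟩ : ∃ j : Fin m, (T + 1) ^ n ≤ 2 * m *
        (Bx.filter fun s => pc u s j ∈ Lam τ).card := by
      by_contra hcon
      push Not at hcon
      have h4 : ∑ j : Fin m, 2 * m * (Bx.filter fun s => pc u s j ∈ Lam τ).card <
          ∑ _j : Fin m, (T + 1) ^ n :=
        Finset.sum_lt_sum_of_nonempty (by
          have : Nonempty (Fin m) := ⟨⟨0, hm⟩⟩
          exact Finset.univ_nonempty) (fun j _ => hcon j)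
      rw [← Finset.mul_sum, Finset.sum_const, Finset.card_univ, Fintype.card_fin,
        smul_eq_mul] at h4
      have h5 : m * (T + 1) ^ n < m * (2 * ∑ j : Fin m,
          (Bx.filter fun s => pc u s j ∈ Lam τ).card) :=
        Nat.mul_lt_mul_of_pos_left (by omega) hm
      have h6 : m * (2 * ∑ j : Fin m, (Bx.filter fun s => pc u s j ∈ Lam τ).card) =
        2 * m * ∑ j : Fin m, (Bx.filter fun s => pc u s j ∈ Lam τ).card := by ring
      omega
    refine ⟨Pi.single j 1, ?_, ?_, ?_, ?_⟩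
    · intro h
      have := congrFun h j
      simp at this
    · intro l
      by_cases hl : l = j
      · subst hl
        rw [Pi.single_eq_same]
        exact EB.I_NZ.isI1 τ
      · rw [Pi.single_eq_of_ne hl]
        exact EB.I_NZ.isI0 τ
    · intro l
      have h7 : (1 : ℝ) ≤ ((T ^ (q * c + 1) : ℕ) : ℝ) := by
        exact_mod_cast Nat.one_le_pow _ _ hT1
      by_cases hl : l = j
      · subst hl
        rw [Pi.single_eq_same, norm_one]
        exact h7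
      · rw [Pi.single_eq_of_ne hl, norm_zero]
        linarith
    · have h8 : (Bx.filter fun s => pc u s j ∈ Lam τ).card ≤
          cntR τ ((c + 1) * T) u (Pi.single j 1) := by
        unfold cntR
        rw [← Set.ncard_coe_finset]
        refine Set.ncard_le_ncard ?_ ((EB.I_NZ.boxfin n _).subset (fun s hs => hs.1))
        intro s hs
        have h9 := Finset.mem_filter.1 (Finset.mem_coe.1 hs)
        refine ⟨fun i => ?_, ?_⟩
        · obtain ⟨h10, h11⟩ := hmem s h9.1 i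
          rw [abs_of_nonneg h10]
          refine h11.trans ?_
          exact_mod_cast Nat.le_mul_of_pos_left T (by omega)
        · rw [EB.I_NZ.single_sum]
          exact h9.2
      calc (T + 1) ^ n ≤ 2 * m * (Bx.filter fun s => pc u s j ∈ Lam τ).card := hj
        _ ≤ T ^ (q * c + 1) * cntR τ ((c + 1) * T) u (Pi.single j 1) := by
            refine Nat.mul_le_mul (hTm.trans ?_) h8
            calc T = T ^ 1 := (pow_one T).symm
              _ ≤ T ^ (q * c + 1) := Nat.pow_le_pow_right hT1 (by omega)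

end I_NZV

theorem NZV_pf (hZ : S_ZEV) (hL : S_LMV) (hMI : S_ManyInd) (hSg : S_Sieg) : S_NZV := by
  intro Q m q hm
  obtain ⟨c', e, hc', hrel⟩ := I_NZV.rel m q hm (hZ m)
  obtain ⟨ρ, hρ⟩ : ∃ ρ : ℕ, ρ = 2 * (e + 4) + 4 := ⟨_, rfl⟩
  refine ⟨e + 2 * ρ + 1, fun b hFT hSLI R hR n hn x => ?_⟩
  obtain ⟨T₁, hT₁⟩ := hrel R hR n
  obtain ⟨T₂, hT₂⟩ := hL Q m b hFT hSLI (e + 1)
  obtain ⟨T₃, hT₃⟩ := EB.I_NZ.exp_ev (e + 4)
  obtain ⟨K₁, hK₁⟩ : ∃ K : ℕ, R + R + 1 ≤ (K : ℝ) := ⟨_, Nat.le_ceil _⟩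
  obtain ⟨K₂, hK₂⟩ : ∃ K : ℕ, (c' : ℝ) * ∑ j, ∑ i, (‖b j * x i‖ + 1) ≤ (K : ℝ) :=
    ⟨_, Nat.le_ceil _⟩
  refine ⟨T₁ + (2 * T₂ + 1) + T₃ + K₁ + K₂ + (2 * c' + 1) + (2 * (ρ + 1) + 1) +
    ((ρ + 1) * c') + m * n + 2 * (4 ^ e + 1) + 1, fun T hT τ hLR ε u F hε0 hε1 hu hF hdeg hvan => ?_⟩
  have hτ : 0 < τ.im := by
    by_contra hc
    have h1 := hLR.1
    have h2 : R * τ.im ≤ 0 := mul_nonpos_of_nonneg_of_nonpos (by linarith) (not_lt.1 hc)
    linarith
  have hinv : 1 / τ.im ≤ R := by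
    rw [div_le_iff₀ hτ]
    exact hLR.1
  have b1 : T₁ ≤ T := by omega
  have b2 : 2 * T₂ + 1 ≤ T := by omega
  have b3 : T₃ ≤ T := by omega
  have b4 : K₁ ≤ T := by omega
  have b5 : K₂ ≤ T := by omega
  have b6 : 2 * c' + 1 ≤ T := by omega
  have b7 : 2 * (ρ + 1) + 1 ≤ T := by omega
  have b8 : (ρ + 1) * c' ≤ T := by omega
  have b9 : m * n ≤ T := by omega
  have b10 : 2 * (4 ^ e + 1) ≤ T := by omega
  have hT1 : 1 ≤ T := by omega
  have hT1' : (1 : ℝ) ≤ T := by exact_mod_cast hT1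
  have b4' : 1 / τ.im + ‖τ‖ + 1 ≤ (T : ℝ) := by
    have h1 : (K₁ : ℝ) ≤ T := by exact_mod_cast b4
    have h2 := hLR.2
    linarith
  have b5' : (c' : ℝ) * ∑ j, ∑ i, (‖b j * x i‖ + 1) ≤ (T : ℝ) := hK₂.trans (by exact_mod_cast b5)
  clear hT
  obtain ⟨w, hw0, hwI, hwb, hcnt⟩ := hT₁ T b1 τ hLR u F hF hdeg hvan
  -- many independent relations
  have hbox : (2 * (c' * T) + 1) ^ ρ < cntR τ (c' * T) u w := by
    by_contra hcon
    push Not at hcon
    have h1 : (2 * (c' * T) + 1) ≤ T ^ 2 := by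
      calc 2 * (c' * T) + 1 ≤ 2 * (c' * T) + T := by omega
        _ = (2 * c' + 1) * T := by ring
        _ ≤ T * T := Nat.mul_le_mul_right _ b6
        _ = T ^ 2 := by ring
    have h2 : (T + 1) ^ n ≤ T ^ (e + 2 * ρ) := by
      calc (T + 1) ^ n ≤ T ^ e * cntR τ (c' * T) u w := hcnt
        _ ≤ T ^ e * (T ^ 2) ^ ρ := Nat.mul_le_mul_left _ (hcon.trans (Nat.pow_le_pow_left h1 _))
        _ = T ^ (e + 2 * ρ) := by rw [← pow_mul, ← pow_add]
    have h3 : T ^ (e + 2 * ρ) < (T + 1) ^ n := by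
      calc T ^ (e + 2 * ρ) ≤ (T + 1) ^ (e + 2 * ρ) := Nat.pow_le_pow_left (by omega) _
        _ < (T + 1) ^ (e + 2 * ρ + 1) := Nat.pow_lt_pow_right (by omega) (by omega)
        _ ≤ (T + 1) ^ n := Nat.pow_le_pow_right (by omega) hn
    omega
  obtain ⟨t, htL, htb, hti⟩ := hMI n (c' * T) ρ {s | ∑ j, w j * pc u s j ∈ Lam τ} hbox
  have hpq : ∀ r, ∃ p q : ℤ, ∑ j, w j * pc u (t r) j = p + q * τ := fun r =>
    mem_Lam.1 (htL r)
  choose p qq hpq using hpq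
  have htb' : ∀ r i, |(t r i : ℝ)| ≤ (c' : ℝ) * T := by
    intro r i
    have h1 : ((|t r i| : ℤ) : ℝ) ≤ (((c' * T : ℕ) : ℤ) : ℝ) := by exact_mod_cast htb r i
    rw [Int.cast_abs] at h1
    push_cast at h1
    exact h1
  have hub : ∀ i j, ‖u i j‖ ≤ ‖b j * x i‖ + 1 := by
    intro i j
    have h1 : ‖u i j‖ ≤ ‖u i j - b j * x i‖ + ‖b j * x i‖ := by
      have := norm_add_le (u i j - b j * x i) (b j * x i)
      rwa [sub_add_cancel] at this
    have h2 := hu i j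
    linarith
  have hwb' : ∀ j, ‖w j‖ ≤ (T : ℝ) ^ e := fun j => by
    have := hwb j
    push_cast at this
    exact this
  have hvb : ∀ r, ‖∑ j, w j * pc u (t r) j‖ ≤ (T : ℝ) ^ (e + 2) := by
    intro r
    have h1 : ∀ j, ‖pc u (t r) j‖ ≤ ((c' : ℝ) * T) * ∑ i, (‖b j * x i‖ + 1) := by
      intro j
      refine (EB.I_NZ.nsum (fun i => u i j) (t r) ((c' : ℝ) * T) (htb' r)).trans ?_
      exact mul_le_mul_of_nonneg_left (Finset.sum_le_sum fun i _ => hub i j) (by positivity)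
    calc ‖∑ j, w j * pc u (t r) j‖ ≤ (T : ℝ) ^ e * ∑ j, ‖pc u (t r) j‖ :=
          EB.I_NZ.wsum w _ _ hwb'
      _ ≤ (T : ℝ) ^ e * ∑ j, ((c' : ℝ) * T) * ∑ i, (‖b j * x i‖ + 1) :=
          mul_le_mul_of_nonneg_left (Finset.sum_le_sum fun j _ => h1 j) (by positivity)
      _ = (T : ℝ) ^ (e + 1) * ((c' : ℝ) * ∑ j, ∑ i, (‖b j * x i‖ + 1)) := by
          rw [← Finset.mul_sum]; ring
      _ ≤ (T : ℝ) ^ (e + 1) * T := mul_le_mul_of_nonneg_left b5' (by positivity)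
      _ = (T : ℝ) ^ (e + 2) := by ring
  have hb1 := fun r => EB.I_NZ.pq_bound hτ b4' (hpq r) (hvb r)
  obtain ⟨cc, hcc0, hccT, hcp, hcq⟩ := EB.I_NZ.sieg2 hSg (ρ + 1) T (e + 2 + 2) (by omega) b7 p qq
    (fun r => (hb1 r).1) (fun r => (hb1 r).2)
  have hval : ∑ j, w j * pc u (fun i => ∑ r, cc r * t r i) j = 0 := by
    rw [EB.I_NZ.comb_val]
    simp only [hpq]
    have h1 : ∑ r, (cc r : ℂ) * ((p r : ℂ) + (qq r : ℂ) * τ) =
        ((∑ r, cc r * p r : ℤ) : ℂ) + ((∑ r, cc r * qq r : ℤ) : ℂ) * τ := by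
      push_cast
      rw [Finset.sum_mul, ← Finset.sum_add_distrib]
      exact Finset.sum_congr rfl fun r _ => by ring
    rw [h1, hcp, hcq]
    simp
  obtain ⟨s, hs⟩ : ∃ s : Fin n → ℤ, s = fun i => ∑ r, cc r * t r i := ⟨_, rfl⟩
  rw [← hs] at hval
  have hsb : ∀ i, |s i| ≤ ((T ^ 3 : ℕ) : ℤ) := by
    intro i
    rw [hs]
    calc |∑ r, cc r * t r i| ≤ ∑ r, |cc r * t r i| := Finset.abs_sum_le_sum_abs _ _
      _ ≤ ∑ _r : Fin (ρ + 1), (T : ℤ) * ((c' * T : ℕ) : ℤ) := by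
          refine Finset.sum_le_sum (fun r _ => ?_)
          rw [abs_mul]
          exact mul_le_mul (hccT r) (htb r i) (abs_nonneg _) (by positivity)
      _ = (((ρ + 1) * c' * T ^ 2 : ℕ) : ℤ) := by
          rw [Finset.sum_const, Finset.card_univ, Fintype.card_fin, nsmul_eq_mul]
          push_cast
          ring
      _ ≤ ((T ^ 3 : ℕ) : ℤ) := by
          have h1 : (ρ + 1) * c' * T ^ 2 ≤ T ^ 3 := by
            calc (ρ + 1) * c' * T ^ 2 ≤ T * T ^ 2 := Nat.mul_le_mul_right _ b8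
              _ = T ^ 3 := by ring
          exact_mod_cast h1
  refine ⟨s, ?_, hsb, ?_⟩
  · rw [hs]
    exact EB.I_NZ.ne_comb t hti cc hcc0
  have hsb' : ∀ i, |(s i : ℝ)| ≤ (T : ℝ) ^ 3 := by
    intro i
    have h1 : ((|s i| : ℤ) : ℝ) ≤ (((T ^ 3 : ℕ) : ℤ) : ℝ) := by exact_mod_cast hsb i
    rw [Int.cast_abs] at h1
    push_cast at h1
    exact h1
  -- the small number
  have hkey : (∑ j, w j * b j) * cmb s x = ∑ j, w j * ∑ i, (s i : ℂ) * (b j * x i - u i j) := by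
    have h1 : ∀ j, w j * ∑ i, (s i : ℂ) * (b j * x i - u i j) =
        w j * b j * cmb s x - w j * pc u s j := by
      intro j
      unfold cmb pc
      have h2 : ∑ i, (s i : ℂ) * (b j * x i - u i j) =
          b j * ∑ i, (s i : ℂ) * x i - ∑ i, (s i : ℂ) * u i j := by
        rw [Finset.mul_sum, ← Finset.sum_sub_distrib]
        exact Finset.sum_congr rfl fun i _ => by ring
      rw [h2]
      ring
    simp only [h1]
    rw [Finset.sum_sub_distrib, hval, sub_zero, Finset.sum_mul]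
  have hup : ‖(∑ j, w j * b j) * cmb s x‖ ≤ (T : ℝ) ^ (e + 4) * ε := by
    rw [hkey]
    calc ‖∑ j, w j * ∑ i, (s i : ℂ) * (b j * x i - u i j)‖
        ≤ (T : ℝ) ^ e * ∑ j, ‖∑ i, (s i : ℂ) * (b j * x i - u i j)‖ := EB.I_NZ.wsum w _ _ hwb'
      _ ≤ (T : ℝ) ^ e * ∑ _j : Fin m, (T : ℝ) ^ 3 * ∑ _i : Fin n, ε := by
          refine mul_le_mul_of_nonneg_left (Finset.sum_le_sum fun j _ => ?_) (by positivity)
          refine (EB.I_NZ.nsum (fun i => b j * x i - u i j) s _ hsb').trans ?_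
          refine mul_le_mul_of_nonneg_left (Finset.sum_le_sum fun i _ => ?_) (by positivity)
          rw [norm_sub_rev]
          exact hu i j
      _ = (T : ℝ) ^ (e + 3) * (((m * n : ℕ) : ℝ) * ε) := by
          rw [Finset.sum_const, Finset.sum_const, Finset.card_univ, Finset.card_univ,
            Fintype.card_fin, Fintype.card_fin, nsmul_eq_mul, nsmul_eq_mul]
          push_cast
          ring
      _ ≤ (T : ℝ) ^ (e + 3) * ((T : ℝ) * ε) := by
          refine mul_le_mul_of_nonneg_left ?_ (by positivity)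
          exact mul_le_mul_of_nonneg_right (by exact_mod_cast b9) hε0
      _ = (T : ℝ) ^ (e + 4) * ε := by ring
  obtain ⟨T', hT'⟩ : ∃ T' : ℕ, T' = T / 2 := ⟨_, rfl⟩
  have hlow := hT₂ T' (by omega) τ hτ w hw0 hwI (fun j => (hwb j).trans (by
    have h1 : T ≤ 4 * T' := by omega
    have h2 : 4 ^ e ≤ T' := by omega
    have h3 : T ^ e ≤ T' ^ (e + 1) := by
      calc T ^ e ≤ (4 * T') ^ e := Nat.pow_le_pow_left h1 _
        _ = 4 ^ e * T' ^ e := by rw [mul_pow]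
        _ ≤ T' * T' ^ e := Nat.mul_le_mul_right _ h2
        _ = T' ^ (e + 1) := by ring
    exact_mod_cast h3))
  have hT'2 : (T' : ℝ) ≤ (T : ℝ) / 2 := by
    have : 2 * T' ≤ T := by omega
    have h1 : (2 : ℝ) * T' ≤ T := by exact_mod_cast this
    linarith
  have hlow' : Real.exp (-((T : ℝ) / 2)) ≤ ‖∑ j, w j * b j‖ :=
    (Real.exp_le_exp.2 (by linarith)).trans hlow
  calc ‖cmb s x‖ = Real.exp ((T : ℝ) / 2) * (Real.exp (-((T : ℝ) / 2)) * ‖cmb s x‖) := by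
        rw [← mul_assoc, ← Real.exp_add, add_neg_cancel, Real.exp_zero, one_mul]
    _ ≤ Real.exp ((T : ℝ) / 2) * (‖∑ j, w j * b j‖ * ‖cmb s x‖) := by
        refine mul_le_mul_of_nonneg_left ?_ (Real.exp_pos _).le
        exact mul_le_mul_of_nonneg_right hlow' (norm_nonneg _)
    _ ≤ Real.exp ((T : ℝ) / 2) * ((T : ℝ) ^ (e + 4) * ε) := by
        refine mul_le_mul_of_nonneg_left ?_ (Real.exp_pos _).le
        rw [← norm_mul]
        exact hup
    _ = ε * ((T : ℝ) ^ (e + 4) * Real.exp ((T : ℝ) / 2)) := by ring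
    _ ≤ ε * Real.exp T := mul_le_mul_of_nonneg_left (hT₃ T b3) hε0

end Pool.Agent.Work.MP_8da9ea_nt.FR
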