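import Pool.Agent.Work.MP_8da9ea_nt.FR.Stmts
import Pool.Agent.Work.MP_8da9ea_nt.EB.Asm

/-!
# Item FR10: small fields cannot contain all exponentials, or all values of `X`, of a large space
-/

set_option autoImplicit false

namespace Pool.Agent.Work.MP_8da9ea_nt.FR

open MvPolynomial Pool.Agent.Work.MP_327059_nt.GL Pool.Agent.Work.MP_8da9ea_nt.S
  Pool.Agent.Work.MP_8da9ea_nt.EB

namespace I_NoSmall

/-- Enough numbers in a field give a transcendence degree. -/
theorem trdeg_of {d e : ℕ} (h : d = e) (E : IntermediateField ℚ ℂ) (x : Fin d → ℂ)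
    (hx : ∀ j, x j ∈ E) (ha : AlgebraicIndependent ℚ x) : HasTrdeg E e := by
  subst h
  exact ⟨x, hx, ha⟩

/-- Entries of a family independent over `k` are not zero. -/
theorem ne_zero {τ : ℂ} {m : ℕ} {b : Fin m → ℂ} (hb : KLI τ b) (j : Fin m) : b j ≠ 0 := by
  classical
  intro hj
  have h := hb (Pi.single j 1) (by
    intro i
    rcases eq_or_ne i j with rfl | hij
    · rw [Pi.single_eq_same]
      have := I_GCoreE0.isE_rat τ 1
      simpa using this
    · rw [Pi.single_eq_of_ne hij]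
      have := I_GCoreE0.isE_rat τ 0
      simpa using this) (by
    rw [Finset.sum_eq_single j]
    · rw [hj, mul_zero]
    · intro i _ hij
      rw [Pi.single_eq_of_ne hij, zero_mul]
    · intro h
      exact absurd (Finset.mem_univ _) h)
  have h1 := congrFun h j
  rw [Pi.single_eq_same] at h1
  exact one_ne_zero h1

/-- Integral combinations of elements of `V` are in `V`. -/
theorem cmb_mem (V : Submodule ℚ ℂ) {n : ℕ} (x : Fin n → ℂ) (hx : ∀ i, x i ∈ V) (s : Fin n → ℤ) :
    cmb s x ∈ V := by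
  unfold cmb
  refine Submodule.sum_mem _ fun i _ => ?_
  have h := V.smul_mem (s i : ℚ) (hx i)
  rw [Rat.smul_def] at h
  simpa using h

end I_NoSmall

open I_NoSmall in
/-- **FR10** -/
theorem NoSmall_pf : S_NoSmall := by
  classical
  intro M
  obtain ⟨n₁, h₁⟩ := x_TIX 1 M
  have h2 : ∃ n₂ : ℕ, 2 ≤ M → ∀ (τ μ : ℂ) (b : Fin M → ℂ), Nrm τ μ → FT 1 b →
      KLI τ b → ∀ n : ℕ, n₂ ≤ n → ∀ x : Fin n → ℂ, LinearIndependent ℚ x → NT τ b x →
        ¬ TrLe (M - 2) (tx τ μ b x) := by
    by_cases hM : 2 ≤ M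
    · obtain ⟨n₂, h⟩ := x_TIE 1 M hM
      exact ⟨n₂, fun _ => h⟩
    · exact ⟨0, fun h => absurd h hM⟩
  obtain ⟨n₂, h₂⟩ := h2
  refine ⟨n₁ + n₂ + 2 * M, ?_⟩
  intro V b hb hbV hx E hE
  obtain ⟨x, hxV, hx⟩ := hx
  have hFT : FT 1 b := x_FTalg M b hb
  have hM : 2 ≤ M := by
    by_contra hM
    have h0 : 0 = M - 1 := by omega
    refine hE (trdeg_of h0 E Fin.elim0 (fun j => j.elim0) ?_)
    rw [algebraicIndependent_empty_type_iff]
    exact (algebraMap ℚ ℂ).injective
  refine ⟨?_, ?_⟩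
  · intro hli ω hω
    by_contra hne
    push Not at hne
    have hx' : LinearIndependent ℚ (fun i => ω * x i) := by
      have h := hx.map' (LinearMap.mulLeft ℚ ω) (by
        rw [LinearMap.ker_eq_bot']
        intro y hy
        rw [LinearMap.mulLeft_apply] at hy
        exact (mul_eq_zero.1 hy).resolve_left hω)
      exact h
    obtain ⟨-, s, hs⟩ := h₁ b hFT hli (n₁ + n₂ + 2 * M) (by omega) _ hx'
    refine hE ⟨_, fun i => ?_, hs⟩
    have h3 : b (s i).2 * (ω * x (s i).1) = ω * (b (s i).2 * x (s i).1) := by ring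
    rw [h3]
    exact hne _ (hbV _ _ (hxV _))
  · intro τ μ hN hK
    by_contra hne
    push Not at hne
    obtain ⟨n', g, hn', hg, hNT⟩ := RedNT_pf τ M (n₁ + n₂ + 2 * M) b x hN.im
      (fun j => ne_zero hK j) hx
    have h3 := h₂ hM τ μ b hN hFT hK n' (by omega) _ hg hNT
    unfold TrLe at h3
    push Not at h3
    obtain ⟨s, hs⟩ := h3
    refine hE (trdeg_of (by omega) E _ (fun i => ?_) hs)
    have h4 := hNT (Pi.single (s i).1 1) (by
      intro h
      have := congrFun h (s i).1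
      rw [Pi.single_eq_same, Pi.zero_apply] at this
      exact one_ne_zero this) (s i).2
    rw [I_GCoreE0.cmb_single, Int.cast_one, one_mul] at h4
    exact hne _ (hbV _ _ (cmb_mem V x hxV _)) h4

end Pool.Agent.Work.MP_8da9ea_nt.FR
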