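import Pool.Agent.Work.MP_8da9ea_nt.FR.StmtsP
import Pool.Agent.Work.MP_8da9ea_nt.FR.I_NoSmall

/-!
# Item P9: `NoSmall` for a product set
-/

set_option autoImplicit false

namespace Pool.Agent.Work.MP_8da9ea_nt.FR

open MvPolynomial Pool.Agent.Work.MP_327059_nt.GL Pool.Agent.Work.MP_8da9ea_nt.S
  Pool.Agent.Work.MP_8da9ea_nt.EB

namespace I_NoSmallC

/-- Multiplication of a family by a number. -/
theorem cmb_mul {n : ℕ} (x : Fin n → ℂ) (y : ℂ) (s : Fin n → ℤ) :
    cmb s (fun i => y * x i) = y * cmb s x := by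
  unfold cmb
  rw [Finset.mul_sum]
  exact Finset.sum_congr rfl fun i _ => by ring

/-- Multiples of integral combinations. -/
theorem mul_cmb_mem (V : Submodule ℚ ℂ) {n : ℕ} (a : ℂ) (x : Fin n → ℂ)
    (hx : ∀ i, a * x i ∈ V) (s : Fin n → ℤ) : a * cmb s x ∈ V := by
  rw [← cmb_mul]
  exact I_NoSmall.cmb_mem V _ hx s

/-- Multiplying an independent family by a number. -/
theorem li_mul {n : ℕ} {x : Fin n → ℂ} (hx : LinearIndependent ℚ x) {y : ℂ} (hy : y ≠ 0) :
    LinearIndependent ℚ (fun i => y * x i) := by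
  have h := hx.map' (LinearMap.mulLeft ℚ y) (by
    rw [LinearMap.ker_eq_bot']
    intro z hz
    rw [LinearMap.mulLeft_apply] at hz
    exact (mul_eq_zero.1 hz).resolve_left hy)
  exact h

end I_NoSmallC

open I_NoSmall I_NoSmallC in
/-- **P9** -/
theorem NoSmallC_pf : S_NoSmallC := by
  classical
  intro Q M
  obtain ⟨n₁, h₁⟩ := x_TIX Q M
  have h2 : ∃ n₂ : ℕ, 2 ≤ M → ∀ (τ μ : ℂ) (b : Fin M → ℂ), Nrm τ μ → FT Q b →
      KLI τ b → ∀ n : ℕ, n₂ ≤ n → ∀ x : Fin n → ℂ, LinearIndependent ℚ x → NT τ b x →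
        ¬ TrLe (M - 2) (tx τ μ b x) := by
    by_cases hM : 2 ≤ M
    · obtain ⟨n₂, h⟩ := x_TIE Q M hM
      exact ⟨n₂, fun _ => h⟩
    · exact ⟨0, fun h => absurd h hM⟩
  obtain ⟨n₂, h₂⟩ := h2
  refine ⟨n₁ + n₂ + 2 * M, ?_⟩
  intro a x hFT hli hx V hV τ μ n hn E hE y hy
  have hM : 2 ≤ M := by
    by_contra hM
    have h0 : 0 = M - 1 := by omega
    refine hE (trdeg_of h0 E Fin.elim0 (fun j => j.elim0) ?_)
    rw [algebraicIndependent_empty_type_iff]
    exact (algebraMap ℚ ℂ).injective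
  have hx' : LinearIndependent ℚ (fun i => y * x i) := li_mul hx hy
  refine ⟨?_, ?_⟩
  · by_contra hne
    push Not at hne
    obtain ⟨-, s, hs⟩ := h₁ a hFT hli (n₁ + n₂ + 2 * M) (by omega) _ hx'
    refine hE ⟨_, fun i => ?_, hs⟩
    have h3 : a (s i).2 * (y * x (s i).1) = (a (s i).2 * x (s i).1) * y := by ring
    rw [h3]
    exact hne _ (hV _ _)
  · intro h0n
    obtain ⟨hN, hK⟩ := hn h0n
    by_contra hne
    push Not at hne
    obtain ⟨n', g, hn', hg, hNT⟩ := RedNT_pf τ M (n₁ + n₂ + 2 * M) a (fun i => y * x i) hN.im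
      (fun j => ne_zero hK j) hx'
    have h3 := h₂ hM τ μ a hN hFT hK n' (by omega) _ hg hNT
    unfold TrLe at h3
    push Not at h3
    obtain ⟨s, hs⟩ := h3
    refine hE (trdeg_of (by omega) E _ (fun i => ?_) hs)
    have h4 := hNT (Pi.single (s i).1 1) (by
      intro h
      have := congrFun h (s i).1
      rw [Pi.single_eq_same, Pi.zero_apply] at this
      exact one_ne_zero this) (s i).2
    rw [I_GCoreE0.cmb_single, Int.cast_one, one_mul] at h4
    have h5 : a (s i).2 * cmb (g (s i).1) (fun i => y * x i) =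
        (a (s i).2 * cmb (g (s i).1) x) * y := by
      rw [cmb_mul]
      ring
    have h6 := hne (a (s i).2 * cmb (g (s i).1) x) (mul_cmb_mem V _ x (hV _) _) (by
      rw [← h5]
      exact h4)
    rw [← h5] at h6
    exact h6

end Pool.Agent.Work.MP_8da9ea_nt.FR
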