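import Pool.Agent.Work.MP_8da9ea_nt.FR.StmtsV
import Pool.Agent.Work.MP_8da9ea_nt.EB.Asm

/-!
# Item V9: small fields cannot contain all exponentials, or all values of `X`, of a space stable under
a large number field, every lattice
-/

set_option autoImplicit false

namespace Pool.Agent.Work.MP_8da9ea_nt.FR

open MvPolynomial Pool.Agent.Work.MP_327059_nt.GL Pool.Agent.Work.MP_8da9ea_nt.S
  Pool.Agent.Work.MP_8da9ea_nt.EB

namespace I_NoSmallV

/-- Enough numbers in a field give a transcendence degree. -/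
theorem trdeg_of {d e : ℕ} (h : d = e) (E : IntermediateField ℚ ℂ) (x : Fin d → ℂ)
    (hx : ∀ j, x j ∈ E) (ha : AlgebraicIndependent ℚ x) : HasTrdeg E e := by
  subst h
  exact ⟨x, hx, ha⟩

/-- Entries of a family independent over `k` are not zero. -/
theorem ne_zero {τ : ℂ} {m : ℕ} {b : Fin m → ℂ} (hb : KLI τ b) (j : Fin m) : b j ≠ 0 := by
  classical
  intro hj
  have h := hb (Pi.single j 1) (by
    intro i
    rcases eq_or_ne i j with rfl | hij
    · rw [Pi.single_eq_same]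
      have := I_GCoreE0.isE_rat τ 1
      simpa using this
    · rw [Pi.single_eq_of_ne hij]
      have := I_GCoreE0.isE_rat τ 0
      simpa using this) (by
    rw [Finset.sum_eq_single j]
    · rw [hj, mul_zero]
    · intro i _ hij
      rw [Pi.single_eq_of_ne hij, zero_mul]
    · intro h
      exact absurd (Finset.mem_univ _) h)
  have h1 := congrFun h j
  rw [Pi.single_eq_same] at h1
  exact one_ne_zero h1

/-- Integral combinations of elements of `V` are in `V`. -/
theorem cmb_mem (V : Submodule ℚ ℂ) {n : ℕ} (x : Fin n → ℂ) (hx : ∀ i, x i ∈ V) (s : Fin n → ℤ) :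
    cmb s x ∈ V := by
  unfold cmb
  refine Submodule.sum_mem _ fun i _ => ?_
  have h := V.smul_mem (s i : ℚ) (hx i)
  rw [Rat.smul_def] at h
  simpa using h

/-- Integral combinations of elements of `L` are in `L`. -/
theorem cmb_memL (L : IntermediateField ℚ ℂ) {n : ℕ} (x : Fin n → ℂ) (hx : ∀ i, x i ∈ L)
    (s : Fin n → ℤ) : cmb s x ∈ L := by
  unfold cmb
  exact sum_mem fun i _ => mul_mem (intCast_mem L (s i)) (hx i)

/-- `cmb` and a common factor. -/
theorem cmb_mul {n : ℕ} (x : Fin n → ℂ) (c : ℂ) (s : Fin n → ℤ) :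
    cmb s (fun i => x i * c) = cmb s x * c := by
  unfold cmb
  rw [Finset.sum_mul]
  exact Finset.sum_congr rfl fun i _ => (mul_assoc _ _ _).symm

/-- The measure of linear independence of `β i * x₀` for a family `β` of finite type. -/
theorem measure_of {n : ℕ} (β : Fin n → ℂ) (x₀ : ℂ) (hx₀ : x₀ ≠ 0) (hβ : FT 1 β)
    (hli : LinearIndependent ℚ (fun i => β i * x₀)) : MS 1 (fun i => β i * x₀) := by
  obtain ⟨C, hC, h⟩ := hβ
  have hn : (0 : ℝ) ≤ n := Nat.cast_nonneg n
  have hnC : 0 ≤ C * n := mul_nonneg (by linarith) hn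
  refine ⟨C * (n + 1) + |Real.log ‖x₀‖|, ?_, ?_⟩
  · have := abs_nonneg (Real.log ‖x₀‖)
    nlinarith
  · intro s hs S hS hb
    have hsum : ∑ i, (s i : ℂ) * (β i * x₀) = (∑ i, (s i : ℂ) * β i) * x₀ := by
      rw [Finset.sum_mul]
      exact Finset.sum_congr rfl fun i _ => (mul_assoc _ _ _).symm
    have hne := FTLM_ne s _ hli hs
    rw [hsum] at hne ⊢
    have hne' : aeval β (FTLM_P s) ≠ 0 := by
      rw [FTLM_aeval]
      exact left_ne_zero_of_mul hne
    have ht1 : (1 : ℝ) ≤ (n + 1) * S := by nlinarith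
    have h1 := h (FTLM_P s) ((n + 1) * S) ht1 (by
      have : ((FTLM_P s).totalDegree : ℝ) ≤ 1 := by exact_mod_cast FTLM_deg s
      linarith) (by
      have h2 := FTLM_len s S hb
      have h3 := Real.add_one_le_exp ((n + 1) * S)
      nlinarith) hne'
    rw [FTLM_aeval] at h1
    rw [norm_mul]
    have hx : 0 < ‖x₀‖ := norm_pos_iff.2 hx₀
    have h4 : Real.exp (-(|Real.log ‖x₀‖| * S)) ≤ ‖x₀‖ := by
      calc Real.exp (-(|Real.log ‖x₀‖| * S)) ≤ Real.exp (Real.log ‖x₀‖) := by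
            apply Real.exp_le_exp.2
            have h5 := neg_abs_le (Real.log ‖x₀‖)
            have h6 := abs_nonneg (Real.log ‖x₀‖)
            nlinarith
        _ = ‖x₀‖ := Real.exp_log hx
    calc Real.exp (-((C * (n + 1) + |Real.log ‖x₀‖|) * S ^ 1))
        = Real.exp (-(C * ((n + 1) * S) ^ 1)) * Real.exp (-(|Real.log ‖x₀‖| * S)) := by
          rw [← Real.exp_add]
          congr 1
          ring
      _ ≤ _ := mul_le_mul h1 h4 (Real.exp_pos _).le (norm_nonneg _)

/-- The values of `Y` are in every algebraically closed field with the invariants and the value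
of `X`. -/
theorem ye_mem {τ μ : ℂ} {E : IntermediateField ℚ ℂ} (hE : ACl E) (hG : GF τ μ E) {u : ℂ}
    (hu : u ∉ Lam τ) (hx : xe τ μ u ∈ E) : ye τ μ u ∈ E := by
  have hc : ye τ μ u ^ 2 = 4 * xe τ μ u ^ 3 -
      (μ ^ 4 * gg2 τ) * xe τ μ u - μ ^ 6 * gg3 τ := by
    have := wpd_sq hG.im hu
    unfold xe ye
    linear_combination μ ^ 6 * this
  have h4 : (4 : ℂ) ∈ E := by
    have := intCast_mem E 4
    exact_mod_cast this
  have hm : ye τ μ u ^ 2 ∈ E := by
    rw [hc]
    exact sub_mem (sub_mem (mul_mem h4 (pow_mem hx 3)) (mul_mem hG.g2 hx)) hG.g3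
  apply hE
  refine ⟨Polynomial.X ^ 2 - Polynomial.C (⟨_, hm⟩ : E), ?_, ?_⟩
  · exact Polynomial.X_pow_sub_C_ne_zero (by norm_num) _
  · simp only [map_sub, map_pow, Polynomial.aeval_X, Polynomial.aeval_C]
    exact sub_self _

end I_NoSmallV

open I_NoSmallV in
/-- **V9** -/
theorem NoSmallV_pf (h1 : S_TIV) (h2 : S_SLIex) : S_NoSmallV := by
  classical
  intro M
  obtain ⟨n₁, h₁⟩ := x_TIX 1 M
  have h2' : ∃ n₂ : ℕ, 2 ≤ M → ∀ (τ μ : ℂ), 0 < τ.im → μ ≠ 0 →
    ∀ b : Fin M → ℂ, FT 1 b → SLI b → ∀ n : ℕ, n₂ ≤ n → ∀ x : Fin n → ℂ, MS 1 x → NT τ b x →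
      ¬ TrLe (M - 2) (ptE τ μ (fun i j => b j * x i)) := by
    by_cases hM : 2 ≤ M
    · obtain ⟨n₂, h⟩ := h1 1 1 M hM
      exact ⟨n₂, fun _ => h⟩
    · exact ⟨0, fun h => absurd h hM⟩
  obtain ⟨n₂, h₂⟩ := h2'
  refine ⟨n₁ + n₂ + 2 * M, ?_⟩
  intro L hL hfin V hV hst E hACl hE
  have hM : 2 ≤ M := by
    by_contra hM
    have h0 : 0 = M - 1 := by omega
    refine hE (trdeg_of h0 E Fin.elim0 (fun j => j.elim0) ?_)
    rw [algebraicIndependent_empty_type_iff]
    exact (algebraMap ℚ ℂ).injective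
  obtain ⟨x₀, hx₀V, hx₀⟩ := Submodule.exists_mem_ne_zero_of_ne_bot hV
  obtain ⟨b, hbL, hb⟩ := h2 L M hL (by omega)
  have hI : 0 < (Complex.I).im := by simp
  have hlib : LinearIndependent ℚ b := I_GCoreE0.lin_of_kli b (hb Complex.I hI)
  have halg : ∀ y ∈ L, IsAlgebraic ℚ y := by
    intro y hy
    have h := Algebra.IsAlgebraic.isAlgebraic (R := ℚ) (⟨y, hy⟩ : L)
    have h' : IsAlgebraic ℚ (algebraMap L ℂ (⟨y, hy⟩ : L)) := h.algebraMap
    exact h'
  have hFT : FT 1 b := x_FTalg M b fun j => halg _ (hbL j)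
  obtain ⟨β, hβL, hβ⟩ : ∃ β : Fin (Module.finrank ℚ L) → ℂ, (∀ i, β i ∈ L) ∧
      LinearIndependent ℚ β := by
    refine ⟨fun i => (Module.finBasis ℚ L i : ℂ), fun i => (Module.finBasis ℚ L i).2, ?_⟩
    exact (Module.finBasis ℚ L).linearIndependent.map' L.val.toLinearMap (by
      rw [LinearMap.ker_eq_bot]
      exact L.val.injective)
  have hmul : ∀ c : ℂ, c ≠ 0 → ∀ {k : ℕ} (z : Fin k → ℂ), LinearIndependent ℚ z →
      LinearIndependent ℚ (fun i => z i * c) := by
    intro c hc k z hz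
    exact hz.map' (LinearMap.mulRight ℚ c) (by
      rw [LinearMap.ker_eq_bot']
      intro y hy
      rw [LinearMap.mulRight_apply] at hy
      exact (mul_eq_zero.1 hy).resolve_right hc)
  have hV1 : ∀ y ∈ L, y * x₀ ∈ V := fun y hy => hst y hy x₀ hx₀V
  refine ⟨?_, ?_⟩
  · intro ω hω
    by_contra hne
    push Not at hne
    obtain ⟨-, s, hs⟩ := h₁ b hFT hlib (Module.finrank ℚ L) (by omega) _
      (hmul (x₀ * ω) (mul_ne_zero hx₀ hω) β hβ)
    refine hE ⟨_, fun i => ?_, hs⟩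
    have h3 : b (s i).2 * (β (s i).1 * (x₀ * ω)) = ω * ((b (s i).2 * β (s i).1) * x₀) := by ring
    rw [h3]
    exact hne _ (hV1 _ (mul_mem (hbL _) (hβL _)))
  · intro τ μ hG
    by_contra hne
    push Not at hne
    obtain ⟨n', g, hn', hg, hNT⟩ := RedNT_pf τ M (Module.finrank ℚ L) b (fun i => β i * x₀) hG.im
      (fun j => ne_zero (hb τ hG.im) j) (hmul x₀ hx₀ β hβ)
    simp only [cmb_mul] at hg hNT
    have hFTg : FT 1 (fun i => cmb (g i) β) :=
      x_FTalg n' _ fun i => halg _ (cmb_memL L β hβL (g i))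
    have hMS := measure_of (fun i => cmb (g i) β) x₀ hx₀ hFTg hg
    have h3 := h₂ hM τ μ hG.im hG.mu b hFT hb n' (by omega) _ hMS hNT
    unfold TrLe at h3
    push Not at h3
    obtain ⟨s, hs⟩ := h3
    have hX : ∀ i j, b j * (cmb (g i) β * x₀) ∉ Lam τ ∧
        xe τ μ (b j * (cmb (g i) β * x₀)) ∈ E := by
      intro i j
      have h4 := hNT (Pi.single i 1) (by
        intro h
        have := congrFun h i
        rw [Pi.single_eq_same, Pi.zero_apply] at this
        exact one_ne_zero this) j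
      rw [I_GCoreE0.cmb_single, Int.cast_one, one_mul] at h4
      refine ⟨h4, hne _ ?_ h4⟩
      rw [← mul_assoc]
      exact hV1 _ (mul_mem (hbL j) (cmb_memL L β hβL (g i)))
    refine hE (trdeg_of (by omega) E _ (fun i => ?_) hs)
    rcases s i with q | ⟨k, j, c⟩
    · show (if q = 0 then μ ^ 4 * gg2 τ else μ ^ 6 * gg3 τ) ∈ E
      split_ifs
      · exact hG.g2
      · exact hG.g3
    · show (if c then ye τ μ (b j * (cmb (g k) β * x₀)) else
        xe τ μ (b j * (cmb (g k) β * x₀))) ∈ E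
      split_ifs
      · exact ye_mem hACl hG (hX k j).1 (hX k j).2
      · exact (hX k j).2

end Pool.Agent.Work.MP_8da9ea_nt.FR
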