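import Pool.Agent.Work.MP_8da9ea_nt.FR.StmtsP

/-!
# P13, polynomial families for every lattice
-/

set_option autoImplicit false

namespace Pool.Agent.Work.MP_8da9ea_nt.FR

open MvPolynomial Metric Filter Topology Pool.Agent.Work.MP_327059_nt.GL
  Pool.Agent.Work.MP_8da9ea_nt.S Pool.Agent.Work.MP_8da9ea_nt.EB Pool.Agent.Work.MP_8da9ea_nt.EC

namespace I_FRPV

/-- A measure of linear independence passes to subfamilies. -/
lemma ms_comp {Q n n' : ℕ} {x : Fin n → ℂ} (h : MS Q x) (f : Fin n' ↪ Fin n) :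
    MS Q (fun i => x (f i)) := by
  classical
  obtain ⟨B, hB, hs⟩ := h
  refine ⟨B, hB, ?_⟩
  intro s hs0 S hS hsS
  have hf : ∀ i, Function.extend f s 0 (f i) = s i := fun i => f.injective.extend_apply s 0 i
  have h0 : ∀ j, j ∉ Finset.univ.map f → Function.extend f s 0 j = 0 := by
    intro j hj
    refine Function.extend_apply' _ _ _ ?_
    rintro ⟨i, hi⟩
    exact hj (Finset.mem_map.2 ⟨i, Finset.mem_univ i, hi⟩)
  have h1 := hs (Function.extend f s 0) (by
    intro h
    apply hs0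
    funext i
    rw [← hf i, h]
    rfl) S hS (by
    intro j
    by_cases hj : j ∈ Finset.univ.map f
    · obtain ⟨i, -, rfl⟩ := Finset.mem_map.1 hj
      rw [hf]
      exact hsS i
    · rw [h0 j hj, Int.cast_zero, abs_zero]
      linarith)
  have h2 : ∑ j, ((Function.extend f s 0 j : ℤ) : ℂ) * x j = ∑ i, (s i : ℂ) * x (f i) := by
    rw [← Finset.sum_subset (Finset.subset_univ (Finset.univ.map f)), Finset.sum_map]
    · refine Finset.sum_congr rfl fun i _ => ?_
      rw [hf]
    · intro j _ hj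
      rw [h0 j hj, Int.cast_zero, zero_mul]
  rwa [h2] at h1

/-- A measure of linear independence implies linear independence over `ℚ`. -/
lemma ms_li {Q n : ℕ} {x : Fin n → ℂ} (h : MS Q x) : LinearIndependent ℚ x := by
  obtain ⟨B, hB, hs⟩ := h
  rw [← LinearIndependent.iff_fractionRing ℤ ℚ, Fintype.linearIndependent_iff]
  intro g hg
  by_contra hne
  have hg0 : g ≠ 0 := by
    intro h
    apply hne
    intro i
    rw [h]
    rfl
  obtain ⟨S, hS⟩ : ∃ S : ℝ, 1 ≤ S ∧ ∀ i, |(g i : ℝ)| ≤ S := by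
    refine ⟨1 + ∑ i, |(g i : ℝ)|, ?_, ?_⟩
    · have : 0 ≤ ∑ i, |(g i : ℝ)| := Finset.sum_nonneg fun i _ => abs_nonneg _
      linarith
    · intro i
      have := Finset.single_le_sum (f := fun i => |(g i : ℝ)|) (fun i _ => abs_nonneg _)
        (Finset.mem_univ i)
      linarith
  have h1 := hs g hg0 S hS.1 hS.2
  have h2 : ∑ i, (g i : ℂ) * x i = 0 := by
    rw [← hg]
    refine Finset.sum_congr rfl fun i _ => ?_
    rw [zsmul_eq_mul]
  rw [h2, norm_zero] at h1
  exact absurd h1 (not_le.2 (Real.exp_pos _))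

lemma sli_ne {m : ℕ} {a : Fin m → ℂ} (h : SLI a) (j : Fin m) : a j ≠ 0 := by
  classical
  intro h0
  have h1 := h Complex.I (by simp) (Pi.single j 1) (by
    intro i
    by_cases hi : i = j
    · subst hi
      rw [Pi.single_eq_same]
      exact ⟨1, one_ne_zero, mem_Lam.2 ⟨1, 0, by push_cast; ring⟩,
        mem_Lam.2 ⟨0, 1, by push_cast; ring⟩⟩
    · rw [Pi.single_eq_of_ne hi]
      exact ⟨1, one_ne_zero, mem_Lam.2 ⟨0, 0, by push_cast; ring⟩,
        mem_Lam.2 ⟨0, 0, by push_cast; ring⟩⟩) (by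
    rw [Finset.sum_eq_single j]
    · rw [h0, mul_zero]
    · intro i _ hi
      rw [Pi.single_eq_of_ne hi, zero_mul]
    · intro hj
      exact absurd (Finset.mem_univ j) hj)
  have h2 := congrFun h1 j
  rw [Pi.single_eq_same] at h2
  exact one_ne_zero h2

end I_FRPV

open I_FRPV in
theorem FRPV_pf (h1 : S_FRPG) (h2 : S_NoSmallCV) : S_FRPV := by
  intro Q Q' N s n ρ Δ
  obtain ⟨n₁, hn₁⟩ := h2 Q Q' (N + s + 2 * n + ρ + 2)
  obtain ⟨n₂, hn₂⟩ := h1 N s n ρ Δ
  refine ⟨n₁ + n₂, ?_⟩
  intro τ μ a x hFT hSLI hMS D e he hmem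
  have hD : n₁ + n₂ ≤ D := by
    classical
    have hx := ms_li hMS
    have hy : LinearIndependent ℚ (fun i => a 0 * x i) := by
      rw [Fintype.linearIndependent_iff] at hx ⊢
      intro g hg
      refine hx g ?_
      have h3 : a 0 * ∑ i, g i • x i = 0 := by
        rw [← hg, Finset.mul_sum]
        refine Finset.sum_congr rfl fun i _ => ?_
        rw [mul_smul_comm]
      exact (mul_eq_zero.1 h3).resolve_left (sli_ne hSLI 0)
    have h3 := linearIndependent_le_span' (fun i => a 0 * x i) hy (Set.range e) (by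
      rintro _ ⟨i, rfl⟩
      exact hmem 0 i)
    rw [Cardinal.mk_fintype, Fintype.card_fin] at h3
    have h4 : n₁ + n₂ ≤ Fintype.card (Set.range e) := by exact_mod_cast h3
    refine h4.trans ?_
    rw [Set.card_range_of_injective he.injective, Fintype.card_fin]
  refine hn₂ τ μ D (by omega) e he ?_
  intro E hKE hEN
  exact hn₁ a (fun i => x (Fin.castLEEmb (Nat.le_add_right n₁ n₂) i)) hFT hSLI
    (ms_comp hMS (Fin.castLEEmb (Nat.le_add_right n₁ n₂)))
    (Submodule.span ℚ (Set.range e)) (fun l i => hmem l _) τ μ n E hKE.acl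
    (fun hn => (hKE.ell hn).1) hEN

end Pool.Agent.Work.MP_8da9ea_nt.FR
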