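import Pool.Agent.Work.MP_8da9ea_nt.FR.StmtsK
import Pool.Agent.Work.MP_8da9ea_nt.FR.I_FRPV

/-!
# Block FR, part K, item K11: `NoSmallV` for all subspaces of bounded codimension
-/

set_option autoImplicit false

namespace Pool.Agent.Work.MP_8da9ea_nt.FR

open MvPolynomial Metric Filter Topology Pool.Agent.Work.MP_327059_nt.GL
  Pool.Agent.Work.MP_8da9ea_nt.S Pool.Agent.Work.MP_8da9ea_nt.EB Pool.Agent.Work.MP_8da9ea_nt.EC

namespace I_NoSmallVK

/-- A measure of linear independence passes to independent families of integral combinations. -/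
lemma ms_cmb {Q n n' : ℕ} {x : Fin n → ℂ} (h : MS Q x) (g : Fin n' → Fin n → ℤ)
    (hg : LinearIndependent ℚ (fun i => cmb (g i) x)) : MS Q (fun i => cmb (g i) x) := by
  classical
  obtain ⟨B, hB, hs⟩ := h
  set G : ℝ := 1 + ∑ i, ∑ j, |(g i j : ℝ)| with hG
  have hG1 : 1 ≤ G := by
    have : 0 ≤ ∑ i, ∑ j, |(g i j : ℝ)| :=
      Finset.sum_nonneg fun i _ => Finset.sum_nonneg fun j _ => abs_nonneg _
    linarith
  have hGj : ∀ j, ∑ i, |(g i j : ℝ)| ≤ G := by
    intro j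
    have h1 : ∑ i, |(g i j : ℝ)| ≤ ∑ i, ∑ j, |(g i j : ℝ)| :=
      Finset.sum_le_sum fun i _ => Finset.single_le_sum (f := fun j => |(g i j : ℝ)|)
        (fun _ _ => abs_nonneg _) (Finset.mem_univ j)
    linarith
  refine ⟨B * G ^ Q, ?_, ?_⟩
  · have h1 : 1 ≤ G ^ Q := one_le_pow₀ hG1
    nlinarith
  intro s hs0 S hS hsS
  have hsum : ∑ j, ((∑ i, s i * g i j : ℤ) : ℂ) * x j = ∑ i, (s i : ℂ) * cmb (g i) x := by
    unfold cmb
    simp_rw [Finset.mul_sum, Int.cast_sum, Finset.sum_mul, Int.cast_mul]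
    rw [Finset.sum_comm]
    exact Finset.sum_congr rfl fun i _ => Finset.sum_congr rfl fun j _ => by ring
  have hne : (fun j => ∑ i, s i * g i j) ≠ (0 : Fin n → ℤ) := by
    intro h0
    have h1 : ∑ i, (s i : ℂ) * cmb (g i) x = 0 := by
      rw [← hsum]
      refine Finset.sum_eq_zero fun j _ => ?_
      have := congrFun h0 j
      simp only [Pi.zero_apply] at this
      rw [this, Int.cast_zero, zero_mul]
    rw [Fintype.linearIndependent_iff] at hg
    apply hs0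
    funext i
    have h2 := hg (fun i => (s i : ℚ)) (by
      rw [← h1]
      refine Finset.sum_congr rfl fun i _ => ?_
      rw [Rat.smul_def]
      push_cast
      rfl) i
    exact_mod_cast h2
  have h1 := hs _ hne (G * S) (by nlinarith) (by
    intro j
    push_cast
    calc |∑ i, (s i : ℝ) * (g i j : ℝ)| ≤ ∑ i, |(s i : ℝ) * (g i j : ℝ)| :=
          Finset.abs_sum_le_sum_abs _ _
      _ = ∑ i, |(s i : ℝ)| * |(g i j : ℝ)| := Finset.sum_congr rfl fun i _ => abs_mul _ _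
      _ ≤ ∑ i, S * |(g i j : ℝ)| := Finset.sum_le_sum fun i _ =>
          mul_le_mul_of_nonneg_right (hsS i) (abs_nonneg _)
      _ = S * ∑ i, |(g i j : ℝ)| := by rw [Finset.mul_sum]
      _ ≤ S * G := mul_le_mul_of_nonneg_left (hGj j) (by linarith)
      _ = G * S := mul_comm _ _)
  rw [hsum] at h1
  have h2 : B * G ^ Q * S ^ Q = B * (G * S) ^ Q := by rw [mul_pow]; ring
  rw [h2]
  exact h1

end I_NoSmallVK

open I_NoSmallVK in
/-- **K11** -/
theorem NoSmallVK_pf (h1 : S_NoSmallCV) (h2 : S_PrdSub) : S_NoSmallVK := by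
  intro Q Q' M κ
  obtain ⟨n₀, hn₀⟩ := h1 Q Q' M
  refine ⟨n₀ + κ * M, ?_⟩
  intro a x hFT hSLI hMS V hV hax τ μ n E hE hGF htr V' hle hfr
  obtain ⟨g, hg, hmem⟩ := h2 M n₀ κ a x (I_FRPV.ms_li hMS) V V' hV hle hfr hax
  exact hn₀ a (fun i => cmb (g i) x) hFT hSLI (ms_cmb hMS g hg) V' hmem τ μ n E hE hGF htr

end Pool.Agent.Work.MP_8da9ea_nt.FR
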