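import Pool.Agent.Work.MP_8da9ea_nt.FR.StmtsP
import Pool.Agent.Work.MP_8da9ea_nt.FR.I_NoSmallV
import Pool.Agent.Work.MP_8da9ea_nt.FR.I_NoSmallC
import Pool.Agent.Work.MP_8da9ea_nt.FR.I_NoSmallVK

/-!
# Item P10: `NoSmall` for a product set and every lattice
-/

set_option autoImplicit false

namespace Pool.Agent.Work.MP_8da9ea_nt.FR

open MvPolynomial Pool.Agent.Work.MP_327059_nt.GL Pool.Agent.Work.MP_8da9ea_nt.S
  Pool.Agent.Work.MP_8da9ea_nt.EB

namespace I_NoSmallCV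

/-- A measure of linear independence passes to a multiple. -/
theorem ms_mul {Q n : ℕ} {x : Fin n → ℂ} (h : MS Q x) {y : ℂ} (hy : y ≠ 0) :
    MS Q (fun i => y * x i) := by
  obtain ⟨B, hB, h⟩ := h
  refine ⟨B + |Real.log ‖y‖|, by have := abs_nonneg (Real.log ‖y‖); linarith, ?_⟩
  intro s hs S hS hb
  have hsum : ∑ i, (s i : ℂ) * (y * x i) = y * ∑ i, (s i : ℂ) * x i := by
    rw [Finset.mul_sum]
    exact Finset.sum_congr rfl fun i _ => by ring
  rw [hsum, norm_mul]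
  have hx : 0 < ‖y‖ := norm_pos_iff.2 hy
  have h1 := h s hs S hS hb
  have hSQ : 1 ≤ S ^ Q := one_le_pow₀ hS
  have h4 : Real.exp (-(|Real.log ‖y‖| * S ^ Q)) ≤ ‖y‖ := by
    calc Real.exp (-(|Real.log ‖y‖| * S ^ Q)) ≤ Real.exp (Real.log ‖y‖) := by
          apply Real.exp_le_exp.2
          have h5 := neg_abs_le (Real.log ‖y‖)
          have h6 := abs_nonneg (Real.log ‖y‖)
          nlinarith
      _ = ‖y‖ := Real.exp_log hx
  calc Real.exp (-((B + |Real.log ‖y‖|) * S ^ Q))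
      = Real.exp (-(|Real.log ‖y‖| * S ^ Q)) * Real.exp (-(B * S ^ Q)) := by
        rw [← Real.exp_add]
        congr 1
        ring
    _ ≤ _ := mul_le_mul h4 h1 (Real.exp_pos _).le (norm_nonneg _)

end I_NoSmallCV

open I_NoSmallV I_NoSmallC I_NoSmallCV in
/-- **P10** -/
theorem NoSmallCV_pf (h1 : S_TIV) : S_NoSmallCV := by
  classical
  intro Q Q' M
  obtain ⟨n₁, h₁⟩ := x_TIX Q M
  have h2' : ∃ n₂ : ℕ, 2 ≤ M → ∀ (τ μ : ℂ), 0 < τ.im → μ ≠ 0 →
    ∀ b : Fin M → ℂ, FT Q b → SLI b → ∀ n : ℕ, n₂ ≤ n → ∀ x : Fin n → ℂ, MS Q' x → NT τ b x →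
      ¬ TrLe (M - 2) (ptE τ μ (fun i j => b j * x i)) := by
    by_cases hM : 2 ≤ M
    · obtain ⟨n₂, h⟩ := h1 Q Q' M hM
      exact ⟨n₂, fun _ => h⟩
    · exact ⟨0, fun h => absurd h hM⟩
  obtain ⟨n₂, h₂⟩ := h2'
  refine ⟨n₁ + n₂ + 2 * M, ?_⟩
  intro a x hFT hSLI hMS V hV τ μ n E hACl hn hE y hy
  have hM : 2 ≤ M := by
    by_contra hM
    have h0 : 0 = M - 1 := by omega
    refine hE (I_NoSmallV.trdeg_of h0 E Fin.elim0 (fun j => j.elim0) ?_)
    rw [algebraicIndependent_empty_type_iff]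
    exact (algebraMap ℚ ℂ).injective
  have hI : 0 < (Complex.I).im := by simp
  have hli : LinearIndependent ℚ a := I_GCoreE0.lin_of_kli a (hSLI Complex.I hI)
  have hx : LinearIndependent ℚ x := I_FRPV.ms_li hMS
  have hx' : LinearIndependent ℚ (fun i => y * x i) := li_mul hx hy
  refine ⟨?_, ?_⟩
  · by_contra hne
    push Not at hne
    obtain ⟨-, s, hs⟩ := h₁ a hFT hli (n₁ + n₂ + 2 * M) (by omega) _ hx'
    refine hE ⟨_, fun i => ?_, hs⟩
    have h3 : a (s i).2 * (y * x (s i).1) = (a (s i).2 * x (s i).1) * y := by ring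
    rw [h3]
    exact hne _ (hV _ _)
  · intro h0n
    have hG := hn h0n
    by_contra hne
    push Not at hne
    obtain ⟨n', g, hn', hg, hNT⟩ := RedNT_pf τ M (n₁ + n₂ + 2 * M) a (fun i => y * x i) hG.im
      (fun j => I_NoSmallV.ne_zero (hSLI τ hG.im) j) hx'
    have hMS' := I_NoSmallVK.ms_cmb (ms_mul hMS hy) g hg
    have h3 := h₂ hM τ μ hG.im hG.mu a hFT hSLI n' (by omega) _ hMS' hNT
    unfold TrLe at h3
    push Not at h3
    obtain ⟨s, hs⟩ := h3
    have hX : ∀ i j, a j * cmb (g i) (fun i => y * x i) ∉ Lam τ ∧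
        xe τ μ (a j * cmb (g i) (fun i => y * x i)) ∈ E := by
      intro i j
      have h4 := hNT (Pi.single i 1) (by
        intro h
        have := congrFun h i
        rw [Pi.single_eq_same, Pi.zero_apply] at this
        exact one_ne_zero this) j
      rw [I_GCoreE0.cmb_single, Int.cast_one, one_mul] at h4
      have h5 : a j * cmb (g i) (fun i => y * x i) = (a j * cmb (g i) x) * y := by
        rw [I_NoSmallC.cmb_mul]
        ring
      refine ⟨h4, ?_⟩
      have h6 := hne (a j * cmb (g i) x) (mul_cmb_mem V _ x (hV _) _) (by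
        rw [← h5]
        exact h4)
      rw [← h5] at h6
      exact h6
    refine hE (I_NoSmallV.trdeg_of (by omega) E _ (fun i => ?_) hs)
    rcases s i with q | ⟨k, j, c⟩
    · show (if q = 0 then μ ^ 4 * gg2 τ else μ ^ 6 * gg3 τ) ∈ E
      split_ifs
      · exact hG.g2
      · exact hG.g3
    · show (if c then ye τ μ (a j * cmb (g k) (fun i => y * x i)) else
        xe τ μ (a j * cmb (g k) (fun i => y * x i))) ∈ E
      split_ifs
      · exact ye_mem hACl hG (hX k j).1 (hX k j).2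
      · exact (hX k j).2

end Pool.Agent.Work.MP_8da9ea_nt.FR
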