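import Pool.Agent.Work.MP_8da9ea_nt.FR.StmtsK

/-!
# Item K10: subspaces of small codimension
-/

set_option autoImplicit false

namespace Pool.Agent.Work.MP_8da9ea_nt.FR

open MvPolynomial Pool.Agent.Work.MP_327059_nt.GL Pool.Agent.Work.MP_8da9ea_nt.S
  Pool.Agent.Work.MP_8da9ea_nt.EB

/-- **K10** -/
theorem NoSmallK_pf (h1 : S_NoSmallC) (h2 : S_PrdSub) : S_NoSmallK := by
  intro Q M κ
  obtain ⟨n₁, hn₁⟩ := h1 Q M
  refine ⟨n₁ + κ * M, ?_⟩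
  intro a x hFT ha hx V hV haV τ μ n hn E hE V' hV' hfin
  haveI := hV
  obtain ⟨g, hg, hgV⟩ := h2 M n₁ κ a x hx V V' hV hV' hfin haV
  exact hn₁ a (fun i => cmb (g i) x) hFT ha hg V' hgV τ μ n hn E hE

end Pool.Agent.Work.MP_8da9ea_nt.FR
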