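import Pool.Agent.Work.MP_8da9ea_nt.FR.Stmts

/-!
# Perturbation at a point of maximal rank
-/

set_option autoImplicit false

namespace Pool.Agent.Work.MP_8da9ea_nt.FR

namespace I_Pert

open Polynomial in
/-- The rows of `1 + c N` are independent for some rational `c ≠ 0`. -/
lemma exists_rat {ι : Type} [Fintype ι] [DecidableEq ι] (N : Matrix ι ι ℂ) :
    ∃ c : ℚ, c ≠ 0 ∧ (1 + (c : ℂ) • N).det ≠ 0 := by
  let p : ℂ[X] := (1 + (X : ℂ[X]) • N.map C).det
  have hp : ∀ x : ℂ, p.eval x = (1 + x • N).det := by
    intro x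
    have h1 : p.eval x = (evalRingHom x) p := rfl
    rw [h1, RingHom.map_det]
    congr 1
    ext i j
    simp [Matrix.one_apply]
    split_ifs
    · simp
      ring
    · simp
      ring
  have hp0 : p ≠ 0 := by
    intro h
    have h1 := hp 0
    rw [h] at h1
    simp at h1
  by_contra hcon
  push Not at hcon
  have hq : p * X = 0 := by
    refine eq_zero_of_infinite_isRoot _ ?_
    refine (Set.infinite_range_of_injective (f := fun c : ℚ => (c : ℂ))
      Rat.cast_injective).mono ?_
    rintro _ ⟨c, rfl⟩
    change IsRoot _ _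
    rw [IsRoot.def, eval_mul, eval_X]
    by_cases hc : c = 0
    · subst hc
      simp
    · rw [hp, hcon c hc, zero_mul]
  rcases mul_eq_zero.mp hq with h | h
  · exact hp0 h
  · exact X_ne_zero h

end I_Pert

theorem Pert_pf : S_Pert := by
  intro T W S _ _ _ _ _ om hadd hsmul z hmax κ hκ w δ₀ hz
  by_contra hne
  let b := Module.finBasis ℂ (LinearMap.range (om z))
  have hb : ∀ i, ∃ δ, om z δ = (b i : S → ℂ) := fun i => (b i).2
  choose δ hδ using hb
  -- the independent family
  let f : Option (Fin (Module.finrank ℂ (LinearMap.range (om z)))) → S → ℂ :=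
    fun o => o.elim (om w δ₀) (fun i => om z (δ i))
  let g : Option (Fin (Module.finrank ℂ (LinearMap.range (om z)))) → S → ℂ :=
    fun o => o.elim 0 (fun i => om w (δ i))
  have hf : LinearIndependent ℂ f := by
    have h1 : LinearIndependent ℂ (fun i => om z (δ i)) := by
      have h2 : (fun i => om z (δ i)) = (Submodule.subtype _) ∘ b := by
        funext i
        exact hδ i
      rw [h2]
      exact b.linearIndependent.map' _ (Submodule.ker_subtype _)
    have h2 : om w δ₀ ∉ Submodule.span ℂ (Set.range fun i => om z (δ i)) := by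
      intro h3
      let ev : (S → ℂ) →ₗ[ℂ] ℂ := ∑ o, κ o • LinearMap.proj o
      have hev : ∀ v : S → ℂ, ev v = ∑ o, κ o * v o := by
        intro v
        simp [ev, LinearMap.sum_apply]
      have h4 : Submodule.span ℂ (Set.range fun i => om z (δ i)) ≤ LinearMap.ker ev := by
        rw [Submodule.span_le]
        rintro _ ⟨i, rfl⟩
        rw [SetLike.mem_coe, LinearMap.mem_ker, hev]
        exact hκ (δ i)
      have h5 := h4 h3
      rw [LinearMap.mem_ker, hev] at h5
      exact hne h5
    exact linearIndependent_option.mpr ⟨h1, h2⟩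
  have hinj : LinearMap.ker (Finsupp.linearCombination ℂ f) = ⊥ :=
    linearIndependent_iff_ker.mp hf
  obtain ⟨φ, hφ⟩ := LinearMap.exists_leftInverse_of_injective _ hinj
  have hφf : ∀ i, φ (f i) = Finsupp.single i 1 := by
    intro i
    have h1 := LinearMap.congr_fun hφ (Finsupp.single i 1)
    rw [LinearMap.comp_apply, Finsupp.linearCombination_single, one_smul] at h1
    exact h1
  let N : Matrix (Option (Fin (Module.finrank ℂ (LinearMap.range (om z)))))
    (Option (Fin (Module.finrank ℂ (LinearMap.range (om z))))) ℂ := fun i j => φ (g i) j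
  obtain ⟨c, hc, hdet⟩ := I_Pert.exists_rat N
  have hrow := Matrix.linearIndependent_rows_of_det_ne_zero hdet
  have hfc : LinearIndependent ℂ (fun i => f i + (c : ℂ) • g i) := by
    refine LinearIndependent.of_comp ((Finsupp.lcoeFun : _ →ₗ[ℂ] _).comp φ) ?_
    have e : ((Finsupp.lcoeFun : _ →ₗ[ℂ] _).comp φ) ∘ (fun i => f i + (c : ℂ) • g i) =
        fun i => (1 + (c : ℂ) • N) i := by
      funext i j
      simp only [Function.comp_apply, LinearMap.comp_apply, map_add, map_smul, hφf]
      simp [N, Finsupp.single_apply, Matrix.one_apply, Finsupp.lcoeFun]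
    rw [e]
    exact hrow
  have homc : ∀ δ, om (z + c • w) δ = om z δ + (c : ℂ) • om w δ := by
    intro δ
    rw [hadd, hsmul]
    rfl
  have hmem : ∀ i, f i + (c : ℂ) • g i ∈ LinearMap.range (om (z + c • w)) := by
    rintro (_ | i)
    · refine ⟨(c : ℂ)⁻¹ • δ₀, ?_⟩
      rw [map_smul, homc, hz, zero_add, smul_smul, inv_mul_cancel₀ (by exact_mod_cast hc),
        one_smul]
      simp [f, g]
    · exact ⟨δ i, homc (δ i)⟩
  have hind : LinearIndependent ℂ (fun i => (⟨f i + (c : ℂ) • g i, hmem i⟩ :
      LinearMap.range (om (z + c • w)))) :=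
    LinearIndependent.of_comp (Submodule.subtype _) hfc
  have h1 := hind.fintype_card_le_finrank
  have h2 := hmax (z + c • w)
  rw [Fintype.card_option, Fintype.card_fin] at h1
  omega

end Pool.Agent.Work.MP_8da9ea_nt.FR
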