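import Pool.Agent.Work.MP_8da9ea_nt.FR.StmtsP

/-!
# Perturbation along a polynomial curve at a point of maximal rank
-/

set_option autoImplicit false

namespace Pool.Agent.Work.MP_8da9ea_nt.FR

namespace I_PertP

open Polynomial in
/-- The rows of `1 + c N_0 + c² N_1 + …` are independent for some rational `c ≠ 0`. -/
lemma exists_rat {ι : Type} [Fintype ι] [DecidableEq ι] (m : ℕ) (N : ℕ → Matrix ι ι ℂ) :
    ∃ c : ℚ, c ≠ 0 ∧ (1 + ∑ k ∈ Finset.range m, (c : ℂ) ^ (k + 1) • N k).det ≠ 0 := by
  let p : ℂ[X] := (1 + ∑ k ∈ Finset.range m, (X : ℂ[X]) ^ (k + 1) • (N k).map C).det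
  have hp : ∀ x : ℂ, p.eval x = (1 + ∑ k ∈ Finset.range m, x ^ (k + 1) • N k).det := by
    intro x
    have h1 : p.eval x = (evalRingHom x) p := rfl
    rw [h1, RingHom.map_det]
    congr 1
    ext i j
    simp only [RingHom.mapMatrix_apply, Matrix.map_apply, Matrix.add_apply, Matrix.sum_apply,
      Matrix.smul_apply, map_add, map_sum, coe_evalRingHom, smul_eq_mul, eval_mul, eval_pow,
      eval_X, eval_C]
    congr 1
    simp only [Matrix.one_apply]
    split_ifs <;> simp
  have hp0 : p ≠ 0 := by
    intro h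
    have h1 := hp 0
    rw [h] at h1
    simp at h1
  by_contra hcon
  push Not at hcon
  have hq : p * X = 0 := by
    refine eq_zero_of_infinite_isRoot _ ?_
    refine (Set.infinite_range_of_injective (f := fun c : ℚ => (c : ℂ))
      Rat.cast_injective).mono ?_
    rintro _ ⟨c, rfl⟩
    change IsRoot _ _
    rw [IsRoot.def, eval_mul, eval_X]
    by_cases hc : c = 0
    · subst hc
      simp
    · rw [hp, hcon c hc, zero_mul]
  rcases mul_eq_zero.mp hq with h | h
  · exact hp0 h
  · exact X_ne_zero h

end I_PertP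

theorem PertP_pf : S_PertP := by
  intro T W S _ _ _ _ _ om hadd hsmul d w hmax κ hκ δ₀ hz
  by_contra hne
  let b := Module.finBasis ℂ (LinearMap.range (om (w 0)))
  have hb : ∀ i, ∃ δ, om (w 0) δ = (b i : S → ℂ) := fun i => (b i).2
  choose δ hδ using hb
  -- the independent family
  let f : Option (Fin (Module.finrank ℂ (LinearMap.range (om (w 0))))) → S → ℂ :=
    fun o => o.elim (om (w 1) δ₀) (fun i => om (w 0) (δ i))
  let g : ℕ → Option (Fin (Module.finrank ℂ (LinearMap.range (om (w 0))))) → S → ℂ :=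
    fun k o => o.elim (if k < d then om (w (k + 2)) δ₀ else 0) (fun i => om (w (k + 1)) (δ i))
  have hf : LinearIndependent ℂ f := by
    have h1 : LinearIndependent ℂ (fun i => om (w 0) (δ i)) := by
      have h2 : (fun i => om (w 0) (δ i)) = (Submodule.subtype _) ∘ b := by
        funext i
        exact hδ i
      rw [h2]
      exact b.linearIndependent.map' _ (Submodule.ker_subtype _)
    have h2 : om (w 1) δ₀ ∉ Submodule.span ℂ (Set.range fun i => om (w 0) (δ i)) := by
      intro h3
      let ev : (S → ℂ) →ₗ[ℂ] ℂ := ∑ o, κ o • LinearMap.proj o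
      have hev : ∀ v : S → ℂ, ev v = ∑ o, κ o * v o := by
        intro v
        simp [ev, LinearMap.sum_apply]
      have h4 : Submodule.span ℂ (Set.range fun i => om (w 0) (δ i)) ≤ LinearMap.ker ev := by
        rw [Submodule.span_le]
        rintro _ ⟨i, rfl⟩
        rw [SetLike.mem_coe, LinearMap.mem_ker, hev]
        exact hκ (δ i)
      have h5 := h4 h3
      rw [LinearMap.mem_ker, hev] at h5
      exact hne h5
    exact linearIndependent_option.mpr ⟨h1, h2⟩
  have hinj : LinearMap.ker (Finsupp.linearCombination ℂ f) = ⊥ :=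
    linearIndependent_iff_ker.mp hf
  obtain ⟨φ, hφ⟩ := LinearMap.exists_leftInverse_of_injective _ hinj
  have hφf : ∀ i, φ (f i) = Finsupp.single i 1 := by
    intro i
    have h1 := LinearMap.congr_fun hφ (Finsupp.single i 1)
    rw [LinearMap.comp_apply, Finsupp.linearCombination_single, one_smul] at h1
    exact h1
  let N : ℕ → Matrix (Option (Fin (Module.finrank ℂ (LinearMap.range (om (w 0))))))
    (Option (Fin (Module.finrank ℂ (LinearMap.range (om (w 0)))))) ℂ :=
    fun k i j => φ (g k i) j
  obtain ⟨c, hc, hdet⟩ := I_PertP.exists_rat (d + 1) N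
  have hrow := Matrix.linearIndependent_rows_of_det_ne_zero hdet
  have hfc : LinearIndependent ℂ
      (fun i => f i + ∑ k ∈ Finset.range (d + 1), (c : ℂ) ^ (k + 1) • g k i) := by
    refine LinearIndependent.of_comp ((Finsupp.lcoeFun : _ →ₗ[ℂ] _).comp φ) ?_
    have e : ((Finsupp.lcoeFun : _ →ₗ[ℂ] _).comp φ) ∘
        (fun i => f i + ∑ k ∈ Finset.range (d + 1), (c : ℂ) ^ (k + 1) • g k i) =
        fun i => (1 + ∑ k ∈ Finset.range (d + 1), (c : ℂ) ^ (k + 1) • N k) i := by
      funext i j
      simp only [Function.comp_apply, LinearMap.comp_apply, map_add, map_sum, map_smul, hφf]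
      simp [N, Finsupp.single_apply, Matrix.one_apply, Finsupp.lcoeFun, Matrix.sum_apply]
    rw [e]
    exact hrow
  have hom0 : om 0 = 0 := by
    have h := hsmul 0 0
    simpa using h
  have hsum : ∀ (s : Finset ℕ) (x : ℕ → W), om (∑ k ∈ s, x k) = ∑ k ∈ s, om (x k) := by
    intro s x
    classical
    induction s using Finset.induction_on with
    | empty => simpa using hom0
    | insert a s ha ih => rw [Finset.sum_insert ha, Finset.sum_insert ha, hadd, ih]
  have homc : ∀ δ, om (∑ k ∈ Finset.range (d + 2), c ^ k • w k) δ =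
      om (w 0) δ + ∑ k ∈ Finset.range (d + 1), (c : ℂ) ^ (k + 1) • om (w (k + 1)) δ := by
    intro δ
    rw [hsum, LinearMap.sum_apply, Finset.sum_range_succ', add_comm]
    congr 1
    · rw [hsmul]
      simp
    · refine Finset.sum_congr rfl fun k _ => ?_
      rw [hsmul, LinearMap.smul_apply, Rat.cast_pow]
  have hmem : ∀ i, f i + ∑ k ∈ Finset.range (d + 1), (c : ℂ) ^ (k + 1) • g k i ∈
      LinearMap.range (om (∑ k ∈ Finset.range (d + 2), c ^ k • w k)) := by
    have hc' : (c : ℂ) ≠ 0 := by exact_mod_cast hc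
    rintro (_ | i)
    · refine ⟨(c : ℂ)⁻¹ • δ₀, ?_⟩
      rw [map_smul, homc, hz, zero_add, Finset.smul_sum, Finset.sum_range_succ', add_comm,
        Finset.sum_range_succ]
      have h1 : g d none = 0 := by simp [g]
      rw [h1, smul_zero, add_zero]
      congr 1
      · simp [f, hc']
      · refine Finset.sum_congr rfl fun k hk => ?_
        have h2 : g k none = om (w (k + 2)) δ₀ := by
          simp only [g, Option.elim_none]
          rw [if_pos (Finset.mem_range.mp hk)]
        rw [h2, smul_smul]
        congr 1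
        rw [pow_succ (c : ℂ) (k + 1)]
        field_simp
    · exact ⟨δ i, homc (δ i)⟩
  have hind : LinearIndependent ℂ (fun i =>
      (⟨f i + ∑ k ∈ Finset.range (d + 1), (c : ℂ) ^ (k + 1) • g k i, hmem i⟩ :
        LinearMap.range (om (∑ k ∈ Finset.range (d + 2), c ^ k • w k)))) :=
    LinearIndependent.of_comp (Submodule.subtype _) hfc
  have h1 := hind.fintype_card_le_finrank
  have h2 := hmax c
  rw [Fintype.card_option, Fintype.card_fin] at h1
  omega

end Pool.Agent.Work.MP_8da9ea_nt.FR
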