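import Pool.Agent.Work.MP_8da9ea_nt.FR.StmtsK

/-!
# Block FR, part K, item PertW: perturbation on a closed set
-/

set_option autoImplicit false

namespace Pool.Agent.Work.MP_8da9ea_nt.FR

open MvPolynomial

namespace I_PertW

/-- The derivative of a monomial. -/
theorem dmon {I : Type} [Fintype I] (z h : I → ℚ) (b : I →₀ ℕ) (c : ℂ) :
    ∑ i, (h i : ℂ) * eval (fun i => (z i : ℂ)) (pderiv i (monomial b c)) =
      ((∑ i, h i * eval z (pderiv i (monomial b (1 : ℚ))) : ℚ) : ℂ) * c := by
  push_cast
  rw [Finset.sum_mul]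
  refine Finset.sum_congr rfl fun i _ => ?_
  rw [pderiv_monomial, pderiv_monomial, eval_monomial, eval_monomial, one_mul, Finsupp.prod,
    Finsupp.prod]
  push_cast
  ring

/-- The derivative of a rational monomial. -/
theorem dmonQ {I : Type} [Fintype I] (z h : I → ℚ) (b : I →₀ ℕ) (c : ℚ) :
    ∑ i, h i * eval z (pderiv i (monomial b c)) =
      (∑ i, h i * eval z (pderiv i (monomial b (1 : ℚ)))) * c := by
  rw [Finset.sum_mul]
  refine Finset.sum_congr rfl fun i _ => ?_
  rw [pderiv_monomial, pderiv_monomial, eval_monomial, eval_monomial, one_mul]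
  ring

/-- A complex polynomial which vanishes on a dense set of rational points has zero derivative in the
tangent directions. -/
theorem vanish_d {I : Type} [Fintype I] {ξ : I → ℂ} {E' : Set (I → ℚ)} (hE : Dns ξ E')
    (F : MvPolynomial I ℂ) (hF : ∀ z ∈ E', eval (fun i => (z i : ℂ)) F = 0) (z h : I → ℚ)
    (hh : h ∈ Tz ξ z) :
    ∑ i, (h i : ℂ) * eval (fun i => (z i : ℂ)) (pderiv i F) = 0 := by
  classical
  have key : ∀ (lam : ℂ →ₗ[ℚ] ℚ) (y : I → ℚ),
      eval y (∑ b ∈ F.support, monomial b (lam (F.coeff b))) =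
        lam (eval (fun i => (y i : ℂ)) F) := by
    intro lam y
    rw [map_sum, eval_eq, map_sum]
    refine Finset.sum_congr rfl fun b _ => ?_
    rw [eval_monomial, Finsupp.prod]
    have h1 : (∏ i ∈ b.support, ((y i : ℚ) : ℂ) ^ b i) =
        ((∏ i ∈ b.support, y i ^ b i : ℚ) : ℂ) := by
      push_cast
      rfl
    rw [h1, mul_comm (F.coeff b)]
    have h2 := map_smul lam (∏ i ∈ b.support, y i ^ b i) (F.coeff b)
    rw [Rat.smul_def, smul_eq_mul] at h2
    rw [h2, mul_comm]
  have hsumC : ∑ i, (h i : ℂ) * eval (fun i => (z i : ℂ)) (pderiv i F) =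
      ∑ b ∈ F.support, ((∑ i, h i * eval z (pderiv i (monomial b (1 : ℚ))) : ℚ) : ℂ) *
        F.coeff b := by
    conv_lhs => rw [F.as_sum]
    simp_rw [map_sum, Finset.mul_sum]
    rw [Finset.sum_comm]
    refine Finset.sum_congr rfl fun b _ => ?_
    exact dmon z h b _
  have hsumQ : ∀ lam : ℂ →ₗ[ℚ] ℚ,
      ∑ i, h i * eval z (pderiv i (∑ b ∈ F.support, monomial b (lam (F.coeff b)))) =
      ∑ b ∈ F.support, (∑ i, h i * eval z (pderiv i (monomial b (1 : ℚ)))) *
        lam (F.coeff b) := by
    intro lam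
    simp_rw [map_sum, Finset.mul_sum]
    rw [Finset.sum_comm]
    refine Finset.sum_congr rfl fun b _ => ?_
    exact dmonQ z h b _
  refine (Module.forall_dual_apply_eq_zero_iff ℚ _).mp fun lam => ?_
  have h0 : ∑ i, h i * eval z (pderiv i (∑ b ∈ F.support, monomial b (lam (F.coeff b)))) = 0 := by
    refine hh _ (hE.2 _ fun y hy => ?_)
    rw [key lam y, hF y hy, map_zero]
  rw [hsumQ lam] at h0
  rw [hsumC, map_sum, ← h0]
  refine Finset.sum_congr rfl fun b _ => ?_
  have h2 := map_smul lam (∑ i, h i * eval z (pderiv i (monomial b (1 : ℚ)))) (F.coeff b)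
  rw [Rat.smul_def, smul_eq_mul] at h2
  exact h2

/-- Evaluation in the dual numbers. -/
noncomputable def ev {I : Type} (z h : I → ℂ) : MvPolynomial I ℂ →+* DualNumber ℂ :=
  eval₂Hom (TrivSqZeroExt.inlHom ℂ ℂ) (fun i => TrivSqZeroExt.inl (z i) + TrivSqZeroExt.inr (h i))

theorem ev_eq {I : Type} [Fintype I] (z h : I → ℂ) (F : MvPolynomial I ℂ) :
    (ev z h F).fst = eval z F ∧ (ev z h F).snd = ∑ i, h i * eval z (pderiv i F) := by
  classical
  induction F using MvPolynomial.induction_on with
  | C a =>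
    constructor
    · simp [ev]
    · simp [ev]
  | add p q hp hq =>
    constructor
    · rw [map_add, TrivSqZeroExt.fst_add, hp.1, hq.1, map_add]
    · rw [map_add, TrivSqZeroExt.snd_add, hp.2, hq.2]
      simp only [map_add, mul_add, Finset.sum_add_distrib]
  | mul_X p j hp =>
    have hX : ev z h (X j) = TrivSqZeroExt.inl (z j) + TrivSqZeroExt.inr (h j) := by
      simp [ev]
    constructor
    · rw [map_mul, TrivSqZeroExt.fst_mul, hp.1, hX]
      simp
    · rw [map_mul, TrivSqZeroExt.snd_mul, hp.1, hp.2, hX]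
      simp only [TrivSqZeroExt.snd_add, TrivSqZeroExt.snd_inl, TrivSqZeroExt.snd_inr, zero_add,
        TrivSqZeroExt.fst_add, TrivSqZeroExt.fst_inl, TrivSqZeroExt.fst_inr, add_zero,
        smul_eq_mul, MulOpposite.smul_eq_mul_unop, MulOpposite.unop_op, pderiv_mul, map_add,
        map_mul, eval_X, mul_add, Finset.sum_add_distrib]
      have h1 : ∑ i, h i * (eval z p * eval z (pderiv i (X j))) = eval z p * h j := by
        rw [Finset.sum_eq_single j]
        · rw [pderiv_X_self, map_one]
          ring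
        · intro i _ hij
          rw [pderiv_X_of_ne (Ne.symm hij), map_zero]
          ring
        · intro hj
          exact absurd (Finset.mem_univ j) hj
      rw [h1, add_comm, Finset.sum_mul]
      congr 1
      refine Finset.sum_congr rfl fun i _ => ?_
      ring

/-- The linear part of a determinant with one row vanishing at the point. -/
theorem det_d {ι : Type} [Fintype ι] [DecidableEq ι] (o : ι) (A : Matrix ι ι (DualNumber ℂ))
    (h0 : ∀ j, A o j = TrivSqZeroExt.inr (if j = o then 1 else 0))
    (h1 : ∀ i, i ≠ o → ∀ j, (A i j).fst = if j = i then 1 else 0) : (A.det).snd = 1 := by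
  let B : Matrix ι ι (DualNumber ℂ) := A.updateRow o (fun j => if j = o then 1 else 0)
  have hA : A = A.updateRow o ((DualNumber.eps : DualNumber ℂ) •
      (fun j => if j = o then (1 : DualNumber ℂ) else 0)) := by
    ext1 i j
    by_cases hi : i = o
    · subst hi
      rw [Matrix.updateRow_self, h0, Pi.smul_apply, smul_eq_mul]
      by_cases hj : j = i
      · rw [if_pos hj, if_pos hj, mul_one]
        rfl
      · rw [if_neg hj, if_neg hj, mul_zero]
        simp
    · rw [Matrix.updateRow_ne hi]
  have hdet : A.det = (DualNumber.eps : DualNumber ℂ) * B.det := by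
    conv_lhs => rw [hA]
    rw [Matrix.det_updateRow_smul]
  have hB : (B.det).fst = 1 := by
    have e : (B.det).fst = (TrivSqZeroExt.fstHom ℂ ℂ ℂ) B.det := rfl
    rw [e, AlgHom.map_det]
    have e2 : (TrivSqZeroExt.fstHom ℂ ℂ ℂ).mapMatrix B = 1 := by
      ext i j
      rw [AlgHom.mapMatrix_apply, Matrix.map_apply, Matrix.one_apply]
      by_cases hi : i = o
      · subst hi
        have e3 : B i j = if j = i then 1 else 0 := by
          simp only [B, Matrix.updateRow_self]
        rw [e3]
        by_cases hj : j = i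
        · rw [if_pos hj, if_pos hj.symm, map_one]
        · rw [if_neg hj, if_neg (Ne.symm hj), map_zero]
      · have e3 : B i j = A i j := by
          simp only [B, Matrix.updateRow_ne hi]
        rw [e3]
        have e4 := h1 i hi j
        change (A i j).fst = _
        rw [e4]
        by_cases hj : j = i
        · rw [if_pos hj, if_pos hj.symm]
        · rw [if_neg hj, if_neg (Ne.symm hj)]
    rw [e2, Matrix.det_one]
  rw [hdet, TrivSqZeroExt.snd_mul, hB, DualNumber.fst_eps, DualNumber.snd_eps]
  simp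

end I_PertW

theorem PertW_pf : S_PertW := by
  classical
  intro I T W S _ _ _ _ _ _ om hadd hsmul Φ ξ E' hE z hmax κ hκ δ₀ hδ₀ h hh
  by_contra hne
  have hom0 : om 0 = 0 := by
    have h := hsmul 0 0
    simpa using h
  have hsum : ∀ (s : Finset (I →₀ ℕ)) (v : (I →₀ ℕ) → W), om (∑ k ∈ s, v k) = ∑ k ∈ s, om (v k) := by
    intro s v
    induction s using Finset.induction_on with
    | empty => simpa using hom0
    | insert a s ha ih => rw [Finset.sum_insert ha, Finset.sum_insert ha, hadd, ih]
  let b := Module.finBasis ℂ (LinearMap.range (om (pe Φ z)))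
  have hb : ∀ i, ∃ δ, om (pe Φ z) δ = (b i : S → ℂ) := fun i => (b i).2
  choose δ hδ using hb
  let ι := Option (Fin (Module.finrank ℂ (LinearMap.range (om (pe Φ z)))))
  let δ' : ι → T := fun o => o.elim δ₀ δ
  let f : ι → S → ℂ := fun o => o.elim (om (pd Φ z h) δ₀) (fun i => om (pe Φ z) (δ i))
  have hf : LinearIndependent ℂ f := by
    have h1 : LinearIndependent ℂ (fun i => om (pe Φ z) (δ i)) := by
      have h2 : (fun i => om (pe Φ z) (δ i)) = (Submodule.subtype _) ∘ b := by
        funext i
        exact hδ i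
      rw [h2]
      exact b.linearIndependent.map' _ (Submodule.ker_subtype _)
    have h2 : om (pd Φ z h) δ₀ ∉ Submodule.span ℂ (Set.range fun i => om (pe Φ z) (δ i)) := by
      intro h3
      let ev : (S → ℂ) →ₗ[ℂ] ℂ := ∑ o, κ o • LinearMap.proj o
      have hev : ∀ v : S → ℂ, ev v = ∑ o, κ o * v o := by
        intro v
        simp [ev, LinearMap.sum_apply]
      have h4 : Submodule.span ℂ (Set.range fun i => om (pe Φ z) (δ i)) ≤ LinearMap.ker ev := by
        rw [Submodule.span_le]
        rintro _ ⟨i, rfl⟩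
        rw [SetLike.mem_coe, LinearMap.mem_ker, hev]
        exact hκ (δ i)
      have h5 := h4 h3
      rw [LinearMap.mem_ker, hev] at h5
      exact hne h5
    exact linearIndependent_option.mpr ⟨h1, h2⟩
  have hinj : LinearMap.ker (Finsupp.linearCombination ℂ f) = ⊥ :=
    linearIndependent_iff_ker.mp hf
  obtain ⟨φ, hφ⟩ := LinearMap.exists_leftInverse_of_injective _ hinj
  have hφf : ∀ i, φ (f i) = Finsupp.single i 1 := by
    intro i
    have h1 := LinearMap.congr_fun hφ (Finsupp.single i 1)
    rw [LinearMap.comp_apply, Finsupp.linearCombination_single, one_smul] at h1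
    exact h1
  -- the polynomial matrix
  let ψ : ι → (S → ℂ) →ₗ[ℂ] ℂ := fun j => (Finsupp.lapply j).comp φ
  have hψf : ∀ i j, ψ j (f i) = if j = i then 1 else 0 := by
    intro i j
    change (φ (f i)) j = _
    rw [hφf, Finsupp.single_apply]
    by_cases hij : j = i
    · rw [if_pos hij, if_pos hij.symm]
    · rw [if_neg hij, if_neg (Ne.symm hij)]
  let M : Matrix ι ι (MvPolynomial I ℂ) := Matrix.of fun i j =>
    ∑ c ∈ Φ.support, monomial c (ψ j (om (Φ c) (δ' i)))
  have hM : ∀ (x : I → ℚ) (i j : ι), eval (fun i => (x i : ℂ)) (M i j) =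
      ψ j (om (pe Φ x) (δ' i)) := by
    intro x i j
    change eval (fun i => (x i : ℂ)) (∑ c ∈ Φ.support, monomial c (ψ j (om (Φ c) (δ' i)))) = _
    unfold pe
    rw [Finsupp.sum, hsum, LinearMap.sum_apply, map_sum, map_sum]
    refine Finset.sum_congr rfl fun c _ => ?_
    rw [hsmul, LinearMap.smul_apply, map_smul, smul_eq_mul, eval_monomial, eval_monomial, one_mul,
      mul_comm]
    congr 1
    rw [Finsupp.prod, Finsupp.prod]
    push_cast
    rfl
  have hMd : ∀ i j : ι, ∑ k, (h k : ℂ) * eval (fun i => (z i : ℂ)) (pderiv k (M i j)) =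
      ψ j (om (pd Φ z h) (δ' i)) := by
    intro i j
    change ∑ k, (h k : ℂ) * eval (fun i => (z i : ℂ))
      (pderiv k (∑ c ∈ Φ.support, monomial c (ψ j (om (Φ c) (δ' i))))) = _
    unfold pd
    rw [Finsupp.sum, hsum, LinearMap.sum_apply, map_sum]
    simp_rw [map_sum, Finset.mul_sum]
    rw [Finset.sum_comm]
    refine Finset.sum_congr rfl fun c _ => ?_
    rw [hsmul, LinearMap.smul_apply, map_smul, smul_eq_mul]
    exact I_PertW.dmon z h c _
  -- the determinant vanishes on the dense set
  have hdet0 : ∀ x ∈ E', eval (fun i => (x i : ℂ)) M.det = 0 := by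
    intro x hx
    by_contra hcon
    rw [RingHom.map_det] at hcon
    have e : (eval (fun i => (x i : ℂ))).mapMatrix M =
        Matrix.of fun i j => ψ j (om (pe Φ x) (δ' i)) := by
      ext i j
      rw [RingHom.mapMatrix_apply, Matrix.map_apply, Matrix.of_apply]
      exact hM x i j
    rw [e] at hcon
    have h1 : LinearIndependent ℂ (fun i => om (pe Φ x) (δ' i)) := by
      refine LinearIndependent.of_comp (LinearMap.pi ψ) ?_
      exact Matrix.linearIndependent_rows_of_det_ne_zero hcon
    have h2 : LinearIndependent ℂ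
        (fun i => (⟨om (pe Φ x) (δ' i), ⟨δ' i, rfl⟩⟩ : LinearMap.range (om (pe Φ x)))) :=
      LinearIndependent.of_comp (LinearMap.range (om (pe Φ x))).subtype h1
    have h3 := h2.fintype_card_le_finrank
    rw [Fintype.card_option, Fintype.card_fin] at h3
    have h4 := hmax x hx
    omega
  have hD := I_PertW.vanish_d hE M.det hdet0 z h hh
  have hev := (I_PertW.ev_eq (fun i => (z i : ℂ)) (fun i => (h i : ℂ)) M.det).2
  rw [hD, RingHom.map_det] at hev
  have hsnd := I_PertW.det_d (none : ι)
    ((I_PertW.ev (fun i => (z i : ℂ)) (fun i => (h i : ℂ))).mapMatrix M) ?_ ?_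
  · rw [hsnd] at hev
    exact one_ne_zero hev
  · intro j
    rw [RingHom.mapMatrix_apply, Matrix.map_apply]
    have h1 := I_PertW.ev_eq (fun i => (z i : ℂ)) (fun i => (h i : ℂ)) (M none j)
    rw [hM, hMd] at h1
    have h2 : om (pe Φ z) (δ' none) = 0 := hδ₀
    have h3 : ψ j (om (pd Φ z h) (δ' none)) = if j = none then 1 else 0 := hψf none j
    rw [h2, map_zero, h3] at h1
    refine TrivSqZeroExt.ext ?_ ?_
    · rw [h1.1, TrivSqZeroExt.fst_inr]
    · rw [h1.2, TrivSqZeroExt.snd_inr]
  · intro i hi j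
    rw [RingHom.mapMatrix_apply, Matrix.map_apply]
    have h1 := (I_PertW.ev_eq (fun i => (z i : ℂ)) (fun i => (h i : ℂ)) (M i j)).1
    rw [hM] at h1
    rw [h1]
    cases i with
    | none => exact absurd rfl hi
    | some i => exact hψf (some i) j

end Pool.Agent.Work.MP_8da9ea_nt.FR
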