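import Pool.Agent.Work.MP_8da9ea_nt.FR.StmtsK

/-!
# Block FR, part K, item PrdSub: product sets in subspaces
-/

set_option autoImplicit false

namespace Pool.Agent.Work.MP_8da9ea_nt.FR

open MvPolynomial Pool.Agent.Work.MP_327059_nt.GL Pool.Agent.Work.MP_8da9ea_nt.S
  Pool.Agent.Work.MP_8da9ea_nt.EB

namespace I_PrdSub

/-- a common denominator -/
theorem clear {N : ℕ} (c : Fin N → ℚ) :
    ∃ (d : ℚ) (g : Fin N → ℤ), d ≠ 0 ∧ ∀ j, (g j : ℚ) = d * c j := by
  classical
  have h1 : ∀ j, ∃ z : ℤ, (z : ℚ) = (∏ i, ((c i).den : ℚ)) * c j := by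
    intro j
    rw [← Finset.mul_prod_erase Finset.univ (fun i => ((c i).den : ℚ)) (Finset.mem_univ j)]
    refine ⟨(c j).num * ∏ i ∈ Finset.univ.erase j, ((c i).den : ℤ), ?_⟩
    push_cast
    have h2 : ((c j).den : ℚ) * c j = (c j).num := by
      rw [mul_comm]
      exact Rat.mul_den_eq_num (c j)
    rw [mul_right_comm, h2]
  choose g hg using h1
  refine ⟨∏ i, ((c i).den : ℚ), g, ?_, hg⟩
  exact Finset.prod_ne_zero_iff.2 fun i _ => Nat.cast_ne_zero.2 (c i).den_ne_zero

end I_PrdSub

open I_PrdSub

theorem PrdSub_pf : S_PrdSub := by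
  classical
  intro M n₀ κ a x hx V V' hV hle hfr hax
  generalize hN : n₀ + κ * M = N at x hx hax ⊢
  let W' : Submodule ℚ V := V'.comap V.subtype
  have hW' : Module.finrank ℚ W' = Module.finrank ℚ V' := by
    have h1 : W' = Submodule.comap V.subtype V' := rfl
    exact (Submodule.comapSubtypeEquivOfLe hle).finrank_eq
  have hq : Module.finrank ℚ (V ⧸ W') ≤ κ := by
    have h1 := Submodule.finrank_quotient_add_finrank W'
    rw [hW'] at h1
    omega
  have hmem : ∀ l (c : Fin N → ℚ), Fintype.linearCombination ℚ (fun j => a l * x j) c ∈ V := by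
    intro l c
    rw [Fintype.linearCombination_apply]
    exact Submodule.sum_mem _ fun j _ => V.smul_mem _ (hax l j)
  let ψ : (Fin N → ℚ) →ₗ[ℚ] (Fin M → (V ⧸ W')) := LinearMap.pi fun l =>
    W'.mkQ.comp (LinearMap.codRestrict V (Fintype.linearCombination ℚ (fun j => a l * x j)) (hmem l))
  let K : Submodule ℚ (Fin N → ℚ) := LinearMap.ker ψ
  have hK : n₀ ≤ Module.finrank ℚ K := by
    have h5 := LinearMap.finrank_range_add_finrank_ker ψ
    have h6 : Module.finrank ℚ (LinearMap.range ψ) ≤ Module.finrank ℚ (Fin M → (V ⧸ W')) :=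
      Submodule.finrank_le _
    rw [Module.finrank_pi_fintype] at h6
    simp only [Finset.sum_const, Finset.card_univ, Fintype.card_fin, smul_eq_mul] at h6
    have h7 : M * Module.finrank ℚ (V ⧸ W') ≤ κ * M := by
      rw [mul_comm]
      exact Nat.mul_le_mul_right _ hq
    rw [Module.finrank_fin_fun] at h5
    change _ ≤ Module.finrank ℚ (LinearMap.ker ψ)
    omega
  let b := Module.finBasis ℚ K
  let c : Fin n₀ → Fin N → ℚ := fun i => (b (Fin.castLE hK i) : Fin N → ℚ)
  have hc : LinearIndependent ℚ c := by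
    have h1 : LinearIndependent ℚ (fun i => b (Fin.castLE hK i)) :=
      b.linearIndependent.comp _ (Fin.castLE_injective hK)
    exact h1.map' K.subtype (Submodule.ker_subtype K)
  choose d g hd hg using fun i => clear (c i)
  have hcmb : ∀ i, cmb (g i) x = d i • Fintype.linearCombination ℚ x (c i) := by
    intro i
    rw [Fintype.linearCombination_apply, Finset.smul_sum]
    unfold cmb
    refine Finset.sum_congr rfl fun j _ => ?_
    have h1 := congrArg (fun q : ℚ => (q : ℂ)) (hg i j)
    push_cast at h1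
    rw [Algebra.smul_def, Algebra.smul_def, h1]
    simp [mul_assoc]
  refine ⟨g, ?_, fun l i => ?_⟩
  · have h1 : LinearIndependent ℚ (fun i => Fintype.linearCombination ℚ x (c i)) := by
      apply hc.map' (Fintype.linearCombination ℚ x)
      rw [LinearMap.ker_eq_bot]
      exact hx.fintypeLinearCombination_injective
    have h2 := h1.units_smul (fun i => Units.mk0 (d i) (hd i))
    convert h2 using 2 with i
    rw [hcmb i]
    rfl
  · rw [hcmb i]
    have h1 : c i ∈ K := (b (Fin.castLE hK i)).2
    have h2 : ψ (c i) = 0 := h1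
    have h3 := congrFun h2 l
    have h4 : (LinearMap.codRestrict V (Fintype.linearCombination ℚ (fun j => a l * x j))
        (hmem l)) (c i) ∈ W' := by
      have h5 : W'.mkQ ((LinearMap.codRestrict V (Fintype.linearCombination ℚ
        (fun j => a l * x j)) (hmem l)) (c i)) = 0 := h3
      rwa [Submodule.mkQ_apply, Submodule.Quotient.mk_eq_zero] at h5
    have h6 : Fintype.linearCombination ℚ (fun j => a l * x j) (c i) ∈ V' := h4
    have h7 : a l * d i • Fintype.linearCombination ℚ x (c i) =
        d i • Fintype.linearCombination ℚ (fun j => a l * x j) (c i) := by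
      rw [mul_smul_comm]
      congr 1
      rw [Fintype.linearCombination_apply, Fintype.linearCombination_apply, Finset.mul_sum]
      exact Finset.sum_congr rfl fun j _ => by rw [mul_smul_comm]
    rw [h7]
    exact V'.smul_mem _ h6

end Pool.Agent.Work.MP_8da9ea_nt.FR
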