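import Pool.Agent.Work.MP_8da9ea_nt.FR.Stmts
import Pool.Agent.Work.MP_8da9ea_nt.Der
import Pool.Agent.Work.MP_327059_nt.Bd.B10

/-!
# Block FR, item RelE: stable subspaces contain vectors with entries in the field of constants
-/

set_option autoImplicit false

namespace Pool.Agent.Work.MP_8da9ea_nt.FR

open MvPolynomial Pool.Agent.Work.MP_327059_nt.GL Pool.Agent.Work.MP_8da9ea_nt.S
  Pool.Agent.Work.MP_8da9ea_nt.EB

namespace I_RelE

/-- The constants of the derivations killing `E` are the elements of `E`. -/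
lemma mem_of_dk {E : IntermediateField ℚ ℂ} (hE : ACl E) {x : ℂ}
    (h : ∀ δ ∈ DK E, δ x = 0) : x ∈ E := by
  apply hE
  have h1 := Pool.Agent.ED.isAlgebraic_of_derivation (K := ℚ) (E : Set ℂ) x (by
    intro X hX
    exact h X hX)
  have h3 : IntermediateField.adjoin ℚ (E : Set ℂ) = E := IntermediateField.adjoin_self ℚ E
  rw [h3] at h1
  exact h1

end I_RelE

open I_RelE

theorem RelE_pf : S_RelE := by
  intro E hE S _ S₀ R hR hst
  let e := Fintype.equivFin S
  let L : (S → ℂ) ≃ₗ[ℂ] (Fin (Fintype.card S) → ℂ) := LinearEquiv.funCongrLeft ℂ ℂ e.symm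
  obtain ⟨κ, hκR, o₀, ho₀, hκ0⟩ := hR
  have hmem : L κ ∈ R.map (L : (S → ℂ) →ₗ[ℂ] (Fin (Fintype.card S) → ℂ)) :=
    Submodule.mem_map_of_mem hκR
  have h1 := pr_Stab (Fintype.card S)
    (R.map (L : (S → ℂ) →ₗ[ℂ] (Fin (Fintype.card S) → ℂ))) {δ | δ ∈ DK E} (by
      rintro D hD a ⟨f, hf, rfl⟩
      exact ⟨fun o => D (f o), hst D hD f hf, rfl⟩) (L κ) hmem
  by_contra hno
  push Not at hno
  let V : Submodule ℂ (Fin (Fintype.card S) → ℂ) :=
    { carrier := {f | f (e o₀) = 0}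
      add_mem' := by
        intro a b ha hb
        show a (e o₀) + b (e o₀) = 0
        rw [show a (e o₀) = 0 from ha, show b (e o₀) = 0 from hb, add_zero]
      zero_mem' := rfl
      smul_mem' := by
        intro c a ha
        show c * a (e o₀) = 0
        rw [show a (e o₀) = 0 from ha, mul_zero] }
  have hz : Submodule.span ℂ {f : Fin (Fintype.card S) → ℂ |
      f ∈ R.map (L : (S → ℂ) →ₗ[ℂ] (Fin (Fintype.card S) → ℂ)) ∧
        ∀ j, ∀ D ∈ {δ | δ ∈ DK E}, D (f j) = 0} ≤ V := by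
    rw [Submodule.span_le]
    rintro a ⟨⟨f, hf, rfl⟩, ha⟩
    have h3 : ∀ o, (L : (S → ℂ) →ₗ[ℂ] (Fin (Fintype.card S) → ℂ)) f (e o) = f o := by
      intro o
      show f (e.symm (e o)) = f o
      rw [e.symm_apply_apply]
    show (L : (S → ℂ) →ₗ[ℂ] (Fin (Fintype.card S) → ℂ)) f (e o₀) = 0
    rw [h3]
    by_contra h0
    obtain ⟨o, ho⟩ := hno f hf ⟨o₀, ho₀, h0⟩
    apply ho
    apply mem_of_dk hE
    intro δ hδ
    have h2 := ha (e o) δ hδ
    rw [h3] at h2
    exact h2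
  have h2 : (L κ) (e o₀) = 0 := hz h1
  apply hκ0
  rw [← h2]
  show κ o₀ = κ (e.symm (e o₀))
  rw [e.symm_apply_apply]

end Pool.Agent.Work.MP_8da9ea_nt.FR
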