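import Pool.Agent.Work.MP_8da9ea_nt.FR.Stmts

/-!
# Block FR: the relations at a point are stable under the derivations killing the values
-/

set_option autoImplicit false

namespace Pool.Agent.Work.MP_8da9ea_nt.FR

open MvPolynomial Pool.Agent.Work.MP_327059_nt.GL Pool.Agent.Work.MP_8da9ea_nt.S
  Pool.Agent.Work.MP_8da9ea_nt.EB Pool.Agent.Work.MP_8da9ea_nt.EC

namespace I_RelStab

/-- The form `δ(e^u) / e^u` is closed. -/
theorem th_closed (δ δ' : Derivation ℚ ℂ ℂ) (u : ℂ) :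
    δ (th δ' u) - δ' (th δ u) = th ⁅δ, δ'⁆ u := by
  have he : Complex.exp u ≠ 0 := Complex.exp_ne_zero u
  unfold th
  rw [Derivation.leibniz_div, Derivation.leibniz_div, Derivation.commutator_apply]
  simp only [smul_eq_mul]
  field_simp
  ring

theorem omV_inl (τ μ : ℂ) {s n : ℕ} (u : Fin s → ℂ) (v : Fin n → ℂ) (δ : Derivation ℚ ℂ ℂ)
    (j : Fin s) : omV τ μ u v δ (Sum.inl j) = th δ (u j) := rfl

theorem omV_true (τ μ : ℂ) {s n : ℕ} (u : Fin s → ℂ) (v : Fin n → ℂ) (δ : Derivation ℚ ℂ ℂ)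
    (j : Fin n) : omV τ μ u v δ (Sum.inr (j, true)) = etf τ μ δ (v j) := rfl

theorem omV_false (τ μ : ℂ) {s n : ℕ} (u : Fin s → ℂ) (v : Fin n → ℂ) (δ : Derivation ℚ ℂ ℂ)
    (j : Fin n) : omV τ μ u v δ (Sum.inr (j, false)) = lam τ μ δ (v j) := rfl

/-- All the forms are closed. -/
theorem om_closed (hC : S_ClosedK) {τ μ : ℂ} {K : IntermediateField ℚ ℂ} {s n : ℕ}
    (h : 0 < n → GF τ μ K) (u : Fin s → ℂ) (v : Fin n → ℂ)
    (δ δ' : Derivation ℚ ℂ ℂ) (hδ : δ ∈ DK K) (hδ' : δ' ∈ DK K) (o : Fin s ⊕ Fin n × Bool) :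
    δ (omV τ μ u v δ' o) - δ' (omV τ μ u v δ o) = omV τ μ u v ⁅δ, δ'⁆ o := by
  rcases o with j | ⟨j, c⟩
  · rw [omV_inl, omV_inl, omV_inl]
    exact th_closed δ δ' (u j)
  · have hG : GF τ μ K := h (lt_of_le_of_lt (Nat.zero_le _) j.2)
    cases c
    · rw [omV_false, omV_false, omV_false]
      exact (hC τ μ K hG δ hδ δ' hδ' (v j)).1
    · rw [omV_true, omV_true, omV_true]
      exact (hC τ μ K hG δ hδ δ' hδ' (v j)).2

end I_RelStab

open I_RelStab in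
theorem RelStab_pf (hC : S_ClosedK) : S_RelStab := by
  intro τ μ K s n q h u v z δ₀ hδ₀ hom hz κ κ' hκ δ hδ
  have hbr : ⁅δ₀, δ⁆ ∈ DK K := by
    intro x hx
    rw [Derivation.commutator_apply, hδ x hx, hδ₀ x hx, map_zero, map_zero, sub_zero]
  have h1 : ∀ o, δ₀ (omV τ μ u v δ o) = omV τ μ u v ⁅δ₀, δ⁆ o := by
    intro o
    rw [← om_closed hC h u v δ₀ δ hδ₀ hδ o, hom, Pi.zero_apply, map_zero, sub_zero]
  have h1' : ∀ i, δ₀ (dz z δ i) = dz z ⁅δ₀, δ⁆ i := by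
    intro i
    have h4 : δ₀ (z i) = 0 := congrFun hz i
    show δ₀ (δ (z i)) = ⁅δ₀, δ⁆ (z i)
    rw [Derivation.commutator_apply, h4, map_zero, sub_zero]
  have h2 := congrArg δ₀ (hκ δ hδ)
  rw [map_add, map_sum, map_sum, map_zero] at h2
  have h3 : ∀ o, δ₀ (κ o * omV τ μ u v δ o) =
      κ o * omV τ μ u v ⁅δ₀, δ⁆ o + δ₀ (κ o) * omV τ μ u v δ o := by
    intro o
    rw [Derivation.leibniz, h1, smul_eq_mul, smul_eq_mul]
    ring
  have h3' : ∀ i, δ₀ (κ' i * dz z δ i) = κ' i * dz z ⁅δ₀, δ⁆ i + δ₀ (κ' i) * dz z δ i := by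
    intro i
    rw [Derivation.leibniz, h1', smul_eq_mul, smul_eq_mul]
    ring
  rw [Finset.sum_congr rfl fun o _ => h3 o, Finset.sum_congr rfl fun i _ => h3' i,
    Finset.sum_add_distrib, Finset.sum_add_distrib] at h2
  have h5 := hκ _ hbr
  linear_combination h2 - h5

end Pool.Agent.Work.MP_8da9ea_nt.FR
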