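import Pool.Agent.Work.MP_8da9ea_nt.FR.StmtsK
import Pool.Agent.Work.MP_8da9ea_nt.Der

/-!
# Block FR, part K, item TanDim: the dimension of the tangent space
-/

set_option autoImplicit false

namespace Pool.Agent.Work.MP_8da9ea_nt.FR

open MvPolynomial Metric Filter Topology Pool.Agent.Work.MP_327059_nt.GL
  Pool.Agent.Work.MP_8da9ea_nt.S Pool.Agent.Work.MP_8da9ea_nt.EB Pool.Agent.Work.MP_8da9ea_nt.EC

namespace I_TanDim

/-- a matrix with independent rows has a right inverse -/
theorem right_inv {ι I : Type} [Fintype ι] [DecidableEq ι] [Fintype I] (M : Matrix ι I ℚ)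
    (h : LinearIndependent ℚ M.row) : ∃ B : Matrix I ι ℚ, M * B = 1 := by
  classical
  have h1 : M.rank = Fintype.card ι := h.rank_matrix
  have h2 : LinearMap.range M.mulVecLin = ⊤ := by
    apply Submodule.eq_top_of_finrank_eq
    rw [Module.finrank_fintype_fun_eq_card]
    exact h1
  have h3 : ∀ b : ι, ∃ v : I → ℚ, M.mulVec v = Pi.single b 1 := by
    intro b
    have h4 : (Pi.single b 1 : ι → ℚ) ∈ LinearMap.range M.mulVecLin := by rw [h2]; trivial
    exact h4
  choose B hB using h3
  refine ⟨Matrix.of fun i b => B b i, ?_⟩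
  ext a b
  rw [Matrix.mul_apply, Matrix.one_apply]
  have h5 := congrFun (hB b) a
  rw [Pi.single_apply] at h5
  rw [← h5]
  rfl

/-- a derivation of the value of a polynomial with rational coefficients -/
theorem der_aeval {I : Type} [Fintype I] (X : Derivation ℚ ℂ ℂ) (ξ : I → ℂ)
    (f : MvPolynomial I ℚ) : X (aeval ξ f) = ∑ i, aeval ξ (pderiv i f) * X (ξ i) := by
  classical
  induction f using MvPolynomial.induction_on with
  | C a =>
    rw [aeval_C, X.map_algebraMap]
    symm
    refine Finset.sum_eq_zero fun i _ => ?_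
    rw [pderiv_C, map_zero, zero_mul]
  | add p q hp hq =>
    rw [map_add, map_add, hp, hq, ← Finset.sum_add_distrib]
    refine Finset.sum_congr rfl fun i _ => ?_
    rw [map_add, map_add, add_mul]
  | mul_X p j hp =>
    rw [map_mul, aeval_X, Derivation.leibniz, hp, smul_eq_mul, smul_eq_mul, Finset.mul_sum]
    have h1 : ∀ i, aeval ξ (pderiv i (p * MvPolynomial.X j)) * X (ξ i) =
        (if i = j then aeval ξ p * X (ξ i) else 0) + ξ j * (aeval ξ (pderiv i p) * X (ξ i)) := by
      intro i
      rw [pderiv_mul, map_add, map_mul, map_mul, aeval_X]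
      by_cases h : i = j
      · subst h
        rw [pderiv_X_self, if_pos rfl, map_one]
        ring
      · rw [pderiv_X_of_ne (fun h' => h h'.symm), if_neg h, map_zero]
        ring
    rw [Finset.sum_congr rfl fun i _ => h1 i, Finset.sum_add_distrib, Finset.sum_ite_eq',
      if_pos (Finset.mem_univ _)]

end I_TanDim

open I_TanDim in
theorem TanDim_pf : S_TanDim := by
  classical
  intro I _ ξ z hz d hd
  -- the gradients
  let Gs : Set (I → ℚ) :=
    {g | ∃ f : MvPolynomial I ℚ, aeval ξ f = 0 ∧ g = fun i => eval z (pderiv i f)}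
  obtain ⟨b, hbG, hspan, hli⟩ := exists_linearIndependent ℚ Gs
  have hfin : Finite b := hli.finite
  haveI : Fintype b := Fintype.ofFinite b
  choose f hf hfg using fun a : b => hbG a.2
  let M : Matrix b I ℚ := Matrix.of fun a i => eval z (pderiv i (f a))
  have hMrow : LinearIndependent ℚ M.row := by
    have h1 : M.row = fun a : b => (a : I → ℚ) := by
      funext a
      exact (hfg a).symm
    rw [h1]
    exact hli
  obtain ⟨B, hB⟩ := right_inv M hMrow
  -- the tangent space
  have hker : LinearMap.ker M.mulVecLin ≤ Tz ξ z := by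
    intro h hh g hg
    have h1 : (fun i => eval z (pderiv i g)) ∈ Submodule.span ℚ b := by
      rw [hspan]
      exact Submodule.subset_span ⟨g, hg, rfl⟩
    have h2 : ∀ v ∈ Submodule.span ℚ b, ∑ i, h i * v i = 0 := by
      intro v hv
      induction hv using Submodule.span_induction with
      | mem v hv =>
        have h3 := congrFun (LinearMap.mem_ker.1 hh) ⟨v, hv⟩
        have h4 : v = fun i => eval z (pderiv i (f ⟨v, hv⟩)) := hfg ⟨v, hv⟩
        have h5 : ∑ i, M ⟨v, hv⟩ i * h i = 0 := h3
        rw [← h5]
        refine Finset.sum_congr rfl fun i _ => ?_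
        rw [mul_comm]
        congr 1
        exact congrFun h4 i
      | zero => simp
      | add v w _ _ hv hw =>
        simp only [Pi.add_apply, mul_add, Finset.sum_add_distrib, hv, hw, add_zero]
      | smul c v _ hv =>
        have h6 : ∀ i, h i * (c • v) i = c * (h i * v i) := by
          intro i
          rw [Pi.smul_apply, smul_eq_mul]
          ring
        rw [Finset.sum_congr rfl fun i _ => h6 i, ← Finset.mul_sum, hv, mul_zero]
    exact h2 _ h1
  have hT1 : Fintype.card I ≤ Fintype.card b + Module.finrank ℚ (Tz ξ z) := by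
    have h1 := LinearMap.finrank_range_add_finrank_ker M.mulVecLin
    rw [Module.finrank_fintype_fun_eq_card] at h1
    have h2 : Module.finrank ℚ (LinearMap.range M.mulVecLin) ≤ Fintype.card b := by
      refine (Submodule.finrank_le _).trans ?_
      rw [Module.finrank_fintype_fun_eq_card]
    have h3 := Submodule.finrank_mono hker
    omega
  -- the derivations
  have hs : ∃ s : Fin (d + 1) → I, AlgebraicIndependent ℚ (fun i => ξ (s i)) := by
    by_contra h
    push Not at h
    exact hd h
  obtain ⟨s, hs⟩ := hs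
  choose X hX using fun j : Fin (d + 1) =>
    Pool.Agent.ED.exists_derivation hs (fun i => if i = j then (1 : ℂ) else 0)
  -- the gradients at ξ
  let P : Matrix b b (MvPolynomial I ℚ) :=
    Matrix.of fun a c => ∑ i, pderiv i (f a) * C (B i c)
  have hPz : eval z P.det = 1 := by
    rw [RingHom.map_det]
    have h1 : (eval z).mapMatrix P = 1 := by
      rw [← hB]
      ext a c
      rw [RingHom.mapMatrix_apply, Matrix.map_apply, Matrix.mul_apply]
      change eval z (∑ i, pderiv i (f a) * C (B i c)) = _
      rw [map_sum]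
      refine Finset.sum_congr rfl fun i _ => ?_
      rw [map_mul, eval_C]
      rfl
    rw [h1, Matrix.det_one]
  have hPξ : aeval ξ P.det ≠ 0 := by
    intro h0
    have h1 := hz _ h0
    rw [hPz] at h1
    exact one_ne_zero h1
  let N : Matrix b I ℂ := Matrix.of fun a i => aeval ξ (pderiv i (f a))
  let B' : Matrix I b ℂ := B.map (algebraMap ℚ ℂ)
  have hNB : (N * B').det ≠ 0 := by
    have h1 : N * B' = (aeval ξ : MvPolynomial I ℚ →ₐ[ℚ] ℂ).toRingHom.mapMatrix P := by
      ext a c
      rw [RingHom.mapMatrix_apply, Matrix.map_apply, Matrix.mul_apply]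
      change _ = aeval ξ (∑ i, pderiv i (f a) * C (B i c))
      rw [map_sum]
      refine Finset.sum_congr rfl fun i _ => ?_
      rw [map_mul, aeval_C]
      rfl
    rw [h1, ← RingHom.map_det]
    exact hPξ
  have hNsurj : LinearMap.range N.mulVecLin = ⊤ := by
    rw [LinearMap.range_eq_top]
    intro w
    have h1 : IsUnit (N * B') := (Matrix.isUnit_iff_isUnit_det _).2 (isUnit_iff_ne_zero.2 hNB)
    obtain ⟨v, hv⟩ := Matrix.mulVec_surjective_iff_isUnit.2 h1 w
    refine ⟨B'.mulVec v, ?_⟩
    rw [Matrix.mulVecLin_apply, Matrix.mulVec_mulVec]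
    exact hv
  have hXker : ∀ j, (fun i => X j (ξ i)) ∈ LinearMap.ker N.mulVecLin := by
    intro j
    rw [LinearMap.mem_ker]
    funext a
    change ∑ i, aeval ξ (pderiv i (f a)) * X j (ξ i) = 0
    rw [← der_aeval, hf a, map_zero]
  have hXli : LinearIndependent ℂ
      (fun j : Fin (d + 1) => (⟨fun i => X j (ξ i), hXker j⟩ : LinearMap.ker N.mulVecLin)) := by
    rw [Fintype.linearIndependent_iff]
    intro c hc k
    have h1 := congrArg Subtype.val hc
    have h2 := congrFun h1 (s k)
    rw [Submodule.coe_sum, Finset.sum_apply] at h2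
    simp only [Submodule.coe_smul, Pi.smul_apply, smul_eq_mul, hX, mul_ite, mul_one, mul_zero,
      Finset.sum_ite_eq, Finset.mem_univ, if_true] at h2
    exact h2
  have h7 := hXli.fintype_card_le_finrank
  have h8 := LinearMap.finrank_range_add_finrank_ker N.mulVecLin
  rw [hNsurj, finrank_top, Module.finrank_fintype_fun_eq_card,
    Module.finrank_fintype_fun_eq_card] at h8
  rw [Fintype.card_fin] at h7
  omega

end Pool.Agent.Work.MP_8da9ea_nt.FR
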