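import Pool.Agent.Work.MP_8da9ea_nt.FR.StmtsV
import Pool.Agent.Work.MP_8da9ea_nt.EB.I_ZStepE

/-!
# [ZEV] the zero estimate, uniformly in a bounded region of lattices
-/

set_option autoImplicit false

namespace Pool.Agent.Work.MP_8da9ea_nt.FR

open MvPolynomial Metric Filter Topology Pool.Agent.Work.MP_327059_nt.GL
  Pool.Agent.Work.MP_8da9ea_nt.S Pool.Agent.Work.MP_8da9ea_nt.EB Pool.Agent.Work.MP_8da9ea_nt.EC

namespace I_ZEV

open XZStepE

variable {n m : ℕ} {τ : ℂ}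

lemma im_pos {R : ℝ} (hR : 1 ≤ R) (h : LR R τ) : 0 < τ.im := by
  by_contra hn
  have h1 : R * τ.im ≤ 0 := mul_nonpos_of_nonneg_of_nonpos (by linarith) (not_lt.mp hn)
  linarith [h.1]

/-- from a branch to a relation -/
theorem zb (hOpA : S_OpA) (hRes : S_ZRes) (hCnt : S_Cnt) (hLin : S_Lin) (hGlob : S_Glob)
    (hFin : S_FinV) {m : ℕ} (hZ : ZEV m) : ∃ c : ℕ, ∀ R₀ : ℝ, 1 ≤ R₀ → ∀ n : ℕ, ∃ C : ℕ, 1 ≤ C ∧
    ∀ τ : ℂ, LR R₀ τ → ∀ (S B K : ℕ) (u : Fin n → Fin (m + 1) → ℂ) (D : Finset (Fin n → ℤ))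
      (F : MvPolynomial (Fin (m + 1)) ℂ) (v₁ : Fin m → ℂ) (r₁ : ℝ) (L : (Fin m → ℂ) → ℂ),
      1 ≤ B → 1 ≤ K → (∀ d ∈ D, ∀ i, |d i| ≤ (S : ℤ)) → (S + 1) ^ n ≤ K * D.card → F ≠ 0 →
      (∀ i, F.degreeOf i ≤ B) → 0 < r₁ → AnalyticOnNhd ℂ L (ball v₁ r₁) →
      (∀ v ∈ ball v₁ r₁, ∀ d ∈ D, (∀ i, v i + pc u d i.succ ∉ Lam τ) ∧ L v + pc u d 0 ∉ Lam τ ∧
        eval (pw τ (fun i => v i + pc u d i.succ) (L v + pc u d 0)) F = 0) →
      Con τ S (C * (2 * B * K) ^ c) c u := by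
  classical
  obtain ⟨c0, hZ⟩ := hZ
  refine ⟨2 * c0 + 2 * m + 2, fun R₀ hR₀ n => ?_⟩
  obtain ⟨C0, hC0, hZ⟩ := hZ R₀ hR₀ n
  obtain ⟨Cf, hCf, hFin⟩ := hFin R₀ hR₀
  refine ⟨C0 * (2 ^ (n + 2) * 36 ^ (m + 1)) ^ c0 + Cf + 2, by omega, ?_⟩
  intro τ hLR S B K u D F v₁ r₁ L hB hK hD hDc hF hFd hr hL hbr
  have hτ : 0 < τ.im := im_pos hR₀ hLR
  replace hZ := hZ τ hLR
  replace hFin := hFin τ hLR
  set X : ℕ := 2 * B * K with hX
  have hX1 : 1 ≤ X := by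
    rw [hX]
    exact Nat.mul_pos (by omega) hK
  set B' : ℕ := 6 ^ (m + 1) * B with hB'
  have hB'1 : 1 ≤ B' := Nat.mul_pos (by positivity) hB
  by_cases hR : ∃ v ∈ ball v₁ r₁, ∃ R : MvPolynomial (Fin m) ℂ, R ≠ 0 ∧
      (∀ i, R.degreeOf i ≤ 2 * B' * B') ∧
      ∀ d ∈ D, eval (fun i : Fin m => wp 1 τ (v i + pc u d i.succ)) R = 0
  · obtain ⟨v, hv, R, hR1, hR2, hR3⟩ := hR
    set σ : Fin n → ℤ := fun _ => (S : ℤ) with hσ
    have h1 := hZ (2 * S) (2 * B' * B') (2 ^ n * K) (fun j => v j - pc u σ j.succ)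
      (fun i (j : Fin m) => u i j.succ) (D.image fun d => d + σ) R
      (Nat.mul_pos (Nat.mul_pos (by norm_num) hB'1) hB'1) (Nat.mul_pos (by positivity) hK) (by
        intro s hs i
        rw [Finset.mem_image] at hs
        obtain ⟨d, hd, rfl⟩ := hs
        have := abs_le.1 (hD d hd i)
        simp only [Pi.add_apply, hσ]
        push_cast
        constructor <;> linarith) (by
        rw [Finset.card_image_of_injective _ (add_left_injective σ)]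
        calc (2 * S + 1) ^ n ≤ 2 ^ n * (S + 1) ^ n := two_mul_pow n S
          _ ≤ 2 ^ n * (K * D.card) := Nat.mul_le_mul_left _ hDc
          _ = 2 ^ n * K * D.card := by ring) hR1 hR2 (by
        intro s hs
        rw [Finset.mem_image] at hs
        obtain ⟨d, hd, rfl⟩ := hs
        have h2 : ∀ j : Fin m, v j - pc u σ j.succ + pc (fun i (j : Fin m) => u i j.succ) (d + σ) j =
            v j + pc u d j.succ := by
          intro j
          have h3 : pc (fun i (j : Fin m) => u i j.succ) (d + σ) j = pc u (d + σ) j.succ := rfl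
          rw [h3, pc_add]
          ring
        simp only [h2]
        exact ⟨(hbr v hv d hd).1, hR3 d hd⟩)
    obtain ⟨w, hw1, hw2, hw3, hw4⟩ := h1
    have h2 : Con τ S (C0 * (2 * (2 * B' * B') * (2 ^ n * K)) ^ c0) (2 * c0)
        (fun i (j : Fin m) => u i j.succ) := by
      refine ⟨w, hw1, hw2, hw3, ?_⟩
      rw [show 2 * c0 * S = c0 * (2 * S) by ring]
      exact (Nat.pow_le_pow_left (by omega) n).trans hw4
    refine (h2.mono ?_ (by omega)).cons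
    have h3 : 2 * (2 * B' * B') * (2 ^ n * K) ≤ (2 ^ (n + 2) * 36 ^ (m + 1)) * X ^ 2 := by
      have h4 : (36 : ℕ) ^ (m + 1) = 6 ^ (m + 1) * 6 ^ (m + 1) := by
        rw [← mul_pow]
        norm_num
      rw [h4, hB', hX]
      calc 2 * (2 * (6 ^ (m + 1) * B) * (6 ^ (m + 1) * B)) * (2 ^ n * K)
          = (2 ^ (n + 2) * (6 ^ (m + 1) * 6 ^ (m + 1))) * (B * B * K * 1) := by ring
        _ ≤ (2 ^ (n + 2) * (6 ^ (m + 1) * 6 ^ (m + 1))) * (B * B * K * (4 * K)) :=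
            Nat.mul_le_mul_left _ (Nat.mul_le_mul_left _ (by omega))
        _ = (2 ^ (n + 2) * (6 ^ (m + 1) * 6 ^ (m + 1))) * (2 * B * K) ^ 2 := by ring
    calc C0 * (2 * (2 * B' * B') * (2 ^ n * K)) ^ c0
        ≤ C0 * ((2 ^ (n + 2) * 36 ^ (m + 1)) * X ^ 2) ^ c0 :=
          Nat.mul_le_mul_left _ (Nat.pow_le_pow_left h3 _)
      _ = (C0 * (2 ^ (n + 2) * 36 ^ (m + 1)) ^ c0) * X ^ (2 * c0) := by
          rw [mul_pow, ← pow_mul, mul_assoc]
      _ ≤ (C0 * (2 ^ (n + 2) * 36 ^ (m + 1)) ^ c0 + Cf + 2) * X ^ (2 * c0 + 2 * m + 2) :=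
          Nat.mul_le_mul (by omega) (Nat.pow_le_pow_right hX1 (by omega))
  · -- the increments are countable
    have hinc : ∀ h : Fin m → ℂ, ∃ Z : Set ℂ, Z.Countable ∧
        ∀ v, v ∈ ball v₁ r₁ → v + h ∈ ball v₁ r₁ → L (v + h) - L v ∈ Z := by
      intro h
      obtain ⟨Z, hZ1, hZ2⟩ := hCnt τ hτ m F hF h
      refine ⟨Z, hZ1, fun v hv hvh => ?_⟩
      obtain ⟨G, hG0, hG1, hG2, hG3⟩ := hOpA τ hτ m (L (v + h) - L v) h F hF
      rcases elim hRes hF hG0 (B' := B') (fun i => (hFd i).trans (by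
          rw [hB']
          exact Nat.le_mul_of_pos_left _ (by positivity))) (fun i => (hG1 i).trans (by
          rw [hB']
          exact Nat.mul_le_mul_left _ (hFd i))) τ with ⟨g, hg1, hg2, hg3, hg4⟩ | ⟨R, hR1, hR2, hR3⟩
      · exact hZ2 _ G g hg1 hg4 hg2 hg3 hG3
      · exfalso
        apply hR
        refine ⟨v, hv, R, hR1, hR2, fun d hd => ?_⟩
        obtain ⟨h1, h2, h3⟩ := hbr v hv d hd
        obtain ⟨h4, h5, h6⟩ := hbr _ hvh d hd
        refine hR3 _ _ h3 (hG2 (fun i => v i + pc u d i.succ) (L v + pc u d 0) h1 h2 ?_ ?_ ?_)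
        · intro i
          have := h4 i
          rw [Pi.add_apply] at this
          rwa [add_right_comm]
        · rwa [show L v + pc u d 0 + (L (v + h) - L v) = L (v + h) + pc u d 0 by ring]
        · rw [show L v + pc u d 0 + (L (v + h) - L v) = L (v + h) + pc u d 0 by ring]
          have h7 : (fun i => v i + pc u d i.succ + h i) = fun i => (v + h) i + pc u d i.succ := by
            funext i
            rw [Pi.add_apply]
            ring
          rw [h7]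
          exact h6
    obtain ⟨c, α, r', hr'1, hr'2, hlin⟩ := hLin m v₁ r₁ L hr hL hinc
    have h1 := affine_case hτ hGlob hFin u D F v₁ r' c α hB hK hD hDc hF hFd hr'1 (by
      intro v hv d hd
      have h2 := hbr v (ball_subset_ball hr'2 hv) d hd
      rw [hlin v hv] at h2
      exact h2)
    refine h1.mono ?_ (by omega)
    exact Nat.mul_le_mul (by omega) (Nat.pow_le_pow_right hX1 (by omega))

/-- the induction step -/
theorem step (hOpA : S_OpA) (hPop : S_Pop) (hFac : S_Fac) (hBr : S_Branch) (hSp : S_Split)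
    (hCnt : S_Cnt) (hLin : S_Lin) (hGlob : S_Glob) (hFin : S_FinV) (hRes : S_ZRes) (m : ℕ)
    (hZ : ZEV m) : ZEV (m + 1) := by
  classical
  obtain ⟨cb, hzb⟩ := zb hOpA hRes hCnt hLin hGlob hFin hZ
  obtain ⟨c0, hZ⟩ := hZ
  refine ⟨4 * c0 + 2 * cb + 2, fun R₀ hR₀ n => ?_⟩
  obtain ⟨Cb, hCb, hzb⟩ := hzb R₀ hR₀ n
  obtain ⟨C0, hC0, hZ⟩ := hZ R₀ hR₀ n
  refine ⟨C0 * (2 ^ (n + 3) * 36 ^ (m + 1)) ^ c0 + 4 + Cb * (2 ^ (m + 4)) ^ cb, by omega, ?_⟩
  intro τ hLR S B K a u A F hB hK hA hAc hF hFd hAF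
  have hτ : 0 < τ.im := im_pos hR₀ hLR
  replace hZ := hZ τ hLR
  replace hzb := hzb τ hLR
  set X : ℕ := 2 * B * K with hX
  have hX1 : 1 ≤ X := by
    rw [hX]
    exact Nat.mul_pos (by omega) hK
  set B' : ℕ := 6 ^ (m + 1) * B with hB'
  have hB'1 : 1 ≤ B' := Nat.mul_pos (by positivity) hB
  suffices h : XZStepE.Con τ S
      ((C0 * (2 ^ (n + 3) * 36 ^ (m + 1)) ^ c0 + 4 + Cb * (2 ^ (m + 4)) ^ cb) *
        X ^ (4 * c0 + 2 * cb + 2)) (4 * c0 + 2 * cb + 2) u by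
    exact h
  obtain ⟨D, hD1, hD2, hD3⟩ := hPop n S K A hK hA hAc
  have hDne : D.Nonempty := by
    rw [Finset.nonempty_iff_ne_empty]
    rintro rfl
    simp at hD2
  choose G hG0 hG1 hG2 hG3 using fun d : Fin n → ℤ =>
    hOpA τ hτ m (pc u d 0) (fun j => pc u d j.succ) F hF
  have hzero : ∀ s ∈ A, (∀ i : Fin m, a i.succ + pc u s i.succ ∉ Lam τ) ∧
      a 0 + pc u s 0 ∉ Lam τ ∧
      eval (pw τ (fun i : Fin m => a i.succ + pc u s i.succ) (a 0 + pc u s 0)) F = 0 := by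
    intro s hs
    obtain ⟨h1, h2⟩ := hAF s hs
    refine ⟨fun i => h1 i.succ, h1 0, ?_⟩
    rw [XZStepE.pw_all τ (fun j => a j + pc u s j)] at h2
    exact h2
  by_cases hR : ∃ d ∈ D, ∃ R : MvPolynomial (Fin m) ℂ, R ≠ 0 ∧
      (∀ i, R.degreeOf i ≤ 2 * B' * B') ∧
      ∀ (v : Fin m → ℂ) (y : ℂ), eval (pw τ v y) F = 0 → eval (pw τ v y) (G d) = 0 →
        eval (fun i => wp 1 τ (v i)) R = 0
  · obtain ⟨d, hd, R, hR1, hR2, hR3⟩ := hR
    obtain ⟨w, hw1, hw2, hw3, hw4⟩ := hZ S (2 * B' * B') (2 ^ (n + 1) * K ^ 2)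
      (fun j => a j.succ) (fun i (j : Fin m) => u i j.succ) (A.filter fun s => s + d ∈ A) R
      (Nat.mul_pos (Nat.mul_pos (by norm_num) hB'1) hB'1)
      (Nat.mul_pos (by positivity) (Nat.pow_pos hK)) (by
        intro s hs
        exact hA s (Finset.mem_filter.1 hs).1) (hD3 d hd) hR1 hR2 (by
        intro s hs
        obtain ⟨h1, h2⟩ := Finset.mem_filter.1 hs
        obtain ⟨h3, h4, h5⟩ := hzero s h1
        obtain ⟨h6, h7, h8⟩ := hzero _ h2
        simp only [XZStepE.pc_add, ← add_assoc] at h6 h7 h8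
        exact ⟨h3, hR3 _ _ h5 (hG2 d _ _ h3 h4 h6 h7 h8)⟩)
    have h1 : XZStepE.Con τ S (C0 * (2 * (2 * B' * B') * (2 ^ (n + 1) * K ^ 2)) ^ c0) c0
        (fun i (j : Fin m) => u i j.succ) := ⟨w, hw1, hw2, hw3, hw4⟩
    refine (h1.mono ?_ (by omega)).cons
    have h3 : 2 * (2 * B' * B') * (2 ^ (n + 1) * K ^ 2) ≤
        (2 ^ (n + 3) * 36 ^ (m + 1)) * X ^ 2 := by
      have h4 : (36 : ℕ) ^ (m + 1) = 6 ^ (m + 1) * 6 ^ (m + 1) := by
        rw [← mul_pow]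
        norm_num
      rw [h4, hB', hX]
      calc 2 * (2 * (6 ^ (m + 1) * B) * (6 ^ (m + 1) * B)) * (2 ^ (n + 1) * K ^ 2)
          = (2 ^ (n + 3) * (6 ^ (m + 1) * 6 ^ (m + 1))) * (1 * (B * B * (K * K))) := by ring
        _ ≤ (2 ^ (n + 3) * (6 ^ (m + 1) * 6 ^ (m + 1))) * (4 * (B * B * (K * K))) :=
            Nat.mul_le_mul_left _ (Nat.mul_le_mul_right _ (by norm_num))
        _ = (2 ^ (n + 3) * (6 ^ (m + 1) * 6 ^ (m + 1))) * (2 * B * K) ^ 2 := by ring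
    calc C0 * (2 * (2 * B' * B') * (2 ^ (n + 1) * K ^ 2)) ^ c0
        ≤ C0 * ((2 ^ (n + 3) * 36 ^ (m + 1)) * X ^ 2) ^ c0 :=
          Nat.mul_le_mul_left _ (Nat.pow_le_pow_left h3 _)
      _ = (C0 * (2 ^ (n + 3) * 36 ^ (m + 1)) ^ c0) * X ^ (2 * c0) := by
          rw [mul_pow, ← pow_mul, mul_assoc]
      _ ≤ _ := Nat.mul_le_mul (by omega) (Nat.pow_le_pow_right hX1 (by omega))
  -- common factors
  have hfac : ∀ d : Fin n → ℤ, ∃ f : MvPolynomial (Fin (m + 1)) ℂ, d ∈ D →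
      (Irreducible f ∧ f.degreeOf 0 ≠ 0 ∧ f ∣ F) ∧ f ∣ G d := by
    intro d
    by_cases hd : d ∈ D
    · rcases XZStepE.elim hRes hF (hG0 d) (B' := B') (fun i => (hFd i).trans (by
          rw [hB']
          exact Nat.le_mul_of_pos_left _ (by positivity))) (fun i => (hG1 d i).trans (by
          rw [hB']
          exact Nat.mul_le_mul_left _ (hFd i))) τ with ⟨g, hg1, hg2, hg3, hg4⟩ | ⟨R, hR1, hR2, hR3⟩
      · exact ⟨g, fun _ => ⟨⟨hg1, hg4, hg2⟩, hg3⟩⟩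
      · exact absurd ⟨d, hd, R, hR1, hR2, hR3⟩ hR
    · exact ⟨0, fun h => absurd h hd⟩
  choose f hf using hfac
  obtain ⟨d₀, hd₀, Df, hDf1, hDf2, hDf3⟩ := hFac m F hF (Fin n → ℤ) D f hDne
    (fun d hd => (hf d hd).1)
  obtain ⟨⟨hf1, hf2, hf3⟩, -⟩ := hf d₀ hd₀
  have hTr : ∀ d ∈ Df, Tr2 τ F (f d₀) (pc u d 0) (fun j => pc u d j.succ) := by
    intro d hd v y h1 h2 h3 h4 h5 h6 h7
    refine hG3 d v y h1 h2 h3 h4 h5 h6 ?_
    obtain ⟨k, hk⟩ := (hDf3 d hd).dvd.trans (hf d (hDf1 hd)).2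
    rw [hk, map_mul, h7, zero_mul]
  have hDfc : (S + 1) ^ n ≤ 2 * K * B * Df.card := by
    calc (S + 1) ^ n ≤ 2 * K * D.card := hD2
      _ ≤ 2 * K * (F.degreeOf 0 * Df.card) := Nat.mul_le_mul_left _ hDf2
      _ ≤ 2 * K * (B * Df.card) := Nat.mul_le_mul_left _ (Nat.mul_le_mul_right _ (hFd 0))
      _ = 2 * K * B * Df.card := by ring
  obtain ⟨v₀, r, L, hr, hL, hLf⟩ := hBr τ hτ m (f d₀) hf1 hf2
  rcases hSp τ hτ m (f d₀) F v₀ r L hr hL hLf (Fin n → ℤ) Df (fun d => pc u d 0)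
    (fun d j => pc u d j.succ) hTr with ⟨D', hD'1, hD'2, hD'3⟩ |
      ⟨D', hD'1, hD'2, v₁, r₁, L₁, hr₁, hL₁, hbr⟩
  · -- the first coordinate
    refine XZStepE.Con.mono (M := 4 * X) (c := 2) ?_ ?_ (by omega)
    · refine ⟨Pi.single 0 1, ?_, ?_, ?_, ?_⟩
      · intro h1
        have := congrFun h1 0
        simp at this
      · intro j
        rw [Pi.single_apply]
        split_ifs
        · exact ⟨mem_Lam.2 ⟨1, 0, by simp⟩, mem_Lam.2 ⟨0, 1, by simp⟩⟩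
        · exact ⟨(XFin.LG τ).zero_mem, by rw [zero_mul]; exact (XFin.LG τ).zero_mem⟩
      · intro j
        have h1 : (1 : ℝ) ≤ ((4 * X : ℕ) : ℝ) := by
          have : 1 ≤ 4 * X := by omega
          exact_mod_cast this
        rw [Pi.single_apply]
        split_ifs
        · rw [norm_one]
          exact h1
        · rw [norm_zero]
          linarith
      · have h1 := XZStepE.card_le_cntR (τ := τ) (S := S) u (Pi.single 0 1) D'
          (fun d hd => hD1 d (hDf1 (hD'1 hd))) (by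
          intro d hd d' hd'
          have h2 : ∑ j, (Pi.single 0 1 : Fin (m + 1) → ℂ) j * pc u (d - d') j =
              pc u d 0 - pc u d' 0 := by
            rw [← XZStepE.pc_sub]
            simp [Pi.single_apply]
          rw [h2]
          exact hD'3 d hd d' hd')
        calc (S + 1) ^ n ≤ 2 * K * B * Df.card := hDfc
          _ ≤ 2 * K * B * (4 * D'.card) := Nat.mul_le_mul_left _ hD'2
          _ = 4 * X * D'.card := by rw [hX]; ring
          _ ≤ _ := Nat.mul_le_mul_left _ h1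
    · calc 4 * X = 4 * X ^ 1 := by rw [pow_one]
        _ ≤ _ := Nat.mul_le_mul (by omega) (Nat.pow_le_pow_right hX1 (by omega))
  · have h1 := hzb S B (2 * K * B * 2 ^ (m + 2)) u D' F v₁ r₁ L₁ hB
      (Nat.mul_pos (Nat.mul_pos (by omega) hB) (by positivity))
      (fun d hd => hD1 d (hDf1 (hD'1 hd))) (by
        calc (S + 1) ^ n ≤ 2 * K * B * Df.card := hDfc
          _ ≤ 2 * K * B * (2 ^ (m + 2) * D'.card) := Nat.mul_le_mul_left _ hD'2
          _ = 2 * K * B * 2 ^ (m + 2) * D'.card := by ring) hF hFd hr₁ hL₁ hbr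
    refine h1.mono ?_ (by omega)
    have h3 : 2 * B * (2 * K * B * 2 ^ (m + 2)) ≤ 2 ^ (m + 4) * X ^ 2 := by
      rw [hX]
      calc 2 * B * (2 * K * B * 2 ^ (m + 2)) = 2 ^ (m + 4) * (B * B * K * 1) := by ring
        _ ≤ 2 ^ (m + 4) * (B * B * K * (4 * K)) :=
            Nat.mul_le_mul_left _ (Nat.mul_le_mul_left _ (by omega))
        _ = 2 ^ (m + 4) * (2 * B * K) ^ 2 := by ring
    calc Cb * (2 * B * (2 * K * B * 2 ^ (m + 2))) ^ cb ≤ Cb * (2 ^ (m + 4) * X ^ 2) ^ cb :=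
          Nat.mul_le_mul_left _ (Nat.pow_le_pow_left h3 _)
      _ = (Cb * (2 ^ (m + 4)) ^ cb) * X ^ (2 * cb) := by
          rw [mul_pow, ← pow_mul X, mul_assoc]
      _ ≤ _ := Nat.mul_le_mul (by omega) (Nat.pow_le_pow_right hX1 (by omega))

theorem zero : ZEV 0 := by
  refine ⟨0, fun R₀ _ n => ⟨1, le_rfl, ?_⟩⟩
  intro τ _ S B K a u A F _ _ _ hA hF _ hz
  exfalso
  have hne : A.Nonempty := by
    rw [Finset.nonempty_iff_ne_empty]
    rintro rfl
    rw [Finset.card_empty, mul_zero] at hA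
    have : 0 < (S + 1) ^ n := pow_pos (Nat.succ_pos S) n
    omega
  obtain ⟨s, hs⟩ := hne
  have h1 := (hz s hs).2
  rw [eq_C_of_isEmpty F, eval_C] at h1
  apply hF
  rw [eq_C_of_isEmpty F, h1, C_0]

end I_ZEV

/-- **[V2]** -/
theorem ZEV_pf (hOpA : S_OpA) (hPop : S_Pop) (hFac : S_Fac) (hBr : S_Branch) (hSp : S_Split)
    (hCnt : S_Cnt) (hLin : S_Lin) (hGlob : S_Glob) (hFin : S_FinV) (hRes : S_ZRes) : S_ZEV := by
  intro m
  induction m with
  | zero => exact I_ZEV.zero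
  | succ m ih => exact I_ZEV.step hOpA hPop hFac hBr hSp hCnt hLin hGlob hFin hRes m ih

end Pool.Agent.Work.MP_8da9ea_nt.FR
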