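import Pool.Agent.Work.MP_8da9ea_nt.FR.StmtsK
import Pool.Agent.Work.MP_8da9ea_nt.FR.I_NoSmallVK

/-!
# The main statements of part K with constants independent of the codimension
-/

set_option autoImplicit false

namespace Pool.Agent.Work.MP_8da9ea_nt.FR

open MvPolynomial Metric Filter Topology Pool.Agent.Work.MP_327059_nt.GL
  Pool.Agent.Work.MP_8da9ea_nt.S Pool.Agent.Work.MP_8da9ea_nt.EB Pool.Agent.Work.MP_8da9ea_nt.EC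

/-- K13 with `n₀ = n₁ + κ M`. -/
def S_FRKAu : Prop := ∀ Q N s n ρ : ℕ, ∃ n₁ : ℕ, ∀ κ n₀ : ℕ,
  n₁ + κ * (N + s + 2 * n + ρ + 2) = n₀ → ∀ (τ μ : ℂ)
  (a : Fin (N + s + 2 * n + ρ + 2) → ℂ) (x : Fin n₀ → ℂ), FT Q a → LinearIndependent ℚ a →
  LinearIndependent ℚ x → (0 < n → Nrm τ μ ∧ KLI τ a) → ∀ (D : ℕ) (e : Fin D → ℂ),
  LinearIndependent ℚ e → (∀ l i, a l * x i ∈ Submodule.span ℚ (Set.range e)) →
    FamK τ μ N s n ρ κ e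

/-- K14 with `n₀ = n₁ + κ M`. -/
def S_FRKVu : Prop := ∀ Q Q' N s n ρ : ℕ, ∃ n₁ : ℕ, ∀ κ n₀ : ℕ,
  n₁ + κ * (N + s + 2 * n + ρ + 2) = n₀ → ∀ (τ μ : ℂ)
  (a : Fin (N + s + 2 * n + ρ + 2) → ℂ) (x : Fin n₀ → ℂ), FT Q a → SLI a → MS Q' x →
  ∀ (D : ℕ) (e : Fin D → ℂ), LinearIndependent ℚ e →
  (∀ l i, a l * x i ∈ Submodule.span ℚ (Set.range e)) → FamK τ μ N s n ρ κ e

theorem FRKAu_pf (h1 : S_FRKG) (h2 : S_NoSmallC) (h3 : S_PrdSub) : S_FRKAu := by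
  intro Q N s n ρ
  obtain ⟨n₁, hn₁⟩ := h2 Q (N + s + 2 * n + ρ + 2)
  refine ⟨n₁, ?_⟩
  rintro κ n₀ rfl τ μ a x hFT ha hx hn D e he hV
  refine h1 N s n ρ κ τ μ D e he fun E _ hE V' hV' hfin => ?_
  obtain ⟨g, hg, hgV⟩ := h3 _ n₁ κ a x hx (Submodule.span ℚ (Set.range e)) V'
    (FiniteDimensional.span_of_finite ℚ (Set.finite_range e)) hV' hfin hV
  exact hn₁ a (fun i => cmb (g i) x) hFT ha hg V' hgV τ μ n hn E hE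

theorem FRKVu_pf (h1 : S_FRKG) (h2 : S_NoSmallCV) (h3 : S_PrdSub) : S_FRKVu := by
  intro Q Q' N s n ρ
  obtain ⟨n₁, hn₁⟩ := h2 Q Q' (N + s + 2 * n + ρ + 2)
  refine ⟨n₁, ?_⟩
  rintro κ n₀ rfl τ μ a x hFT hSLI hMS D e he hV
  refine h1 N s n ρ κ τ μ D e he fun E hKE hE V' hV' hfin => ?_
  obtain ⟨g, hg, hgV⟩ := h3 _ n₁ κ a x (I_FRPV.ms_li hMS) (Submodule.span ℚ (Set.range e)) V'
    (FiniteDimensional.span_of_finite ℚ (Set.finite_range e)) hV' hfin hV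
  exact hn₁ a (fun i => cmb (g i) x) hFT hSLI (I_NoSmallVK.ms_cmb hMS g hg) V' hgV τ μ n E
    hKE.acl (fun h => (hKE.ell h).1) hE

end Pool.Agent.Work.MP_8da9ea_nt.FR
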