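import Pool.Agent.Work.MP_8da9ea_nt.FR.I_AxF
import Pool.Agent.Work.MP_8da9ea_nt.FR.I_ClosedK
import Pool.Agent.Work.MP_8da9ea_nt.FR.I_Core
import Pool.Agent.Work.MP_8da9ea_nt.FR.I_CritV
import Pool.Agent.Work.MP_8da9ea_nt.FR.I_EField
import Pool.Agent.Work.MP_8da9ea_nt.FR.I_EtaAddK
import Pool.Agent.Work.MP_8da9ea_nt.FR.I_EtaMul
import Pool.Agent.Work.MP_8da9ea_nt.FR.I_FRMain
import Pool.Agent.Work.MP_8da9ea_nt.FR.I_FRTor
import Pool.Agent.Work.MP_8da9ea_nt.FR.I_FRMainV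
import Pool.Agent.Work.MP_8da9ea_nt.FR.I_FinV
import Pool.Agent.Work.MP_8da9ea_nt.FR.I_FormA
import Pool.Agent.Work.MP_8da9ea_nt.FR.I_FormB
import Pool.Agent.Work.MP_8da9ea_nt.FR.I_Fun
import Pool.Agent.Work.MP_8da9ea_nt.FR.I_Key
import Pool.Agent.Work.MP_8da9ea_nt.FR.I_LMV
import Pool.Agent.Work.MP_8da9ea_nt.FR.I_LamAddK
import Pool.Agent.Work.MP_8da9ea_nt.FR.I_LamMulK
import Pool.Agent.Work.MP_8da9ea_nt.FR.I_LamZeroK
import Pool.Agent.Work.MP_8da9ea_nt.FR.I_LocV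
import Pool.Agent.Work.MP_8da9ea_nt.FR.I_MixAx
import Pool.Agent.Work.MP_8da9ea_nt.FR.I_NZV
import Pool.Agent.Work.MP_8da9ea_nt.FR.I_NoSmall
import Pool.Agent.Work.MP_8da9ea_nt.FR.I_Pert
import Pool.Agent.Work.MP_8da9ea_nt.FR.I_RelE
import Pool.Agent.Work.MP_8da9ea_nt.FR.I_RelStab
import Pool.Agent.Work.MP_8da9ea_nt.FR.I_SLIex
import Pool.Agent.Work.MP_8da9ea_nt.FR.I_TIV
import Pool.Agent.Work.MP_8da9ea_nt.FR.I_ZEV
import Pool.Agent.Work.MP_8da9ea_nt.FR.I_Line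
import Pool.Agent.Work.MP_8da9ea_nt.FR.I_PertP
import Pool.Agent.Work.MP_8da9ea_nt.FR.I_CoreP
import Pool.Agent.Work.MP_8da9ea_nt.FR.I_FormBZ
import Pool.Agent.Work.MP_8da9ea_nt.FR.I_FormP
import Pool.Agent.Work.MP_8da9ea_nt.FR.I_NDform
import Pool.Agent.Work.MP_8da9ea_nt.FR.I_Indep
import Pool.Agent.Work.MP_8da9ea_nt.FR.I_NDex
import Pool.Agent.Work.MP_8da9ea_nt.FR.I_NoSmallC
import Pool.Agent.Work.MP_8da9ea_nt.FR.I_FRPG
import Pool.Agent.Work.MP_8da9ea_nt.FR.I_FRPV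
import Pool.Agent.Work.MP_8da9ea_nt.FR.I_TanDim
import Pool.Agent.Work.MP_8da9ea_nt.FR.I_MaxW
import Pool.Agent.Work.MP_8da9ea_nt.FR.I_KeyW
import Pool.Agent.Work.MP_8da9ea_nt.FR.I_CoreW
import Pool.Agent.Work.MP_8da9ea_nt.FR.I_BigW
import Pool.Agent.Work.MP_8da9ea_nt.FR.I_PrdSub
import Pool.Agent.Work.MP_8da9ea_nt.FR.I_NoSmallK
import Pool.Agent.Work.MP_8da9ea_nt.FR.I_NoSmallVK
import Pool.Agent.Work.MP_8da9ea_nt.FR.I_FRKG
import Pool.Agent.Work.MP_8da9ea_nt.FR.I_FRKA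
import Pool.Agent.Work.MP_8da9ea_nt.FR.I_FRKV
import Pool.Agent.Work.MP_8da9ea_nt.FR.I_KeyP
import Pool.Agent.Work.MP_8da9ea_nt.FR.I_PertW
import Pool.Agent.Work.MP_8da9ea_nt.FR.I_Dec
import Pool.Agent.Work.MP_8da9ea_nt.FR.I_MaxX
import Pool.Agent.Work.MP_8da9ea_nt.FR.I_FRPA
import Pool.Agent.Work.MP_8da9ea_nt.FR.I_NoSmallV
import Pool.Agent.Work.MP_8da9ea_nt.FR.U
import Pool.Agent.Work.MP_8da9ea_nt.FR.I_NoSmallCV
import Pool.Agent.Work.MP_8da9ea_nt.EB.Asm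

/-!
# Block FR: assembly
-/

set_option autoImplicit false

namespace Pool.Agent.Work.MP_8da9ea_nt.FR

open Pool.Agent.Work.MP_327059_nt.GL Pool.Agent.Work.MP_8da9ea_nt.S
  Pool.Agent.Work.MP_8da9ea_nt.EB

theorem x_LamAddK : S_LamAddK := LamAddK_pf
theorem x_LamMulK : S_LamMulK := LamMulK_pf x_LamAddK
theorem x_EtaAddK : S_EtaAddK := EtaAddK_pf x_LamAddK
theorem x_LamZeroK : S_LamZeroK := LamZeroK_pf
theorem x_ClosedK : S_ClosedK := ClosedK_pf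
theorem x_EtaMul : S_EtaMul := EtaMul_pf

theorem x_MixAx : S_MixAx := MixAx_pf Emb_pf x_LamAddK x_LamMulK x_LamZeroK

theorem x_AxF : S_AxF := AxF_pf x_MixAx x_EtaMul x_LamAddK x_LamMulK x_EtaAddK x_LamZeroK

theorem x_RelStab : S_RelStab := RelStab_pf x_ClosedK

theorem x_Key : S_Key := Key_pf x_AxF Fun_pf x_LamAddK x_LamMulK x_LamZeroK

theorem x_Core : S_Core := Core_pf x_Key Pert_pf RelE_pf EField_pf x_RelStab x_LamAddK x_EtaAddK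

theorem x_FormA : S_FormA := FormA_pf x_LamAddK x_EtaAddK

theorem x_FRMain : S_FRMain := FRMain_pf x_Core x_FormA FormB_pf NoSmall_pf

theorem x_FRTor : S_FRTor := FRTor_pf x_Core x_FormA FormB_pf NoSmall_pf

/-! Every lattice -/

theorem x_ZEV : S_ZEV :=
  ZEV_pf x_OpA Pop_pf Fac_pf (Branch_pf Surj_pf) Split_pf (Cnt_pf Surj_pf) Lin_pf Glob_pf
    FinV_pf x_ZRes

theorem x_NZV : S_NZV := NZV_pf x_ZEV LMV_pf x_ManyInd x_Sieg

theorem x_CritV : S_CritV :=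
  CritV_pf x_Tree x_TrueVal (ZUp_pf WpLow_pf) PEval_pf LocV_pf x_Crit x_Tensor

/-- The transcendence input for an arbitrary lattice. -/
theorem x_TIV : S_TIV := TIV_pf x_PsiE x_CritV x_NZV

/-! Polynomial families -/

theorem x_NDex : S_NDex := NDex_pf Indep_pf

theorem x_FormP : S_FormP := FormP_pf x_LamAddK x_EtaAddK

theorem x_KeyP : S_KeyP := KeyP_pf x_AxF Fun_pf

theorem x_CoreP : S_CoreP :=
  CoreP_pf x_KeyP PertP_pf RelE_pf EField_pf x_RelStab Line_pf x_LamAddK x_EtaAddK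

theorem x_FRPG : S_FRPG := FRPG_pf x_CoreP x_FormP FormBZ_pf x_NDex NDform_pf

/-! Exceptional sets of high codimension -/

theorem x_KeyW : S_KeyW := KeyW_pf x_AxF Fun_pf x_LamAddK x_LamMulK x_LamZeroK

theorem x_CoreW : S_CoreW :=
  CoreW_pf x_KeyW PertW_pf RelE_pf EField_pf x_RelStab x_LamAddK x_EtaAddK

theorem x_MaxX : S_MaxX := MaxX_pf MaxW_pf x_LamAddK x_EtaAddK

theorem x_FRKG : S_FRKG := FRKG_pf Dec_pf TanDim_pf x_MaxX x_CoreW BigW_pf FormBZ_pf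

theorem x_FRKAu : S_FRKAu := FRKAu_pf x_FRKG NoSmallC_pf PrdSub_pf

theorem x_NoSmallCV : S_NoSmallCV := NoSmallCV_pf x_TIV

theorem x_FRKVu : S_FRKVu := FRKVu_pf x_FRKG x_NoSmallCV PrdSub_pf

/-! Polynomial families, exceptional hypersurfaces -/

theorem x_FRPA : S_FRPA := FRPA_pf x_FRPG NoSmallC_pf

theorem x_FRPV : S_FRPV := FRPV_pf x_FRPG x_NoSmallCV

end Pool.Agent.Work.MP_8da9ea_nt.FR
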