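import Pool.Agent.Work.MP_8da9ea_nt.FR.StmtsF
import Pool.Agent.Work.MP_8da9ea_nt.FR.I_KeyW
import Pool.Agent.Work.MP_8da9ea_nt.FR.I_LMV

/-!
# [AxX] the step of Ax at a generic point
-/

set_option autoImplicit false

namespace Pool.Agent.Work.MP_8da9ea_nt.FR

open MvPolynomial Pool.Agent.Work.MP_327059_nt.GL Pool.Agent.Work.MP_8da9ea_nt.S
  Pool.Agent.Work.MP_8da9ea_nt.EB Pool.Agent.Work.MP_8da9ea_nt.EC

namespace I_AxX

open I_KeyW

/-- The values of the forms. -/
theorem omF_apply (τ μ : ℂ) {s n ρ D : ℕ} (e : Fin D → ℂ) (w : PX s n ρ × Fin D → ℂ)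
    (δ : Derivation ℚ ℂ ℂ) (p : PL s n ρ) :
    omF τ μ e w δ p = ∑ a, w (ix p, a) * f1 τ μ p (e a) δ := by
  unfold omF omB
  rw [LinearMap.pi_apply, LinearMap.sum_apply]
  rfl

/-- Endomorphisms are stable under complex conjugation. -/
theorem conj_kf {τ : ℂ} (hτ : 0 < τ.im) {g : ℂ} (hg : g ∈ kf τ) : (starRingEnd ℂ) g ∈ kf τ := by
  have hKf := Kf_pf τ hτ
  rw [hKf.2.1] at hg ⊢
  obtain ⟨N, hN, hI⟩ := hKf.2.2.1 g hg
  have h1 := I_LMV.conj_isI hτ hI
  rw [map_mul, map_natCast] at h1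
  have h2 : IsE τ ((N : ℂ) * (starRingEnd ℂ) g) := ⟨1, one_ne_zero, by simpa using h1.1,
    by simpa using h1.2⟩
  have h3 := (hKf.2.1 _).2 h2
  rw [← hKf.2.1]
  have hN0 : (N : ℂ) ≠ 0 := Nat.cast_ne_zero.2 hN
  have h4 : (starRingEnd ℂ) g = ((N : ℂ) * (starRingEnd ℂ) g) * ((N : ℂ))⁻¹ := by
    field_simp
  rw [h4]
  exact mul_mem h3 (inv_mem (natCast_mem _ N))

theorem swap {m s : ℕ} (κ : Fin s → ℂ) (q : Fin s → Fin m → ℂ) (x : Fin m → ℂ) :
    ∑ i, (∑ j, κ j * q j i) * x i = ∑ j, κ j * ∑ i, q j i * x i := by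
  simp only [Finset.sum_mul, Finset.mul_sum]
  rw [Finset.sum_comm]
  refine Finset.sum_congr rfl fun j _ => Finset.sum_congr rfl fun i _ => ?_
  ring

end I_AxX

open I_AxX I_KeyW in
/-- **F7** -/
theorem AxX_pf (h1 : S_AxF) (h3 : S_RelDown) (l1 : S_LamAddK) (l2 : S_LamMulK)
    (l4 : S_LamZeroK) : S_AxX := by
  classical
  intro τ μ k₁ E₁ s n ρ D hKF hk e ξ E hGn hξ κ hκ hne hrel x hx
  have hE : ACl E₁ := hKF.acl
  set A : Fin D → ℂ := fun a => ∑ j, κ (Sum.inl j) * ξ (Sum.inl j, a) with hA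
  set B : Fin D → ℂ := fun a => ∑ j, κ (Sum.inr (Sum.inl (j, false))) * ξ (Sum.inr (Sum.inl j), a)
    with hB
  set C : Fin D → ℂ := fun a => ∑ j, κ (Sum.inr (Sum.inl (j, true))) * ξ (Sum.inr (Sum.inl j), a)
    with hC
  set T : ℂ := -∑ l, κ (Sum.inr (Sum.inr l)) * ∑ a, ξ (Sum.inr (Sum.inr l), a) * e a with hT
  have hAE : ∀ a, A a ∈ E₁ := fun a => sum_mem fun j _ => mul_mem (hκ _) (hξ _)
  have hBE : ∀ a, B a ∈ E₁ := fun a => sum_mem fun j _ => mul_mem (hκ _) (hξ _)
  have hCE : ∀ a, C a ∈ E₁ := fun a => sum_mem fun j _ => mul_mem (hκ _) (hξ _)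
  -- the relation
  have hmain : ∀ δ ∈ DK E₁, ∑ a, A a * th δ (e a) + (∑ a, B a * lam τ μ δ (e a) +
      ∑ a, C a * etf τ μ δ (e a)) = δ T := by
    intro δ hδ
    have h := hrel δ hδ
    rw [Fintype.sum_sum_type, Fintype.sum_sum_type, Fintype.sum_prod_type] at h
    simp only [Fintype.sum_bool, omF_apply] at h
    rw [Finset.sum_add_distrib] at h
    have e1 : ∑ a, A a * th δ (e a) =
        ∑ j, κ (Sum.inl j) * ∑ a, ξ (Sum.inl j, a) * th δ (e a) := swap _ _ _
    have e2 : ∑ a, B a * lam τ μ δ (e a) = ∑ j, κ (Sum.inr (Sum.inl (j, false))) *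
        ∑ a, ξ (Sum.inr (Sum.inl j), a) * lam τ μ δ (e a) := swap _ _ _
    have e3 : ∑ a, C a * etf τ μ δ (e a) = ∑ j, κ (Sum.inr (Sum.inl (j, true))) *
        ∑ a, ξ (Sum.inr (Sum.inl j), a) * etf τ μ δ (e a) := swap _ _ _
    have e4 : δ T = -∑ l, κ (Sum.inr (Sum.inr l)) *
        ∑ a, ξ (Sum.inr (Sum.inr l), a) * δ (e a) := by
      rw [hT, map_neg, map_sum]
      congr 1
      refine Finset.sum_congr rfl fun l _ => ?_
      rw [Derivation.leibniz, hδ _ (hκ _), smul_zero, add_zero, smul_eq_mul, map_sum]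
      congr 1
      refine Finset.sum_congr rfl fun a _ => ?_
      rw [Derivation.leibniz, hδ _ (hξ _), smul_zero, add_zero, smul_eq_mul]
    have f1' : ∀ j a, f1 (s := s) (n := n) (ρ := ρ) τ μ (Sum.inl j) (e a) δ = th δ (e a) :=
      fun j a => rfl
    have f2' : ∀ j a, f1 (s := s) (n := n) (ρ := ρ) τ μ (Sum.inr (Sum.inl (j, false))) (e a) δ =
        lam τ μ δ (e a) := fun j a => rfl
    have f3' : ∀ j a, f1 (s := s) (n := n) (ρ := ρ) τ μ (Sum.inr (Sum.inl (j, true))) (e a) δ =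
        etf τ μ δ (e a) := fun j a => rfl
    have f4' : ∀ l a, f1 (s := s) (n := n) (ρ := ρ) τ μ (Sum.inr (Sum.inr l)) (e a) δ =
        δ (e a) := fun j a => rfl
    simp only [f1', f2', f3', f4', ix] at h
    rw [e1, e2, e3, e4]
    linear_combination h
  -- the theorem of Ax
  have hax : (∀ g : ℂ →ₗ[ℚ] ℚ, (∀ x, Complex.exp x ∈ E₁ → g x = 0) →
      ∑ a, A a * (g (e a) : ℂ) = 0) ∧ (0 < n → ∀ g : ℂ →ₗ[kf τ] kf τ,
        (∀ x, (x ∈ Lam τ ∨ xe τ μ x ∈ E₁) → g x = 0) →
        ∑ a, C a * (starRingEnd ℂ) (g (e a) : ℂ) = 0 ∧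
        ((∀ a, C a = 0) → ∑ a, B a * (g (e a) : ℂ) = 0)) := by
    rcases Nat.eq_zero_or_pos n with hn | hn
    · have hKF0 : KF 0 τ μ E₁ := ⟨hKF.cnt, hKF.acl, fun h => absurd h (lt_irrefl 0)⟩
      have h := h1 τ μ E₁ D 0 hKF0 e (fun j => j.elim0)
        (Sum.elim A (fun o => o.1.elim0)) (by
          rintro (a | o)
          · exact hAE a
          · exact o.1.elim0) T (by
          intro δ hδ
          rw [← hmain δ hδ, Fintype.sum_sum_type]
          have e0 : ∑ o : Fin 0 × Bool, Sum.elim A (fun o => o.1.elim0) (Sum.inr o) *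
              omV τ μ e (fun j : Fin 0 => j.elim0) δ (Sum.inr o) = 0 :=
            Finset.sum_eq_zero fun o _ => o.1.elim0
          have e5 : ∑ a, B a * lam τ μ δ (e a) = 0 := Finset.sum_eq_zero fun a _ => by
            have : B a = 0 := Finset.sum_eq_zero fun j _ => absurd (Fin.pos j) (by omega)
            rw [this, zero_mul]
          have e6 : ∑ a, C a * etf τ μ δ (e a) = 0 := Finset.sum_eq_zero fun a _ => by
            have : C a = 0 := Finset.sum_eq_zero fun j _ => absurd (Fin.pos j) (by omega)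
            rw [this, zero_mul]
          rw [e0, e5, e6, add_zero, add_zero, add_zero]
          rfl)
      exact ⟨h.1, fun h' => absurd h' (by omega)⟩
    · have hKFD : KF D τ μ E₁ := ⟨hKF.cnt, hKF.acl, fun _ => hKF.ell hn⟩
      have h := h1 τ μ E₁ D D hKFD e e
        (Sum.elim A (fun o => if o.2 then C o.1 else B o.1)) (by
          rintro (a | ⟨a, b⟩)
          · exact hAE a
          · cases b
            · exact hBE a
            · exact hCE a) T (by
          intro δ hδ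
          rw [← hmain δ hδ, Fintype.sum_sum_type, Fintype.sum_prod_type]
          simp only [Fintype.sum_bool]
          rw [Finset.sum_add_distrib, add_comm (∑ a, B a * lam τ μ δ (e a))]
          rfl)
      refine ⟨h.1, fun _ g hg => ⟨(h.2 g hg).1, fun h0 => (h.2 g hg).2 h0⟩⟩
  -- the toric places
  by_cases htor : ∃ j, κ (Sum.inl j) ≠ 0
  · left
    obtain ⟨j₀, hj₀⟩ := htor
    let G : Type := {g : ℂ →ₗ[ℚ] ℚ // ∀ x, Complex.exp x ∈ E₁ → g x = 0}
    let M : Fin s → G → MvPolynomial (PX s n ρ × Fin D) k₁ := fun j g =>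
      ∑ a, MvPolynomial.C (algebraMap ℚ k₁ (g.1 (e a))) * X (Sum.inl j, a)
    have hval : ∀ j g, av x (M j g) = (g.1 (pt e x (Sum.inl j)) : ℂ) := by
      intro j g
      have h5 : pt e x (Sum.inl j) = ∑ a, x (Sum.inl j, a) • e a :=
        Finset.sum_congr rfl fun a _ => (Rat.smul_def _ _).symm
      unfold av
      rw [h5, map_sum, map_sum]
      push_cast
      refine Finset.sum_congr rfl fun a _ => ?_
      rw [map_mul, aeval_C, aeval_X, map_smul, smul_eq_mul]
      push_cast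
      rw [mul_comm]
      rfl
    have hvalξ : ∀ j g, aeval ξ (M j g) = ∑ a, ξ (Sum.inl j, a) * (g.1 (e a) : ℂ) := by
      intro j g
      rw [map_sum]
      refine Finset.sum_congr rfl fun a _ => ?_
      rw [map_mul, aeval_C, aeval_X, mul_comm]
      rfl
    have hbot : ∀ r : ℚ, (r : ℂ) ∈ (⊥ : IntermediateField ℚ ℂ) :=
      fun r => SubfieldClass.ratCast_mem _ _
    have hval2 : ∀ y ∈ E, ∀ (j : Fin s) (g : G), av y (M j g) ∈ (⊥ : IntermediateField ℚ ℂ) := by
      intro y _ j g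
      unfold av
      rw [map_sum]
      refine sum_mem fun a _ => ?_
      rw [map_mul, aeval_C, aeval_X]
      exact mul_mem (hbot _) (hbot _)
    obtain ⟨c, hc, hc0, hcg⟩ := h3 k₁ ⊥ (PX s n ρ × Fin D) G s ξ E hGn M hval2
      ⟨fun j => κ (Sum.inl j), fun h => hj₀ (congrFun h j₀), fun g => by
        have h5 := hax.1 g.1 g.2
        rw [hA, swap] at h5
        rw [← h5]
        exact Finset.sum_congr rfl fun j _ => by rw [hvalξ]⟩ x hx
    have hc' : ∀ j, ∃ r : ℚ, (r : ℂ) = c j := by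
      intro j
      obtain ⟨r, hr⟩ := IntermediateField.mem_bot.mp (hc j)
      exact ⟨r, by rw [← hr]; simp⟩
    choose r hr using hc'
    refine ⟨r, ?_, ?_⟩
    · intro h0
      apply hc0
      funext j
      rw [← hr j, h0]
      simp
    · by_contra hno
      obtain ⟨g, hg, hgS⟩ := Submodule.exists_le_ker_of_notMem (p := SE hE)
        (v := ∑ j, (r j : ℂ) * pt e x (Sum.inl j)) hno
      apply hg
      have h6 := hcg ⟨g, fun x hx => hgS hx⟩
      have h8 : ∑ j, (r j : ℂ) * pt e x (Sum.inl j) = ∑ j, r j • pt e x (Sum.inl j) :=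
        Finset.sum_congr rfl fun j _ => (Rat.smul_def _ _).symm
      have h9 : (g (∑ j, (r j : ℂ) * pt e x (Sum.inl j)) : ℂ) = 0 := by
        rw [h8, map_sum]
        push_cast
        rw [← h6]
        refine Finset.sum_congr rfl fun j _ => ?_
        rw [hval, map_smul, smul_eq_mul, ← hr j]
        push_cast
        rfl
      exact_mod_cast h9
  -- the elliptic places
  · have hκ0 : ∀ j, κ (Sum.inl j) = 0 := by
      intro j
      by_contra h
      exact htor ⟨j, h⟩
    obtain ⟨o₀, ho₀⟩ := hne.resolve_left htor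
    have hn : 0 < n := Fin.pos o₀.1
    have hG : GF τ μ E₁ := (hKF.ell hn).1
    have hKf := Kf_pf τ hG.im
    have hkk := hk hn
    right
    let G : Type := {g : ℂ →ₗ[kf τ] kf τ // ∀ x, (x ∈ Lam τ ∨ xe τ μ x ∈ E₁) → g x = 0}
    -- the final step
    have hfin : ∀ c : Fin n → ℂ, (∀ j, c j ∈ kf τ) → c ≠ 0 →
        (∀ g : G, ∑ j, c j * (g.1 (pt e x (Sum.inr (Sum.inl j))) : ℂ) = 0) →
        ∃ g : Fin n → ℂ, (∀ j, IsE τ (g j)) ∧ g ≠ 0 ∧
          (∑ j, g j * pt e x (Sum.inr (Sum.inl j)) ∈ Lam τ ∨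
            xe τ μ (∑ j, g j * pt e x (Sum.inr (Sum.inl j))) ∈ E₁) := by
      intro c hc hc0 hcg
      refine ⟨c, fun j => (hKf.2.1 _).1 (hc j), hc0, ?_⟩
      rw [← l4 τ μ E₁ hG hE]
      change ∑ j, c j * pt e x (Sum.inr (Sum.inl j)) ∈ SL l1 l2 hG
      by_contra hno
      obtain ⟨g, hg, hgS⟩ := Submodule.exists_le_ker_of_notMem hno
      have hgz : ∀ x, (x ∈ Lam τ ∨ xe τ μ x ∈ E₁) → g x = 0 := by
        intro x hx
        have h3 : x ∈ SL l1 l2 hG := (l4 τ μ E₁ hG hE x).mpr hx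
        exact hgS h3
      have h6 := hcg ⟨g, hgz⟩
      have h8 : ∑ j, c j * pt e x (Sum.inr (Sum.inl j)) =
          ∑ j, (⟨c j, hc j⟩ : kf τ) • pt e x (Sum.inr (Sum.inl j)) :=
        Finset.sum_congr rfl fun j _ => rfl
      apply hg
      have h9 : ((g (∑ j, c j * pt e x (Sum.inr (Sum.inl j))) : kf τ) : ℂ) = 0 := by
        rw [h8, map_sum]
        have h10 : ((∑ j, g ((⟨c j, hc j⟩ : kf τ) • pt e x (Sum.inr (Sum.inl j))) : kf τ) : ℂ) =
            ∑ j, ((g ((⟨c j, hc j⟩ : kf τ) • pt e x (Sum.inr (Sum.inl j))) : kf τ) : ℂ) :=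
          map_sum (algebraMap (kf τ) ℂ) _ _
        rw [h10, ← h6]
        refine Finset.sum_congr rfl fun j _ => ?_
        rw [map_smul, smul_eq_mul]
        rfl
      exact Subtype.ext h9
    -- the point as a combination
    have hpt : ∀ (g : G) j, ((g.1 (pt e x (Sum.inr (Sum.inl j))) : kf τ) : ℂ) =
        ∑ a, (x (Sum.inr (Sum.inl j), a) : ℂ) * ((g.1 (e a) : kf τ) : ℂ) := by
      intro g j
      have h5 : pt e x (Sum.inr (Sum.inl j)) =
          ∑ a, (algebraMap ℚ (kf τ) (x (Sum.inr (Sum.inl j), a))) • e a :=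
        Finset.sum_congr rfl fun a _ => by
          rw [Algebra.smul_def]
          rfl
      rw [h5, map_sum]
      have h10 : ((∑ a, g.1 ((algebraMap ℚ (kf τ) (x (Sum.inr (Sum.inl j), a))) • e a) : kf τ) :
          ℂ) = ∑ a, ((g.1 ((algebraMap ℚ (kf τ) (x (Sum.inr (Sum.inl j), a))) • e a) : kf τ) :
            ℂ) := map_sum (algebraMap (kf τ) ℂ) _ _
      rw [h10]
      refine Finset.sum_congr rfl fun a _ => ?_
      rw [map_smul, smul_eq_mul]
      rfl
    by_cases hC0 : ∃ j, κ (Sum.inr (Sum.inl (j, true))) ≠ 0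
    · obtain ⟨j₀, hj₀⟩ := hC0
      let M : Fin n → G → MvPolynomial (PX s n ρ × Fin D) k₁ := fun j g =>
        ∑ a, MvPolynomial.C (⟨(starRingEnd ℂ) (g.1 (e a) : ℂ),
          hkk (conj_kf hG.im (g.1 (e a)).2)⟩ : k₁) * X (Sum.inr (Sum.inl j), a)
      have hval : ∀ (y : PX s n ρ × Fin D → ℚ) (j : Fin n) (g : G), av y (M j g) =
          ∑ a, (y (Sum.inr (Sum.inl j), a) : ℂ) * (starRingEnd ℂ) (g.1 (e a) : ℂ) := by
        intro y j g
        unfold av
        rw [map_sum]
        refine Finset.sum_congr rfl fun a _ => ?_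
        rw [map_mul, aeval_C, aeval_X, mul_comm]
        rfl
      have hvalξ : ∀ (j : Fin n) (g : G), aeval ξ (M j g) =
          ∑ a, ξ (Sum.inr (Sum.inl j), a) * (starRingEnd ℂ) (g.1 (e a) : ℂ) := by
        intro j g
        rw [map_sum]
        refine Finset.sum_congr rfl fun a _ => ?_
        rw [map_mul, aeval_C, aeval_X, mul_comm]
        rfl
      obtain ⟨c, hc, hc0, hcg⟩ := h3 k₁ (kf τ) (PX s n ρ × Fin D) G n ξ E hGn M (by
          intro y _ j g
          rw [hval]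
          exact sum_mem fun a _ => mul_mem (SubfieldClass.ratCast_mem _ _)
            (conj_kf hG.im (g.1 (e a)).2))
        ⟨fun j => κ (Sum.inr (Sum.inl (j, true))), fun h => hj₀ (congrFun h j₀), fun g => by
          have h5 := (hax.2 hn g.1 g.2).1
          rw [hC, swap] at h5
          rw [← h5]
          exact Finset.sum_congr rfl fun j _ => by rw [hvalξ]⟩ x hx
      refine hfin (fun j => (starRingEnd ℂ) (c j)) (fun j => conj_kf hG.im (hc j)) ?_ ?_
      · intro h0
        apply hc0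
        funext j
        have h5 := congrFun h0 j
        simpa using h5
      · intro g
        have h5 := congrArg (starRingEnd ℂ) (hcg g)
        rw [map_sum, map_zero] at h5
        rw [← h5]
        refine Finset.sum_congr rfl fun j _ => ?_
        rw [map_mul, hval, map_sum, hpt]
        congr 1
        refine Finset.sum_congr rfl fun a _ => ?_
        rw [map_mul, Complex.conj_conj]
        congr 1
        simp
    · have hC1 : ∀ j, κ (Sum.inr (Sum.inl (j, true))) = 0 := by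
        intro j
        by_contra h
        exact hC0 ⟨j, h⟩
      have hCz : ∀ a, C a = 0 := fun a => Finset.sum_eq_zero fun j _ => by rw [hC1, zero_mul]
      have hb : κ (Sum.inr (Sum.inl (o₀.1, false))) ≠ 0 := by
        rcases o₀ with ⟨j, b⟩
        cases b
        · exact ho₀
        · exact absurd (hC1 j) ho₀
      let M : Fin n → G → MvPolynomial (PX s n ρ × Fin D) k₁ := fun j g =>
        ∑ a, MvPolynomial.C (⟨(g.1 (e a) : ℂ), hkk (g.1 (e a)).2⟩ : k₁) *
          X (Sum.inr (Sum.inl j), a)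
      have hval : ∀ (y : PX s n ρ × Fin D → ℚ) (j : Fin n) (g : G), av y (M j g) =
          ∑ a, (y (Sum.inr (Sum.inl j), a) : ℂ) * (g.1 (e a) : ℂ) := by
        intro y j g
        unfold av
        rw [map_sum]
        refine Finset.sum_congr rfl fun a _ => ?_
        rw [map_mul, aeval_C, aeval_X, mul_comm]
        rfl
      have hvalξ : ∀ (j : Fin n) (g : G), aeval ξ (M j g) =
          ∑ a, ξ (Sum.inr (Sum.inl j), a) * (g.1 (e a) : ℂ) := by
        intro j g
        rw [map_sum]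
        refine Finset.sum_congr rfl fun a _ => ?_
        rw [map_mul, aeval_C, aeval_X, mul_comm]
        rfl
      obtain ⟨c, hc, hc0, hcg⟩ := h3 k₁ (kf τ) (PX s n ρ × Fin D) G n ξ E hGn M (by
          intro y _ j g
          rw [hval]
          exact sum_mem fun a _ => mul_mem (SubfieldClass.ratCast_mem _ _) (g.1 (e a)).2)
        ⟨fun j => κ (Sum.inr (Sum.inl (j, false))), fun h => hb (congrFun h o₀.1), fun g => by
          have h5 := (hax.2 hn g.1 g.2).2 hCz
          rw [hB, swap] at h5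
          rw [← h5]
          exact Finset.sum_congr rfl fun j _ => by rw [hvalξ]⟩ x hx
      refine hfin c hc hc0 fun g => ?_
      rw [← hcg g]
      refine Finset.sum_congr rfl fun j _ => ?_
      rw [hval, hpt]

end Pool.Agent.Work.MP_8da9ea_nt.FR
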