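import Pool.Agent.Work.MP_8da9ea_nt.FR.StmtsF
import Pool.Agent.Work.MP_8da9ea_nt.FR.I_EField

/-!
# Block FK, item F8: finitely many small fields
-/

set_option autoImplicit false

namespace Pool.Agent.Work.MP_8da9ea_nt.FR

open MvPolynomial Pool.Agent.Work.MP_327059_nt.GL Pool.Agent.Work.MP_8da9ea_nt.S
  Pool.Agent.Work.MP_8da9ea_nt.EB Pool.Agent.Work.MP_8da9ea_nt.EC

namespace I_FK

/-- the algebraic closure in `ℂ` of the field generated by a set -/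
noncomputable def cl (S : Set ℂ) : IntermediateField ℚ ℂ := I_EField.clos (fun x : S => (x : ℂ))

theorem mem_cl {S : Set ℂ} {x : ℂ} (hx : x ∈ S) : x ∈ cl S :=
  I_EField.self_mem (fun x : S => (x : ℂ)) ⟨x, hx⟩

theorem cl_acl (S : Set ℂ) : ACl (cl S) := I_EField.clos_acl _

theorem cl_cnt {S : Set ℂ} (hS : S.Countable) : Countable (cl S) := by
  have h1 : (Set.range (fun x : S => (x : ℂ))) = S := Subtype.range_coe
  have h := EB.I_AxOutE.countable_adj (Set.range (fun x : S => (x : ℂ))) (by rw [h1]; exact hS)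
  have hcount := Algebraic.countable
    (IntermediateField.adjoin ℚ (Set.range (fun x : S => (x : ℂ)))) ℂ
  refine Set.Countable.to_subtype (hcount.mono ?_)
  intro e he
  exact (I_EField.mem_clos _ e).1 he

theorem cl_der {S : Set ℂ} (δ : Derivation ℚ ℂ ℂ) (h : ∀ x ∈ S, δ x = 0) : δ ∈ DK (cl S) :=
  I_EField.der_clos _ δ fun i => h i i.2

theorem alg_mono {E F : IntermediateField ℚ ℂ} (h : E ≤ F) {x : ℂ} (hx : IsAlgebraic E x) :
    IsAlgebraic F x := by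
  let _ : Algebra E F := (IntermediateField.inclusion h).toAlgebra
  have _ : IsScalarTower E F ℂ := IsScalarTower.of_algebraMap_eq fun _ => rfl
  exact hx.extendScalars (IntermediateField.inclusion h).injective

theorem acl_inf {E F : IntermediateField ℚ ℂ} (hE : ACl E) (hF : ACl F) : ACl (E ⊓ F) :=
  fun x hx => ⟨hE x (alg_mono inf_le_left hx), hF x (alg_mono inf_le_right hx)⟩

theorem cnt_mono {E F : IntermediateField ℚ ℂ} (h : E ≤ F) (hF : Countable F) : Countable E :=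
  (IntermediateField.inclusion h).injective.countable

theorem kf_mono {n : ℕ} {τ μ : ℂ} {K F : IntermediateField ℚ ℂ} (h : KF n τ μ K) (hK : K ≤ F)
    (hc : Countable F) (ha : ACl F) : KF n τ μ F :=
  ⟨hc, ha, fun hn => ⟨⟨(h.ell hn).1.im, (h.ell hn).1.mu, hK (h.ell hn).1.g2, hK (h.ell hn).1.g3⟩,
    ⟨hK (h.ell hn).2.mu, hK (h.ell hn).2.tau, hK (h.ell hn).2.et, hK (h.ell hn).2.kap⟩⟩⟩

theorem isE_cnt (τ : ℂ) : {g | IsE τ g}.Countable := by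
  have hL : (Lam τ).Countable := Set.countable_range _
  have h : {g | IsE τ g} ⊆ ⋃ N : ℤ, (fun y : ℂ => y / (N : ℂ)) '' (Lam τ) := by
    rintro g ⟨N, hN, h1, -⟩
    refine Set.mem_iUnion.2 ⟨N, _, h1, ?_⟩
    have h2 : (N : ℂ) ≠ 0 := by exact_mod_cast hN
    exact mul_div_cancel_left₀ g h2
  exact (Set.countable_iUnion fun N => hL.image _).mono h

theorem kf_cnt (τ : ℂ) : Countable (kf τ) := EB.I_AxOutE.countable_adj _ (isE_cnt τ)

/-- the points of the `kf τ`-span -/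
def TS (τ : ℂ) {D : ℕ} (e : Fin D → ℂ) : Set ℂ :=
  Set.range (fun c : Fin D → kf τ => ∑ a, (c a : ℂ) * e a)

theorem ts_cnt (τ : ℂ) {D : ℕ} (e : Fin D → ℂ) : (TS τ e).Countable := by
  have := kf_cnt τ
  exact Set.countable_range _

theorem omF_apply (τ μ : ℂ) {s n ρ D : ℕ} (e : Fin D → ℂ) (w : PX s n ρ × Fin D → ℂ)
    (δ : Derivation ℚ ℂ ℂ) (p : PL s n ρ) :
    omF τ μ e w δ p = ∑ a, w (ix p, a) * f1 τ μ p (e a) δ := by
  unfold omF omB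
  rw [LinearMap.pi_apply, LinearMap.sum_apply]
  rfl

/-- finitely many derivations suffice -/
theorem span_fam {T V : Type} [AddCommGroup T] [Module ℂ T] [AddCommGroup V] [Module ℂ V]
    [FiniteDimensional ℂ V] (S : Submodule ℂ T) (Φ : T →ₗ[ℂ] V) :
    ∃ (t : ℕ) (δ : Fin t → T), (∀ i, δ i ∈ S) ∧
      ∀ x ∈ S, Φ x ∈ Submodule.span ℂ (Set.range fun i => Φ (δ i)) := by
  obtain ⟨t, v, hv⟩ := Submodule.fg_iff_exists_fin_generating_family.1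
    (IsNoetherian.noetherian (S.map Φ))
  have h1 : ∀ i, ∃ y ∈ S, Φ y = v i := by
    intro i
    have h2 : v i ∈ S.map Φ := by
      rw [← hv]
      exact Submodule.subset_span ⟨i, rfl⟩
    exact Submodule.mem_map.1 h2
  choose δ hδ hδv using h1
  refine ⟨t, δ, hδ, fun x hx => ?_⟩
  have h3 : (fun i => Φ (δ i)) = v := funext hδv
  rw [h3, hv]
  exact Submodule.mem_map_of_mem hx

/-- a relation on a spanning family is a relation -/
theorem rel_span {τ μ : ℂ} {s n ρ D t : ℕ} {e : Fin D → ℂ} {K : IntermediateField ℚ ℂ}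
    {δ : Fin t → Derivation ℚ ℂ ℂ}
    (hδ : ∀ x ∈ DK K, (LinearMap.pi fun q : PL s n ρ × Fin D => f1 τ μ q.1 (e q.2)) x ∈
      Submodule.span ℂ (Set.range fun i =>
        (LinearMap.pi fun q : PL s n ρ × Fin D => f1 τ μ q.1 (e q.2)) (δ i)))
    (w : PX s n ρ × Fin D → ℂ) (κ : PL s n ρ → ℂ)
    (h : ∀ i, ∑ p, κ p * omF τ μ e w (δ i) p = 0) :
    ∀ x ∈ DK K, ∑ p, κ p * omF τ μ e w x p = 0 := by
  intro x hx
  let L : (PL s n ρ × Fin D → ℂ) →ₗ[ℂ] ℂ :=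
    ∑ p : PL s n ρ, κ p • ∑ a : Fin D, w (ix p, a) • LinearMap.proj (p, a)
  have hL : ∀ y : Derivation ℚ ℂ ℂ,
      L ((LinearMap.pi fun q : PL s n ρ × Fin D => f1 τ μ q.1 (e q.2)) y) =
        ∑ p, κ p * omF τ μ e w y p := by
    intro y
    simp only [L, LinearMap.sum_apply, LinearMap.smul_apply, LinearMap.proj_apply,
      LinearMap.pi_apply, smul_eq_mul, omF_apply]
  have h1 : Submodule.span ℂ (Set.range fun i =>
      (LinearMap.pi fun q : PL s n ρ × Fin D => f1 τ μ q.1 (e q.2)) (δ i)) ≤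
      LinearMap.ker L := by
    rw [Submodule.span_le]
    rintro _ ⟨i, rfl⟩
    show L _ = 0
    rw [hL, h i]
  have h2 := h1 (hδ x hx)
  rw [LinearMap.mem_ker, hL] at h2
  exact h2

/-- the field of a component -/
theorem comp (h4 : S_Stb) (h5 : S_TrB) (h7 : S_AxX) {τ μ : ℂ} {N s n ρ D : ℕ}
    {K₀ k₁ : IntermediateField ℚ ℂ} (hK : KF n τ μ K₀) (hN : ¬ HasTrdeg K₀ (N + 1))
    (hKk : K₀ ≤ k₁) (hk : Countable k₁) (hka : ACl k₁) (hkf : 0 < n → kf τ ≤ k₁)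
    (e : Fin D → ℂ) (hcl : ClF K₀ (fun (p : PL s n ρ) a => f1 τ μ p (e a)))
    (hexp : ∀ c : Fin D → ℚ, Complex.exp (∑ a, (c a : ℂ) * e a) ∈ k₁)
    (hxe : ∀ c : Fin D → kf τ, xe τ μ (∑ a, (c a : ℂ) * e a) ∈ k₁)
    (ξ : PX s n ρ × Fin D → ℂ) (E : Set (PX s n ρ × Fin D → ℚ)) (hG : Gn k₁ ξ E)
    (p₀ : PL s n ρ) (hp₀ : (∃ j, p₀ = Sum.inl j) ∨ ∃ o, p₀ = Sum.inr (Sum.inl o))
    (hrel : ∃ κ : PL s n ρ → ℂ, κ p₀ ≠ 0 ∧ ∀ δ ∈ DK K₀, ∑ p, κ p * omF τ μ e ξ δ p = 0) :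
    ∃ F : IntermediateField ℚ ℂ, (KF n τ μ F ∧ K₀ ≤ F ∧ ¬ HasTrdeg F (N + s + 2 * n + ρ)) ∧
      ∀ x ∈ E, Sm τ μ F (fun j => pt e x (Sum.inl j)) (fun j => pt e x (Sum.inr (Sum.inl j))) := by
  have hcK := hK.cnt
  set K₁ : IntermediateField ℚ ℂ := IntermediateField.adjoin ℚ ((K₀ : Set ℂ) ∪ Set.range ξ) with hK₁
  have hK01 : K₀ ≤ K₁ := fun x hx => IntermediateField.subset_adjoin _ _ (Or.inl hx)
  have hξ1 : ∀ i, ξ i ∈ K₁ := fun i => IntermediateField.subset_adjoin _ _ (Or.inr ⟨i, rfl⟩)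
  have hDK : ∀ δ ∈ DK K₁, δ ∈ DK K₀ := fun δ hδ x hx => hδ x (hK01 hx)
  obtain ⟨κ₁, hκ₁, hr₁⟩ := hrel
  obtain ⟨κ, hκ, hr, hst⟩ := h4 K₀ (PL s n ρ) (Fin D) _ hcl (fun p a => ξ (ix p, a)) K₁ hK01
    (fun p a => hξ1 _) p₀ ⟨κ₁, hκ₁, fun δ hδ => hr₁ δ (hDK δ hδ)⟩
  have hr' : ∀ δ ∈ DK K₁, ∑ p, κ p * omF τ μ e ξ δ p = 0 := hr
  have hst' : ∀ δ ∈ DK K₁, omF τ μ e ξ δ = 0 → ∀ p, δ (κ p) = 0 := hst
  -- the field `E₁`
  set S₁ : Set ℂ := (K₁ : Set ℂ) ∪ Set.range κ with hS₁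
  have hcK1 : Countable K₁ := EB.I_AxOutE.countable_adj _
    ((Set.to_countable (K₀ : Set ℂ)).union (Set.countable_range ξ))
  have hS₁c : S₁.Countable := (Set.to_countable (K₁ : Set ℂ)).union (Set.countable_range κ)
  have hE1K : K₁ ≤ cl S₁ := fun x hx => mem_cl (Or.inl hx)
  have hE1κ : ∀ p, κ p ∈ cl S₁ := fun p => mem_cl (Or.inr ⟨p, rfl⟩)
  have hKFE : KF n τ μ (cl S₁) := kf_mono hK (hK01.trans hE1K) (cl_cnt hS₁c) (cl_acl S₁)
  have hDE : ∀ δ ∈ DK (cl S₁), δ ∈ DK K₁ := fun δ hδ x hx => hδ x (hE1K hx)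
  have hF0 : K₀ ≤ cl S₁ ⊓ k₁ := le_inf (hK01.trans hE1K) hKk
  refine ⟨cl S₁ ⊓ k₁, ⟨kf_mono hK hF0 (cnt_mono inf_le_right hk) (acl_inf (cl_acl S₁) hka), hF0, ?_⟩,
    ?_⟩
  · have hne : κ ≠ 0 := fun h => hκ (by rw [h]; rfl)
    have h := h5 K₀ k₁ hKk (PX s n ρ × Fin D) (PL s n ρ) ξ E hG (omF τ μ e ξ) κ hne hr' N hN
      (cl S₁ ⊓ k₁) inf_le_right ?_
    · have hcard : N + Fintype.card (PL s n ρ) = N + s + 2 * n + ρ := by
        simp only [Fintype.card_sum, Fintype.card_prod, Fintype.card_fin, Fintype.card_bool]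
        ring
      rw [hcard] at h
      exact h
    · intro δ hδ h0 x hx
      refine cl_der (S := S₁) δ ?_ x hx.1
      rintro y (hy | ⟨p, rfl⟩)
      · exact hδ y hy
      · exact hst' δ hδ h0 p
  · intro x hx
    have hnz : (∃ j, κ (Sum.inl j) ≠ 0) ∨ ∃ o, κ (Sum.inr (Sum.inl o)) ≠ 0 := by
      rcases hp₀ with ⟨j, rfl⟩ | ⟨o, rfl⟩
      · exact Or.inl ⟨j, hκ⟩
      · exact Or.inr ⟨o, hκ⟩
    have h := h7 τ μ k₁ (cl S₁) s n ρ D hKFE hkf e ξ E hG (fun i => hE1K (hξ1 i)) κ hE1κ hnz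
      (fun δ hδ => hr' δ (hDE δ hδ)) x hx
    rcases h with ⟨c, hc, h⟩ | ⟨g, hg, hg0, h⟩
    · refine Or.inl ⟨c, hc, h, ?_⟩
      have h8 := hexp (fun a => ∑ j, c j * x (Sum.inl j, a))
      have h9 : (∑ a, ((∑ j, c j * x (Sum.inl j, a) : ℚ) : ℂ) * e a) =
          ∑ j, (c j : ℂ) * pt e x (Sum.inl j) := by
        unfold pt
        simp only [Rat.cast_sum, Rat.cast_mul, Finset.sum_mul, Finset.mul_sum]
        rw [Finset.sum_comm]
        refine Finset.sum_congr rfl fun j _ => Finset.sum_congr rfl fun a _ => ?_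
        ring
      rw [h9] at h8
      exact h8
    · refine Or.inr ⟨g, hg, hg0, ?_⟩
      rcases h with h | h
      · exact Or.inl h
      · refine Or.inr ⟨h, ?_⟩
        have hgk : ∀ j, g j ∈ kf τ := fun j => IntermediateField.subset_adjoin _ _ (hg j)
        have hq : ∀ q : ℚ, (q : ℂ) ∈ kf τ := fun q => (kf τ).algebraMap_mem q
        have hmem : ∀ a, ∑ j, g j * (x (Sum.inr (Sum.inl j), a) : ℂ) ∈ kf τ := fun a =>
          sum_mem fun j _ => mul_mem (hgk j) (hq _)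
        have h8 := hxe (fun a => ⟨_, hmem a⟩)
        have h9 : (∑ a, ((∑ j, g j * (x (Sum.inr (Sum.inl j), a) : ℂ))) * e a) =
            ∑ j, g j * pt e x (Sum.inr (Sum.inl j)) := by
          unfold pt
          simp only [Finset.sum_mul, Finset.mul_sum]
          rw [Finset.sum_comm]
          refine Finset.sum_congr rfl fun j _ => Finset.sum_congr rfl fun a _ => ?_
          ring
        rw [← h9]
        exact h8

/-- the fields of a place -/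
theorem place (h1 : S_DecK) (h2 : S_RelUp) (h4 : S_Stb) (h5 : S_TrB) (h6 : S_Frm) (h7 : S_AxX)
    {τ μ : ℂ} {N s n ρ D : ℕ} {K₀ : IntermediateField ℚ ℂ} (hK : KF n τ μ K₀)
    (hN : ¬ HasTrdeg K₀ (N + 1)) (e : Fin D → ℂ)
    (p₀ : PL s n ρ) (hp₀ : (∃ j, p₀ = Sum.inl j) ∨ ∃ o, p₀ = Sum.inr (Sum.inl o)) :
    ∃ (m : ℕ) (F : Fin m → IntermediateField ℚ ℂ),
      (∀ k, KF n τ μ (F k) ∧ K₀ ≤ F k ∧ ¬ HasTrdeg (F k) (N + s + 2 * n + ρ)) ∧
      ∀ x : PX s n ρ × Fin D → ℚ,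
        (∃ κ : PL s n ρ → ℂ, κ p₀ ≠ 0 ∧
          ∀ δ ∈ DK K₀, ∑ p, κ p * omF τ μ e (fun i => (x i : ℂ)) δ p = 0) →
        ∃ k, Sm τ μ (F k) (fun j => pt e x (Sum.inl j)) (fun j => pt e x (Sum.inr (Sum.inl j))) := by
  classical
  have hcK := hK.cnt
  obtain ⟨t, δ, hδK, hδ⟩ := span_fam (DK K₀)
    (LinearMap.pi fun q : PL s n ρ × Fin D => f1 τ μ q.1 (e q.2))
  -- the field `k₁`
  set S₁ : Set ℂ := (K₀ : Set ℂ) ∪ (kf τ : Set ℂ) ∪ Complex.exp '' (TS τ e) ∪ xe τ μ '' (TS τ e) ∪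
    Set.range (fun q : Fin t × PL s n ρ × Fin D => f1 τ μ q.2.1 (e q.2.2) (δ q.1)) with hS₁
  have hkc := kf_cnt τ
  have hS₁c : S₁.Countable := by
    refine ((((Set.to_countable (K₀ : Set ℂ)).union (Set.to_countable (kf τ : Set ℂ))).union
      ((ts_cnt τ e).image _)).union ((ts_cnt τ e).image _)).union (Set.countable_range _)
  have hk : Countable (cl S₁) := cl_cnt hS₁c
  have hka : ACl (cl S₁) := cl_acl S₁
  have hKk : K₀ ≤ cl S₁ := fun x hx => mem_cl (Or.inl (Or.inl (Or.inl (Or.inl hx))))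
  have hkf : kf τ ≤ cl S₁ := fun x hx => mem_cl (Or.inl (Or.inl (Or.inl (Or.inr hx))))
  have hxe : ∀ c : Fin D → kf τ, xe τ μ (∑ a, (c a : ℂ) * e a) ∈ cl S₁ := fun c =>
    mem_cl (Or.inl (Or.inr ⟨_, ⟨c, rfl⟩, rfl⟩))
  have hexp : ∀ c : Fin D → ℚ, Complex.exp (∑ a, (c a : ℂ) * e a) ∈ cl S₁ := by
    intro c
    have hq : ∀ q : ℚ, (q : ℂ) ∈ kf τ := fun q => (kf τ).algebraMap_mem q
    exact mem_cl (Or.inl (Or.inl (Or.inr ⟨_, ⟨fun a => ⟨(c a : ℂ), hq _⟩, rfl⟩, rfl⟩)))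
  have hent : ∀ (i : Fin t) (p : PL s n ρ) (a : Fin D), f1 τ μ p (e a) (δ i) ∈ cl S₁ :=
    fun i p a => mem_cl (Or.inr ⟨(i, p, a), rfl⟩)
  set k₁ := cl S₁ with hk₁
  let M : Fin t → PL s n ρ → MvPolynomial (PX s n ρ × Fin D) k₁ := fun i p =>
    ∑ a, C (⟨f1 τ μ p (e a) (δ i), hent i p a⟩ : k₁) * X (ix p, a)
  have hM : ∀ (w : PX s n ρ × Fin D → ℂ) (i : Fin t) (p : PL s n ρ),
      aeval w (M i p) = omF τ μ e w (δ i) p := by
    intro w i p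
    rw [omF_apply]
    simp only [M, map_sum, map_mul, aeval_C, aeval_X]
    refine Finset.sum_congr rfl fun a _ => ?_
    have h3 : (algebraMap k₁ ℂ) (⟨f1 τ μ p (e a) (δ i), hent i p a⟩ : k₁) =
      f1 τ μ p (e a) (δ i) := rfl
    rw [h3, mul_comm]
  let E : Set (PX s n ρ × Fin D → ℚ) := {x | ∃ κ : PL s n ρ → ℂ, κ p₀ ≠ 0 ∧
    ∀ δ ∈ DK K₀, ∑ p, κ p * omF τ μ e (fun i => (x i : ℂ)) δ p = 0}
  obtain ⟨m, ξ, E', hcov, hE'⟩ := h1 k₁ hk (PX s n ρ × Fin D) E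
  have key : ∀ k, ∃ F : IntermediateField ℚ ℂ,
      (KF n τ μ F ∧ K₀ ≤ F ∧ ¬ HasTrdeg F (N + s + 2 * n + ρ)) ∧
      ∀ x ∈ E' k, Sm τ μ F (fun j => pt e x (Sum.inl j))
        (fun j => pt e x (Sum.inr (Sum.inl j))) := by
    intro k
    obtain ⟨κ, hκ, hr⟩ := h2 k₁ (PX s n ρ × Fin D) (Fin t) (PL s n ρ) (ξ k) (E' k) (hE' k).2 M p₀
      (by
        intro x hx
        obtain ⟨κ, hκ, hr⟩ := (hE' k).1 hx
        refine ⟨κ, hκ, fun i => ?_⟩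
        have h3 := hr (δ i) (hδK i)
        rw [← h3]
        refine Finset.sum_congr rfl fun p _ => ?_
        rw [← hM]
        rfl)
    refine comp h4 h5 h7 hK hN hKk hk hka (fun _ => hkf) e (h6 τ μ K₀ s n ρ D hK e).1 hexp hxe
      (ξ k) (E' k) (hE' k).2 p₀ hp₀ ⟨κ, hκ, rel_span hδ (ξ k) κ ?_⟩
    intro i
    rw [← hr i]
    refine Finset.sum_congr rfl fun p _ => ?_
    rw [hM]
  choose F hF hFS using key
  refine ⟨m, F, hF, fun x hx => ?_⟩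
  obtain ⟨k, hk'⟩ := hcov x hx
  exact ⟨k, hFS k x hk'⟩

end I_FK

open I_FK in
/-- **F8.** -/
theorem FK_pf (h1 : S_DecK) (h2 : S_RelUp) (h4 : S_Stb) (h5 : S_TrB) (h6 : S_Frm) (h7 : S_AxX) :
    S_FK := by
  classical
  intro τ μ N s n ρ K₀ hK hN D e
  let pl : Fin s ⊕ Fin n × Bool → PL s n ρ := Sum.elim Sum.inl (fun o => Sum.inr (Sum.inl o))
  have hpl : ∀ q, (∃ j, pl q = Sum.inl j) ∨ ∃ o, pl q = Sum.inr (Sum.inl o) := by
    rintro (j | o)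
    · exact Or.inl ⟨j, rfl⟩
    · exact Or.inr ⟨o, rfl⟩
  choose m F hF hFS using fun q => place h1 h2 h4 h5 h6 h7 hK hN e (pl q) (hpl q)
  let T : Type := Σ q : Fin s ⊕ Fin n × Bool, Fin (m q)
  let φ : T ≃ Fin (Fintype.card T) := Fintype.equivFin T
  refine ⟨Fintype.card T, fun k => F (φ.symm k).1 (φ.symm k).2, fun k => hF _ _, ?_⟩
  intro u v z hu hv hz hS
  have hcu : ∀ j, ∃ c : Fin D → ℚ, ∑ a, c a • e a = u j := fun j =>
    (Submodule.mem_span_range_iff_exists_fun ℚ).1 (hu j)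
  have hcv : ∀ j, ∃ c : Fin D → ℚ, ∑ a, c a • e a = v j := fun j =>
    (Submodule.mem_span_range_iff_exists_fun ℚ).1 (hv j)
  have hcz : ∀ j, ∃ c : Fin D → ℚ, ∑ a, c a • e a = z j := fun j =>
    (Submodule.mem_span_range_iff_exists_fun ℚ).1 (hz j)
  choose cu hcu using hcu
  choose cv hcv using hcv
  choose cz hcz using hcz
  let x : PX s n ρ × Fin D → ℚ := fun q =>
    Sum.elim (fun j => cu j q.2) (Sum.elim (fun j => cv j q.2) (fun l => cz l q.2)) q.1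
  have hpu : (fun j => pt e x (Sum.inl j)) = u := by
    funext j
    rw [← hcu j]
    refine Finset.sum_congr rfl fun a _ => ?_
    rw [Algebra.smul_def]
    rfl
  have hpv : (fun j => pt e x (Sum.inr (Sum.inl j))) = v := by
    funext j
    rw [← hcv j]
    refine Finset.sum_congr rfl fun a _ => ?_
    rw [Algebra.smul_def]
    rfl
  have hpz : (fun j => pt e x (Sum.inr (Sum.inr j))) = z := by
    funext j
    rw [← hcz j]
    refine Finset.sum_congr rfl fun a _ => ?_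
    rw [Algebra.smul_def]
    rfl
  by_contra hne
  have hEx : Ex τ μ K₀ e x := by
    unfold Ex
    rw [hpu, hpz, hpv]
    intro h
    apply hne
    refine ⟨fun j => ?_, h.2⟩
    have h3 := h.1 j
    have h8 : pt e x (Sum.inr (Sum.inl j)) = v j := congrFun hpv j
    rw [h8] at h3
    exact h3
  obtain ⟨κ, hκ, hr⟩ := (h6 τ μ K₀ s n ρ D hK e).2 x hEx
  have hq : ∃ q, κ (pl q) ≠ 0 := by
    rcases hκ with ⟨j, h⟩ | ⟨o, h⟩
    · exact ⟨Sum.inl j, h⟩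
    · exact ⟨Sum.inr o, h⟩
  obtain ⟨q, hq⟩ := hq
  obtain ⟨k, hk⟩ := hFS q x ⟨κ, hq, hr⟩
  rw [hpu, hpv] at hk
  refine hS (φ ⟨q, k⟩) ?_
  have h9 : φ.symm (φ ⟨q, k⟩) = ⟨q, k⟩ := φ.symm_apply_apply _
  show Sm τ μ (F (φ.symm (φ ⟨q, k⟩)).fst (φ.symm (φ ⟨q, k⟩)).snd) u v
  rw [h9]
  exact hk

end Pool.Agent.Work.MP_8da9ea_nt.FR
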