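import Pool.Agent.Work.MP_8da9ea_nt.FR.StmtsF
import Pool.Agent.Work.MP_8da9ea_nt.FR.I_Core
import Pool.Agent.Work.MP_8da9ea_nt.FR.I_RelStab

/-!
# [Frm] the basic forms
-/

set_option autoImplicit false

namespace Pool.Agent.Work.MP_8da9ea_nt.FR

open MvPolynomial Pool.Agent.Work.MP_327059_nt.GL Pool.Agent.Work.MP_8da9ea_nt.S
  Pool.Agent.Work.MP_8da9ea_nt.EB Pool.Agent.Work.MP_8da9ea_nt.EC

namespace I_Frm

/-- The values of the forms. -/
theorem omF_apply (τ μ : ℂ) {s n ρ D : ℕ} (e : Fin D → ℂ) (w : PX s n ρ × Fin D → ℂ)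
    (δ : Derivation ℚ ℂ ℂ) (p : PL s n ρ) :
    omF τ μ e w δ p = ∑ a, w (ix p, a) * f1 τ μ p (e a) δ := by
  unfold omF omB
  rw [LinearMap.pi_apply, LinearMap.sum_apply]
  rfl

/-- Additive functions at rational combinations. -/
theorem add_sum {f : ℂ → ℂ} (hf : ∀ x y, f (x + y) = f x + f y) {D : ℕ} (x : Fin D → ℚ)
    (e : Fin D → ℂ) : f (∑ a, (x a : ℂ) * e a) = ∑ a, (x a : ℂ) * f (e a) := by
  have h := map_sum (AddMonoidHom.mk' f hf) (fun a => (x a : ℂ) * e a) Finset.univ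
  refine h.trans (Finset.sum_congr rfl fun a _ => ?_)
  have h2 := map_rat_smul (AddMonoidHom.mk' f hf) (x a) (e a)
  rw [Rat.smul_def, Rat.smul_def] at h2
  exact h2

/-- The duality step. -/
theorem dual {s n ρ : ℕ} {τ μ : ℂ} {K : IntermediateField ℚ ℂ} (u : Fin s → ℂ) (v : Fin n → ℂ)
    (z : Fin ρ → ℂ) (hlt : Module.finrank ℂ ((DK K ⊓ TT z).map (omV τ μ u v)) < s + 2 * n) :
    ∃ (κ₀ : Fin s ⊕ Fin n × Bool → ℂ) (κ' : Fin ρ → ℂ), (∃ o, κ₀ o ≠ 0) ∧
      ∀ δ ∈ DK K, ∑ o, κ₀ o * omV τ μ u v δ o = ∑ i, κ' i * dz z δ i := by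
  classical
  have hcard : Fintype.card (Fin s ⊕ Fin n × Bool) = s + 2 * n := by
    rw [Fintype.card_sum, Fintype.card_prod, Fintype.card_fin, Fintype.card_fin, Fintype.card_bool]
    ring
  have hne : (DK K ⊓ TT z).map (omV τ μ u v) < ⊤ := by
    rw [lt_top_iff_ne_top]
    intro h
    rw [h, finrank_top, Module.finrank_fintype_fun_eq_card, hcard] at hlt
    exact lt_irrefl _ hlt
  obtain ⟨f, hf, hle⟩ := Submodule.exists_le_ker_of_lt_top _ hne
  let Lf : Fin ρ → (DK K →ₗ[ℂ] ℂ) := fun i =>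
    (LinearMap.proj i).comp ((dz z).comp (DK K).subtype)
  let Kf : DK K →ₗ[ℂ] ℂ := f.comp ((omV τ μ u v).comp (DK K).subtype)
  have hker : ⨅ i, LinearMap.ker (Lf i) ≤ LinearMap.ker Kf := by
    intro δ hδ
    rw [Submodule.mem_iInf] at hδ
    rw [LinearMap.mem_ker]
    apply hle
    refine ⟨δ.1, ⟨δ.2, ?_⟩, rfl⟩
    intro i
    exact LinearMap.mem_ker.1 (hδ i)
  obtain ⟨κ', hκ'⟩ := (Submodule.mem_span_range_iff_exists_fun ℂ).1
    (mem_span_of_iInf_ker_le_ker hker)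
  refine ⟨fun o => f (fun j => if o = j then 1 else 0), κ', ?_, ?_⟩
  · by_contra hcon
    push Not at hcon
    apply hf
    apply LinearMap.ext
    intro y
    rw [LinearMap.pi_apply_eq_sum_univ f, LinearMap.zero_apply]
    refine Finset.sum_eq_zero fun o _ => ?_
    rw [hcon o, smul_zero]
  · intro δ hδ
    have e1 : f (omV τ μ u v δ) = ∑ i, κ' i * dz z δ i := by
      have e2 := congrArg (fun g : DK K →ₗ[ℂ] ℂ => g ⟨δ, hδ⟩) hκ'
      simp only [LinearMap.sum_apply, LinearMap.smul_apply, smul_eq_mul] at e2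
      exact e2.symm
    rw [LinearMap.pi_apply_eq_sum_univ f] at e1
    rw [← e1]
    refine Finset.sum_congr rfl fun o _ => ?_
    rw [smul_eq_mul, mul_comm]

end I_Frm

open I_Frm in
/-- **F6** -/
theorem Frm_pf (h1 : S_ClosedK) (h2 : S_FormBZ) (l1 : S_LamAddK) (l3 : S_EtaAddK) : S_Frm := by
  classical
  intro τ μ K₀ s n ρ D hK e
  refine ⟨?_, ?_⟩
  · intro p a δ hδ δ' hδ'
    rcases p with j | ⟨j, b⟩ | l
    · exact I_RelStab.th_closed δ δ' (e a)
    · have hn : 0 < n := Fin.pos j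
      obtain ⟨c1, c2⟩ := h1 τ μ K₀ (hK.ell hn).1 δ hδ δ' hδ' (e a)
      cases b
      · exact c1
      · exact c2
    · exact (Derivation.commutator_apply (D1 := δ) (D2 := δ') (e a)).symm
  · intro x hx
    set u : Fin s → ℂ := fun j => pt e x (Sum.inl j) with hu
    set v : Fin n → ℂ := fun j => pt e x (Sum.inr (Sum.inl j)) with hv
    set z : Fin ρ → ℂ := fun l => pt e x (Sum.inr (Sum.inr l)) with hz
    have hlt : Module.finrank ℂ ((DK K₀ ⊓ TT z).map (omV τ μ u v)) < s + 2 * n := by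
      by_contra hge
      push Not at hge
      exact hx (h2 τ μ K₀ s n ρ hK u v z hge)
    obtain ⟨κ₀, κ', ⟨o₀, ho₀⟩, hrel⟩ := dual u v z hlt
    refine ⟨Sum.elim (fun j => κ₀ (Sum.inl j))
      (Sum.elim (fun o => κ₀ (Sum.inr o)) (fun l => -κ' l)), ?_, ?_⟩
    · rcases o₀ with j | o
      · exact Or.inl ⟨j, ho₀⟩
      · exact Or.inr ⟨o, ho₀⟩
    · intro δ hδ
      have h := hrel δ hδ
      rw [Fintype.sum_sum_type] at h
      rw [Fintype.sum_sum_type, Fintype.sum_sum_type]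
      simp only [Sum.elim_inl, Sum.elim_inr, omF_apply, ix]
      have e1 : ∀ j, omV τ μ u v δ (Sum.inl j) =
          ∑ a, (x (Sum.inl j, a) : ℂ) * f1 (s := s) (n := n) (ρ := ρ) τ μ (Sum.inl j) (e a) δ :=
        fun j => add_sum (I_Core.th_add δ) _ e
      have e2 : ∀ o : Fin n × Bool, omV τ μ u v δ (Sum.inr o) =
          ∑ a, (x (Sum.inr (Sum.inl o.1), a) : ℂ) *
            f1 (s := s) (n := n) (ρ := ρ) τ μ (Sum.inr (Sum.inl o)) (e a) δ := by
        rintro ⟨j, b⟩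
        have hn : 0 < n := Fin.pos j
        obtain ⟨g1, g2⟩ := hK.ell hn
        cases b
        · exact add_sum (l1 τ μ K₀ g1 δ hδ) _ e
        · exact add_sum (l3 τ μ K₀ g1 g2 δ hδ) _ e
      have e3 : ∀ l, dz z δ l = ∑ a, (x (Sum.inr (Sum.inr l), a) : ℂ) *
          f1 (s := s) (n := n) (ρ := ρ) τ μ (Sum.inr (Sum.inr l)) (e a) δ :=
        fun l => add_sum (map_add δ) _ e
      have g1 : ∑ j, κ₀ (Sum.inl j) * omV τ μ u v δ (Sum.inl j) = ∑ j, κ₀ (Sum.inl j) *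
          ∑ a, (x (Sum.inl j, a) : ℂ) *
            f1 (s := s) (n := n) (ρ := ρ) τ μ (Sum.inl j) (e a) δ :=
        Finset.sum_congr rfl fun j _ => by rw [e1]
      have g2 : ∑ o, κ₀ (Sum.inr o) * omV τ μ u v δ (Sum.inr o) = ∑ o, κ₀ (Sum.inr o) *
          ∑ a, (x (Sum.inr (Sum.inl o.1), a) : ℂ) *
            f1 (s := s) (n := n) (ρ := ρ) τ μ (Sum.inr (Sum.inl o)) (e a) δ :=
        Finset.sum_congr rfl fun o _ => by rw [e2]
      have g3 : ∑ l, κ' l * dz z δ l = ∑ l, κ' l *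
          ∑ a, (x (Sum.inr (Sum.inr l), a) : ℂ) *
            f1 (s := s) (n := n) (ρ := ρ) τ μ (Sum.inr (Sum.inr l)) (e a) δ :=
        Finset.sum_congr rfl fun l _ => by rw [e3]
      rw [g1, g2, g3] at h
      simp only [neg_mul, Finset.sum_neg_distrib]
      linear_combination h

end Pool.Agent.Work.MP_8da9ea_nt.FR
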