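import Pool.Agent.Work.MP_8da9ea_nt.FR.StmtsF

/-!
# F3: relations at the rational points
-/

set_option autoImplicit false

namespace Pool.Agent.Work.MP_8da9ea_nt.FR

open MvPolynomial

namespace I_RelDown

/-- Independent functions with values in a field have enough points. -/
theorem pts {k : Type} [Field k] {G : Type} {s : ℕ} (φ : Fin s → G → k)
    (h : LinearIndependent k φ) :
    ∃ g : Fin s → G, (Matrix.of fun j b => φ j (g b)).det ≠ 0 := by
  classical
  let v : G → (Fin s → k) := fun g j => φ j g
  have hspan : Submodule.span k (Set.range v) = ⊤ := by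
    by_contra hne
    obtain ⟨f, hf0, hf⟩ := Submodule.exists_le_ker_of_lt_top _ (lt_top_iff_ne_top.2 hne)
    apply hf0
    rw [Fintype.linearIndependent_iff] at h
    have h1 := h (fun j => f (Pi.single j 1)) (by
      funext g
      have h2 : f (v g) = 0 := hf (Submodule.subset_span ⟨g, rfl⟩)
      have h3 : v g = ∑ j, v g j • (Pi.single j (1 : k) : Fin s → k) := by
        funext l
        rw [Finset.sum_apply, Finset.sum_eq_single l]
        · rw [Pi.smul_apply, Pi.single_eq_same, smul_eq_mul, mul_one]
        · intro b _ hb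
          rw [Pi.smul_apply, Pi.single_eq_of_ne hb.symm, smul_zero]
        · intro hl
          exact absurd (Finset.mem_univ l) hl
      rw [h3, map_sum] at h2
      rw [Finset.sum_apply, Pi.zero_apply, ← h2]
      refine Finset.sum_congr rfl fun j _ => ?_
      rw [map_smul, Pi.smul_apply, smul_eq_mul, smul_eq_mul, mul_comm])
    refine LinearMap.pi_ext' fun j => LinearMap.ext_ring ?_
    exact h1 j
  obtain ⟨b, hb, hbs, hbl⟩ := exists_linearIndependent k (Set.range v)
  let B := Module.Basis.mk hbl (by
    rw [Subtype.range_coe, hbs, hspan])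
  let e := B.indexEquiv (Pi.basisFun k (Fin s))
  choose g hg using fun i : Fin s => hb (e.symm i).2
  refine ⟨g, ?_⟩
  have h1 : LinearIndependent k (fun i => v (g i)) := by
    have h2 := hbl.comp e.symm e.symm.injective
    have h3 : (Subtype.val ∘ e.symm : Fin s → (Fin s → k)) = fun i => v (g i) := by
      funext i
      exact (hg i).symm
    rwa [h3] at h2
  have h4 : IsUnit (Matrix.of fun b j => φ j (g b)) :=
    Matrix.linearIndependent_rows_iff_isUnit.1 h1
  have h5 := (Matrix.isUnit_iff_isUnit_det _).1 h4
  have h6 : (Matrix.of fun j b => φ j (g b)) = (Matrix.of fun b j => φ j (g b)).transpose := rfl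
  rw [h6, Matrix.det_transpose]
  exact h5.ne_zero

end I_RelDown

open I_RelDown in
/-- **F3** -/
theorem RelDown_pf : S_RelDown := by
  classical
  intro k₁ k I G s ξ E hG A hA hκ' x hx
  obtain ⟨κ, hκ0, hκ⟩ := hκ'
  by_contra hne
  have hli : LinearIndependent k (fun (j : Fin s) (g : G) => (⟨av x (A j g), hA x hx j g⟩ : k)) := by
    rw [Fintype.linearIndependent_iff]
    intro c hc j
    by_contra hcj
    apply hne
    refine ⟨fun j => (c j : ℂ), fun j => (c j).2, fun h => hcj ?_, fun g => ?_⟩
    · exact Subtype.ext (congrFun h j)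
    · have h1 := congrFun hc g
      rw [Finset.sum_apply] at h1
      have h2 := congrArg (algebraMap k ℂ) h1
      rw [map_sum] at h2
      exact h2
  obtain ⟨g, hg⟩ := pts _ hli
  apply hκ0
  have h1 : av x ((Matrix.of fun j b => A j (g b)).det) ≠ 0 := by
    have h2 : av x ((Matrix.of fun j b => A j (g b)).det) = algebraMap k ℂ
        (Matrix.of fun j b => (⟨av x (A j (g b)), hA x hx j (g b)⟩ : k)).det := by
      unfold av
      rw [AlgHom.map_det, RingHom.map_det]
      rfl
    rw [h2]
    exact (map_ne_zero_iff _ (algebraMap k ℂ).injective).2 hg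
  have h3 : aeval ξ ((Matrix.of fun j b => A j (g b)).det) ≠ 0 := fun h => h1 ((hG _).1 h x hx)
  rw [AlgHom.map_det] at h3
  refine Matrix.eq_zero_of_vecMul_eq_zero h3 ?_
  funext b
  exact hκ (g b)

end Pool.Agent.Work.MP_8da9ea_nt.FR
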