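import Pool.Agent.Work.MP_8da9ea_nt.FR.StmtsF
import Pool.Agent.Work.RW.Rank

/-!
# Block FK, item RelUp (relations at the generic point)
-/

set_option autoImplicit false

namespace Pool.Agent.Work.MP_8da9ea_nt.FR

open MvPolynomial

namespace I_RelUp

/-- Independent rows have a nonzero minor. -/
lemma minor_of_li {J : Type} [Fintype J] {r : ℕ} (g : Fin r → J → ℂ) (hg : LinearIndependent ℂ g) :
    ∃ e : Fin r → J, (Matrix.of fun a b => g a (e b)).det ≠ 0 := by
  classical
  let φ := Fintype.equivFin J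
  let B : Matrix (Fin r) (Fin (Fintype.card J)) ℂ := Matrix.of fun a t => g a (φ.symm t)
  have hB1 : LinearIndependent ℂ B.row := by
    have h1 := hg.map' (LinearMap.funLeft ℂ ℂ φ.symm)
      (LinearMap.ker_eq_bot.2 (LinearMap.funLeft_injective_of_surjective ℂ ℂ _ φ.symm.surjective))
    exact h1
  have hB : B.rank = r := by
    rw [hB1.rank_matrix, Fintype.card_fin]
  obtain ⟨f, hf⟩ := Pool.Agent.RW.exists_rows B.transpose (p := r)
    (by rw [Matrix.rank_transpose, hB])
  refine ⟨fun b => φ.symm (f b), ?_⟩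
  have h5 : IsUnit ((Matrix.of fun a b => g a (φ.symm (f b)) :
      Matrix (Fin r) (Fin r) ℂ).transpose) := by
    rw [← Matrix.linearIndependent_rows_iff_isUnit]
    exact hf
  rw [Matrix.isUnit_transpose, Matrix.isUnit_iff_isUnit_det] at h5
  exact h5.ne_zero

/-- A nonzero minor gives independence. -/
lemma li_of_minor {J : Type} {r : ℕ} (g : Fin r → J → ℂ) (e : Fin r → J)
    (h : (Matrix.of fun a b => g a (e b)).det ≠ 0) : LinearIndependent ℂ g := by
  have h1 : IsUnit (Matrix.of fun a b => g a (e b) : Matrix (Fin r) (Fin r) ℂ) := by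
    rw [Matrix.isUnit_iff_isUnit_det]
    exact isUnit_iff_ne_zero.2 h
  rw [← Matrix.linearIndependent_rows_iff_isUnit] at h1
  exact LinearIndependent.of_comp (LinearMap.funLeft ℂ ℂ e) h1

section

variable {k₁ : IntermediateField ℚ ℂ} {I R P : Type}

/-- The columns at `y`. -/
noncomputable def col (M : R → P → MvPolynomial I k₁) (y : I → ℂ) (p : P) (r : R) : ℂ :=
  aeval y (M r p)

lemma det_col (M : R → P → MvPolynomial I k₁) (y : I → ℂ) {m : ℕ} (q : Fin m → P) (e : Fin m → R) :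
    (Matrix.of fun a b => col M y (q a) (e b)).det =
      aeval y (Matrix.of fun a b => M (e b) (q a)).det := by
  rw [AlgHom.map_det]
  rfl

/-- From the generic point to a point. -/
lemma down [Fintype R] {ξ : I → ℂ} {E : Set (I → ℚ)} (hG : Gn k₁ ξ E)
    (M : R → P → MvPolynomial I k₁) {m : ℕ} (q : Fin m → P)
    (h : LinearIndependent ℂ fun a => col M ξ (q a)) :
    ∃ x ∈ E, LinearIndependent ℂ fun a => col M (fun i => (x i : ℂ)) (q a) := by
  obtain ⟨e, he⟩ := minor_of_li _ h
  rw [det_col, Ne, hG] at he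
  push Not at he
  obtain ⟨x, hx, hx2⟩ := he
  refine ⟨x, hx, li_of_minor _ e ?_⟩
  rw [det_col]
  exact hx2

/-- From a point to the generic point. -/
lemma up [Fintype R] {ξ : I → ℂ} {E : Set (I → ℚ)} (hG : Gn k₁ ξ E)
    (M : R → P → MvPolynomial I k₁) {m : ℕ} (q : Fin m → P) (x : I → ℚ) (hx : x ∈ E)
    (h : LinearIndependent ℂ fun a => col M (fun i => (x i : ℂ)) (q a)) :
    LinearIndependent ℂ fun a => col M ξ (q a) := by
  obtain ⟨e, he⟩ := minor_of_li _ h
  rw [det_col] at he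
  refine li_of_minor _ e ?_
  rw [det_col, Ne, hG]
  intro h0
  exact he (h0 x hx)

/-- A relation gives membership in the span of the other columns. -/
lemma mem_of_rel [Fintype P] (c : P → R → ℂ) (p₀ : P) (κ : P → ℂ) (h0 : κ p₀ ≠ 0)
    (h : ∀ r, ∑ p, κ p * c p r = 0) : c p₀ ∈ Submodule.span ℂ (c '' {p | p ≠ p₀}) := by
  classical
  have h1 : ∑ p, κ p • c p = 0 := by
    ext r
    rw [Finset.sum_apply]
    simp only [Pi.smul_apply, smul_eq_mul, Pi.zero_apply]
    exact h r
  rw [← Finset.add_sum_erase _ _ (Finset.mem_univ p₀)] at h1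
  have h2 : κ p₀ • c p₀ ∈ Submodule.span ℂ (c '' {p | p ≠ p₀}) := by
    rw [eq_neg_of_add_eq_zero_left h1]
    apply Submodule.neg_mem
    apply Submodule.sum_mem
    intro p hp
    apply Submodule.smul_mem
    apply Submodule.subset_span
    exact ⟨p, (Finset.mem_erase.1 hp).1, rfl⟩
  exact (Submodule.smul_mem_iff _ h0).1 h2

/-- Membership in the span of the other columns gives a relation. -/
lemma rel_of_mem [Fintype P] (c : P → R → ℂ) (p₀ : P)
    (h : c p₀ ∈ Submodule.span ℂ (c '' {p | p ≠ p₀})) :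
    ∃ κ : P → ℂ, κ p₀ ≠ 0 ∧ ∀ r, ∑ p, κ p * c p r = 0 := by
  classical
  have h1 : c '' {p | p ≠ p₀} = Set.range fun p : {p // p ≠ p₀} => c p := by
    ext y
    constructor
    · rintro ⟨p, hp, rfl⟩
      exact ⟨⟨p, hp⟩, rfl⟩
    · rintro ⟨p, rfl⟩
      exact ⟨p.1, p.2, rfl⟩
  rw [h1, Submodule.mem_span_range_iff_exists_fun] at h
  obtain ⟨k, hk⟩ := h
  refine ⟨fun p => if h : p = p₀ then -1 else k ⟨p, h⟩, ?_, ?_⟩
  · simp
  · intro r
    have h2 := congrFun hk r
    rw [Finset.sum_apply] at h2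
    simp only [Pi.smul_apply, smul_eq_mul] at h2
    rw [← Finset.add_sum_erase _ _ (Finset.mem_univ p₀)]
    have h3 : ∑ p ∈ Finset.univ.erase p₀, (if h : p = p₀ then -1 else k ⟨p, h⟩) * c p r =
        ∑ p : {p // p ≠ p₀}, k p * c p r := by
      rw [Finset.sum_subtype (p := fun p => p ≠ p₀) (Finset.univ.erase p₀)
        (fun p => by simp) (fun p => (if h : p = p₀ then -1 else k ⟨p, h⟩) * c p r)]
      apply Finset.sum_congr rfl
      intro p _
      rw [dif_neg p.2]
    rw [h3, h2]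
    simp

end

end I_RelUp

open I_RelUp

theorem RelUp_pf : S_RelUp := by
  classical
  intro k₁ I R P _ _ _ ξ E hG M p₀ hE
  apply rel_of_mem (fun p r => aeval ξ (M r p)) p₀
  by_contra hcon
  change ¬ col M ξ p₀ ∈ Submodule.span ℂ (col M ξ '' {p | p ≠ p₀}) at hcon
  obtain ⟨g, h1, h2, h3⟩ := Submodule.exists_fun_fin_finrank_span_eq ℂ
    (col M ξ '' {p | p ≠ p₀})
  choose s hs1 hs2 using h1
  have hg : g = fun a => col M ξ (s a) := by
    ext a r
    rw [hs2]
  rw [hg] at h2 h3
  have h4 : LinearIndependent ℂ fun a => col M ξ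
      ((Fin.cons p₀ s : Fin (_ + 1) → P) a) := by
    have h5 : (fun a => col M ξ ((Fin.cons p₀ s : Fin (_ + 1) → P) a)) =
        Fin.cons (col M ξ p₀) (fun a => col M ξ (s a)) := by
      ext a r
      refine Fin.cases ?_ (fun b => ?_) a
      · simp
      · simp
    rw [h5, linearIndependent_finCons]
    exact ⟨h3, by rw [h2]; exact hcon⟩
  obtain ⟨x, hx, h5⟩ := down hG M _ h4
  have hc : ∀ (y : I → ℂ) (p : P), (fun a => col M y ((Fin.cons p s : Fin (_ + 1) → P) a)) =
        Fin.cons (col M y p) (fun a => col M y (s a)) := by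
    intro y p
    ext a r
    refine Fin.cases ?_ (fun b => ?_) a
    · simp
    · simp
  rw [hc, linearIndependent_finCons] at h5
  obtain ⟨h6, h7⟩ := h5
  obtain ⟨κ, hκ, hκ2⟩ := hE x hx
  have h8 := mem_of_rel (col M fun i => (x i : ℂ)) p₀ κ hκ hκ2
  have h9 : ∃ p, p ≠ p₀ ∧ col M (fun i => (x i : ℂ)) p ∉
      Submodule.span ℂ (Set.range fun a => col M (fun i => (x i : ℂ)) (s a)) := by
    by_contra hno
    push Not at hno
    apply h7
    refine Submodule.span_le.2 ?_ h8
    rintro _ ⟨p, hp, rfl⟩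
    exact hno p hp
  obtain ⟨p, hp, h10⟩ := h9
  have h11 := up hG M (Fin.cons p s : Fin (_ + 1) → P) x hx (by
    rw [hc, linearIndependent_finCons]
    exact ⟨h6, h10⟩)
  rw [hc, linearIndependent_finCons] at h11
  apply h11.2
  rw [h2]
  exact Submodule.subset_span ⟨p, hp, rfl⟩

end Pool.Agent.Work.MP_8da9ea_nt.FR
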