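import Pool.Agent.Work.MP_8da9ea_nt.FR.StmtsF
import Pool.Agent.Work.MP_8da9ea_nt.Der
import Pool.Agent.Work.MP_327059_nt.Bd.B10

/-!
# Block FK, item F4 (Stb): relations with constant coefficients
-/

set_option autoImplicit false

namespace Pool.Agent.Work.MP_8da9ea_nt.FR

open MvPolynomial Pool.Agent.Work.MP_327059_nt.GL Pool.Agent.Work.MP_8da9ea_nt.S
  Pool.Agent.Work.MP_8da9ea_nt.EB

namespace I_Stb

lemma omB_apply {P A : Type} [Fintype A] (θ : P → A → Derivation ℚ ℂ ℂ →ₗ[ℂ] ℂ) (w : P → A → ℂ)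
    (δ : Derivation ℚ ℂ ℂ) (p : P) : omB θ w δ p = ∑ a, w p a * θ p a δ := by
  unfold omB
  simp [LinearMap.pi_apply, LinearMap.sum_apply]

lemma dk_mono {K K₁ : IntermediateField ℚ ℂ} (h : K ≤ K₁) {δ : Derivation ℚ ℂ ℂ} (hδ : δ ∈ DK K₁) :
    δ ∈ DK K := fun x hx => hδ x (h hx)

lemma lie_mem {K₁ : IntermediateField ℚ ℂ} {δ δ' : Derivation ℚ ℂ ℂ} (h : δ ∈ DK K₁)
    (h' : δ' ∈ DK K₁) : ⁅δ, δ'⁆ ∈ DK K₁ := by
  intro x hx
  rw [Derivation.commutator_apply, h x hx, h' x hx, map_zero, map_zero, sub_zero]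

/-- `δ₀ (Ω_p(δ)) = Ω_p([δ₀, δ])` if `Ω(δ₀) = 0`. -/
lemma apply_om {K K₁ : IntermediateField ℚ ℂ} {P A : Type} [Fintype A]
    {θ : P → A → Derivation ℚ ℂ ℂ →ₗ[ℂ] ℂ} (hθ : ClF K θ) {w : P → A → ℂ} (hK : K ≤ K₁)
    (hw : ∀ p a, w p a ∈ K₁) {δ₀ δ : Derivation ℚ ℂ ℂ} (h₀ : δ₀ ∈ DK K₁) (hz : omB θ w δ₀ = 0)
    (h : δ ∈ DK K₁) (p : P) : δ₀ (omB θ w δ p) = omB θ w ⁅δ₀, δ⁆ p := by
  have h1 : δ (omB θ w δ₀ p) = 0 := by
    rw [hz]
    simp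
  rw [omB_apply, map_sum] at h1 ⊢
  rw [omB_apply]
  have h2 : ∀ a, δ₀ (w p a * θ p a δ) = w p a * δ₀ (θ p a δ) := by
    intro a
    rw [Derivation.leibniz, h₀ _ (hw p a)]
    simp
  have h3 : ∀ a, δ (w p a * θ p a δ₀) = w p a * δ (θ p a δ₀) := by
    intro a
    rw [Derivation.leibniz, h _ (hw p a)]
    simp
  simp only [h2, h3] at h1 ⊢
  rw [← sub_zero (∑ a, w p a * δ₀ (θ p a δ)), ← h1, ← Finset.sum_sub_distrib]
  refine Finset.sum_congr rfl fun a _ => ?_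
  rw [← hθ p a δ₀ (dk_mono hK h₀) δ (dk_mono hK h)]
  ring

end I_Stb

open I_Stb

/-- **F4 (Stb).** -/
theorem Stb_pf : S_Stb := by
  intro K P A _ _ θ hθ w K₁ hK hw p₀ hex
  obtain ⟨κ, hκ0, hκ⟩ := hex
  let R : Submodule ℂ (P → ℂ) :=
    { carrier := {f | ∀ δ ∈ DK K₁, ∑ p, f p * omB θ w δ p = 0}
      add_mem' := by
        intro a b ha hb δ hδ
        simp only [Pi.add_apply, add_mul, Finset.sum_add_distrib]
        rw [ha δ hδ, hb δ hδ, add_zero]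
      zero_mem' := by
        intro δ _
        simp
      smul_mem' := by
        intro c a ha δ hδ
        simp only [Pi.smul_apply, smul_eq_mul, mul_assoc]
        rw [← Finset.mul_sum, ha δ hδ, mul_zero] }
  have hst : ∀ δ₀ : Derivation ℚ ℂ ℂ, δ₀ ∈ DK K₁ → omB θ w δ₀ = 0 → ∀ f ∈ R,
      (fun p => δ₀ (f p)) ∈ R := by
    intro δ₀ h₀ hz f hf δ hδ
    have h1 : δ₀ (∑ p, f p * omB θ w δ p) = 0 := by
      rw [hf δ hδ, map_zero]
    rw [map_sum] at h1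
    have h2 : ∀ p, δ₀ (f p * omB θ w δ p) = f p * omB θ w ⁅δ₀, δ⁆ p + δ₀ (f p) * omB θ w δ p := by
      intro p
      rw [Derivation.leibniz, apply_om hθ hK hw h₀ hz hδ p]
      simp only [smul_eq_mul]
      ring
    simp only [h2, Finset.sum_add_distrib] at h1
    rw [hf _ (lie_mem h₀ hδ), zero_add] at h1
    exact h1
  let e := Fintype.equivFin P
  let L : (P → ℂ) ≃ₗ[ℂ] (Fin (Fintype.card P) → ℂ) := LinearEquiv.funCongrLeft ℂ ℂ e.symm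
  have hmem : L κ ∈ R.map (L : (P → ℂ) →ₗ[ℂ] (Fin (Fintype.card P) → ℂ)) :=
    Submodule.mem_map_of_mem hκ
  have h1 := pr_Stab (Fintype.card P)
    (R.map (L : (P → ℂ) →ₗ[ℂ] (Fin (Fintype.card P) → ℂ))) {δ | δ ∈ DK K₁ ∧ omB θ w δ = 0} (by
      rintro D ⟨hD, hD0⟩ a ⟨f, hf, rfl⟩
      exact ⟨fun o => D (f o), hst D hD hD0 f hf, rfl⟩) (L κ) hmem
  by_contra hno
  push Not at hno
  let V : Submodule ℂ (Fin (Fintype.card P) → ℂ) :=
    { carrier := {f | f (e p₀) = 0}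
      add_mem' := by
        intro a b ha hb
        show a (e p₀) + b (e p₀) = 0
        rw [show a (e p₀) = 0 from ha, show b (e p₀) = 0 from hb, add_zero]
      zero_mem' := rfl
      smul_mem' := by
        intro c a ha
        show c * a (e p₀) = 0
        rw [show a (e p₀) = 0 from ha, mul_zero] }
  have hz : Submodule.span ℂ {f : Fin (Fintype.card P) → ℂ |
      f ∈ R.map (L : (P → ℂ) →ₗ[ℂ] (Fin (Fintype.card P) → ℂ)) ∧
        ∀ j, ∀ D ∈ {δ | δ ∈ DK K₁ ∧ omB θ w δ = 0}, D (f j) = 0} ≤ V := by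
    rw [Submodule.span_le]
    rintro a ⟨⟨f, hf, rfl⟩, ha⟩
    have h3 : ∀ o, (L : (P → ℂ) →ₗ[ℂ] (Fin (Fintype.card P) → ℂ)) f (e o) = f o := by
      intro o
      show f (e.symm (e o)) = f o
      rw [e.symm_apply_apply]
    show (L : (P → ℂ) →ₗ[ℂ] (Fin (Fintype.card P) → ℂ)) f (e p₀) = 0
    rw [h3]
    by_contra h0
    obtain ⟨δ, hδ, hδ0, p, hp⟩ := hno f h0 hf
    apply hp
    have h2 := ha (e p) δ ⟨hδ, hδ0⟩
    rw [h3] at h2
    exact h2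
  have h2 : (L κ) (e p₀) = 0 := hz h1
  apply hκ0
  rw [← h2]
  show κ p₀ = κ (e.symm (e p₀))
  rw [e.symm_apply_apply]

end Pool.Agent.Work.MP_8da9ea_nt.FR
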