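import Pool.Agent.Work.MP_8da9ea_nt.FR.StmtsF
import Pool.Agent.Work.MP_8da9ea_nt.FR.I_EField
import Pool.Agent.Work.MP_8da9ea_nt.Der

/-!
# Block FK, item TrB: small transcendence degree
-/

set_option autoImplicit false

namespace Pool.Agent.Work.MP_8da9ea_nt.FR

open MvPolynomial Metric Filter Topology Pool.Agent.Work.MP_327059_nt.GL
  Pool.Agent.Work.MP_8da9ea_nt.S Pool.Agent.Work.MP_8da9ea_nt.EB Pool.Agent.Work.MP_8da9ea_nt.EC

namespace I_TrB

open I_EField

/-- the exchange step -/
theorem exch (K : IntermediateField ℚ ℂ) (N r : ℕ) (hN : ¬ HasTrdeg K (N + 1))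
    (y : Fin (N + r) → ℂ) (hy : AlgebraicIndependent ℚ y) :
    ∃ s : Fin r → Fin (N + r), AlgebraicIndependent K (fun i => y (s i)) := by
  classical
  obtain ⟨S, hS⟩ := (AlgebraicIndependent.matroid K ℂ).exists_isBasis (Set.range y)
  rw [AlgebraicIndependent.matroid_isBasis_iff] at hS
  obtain ⟨hSi, hSy, hSa⟩ := hS
  have hSf : S.Finite := (Set.finite_range y).subset hSy
  haveI : Fintype S := hSf.fintype
  obtain ⟨r0, f, hr0, hfK, hfb⟩ := basis K N hN
  let z : Fin r0 ⊕ S → ℂ := Sum.elim f (fun x => (x : ℂ))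
  have hKz : K ≤ clos z := by
    intro x hx
    refine clos_mono f z (fun i => ?_) x (hfb x hx)
    exact self_mem z (Sum.inl i)
  have hyz : ∀ j, AlgOver z (y j) := by
    intro j
    rw [← mem_clos]
    apply clos_acl z
    have h1 := hSa (y j) ⟨j, rfl⟩
    have h2 : Algebra.adjoin K S ≤
        (IntermediateField.extendScalars hKz).toSubalgebra := by
      rw [Algebra.adjoin_le_iff]
      intro x hx
      exact self_mem z (Sum.inr ⟨x, hx⟩)
    let _ : Algebra (Algebra.adjoin K S) (clos z) :=
      (Subalgebra.inclusion h2).toRingHom.toAlgebra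
    have _ : IsScalarTower (Algebra.adjoin K S) (clos z) ℂ :=
      IsScalarTower.of_algebraMap_eq fun _ => rfl
    exact h1.extendScalars (Subalgebra.inclusion_injective h2)
  have hcard := pr_TrCount (Fin (N + r)) (Fin r0 ⊕ S) y z hy hyz
  rw [Fintype.card_sum, Fintype.card_fin, Fintype.card_fin] at hcard
  have hr : Fintype.card (Fin r) ≤ Fintype.card S := by
    rw [Fintype.card_fin]
    omega
  obtain ⟨e⟩ := Function.Embedding.nonempty_of_card_le hr
  choose t ht using fun x : S => hSy x.2
  refine ⟨fun i => t (e i), ?_⟩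
  have h3 : (fun i => y (t (e i))) = (fun x : S => (x : ℂ)) ∘ e := by
    funext i
    exact ht (e i)
  rw [h3]
  have h4 : AlgebraicIndependent K (fun x : S => (x : ℂ)) := hSi
  exact h4.comp e e.injective

/-- independence over `K` is inherited by `K(ξ)` -/
theorem indep_up (K k₁ : IntermediateField ℚ ℂ) (hKk : K ≤ k₁) (I J : Type) (ξ : I → ℂ)
    (E : Set (I → ℚ)) (hG : Gn k₁ ξ E) (g : J → ℂ) (hg : ∀ j, g j ∈ k₁)
    (hi : AlgebraicIndependent K g) :
    AlgebraicIndependent (IntermediateField.adjoin K (Set.range ξ)) g := by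
  classical
  rw [IntermediateField.algebraicIndependent_adjoin_iff, algebraicIndependent_iff]
  intro p hp
  -- the coefficients
  have hq : ∀ a : Algebra.adjoin K (Set.range ξ), ∃ q : MvPolynomial I K, aeval ξ q = (a : ℂ) := by
    rintro ⟨a, ha⟩
    rw [Algebra.adjoin_range_eq_range_aeval] at ha
    exact ha
  choose q hq using hq
  let gk : J → k₁ := fun j => ⟨g j, hg j⟩
  let mon : (J →₀ ℕ) → k₁ := fun α => α.prod fun j n => gk j ^ n
  let inc : K →+* k₁ := (IntermediateField.inclusion hKk).toRingHom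
  let f : MvPolynomial I k₁ := ∑ α ∈ p.support, map inc (q (p.coeff α)) * C (mon α)
  have hmap : ∀ (Q : MvPolynomial I K) (x : I → ℂ), aeval x (map inc Q) = aeval x Q := by
    intro Q x
    rw [aeval_def, eval₂_map, aeval_def]
    rfl
  have hfe : ∀ x : I → ℂ, aeval x f =
      ∑ α ∈ p.support, aeval x (q (p.coeff α)) * ((mon α : k₁) : ℂ) := by
    intro x
    simp only [f, map_sum, map_mul, hmap, aeval_C]
    rfl
  have hmonc : ∀ α : J →₀ ℕ, ((mon α : k₁) : ℂ) = α.prod fun j n => g j ^ n := by
    intro α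
    simp only [mon, Finsupp.prod]
    push_cast
    rfl
  have hf0 : aeval ξ f = 0 := by
    rw [hfe, ← hp, aeval_def, eval₂_eq]
    refine Finset.sum_congr rfl fun α _ => ?_
    rw [hq, hmonc, Finsupp.prod]
    rfl
  have hE := (hG f).1 hf0
  have hcoef : ∀ x ∈ E, ∀ α ∈ p.support,
      aeval (fun i => ((x i : ℚ) : ℂ)) (q (p.coeff α)) = 0 := by
    intro x hx
    have h1 := hE x hx
    unfold av at h1
    rw [hfe] at h1
    -- the polynomial over `K`
    let xK : I → K := fun i => ((x i : ℚ) : K)
    let P : MvPolynomial J K := ∑ α ∈ p.support, monomial α (aeval xK (q (p.coeff α)))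
    have hval : ∀ Q : MvPolynomial I K, aeval (fun i => ((x i : ℚ) : ℂ)) Q =
        algebraMap K ℂ (aeval xK Q) := by
      intro Q
      rw [← MvPolynomial.aeval_algebraMap_apply]
      rfl
    have hP : aeval g P = 0 := by
      simp only [P, map_sum, aeval_monomial]
      rw [← h1]
      refine Finset.sum_congr rfl fun α _ => ?_
      rw [hval, hmonc]
    have hP0 : P = 0 := (algebraicIndependent_iff.1 hi) P hP
    intro α hα
    have h2 : P.coeff α = aeval xK (q (p.coeff α)) := by
      simp only [P, coeff_sum, coeff_monomial]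
      rw [Finset.sum_ite_eq', if_pos hα]
    rw [hval, ← h2, hP0, coeff_zero, map_zero]
  ext α
  rw [coeff_zero]
  by_contra hne
  have hα : α ∈ p.support := by
    rw [mem_support_iff]
    intro h0
    exact hne (by rw [h0])
  have h3 : aeval ξ (map inc (q (p.coeff α))) = 0 := by
    rw [hG]
    intro x hx
    unfold av
    rw [hmap]
    exact hcoef x hx α hα
  rw [hmap, hq] at h3
  exact hne (by rw [h3]; rfl)

end I_TrB

open I_TrB in
/-- **F5: small transcendence degree.** -/
theorem TrB_pf : S_TrB := by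
  classical
  intro K k₁ hKk I P _ _ ξ E hG Ω κ hκ hrel N hN F hF hΩ hT
  obtain ⟨y, hyF, hy⟩ := hT
  obtain ⟨s, hs⟩ := exch K N (Fintype.card P) hN y hy
  let e := Fintype.equivFin P
  have hs' : AlgebraicIndependent K (fun p : P => y (s (e p))) := hs.comp e e.injective
  have hi := indep_up K k₁ hKk I P ξ E hG (fun p => y (s (e p))) (fun p => hF (hyF _)) hs'
  choose X hX using fun a : P =>
    Pool.Agent.ED.exists_derivation hi (fun p => if p = a then (1 : ℂ) else 0)
  let D : P → Derivation ℚ ℂ ℂ := fun a => (X a).restrictScalars ℚ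
  have hDX : ∀ a x, D a x = X a x := fun _ _ => rfl
  have hDK : ∀ a, D a ∈ DK (IntermediateField.adjoin ℚ ((K : Set ℂ) ∪ Set.range ξ)) := by
    intro a x hx
    have h1 : IntermediateField.adjoin ℚ ((K : Set ℂ) ∪ Set.range ξ) ≤
        (IntermediateField.adjoin K (Set.range ξ)).restrictScalars ℚ := by
      rw [IntermediateField.adjoin_le_iff]
      rintro t (ht | ht)
      · exact (IntermediateField.adjoin K (Set.range ξ)).algebraMap_mem ⟨t, ht⟩
      · exact IntermediateField.subset_adjoin K (Set.range ξ) ht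
    have h2 : x ∈ IntermediateField.adjoin K (Set.range ξ) := h1 hx
    rw [hDX]
    exact (X a).map_algebraMap ⟨x, h2⟩
  let M : Matrix P P ℂ := Matrix.of fun p a => Ω (D a) p
  have hM : Matrix.vecMul κ M = 0 := by
    funext a
    exact hrel (D a) (hDK a)
  have hdet : M.det = 0 := Matrix.exists_vecMul_eq_zero_iff.1 ⟨κ, hκ, hM⟩
  obtain ⟨c, hc, hMc⟩ := Matrix.exists_mulVec_eq_zero_iff.2 hdet
  have hsum : Ω (∑ a, c a • D a) = 0 := by
    funext p
    have h1 := congrFun hMc p
    rw [map_sum, Finset.sum_apply, Pi.zero_apply]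
    rw [Pi.zero_apply] at h1
    rw [← h1]
    change _ = ∑ a, Ω (D a) p * c a
    refine Finset.sum_congr rfl fun a _ => ?_
    rw [map_smul, Pi.smul_apply, smul_eq_mul, mul_comm]
  have hmem : (∑ a, c a • D a) ∈ DK (IntermediateField.adjoin ℚ ((K : Set ℂ) ∪ Set.range ξ)) :=
    Submodule.sum_mem _ fun a _ => Submodule.smul_mem _ _ (hDK a)
  apply hc
  funext a
  have h2 := hΩ _ hmem hsum (y (s (e a))) (hyF _)
  have h3 : (∑ b, c b • D b) (y (s (e a))) = c a := by
    have h4 : ∀ (t : Finset P), (∑ b ∈ t, c b • D b) (y (s (e a))) =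
        ∑ b ∈ t, c b * (if a = b then (1 : ℂ) else 0) := by
      intro t
      induction t using Finset.induction_on with
      | empty => simp
      | insert b t hb ih =>
        rw [Finset.sum_insert hb, Finset.sum_insert hb, Derivation.add_apply, ih,
          Derivation.smul_apply, hDX, hX b a, smul_eq_mul]
    rw [h4]
    simp
  rw [h3] at h2
  rw [h2]
  rfl

end Pool.Agent.Work.MP_8da9ea_nt.FR
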