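import Pool.Agent.Work.MP_8da9ea_nt.FR.G
import Pool.Agent.Work.MP_8da9ea_nt.FR.Asm
import Pool.Agent.Work.MP_8da9ea_nt.FR.I_RelUp
import Pool.Agent.Work.MP_8da9ea_nt.FR.I_RelDown
import Pool.Agent.Work.MP_8da9ea_nt.FR.I_Stb
import Pool.Agent.Work.MP_8da9ea_nt.FR.I_TrB
import Pool.Agent.Work.MP_8da9ea_nt.FR.I_Frm
import Pool.Agent.Work.MP_8da9ea_nt.FR.I_AxX
import Pool.Agent.Work.MP_8da9ea_nt.FR.I_FK
import Pool.Agent.Work.MP_8da9ea_nt.FR.I_DecK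
import Pool.Agent.Work.MP_8da9ea_nt.EC.I_HomSurj

/-!
# Blocks FR and FK: assembly
-/

set_option autoImplicit false

namespace Pool.Agent.Work.MP_8da9ea_nt.FR

open Pool.Agent.Work.MP_327059_nt.GL Pool.Agent.Work.MP_8da9ea_nt.S
  Pool.Agent.Work.MP_8da9ea_nt.EB Pool.Agent.Work.MP_8da9ea_nt.EC

theorem x_Frm : S_Frm := Frm_pf x_ClosedK FormBZ_pf x_LamAddK x_EtaAddK

theorem x_AxX : S_AxX := AxX_pf x_AxF RelDown_pf x_LamAddK x_LamMulK x_LamZeroK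

theorem x_FK : S_FK := FK_pf DecK_pf RelUp_pf Stb_pf TrB_pf x_Frm x_AxX

theorem x_FKI : S_FKI := FKI_pf x_FK x_LamAddK x_LamMulK x_LamZeroK

theorem x_IndV : S_IndV :=
  IndV_pf x_LamAddK x_LamMulK x_EtaAddK x_Kf x_EtaMul HomSurj_pf

end Pool.Agent.Work.MP_8da9ea_nt.FR
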