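import Pool.Agent.Work.MP_8da9ea_nt.FR.Stmts
import Pool.Agent.Work.MP_8da9ea_nt.EC.Asm
import Pool.Agent.Work.MP_8da9ea_nt.SF.OnT

/-!
# Points of a closed field, arbitrary lattices: the lower bound for one lattice

The blocks `EC/I_Pres`, `EC/I_Jac`, `EC/I_Ind`, `EC/I_Memb`, `EC/I_PerAlg`, `EC/I_OnLD` for invariants in
the field `K` instead of algebraic invariants.
-/

set_option autoImplicit false

namespace Pool.Agent.Work.MP_8da9ea_nt.FR

open Pool.Agent.Work.MP_8da9ea_nt Pool.Agent.ED Pool.Agent.Work.MP_8da9ea_nt.EB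
  Pool.Agent.Work.MP_327059_nt.GL Pool.Agent.Work.MP_8da9ea_nt.S Pool.Agent.Work.MP_8da9ea_nt.EC

/-- Independence of combinations, arbitrary lattices. -/
def S_IndV : Prop := ∀ (τ μ : ℂ) (K : IntermediateField ℚ ℂ), GF τ μ K → PerK τ μ K →
  ∀ (r r' : ℕ) (u : Fin r → ℂ) (v : Fin r' → ℂ), (∀ i, v i ∈ K) → (∀ i, v i ∉ Lam τ) →
    AlgebraicIndependent K (fm τ μ u v) →
  ∀ (a b : ℕ) (A : Fin a → Fin r → ℚ) (G : Fin b → Fin r' → ℂ) (ρ : Fin b → ℂ),
    LinearIndependent ℚ A → (∀ i l, IsE τ (G i l)) →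
    (∀ c : Fin b → ℂ, (∀ i, IsE τ (c i)) → (∀ l, ∑ i, c i * G i l = 0) → c = 0) →
    (∀ i, ∃ q q' : ℚ, ρ i = q + q' * τ) →
      (∀ i, ∑ l, G i l * v l + ρ i ∉ Lam τ) ∧
      AlgebraicIndependent K (fm τ μ (fun i => ∑ j, (A i j : ℂ) * u j)
        (fun i => ∑ l, G i l * v l + ρ i))

namespace OnV

open Polynomial in
/-- a root of a cubic with coefficients in `K` is algebraic over `K` -/
theorem alg_cubicV {K : IntermediateField ℚ ℂ} {a b x : ℂ} (ha : a ∈ K) (hb : b ∈ K)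
    (h : 4 * x ^ 3 - a * x - b = 0) : IsAlgebraic K x := by
  refine ⟨C 4 * X ^ 3 - C ⟨a, ha⟩ * X - C ⟨b, hb⟩, ?_, ?_⟩
  · intro h0
    have h2 := congrArg (fun p => p.coeff 3) h0
    simp only [coeff_sub, coeff_C_mul, coeff_X_pow, coeff_X, coeff_C, coeff_zero] at h2
    norm_num at h2
  · simp only [map_sub, map_mul, aeval_C, map_pow, aeval_X]
    have h3 : (algebraMap K ℂ) ⟨a, ha⟩ = a := rfl
    have h4 : (algebraMap K ℂ) ⟨b, hb⟩ = b := rfl
    rw [h3, h4, map_ofNat]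
    exact h

/-- `Y(v) ≠ 0` if `X(v)` is transcendental -/
theorem ye_neV {τ μ : ℂ} {K : IntermediateField ℚ ℂ} (h : GF τ μ K) {v : ℂ} (hv : v ∉ Lam τ)
    (hx : ¬ IsAlgebraic K (xe τ μ v)) : ye τ μ v ≠ 0 := by
  intro h0
  apply hx
  have h1 : ye τ μ v ^ 2 = 4 * xe τ μ v ^ 3 - (μ ^ 4 * gg2 τ) * xe τ μ v - μ ^ 6 * gg3 τ := by
    have h2 := wpd_sq h.im hv
    unfold ye xe
    linear_combination μ ^ 6 * h2
  rw [h0] at h1
  exact alg_cubicV h.g2 h.g3 (by rw [← h1]; ring)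

theorem PresV {τ μ : ℂ} {K : IntermediateField ℚ ℂ} (hN : GF τ μ K)
    (r r' : ℕ) (u : Fin r → ℂ) (v : Fin r' → ℂ) (hv : ∀ i, v i ∉ Lam τ)
    (hind : AlgebraicIndependent K (fm τ μ u v)) (w : Fin r ⊕ Fin r' × Bool → ℂ) :
    ∃ δ ∈ DK K, enE τ μ u v δ = w := by
  classical
  have hx : ∀ i, ¬ IsAlgebraic K (xe τ μ (v i)) := by
    intro i h
    exact hind.transcendental (Sum.inr (i, false)) h
  have hy : ∀ i, ye τ μ (v i) ≠ 0 := fun i => ye_neV hN (hv i) (hx i)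
  obtain ⟨X, hX⟩ := exists_derivation hind (fun o : Fin r ⊕ Fin r' × Bool =>
    Sum.elim (fun i => Complex.exp (u i) * w (Sum.inl i))
      (fun q : Fin r' × Bool => if q.2 then w (Sum.inr (q.1, true)) -
        xe τ μ (v q.1) * w (Sum.inr (q.1, false)) else ye τ μ (v q.1) * w (Sum.inr (q.1, false))) o)
  refine ⟨X.restrictScalars ℚ, ?_, ?_⟩
  · intro x hx
    show X x = 0
    exact X.map_algebraMap (⟨x, hx⟩ : K)
  · have hxe : ∀ i, (X.restrictScalars ℚ) (xe τ μ (v i)) = ye τ μ (v i) * w (Sum.inr (i, false)) := by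
      intro i
      have h1 := hX (Sum.inr (i, false))
      simpa [fm] using h1
    have hze : ∀ i, (X.restrictScalars ℚ) (ze τ μ (v i)) = w (Sum.inr (i, true)) -
        xe τ μ (v i) * w (Sum.inr (i, false)) := by
      intro i
      have h1 := hX (Sum.inr (i, true))
      simpa [fm] using h1
    have hlam : ∀ i, lam τ μ (X.restrictScalars ℚ) (v i) = w (Sum.inr (i, false)) := by
      intro i
      unfold lam
      rw [if_neg (hv i), hxe i, mul_div_cancel_left₀ _ (hy i)]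
    funext o
    rcases o with i | ⟨i, b⟩
    · show (X.restrictScalars ℚ) (Complex.exp (u i)) / Complex.exp (u i) = w (Sum.inl i)
      have h1 : (X.restrictScalars ℚ) (Complex.exp (u i)) = Complex.exp (u i) * w (Sum.inl i) := by
        have h2 := hX (Sum.inl i)
        simpa [fm] using h2
      rw [h1, mul_div_cancel_left₀ _ (Complex.exp_ne_zero _)]
    · cases b
      · exact hlam i
      · show etf τ μ (X.restrictScalars ℚ) (v i) = w (Sum.inr (i, true))
        unfold etf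
        rw [if_neg (hv i), hze i, hlam i]
        ring

theorem JacV {τ μ : ℂ} {K : IntermediateField ℚ ℂ} (r r' : ℕ) (u : Fin r → ℂ) (v : Fin r' → ℂ)
    (hsurj : ∀ w : Fin r ⊕ Fin r' × Bool → ℂ, ∃ δ ∈ DK K, enE τ μ u v δ = w) :
    (∀ i, v i ∉ Lam τ) ∧ AlgebraicIndependent K (fm τ μ u v) := by
  classical
  have hvL : ∀ i, v i ∉ Lam τ := by
    intro i hi
    obtain ⟨δ, _, hδ⟩ := hsurj (Pi.single (Sum.inr (i, false)) 1)
    have h1 := congrFun hδ (Sum.inr (i, false))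
    rw [Pi.single_eq_same] at h1
    have h2 : lam τ μ δ (v i) = 1 := h1
    unfold lam at h2
    rw [if_pos hi] at h2
    exact zero_ne_one h2
  have hy : ∀ i, ye τ μ (v i) ≠ 0 := by
    intro i hi
    obtain ⟨δ, _, hδ⟩ := hsurj (Pi.single (Sum.inr (i, false)) 1)
    have h1 := congrFun hδ (Sum.inr (i, false))
    rw [Pi.single_eq_same] at h1
    have h2 : lam τ μ δ (v i) = 1 := h1
    unfold lam at h2
    rw [if_neg (hvL i), hi, div_zero] at h2
    exact zero_ne_one h2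
  refine ⟨hvL, ?_⟩
  choose δ hδ hen using fun o : Fin r ⊕ Fin r' × Bool => hsurj (Pi.single o 1)
  have hP : (Matrix.of fun o o' => enE τ μ u v (δ o) o').det ≠ 0 := by
    have h1 : (Matrix.of fun o o' => enE τ μ u v (δ o) o') = 1 := by
      ext o o'
      rw [Matrix.of_apply, hen, Matrix.one_apply, Pi.single_apply]
      simp only [eq_comm]
    rw [h1, Matrix.det_one]
    exact one_ne_zero
  have hlam : ∀ o i, δ o (xe τ μ (v i)) = ye τ μ (v i) * lam τ μ (δ o) (v i) := by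
    intro o i
    unfold lam
    rw [if_neg (hvL i), mul_div_cancel₀ _ (hy i)]
  have hetf : ∀ o i, δ o (ze τ μ (v i)) = etf τ μ (δ o) (v i) -
      xe τ μ (v i) * lam τ μ (δ o) (v i) := by
    intro o i
    unfold etf
    rw [if_neg (hvL i)]
    ring
  refine TG.rel_jac K _ δ hδ ?_
  intro h0
  obtain ⟨a, ha, haJ⟩ := Matrix.exists_mulVec_eq_zero_iff.2 h0
  let a' : Fin r ⊕ Fin r' × Bool → ℂ := Sum.elim (fun i => Complex.exp (u i) * a (Sum.inl i))
    (fun q => if q.2 then a (Sum.inr (q.1, true)) else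
      ye τ μ (v q.1) * a (Sum.inr (q.1, false)) - xe τ μ (v q.1) * a (Sum.inr (q.1, true)))
  have hM : (Matrix.of fun o o' => enE τ μ u v (δ o) o').mulVec a' = 0 := by
    funext o
    have h3 := congrFun haJ o
    simp only [Matrix.mulVec, dotProduct, Matrix.of_apply, Fintype.sum_sum_type,
      Fintype.sum_prod_type, Fintype.sum_bool, Pi.zero_apply] at h3 ⊢
    rw [← h3]
    congr 1
    · refine Finset.sum_congr rfl fun i _ => ?_
      change δ o (Complex.exp (u i)) / Complex.exp (u i) * (Complex.exp (u i) * a (Sum.inl i)) =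
        δ o (Complex.exp (u i)) * a (Sum.inl i)
      rw [← mul_assoc, div_mul_cancel₀ _ (Complex.exp_ne_zero _)]
    · refine Finset.sum_congr rfl fun i _ => ?_
      change etf τ μ (δ o) (v i) * a (Sum.inr (i, true)) + lam τ μ (δ o) (v i) *
        (ye τ μ (v i) * a (Sum.inr (i, false)) - xe τ μ (v i) * a (Sum.inr (i, true))) =
        δ o (ze τ μ (v i)) * a (Sum.inr (i, true)) + δ o (xe τ μ (v i)) * a (Sum.inr (i, false))
      rw [hlam, hetf]
      ring
  have ha' : a' = 0 := by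
    by_contra hne
    exact hP (Matrix.exists_mulVec_eq_zero_iff.1 ⟨a', hne, hM⟩)
  apply ha
  funext o
  rcases o with i | ⟨i, b⟩
  · have h3 : Complex.exp (u i) * a (Sum.inl i) = 0 := congrFun ha' (Sum.inl i)
    exact (mul_eq_zero.1 h3).resolve_left (Complex.exp_ne_zero _)
  · have h3 : a (Sum.inr (i, true)) = 0 := congrFun ha' (Sum.inr (i, true))
    cases b with
    | true => exact h3
    | false =>
      have h4 : ye τ μ (v i) * a (Sum.inr (i, false)) - xe τ μ (v i) *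
        a (Sum.inr (i, true)) = 0 := congrFun ha' (Sum.inr (i, false))
      rw [h3, mul_zero, sub_zero] at h4
      exact (mul_eq_zero.1 h4).resolve_left (hy i)

end OnV

open OnV in
open I_Ind in
theorem IndV_pf (h1 : S_LamAddK) (h2 : S_LamMulK) (h3 : S_EtaAddK) (h4 : S_Kf)
    (h5 : FR.S_EtaMul) (h8 : S_HomSurj) : S_IndV := by
  classical
  intro τ μ K hN hK r r' u v hvK hvL hAI a b A G ρ hA hG hGi hρ
  have h6 := PresV hN r r' u v hvL hAI
  obtain ⟨hkalg, hkmem, -, -⟩ := h4 τ hN.im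
  have hlamA : ∀ δ ∈ DK K, ∀ x y, lam τ μ δ (x + y) = lam τ μ δ x + lam τ μ δ y :=
    fun δ hδ => h1 τ μ K hN δ hδ
  have hetA : ∀ δ ∈ DK K, ∀ x y, etf τ μ δ (x + y) = etf τ μ δ x + etf τ μ δ y :=
    fun δ hδ => h3 τ μ K hN hK δ hδ
  have h5' : ∀ (g : ℂ), IsE τ g → ∃ a s : ℂ, ∀ δ ∈ DK K, ∀ u : ℂ, δ u = 0 →
      etf τ μ δ (g * u) = a * etf τ μ δ u + s * lam τ μ δ u := by
    intro g hg
    obtain ⟨a, b, hab⟩ := h5 τ μ K hN hK g hg
    refine ⟨(starRingEnd ℂ) g, a, fun δ hδ u hu => ?_⟩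
    rw [(hab δ hδ).2.2 u, hu, mul_zero, add_zero]
  choose aa ss hE using h5'
  -- forms at the combinations
  have hlamG : ∀ δ ∈ DK K, ∀ (i : Fin b), lam τ μ δ (∑ l, G i l * v l + ρ i) =
      ∑ l, G i l * lam τ μ δ (v l) := by
    intro δ hδ i
    obtain ⟨q, q', hq⟩ := hρ i
    rw [hlamA δ hδ, hq, tors τ (lam τ μ δ) (hlamA δ hδ) (fun x hx => lam_mem δ hx), add_zero,
      addSum (lam τ μ δ) (hlamA δ hδ)]
    exact Finset.sum_congr rfl fun l _ => h2 τ μ K hN δ hδ _ _ (hG i l)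
  have hetG : ∀ δ ∈ DK K, ∀ i : Fin b, etf τ μ δ (∑ l, G i l * v l + ρ i) =
      ∑ l, (aa (G i l) (hG i l) * etf τ μ δ (v l) + ss (G i l) (hG i l) * lam τ μ δ (v l)) := by
    intro δ hδ i
    obtain ⟨q, q', hq⟩ := hρ i
    rw [hetA δ hδ, hq, tors τ (etf τ μ δ) (hetA δ hδ) (fun x hx => etf_mem δ hx), add_zero,
      addSum (etf τ μ δ) (hetA δ hδ)]
    exact Finset.sum_congr rfl fun l _ => hE _ (hG i l) δ hδ _ (hδ _ (hvK l))
  have hdl : ∀ (δ : Derivation ℚ ℂ ℂ) (i : Fin a),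
      δ (Complex.exp (∑ j, (A i j : ℂ) * u j)) / Complex.exp (∑ j, (A i j : ℂ) * u j) =
        ∑ j, (A i j : ℂ) * (δ (Complex.exp (u j)) / Complex.exp (u j)) := by
    intro δ i
    exact addLin (fun x => δ (Complex.exp x) / Complex.exp x) (dlog_add δ) (A i) u
  -- solving the linear equations
  have hsolve : ∀ α β : Fin b → ℂ, ∃ y y' : Fin r' → ℂ, (∀ i, ∑ l, G i l * y l = α i) ∧
      ∀ i, ∑ l, (aa (G i l) (hG i l) * y' l + ss (G i l) (hG i l) * y l) = β i := by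
    intro α β
    rcases Nat.eq_zero_or_pos r' with hr | hr
    · subst hr
      have hb : ∀ i : Fin b, False := by
        intro i
        have h := hGi (fun _ => 1)
          (fun _ => ⟨1, one_ne_zero, by simpa using mem1 τ, by simpa using memt τ⟩)
          (fun l => l.elim0)
        exact one_ne_zero (congrFun h i)
      exact ⟨fun _ => 0, fun _ => 0, fun i => (hb i).elim, fun i => (hb i).elim⟩
    · obtain ⟨δ₀, hδ₀, hw₀⟩ := h6
        (Sum.elim (fun _ => 0) (fun q => if q.2 then 1 else 0))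
      have hl0 : ∀ l, lam τ μ δ₀ (v l) = 0 := by
        intro l
        have h := congrFun hw₀ (Sum.inr (l, false))
        simpa [enE] using h
      have he0 : ∀ l, etf τ μ δ₀ (v l) = 1 := by
        intro l
        have h := congrFun hw₀ (Sum.inr (l, true))
        simpa [enE] using h
      set l0 : Fin r' := ⟨0, hr⟩ with hl0def
      have hvd : δ₀ (v l0) = 0 := hδ₀ _ (hvK l0)
      have haa : ∀ (g : ℂ) (hg : IsE τ g), etf τ μ δ₀ (g * v l0) = aa g hg := by
        intro g hg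
        rw [hE g hg δ₀ hδ₀ _ hvd, he0, hl0]
        ring
      let φ : kf τ →+* ℂ :=
        { toFun := fun g => etf τ μ δ₀ ((g : ℂ) * v l0)
          map_one' := by
            change etf τ μ δ₀ (((1 : kf τ) : ℂ) * v l0) = 1
            rw [OneMemClass.coe_one, one_mul, he0]
          map_zero' := by
            change etf τ μ δ₀ (((0 : kf τ) : ℂ) * v l0) = 0
            rw [ZeroMemClass.coe_zero, zero_mul]
            exact etf_mem δ₀ (mem0 τ)
          map_add' := by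
            intro g h
            change etf τ μ δ₀ (((g + h : kf τ) : ℂ) * v l0) =
              etf τ μ δ₀ ((g : ℂ) * v l0) + etf τ μ δ₀ ((h : ℂ) * v l0)
            rw [AddMemClass.coe_add, add_mul, hetA δ₀ hδ₀]
          map_mul' := by
            intro g h
            change etf τ μ δ₀ (((g * h : kf τ) : ℂ) * v l0) =
              etf τ μ δ₀ ((g : ℂ) * v l0) * etf τ μ δ₀ ((h : ℂ) * v l0)
            have hg : IsE τ (g : ℂ) := (hkmem _).1 g.2
            have hh : IsE τ (h : ℂ) := (hkmem _).1 h.2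
            have hd : δ₀ ((h : ℂ) * v l0) = 0 := by
              rw [Derivation.leibniz, hvd, der_alg δ₀ (hkalg _ hh), smul_zero, smul_zero,
                add_zero]
            rw [MulMemClass.coe_mul, mul_assoc, hE _ hg δ₀ hδ₀ _ hd, haa _ hg,
              h2 τ μ K hN δ₀ hδ₀ _ _ hh, hl0, mul_zero, mul_zero, add_zero] }
      have hφ : ∀ (g : kf τ) (hg : IsE τ (g : ℂ)), φ g = aa g hg := fun g hg => haa g hg
      let G' : Fin b → Fin r' → kf τ := fun i l => ⟨G i l, (hkmem _).2 (hG i l)⟩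
      have hG' : LinearIndependent (kf τ) G' := by
        rw [Fintype.linearIndependent_iff]
        intro c hc i
        have h := hGi (fun i => (c i : ℂ)) (fun i => (hkmem _).1 (c i).2) (by
          intro l
          have e := congrFun hc l
          rw [Finset.sum_apply] at e
          have e2 := congrArg (fun x : kf τ => (x : ℂ)) e
          simpa [G'] using e2)
        exact Subtype.ext (congrFun h i)
      obtain ⟨y, hy⟩ := h8 (kf τ) (algebraMap (kf τ) ℂ) b r' G' hG' α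
      obtain ⟨y', hy'⟩ := h8 (kf τ) φ b r' G' hG'
        (fun i => β i - ∑ l, ss (G i l) (hG i l) * y l)
      refine ⟨y, y', fun i => hy i, fun i => ?_⟩
      have e := hy' i
      rw [Finset.sum_add_distrib]
      have e2 : ∑ l, aa (G i l) (hG i l) * y' l = ∑ l, φ (G' i l) * y' l :=
        Finset.sum_congr rfl fun l _ => by rw [hφ (G' i l) (hG i l)]
      rw [e2, e]
      ring
  refine JacV a b _ _ fun w => ?_
  obtain ⟨x, hx⟩ := ratSurj A hA (fun i => w (Sum.inl i))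
  obtain ⟨y, y', hy, hy'⟩ := hsolve (fun i => w (Sum.inr (i, false)))
    (fun i => w (Sum.inr (i, true)))
  obtain ⟨δ, hδ, hw⟩ := h6
    (Sum.elim x (fun q => if q.2 then y' q.1 else y q.1))
  have hdx : ∀ j, δ (Complex.exp (u j)) / Complex.exp (u j) = x j := by
    intro j
    have h := congrFun hw (Sum.inl j)
    simpa [enE] using h
  have hly : ∀ l, lam τ μ δ (v l) = y l := by
    intro l
    have h := congrFun hw (Sum.inr (l, false))
    simpa [enE] using h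
  have hey : ∀ l, etf τ μ δ (v l) = y' l := by
    intro l
    have h := congrFun hw (Sum.inr (l, true))
    simpa [enE] using h
  refine ⟨δ, hδ, ?_⟩
  funext o
  rcases o with i | ⟨i, t⟩
  · change δ (Complex.exp (∑ j, (A i j : ℂ) * u j)) / Complex.exp (∑ j, (A i j : ℂ) * u j) = _
    rw [hdl, ← hx i]
    exact Finset.sum_congr rfl fun j _ => by rw [hdx]
  · cases t with
    | true =>
      change etf τ μ δ (∑ l, G i l * v l + ρ i) = _
      rw [hetG δ hδ, ← hy' i]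
      exact Finset.sum_congr rfl fun l _ => by rw [hey, hly]
    | false =>
      change lam τ μ δ (∑ l, G i l * v l + ρ i) = _
      rw [hlamG δ hδ, ← hy i]
      exact Finset.sum_congr rfl fun l _ => by rw [hly]

namespace OnV

/-- the field of periods -/
theorem perV {τ : ℂ} (hτ : 0 < τ.im) {K : IntermediateField ℚ ℂ} (h2 : gg2 τ ∈ K) (h3 : gg3 τ ∈ K)
    (hK : PerK τ 1 K) : bigField 1 τ (![] : Fin 0 → ℂ) (![] : Fin 0 → ℂ) ≤ K := by
  refine big_le 1 τ _ _ (fun l => l.elim0) (fun l => l.elim0) h2 h3 (fun l => l.elim0)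
    (fun l => l.elim0) (fun l => l.elim0) (one_mem _) hK.tau hK.et ?_
  rw [zt_half_tau hτ]
  exact sub_mem (mul_mem hK.tau hK.et) hK.kap

/-- membership -/
theorem membV {F : IntermediateField ℚ ℂ} (hF : CD.Closed F) {τ ω₁ : ℂ} (hτ : 0 < τ.im)
    (hω : ω₁ ≠ 0) (hτF : τ ∈ F) (s n : ℕ) (t : Fin s → ℂ) (p : Fin n → ℂ) :
    (∀ M : Fin s → ℤ, ∑ l, (M l : ℂ) * t l ∈ F →
      Complex.exp (∑ l, (M l : ℂ) * t l) ∈ CD.acl (bigField ω₁ (ω₁ * τ) t p) ⊓ F) ∧
    (∀ g : Fin n → ℂ, (∀ j, IsI τ (g j)) → ∑ j, g j * (p j / ω₁) ∈ F →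
      ∑ j, g j * (p j / ω₁) ∉ Lam τ →
        xe τ 1 (∑ j, g j * (p j / ω₁)) ∈ CD.acl (bigField ω₁ (ω₁ * τ) t p) ⊓ F ∧
        ze τ 1 (∑ j, g j * (p j / ω₁)) ∈ CD.acl (bigField ω₁ (ω₁ * τ) t p) ⊓ F) ∧
    bigField 1 τ (![] : Fin 0 → ℂ) (![] : Fin 0 → ℂ) ≤
      CD.acl (bigField ω₁ (ω₁ * τ) t p) ⊓ F := by
  refine ⟨fun M hM => ⟨CD.texp_mem t p M, CD.closed_exp hF hM⟩, fun g hg hgF hgL => ?_, ?_⟩
  · have hgood := (CD.good_comb t p CD.prf_Add CD.end_Mul hω hτ g
      (fun j => hg j)).resolve_left hgL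
    have hwF := CD.closed_wp hF (one_mem _) hτF hgF
    have hzF := CD.closed_zt hF (one_mem _) hτF hgF
    unfold xe ze
    rw [one_pow, one_mul, one_mul]
    exact ⟨⟨hgood.1, hwF⟩, ⟨hgood.2, hzF⟩⟩
  · exact le_inf ((big_base hω t p).trans (CD.le_acl _))
      (CD.closed_big hF (one_mem _) hτF (fun l => l.elim0) (fun l => l.elim0))

end OnV

open OnV in
/-- **The lower bound for one lattice, with defects.** -/
theorem onLV (hInd : S_IndV) {S : Set ℂ} (hS : S.Countable) {τ ω₁ : ℂ} (hτ : 0 < τ.im)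
    (h1 : ω₁ ≠ 0) (hτF : τ ∈ CD.cl S) (K : IntermediateField ℚ ℂ) (h2 : gg2 τ ∈ K)
    (h3 : gg3 τ ∈ K) (hK : PerK τ 1 K) {r r' : ℕ} (u : Fin r → ℂ) (v : Fin r' → ℂ)
    (hvK : ∀ i, v i / ω₁ ∈ K) (hvL : ∀ i, v i / ω₁ ∉ Lam τ)
    (hind : AlgebraicIndependent K (fm τ 1 u (fun i => v i / ω₁))) {s n : ℕ} (t : Fin s → ℂ)
    (p : Fin n → ℂ) (d d' : ℕ) (t₀ : Fin d → ℂ) (p₀ : Fin d' → ℂ)
    (hI : TG.Inn (CD.cl S) t (Fin.append u t₀))
    (hIE : InnE (CD.cl S) ω₁ (ω₁ * τ) p (Fin.append v p₀)) (ρ : ℕ) (y : Fin ρ → ℂ)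
    (hy : ∀ i, IsAlgebraic (bigField ω₁ (ω₁ * τ) t p) (y i)) (hyc : ClInd S y) (e : ℕ)
    (he : HasTrdeg (bigField 1 τ (![] : Fin 0 → ℂ) (![] : Fin 0 → ℂ)) e) (N : ℕ)
    (hN : N + d + 2 * d' ≤ e + tDim t + kDim2 ω₁ (ω₁ * τ) p +
      max ρ (min 1 (modDim (CD.cl S) t + modDim2 (CD.cl S) ω₁ (ω₁ * τ) p))) :
    HasTrdeg (bigField ω₁ (ω₁ * τ) t p) N := by
  classical
  have hdiv : ω₁ * τ / ω₁ = τ := mul_div_cancel_left₀ _ h1
  obtain ⟨hm1, hm2, hm3⟩ := membV (CD.closed_cl S) hτ h1 hτF s n t p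
  obtain ⟨a, M, A, hMF, hMexp, hA, hadim⟩ :=
    x_TSel (CD.cl S) (CD.closed_cl S).kap s r d t u t₀ hI
  have him : (ω₁ * τ / ω₁).im ≠ 0 := by
    rw [hdiv]
    exact hτ.ne'
  obtain ⟨b, g, G, σ, hg, hgF, hgG, hσ, hGE, hGrow, hbdim⟩ := x_PSel (CD.cl S) ω₁ (ω₁ * τ)
    (by rw [hdiv]; exact hτ) (by rw [hdiv]; exact hτF) n r' d' p v p₀ hIE
  rw [hdiv] at hg hσ hGE hGrow
  have hGF : GF τ 1 K := ⟨hτ, one_ne_zero, by rw [one_pow, one_mul]; exact h2,
    by rw [one_pow, one_mul]; exact h3⟩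
  obtain ⟨hnL, hind'⟩ := hInd τ 1 K hGF hK r r' u (fun i => v i / ω₁) hvK hvL hind a b A G σ hA
    hGE hGrow hσ
  have hfam : ∀ o, fm τ 1 (fun i => ∑ j, (A i j : ℂ) * u j)
      (fun i => ∑ l, G i l * (v l / ω₁) + σ i) o ∈
        CD.acl (bigField ω₁ (ω₁ * τ) t p) ⊓ CD.cl S := by
    rintro (i | ⟨i, bb⟩)
    · change Complex.exp (∑ j, (A i j : ℂ) * u j) ∈ _
      rw [← hMexp i]
      exact hm1 (M i) (hMF i)
    · have h3 : ∑ j, g i j * (p j / ω₁) ∉ Lam τ := by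
        rw [hgG i]
        exact hnL i
      have h4 := hm2 (g i) (hg i) (hgF i) h3
      rw [hgG i] at h4
      cases bb with
      | true => exact h4.2
      | false => exact h4.1
  have hcard : a + 2 * b ≤ Fintype.card (Fin a ⊕ Fin b × Bool) := by
    rw [Fintype.card_sum, Fintype.card_prod, Fintype.card_fin, Fintype.card_fin,
      Fintype.card_bool, mul_comm b 2]
  have h5 := Tower_pf K (bigField 1 τ (![] : Fin 0 → ℂ) (![] : Fin 0 → ℂ))
    (CD.acl (bigField ω₁ (ω₁ * τ) t p) ⊓ CD.cl S) ((perV hτ h2 h3 hK).trans (CD.le_acl _)) hm3 e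
    (a + 2 * b) (Fin a ⊕ Fin b × Bool) _ he hcard hind' hfam
  have hj : jInv ω₁ (ω₁ * τ) ∈ CD.cl S :=
    (CD.closed_jiff (CD.closed_cl S) him).2 (by rw [hdiv]; exact hτF)
  have h6 := CD.all_fix (t := t) (p := p) CD.prf_Lin CD.prf_Lin2 CD.prf_Add CD.end_Mul
    him hS hj y (fun i => CD.mem_acl.2 (hy i)) hyc
  have h7 : CD.RelTr (CD.acl (CD.acl (bigField ω₁ (ω₁ * τ) t p))) (CD.cl S) _ :=
    h6.mono (CD.le_acl _) le_rfl le_rfl
  have h8 := CD.hasTrdeg_acl (h7.hasTrdeg h5)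
  exact h8.mono le_rfl (by omega)

end Pool.Agent.Work.MP_8da9ea_nt.FR
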