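import Pool.Agent.Work.MP_8da9ea_nt.FR.FinA
import Pool.Agent.Work.MP_8da9ea_nt.FR.OnV

/-!
# Full rank for spaces stable under a large number field: the parts of the final theorem
-/

set_option autoImplicit false

namespace Pool.Agent.Work.MP_8da9ea_nt.FR

open Pool.Agent.Work.MP_8da9ea_nt.EB Pool.Agent.Work.MP_327059_nt.GL Pool.Agent.Work.MP_8da9ea_nt.S
  Pool.Agent.Work.MP_8da9ea_nt.EC Pool.Agent.Work.MP_8da9ea_nt.TG Pool.Agent.ED

namespace FinB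

open FinA

/-- The fields containing `B` and the `z i`. -/
noncomputable def adz (B : IntermediateField ℚ ℂ) {q : ℕ} (z : Fin q → ℂ) : IntermediateField ℚ ℂ :=
  IntermediateField.adjoin ℚ ((B : Set ℂ) ∪ Set.range z)

theorem le_adz (B : IntermediateField ℚ ℂ) {q : ℕ} (z : Fin q → ℂ) : B ≤ adz B z := fun _ hx =>
  IntermediateField.subset_adjoin _ _ (Or.inl hx)

theorem adz_le {B K : IntermediateField ℚ ℂ} {q : ℕ} {z : Fin q → ℂ} (h : B ≤ K)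
    (hz : ∀ i, z i ∈ K) : adz B z ≤ K := by
  refine IntermediateField.adjoin_le_iff.2 ?_
  rintro x (hx | ⟨i, rfl⟩)
  · exact h hx
  · exact hz i

/-- What is proved for one lattice at a point, for arbitrary `t₀`, `p₀`. -/
def One (ω₁ ω₂ : ℂ) {q s n s₀ k₀ : ℕ} (z : Fin q → ℂ) (u : Fin s → ℂ) (v : Fin n → ℂ)
    (t₀ : Fin s₀ → ℂ) (p₀ : Fin k₀ → ℂ) : Prop :=
  (∀ j, ∀ a b : ℤ, v j ≠ a * ω₁ + b * ω₂) ∧
  AlgebraicIndependent (adz (bigField ω₁ ω₂ t₀ p₀) z) (vals ω₁ ω₂ u v) ∧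
  (∀ d, HasTrdeg (bigField ω₁ ω₂ t₀ p₀) d →
    HasTrdeg (bigField ω₁ ω₂ (Fin.append t₀ u) (Fin.append p₀ v)) (d + s + 2 * n)) ∧
  (Q1 ω₁ ω₂ t₀ p₀ → Q1 ω₁ ω₂ (Fin.append t₀ u) (Fin.append p₀ v))

/-- One lattice, elliptic points. -/
theorem one_ell {τ ω₁ ω₂ : ℂ} (h : NF τ ω₁ ω₂) {q s n s₀ k₀ : ℕ} (z : Fin q → ℂ)
    (u : Fin s → ℂ) (v : Fin n → ℂ) (t₀ : Fin s₀ → ℂ) (p₀ : Fin k₀ → ℂ)
    (hv : ∀ j, v j / ω₁ ∉ Lam τ)
    (hi : AlgebraicIndependent (adz (CD.acl (bigField ω₁ ω₂ t₀ p₀)) (fun i => z i / ω₁))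
      (fm τ 1 u (fun j => v j / ω₁))) : One ω₁ ω₂ z u v t₀ p₀ := by
  have h1 := h.ne
  set B := bigField ω₁ ω₂ t₀ p₀ with hB
  set K := adz (CD.acl B) (fun i => z i / ω₁) with hK
  have hBK : B ≤ K := (CD.le_acl B).trans (le_adz _ _)
  have hω1 : ω₁ ∈ B := big_o1 _ _ _ _
  have hz : ∀ i, z i ∈ K := by
    intro i
    have h2 : z i / ω₁ ∈ K := IntermediateField.subset_adjoin _ _ (Or.inr ⟨i, rfl⟩)
    have h3 : z i = z i / ω₁ * ω₁ := by field_simp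
    rw [h3]
    exact mul_mem h2 (hBK hω1)
  have hle : adz B z ≤ K := adz_le hBK hz
  -- values
  have hwp : ∀ y, wp 1 τ (y / ω₁) = ω₁ ^ 2 * wp ω₁ ω₂ y := by
    intro y
    rcases h.om with h | h
    · rw [h, wp_norm h1]
    · rw [h, wp_N, wp_norm h1]
  have hzt : ∀ y, zt 1 τ (y / ω₁) = ω₁ * zt ω₁ ω₂ y := by
    intro y
    rcases h.om with h | h
    · rw [h, zt_norm h1]
    · rw [h, zt_N, zt_norm h1]
  have hind : AlgebraicIndependent K (vals ω₁ ω₂ u v) := by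
    let e : Fin s ⊕ (Fin n ⊕ Fin n) → Fin s ⊕ Fin n × Bool :=
      Sum.elim Sum.inl (Sum.elim (fun j => Sum.inr (j, false)) (fun j => Sum.inr (j, true)))
    have he : Function.Injective e := by
      rintro (a | a | a) (b | b | b) hab <;> simp [e] at hab ⊢ <;> exact hab
    let c : Fin s ⊕ (Fin n ⊕ Fin n) → ℂ :=
      Sum.elim (fun _ => 1) (Sum.elim (fun _ => (ω₁ ^ 2)⁻¹) (fun _ => ω₁⁻¹))
    have h3 := indep_smul (hi.comp e he) c (by
      rintro (a | a | a)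
      · exact one_mem _
      · exact inv_mem (pow_mem (hBK hω1) 2)
      · exact inv_mem (hBK hω1)) (by
      rintro (a | a | a)
      · exact one_ne_zero
      · exact inv_ne_zero (pow_ne_zero 2 h1)
      · exact inv_ne_zero h1)
    have h4 : (fun i => c i * (fm τ 1 u (fun j => v j / ω₁) ∘ e) i) = vals ω₁ ω₂ u v := by
      funext i
      rcases i with a | a | a
      · simp [c, e, fm, vals]
      · have h5 : c (Sum.inr (Sum.inl a)) * (fm τ 1 u (fun j => v j / ω₁) ∘ e) (Sum.inr (Sum.inl a))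
            = (ω₁ ^ 2)⁻¹ * xe τ 1 (v a / ω₁) := rfl
        have h6 : vals ω₁ ω₂ u v (Sum.inr (Sum.inl a)) = wp ω₁ ω₂ (v a) := rfl
        rw [h5, h6]
        unfold xe
        rw [hwp]
        field_simp
      · have h5 : c (Sum.inr (Sum.inr a)) * (fm τ 1 u (fun j => v j / ω₁) ∘ e) (Sum.inr (Sum.inr a))
            = ω₁⁻¹ * ze τ 1 (v a / ω₁) := rfl
        have h6 : vals ω₁ ω₂ u v (Sum.inr (Sum.inr a)) = zt ω₁ ω₂ (v a) := rfl
        rw [h5, h6]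
        unfold ze
        rw [hzt]
        field_simp
    rw [← h4]
    exact h3
  have hfin := I_FinalZ.fin_step ω₁ ω₂ t₀ p₀ u v K hBK _ hind (by
    rintro (a | a | a)
    · refine CD.le_acl _ ?_
      have h3 := big_exp ω₁ ω₂ (Fin.append t₀ u) (Fin.append p₀ v) (Fin.natAdd s₀ a)
      rw [Fin.append_right] at h3
      exact h3
    · refine CD.le_acl _ ?_
      have h3 := big_wp ω₁ ω₂ (Fin.append t₀ u) (Fin.append p₀ v) (Fin.natAdd k₀ a)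
      rw [Fin.append_right] at h3
      exact h3
    · refine CD.le_acl _ ?_
      have h3 := big_zt ω₁ ω₂ (Fin.append t₀ u) (Fin.append p₀ v) (Fin.natAdd k₀ a)
      rw [Fin.append_right] at h3
      exact h3) (by simp; omega)
  refine ⟨?_, indep_mono hle hind, hfin⟩
  intro j x y hxy
  apply hv j
  rw [hxy]
  rcases h.om with h | h
  · refine mem_Lam.2 ⟨x, y, ?_⟩
    rw [h]
    field_simp
  · refine mem_Lam.2 ⟨x, -y, ?_⟩
    rw [h]
    push_cast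
    field_simp

/-- One lattice, only toric points. -/
theorem one_tor (ω₁ ω₂ : ℂ) {q s s₀ k₀ : ℕ} (z : Fin q → ℂ)
    (u : Fin s → ℂ) (v : Fin 0 → ℂ) (t₀ : Fin s₀ → ℂ) (p₀ : Fin k₀ → ℂ)
    (hi : AlgebraicIndependent (adz (CD.acl (bigField ω₁ ω₂ t₀ p₀)) z)
      (fun j => Complex.exp (u j))) : One ω₁ ω₂ z u v t₀ p₀ := by
  set B := bigField ω₁ ω₂ t₀ p₀ with hB
  set K := adz (CD.acl B) z with hK
  have hBK : B ≤ K := (CD.le_acl B).trans (le_adz _ _)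
  have hle : adz B z ≤ K := adz_le hBK fun i =>
    IntermediateField.subset_adjoin _ _ (Or.inr ⟨i, rfl⟩)
  have hind : AlgebraicIndependent K (vals ω₁ ω₂ u v) := by
    let e : Fin s ⊕ (Fin 0 ⊕ Fin 0) → Fin s :=
      Sum.elim id (Sum.elim (fun j => j.elim0) (fun j => j.elim0))
    have he : Function.Injective e := by
      rintro (a | a | a) (b | b | b) hab
      · exact congrArg Sum.inl hab
      all_goals first | exact a.elim0 | exact b.elim0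
    have h3 := hi.comp e he
    have h4 : (fun j => Complex.exp (u j)) ∘ e = vals ω₁ ω₂ u v := by
      funext i
      rcases i with a | a | a
      · rfl
      · exact a.elim0
      · exact a.elim0
    rw [← h4]
    exact h3
  have hfin := I_FinalZ.fin_step ω₁ ω₂ t₀ p₀ u v K hBK _ hind (by
    rintro (a | a | a)
    · refine CD.le_acl _ ?_
      have h3 := big_exp ω₁ ω₂ (Fin.append t₀ u) (Fin.append p₀ v) (Fin.natAdd s₀ a)
      rw [Fin.append_right] at h3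
      exact h3
    · exact a.elim0
    · exact a.elim0) (by simp)
  exact ⟨fun j => j.elim0, indep_mono hle hind, hfin⟩

/-- The closure clause for one lattice at a point. -/
def Clo (ω₁ ω₂ : ℂ) {s n : ℕ} (u : Fin s → ℂ) (v : Fin n → ℂ) : Prop :=
  ∀ S : Set ℂ, S.Countable → jInv ω₁ ω₂ ∈ CD.cl S → ∀ (s k : ℕ) (t : Fin s → ℂ) (p : Fin k → ℂ)
    (d d' : ℕ) (t₀ : Fin d → ℂ) (p₀ : Fin d' → ℂ),
    InnT (CD.cl S) t (Fin.append u t₀) → InnK (CD.cl S) ω₁ ω₂ p (Fin.append v p₀) →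
  ∀ (ρ : ℕ) (y : Fin ρ → ℂ), (∀ i, IsAlgebraic (bigField ω₁ ω₂ t p) (y i)) →
    (∀ i, y i ∉ CD.cl (S ∪ y '' {j | j < i})) →
  ∀ R : ℕ, R = max ρ (min 1 (modDim (CD.cl S) t + modDim2 (CD.cl S) ω₁ ω₂ p)) →
    ((open Classical in if IsCM ω₁ ω₂ then 0 else 2) + d + 2 * d' ≤ R →
      Q1 ω₁ ω₂ t p) ∧
    ∀ N : ℕ, N + d + 2 * d' ≤ tDim t + 2 + kDim2 ω₁ ω₂ p + R →
      HasTrdeg (bigField ω₁ ω₂ t p) N

theorem clo_of {ω₁ ω₂ : ℂ} {s n : ℕ} {u : Fin s → ℂ} {v : Fin n → ℂ}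
    (h : ∀ S : Set ℂ, S.Countable → jInv ω₁ ω₂ ∈ CD.cl S → ∀ (s k : ℕ) (t : Fin s → ℂ)
      (p : Fin k → ℂ) (d d' : ℕ) (t₀ : Fin d → ℂ) (p₀ : Fin d' → ℂ),
      InnT (CD.cl S) t (Fin.append u t₀) → InnK (CD.cl S) ω₁ ω₂ p (Fin.append v p₀) →
    ∀ (ρ : ℕ) (y : Fin ρ → ℂ), (∀ i, IsAlgebraic (bigField ω₁ ω₂ t p) (y i)) →
      (∀ i, y i ∉ CD.cl (S ∪ y '' {j | j < i})) →
    ∀ R : ℕ, R = max ρ (min 1 (modDim (CD.cl S) t + modDim2 (CD.cl S) ω₁ ω₂ p)) →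
      ∀ N : ℕ, N + d + 2 * d' ≤ tDim t + 2 + kDim2 ω₁ ω₂ p + R →
        HasTrdeg (bigField ω₁ ω₂ t p) N) : Clo ω₁ ω₂ u v := by
  intro S hS hj s k t p d d' t₀ p₀ hI hIK ρ y hy hyc R hR
  have hmain := h S hS hj s k t p d d' t₀ p₀ hI hIK ρ y hy hyc R hR
  refine ⟨fun hd => ?_, hmain⟩
  unfold Q1
  exact hmain _ (by split_ifs at hd ⊢ <;> omega)

/-- The closure clause, elliptic points. -/
theorem clo_ell (hInd : S_IndV) {τ ω₁ ω₂ : ℂ} (h : NF τ ω₁ ω₂) (him : (ω₂ / ω₁).im ≠ 0)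
    {s n : ℕ} (u : Fin s → ℂ) (v : Fin n → ℂ) (K : IntermediateField ℚ ℂ) (h2 : gg2 τ ∈ K)
    (h3 : gg3 τ ∈ K) (hK : PerK τ 1 K)
    (hvK : ∀ i, v i / ω₁ ∈ K) (hv : ∀ j, v j / ω₁ ∉ Lam τ)
    (hi : AlgebraicIndependent K (fm τ 1 u (fun j => v j / ω₁))) : Clo ω₁ ω₂ u v := by
  have h1 := h.ne
  refine clo_of fun S hS hj s k t p d d' t₀ p₀ hI hIK ρ y hy hyc R hR N hN => ?_
  have he' := GC.per_two_all ω₁ ω₂ him
  have hIE := innE_of h1 hIK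
  have hτS' : ω₂ / ω₁ ∈ CD.cl S := (CD.closed_jiff (CD.closed_cl S) him).1 hj
  rcases h.om with hω | hω
  · subst hω
    have hdiv : ω₁ * τ / ω₁ = τ := mul_div_cancel_left₀ _ h1
    rw [hdiv] at he' hτS'
    rw [hR] at hN
    exact onLV hInd hS h.im h1 hτS' K h2 h3 hK u v hvK hv hi t p d d' t₀ p₀ hI hIE ρ y
      hy hyc 2 he' N (by omega)
  · have hω' : -ω₂ = ω₁ * τ := by rw [hω, neg_neg]
    have hdiv : ω₂ / ω₁ = -τ := by
      rw [hω, neg_div, mul_div_cancel_left₀ _ h1]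
    have hτS : τ ∈ CD.cl S := by
      rw [hdiv] at hτS'
      simpa using neg_mem hτS'
    have e1 : bigField ω₁ (ω₁ * τ) t p = bigField ω₁ ω₂ t p := by
      rw [← hω', bigField_neg]
    have e2 : modDim2 (CD.cl S) ω₁ (ω₁ * τ) p = modDim2 (CD.cl S) ω₁ ω₂ p := by
      rw [← hω', modDim2_neg]
    have e3 : kDim2 ω₁ (ω₁ * τ) p = kDim2 ω₁ ω₂ p := by
      rw [← hω', I_AlgL.kDim2_neg]
    have e4 : bigField 1 (ω₂ / ω₁) (![] : Fin 0 → ℂ) (![] : Fin 0 → ℂ) =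
        bigField 1 τ (![] : Fin 0 → ℂ) (![] : Fin 0 → ℂ) := by
      rw [hdiv, bigField_neg]
    rw [e4] at he'
    have h8 : InnE (CD.cl S) ω₁ (ω₁ * τ) p (Fin.append v p₀) := by
      apply I_AlgL.InnE_neg
      rw [← hω', neg_neg]
      exact hIE
    have h9 := onLV hInd hS h.im h1 hτS K h2 h3 hK u v hvK hv hi t p d d' t₀ p₀ hI h8
      ρ y (by rw [e1]; exact hy) hyc 2 he' N (by rw [e2, e3, ← hR]; omega)
    rw [e1] at h9
    exact h9

/-- The closure clause, only toric points. -/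
theorem clo_tor {ω₁ ω₂ : ℂ} (him : (ω₂ / ω₁).im ≠ 0) {s : ℕ} (u : Fin s → ℂ) (v : Fin 0 → ℂ)
    (hu : AlgebraicIndependent (bigField 1 (ω₂ / ω₁) (![] : Fin 0 → ℂ) (![] : Fin 0 → ℂ))
      (fun i => Complex.exp (u i))) : Clo ω₁ ω₂ u v := by
  have h1 : ω₁ ≠ 0 := by
    rintro rfl
    simp at him
  refine clo_of fun S hS hj s k t p d d' t₀ p₀ hI hIK ρ y hy hyc R hR N hN => ?_
  have hIK' : InnE (CD.cl S) ω₁ ω₂ p p₀ := by
    intro g hg hF
    obtain ⟨h', q, q', h2, h3⟩ := innE_of h1 hIK g hg hF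
    refine ⟨fun i => h' (Fin.natAdd 0 i), q, q', fun i => h2 _, ?_⟩
    rw [h3, Fin.sum_univ_add]
    simp only [Fin.append_right, Finset.univ_eq_empty, Finset.sum_empty, zero_add]
  exact SF.onT hS him hj u hu t p d d' t₀ p₀ hI hIK' ρ y hy hyc 2
    (GC.per_two_all ω₁ ω₂ him) N (by rw [← hR]; omega)

/-- Generic lattices. -/
theorem gen_tor {s : ℕ} (u : Fin s → ℂ)
    (hu : AlgebraicIndependent (IntermediateField.adjoin ℚ {2 * (Real.pi : ℂ) * Complex.I})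
      (fun i => Complex.exp (u i))) {S : Set ℂ} (hS : S.Countable) {ω₁ ω₂ : ℂ}
    (him : (ω₂ / ω₁).im ≠ 0) (hj : jInv ω₁ ω₂ ∉ CD.cl S) {s' k : ℕ} (t : Fin s' → ℂ)
    (p : Fin k → ℂ) (d : ℕ) (t₀ : Fin d → ℂ) (hI : InnT (CD.cl S) t (Fin.append u t₀)) (ρ : ℕ)
    (y : Fin ρ → ℂ) (hy : ∀ i, IsAlgebraic (bigField ω₁ ω₂ t p) (y i))
    (hyc : ∀ i, y i ∉ CD.cl (S ∪ y '' {j | j < i})) :
    (d ≤ max 1 ρ → Q1 ω₁ ω₂ t p) ∧
      ∀ N : ℕ, N + d ≤ tDim t + 4 + kDim2 ω₁ ω₂ p + max 1 ρ →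
        HasTrdeg (bigField ω₁ ω₂ t p) N := by
  classical
  have hCM : ¬ IsCM ω₁ ω₂ := CD.closed_not_CM (CD.closed_cl S) him hj
  have hk : kDim2 ω₁ ω₂ p = 2 * pDim ω₁ ω₂ p := by
    unfold kDim2 pDim
    rw [if_neg hCM]
  have hmain : ∀ N : ℕ, N + d ≤ tDim t + 4 + kDim2 ω₁ ω₂ p + max 1 ρ →
      HasTrdeg (bigField ω₁ ω₂ t p) N := by
    intro N hN
    obtain ⟨a, M, A, hMF, hMe, hA, hdim⟩ :=
      SF.x_TSel (CD.cl S) (CD.closed_cl S).kap s' s d t u t₀ hI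
    have hs := mono_indep _ u hu A hA
    have h3 := algInd_pi.sumElim_of_tower
      (S := IntermediateField.adjoin ℚ {2 * (Real.pi : ℂ) * Complex.I})
      (by
        rintro _ ⟨i, rfl⟩
        exact ⟨⟨_, IntermediateField.subset_adjoin _ _ rfl⟩, rfl⟩) hs
    have hexp : ∀ M : Fin s' → ℤ, Complex.exp (∑ l, (M l : ℂ) * t l) ∈ bigField ω₁ ω₂ t p := by
      intro M
      rw [Complex.exp_sum]
      refine prod_mem fun l _ => ?_
      rw [Complex.exp_int_mul]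
      exact zpow_mem (bigField_exp ω₁ ω₂ t p l) _
    have hT : HasTrdeg (bigField ω₁ ω₂ t p ⊓ CD.cl S) (a + 1) := by
      refine ⟨_, ?_, h3.comp (finSumFinEquiv (m := a) (n := 1)).symm (Equiv.injective _)⟩
      intro i
      have key : ∀ v : Fin a ⊕ Fin 1,
          Sum.elim (fun i => Complex.exp (∑ j, (A i j : ℂ) * u j))
            (fun _ => 2 * (Real.pi : ℂ) * Complex.I) v ∈ bigField ω₁ ω₂ t p ⊓ CD.cl S := by
        rintro (i | i)
        · simp only [Sum.elim_inl]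
          rw [← hMe i]
          exact ⟨hexp _, CD.closed_exp (CD.closed_cl S) (hMF i)⟩
        · exact ⟨big_pi' him t p, (CD.closed_cl S).kap⟩
      exact key _
    have h5 := CD.all_mov (t := t) (p := p) CD.prf_Lin CD.prf_Lin2 CD.prf_Lin3 CD.prf_Add
      CD.end_Mul him hS hj y (fun i => CD.mem_acl.2 (hy i)) hyc
    have h6 := h5.hasTrdeg hT
    exact h6.mono le_rfl (by omega)
  refine ⟨fun hd => ?_, hmain⟩
  unfold Q1
  rw [if_neg hCM]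
  exact hmain _ (by omega)

end FinB

end Pool.Agent.Work.MP_8da9ea_nt.FR
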