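import Pool.Agent.Work.MP_8da9ea_nt.FR.KB
import Pool.Agent.Work.MP_8da9ea_nt.FR.FinB

/-!
# Full rank outside closed sets of high codimension: the final theorem
-/

set_option autoImplicit false

namespace Pool.Agent.Work.MP_8da9ea_nt.FR

open Pool.Agent.Work.MP_8da9ea_nt.EB Pool.Agent.Work.MP_327059_nt.GL Pool.Agent.Work.MP_8da9ea_nt.S
  Pool.Agent.Work.MP_8da9ea_nt.EC Pool.Agent.Work.MP_8da9ea_nt.TG Pool.Agent.ED

namespace K

open FinA PolA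

/-- The condition on the product set, for lattices. -/
theorem cnd_of {τ ω₁ ω₂ : ℂ} (h : NF τ ω₁ ω₂) {Q n M k : ℕ} {a : Fin M → ℂ} {x : Fin k → ℂ}
    (hC : 0 < n → (IsAlgebraic ℚ (jInv ω₁ ω₂) ∧ KIndep ω₁ ω₂ a) ∨
      ((∀ η₁ η₂ : ℂ, (η₂ / η₁).im ≠ 0 → KIndep η₁ η₂ a) ∧ MS Q x)) : Cnd τ Q n a x := by
  intro hn
  rcases hC hn with ⟨hj, hK⟩ | ⟨hK, hMS⟩
  · exact Or.inl ⟨h.jalg hj, fun g hg h0 => hK g (fun j => (h.iff _).2 (hg j)) h0⟩
  · refine Or.inr ⟨fun τ' hτ' g hg h0 => hK 1 τ' (by simpa using hτ'.ne') g (fun j => ?_) h0, hMS⟩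
    rw [inK_iff one_ne_zero, div_one]
    exact hg j

theorem rich_mono {Q M n₀ D : ℕ} {e : Fin D → ℂ} {C C' : (Fin M → ℂ) → (Fin n₀ → ℂ) → Prop}
    (h : Rich Q M n₀ e C) (hC : ∀ a x, C a x → C' a x) : Rich Q M n₀ e C' := by
  rcases h with h | ⟨a, x, h1, h2, h3, h4, h5⟩
  · exact Or.inl h
  · exact Or.inr ⟨a, x, h1, h2, h3, h4, hC _ _ h5⟩

end K

open FinA FinB PolA KA KB K in
/-- **The final theorem for polynomial families**, from the main statements. -/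
theorem mainK (hA : S_FRKAu) (hV : S_FRKVu) (hSL : S_SLIex) (hInd : S_IndV) (hDec : S_Dec)
    (hex : S_NDex) (hform : S_NDform) :
    ∃ cl : Set ℂ → IntermediateField ℚ ℂ,
      (∀ S : Set ℂ, S ⊆ cl S) ∧ (∀ S T : Set ℂ, S ⊆ cl T → cl S ≤ cl T) ∧
      (∀ S x, x ∈ cl S → ∃ T : Finset ℂ, (T : Set ℂ) ⊆ S ∧ x ∈ cl (T : Set ℂ)) ∧
      (∀ S, S.Countable → (cl S : Set ℂ).Countable) ∧
      (∀ S x, IsAlgebraic (cl S) x → x ∈ cl S) ∧
      (∀ S, ∀ ω₁ ∈ cl S, ∀ ω₂ ∈ cl S, ∀ (s n : ℕ) (t : Fin s → ℂ) (p : Fin n → ℂ),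
        (∀ l, t l ∈ cl S) → (∀ i, p i ∈ cl S) → bigField ω₁ ω₂ t p ≤ cl S) ∧
      (∀ S ω₁ ω₂, (ω₂ / ω₁).im ≠ 0 → (jInv ω₁ ω₂ ∈ cl S ↔ ω₂ / ω₁ ∈ cl S)) ∧
      (∀ Q N s n : ℕ, 5 ≤ N → ∃ n₀ : ℕ, ∀ κ m : ℕ, n₀ + κ * (N + 2 * s + 3 * n + 2) ≤ m →
        ∀ (D : ℕ) (e : Fin D → ℂ), LinearIndependent ℚ e →
        ∀ (q : ℕ) (R : Fin s → MvPolynomial (Fin q) ℂ),
          (Rich Q (N + 2 * s + 3 * n + 2) m e (fun _ _ => True) →
            AllBut κ e q fun z => GradInd (Set.range ((↑) : ℚ → ℂ)) R z →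
            ∀ u : Fin s → ℂ, (∀ j, u j = MvPolynomial.eval z (R j)) →
            ∀ S : Set ℂ, S.Countable → ∀ ω₁ ω₂ : ℂ, (ω₂ / ω₁).im ≠ 0 → jInv ω₁ ω₂ ∉ cl S →
            ∀ (s' k : ℕ) (t : Fin s' → ℂ) (p : Fin k → ℂ) (d : ℕ) (t₀ : Fin d → ℂ),
              InnT (cl S) t (Fin.append u t₀) →
            ∀ (ρ : ℕ) (y : Fin ρ → ℂ), (∀ i, IsAlgebraic (bigField ω₁ ω₂ t p) (y i)) →
              (∀ i, y i ∉ cl (S ∪ y '' {j | j < i})) →
              (d ≤ max 1 ρ → Q1 ω₁ ω₂ t p) ∧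
              ∀ N : ℕ, N + d ≤ tDim t + 4 + kDim2 ω₁ ω₂ p + max 1 ρ →
                HasTrdeg (bigField ω₁ ω₂ t p) N) ∧
          ∀ ω₁ ω₂ : ℂ, (ω₂ / ω₁).im ≠ 0 →
            Rich Q (N + 2 * s + 3 * n + 2) m e (fun a x =>
              0 < n → (IsAlgebraic ℚ (jInv ω₁ ω₂) ∧ KIndep ω₁ ω₂ a) ∨
                ((∀ η₁ η₂ : ℂ, (η₂ / η₁).im ≠ 0 → KIndep η₁ η₂ a) ∧ MS Q x)) →
            ∀ V : Fin n → MvPolynomial (Fin q) ℂ,
            (∀ (s' k : ℕ) (t : Fin s' → ℂ) (p : Fin k → ℂ),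
              ¬ HasTrdeg (bigField ω₁ ω₂ t p) (N + 1) →
              AllBut κ e q fun z => GradInd (Set.range ((↑) : ℚ → ℂ)) R z →
                GradInd {g | InK ω₁ ω₂ g} V z → ∀ (u : Fin s → ℂ) (v : Fin n → ℂ),
                (∀ j, u j = MvPolynomial.eval z (R j)) → (∀ j, v j = MvPolynomial.eval z (V j)) →
                (∀ j, ∀ a b : ℤ, v j ≠ a * ω₁ + b * ω₂) ∧
                AlgebraicIndependent (IntermediateField.adjoin ℚ
                    ((bigField ω₁ ω₂ t p : Set ℂ) ∪ Set.range (Fin.append u v)))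
                  (Sum.elim (fun j => Complex.exp (u j))
                    (Sum.elim (fun j => wp ω₁ ω₂ (v j)) (fun j => zt ω₁ ω₂ (v j)))) ∧
                (∀ d, HasTrdeg (bigField ω₁ ω₂ t p) d →
                  HasTrdeg (bigField ω₁ ω₂ (Fin.append t u) (Fin.append p v))
                    (d + s + 2 * n)) ∧
                (Q1 ω₁ ω₂ t p → Q1 ω₁ ω₂ (Fin.append t u) (Fin.append p v))) ∧
            (AllBut κ e q fun z => GradInd (Set.range ((↑) : ℚ → ℂ)) R z →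
              GradInd {g | InK ω₁ ω₂ g} V z → ∀ (u : Fin s → ℂ) (v : Fin n → ℂ),
              (∀ j, u j = MvPolynomial.eval z (R j)) → (∀ j, v j = MvPolynomial.eval z (V j)) →
              ∀ S : Set ℂ, S.Countable → jInv ω₁ ω₂ ∈ cl S →
              ∀ (s' k : ℕ) (t : Fin s' → ℂ) (p : Fin k → ℂ) (d d' : ℕ) (t₀ : Fin d → ℂ)
                (p₀ : Fin d' → ℂ),
                InnT (cl S) t (Fin.append u t₀) → InnK (cl S) ω₁ ω₂ p (Fin.append v p₀) →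
              ∀ (ρ : ℕ) (y : Fin ρ → ℂ), (∀ i, IsAlgebraic (bigField ω₁ ω₂ t p) (y i)) →
                (∀ i, y i ∉ cl (S ∪ y '' {j | j < i})) →
              ∀ R : ℕ, R = max ρ (min 1 (modDim (cl S) t + modDim2 (cl S) ω₁ ω₂ p)) →
                ((open Classical in if IsCM ω₁ ω₂ then 0 else 2) + d + 2 * d' ≤ R →
                  Q1 ω₁ ω₂ t p) ∧
                ∀ N : ℕ, N + d + 2 * d' ≤ tDim t + 2 + kDim2 ω₁ ω₂ p + R →
                  HasTrdeg (bigField ω₁ ω₂ t p) N)) ∧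
      ∀ s Δ : ℕ, ∃ n₀ : ℕ, ∀ D : ℕ, n₀ ≤ D → ∀ e : Fin D → ℂ, LinearIndependent ℚ e →
        ∀ (q : ℕ) (R : Fin s → MvPolynomial (Fin q) ℂ), (∀ j, (R j).totalDegree ≤ Δ) →
        (NoConst (Set.range ((↑) : ℚ → ℂ)) R →
          AllBut 0 e q (GradInd (Set.range ((↑) : ℚ → ℂ)) R)) ∧
        ∀ ω₁ ω₂ : ℂ, (ω₂ / ω₁).im ≠ 0 → NoConst {g | InK ω₁ ω₂ g} R →
          AllBut 0 e q (GradInd {g | InK ω₁ ω₂ g} R) := by
  classical
  refine ⟨CD.cl, CD.subset_cl, fun S T h => CD.cl_min (CD.closed_cl T) h, CD.prf_ClF, CD.prf_ClC,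
    fun S x => (CD.closed_cl S).alg x, fun S ω₁ h1 ω₂ h2 s n t p ht hp =>
      CD.closed_big (CD.closed_cl S) h1 h2 ht hp,
    fun S ω₁ ω₂ him => CD.closed_jiff (CD.closed_cl S) him, ?_, nd hDec hex hform⟩
  intro Q N s n hN5
  obtain ⟨n₁, hn₁⟩ := famK hA hV hSL Q 1 s 0 0 (N + 2 * s + 3 * n + 2) (by omega)
  obtain ⟨n₂, hn₂⟩ := famK hA hV hSL Q N s n (s + n) (N + 2 * s + 3 * n + 2) (by omega)
  refine ⟨n₁ + n₂, fun κ m hm D e he q R => ⟨fun hRich => ?_, ?_⟩⟩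
  · -- generic lattices
    set K₁ := IntermediateField.adjoin ℚ {2 * (Real.pi : ℂ) * Complex.I} with hK₁
    have hc : (K₁ : Set ℂ).Countable := by
      have : Countable K₁ := countable_adjoin _ (Set.countable_singleton _)
      exact Set.countable_coe_iff.1 this
    have hnt : ¬ HasTrdeg K₁ (1 + 1) := by
      refine not_trdeg (N := 1) (by omega) (fun _ => 2 * (Real.pi : ℂ) * Complex.I) ?_
      intro y hy
      have h1 : Set.range (fun _ : Fin 1 => 2 * (Real.pi : ℂ) * Complex.I) =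
          {2 * (Real.pi : ℂ) * Complex.I} := Set.range_const
      rw [h1]
      exact isAlgebraic_algebraMap (⟨y, hy⟩ : K₁)
    have hF := hn₁ κ m (by omega) Complex.I (by simp) D e he
      (rich_mono hRich fun a x _ h => absurd h (by omega))
    refine thin_mono (hF q R (fun j => j.elim0) (fun j => j.elim0) (CD.acl K₁) (countable_acl' hc)
      (acl_acl _) (fun h => absurd h (by omega)) (not_trdeg_acl hnt)) fun x hx => ?_
    simp only [Set.mem_setOf_eq, Classical.not_imp] at hx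
    obtain ⟨hR, hx⟩ := hx
    refine ⟨ndf_bot.2 hR, fun g _ _ => funext fun j => j.elim0, fun hC => hx ?_⟩
    obtain ⟨-, h2⟩ := hC
    intro u hu S hSc ω₁ ω₂ him hj s' k t p d t₀ hI ρ y hy hyc
    have h3 := h2.comp (Sum.inl : Fin s → Fin s ⊕ Fin 0 × Bool) Sum.inl_injective
    have h4 : AlgebraicIndependent K₁ (fun i => Complex.exp (u i)) := by
      have h5 : (fun i => Complex.exp (u i)) = fm Complex.I 1 (pv R (cx e x))
          (pv (fun j : Fin 0 => j.elim0) (cx e x)) ∘ Sum.inl := by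
        funext i
        rw [hu i]
        rfl
      rw [h5]
      exact indep_mono (fun x hx => IntermediateField.subset_adjoin ℚ _
        (Or.inl (CD.le_acl K₁ hx))) h3
    exact gen_tor u h4 hSc him hj t p d t₀ hI ρ y hy hyc
  · intro ω₁ ω₂ him hRich V
    obtain ⟨τ, hNF⟩ := exists_nf him
    have hF := hn₂ κ m (by omega) τ hNF.im D e he
      (rich_mono hRich fun a x => cnd_of hNF)
    refine ⟨fun s' k t p hNt => ?_, ?_⟩
    · refine allBut_mono (appK hNF hF R V (CD.acl (bigField ω₁ ω₂ t p))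
        (countable_acl' (I_FinalZ.big_countable _ _ _ _)) (acl_acl _) (hNF.g2 t p) (hNF.g3 t p)
        (hNF.per t p) (not_trdeg_acl hNt)) fun z hz hR hV' u v hu hv => ?_
      obtain ⟨K, hK, h3, h4, h5, h6⟩ := hz hR hV'
      simp only [← hu, ← hv] at h3 h4 h5 h6
      have hω : ω₁ ∈ K := hK (CD.le_acl _ (big_o1 _ _ _ _))
      refine one_ell hNF (Fin.append u v) u v t p h5 (indep_mono (adz_le hK fun i => ?_) h6)
      refine Fin.addCases (fun j => ?_) (fun j => ?_) i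
      · rw [Fin.append_left]
        exact div_mem (h3 j) hω
      · rw [Fin.append_right]
        exact h4 j
    · have hg2 := hNF.one.g2 (![] : Fin 0 → ℂ) (![] : Fin 0 → ℂ)
      have hg3 := hNF.one.g3 (![] : Fin 0 → ℂ) (![] : Fin 0 → ℂ)
      have hp := hNF.one.per (![] : Fin 0 → ℂ) (![] : Fin 0 → ℂ)
      have hper : ¬ HasTrdeg (bigField 1 (ω₂ / ω₁) (![] : Fin 0 → ℂ) (![] : Fin 0 → ℂ))
          (N + 1) := by
        obtain ⟨θ, hθ⟩ := SF.per_theta ω₁ ω₂ him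
        exact not_trdeg hN5 θ hθ
      refine allBut_mono (appK hNF hF R V
        (CD.acl (bigField 1 (ω₂ / ω₁) (![] : Fin 0 → ℂ) (![] : Fin 0 → ℂ)))
        (countable_acl' (I_FinalZ.big_countable _ _ _ _)) (acl_acl _) hg2 hg3 hp
        (not_trdeg_acl hper)) fun z hz hR hV' u v hu hv => ?_
      obtain ⟨K, hK, h3, h4, h5, h6⟩ := hz hR hV'
      simp only [← hu, ← hv] at h3 h4 h5 h6
      exact clo_ell hInd hNF him u v K (hK hg2) (hK hg3)
        ⟨hK hp.mu, hK hp.tau, hK hp.et, hK hp.kap⟩ h4 h5 h6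

end Pool.Agent.Work.MP_8da9ea_nt.FR
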