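import Pool.Agent.Work.MP_8da9ea_nt.FR.FA
import Pool.Agent.Work.MP_8da9ea_nt.FR.K

/-!
# Finitely many exceptional subspaces: the final theorem
-/

set_option autoImplicit false

namespace Pool.Agent.Work.MP_8da9ea_nt.FR

open Pool.Agent.Work.MP_8da9ea_nt.EB Pool.Agent.Work.MP_327059_nt.GL Pool.Agent.Work.MP_8da9ea_nt.S
  Pool.Agent.Work.MP_8da9ea_nt.EC Pool.Agent.Work.MP_8da9ea_nt.TG Pool.Agent.ED

namespace F

open FinA FinB PolA KA KB K FA

/-! ## The main statement for finite-dimensional spaces, applied to a lattice -/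

theorem div_mem_span {D : ℕ} (e : Fin D → ℂ) (ω y : ℂ) (hy : y ∈ Submodule.span ℚ (Set.range e)) :
    y / ω ∈ Submodule.span ℚ (Set.range (Fin.append e fun a => e a / ω)) := by
  induction hy using Submodule.span_induction with
  | mem x hx =>
    obtain ⟨a, rfl⟩ := hx
    exact Submodule.subset_span ⟨Fin.natAdd D a, by rw [Fin.append_right]⟩
  | zero => rw [zero_div]; exact zero_mem _
  | add x y _ _ hx hy => rw [add_div]; exact add_mem hx hy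
  | smul c x _ hx => rw [smul_div_assoc]; exact Submodule.smul_mem _ c hx

theorem span_le_append {D : ℕ} (e e' : Fin D → ℂ) :
    Submodule.span ℚ (Set.range e) ≤ Submodule.span ℚ (Set.range (Fin.append e e')) := by
  refine Submodule.span_mono ?_
  rintro _ ⟨a, rfl⟩
  exact ⟨Fin.castAdd D a, by rw [Fin.append_left]⟩

theorem fkLat (hFK : S_FK) (l1 : S_LamAddK) (l2 : S_LamMulK) (l4 : S_LamZeroK) {N s n D : ℕ}
    (e : Fin D → ℂ) {τ ω₁ ω₂ : ℂ} (h : NF τ ω₁ ω₂) (K₀ : IntermediateField ℚ ℂ)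
    (hc : (K₀ : Set ℂ).Countable) (ha : ACl K₀) (h2 : gg2 τ ∈ K₀) (h3 : gg3 τ ∈ K₀)
    (hp : PerK τ 1 K₀) (ht : ¬ HasTrdeg K₀ (N + 1)) :
    ∃ (m : ℕ) (F : Fin m → IntermediateField ℚ ℂ) (hF : ∀ k, ACl (F k)) (hG : ∀ k, GF τ 1 (F k)),
      (∀ k, ¬ HasTrdeg (F k) (N + 2 * s + 3 * n)) ∧ ∀ (u : Fin s → ℂ) (v : Fin n → ℂ),
      (∀ j, u j ∈ Submodule.span ℚ (Set.range e)) → (∀ j, v j ∈ Submodule.span ℚ (Set.range e)) →
      (∀ k, IndMod (Set.range ((↑) : ℚ → ℂ)) u (I_KeyW.SE (hF k))) →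
      (∀ k, IndMod {g | InK ω₁ ω₂ g} v (UE l1 l2 (hG k) ω₁)) →
      ∃ K : IntermediateField ℚ ℂ, K₀ ≤ K ∧ (∀ j, u j ∈ K) ∧ (∀ j, v j / ω₁ ∈ K) ∧
        (∀ j, v j / ω₁ ∉ Lam τ) ∧ AlgebraicIndependent K (fm τ 1 u (fun j => v j / ω₁)) := by
  have hG₀ : GF τ 1 K₀ := ⟨h.im, one_ne_zero, by rw [one_pow, one_mul]; exact h2,
    by rw [one_pow, one_mul]; exact h3⟩
  obtain ⟨m, F, hF, hconc⟩ := hFK τ 1 N s n (s + n) K₀ ⟨hc.to_subtype, ha, fun _ => ⟨hG₀, hp⟩⟩ ht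
    (D + D) (Fin.append e fun a => e a / ω₁)
  refine ⟨m, F, fun k => (hF k).1.acl, fun k => ⟨h.im, one_ne_zero, (hF k).2.1 hG₀.g2,
    (hF k).2.1 hG₀.g3⟩, fun k hk => (hF k).2.2 (hk.mono le_rfl (by omega)),
    fun u v hu hv hUT hUE => ?_⟩
  obtain ⟨h5, h6⟩ := hconc u (fun j => v j / ω₁) (Fin.append u fun j => v j / ω₁)
    (fun j => span_le_append _ _ (hu j)) (fun j => div_mem_span _ _ _ (hv j)) (fun l => by
      refine Fin.addCases (fun j => ?_) (fun j => ?_) l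
      · rw [Fin.append_left]
        exact span_le_append _ _ (hu j)
      · rw [Fin.append_right]
        exact div_mem_span _ _ _ (hv j)) (fun k hSm => by
      rcases hSm with ⟨c, hc0, hcF⟩ | ⟨g, hg, hg0, hgF⟩
      · apply hc0
        have h7 := hUT k (fun j => (c j : ℂ)) (fun j => ⟨c j, rfl⟩) hcF
        funext j
        have h8 : (c j : ℂ) = 0 := congrFun h7 j
        exact_mod_cast h8
      · apply hg0
        refine hUE k g (fun j => (h.iff _).2 (hg j)) ?_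
        rw [mem_UE l1 l2 l4 _ (hF k).1.acl]
        have h9 : (∑ j, g j * v j) / ω₁ = ∑ j, g j * (v j / ω₁) := by
          rw [Finset.sum_div]
          exact Finset.sum_congr rfl fun j _ => by ring
        rw [h9]
        exact hgF)
  refine ⟨_, fun x hx => IntermediateField.subset_adjoin ℚ _ (Or.inl hx), fun j => ?_, fun j => ?_,
    h5, h6⟩
  · exact IntermediateField.subset_adjoin _ _ (Or.inr ⟨Fin.castAdd n j, by rw [Fin.append_left]⟩)
  · exact IntermediateField.subset_adjoin _ _ (Or.inr ⟨Fin.natAdd s j, by rw [Fin.append_right]⟩)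

theorem richS_rich {Q M m D : ℕ} {e : Fin D → ℂ} {C C' : (Fin M → ℂ) → (Fin m → ℂ) → Prop}
    (h : RichS Q M m (Submodule.span ℚ (Set.range e)) C) (hC : ∀ a x, C a x → C' a x) :
    Rich Q M m e C' := by
  rcases h with ⟨hne, L, hL, hdeg, hSt⟩ | ⟨a, x, h1, h2, h3, h4, h5⟩
  · refine Or.inl ⟨L, hL, hdeg, ?_, fun l hl a => hSt l hl _ (Submodule.subset_span ⟨a, rfl⟩)⟩
    by_contra h0
    apply hne
    have : D = 0 := by omega
    subst this
    rw [Set.range_eq_empty, Submodule.span_empty]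
  · exact Or.inr ⟨a, x, h1, h2, h3, h4, hC _ _ h5⟩

/-- Generic lattices. -/
theorem genQ_of {s : ℕ} {u : Fin s → ℂ}
    (h : AlgebraicIndependent (IntermediateField.adjoin ℚ {2 * (Real.pi : ℂ) * Complex.I})
      (fun i => Complex.exp (u i))) : GenQ CD.cl u :=
  fun _ hSc _ _ him hj _ _ t p d t₀ hI ρ y hy hyc => gen_tor u h hSc him hj t p d t₀ hI ρ y hy hyc

theorem addQ_of {τ ω₁ ω₂ : ℂ} (hNF : NF τ ω₁ ω₂) {s' k s n : ℕ} (t : Fin s' → ℂ) (p : Fin k → ℂ)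
    (u : Fin s → ℂ) (v : Fin n → ℂ)
    (h : ∃ K : IntermediateField ℚ ℂ, CD.acl (bigField ω₁ ω₂ t p) ≤ K ∧ (∀ j, u j ∈ K) ∧
      (∀ j, v j / ω₁ ∈ K) ∧ (∀ j, v j / ω₁ ∉ Lam τ) ∧
      AlgebraicIndependent K (fm τ 1 u (fun j => v j / ω₁))) : AddQ ω₁ ω₂ t p u v := by
  obtain ⟨K, hK, h3, h4, h5, h6⟩ := h
  have hω : ω₁ ∈ K := hK (CD.le_acl _ (big_o1 _ _ _ _))
  refine one_ell hNF (Fin.append u v) u v t p h5 (indep_mono (adz_le hK fun i => ?_) h6)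
  refine Fin.addCases (fun j => ?_) (fun j => ?_) i
  · rw [Fin.append_left]
    exact div_mem (h3 j) hω
  · rw [Fin.append_right]
    exact h4 j

theorem cloQ_of (hInd : S_IndV) {τ ω₁ ω₂ : ℂ} (hNF : NF τ ω₁ ω₂) (him : (ω₂ / ω₁).im ≠ 0)
    {s n : ℕ} (u : Fin s → ℂ) (v : Fin n → ℂ)
    (h : ∃ K : IntermediateField ℚ ℂ,
      CD.acl (bigField 1 (ω₂ / ω₁) (![] : Fin 0 → ℂ) (![] : Fin 0 → ℂ)) ≤ K ∧ (∀ j, u j ∈ K) ∧
      (∀ j, v j / ω₁ ∈ K) ∧ (∀ j, v j / ω₁ ∉ Lam τ) ∧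
      AlgebraicIndependent K (fm τ 1 u (fun j => v j / ω₁))) : CloQ CD.cl ω₁ ω₂ u v := by
  obtain ⟨K, hK, h3, h4, h5, h6⟩ := h
  have hg2 := hNF.one.g2 (![] : Fin 0 → ℂ) (![] : Fin 0 → ℂ)
  have hg3 := hNF.one.g3 (![] : Fin 0 → ℂ) (![] : Fin 0 → ℂ)
  have hp := hNF.one.per (![] : Fin 0 → ℂ) (![] : Fin 0 → ℂ)
  exact clo_ell hInd hNF him u v K (hK hg2) (hK hg3)
    ⟨hK hp.mu, hK hp.tau, hK hp.et, hK hp.kap⟩ h4 h5 h6

theorem per_small {ω₁ ω₂ : ℂ} (him : (ω₂ / ω₁).im ≠ 0) {N : ℕ} (hN5 : 5 ≤ N) :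
    ¬ HasTrdeg (bigField 1 (ω₂ / ω₁) (![] : Fin 0 → ℂ) (![] : Fin 0 → ℂ)) (N + 1) := by
  obtain ⟨θ, hθ⟩ := SF.per_theta ω₁ ω₂ him
  exact not_trdeg hN5 θ hθ

end F

open FinA FinB PolA KA KB K FA F in
/-- **The final theorem.** -/
theorem mainF (hFK : S_FK) (hC : S_NoSmallC) (hCV : S_NoSmallCV) (hA : S_FRKAu) (hV : S_FRKVu)
    (hSL : S_SLIex) (hInd : S_IndV) (hDec : S_Dec) (hex : S_NDex) (hform : S_NDform)
    (l1 : S_LamAddK) (l2 : S_LamMulK) (l4 : S_LamZeroK) :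
    ∃ cl : Set ℂ → IntermediateField ℚ ℂ,
      (∀ S : Set ℂ, S ⊆ cl S) ∧ (∀ S T : Set ℂ, S ⊆ cl T → cl S ≤ cl T) ∧
      (∀ S x, x ∈ cl S → ∃ T : Finset ℂ, (T : Set ℂ) ⊆ S ∧ x ∈ cl (T : Set ℂ)) ∧
      (∀ S, S.Countable → (cl S : Set ℂ).Countable) ∧
      (∀ S x, IsAlgebraic (cl S) x → x ∈ cl S) ∧
      (∀ S, ∀ ω₁ ∈ cl S, ∀ ω₂ ∈ cl S, ∀ (s n : ℕ) (t : Fin s → ℂ) (p : Fin n → ℂ),
        (∀ l, t l ∈ cl S) → (∀ i, p i ∈ cl S) → bigField ω₁ ω₂ t p ≤ cl S) ∧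
      (∀ S ω₁ ω₂, (ω₂ / ω₁).im ≠ 0 → (jInv ω₁ ω₂ ∈ cl S ↔ ω₂ / ω₁ ∈ cl S)) ∧
      (∀ Q N s n : ℕ, 5 ≤ N → ∃ n₀ : ℕ, ∀ (D : ℕ) (e : Fin D → ℂ),
        -- finitely many poor subspaces
        ((∃ (m : ℕ) (U : Fin m → Submodule ℚ ℂ),
            (∀ k, PoorT Q (N + 2 * s + 3 * n + 2) n₀ (N + 2 * s + 3 * n) (U k)) ∧
            ∀ u : Fin s → ℂ, (∀ j, u j ∈ Submodule.span ℚ (Set.range e)) →
              (∀ k, IndMod (Set.range ((↑) : ℚ → ℂ)) u (U k)) → GenQ cl u) ∧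
          ∀ ω₁ ω₂ : ℂ, (ω₂ / ω₁).im ≠ 0 →
            (∀ (s' k' : ℕ) (t : Fin s' → ℂ) (p : Fin k' → ℂ),
              ¬ HasTrdeg (bigField ω₁ ω₂ t p) (N + 1) →
              ∃ (m : ℕ) (U U' : Fin m → Submodule ℚ ℂ),
                (∀ k, PoorT Q (N + 2 * s + 3 * n + 2) n₀ (N + 2 * s + 3 * n) (U k) ∧
                  PoorE Q (N + 2 * s + 3 * n + 2) n₀ (N + 2 * s + 3 * n) ω₁ ω₂ (U' k)) ∧
                ∀ (u : Fin s → ℂ) (v : Fin n → ℂ),
                  (∀ j, u j ∈ Submodule.span ℚ (Set.range e)) →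
                  (∀ j, v j ∈ Submodule.span ℚ (Set.range e)) →
                  (∀ k, IndMod (Set.range ((↑) : ℚ → ℂ)) u (U k) ∧
                    IndMod {g | InK ω₁ ω₂ g} v (U' k)) → AddQ ω₁ ω₂ t p u v) ∧
            ∃ (m : ℕ) (U U' : Fin m → Submodule ℚ ℂ),
              (∀ k, PoorT Q (N + 2 * s + 3 * n + 2) n₀ (N + 2 * s + 3 * n) (U k) ∧
                PoorE Q (N + 2 * s + 3 * n + 2) n₀ (N + 2 * s + 3 * n) ω₁ ω₂ (U' k)) ∧
              ∀ (u : Fin s → ℂ) (v : Fin n → ℂ),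
                (∀ j, u j ∈ Submodule.span ℚ (Set.range e)) →
                (∀ j, v j ∈ Submodule.span ℚ (Set.range e)) →
                (∀ k, IndMod (Set.range ((↑) : ℚ → ℂ)) u (U k) ∧
                  IndMod {g | InK ω₁ ω₂ g} v (U' k)) → CloQ cl ω₁ ω₂ u v) ∧
        -- families of polynomials on rich spaces
        (LinearIndependent ℚ e → ∀ κ m : ℕ, n₀ + κ * (N + 2 * s + 3 * n + 2) ≤ m →
          ∀ (q : ℕ) (R : Fin s → MvPolynomial (Fin q) ℂ),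
            (RichS Q (N + 2 * s + 3 * n + 2) m (Submodule.span ℚ (Set.range e))
                (fun _ _ => True) →
              AllBut κ e q fun z => GradInd (Set.range ((↑) : ℚ → ℂ)) R z →
                GenQ cl fun j => MvPolynomial.eval z (R j)) ∧
            ∀ ω₁ ω₂ : ℂ, (ω₂ / ω₁).im ≠ 0 →
              RichS Q (N + 2 * s + 3 * n + 2) m (Submodule.span ℚ (Set.range e))
                (fun a x => 0 < n → CondE Q ω₁ ω₂ a x) →
              ∀ V : Fin n → MvPolynomial (Fin q) ℂ,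
              (∀ (s' k : ℕ) (t : Fin s' → ℂ) (p : Fin k → ℂ),
                ¬ HasTrdeg (bigField ω₁ ω₂ t p) (N + 1) →
                AllBut κ e q fun z => GradInd (Set.range ((↑) : ℚ → ℂ)) R z →
                  GradInd {g | InK ω₁ ω₂ g} V z → AddQ ω₁ ω₂ t p
                    (fun j => MvPolynomial.eval z (R j)) fun j => MvPolynomial.eval z (V j)) ∧
              AllBut κ e q fun z => GradInd (Set.range ((↑) : ℚ → ℂ)) R z →
                GradInd {g | InK ω₁ ω₂ g} V z → CloQ cl ω₁ ω₂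
                  (fun j => MvPolynomial.eval z (R j)) fun j => MvPolynomial.eval z (V j))) ∧
      -- nondegenerate points
      ∀ s Δ : ℕ, ∃ n₀ : ℕ, ∀ D : ℕ, n₀ ≤ D → ∀ e : Fin D → ℂ, LinearIndependent ℚ e →
        ∀ (q : ℕ) (R : Fin s → MvPolynomial (Fin q) ℂ), (∀ j, (R j).totalDegree ≤ Δ) →
        (NoConst (Set.range ((↑) : ℚ → ℂ)) R →
          AllBut 0 e q (GradInd (Set.range ((↑) : ℚ → ℂ)) R)) ∧
        ∀ ω₁ ω₂ : ℂ, (ω₂ / ω₁).im ≠ 0 → NoConst {g | InK ω₁ ω₂ g} R →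
          AllBut 0 e q (GradInd {g | InK ω₁ ω₂ g} R) := by
  classical
  refine ⟨CD.cl, CD.subset_cl, fun S T h => CD.cl_min (CD.closed_cl T) h, CD.prf_ClF, CD.prf_ClC,
    fun S x => (CD.closed_cl S).alg x, fun S ω₁ h1 ω₂ h2 s n t p ht hp =>
      CD.closed_big (CD.closed_cl S) h1 h2 ht hp,
    fun S ω₁ ω₂ him => CD.closed_jiff (CD.closed_cl S) him, ?_, nd hDec hex hform⟩
  intro Q N s n hN5
  obtain ⟨n₁, hn₁⟩ := famK hA hV hSL Q 1 s 0 0 (N + 2 * s + 3 * n + 2) (by omega)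
  obtain ⟨n₂, hn₂⟩ := famK hA hV hSL Q N s n (s + n) (N + 2 * s + 3 * n + 2) (by omega)
  obtain ⟨n₃, hn₃⟩ := small hC hCV hSL Q (N + 2 * s + 3 * n + 2) (N + 2 * s + 3 * n) (by omega)
  -- the field `ℚ(2πi)`
  set K₁ := IntermediateField.adjoin ℚ {2 * (Real.pi : ℂ) * Complex.I} with hK₁
  have hc : (K₁ : Set ℂ).Countable := by
    have : Countable K₁ := countable_adjoin _ (Set.countable_singleton _)
    exact Set.countable_coe_iff.1 this
  have hnt : ¬ HasTrdeg K₁ (1 + 1) := by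
    refine not_trdeg (N := 1) (by omega) (fun _ => 2 * (Real.pi : ℂ) * Complex.I) ?_
    intro y hy
    have h1 : Set.range (fun _ : Fin 1 => 2 * (Real.pi : ℂ) * Complex.I) =
        {2 * (Real.pi : ℂ) * Complex.I} := Set.range_const
    rw [h1]
    exact isAlgebraic_algebraMap (⟨y, hy⟩ : K₁)
  refine ⟨n₁ + n₂ + n₃, fun D e => ⟨⟨?_, fun ω₁ ω₂ him => ?_⟩, fun he κ m hm q R => ⟨?_, ?_⟩⟩⟩
  · -- finitely many subspaces, generic lattices
    obtain ⟨m, F, hF, hconc⟩ := hFK Complex.I 1 1 s 0 0 (CD.acl K₁)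
      ⟨(countable_acl' hc).to_subtype, acl_acl _, fun h => absurd h (by omega)⟩
      (not_trdeg_acl hnt) D e
    refine ⟨m, fun k => I_KeyW.SE (hF k).1.acl, fun k => poorT (T := 1 + s + 2 * 0 + 0) (by omega)
      (hF k).1.acl (hF k).2.2 (hn₃ _ (by omega) (F k) (hF k).1.acl
        (fun h => (hF k).2.2 (h.mono le_rfl (by omega)))).1, fun u hu hUT => genQ_of ?_⟩
    obtain ⟨-, h2⟩ := hconc u (fun j => j.elim0) (fun j => j.elim0) hu (fun j => j.elim0)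
      (fun j => j.elim0) (fun k hSm => by
        rcases hSm with ⟨c, hc0, hcF⟩ | ⟨g, -, hg0, -⟩
        · apply hc0
          have h7 := hUT k (fun j => (c j : ℂ)) (fun j => ⟨c j, rfl⟩) hcF
          funext j
          have h8 : (c j : ℂ) = 0 := congrFun h7 j
          exact_mod_cast h8
        · exact hg0 (funext fun j => j.elim0))
    have h3 := h2.comp (Sum.inl : Fin s → Fin s ⊕ Fin 0 × Bool) Sum.inl_injective
    exact indep_mono (fun x hx => IntermediateField.subset_adjoin ℚ _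
        (Or.inl (CD.le_acl K₁ hx))) h3
  · -- finitely many subspaces, one lattice
    obtain ⟨τ, hNF⟩ := exists_nf him
    refine ⟨fun s' k' t p hNt => ?_, ?_⟩
    · obtain ⟨m, F, hF, hG, hFT, hconc⟩ := fkLat hFK l1 l2 l4 (s := s) (n := n) e hNF
        (CD.acl (bigField ω₁ ω₂ t p)) (countable_acl' (I_FinalZ.big_countable _ _ _ _)) (acl_acl _)
        (hNF.g2 t p) (hNF.g3 t p) (hNF.per t p) (not_trdeg_acl hNt)
      refine ⟨m, fun k => I_KeyW.SE (hF k), fun k => UE l1 l2 (hG k) ω₁, fun k => ⟨?_, ?_⟩,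
        fun u v hu hv hU => addQ_of hNF t p u v
          (hconc u v hu hv (fun k => (hU k).1) fun k => (hU k).2)⟩
      · exact poorT le_rfl (hF k) (hFT k) (hn₃ _ (by omega) (F k) (hF k) (hFT k)).1
      · exact poorE l1 l2 l4 le_rfl (hF k) (hFT k) hNF (hG k)
          ((hn₃ _ (by omega) (F k) (hF k) (hFT k)).2 τ ω₁ ω₂ hNF (hG k))
    · obtain ⟨m, F, hF, hG, hFT, hconc⟩ := fkLat hFK l1 l2 l4 (s := s) (n := n) e hNF
        (CD.acl (bigField 1 (ω₂ / ω₁) (![] : Fin 0 → ℂ) (![] : Fin 0 → ℂ)))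
        (countable_acl' (I_FinalZ.big_countable _ _ _ _)) (acl_acl _) (hNF.one.g2 _ _)
        (hNF.one.g3 _ _) (hNF.one.per _ _) (not_trdeg_acl (per_small him hN5))
      refine ⟨m, fun k => I_KeyW.SE (hF k), fun k => UE l1 l2 (hG k) ω₁, fun k => ⟨?_, ?_⟩,
        fun u v hu hv hU => cloQ_of hInd hNF him u v
          (hconc u v hu hv (fun k => (hU k).1) fun k => (hU k).2)⟩
      · exact poorT le_rfl (hF k) (hFT k) (hn₃ _ (by omega) (F k) (hF k) (hFT k)).1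
      · exact poorE l1 l2 l4 le_rfl (hF k) (hFT k) hNF (hG k)
          ((hn₃ _ (by omega) (F k) (hF k) (hFT k)).2 τ ω₁ ω₂ hNF (hG k))
  · -- polynomials, generic lattices
    intro hRich
    have hF := hn₁ κ m (by omega) Complex.I (by simp) D e he
      (richS_rich hRich fun a x _ h => absurd h (by omega))
    refine thin_mono (hF q R (fun j => j.elim0) (fun j => j.elim0) (CD.acl K₁) (countable_acl' hc)
      (acl_acl _) (fun h => absurd h (by omega)) (not_trdeg_acl hnt)) fun x hx => ?_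
    simp only [Set.mem_setOf_eq, Classical.not_imp] at hx
    obtain ⟨hR, hx⟩ := hx
    refine ⟨ndf_bot.2 hR, fun g _ _ => funext fun j => j.elim0, fun hC => hx (genQ_of ?_)⟩
    obtain ⟨-, h2⟩ := hC
    have h3 := h2.comp (Sum.inl : Fin s → Fin s ⊕ Fin 0 × Bool) Sum.inl_injective
    exact indep_mono (fun x hx => IntermediateField.subset_adjoin ℚ _
        (Or.inl (CD.le_acl K₁ hx))) h3
  · -- polynomials, one lattice
    intro ω₁ ω₂ him hRich V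
    obtain ⟨τ, hNF⟩ := exists_nf him
    have hF := hn₂ κ m (by omega) τ hNF.im D e he
      (richS_rich hRich fun a x => cnd_of hNF)
    refine ⟨fun s' k t p hNt => ?_, ?_⟩
    · exact allBut_mono (appK hNF hF R V (CD.acl (bigField ω₁ ω₂ t p))
        (countable_acl' (I_FinalZ.big_countable _ _ _ _)) (acl_acl _) (hNF.g2 t p) (hNF.g3 t p)
        (hNF.per t p) (not_trdeg_acl hNt)) fun z hz hR hV' => addQ_of hNF t p _ _ (hz hR hV')
    · exact allBut_mono (appK hNF hF R V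
        (CD.acl (bigField 1 (ω₂ / ω₁) (![] : Fin 0 → ℂ) (![] : Fin 0 → ℂ)))
        (countable_acl' (I_FinalZ.big_countable _ _ _ _)) (acl_acl _) (hNF.one.g2 _ _)
        (hNF.one.g3 _ _) (hNF.one.per _ _) (not_trdeg_acl (per_small him hN5)))
        fun z hz hR hV' => cloQ_of hInd hNF him _ _ (hz hR hV')

end Pool.Agent.Work.MP_8da9ea_nt.FR
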