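import Pool.Agent.Work.MP_8da9ea_nt.FR.KA

/-!
# Full rank outside closed sets of high codimension: lattices, nondegenerate points
-/

set_option autoImplicit false

namespace Pool.Agent.Work.MP_8da9ea_nt.FR

open Pool.Agent.Work.MP_8da9ea_nt.EB Pool.Agent.Work.MP_327059_nt.GL Pool.Agent.Work.MP_8da9ea_nt.S
  Pool.Agent.Work.MP_8da9ea_nt.EC Pool.Agent.Work.MP_8da9ea_nt.TG Pool.Agent.ED

namespace KB

open FinA PolA KA

theorem allBut_mono {κ q D : ℕ} {e : Fin D → ℂ} {C C' : (Fin q → ℂ) → Prop}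
    (h : AllBut κ e q C) (hC : ∀ z, C z → C' z) : AllBut κ e q C' :=
  thin_mono h fun _ hx h' => hx (hC _ h')

theorem ndf_bot {s q : ℕ} {R : Fin s → MvPolynomial (Fin q) ℂ} {z : Fin q → ℂ} :
    NDf ⊥ R z ↔ GradInd (Set.range ((↑) : ℚ → ℂ)) R z := by
  have h1 : ∀ y : ℂ, y ∈ (⊥ : IntermediateField ℚ ℂ) ↔ y ∈ Set.range ((↑) : ℚ → ℂ) := by
    intro y
    rw [IntermediateField.mem_bot]
    rfl
  constructor
  · intro h c hc h0
    exact h c (fun j => (h1 _).2 (hc j)) h0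
  · intro h c hc h0
    exact h c (fun j => (h1 _).1 (hc j)) h0

/-- The main statement applied to a lattice. -/
theorem appK {N s n κ D : ℕ} {e : Fin D → ℂ} {τ ω₁ ω₂ : ℂ} (h : NF τ ω₁ ω₂)
    (hF : FamK τ 1 N s n (s + n) κ e) {q : ℕ} (R : Fin s → MvPolynomial (Fin q) ℂ)
    (V : Fin n → MvPolynomial (Fin q) ℂ) (K₀ : IntermediateField ℚ ℂ)
    (hc : (K₀ : Set ℂ).Countable) (ha : ACl K₀) (h2 : gg2 τ ∈ K₀) (h3 : gg3 τ ∈ K₀)
    (hp : PerK τ 1 K₀) (ht : ¬ HasTrdeg K₀ (N + 1)) :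
    AllBut κ e q fun z => GradInd (Set.range ((↑) : ℚ → ℂ)) R z →
      GradInd {g | InK ω₁ ω₂ g} V z → ∃ K : IntermediateField ℚ ℂ, K₀ ≤ K ∧
      (∀ j, MvPolynomial.eval z (R j) ∈ K) ∧ (∀ j, MvPolynomial.eval z (V j) / ω₁ ∈ K) ∧
      (∀ j, MvPolynomial.eval z (V j) / ω₁ ∉ Lam τ) ∧
      AlgebraicIndependent K (fm τ 1 (fun j => MvPolynomial.eval z (R j))
        (fun j => MvPolynomial.eval z (V j) / ω₁)) := by
  have h1 := h.ne
  set S' : Fin n → MvPolynomial (Fin q) ℂ := fun j => MvPolynomial.C ω₁⁻¹ * V j with hS'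
  have e1 : ∀ z j, MvPolynomial.eval z (S' j) = MvPolynomial.eval z (V j) / ω₁ := by
    intro z j
    rw [hS', map_mul, MvPolynomial.eval_C]
    ring
  refine thin_mono (hF q R S' (Fin.append R S') K₀ hc ha
    (fun _ => ⟨⟨h.im, one_ne_zero, by rw [one_pow, one_mul]; exact h2,
      by rw [one_pow, one_mul]; exact h3⟩, hp⟩) ht) ?_
  intro x hx
  simp only [Set.mem_setOf_eq, Classical.not_imp] at hx
  obtain ⟨hR, hV, hK⟩ := hx
  set z := cx e x with hz
  change GradInd _ R z at hR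
  change GradInd _ V z at hV
  refine ⟨ndf_bot.2 hR, fun g hg h0 => hV g (fun j => (h.iff _).2 (hg j)) fun i => ?_,
    fun hC => hK ?_⟩
  · have h4 := h0 i
    have h5 : ∑ j, g j * pg S' z i j =
        ω₁⁻¹ * ∑ j, g j * MvPolynomial.eval z (MvPolynomial.pderiv i (V j)) := by
      rw [Finset.mul_sum]
      refine Finset.sum_congr rfl fun j _ => ?_
      unfold pg
      rw [hS', MvPolynomial.pderiv_C_mul, map_mul, MvPolynomial.eval_C]
      ring
    rw [h5] at h4
    exact (mul_eq_zero.1 h4).resolve_left (inv_ne_zero h1)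
  · obtain ⟨h4, h5⟩ := hC
    have e2 : pv S' z = fun j => MvPolynomial.eval z (V j) / ω₁ := funext fun j => e1 z j
    refine ⟨IntermediateField.adjoin ℚ ((K₀ : Set ℂ) ∪ Set.range (pv (Fin.append R S') z)),
      fun x hx => IntermediateField.subset_adjoin _ _ (Or.inl hx), fun j => ?_, fun j => ?_,
      fun j => ?_, ?_⟩
    · refine IntermediateField.subset_adjoin _ _ (Or.inr ⟨Fin.castAdd n j, ?_⟩)
      unfold pv
      rw [Fin.append_left]
      rfl
    · refine IntermediateField.subset_adjoin _ _ (Or.inr ⟨Fin.natAdd s j, ?_⟩)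
      unfold pv
      rw [Fin.append_right]
      exact e1 z j
    · have h6 := h4 j
      rw [e2] at h6
      exact h6
    · rw [e2] at h5
      exact h5

/-- A hypersurface has codimension `> 0`. -/
theorem thin_zero (hDec : S_Dec) {I : Type} [Fintype I] (P : MvPolynomial I ℂ) (hP : P ≠ 0) :
    Thin 0 {x : I → ℚ | MvPolynomial.eval (fun o => (x o : ℂ)) P = 0} := by
  classical
  obtain ⟨d, hd⟩ := MvPolynomial.ne_zero_iff.1 hP
  obtain ⟨φ, hφ⟩ := Module.Projective.exists_dual_ne_zero ℚ hd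
  set f : MvPolynomial I ℚ := ∑ d ∈ P.support, MvPolynomial.monomial d (φ (P.coeff d)) with hf
  have hfd : f.coeff d = φ (P.coeff d) := by
    rw [hf, MvPolynomial.coeff_sum, Finset.sum_eq_single d]
    · rw [MvPolynomial.coeff_monomial, if_pos rfl]
    · intro b _ hb
      rw [MvPolynomial.coeff_monomial, if_neg hb]
    · intro h
      exact absurd (MvPolynomial.mem_support_iff.2 hd) h
  have hf0 : f ≠ 0 := by
    intro h
    apply hφ
    rw [← hfd, h, MvPolynomial.coeff_zero]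
  have hfe : ∀ x : I → ℚ, MvPolynomial.eval x f =
      φ (MvPolynomial.eval (fun o => (x o : ℂ)) P) := by
    intro x
    rw [hf, MvPolynomial.eval_eq' _ P, map_sum, map_sum]
    refine Finset.sum_congr rfl fun b _ => ?_
    rw [MvPolynomial.eval_monomial]
    have h1 : P.coeff b * ∏ i, (x i : ℂ) ^ b i = (∏ i, x i ^ b i : ℚ) • P.coeff b := by
      rw [Rat.smul_def]
      push_cast
      ring
    rw [h1, map_smul, smul_eq_mul, Finsupp.prod_fintype _ _ (fun i => pow_zero _), mul_comm]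
  obtain ⟨m, ξ, hE, hD⟩ := hDec I {x : I → ℚ | MvPolynomial.eval x f = 0}
  have hξ : ∀ k, MvPolynomial.aeval (ξ k) f = 0 := fun k => (hD k).2 f fun x hx => hx.1
  have hI : ∀ _ : Fin m, 0 < Fintype.card I := by
    intro k
    rw [Fintype.card_pos_iff]
    by_contra h
    rw [not_nonempty_iff] at h
    apply hf0
    have h1 := hξ k
    rw [MvPolynomial.eq_C_of_isEmpty f, ← MvPolynomial.algebraMap_eq, AlgHom.commutes] at h1
    rw [MvPolynomial.eq_C_of_isEmpty f, (algebraMap ℚ ℂ).injective (h1.trans (map_zero _).symm),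
      MvPolynomial.C_0]
  refine ⟨m, ξ, fun k => ⟨Fintype.card I - 1, by have := hI k; omega, ?_⟩, ?_⟩
  · intro s hs
    have hc : Fintype.card I - 1 + 1 = Fintype.card I := by have := hI k; omega
    have hsi : Function.Injective s := fun a b hab => hs.injective (by
      change ξ k (s a) = ξ k (s b)
      rw [hab])
    have hsb : Function.Bijective s := (Fintype.bijective_iff_injective_and_card s).2
      ⟨hsi, by rw [Fintype.card_fin, hc]⟩
    have h1 := hs.comp (Equiv.ofBijective s hsb).symm (Equiv.injective _)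
    have h2 : (fun i => ξ k (s i)) ∘ (Equiv.ofBijective s hsb).symm = ξ k := by
      funext i
      change ξ k (s ((Equiv.ofBijective s hsb).symm i)) = ξ k i
      congr 1
      exact Equiv.ofBijective_apply_symm_apply s hsb i
    rw [h2] at h1
    exact hf0 (h1 ((hξ k).trans (map_zero _).symm))
  · intro x hx
    refine hE ?_
    change MvPolynomial.eval x f = 0
    rw [hfe, hx, map_zero]

/-- Nondegenerate points are generic. -/
theorem nd (hDec : S_Dec) (hex : S_NDex) (hform : S_NDform) (s Δ : ℕ) :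
    ∃ n₁ : ℕ, ∀ D : ℕ, n₁ ≤ D → ∀ e : Fin D → ℂ, LinearIndependent ℚ e → ∀ (q : ℕ)
      (R : Fin s → MvPolynomial (Fin q) ℂ), (∀ j, (R j).totalDegree ≤ Δ) →
      (NoConst (Set.range ((↑) : ℚ → ℂ)) R →
        AllBut 0 e q (GradInd (Set.range ((↑) : ℚ → ℂ)) R)) ∧
      ∀ ω₁ ω₂ : ℂ, (ω₂ / ω₁).im ≠ 0 → NoConst {g | InK ω₁ ω₂ g} R →
        AllBut 0 e q (GradInd {g | InK ω₁ ω₂ g} R) := by
  obtain ⟨n₁, h1⟩ := hex s Δ 2
  refine ⟨n₁, fun D hD e he q R hR => ⟨fun hN => ?_, fun ω₁ ω₂ him hN => ?_⟩⟩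
  · have hb : ∀ y : ℂ, y ∈ (⊥ : IntermediateField ℚ ℂ) ↔ y ∈ Set.range ((↑) : ℚ → ℂ) := by
      intro y
      rw [IntermediateField.mem_bot]
      rfl
    obtain ⟨w, hw⟩ := h1 ⊥ inferInstance (by rw [IntermediateField.finrank_bot]; omega) D hD e he
      q R hR (fun c hc => hN c fun j => (hb _).1 (hc j))
    obtain ⟨P, hP, hPw⟩ := hform ⊥ s q D R e w hw
    refine thin_mono (thin_zero hDec P hP) fun x hx => ?_
    by_contra hne
    exact hx (ndf_bot.1 (hPw (fun i a => x (i, a)) hne))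
  · obtain ⟨τ, h⟩ := exists_nf him
    obtain ⟨hfd, h2⟩ := finrank_kf h.im
    have hk : ∀ y : ℂ, y ∈ kf τ ↔ InK ω₁ ω₂ y := fun y =>
      ((x_Kf τ h.im).2.1 y).trans (h.iff y).symm
    obtain ⟨w, hw⟩ := h1 (kf τ) hfd h2 D hD e he q R hR
      (fun c hc => hN c fun j => (hk _).1 (hc j))
    obtain ⟨P, hP, hPw⟩ := hform (kf τ) s q D R e w hw
    refine thin_mono (thin_zero hDec P hP) fun x hx => ?_
    by_contra hne
    exact hx fun c hc => hPw (fun i a => x (i, a)) hne c fun j => (hk _).2 (hc j)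

end KB

end Pool.Agent.Work.MP_8da9ea_nt.FR
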