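import Pool.Agent.Work.MP_8da9ea_nt.FR.StmtsK

/-!
# Block FK: finitely many small fields, for every finite-dimensional space of points

Paper proof: note 3977 of helper27 on `MP_8da9ea_nt`, refereed by helper60. The exceptional set (rational
coordinates) is decomposed over a countable field `k₁`; the coordinates of the generic point `ξ` of a
component are constants, so the relation at `ξ` is a relation of Ax type over a small field.
-/

set_option autoImplicit false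

namespace Pool.Agent.Work.MP_8da9ea_nt.FR

open MvPolynomial Metric Filter Topology Pool.Agent.Work.MP_327059_nt.GL
  Pool.Agent.Work.MP_8da9ea_nt.S Pool.Agent.Work.MP_8da9ea_nt.EB Pool.Agent.Work.MP_8da9ea_nt.EC

/-! ## Generic points -/

/-- The value at a rational point of a polynomial with coefficients in `k₁`. -/
noncomputable def av {k₁ : IntermediateField ℚ ℂ} {I : Type} (x : I → ℚ) (f : MvPolynomial I k₁) : ℂ :=
  aeval (fun i => (x i : ℂ)) f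

/-- `ξ` is a generic point over `k₁` of the set `E` of rational points. -/
def Gn (k₁ : IntermediateField ℚ ℂ) {I : Type} (ξ : I → ℂ) (E : Set (I → ℚ)) : Prop :=
  ∀ f : MvPolynomial I k₁, aeval ξ f = 0 ↔ ∀ x ∈ E, av x f = 0

/-- **F1, decomposition over a countable field.** As `Dec_pf` (`FR/I_Dec.lean`, there `k₁ = ℚ`): the
minimal primes `P_k` of the ideal of all `f` vanishing on `E`, `E' k` the points of `E` at which all
`f ∈ P_k` vanish, `ξ k` from an embedding over `k₁` of the fraction field of `k₁[x_I] / P_k` into `ℂ`. For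
the latter: in `I_Dec.emb` the field `L`, an algebraic closure of `Frac K[z_c, c ∈ ℂ]`, and `ℂ` are
algebraically closed extensions of the countable field `k₁` of the same uncountable cardinality, so they
have transcendence bases over `k₁` of the same cardinality
(`IsAlgClosed.cardinal_eq_cardinal_transcendence_basis_of_aleph0_lt` or similar) and are isomorphic over
`k₁` (`IsAlgClosed.equivOfTranscendenceBasis`). -/
def S_DecK : Prop := ∀ k₁ : IntermediateField ℚ ℂ, Countable k₁ → ∀ (I : Type) [Fintype I]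
  (E : Set (I → ℚ)), ∃ (m : ℕ) (ξ : Fin m → I → ℂ) (E' : Fin m → Set (I → ℚ)),
    (∀ x ∈ E, ∃ k, x ∈ E' k) ∧ ∀ k, E' k ⊆ E ∧ Gn k₁ (ξ k) (E' k)

/-- **F2, relations at the generic point.** Let `r` be the rank of the matrix `M'(ξ)`, `M' = M` without
the column `p₀`. The `(r + 1)`-minors of `M'` vanish at `ξ`, so on `E`, so the rank of `M(x)`, which is
that of `M'(x)`, is `≤ r` for `x ∈ E`. So all `(r + 1)`-minors of `M` vanish on `E`, so at `ξ`, and the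
column `p₀` of `M(ξ)` is a combination of the other ones. (Or: if not, there is a vector `y` with entries
in the field generated over `k₁` by the `ξ_i` with `y M'(ξ) = 0`, `y M_{p₀}(ξ) ≠ 0`; clear the
denominators, `y = Y(ξ)` with `Y` in `k₁[x]`; then `Y M' = 0` on `E`, so `Y M_{p₀} = 0` on `E`, so at
`ξ`.) -/
def S_RelUp : Prop := ∀ (k₁ : IntermediateField ℚ ℂ) (I R P : Type) [Finite I] [Fintype R] [Fintype P]
  (ξ : I → ℂ) (E : Set (I → ℚ)), Gn k₁ ξ E → ∀ (M : R → P → MvPolynomial I k₁) (p₀ : P),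
  (∀ x ∈ E, ∃ κ : P → ℂ, κ p₀ ≠ 0 ∧ ∀ r, ∑ p, κ p * av x (M r p) = 0) →
    ∃ κ : P → ℂ, κ p₀ ≠ 0 ∧ ∀ r, ∑ p, κ p * aeval ξ (M r p) = 0

/-- **F3, relations at the rational points.** Let `x ∈ E`. If the functions `g ↦ A_jg(x)` (values in `k`)
were independent over `k`, there would be `g_1, …, g_s` with `det (A_{j g_b}(x)) ≠ 0`; so
`det (A_{j g_b}(ξ)) ≠ 0` by `Gn`, and `κ = 0`. (`S_Fun`, `FR/I_Fun.lean`, is related.) -/
def S_RelDown : Prop := ∀ (k₁ k : IntermediateField ℚ ℂ) (I G : Type) (s : ℕ) (ξ : I → ℂ)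
  (E : Set (I → ℚ)), Gn k₁ ξ E → ∀ A : Fin s → G → MvPolynomial I k₁,
  (∀ x ∈ E, ∀ j g, av x (A j g) ∈ k) →
  (∃ κ : Fin s → ℂ, κ ≠ 0 ∧ ∀ g, ∑ j, κ j * aeval ξ (A j g) = 0) →
    ∀ x ∈ E, ∃ c : Fin s → ℂ, (∀ j, c j ∈ k) ∧ c ≠ 0 ∧ ∀ g, ∑ j, c j * av x (A j g) = 0

/-! ## Forms -/

/-- The linear forms `θ_pa` are closed on `DK K`. -/
def ClF (K : IntermediateField ℚ ℂ) {P A : Type} (θ : P → A → Derivation ℚ ℂ ℂ →ₗ[ℂ] ℂ) : Prop :=
  ∀ p a, ∀ δ ∈ DK K, ∀ δ' ∈ DK K, δ (θ p a δ') - δ' (θ p a δ) = θ p a ⁅δ, δ'⁆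

/-- The forms `∑_a w_pa θ_pa`. -/
noncomputable def omB {P A : Type} [Fintype A] (θ : P → A → Derivation ℚ ℂ ℂ →ₗ[ℂ] ℂ)
    (w : P → A → ℂ) : Derivation ℚ ℂ ℂ →ₗ[ℂ] (P → ℂ) :=
  LinearMap.pi fun p => ∑ a, w p a • θ p a

/-- **F4, relations with constant coefficients.** Let `R` be the space of all relations `κ` on `DK K₁`,
`𝒟` the set of all `δ₀ ∈ DK K₁` with `omB θ w δ₀ = 0`. `R` is stable under `δ₀ ∈ 𝒟`: apply `δ₀` to
`∑ κ_p Ω_p(δ) = 0`; `δ₀(Ω_p(δ)) = δ(Ω_p(δ₀)) + Ω_p([δ₀, δ]) = Ω_p([δ₀, δ])`, as `δ₀`, `δ` kill the `w_pa`,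
and `[δ₀, δ] ∈ DK K₁`. Conclude by `pr_Stab` as in `RelE_pf` (`FR/I_RelE.lean`). -/
def S_Stb : Prop := ∀ (K : IntermediateField ℚ ℂ) (P A : Type) [Fintype P] [Fintype A]
  (θ : P → A → Derivation ℚ ℂ ℂ →ₗ[ℂ] ℂ), ClF K θ → ∀ (w : P → A → ℂ) (K₁ : IntermediateField ℚ ℂ),
  K ≤ K₁ → (∀ p a, w p a ∈ K₁) → ∀ p₀ : P,
  (∃ κ : P → ℂ, κ p₀ ≠ 0 ∧ ∀ δ ∈ DK K₁, ∑ p, κ p * omB θ w δ p = 0) →
    ∃ κ : P → ℂ, κ p₀ ≠ 0 ∧ (∀ δ ∈ DK K₁, ∑ p, κ p * omB θ w δ p = 0) ∧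
      ∀ δ ∈ DK K₁, omB θ w δ = 0 → ∀ p, δ (κ p) = 0

/-- **F5, small transcendence degree.** Let `r = |P|` and suppose that `F` has `N + r` independent
elements. As `K` has at most `N`, there are `y_1, …, y_r ∈ F` independent over `K` (exchange;
`I_EField.basis`). They are independent over `K₁ = K(ξ)`: a relation `∑_α c_α(ξ) y^α = 0`, `c_α ∈ K[x]`
(denominators cleared), is `f(ξ) = 0` with `f = ∑_α c_α y^α ∈ k₁[x]` (`y_j ∈ F ⊆ k₁`), so `f = 0` on `E`,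
so `c_α(x) = 0` for all `x ∈ E` (`x` is rational, `c_α(x) ∈ K`) and all `α`, so `c_α(ξ) = 0`. So there are
`D_i ∈ DK K₁` with `D_i(y_j) = δ_ij` (`exists_derivation`). By the relation `κ` the rank of `Ω` on `DK K₁`
is `≤ r - 1`, so some nontrivial combination `D` of the `D_i` has `Ω(D) = 0`, and `D` kills
`F ∋ y_j`: a contradiction. -/
def S_TrB : Prop := ∀ (K k₁ : IntermediateField ℚ ℂ), K ≤ k₁ → ∀ (I P : Type) [Finite I] [Fintype P]
  (ξ : I → ℂ) (E : Set (I → ℚ)), Gn k₁ ξ E → ∀ (Ω : Derivation ℚ ℂ ℂ →ₗ[ℂ] (P → ℂ)) (κ : P → ℂ),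
  κ ≠ 0 →
  (∀ δ ∈ DK (IntermediateField.adjoin ℚ ((K : Set ℂ) ∪ Set.range ξ)), ∑ p, κ p * Ω δ p = 0) →
  ∀ N : ℕ, ¬ HasTrdeg K (N + 1) → ∀ F : IntermediateField ℚ ℂ, F ≤ k₁ →
  (∀ δ ∈ DK (IntermediateField.adjoin ℚ ((K : Set ℂ) ∪ Set.range ξ)), Ω δ = 0 → ∀ x ∈ F, δ x = 0) →
    ¬ HasTrdeg F (N + Fintype.card P)

/-! ## The forms of the problem -/

/-- The place of a form: `e^{u_j}`; `λ(v_j)`, `η(v_j)`; `δ z_l`. -/
abbrev PL (s n ρ : ℕ) : Type := Fin s ⊕ (Fin n × Bool) ⊕ Fin ρ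

/-- The point of a place. -/
abbrev PX (s n ρ : ℕ) : Type := Fin s ⊕ Fin n ⊕ Fin ρ

/-- The point of a place. -/
def ix {s n ρ : ℕ} : PL s n ρ → PX s n ρ
  | Sum.inl j => Sum.inl j
  | Sum.inr (Sum.inl o) => Sum.inr (Sum.inl o.1)
  | Sum.inr (Sum.inr l) => Sum.inr (Sum.inr l)

/-- The form of a place at the point `e`. -/
noncomputable def f1 (τ μ : ℂ) {s n ρ : ℕ} (p : PL s n ρ) (e : ℂ) : Derivation ℚ ℂ ℂ →ₗ[ℂ] ℂ :=
  match p with
  | Sum.inl j => (LinearMap.proj (Sum.inl j)).comp (omV τ μ (fun _ : Fin s => e) (fun _ : Fin n => e))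
  | Sum.inr (Sum.inl o) =>
    (LinearMap.proj (Sum.inr o)).comp (omV τ μ (fun _ : Fin s => e) (fun _ : Fin n => e))
  | Sum.inr (Sum.inr l) => (LinearMap.proj l).comp (dz (fun _ : Fin ρ => e))

/-- The forms at the points with complex coordinates `w` in the family `e`. -/
noncomputable def omF (τ μ : ℂ) {s n ρ D : ℕ} (e : Fin D → ℂ) (w : PX s n ρ × Fin D → ℂ) :
    Derivation ℚ ℂ ℂ →ₗ[ℂ] (PL s n ρ → ℂ) :=
  omB (fun p a => f1 τ μ p (e a)) (fun p a => w (ix p, a))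

/-- The points with rational coordinates `x`. -/
noncomputable def pt {s n ρ D : ℕ} (e : Fin D → ℂ) (x : PX s n ρ × Fin D → ℚ) (i : PX s n ρ) : ℂ :=
  ∑ a, (x (i, a) : ℂ) * e a

/-- `x` is exceptional. -/
def Ex (τ μ : ℂ) (K₀ : IntermediateField ℚ ℂ) {s n ρ D : ℕ} (e : Fin D → ℂ)
    (x : PX s n ρ × Fin D → ℚ) : Prop :=
  ¬ ((∀ j, pt e x (Sum.inr (Sum.inl j)) ∉ Lam τ) ∧
    AlgebraicIndependent (IntermediateField.adjoin ℚ
        ((K₀ : Set ℂ) ∪ Set.range fun l => pt e x (Sum.inr (Sum.inr l))))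
      (fm τ μ (fun j => pt e x (Sum.inl j)) (fun j => pt e x (Sum.inr (Sum.inl j)))))

/-- **F6, the basic forms.** (1) They are closed (`S_RelStab` / `S_ClosedK`, `I_RelStab.th_closed`,
`δ δ' - δ' δ = [δ, δ']`). (2) For rational `x` the form of the place `p` at the point is
`∑_a x_a (form at e_a)` on `DK K₀` (L1, L3, `I_Core.th_add`). (3) At an exceptional point there is a
relation which is not only between the `δ z_l`: `S_FormBZ` gives that the rank of the `omV` on the common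
kernel of the `δ z_l` is `< s + 2 n`, so some nontrivial combination of the forms `omV` vanishes there, so
on `DK K₀` it is a combination of the `δ z_l` (the duality step of `CoreP_pf`, `FR/I_CoreP.lean`). -/
def S_Frm : Prop := ∀ (τ μ : ℂ) (K₀ : IntermediateField ℚ ℂ) (s n ρ D : ℕ), KF n τ μ K₀ →
  ∀ e : Fin D → ℂ, ClF K₀ (fun (p : PL s n ρ) a => f1 τ μ p (e a)) ∧
    ∀ x : PX s n ρ × Fin D → ℚ, Ex τ μ K₀ e x → ∃ κ : PL s n ρ → ℂ,
      ((∃ j, κ (Sum.inl j) ≠ 0) ∨ ∃ o, κ (Sum.inr (Sum.inl o)) ≠ 0) ∧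
      ∀ δ ∈ DK K₀, ∑ p, κ p * omF τ μ e (fun i => (x i : ℂ)) δ p = 0

/-- A nontrivial combination of the points is in the field `E`. -/
def Sm (τ μ : ℂ) (E : IntermediateField ℚ ℂ) {s n : ℕ} (u : Fin s → ℂ) (v : Fin n → ℂ) : Prop :=
  (∃ c : Fin s → ℚ, c ≠ 0 ∧ Complex.exp (∑ j, (c j : ℂ) * u j) ∈ E) ∨
  ∃ g : Fin n → ℂ, (∀ j, IsE τ (g j)) ∧ g ≠ 0 ∧
    (∑ j, g j * v j ∈ Lam τ ∨ xe τ μ (∑ j, g j * v j) ∈ E)

/-- **F7, the step of Ax.** `E₁` contains the coefficients and the coordinates of `ξ`. `S_AxF` for the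
points `e_1, …, e_D` (as toric points, and, if `0 < n`, as elliptic points), with the coefficients
`∑_j κ_j ξ_ja` (in `E₁`), and `T = - ∑_l κ_l ∑_a ξ_la e_a`. If `κ (inl j) ≠ 0` for some `j`: for all
`ℚ`-linear `g` vanishing on `{x | e^x ∈ E₁}`, `∑_j κ_j (∑_a ξ_ja g(e_a)) = 0`; by F3 (`k = ⊥`,
`A_jg = ∑_a g(e_a) X_ja`) for `x ∈ E` there is a rational `c ≠ 0` with `g(∑_j c_j u_j) = 0` for all `g`,
so `∑ c_j u_j` is in the `ℚ`-space `{x | e^x ∈ E₁}` (`E₁` is algebraically closed). Otherwise, if some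
`κ (inr (inl (j, true))) ≠ 0`: `∑_j κ_j (∑_a ξ_ja conj g(e_a)) = 0` for all `kf τ`-linear
`g : ℂ → kf τ` vanishing on the `kf τ`-space `{x | x ∈ Lam τ ∨ xe τ μ x ∈ E₁}` (a space by L1, L2, L4, see
`I_KeyW`); F3 with `k = kf τ` (`kf τ ≤ k₁`, as `τ ∈ E₁`, … : take `kf τ ≤ k₁` from the hypothesis) gives
`c` with `∑_j c_j conj g(v_j) = 0` for all `g`, so `∑_j conj(c_j) v_j` is in this space. Otherwise use the
last clause of `S_AxF`. -/
def S_AxX : Prop := ∀ (τ μ : ℂ) (k₁ E₁ : IntermediateField ℚ ℂ) (s n ρ D : ℕ), KF n τ μ E₁ →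
  (0 < n → kf τ ≤ k₁) → ∀ (e : Fin D → ℂ) (ξ : PX s n ρ × Fin D → ℂ) (E : Set (PX s n ρ × Fin D → ℚ)),
  Gn k₁ ξ E → (∀ i, ξ i ∈ E₁) → ∀ κ : PL s n ρ → ℂ, (∀ p, κ p ∈ E₁) →
  ((∃ j, κ (Sum.inl j) ≠ 0) ∨ ∃ o, κ (Sum.inr (Sum.inl o)) ≠ 0) →
  (∀ δ ∈ DK E₁, ∑ p, κ p * omF τ μ e ξ δ p = 0) →
    ∀ x ∈ E, Sm τ μ E₁ (fun j => pt e x (Sum.inl j)) (fun j => pt e x (Sum.inr (Sum.inl j)))

/-! ## The main statement -/

/-- **F8, finitely many small fields**, from F1-F7. Let `Φ` be the map `DK K₀ → (P × D → ℂ)` given by all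
`f1 τ μ p (e a)`; choose `δ_1, …, δ_t ∈ DK K₀` such that the `Φ(δ_i)` span its range. Let `k₁` be a
countable algebraically closed field containing `K₀`, all `x`, `e^x`, `X(x)` for `x` in the `kf τ`-span
(`n = 0`: in the `ℚ`-span) of the `e_a` (a countable set), `kf τ` if `0 < n`, and the entries of the
`Φ(δ_i)`. For every place `p₀` which is not a `δ z_l` let `E^{p₀}` be the set of exceptional `x` with a
relation with `κ p₀ ≠ 0` on `DK K₀` (F6: every exceptional `x` is in some `E^{p₀}`), and apply F1 to it.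
For each `ξ`, `E'`: F2 for the matrix `M_ip = ∑_a f1(p, e_a)(δ_i) X_{ix p, a}` gives a relation with
`κ p₀ ≠ 0` at `ξ`, on `DK K₀`. Let `K₁ = K₀(ξ)`; F4 gives `κ` with `κ p₀ ≠ 0`, a relation on `DK K₁`,
killed by all `δ ∈ DK K₁` with `omF τ μ e ξ δ = 0`. Let `E₁` be the algebraic closure in `ℂ` of
`K₁(κ)` and `F = E₁ ⊓ k₁`. F5: the transcendence degree of `F` is `< N + |P|`. F7: `Sm` for `E₁`, so for
`F`, as `e^x`, `X(x) ∈ k₁`. -/
def S_FK : Prop := ∀ (τ μ : ℂ) (N s n ρ : ℕ) (K₀ : IntermediateField ℚ ℂ), KF n τ μ K₀ →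
  ¬ HasTrdeg K₀ (N + 1) → ∀ (D : ℕ) (e : Fin D → ℂ), ∃ (m : ℕ) (F : Fin m → IntermediateField ℚ ℂ),
    (∀ k, KF n τ μ (F k) ∧ K₀ ≤ F k ∧ ¬ HasTrdeg (F k) (N + s + 2 * n + ρ)) ∧
    ∀ (u : Fin s → ℂ) (v : Fin n → ℂ) (z : Fin ρ → ℂ),
      (∀ j, u j ∈ Submodule.span ℚ (Set.range e)) → (∀ j, v j ∈ Submodule.span ℚ (Set.range e)) →
      (∀ l, z l ∈ Submodule.span ℚ (Set.range e)) → (∀ k, ¬ Sm τ μ (F k) u v) →
        (∀ j, v j ∉ Lam τ) ∧
        AlgebraicIndependent (IntermediateField.adjoin ℚ ((K₀ : Set ℂ) ∪ Set.range z)) (fm τ μ u v)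

end Pool.Agent.Work.MP_8da9ea_nt.FR
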