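import Pool.Agent.Work.MP_8da9ea_nt.FR.FDefs
import Pool.Agent.Work.MP_8da9ea_nt.FR.StmtsF
import Pool.Agent.Work.MP_8da9ea_nt.FR.KB
import Pool.Agent.Work.MP_8da9ea_nt.FR.I_KeyW
import Pool.Agent.Work.MP_8da9ea_nt.FR.FinB

/-!
# Finitely many exceptional subspaces: small fields give poor subspaces
-/

set_option autoImplicit false

namespace Pool.Agent.Work.MP_8da9ea_nt.FR

open Pool.Agent.Work.MP_8da9ea_nt.EB Pool.Agent.Work.MP_327059_nt.GL Pool.Agent.Work.MP_8da9ea_nt.S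
  Pool.Agent.Work.MP_8da9ea_nt.EC Pool.Agent.Work.MP_8da9ea_nt.TG Pool.Agent.ED

namespace FA

open FinA PolA KA KB

/-! ## Product sets in spaces stable under a number field -/

theorem li_of_sli {M : ℕ} {a : Fin M → ℂ} (h : SLI a) : LinearIndependent ℚ a := by
  rw [Fintype.linearIndependent_iff]
  intro g hg
  have h1 := h Complex.I (by simp) (fun i => (g i : ℂ)) (fun j => ?_) (by
    rw [← hg]
    exact Finset.sum_congr rfl fun i _ => (Rat.smul_def _ _).symm)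
  · intro i
    have h2 : (g i : ℂ) = 0 := congrFun h1 i
    exact_mod_cast h2
  · have h2 := (IntermediateField.algebraMap_mem (kf Complex.I) (g j))
    exact ((x_Kf Complex.I (by simp)).2.1 _).1 h2

/-- A nonzero space stable under a large number field contains a product set. -/
theorem nfS (hS : S_SLIex) (M n : ℕ) (V : Submodule ℚ ℂ) (hV : V ≠ ⊥)
    (L : IntermediateField ℚ ℂ) (hL : FiniteDimensional ℚ L) (hM : 2 * M ≤ Module.finrank ℚ L)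
    (hn : n ≤ Module.finrank ℚ L) (hSt : ∀ l ∈ L, ∀ y ∈ V, l * y ∈ V) :
    ∃ (a : Fin M → ℂ) (x : Fin n → ℂ), FT 1 a ∧ SLI a ∧ LinearIndependent ℚ a ∧
      LinearIndependent ℚ x ∧ MS 1 x ∧ ∀ l i, a l * x i ∈ V := by
  obtain ⟨a, haL, hSLI⟩ := hS L M hL hM
  obtain ⟨f, hf⟩ := exists_linearIndependent_of_le_finrank hn
  have halg : ∀ y ∈ L, IsAlgebraic ℚ y := by
    intro y hy
    have h4 : IsAlgebraic ℚ (⟨y, hy⟩ : L) := Algebra.IsAlgebraic.isAlgebraic _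
    exact h4.algebraMap
  have hf' : LinearIndependent ℚ (fun i => ((f i : L) : ℂ)) :=
    hf.map' L.val.toLinearMap (LinearMap.ker_eq_bot.2 L.val.injective)
  obtain ⟨y, hyV, hy⟩ := Submodule.exists_mem_ne_zero_of_ne_bot hV
  have hx : LinearIndependent ℚ (fun i => (f i : ℂ) * y) := by
    have h := hf'.map' (LinearMap.mulRight ℚ y) (by
      rw [LinearMap.ker_eq_bot']
      intro z hz
      rw [LinearMap.mulRight_apply] at hz
      exact (mul_eq_zero.1 hz).resolve_right hy)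
    exact h
  refine ⟨a, fun i => (f i : ℂ) * y, x_FTalg M a fun j => halg _ (haL j), hSLI, li_of_sli hSLI, hx,
    MS_alg (fun i => halg _ (f i).2) hf' hy, fun l i => ?_⟩
  rw [← mul_assoc]
  exact hSt _ (mul_mem (haL l) (f i).2) _ hyV

/-! ## Small fields -/

theorem mem_SE {E : IntermediateField ℚ ℂ} (hE : ACl E) (x : ℂ) :
    x ∈ I_KeyW.SE hE ↔ Complex.exp x ∈ E := Iff.rfl

/-- The space of the points `x` with `x / ω₁` defined over `E`. -/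
noncomputable def UE (l1 : S_LamAddK) (l2 : S_LamMulK) {τ : ℂ} {E : IntermediateField ℚ ℂ}
    (hG : GF τ 1 E) (ω₁ : ℂ) : Submodule ℚ ℂ :=
  ((I_KeyW.SL l1 l2 hG).restrictScalars ℚ).comap (LinearMap.mulRight ℚ ω₁⁻¹)

theorem mem_UE (l1 : S_LamAddK) (l2 : S_LamMulK) (l4 : S_LamZeroK) {τ : ℂ}
    {E : IntermediateField ℚ ℂ} (hG : GF τ 1 E) (hE : ACl E) (ω₁ x : ℂ) :
    x ∈ UE l1 l2 hG ω₁ ↔ (x / ω₁ ∈ Lam τ ∨ xe τ 1 (x / ω₁) ∈ E) := by
  rw [← l4 τ 1 E hG hE (x / ω₁)]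
  have h1 : (LinearMap.mulRight ℚ ω₁⁻¹) x = x / ω₁ := by
    rw [LinearMap.mulRight_apply, div_eq_mul_inv]
  change (LinearMap.mulRight ℚ ω₁⁻¹) x ∈ (I_KeyW.SL l1 l2 hG).restrictScalars ℚ ↔ _
  rw [h1]
  rfl

/-- Small fields and product sets. -/
theorem small (hA : S_NoSmallC) (hV : S_NoSmallCV) (hS : S_SLIex) (Q M T : ℕ) (hT : T + 1 ≤ M) :
    ∃ n' : ℕ, ∀ n₀ : ℕ, n' ≤ n₀ → ∀ F : IntermediateField ℚ ℂ, ACl F → ¬ HasTrdeg F T →
      (∀ V : Submodule ℚ ℂ, (∀ x ∈ V, Complex.exp x ∈ F) →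
        ¬ RichS Q M n₀ V fun _ _ => True) ∧
      ∀ τ ω₁ ω₂ : ℂ, NF τ ω₁ ω₂ → GF τ 1 F → ∀ V : Submodule ℚ ℂ,
        (∀ x ∈ V, x / ω₁ ∈ Lam τ ∨ xe τ 1 (x / ω₁) ∈ F) → ¬ RichS Q M n₀ V (CondE Q ω₁ ω₂) := by
  obtain ⟨n₁, h1⟩ := hA Q M
  obtain ⟨n₂, h2⟩ := hA 1 M
  obtain ⟨n₃, h3⟩ := hV Q Q M
  obtain ⟨n₄, h4⟩ := hV 1 1 M
  refine ⟨n₁ + n₂ + n₃ + n₄ + 2 * M, fun n₀ hn₀ F hF hFT => ?_⟩
  have hFT' : ¬ HasTrdeg F (M - 1) := fun h => hFT (h.mono le_rfl (by omega))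
  have hg₁ : Function.Injective (Fin.castLE
    (show n₁ ≤ n₀ by omega)) := Fin.castLE_injective _
  have hg₃ : Function.Injective (Fin.castLE
    (show n₃ ≤ n₀ by omega)) := Fin.castLE_injective _
  refine ⟨fun V hVF hR => ?_, fun τ ω₁ ω₂ hNF hG V hVF hR => ?_⟩
  · rcases hR with ⟨hne, L, hL, hdeg, hSt⟩ | ⟨a, x, hFTa, hai, hxi, hax, -⟩
    · obtain ⟨a, x, hFTa, -, hai, hxi, -, hax⟩ := nfS hS M n₂ V hne L hL (by omega) (by omega) hSt
      obtain ⟨⟨γ, hγ, hγF⟩, -⟩ := h2 a x hFTa hai hxi V hax 0 0 0 (fun h => absurd h (by omega)) F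
        hFT' 1 one_ne_zero
      rw [mul_one] at hγF
      exact hγF (hVF γ hγ)
    · obtain ⟨⟨γ, hγ, hγF⟩, -⟩ := h1 a (fun i => x (Fin.castLE (by omega) i)) hFTa hai
        (hxi.comp _ hg₁) V (fun l i => hax _ _) 0 0 0 (fun h => absurd h (by omega)) F
        hFT' 1 one_ne_zero
      rw [mul_one] at hγF
      exact hγF (hVF γ hγ)
  · have h0 : ω₁⁻¹ ≠ 0 := inv_ne_zero hNF.ne
    have hkey : ∀ γ ∈ V, ¬ (γ * ω₁⁻¹ ∉ Lam τ ∧ xe τ 1 (γ * ω₁⁻¹) ∉ F) := by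
      rintro γ hγ ⟨h5, h6⟩
      rw [← div_eq_mul_inv] at h5 h6
      rcases hVF γ hγ with h7 | h7
      · exact h5 h7
      · exact h6 h7
    rcases hR with ⟨hne, L, hL, hdeg, hSt⟩ | ⟨a, x, hFTa, hai, hxi, hax, hC⟩
    · obtain ⟨a, x, hFTa, hSLI, -, -, hMS, hax⟩ := nfS hS M n₄ V hne L hL (by omega) (by omega) hSt
      obtain ⟨γ, hγ, hγF⟩ := (h4 a x hFTa hSLI hMS V hax τ 1 1 F hF (fun _ => hG) hFT' _ h0).2
        one_pos
      exact hkey γ hγ hγF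
    · rcases hC with ⟨hj, hK⟩ | ⟨hK, hMS⟩
      · obtain ⟨μ, hμ, hμa⟩ := Norm_pf τ hNF.im (hNF.jalg hj)
        have hg2 : gg2 τ ∈ F := by
          have := hG.g2
          rwa [one_pow, one_mul] at this
        have hg3 : gg3 τ ∈ F := by
          have := hG.g3
          rwa [one_pow, one_mul] at this
        have hμF : μ ∈ F := hF μ (hμa F hg2 hg3)
        obtain ⟨γ, hγ, h5, h6⟩ := (h1 a (fun i => x (Fin.castLE (by omega) i)) hFTa hai
          (hxi.comp _ hg₁) V (fun l i => hax _ _) τ μ 1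
          (fun _ => ⟨hμ, fun g hg h0 => hK g (fun j => (hNF.iff _).2 (hg j)) h0⟩) F hFT' _ h0).2
          one_pos
        refine hkey γ hγ ⟨h5, fun h7 => h6 ?_⟩
        have h8 : xe τ μ (γ * ω₁⁻¹) = μ ^ 2 * xe τ 1 (γ * ω₁⁻¹) := by
          unfold xe
          ring
        rw [h8]
        exact mul_mem (pow_mem hμF 2) h7
      · obtain ⟨γ, hγ, hγF⟩ := (h3 a (fun i => x (Fin.castLE (by omega) i)) hFTa
          (fun τ' hτ' g hg h0 => hK 1 τ' (by simpa using hτ'.ne') g (fun j => by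
            rw [inK_iff one_ne_zero, div_one]
            exact hg j) h0) (MS_sub hMS hg₃) V (fun l i => hax _ _) τ 1 1 F hF
          (fun _ => hG) hFT' _ h0).2 one_pos
        exact hkey γ hγ hγF

/-- The exceptional spaces of a small field. -/
theorem poorT {Q M n₀ T T' : ℕ} (hT : T ≤ T') {F : IntermediateField ℚ ℂ} (hF : ACl F)
    (hFT : ¬ HasTrdeg F T)
    (hs : ∀ V : Submodule ℚ ℂ, (∀ x ∈ V, Complex.exp x ∈ F) → ¬ RichS Q M n₀ V fun _ _ => True) :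
    PoorT Q M n₀ T' (I_KeyW.SE hF) := by
  refine ⟨fun h => hFT (h.mono ?_ hT), fun V hV => hs V fun x hx => hV hx⟩
  rw [IntermediateField.adjoin_le_iff]
  rintro y ⟨x, hx, rfl⟩
  exact hx

theorem poorE (l1 : S_LamAddK) (l2 : S_LamMulK) (l4 : S_LamZeroK) {Q M n₀ T T' : ℕ} (hT : T ≤ T')
    {F : IntermediateField ℚ ℂ} (hF : ACl F) (hFT : ¬ HasTrdeg F T) {τ ω₁ ω₂ : ℂ}
    (hNF : NF τ ω₁ ω₂) (hG : GF τ 1 F)
    (hs : ∀ V : Submodule ℚ ℂ, (∀ x ∈ V, x / ω₁ ∈ Lam τ ∨ xe τ 1 (x / ω₁) ∈ F) →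
      ¬ RichS Q M n₀ V (CondE Q ω₁ ω₂)) :
    PoorE Q M n₀ T' ω₁ ω₂ (UE l1 l2 hG ω₁) := by
  refine ⟨fun h => hFT (h.mono ?_ hT),
    fun V hV => hs V fun x hx => (mem_UE l1 l2 l4 hG hF ω₁ x).1 (hV hx)⟩
  rw [IntermediateField.adjoin_le_iff]
  rintro y ⟨x, hx, hxΩ, rfl⟩
  have h1 := hNF.ne
  have hwp : wp 1 τ (x / ω₁) = ω₁ ^ 2 * wp ω₁ ω₂ x := by
    rcases hNF.om with h | h
    · rw [h, wp_norm h1]
    · rw [h, wp_N, wp_norm h1]
  rcases (mem_UE l1 l2 l4 hG hF ω₁ x).1 hx with h2 | h2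
  · exfalso
    obtain ⟨a, b, h3⟩ := mem_Lam.1 h2
    rcases hNF.om with h | h
    · refine hxΩ a b ?_
      rw [h]
      field_simp at h3
      linear_combination h3
    · refine hxΩ a (-b) ?_
      rw [h]
      push_cast
      field_simp at h3
      linear_combination h3
  · have h3 : xe τ 1 (x / ω₁) = ω₁ ^ 2 * wp ω₁ ω₂ x := by
      unfold xe
      rw [one_pow, one_mul, hwp]
    rw [← h3]
    exact h2

end FA

end Pool.Agent.Work.MP_8da9ea_nt.FR
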