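import Pool.Agent.Work.MP_8da9ea_nt.FR.StmtsK
import Pool.Agent.Work.MP_8da9ea_nt.EC.FinDefs

/-!
# Finitely many exceptional subspaces: definitions for the final theorem
-/

set_option autoImplicit false

namespace Pool.Agent.Work.MP_8da9ea_nt.FR

open Pool.Agent.Work.MP_8da9ea_nt.EC

/-! ## The three conclusions -/

/-- The conclusion at `u` for the lattices whose invariant `j` is not in `F = cl S`: the elements of `F`
in the span of `t` are in the span of `u`, `t₀` and `2πi`. -/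
def GenQ (cl : Set ℂ → IntermediateField ℚ ℂ) {s : ℕ} (u : Fin s → ℂ) : Prop :=
  ∀ S : Set ℂ, S.Countable → ∀ ω₁ ω₂ : ℂ, (ω₂ / ω₁).im ≠ 0 → jInv ω₁ ω₂ ∉ cl S →
  ∀ (s' k : ℕ) (t : Fin s' → ℂ) (p : Fin k → ℂ) (d : ℕ) (t₀ : Fin d → ℂ),
    InnT (cl S) t (Fin.append u t₀) →
  ∀ (ρ : ℕ) (y : Fin ρ → ℂ), (∀ i, IsAlgebraic (bigField ω₁ ω₂ t p) (y i)) →
    (∀ i, y i ∉ cl (S ∪ y '' {j | j < i})) →
    (d ≤ max 1 ρ → Q1 ω₁ ω₂ t p) ∧
    ∀ N : ℕ, N + d ≤ tDim t + 4 + kDim2 ω₁ ω₂ p + max 1 ρ → HasTrdeg (bigField ω₁ ω₂ t p) N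

/-- The conclusion at `u`, `v` for one lattice and the field `B(t, p)`. -/
def AddQ (ω₁ ω₂ : ℂ) {s' k s n : ℕ} (t : Fin s' → ℂ) (p : Fin k → ℂ) (u : Fin s → ℂ)
    (v : Fin n → ℂ) : Prop :=
  (∀ j, ∀ a b : ℤ, v j ≠ a * ω₁ + b * ω₂) ∧
  AlgebraicIndependent (IntermediateField.adjoin ℚ
      ((bigField ω₁ ω₂ t p : Set ℂ) ∪ Set.range (Fin.append u v)))
    (Sum.elim (fun j => Complex.exp (u j))
      (Sum.elim (fun j => wp ω₁ ω₂ (v j)) (fun j => zt ω₁ ω₂ (v j)))) ∧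
  (∀ d, HasTrdeg (bigField ω₁ ω₂ t p) d →
    HasTrdeg (bigField ω₁ ω₂ (Fin.append t u) (Fin.append p v)) (d + s + 2 * n)) ∧
  (Q1 ω₁ ω₂ t p → Q1 ω₁ ω₂ (Fin.append t u) (Fin.append p v))

/-- The conclusion at `u`, `v` for one lattice whose invariant `j` is in `F = cl S`: the elements of
`F` in the span of `t` are in the span of `u`, `t₀`, `2πi`, those of `ω₁ F` in the `k`-span of `p` are in
the `k`-span of `v`, `p₀`, `ω₁`. -/
def CloQ (cl : Set ℂ → IntermediateField ℚ ℂ) (ω₁ ω₂ : ℂ) {s n : ℕ} (u : Fin s → ℂ)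
    (v : Fin n → ℂ) : Prop :=
  ∀ S : Set ℂ, S.Countable → jInv ω₁ ω₂ ∈ cl S →
  ∀ (s' k : ℕ) (t : Fin s' → ℂ) (p : Fin k → ℂ) (d d' : ℕ) (t₀ : Fin d → ℂ) (p₀ : Fin d' → ℂ),
    InnT (cl S) t (Fin.append u t₀) → InnK (cl S) ω₁ ω₂ p (Fin.append v p₀) →
  ∀ (ρ : ℕ) (y : Fin ρ → ℂ), (∀ i, IsAlgebraic (bigField ω₁ ω₂ t p) (y i)) →
    (∀ i, y i ∉ cl (S ∪ y '' {j | j < i})) →
  ∀ R : ℕ, R = max ρ (min 1 (modDim (cl S) t + modDim2 (cl S) ω₁ ω₂ p)) →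
    ((open Classical in if IsCM ω₁ ω₂ then 0 else 2) + d + 2 * d' ≤ R → Q1 ω₁ ω₂ t p) ∧
    ∀ N : ℕ, N + d + 2 * d' ≤ tDim t + 2 + kDim2 ω₁ ω₂ p + R → HasTrdeg (bigField ω₁ ω₂ t p) N

/-! ## Rich and poor spaces -/

/-- The `ℚ`-space `V` is nonzero and stable under the multiplication by a number field of degree at
least `n₀`, or it contains the products `a_l x_i` of `M` numbers `a_l` of finite type `Q` and `n₀`
numbers `x_i`, both independent over `ℚ`, with the property `C a x`. -/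
def RichS (Q M n₀ : ℕ) (V : Submodule ℚ ℂ) (C : (Fin M → ℂ) → (Fin n₀ → ℂ) → Prop) : Prop :=
  (V ≠ ⊥ ∧ ∃ L : IntermediateField ℚ ℂ, FiniteDimensional ℚ L ∧ n₀ ≤ Module.finrank ℚ L ∧
    ∀ l ∈ L, ∀ y ∈ V, l * y ∈ V) ∨
  ∃ (a : Fin M → ℂ) (x : Fin n₀ → ℂ), S.FT Q a ∧ LinearIndependent ℚ a ∧
    LinearIndependent ℚ x ∧ (∀ l i, a l * x i ∈ V) ∧ C a x

/-- The condition for elliptic points: `j` is algebraic and `a` is independent over `k`, or `a` is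
independent over all fields of endomorphisms and `x` has a measure of linear independence. -/
def CondE (Q : ℕ) (ω₁ ω₂ : ℂ) {M n₀ : ℕ} (a : Fin M → ℂ) (x : Fin n₀ → ℂ) : Prop :=
  (IsAlgebraic ℚ (jInv ω₁ ω₂) ∧ KIndep ω₁ ω₂ a) ∨
  ((∀ η₁ η₂ : ℂ, (η₂ / η₁).im ≠ 0 → KIndep η₁ η₂ a) ∧ S.MS Q x)

/-- The exponentials of the elements of `U` generate a field of transcendence degree `< T`, and `U`
contains no rich subspace. -/
def PoorT (Q M n₀ T : ℕ) (U : Submodule ℚ ℂ) : Prop :=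
  ¬ HasTrdeg (IntermediateField.adjoin ℚ {y | ∃ x ∈ U, y = Complex.exp x}) T ∧
  ∀ V ≤ U, ¬ RichS Q M n₀ V fun _ _ => True

/-- The values `ω₁² ℘(x)` at the elements of `U` generate a field of transcendence degree `< T`, and
`U` contains no rich subspace. -/
def PoorE (Q M n₀ T : ℕ) (ω₁ ω₂ : ℂ) (U : Submodule ℚ ℂ) : Prop :=
  ¬ HasTrdeg (IntermediateField.adjoin ℚ
    {y | ∃ x ∈ U, (∀ a b : ℤ, x ≠ a * ω₁ + b * ω₂) ∧ y = ω₁ ^ 2 * wp ω₁ ω₂ x}) T ∧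
  ∀ V ≤ U, ¬ RichS Q M n₀ V (CondE Q ω₁ ω₂)

/-- The numbers `u_j` are linearly independent over `k` modulo `U`. -/
def IndMod (k : Set ℂ) {s : ℕ} (u : Fin s → ℂ) (U : Submodule ℚ ℂ) : Prop :=
  ∀ c : Fin s → ℂ, (∀ j, c j ∈ k) → ∑ j, c j * u j ∈ U → c = 0

/-! ## Families of polynomials -/

/-- No combination of the polynomials `R_j` with coefficients in `k` is constant, except the trivial
one. -/
def NoConst' (k : Set ℂ) {s q : ℕ} (R : Fin s → MvPolynomial (Fin q) ℂ) : Prop :=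
  ∀ c : Fin s → ℂ, (∀ j, c j ∈ k) → ∀ a : ℂ,
    ∑ j, MvPolynomial.C (c j) * R j = MvPolynomial.C a → c = 0

end Pool.Agent.Work.MP_8da9ea_nt.FR
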