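import Pool.Agent.Work.MP_8da9ea_nt.FR.FinB

/-!
# Full rank for spaces stable under a large number field: the final theorem
-/

set_option autoImplicit false

namespace Pool.Agent.Work.MP_8da9ea_nt.FR

open Pool.Agent.Work.MP_8da9ea_nt.EB Pool.Agent.Work.MP_327059_nt.GL Pool.Agent.Work.MP_8da9ea_nt.S
  Pool.Agent.Work.MP_8da9ea_nt.EC Pool.Agent.Work.MP_8da9ea_nt.TG Pool.Agent.ED

open FinA FinB in
/-- **The final theorem**, from the three main statements. -/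
theorem main (hT : S_FRTor) (hM : S_FRMain) (hV : S_FRMainV) (hInd : S_IndV) :
    ∃ cl : Set ℂ → IntermediateField ℚ ℂ,
      (∀ S : Set ℂ, S ⊆ cl S) ∧ (∀ S T : Set ℂ, S ⊆ cl T → cl S ≤ cl T) ∧
      (∀ S x, x ∈ cl S → ∃ T : Finset ℂ, (T : Set ℂ) ⊆ S ∧ x ∈ cl (T : Set ℂ)) ∧
      (∀ S, S.Countable → (cl S : Set ℂ).Countable) ∧
      (∀ S x, IsAlgebraic (cl S) x → x ∈ cl S) ∧
      (∀ S, ∀ ω₁ ∈ cl S, ∀ ω₂ ∈ cl S, ∀ (s n : ℕ) (t : Fin s → ℂ) (p : Fin n → ℂ),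
        (∀ l, t l ∈ cl S) → (∀ i, p i ∈ cl S) → bigField ω₁ ω₂ t p ≤ cl S) ∧
      (∀ S ω₁ ω₂, (ω₂ / ω₁).im ≠ 0 → (jInv ω₁ ω₂ ∈ cl S ↔ ω₂ / ω₁ ∈ cl S)) ∧
      ∀ N s n q : ℕ, 5 ≤ N → ∃ n₀ : ℕ, ∀ L : IntermediateField ℚ ℂ, FiniteDimensional ℚ L →
        2 * (N + s + 2 * n + q + 2) ≤ Module.finrank ℚ L →
        ∀ ν : ℕ, n₀ ≤ ν → ∀ x : Fin ν → ℂ, LinearIndependent ℚ x → Stab L x →
        ∀ (β : Fin s → Fin q → ℂ) (β' : Fin n → Fin q → ℂ), (∀ j i, β j i ∈ L) →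
          (∀ j i, β' j i ∈ L) → LinearIndependent ℚ β →
          (Gen x q (s + q) fun z => ∀ u : Fin s → ℂ, (∀ j, u j = ∑ i, β j i * z i) →
            ∀ S : Set ℂ, S.Countable → ∀ ω₁ ω₂ : ℂ, (ω₂ / ω₁).im ≠ 0 → jInv ω₁ ω₂ ∉ cl S →
            ∀ (s' k : ℕ) (t : Fin s' → ℂ) (p : Fin k → ℂ) (d : ℕ) (t₀ : Fin d → ℂ),
              InnT (cl S) t (Fin.append u t₀) →
            ∀ (ρ : ℕ) (y : Fin ρ → ℂ), (∀ i, IsAlgebraic (bigField ω₁ ω₂ t p) (y i)) →
              (∀ i, y i ∉ cl (S ∪ y '' {j | j < i})) →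
              (d ≤ max 1 ρ → Q1 ω₁ ω₂ t p) ∧
              ∀ N : ℕ, N + d ≤ tDim t + 4 + kDim2 ω₁ ω₂ p + max 1 ρ →
                HasTrdeg (bigField ω₁ ω₂ t p) N) ∧
          ∀ ω₁ ω₂ : ℂ, (ω₂ / ω₁).im ≠ 0 →
            (0 < n → (IsAlgebraic ℚ (jInv ω₁ ω₂) ∨ n₀ ≤ Module.finrank ℚ L) ∧
              (∀ g, InK ω₁ ω₂ g → g ∈ L) ∧ KRows ω₁ ω₂ β') →
            (∀ (s' k : ℕ) (t : Fin s' → ℂ) (p : Fin k → ℂ),
              ¬ HasTrdeg (bigField ω₁ ω₂ t p) (N + 1) →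
              Gen x q (s + 2 * n + q) fun z => ∀ (u : Fin s → ℂ) (v : Fin n → ℂ),
                (∀ j, u j = ∑ i, β j i * z i) → (∀ j, v j = ∑ i, β' j i * z i) →
                (∀ j, ∀ a b : ℤ, v j ≠ a * ω₁ + b * ω₂) ∧
                AlgebraicIndependent (IntermediateField.adjoin ℚ
                    ((bigField ω₁ ω₂ t p : Set ℂ) ∪ Set.range z))
                  (Sum.elim (fun j => Complex.exp (u j))
                    (Sum.elim (fun j => wp ω₁ ω₂ (v j)) (fun j => zt ω₁ ω₂ (v j)))) ∧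
                (∀ d, HasTrdeg (bigField ω₁ ω₂ t p) d →
                  HasTrdeg (bigField ω₁ ω₂ (Fin.append t u) (Fin.append p v))
                    (d + s + 2 * n)) ∧
                (Q1 ω₁ ω₂ t p → Q1 ω₁ ω₂ (Fin.append t u) (Fin.append p v))) ∧
            (Gen x q (s + 2 * n + q) fun z => ∀ (u : Fin s → ℂ) (v : Fin n → ℂ),
              (∀ j, u j = ∑ i, β j i * z i) → (∀ j, v j = ∑ i, β' j i * z i) →
              ∀ S : Set ℂ, S.Countable → jInv ω₁ ω₂ ∈ cl S →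
              ∀ (s' k : ℕ) (t : Fin s' → ℂ) (p : Fin k → ℂ) (d d' : ℕ) (t₀ : Fin d → ℂ)
                (p₀ : Fin d' → ℂ),
                InnT (cl S) t (Fin.append u t₀) → InnK (cl S) ω₁ ω₂ p (Fin.append v p₀) →
              ∀ (ρ : ℕ) (y : Fin ρ → ℂ), (∀ i, IsAlgebraic (bigField ω₁ ω₂ t p) (y i)) →
                (∀ i, y i ∉ cl (S ∪ y '' {j | j < i})) →
              ∀ R : ℕ, R = max ρ (min 1 (modDim (cl S) t + modDim2 (cl S) ω₁ ω₂ p)) →
                ((open Classical in if IsCM ω₁ ω₂ then 0 else 2) + d + 2 * d' ≤ R →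
                  Q1 ω₁ ω₂ t p) ∧
                ∀ N : ℕ, N + d + 2 * d' ≤ tDim t + 2 + kDim2 ω₁ ω₂ p + R →
                  HasTrdeg (bigField ω₁ ω₂ t p) N) := by
  classical
  refine ⟨CD.cl, CD.subset_cl, fun S T h => CD.cl_min (CD.closed_cl T) h, CD.prf_ClF, CD.prf_ClC,
    fun S x => (CD.closed_cl S).alg x, fun S ω₁ h1 ω₂ h2 s n t p ht hp =>
      CD.closed_big (CD.closed_cl S) h1 h2 ht hp,
    fun S ω₁ ω₂ him => CD.closed_jiff (CD.closed_cl S) him, ?_⟩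
  intro N s n q hN5
  obtain ⟨n₁, hn₁⟩ := hT N s q
  obtain ⟨n₂, hn₂⟩ := uni hM hV N s n q
  refine ⟨max n₁ n₂, fun L hL hdeg ν hν x hx hS β β' hβ hβ' hβi => ⟨?_, ?_⟩⟩
  · -- generic lattices
    set K₁ := IntermediateField.adjoin ℚ {2 * (Real.pi : ℂ) * Complex.I} with hK₁
    have hc : (K₁ : Set ℂ).Countable := by
      have : Countable K₁ := countable_adjoin _ (Set.countable_singleton _)
      exact Set.countable_coe_iff.1 this
    have hnt : ¬ HasTrdeg K₁ (N + 1) := by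
      refine not_trdeg (N := 1) (by omega) (fun _ => 2 * (Real.pi : ℂ) * Complex.I) ?_
      intro y hy
      have h1 : Set.range (fun _ : Fin 1 => 2 * (Real.pi : ℂ) * Complex.I) =
          {2 * (Real.pi : ℂ) * Complex.I} := Set.range_const
      rw [h1]
      exact isAlgebraic_algebraMap (⟨y, hy⟩ : K₁)
    obtain ⟨P, hP, hPd, hw⟩ := hn₁ L hL (by omega) ν ((le_max_left _ _).trans hν) x hx hS 1
      one_ne_zero (CD.acl K₁) (countable_acl' hc) (acl_acl _) (not_trdeg_acl hnt) β hβ hβi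
    refine ⟨P, hP, hPd, fun w hwP u hu S hSc ω₁ ω₂ him hj s' k t p d t₀ hI ρ y hy hyc => ?_⟩
    have h2 := hw w hwP _ (fun i => rfl)
    simp only [one_mul, ← hu] at h2
    exact gen_tor u (indep_mono ((CD.le_acl _).trans (le_adz _ _)) h2) hSc him hj t p d t₀ hI ρ y
      hy hyc
  · intro ω₁ ω₂ him hn
    have h1 : ω₁ ≠ 0 := by
      rintro rfl
      simp at him
    have hper : ∀ K : IntermediateField ℚ ℂ,
        K = bigField 1 (ω₂ / ω₁) (![] : Fin 0 → ℂ) (![] : Fin 0 → ℂ) →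
          ¬ HasTrdeg K (N + 1) := by
      rintro K rfl
      obtain ⟨θ, hθ⟩ := SF.per_theta ω₁ ω₂ him
      exact not_trdeg hN5 θ hθ
    rcases Nat.eq_zero_or_pos n with rfl | hn0
    · refine ⟨fun s' k t p hNt => ?_, ?_⟩
      · obtain ⟨P, hP, hPd, hw⟩ := hn₁ L hL (by omega) ν ((le_max_left _ _).trans hν) x hx hS 1
          one_ne_zero (CD.acl (bigField ω₁ ω₂ t p)) (countable_acl' (I_FinalZ.big_countable _ _ _ _))
          (acl_acl _) (not_trdeg_acl hNt) β hβ hβi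
        refine ⟨P, hP, by omega, fun w hwP u v hu _ => ?_⟩
        have h2 := hw w hwP _ (fun i => rfl)
        simp only [one_mul, ← hu] at h2
        exact one_tor ω₁ ω₂ _ u v t p h2
      · obtain ⟨P, hP, hPd, hw⟩ := hn₁ L hL (by omega) ν ((le_max_left _ _).trans hν) x hx hS 1
          one_ne_zero (CD.acl (bigField 1 (ω₂ / ω₁) (![] : Fin 0 → ℂ) (![] : Fin 0 → ℂ)))
          (countable_acl' (I_FinalZ.big_countable _ _ _ _))
          (acl_acl _) (not_trdeg_acl (hper _ rfl)) β hβ hβi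
        refine ⟨P, hP, by omega, fun w hwP u v hu _ => ?_⟩
        have h2 := hw w hwP _ (fun i => rfl)
        simp only [one_mul, ← hu] at h2
        exact clo_tor him u v (indep_mono ((CD.le_acl _).trans (le_adz _ _)) h2)
    · obtain ⟨hj, hkL, hKR⟩ := hn hn0
      obtain ⟨τ, hNF⟩ := exists_nf him
      have happ := fun K₀ hc ha h2 h3 hp ht => app hn₂ hNF L hL hdeg
        (hj.imp_right ((le_max_right _ _).trans)) hkL ((le_max_right _ _).trans hν)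
        x hx hS K₀ hc ha h2 h3 hp ht β hβ hβi β' hβ' hKR
      refine ⟨fun s' k t p hNt => ?_, ?_⟩
      · obtain ⟨P, hP, hPd, hw⟩ := happ (CD.acl (bigField ω₁ ω₂ t p))
          (countable_acl' (I_FinalZ.big_countable _ _ _ _)) (acl_acl _) (hNF.g2 t p) (hNF.g3 t p)
          (hNF.per t p) (not_trdeg_acl hNt)
        refine ⟨P, hP, hPd, fun w hwP u v hu hv => ?_⟩
        obtain ⟨h2, h3⟩ := hw w hwP
        simp only [← hu, ← hv] at h2 h3
        exact one_ell hNF _ u v t p h2 h3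
      · have hg2 := hNF.one.g2 (![] : Fin 0 → ℂ) (![] : Fin 0 → ℂ)
        have hg3 := hNF.one.g3 (![] : Fin 0 → ℂ) (![] : Fin 0 → ℂ)
        have hp := hNF.one.per (![] : Fin 0 → ℂ) (![] : Fin 0 → ℂ)
        obtain ⟨P, hP, hPd, hw⟩ := happ
          (CD.acl (bigField 1 (ω₂ / ω₁) (![] : Fin 0 → ℂ) (![] : Fin 0 → ℂ)))
          (countable_acl' (I_FinalZ.big_countable _ _ _ _)) (acl_acl _) hg2 hg3 hp
          (not_trdeg_acl (hper _ rfl))
        refine ⟨P, hP, hPd, fun w hwP u v hu hv => ?_⟩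
        obtain ⟨h2, h3⟩ := hw w hwP
        simp only [← hu, ← hv] at h2 h3
        have hle := le_adz (CD.acl (bigField 1 (ω₂ / ω₁) (![] : Fin 0 → ℂ) (![] : Fin 0 → ℂ)))
          (fun i => (∑ a, (w i a : ℂ) * x a) / ω₁)
        have hβK : ∀ b ∈ L, b ∈ CD.acl (bigField 1 (ω₂ / ω₁) (![] : Fin 0 → ℂ)
            (![] : Fin 0 → ℂ)) := by
          intro b hb
          have h4 : IsAlgebraic ℚ (⟨b, hb⟩ : L) := Algebra.IsAlgebraic.isAlgebraic _
          have h5 : IsAlgebraic ℚ b := h4.algebraMap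
          exact CD.mem_acl.2 (h5.extendScalars (algebraMap ℚ _).injective)
        refine clo_ell hInd hNF him u v _ (hle hg2) (hle hg3)
          ⟨hle hp.mu, hle hp.tau, hle hp.et, hle hp.kap⟩ ?_ h2 h3
        intro j
        rw [hv j, Finset.sum_div]
        refine sum_mem fun i _ => ?_
        rw [mul_div_assoc]
        exact mul_mem (hle (hβK _ (hβ' j i)))
          (IntermediateField.subset_adjoin _ _ (Or.inr ⟨i, rfl⟩))

end Pool.Agent.Work.MP_8da9ea_nt.FR
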