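import Pool.Agent.Work.MP_8da9ea_nt.FR.FinDefs
import Pool.Agent.Work.MP_8da9ea_nt.FR.StmtsV
import Pool.Agent.Work.MP_8da9ea_nt.SF.Parts
import Pool.Agent.Work.MP_8da9ea_nt.EC.Asm
import Pool.Agent.Work.MP_8da9ea_nt.EB.Final
import Pool.Agent.Work.MP_8da9ea_nt.CH.Asm

/-!
# Full rank for spaces stable under a large number field: auxiliary lemmas for the final theorem
-/

set_option autoImplicit false

namespace Pool.Agent.Work.MP_8da9ea_nt.FR

open Pool.Agent.Work.MP_8da9ea_nt.EB Pool.Agent.Work.MP_327059_nt.GL Pool.Agent.Work.MP_8da9ea_nt.S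
  Pool.Agent.Work.MP_8da9ea_nt.EC Pool.Agent.Work.MP_8da9ea_nt.TG Pool.Agent.ED

namespace FinA

/-- The field `k` has degree at most `2`. -/
theorem finrank_kf {τ : ℂ} (hτ : 0 < τ.im) :
    FiniteDimensional ℚ (kf τ) ∧ Module.finrank ℚ (kf τ) ≤ 2 := by
  have hle : (kf τ).toSubalgebra.toSubmodule ≤ Submodule.span ℚ (Set.range ![(1 : ℂ), τ]) := by
    intro x hx
    have hx' : IsE τ x := ((x_Kf τ hτ).2.1 x).1 hx
    obtain ⟨N, hN, h1, -⟩ := hx'
    obtain ⟨m, n, h2⟩ := mem_Lam.1 h1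
    have hN' : (N : ℂ) ≠ 0 := by exact_mod_cast hN
    have h3 : x = ((m : ℚ) / N : ℚ) • (1 : ℂ) + ((n : ℚ) / N : ℚ) • τ := by
      rw [Rat.smul_def, Rat.smul_def]
      push_cast
      field_simp
      linear_combination h2
    rw [h3]
    refine Submodule.add_mem _ (Submodule.smul_mem _ _ ?_) (Submodule.smul_mem _ _ ?_)
    · exact Submodule.subset_span ⟨0, rfl⟩
    · exact Submodule.subset_span ⟨1, rfl⟩
  have hfd : FiniteDimensional ℚ (Submodule.span ℚ (Set.range ![(1 : ℂ), τ])) :=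
    FiniteDimensional.span_of_finite ℚ (Set.finite_range _)
  have hfd2 : FiniteDimensional ℚ (kf τ).toSubalgebra.toSubmodule :=
    Submodule.finiteDimensional_of_le hle
  refine ⟨hfd2, ?_⟩
  have h4 := Submodule.finrank_mono hle
  have h5 := finrank_range_le_card (R := ℚ) ![(1 : ℂ), τ]
  rw [Fintype.card_fin] at h5
  exact h4.trans h5

/-- Elements of `L` which are independent over `k`. -/
theorem exists_kli {τ : ℂ} (hτ : 0 < τ.im) (L : IntermediateField ℚ ℂ) [FiniteDimensional ℚ L]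
    (hk : ∀ g, IsE τ g → g ∈ L) (M : ℕ) (hM : 2 * M ≤ Module.finrank ℚ L) :
    ∃ a : Fin M → ℂ, (∀ i, a i ∈ L) ∧ KLI τ a := by
  classical
  obtain ⟨hfd, h2⟩ := finrank_kf hτ
  have hkL : kf τ ≤ L := IntermediateField.adjoin_le_iff.2 fun g hg => hk g hg
  set L' : IntermediateField (kf τ) ℂ := IntermediateField.extendScalars hkL with hL'
  have hmem : ∀ y : ℂ, y ∈ L' ↔ y ∈ L := fun y => Iff.rfl
  have e : L' ≃ₗ[ℚ] L :=
    { toFun := fun y => ⟨y.1, y.2⟩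
      map_add' := fun _ _ => rfl
      map_smul' := fun c y => by
        apply Subtype.ext
        rw [Rat.smul_def, Rat.smul_def]
        push_cast
        rfl
      invFun := fun y => ⟨y.1, y.2⟩
      left_inv := fun _ => rfl
      right_inv := fun _ => rfl }
  have hfd' : FiniteDimensional ℚ L' := e.symm.finiteDimensional
  have hfd'' : FiniteDimensional (kf τ) L' := FiniteDimensional.right ℚ (kf τ) L'
  have h3 := Module.finrank_mul_finrank ℚ (kf τ) L'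
  have h4 : Module.finrank ℚ L' = Module.finrank ℚ L := e.finrank_eq
  have h5 : M ≤ Module.finrank (kf τ) L' := by
    by_contra hc
    push Not at hc
    have h6 : Module.finrank ℚ (kf τ) * Module.finrank (kf τ) L' ≤ 2 * (M - 1) :=
      Nat.mul_le_mul h2 (by omega)
    omega
  obtain ⟨f, hf⟩ := exists_linearIndependent_of_le_finrank h5
  refine ⟨fun i => (f i : ℂ), fun i => (f i).2, fun g hg h0 => ?_⟩
  have h7 : ∀ j, g j ∈ kf τ := fun j => ((x_Kf τ hτ).2.1 _).2 (hg j)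
  rw [Fintype.linearIndependent_iff] at hf
  have h8 := hf (fun j => ⟨g j, h7 j⟩) (by
    apply Subtype.ext
    push_cast
    rw [← h0]
    exact Finset.sum_congr rfl fun i _ => rfl)
  funext j
  exact congrArg Subtype.val (h8 j)


/-- Upper bounds for the transcendence degree. -/
theorem not_trdeg {K : IntermediateField ℚ ℂ} {N M : ℕ} (hNM : N ≤ M) (θ : Fin N → ℂ)
    (hθ : ∀ x ∈ K, IsAlgebraic (IntermediateField.adjoin ℚ (Set.range θ)) x) :
    ¬ HasTrdeg K (M + 1) := by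
  rintro ⟨x, hx, hxi⟩
  have h := pr_TrCount (Fin (M + 1)) (Fin N) x θ hxi (fun i => hθ _ (hx i))
  rw [Fintype.card_fin, Fintype.card_fin] at h
  omega

theorem countable_acl' {B : IntermediateField ℚ ℂ} (hB : (B : Set ℂ).Countable) :
    ((CD.acl B : IntermediateField ℚ ℂ) : Set ℂ).Countable := by
  have : Countable B := hB.to_subtype
  have h1 : {x : ℂ | IsAlgebraic B x}.Countable := Algebraic.countable B ℂ
  have h2 : ((CD.acl B : IntermediateField ℚ ℂ) : Set ℂ) = {x : ℂ | IsAlgebraic B x} := by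
    ext x
    exact CD.mem_acl
  rw [h2]
  exact h1

theorem acl_acl (B : IntermediateField ℚ ℂ) : ACl (CD.acl B) := CD.AC_acl B

theorem not_trdeg_acl {B : IntermediateField ℚ ℂ} {M : ℕ} (h : ¬ HasTrdeg B M) :
    ¬ HasTrdeg (CD.acl B) M := fun h1 => h (CD.hasTrdeg_acl h1)

/-- Scaling an algebraically independent family. -/
theorem indep_smul {K : IntermediateField ℚ ℂ} {ι : Type} {x : ι → ℂ}
    (hx : AlgebraicIndependent K x) (c : ι → ℂ) (hc : ∀ i, c i ∈ K) (hc0 : ∀ i, c i ≠ 0) :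
    AlgebraicIndependent K (fun i => c i * x i) := by
  classical
  set c' : ι → K := fun i => ⟨c i, hc i⟩ with hc'
  have hc'0 : ∀ i, c' i ≠ 0 := by
    intro i h
    exact hc0 i (congrArg Subtype.val h)
  set f : MvPolynomial ι K →ₐ[K] MvPolynomial ι K :=
    MvPolynomial.aeval (fun i => MvPolynomial.C (c' i) * MvPolynomial.X i) with hf
  set g : MvPolynomial ι K →ₐ[K] MvPolynomial ι K :=
    MvPolynomial.aeval (fun i => MvPolynomial.C (c' i)⁻¹ * MvPolynomial.X i) with hg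
  have hgf : ∀ P, g (f P) = P := by
    intro P
    have h1 : g.comp f = AlgHom.id K _ := by
      apply MvPolynomial.algHom_ext
      intro i
      rw [AlgHom.comp_apply, hf, MvPolynomial.aeval_X, map_mul, hg, MvPolynomial.aeval_X,
        ← MvPolynomial.algebraMap_eq, AlgHom.commutes, MvPolynomial.algebraMap_eq, ← mul_assoc,
        ← MvPolynomial.C_mul, mul_inv_cancel₀ (hc'0 i), MvPolynomial.C_1, one_mul,
        AlgHom.id_apply]
    have h2 := congrArg (fun F : MvPolynomial ι K →ₐ[K] MvPolynomial ι K => F P) h1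
    exact h2
  have hinj : Function.Injective f := fun P Q h => by rw [← hgf P, ← hgf Q, h]
  have h3 : (MvPolynomial.aeval (fun i => c i * x i) : MvPolynomial ι K →ₐ[K] ℂ) =
      (MvPolynomial.aeval x).comp f := by
    apply MvPolynomial.algHom_ext
    intro i
    rw [AlgHom.comp_apply, hf, MvPolynomial.aeval_X, MvPolynomial.aeval_X, map_mul,
      MvPolynomial.aeval_X, ← MvPolynomial.algebraMap_eq, AlgHom.commutes]
    rfl
  unfold AlgebraicIndependent at hx ⊢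
  rw [h3]
  exact hx.comp hinj

/-- The values at the points. -/
noncomputable def vals (ω₁ ω₂ : ℂ) {s n : ℕ} (u : Fin s → ℂ) (v : Fin n → ℂ) :
    Fin s ⊕ (Fin n ⊕ Fin n) → ℂ :=
  Sum.elim (fun j => Complex.exp (u j))
    (Sum.elim (fun j => wp ω₁ ω₂ (v j)) (fun j => zt ω₁ ω₂ (v j)))

/-- The lattice in normal form. -/
structure NF (τ ω₁ ω₂ : ℂ) : Prop where
  im : 0 < τ.im
  ne : ω₁ ≠ 0
  om : ω₂ = ω₁ * τ ∨ ω₂ = -(ω₁ * τ)
  iff : ∀ g, InK ω₁ ω₂ g ↔ IsE τ g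

theorem exists_nf {ω₁ ω₂ : ℂ} (him : (ω₂ / ω₁).im ≠ 0) : ∃ τ, NF τ ω₁ ω₂ := by
  have h1 : ω₁ ≠ 0 := by
    rintro rfl
    simp at him
  rcases lt_or_gt_of_ne him with hlt | hgt
  · exact ⟨-(ω₂ / ω₁), by simpa using hlt, h1, Or.inr (by field_simp),
      fun g => (inK_iff h1 g).trans (I_AlgL.IsE_neg _ g).symm⟩
  · exact ⟨ω₂ / ω₁, hgt, h1, Or.inl (by field_simp), fun g => inK_iff h1 g⟩

theorem NF.jalg {τ ω₁ ω₂ : ℂ} (h : NF τ ω₁ ω₂) (hj : IsAlgebraic ℚ (jInv ω₁ ω₂)) :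
    IsAlgebraic ℚ (jInv 1 τ) := by
  rw [← jInv_smul h.ne τ]
  rcases h.om with hω | hω
  · rwa [← hω]
  · rw [← jInv_neg, ← hω]
    exact hj

theorem NF.big {τ ω₁ ω₂ : ℂ} (h : NF τ ω₁ ω₂) {s k : ℕ} (t : Fin s → ℂ) (p : Fin k → ℂ) :
    bigField ω₁ ω₂ t p = bigField ω₁ (ω₁ * τ) t p := by
  rcases h.om with h | h
  · rw [h]
  · rw [h, bigField_neg]

theorem NF.g2 {τ ω₁ ω₂ : ℂ} (h : NF τ ω₁ ω₂) {s k : ℕ} (t : Fin s → ℂ) (p : Fin k → ℂ) :
    gg2 τ ∈ CD.acl (bigField ω₁ ω₂ t p) := by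
  rw [h.big]
  exact CD.le_acl _ (mul_mem (ofNat_mem (bigField ω₁ (ω₁ * τ) t p) 60) (big_gk4 t p h.ne))

theorem NF.g3 {τ ω₁ ω₂ : ℂ} (h : NF τ ω₁ ω₂) {s k : ℕ} (t : Fin s → ℂ) (p : Fin k → ℂ) :
    gg3 τ ∈ CD.acl (bigField ω₁ ω₂ t p) := by
  rw [h.big]
  exact CD.le_acl _ (mul_mem (ofNat_mem (bigField ω₁ (ω₁ * τ) t p) 140) (big_gk6 t p h.ne))

theorem NF.per {τ ω₁ ω₂ : ℂ} (h : NF τ ω₁ ω₂) {s k : ℕ} (t : Fin s → ℂ) (p : Fin k → ℂ) :
    PerK τ 1 (CD.acl (bigField ω₁ ω₂ t p)) where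
  mu := one_mem _
  tau := CD.le_acl _ (by rw [h.big]; exact big_tau t p h.ne)
  et := CD.le_acl _ (by rw [h.big]; exact big_et t p h.ne)
  kap := CD.le_acl _ (by rw [h.big]; exact big_pi t p h.ne h.im)

/-- The same for the lattice `ℤ + ℤ τ`. -/
theorem NF.one {τ ω₁ ω₂ : ℂ} (h : NF τ ω₁ ω₂) : NF τ 1 (ω₂ / ω₁) where
  im := h.im
  ne := one_ne_zero
  om := by
    have := h.ne
    rcases h.om with h' | h'
    · left
      rw [h']
      field_simp
    · right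
      rw [h']
      field_simp
  iff g := by
    rw [inK_iff one_ne_zero, div_one, ← inK_iff h.ne]
    exact h.iff g

/-- The two main statements together: for every lattice. -/
def Uni (N s n q n₀ : ℕ) : Prop := ∀ τ : ℂ, 0 < τ.im →
  ∀ L : IntermediateField ℚ ℂ, FiniteDimensional ℚ L →
  2 * (N + s + 2 * n + q + 2) ≤ Module.finrank ℚ L → (∀ g, IsE τ g → g ∈ L) →
  (IsAlgebraic ℚ (jInv 1 τ) ∨ n₀ ≤ Module.finrank ℚ L) →
  ∀ ν : ℕ, n₀ ≤ ν → ∀ x : Fin ν → ℂ, LinearIndependent ℚ x → Stab L x →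
  ∀ ω : ℂ, ω ≠ 0 → ∀ K₀ : IntermediateField ℚ ℂ, (K₀ : Set ℂ).Countable → ACl K₀ →
    gg2 τ ∈ K₀ → gg3 τ ∈ K₀ → PerK τ 1 K₀ → ¬ HasTrdeg K₀ (N + 1) →
  ∀ β : Fin s → Fin q → ℂ, (∀ j i, β j i ∈ L) → LinearIndependent ℚ β →
  ∀ β' : Fin n → Fin q → ℂ, (∀ j i, β' j i ∈ L) →
    (∀ g : Fin n → ℂ, (∀ j, IsE τ (g j)) → (∀ i, ∑ j, g j * β' j i = 0) → g = 0) →
  ∃ P : MvPolynomial (Fin q × Fin ν) ℂ, P ≠ 0 ∧ P.totalDegree ≤ s + 2 * n + q ∧
  ∀ w : Fin q → Fin ν → ℚ, MvPolynomial.eval (fun a => (w a.1 a.2 : ℂ)) P ≠ 0 →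
  ∀ z : Fin q → ℂ, (∀ i, z i = ∑ a, (w i a : ℂ) * x a) →
    (∀ j, ∑ i, β' j i * z i ∉ Lam τ) ∧
    AlgebraicIndependent (IntermediateField.adjoin ℚ ((K₀ : Set ℂ) ∪ Set.range z))
      (fm τ 1 (fun j => ω * ∑ i, β j i * z i) (fun j => ∑ i, β' j i * z i))

theorem uni (hM : S_FRMain) (hV : S_FRMainV) (N s n q : ℕ) : ∃ n₀, Uni N s n q n₀ := by
  obtain ⟨n₁, hn₁⟩ := hM N s n q
  obtain ⟨n₂, hn₂⟩ := hV N s n q
  refine ⟨max 1 (max n₁ n₂), ?_⟩
  intro τ hτ L hL hdeg hkE hj ν hν x hx hS ω hω K₀ hc ha h2 h3 hp ht β hβ hβi β' hβ' hβi'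
  rcases hj with hj | hj
  · obtain ⟨μ, hμ, hμa⟩ := Norm_pf τ hτ hj
    have hμK : μ ∈ K₀ := ha μ (hμa K₀ h2 h3)
    obtain ⟨P, hP, hPd, hw⟩ := hn₁ τ μ hμ L hL hkE (exists_kli hτ L hkE _ hdeg) ν
      (((le_max_left _ _).trans (le_max_right _ _)).trans hν) x hx hS ω hω K₀ hc ha
      ⟨hμK, hp.tau, hp.et, hp.kap⟩ ht β hβ hβi β' hβ' hβi'
    refine ⟨P, hP, hPd, fun w hwP z hz => ?_⟩
    obtain ⟨h4, h5⟩ := hw w hwP z hz
    refine ⟨h4, ?_⟩
    set K := IntermediateField.adjoin ℚ ((K₀ : Set ℂ) ∪ Set.range z) with hK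
    have hμK' : μ ∈ K := IntermediateField.subset_adjoin _ _ (Or.inl hμK)
    let c : Fin s ⊕ Fin n × Bool → ℂ :=
      Sum.elim (fun _ => 1) (fun o => if o.2 then μ⁻¹ else (μ ^ 2)⁻¹)
    have hcK : ∀ o, c o ∈ K := by
      rintro (a | ⟨a, b⟩)
      · exact one_mem _
      · cases b
        · exact inv_mem (pow_mem hμK' 2)
        · exact inv_mem hμK'
    have hc0 : ∀ o, c o ≠ 0 := by
      rintro (a | ⟨a, b⟩)
      · exact one_ne_zero
      · cases b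
        · exact inv_ne_zero (pow_ne_zero 2 hμ.mu)
        · exact inv_ne_zero hμ.mu
    have h6 := indep_smul h5 c hcK hc0
    have h7 : (fun o => c o * fm τ μ (fun j => ω * ∑ i, β j i * z i)
        (fun j => ∑ i, β' j i * z i) o) = fm τ 1 (fun j => ω * ∑ i, β j i * z i)
        (fun j => ∑ i, β' j i * z i) := by
      funext o
      have hμ0 := hμ.mu
      rcases o with a | ⟨a, b⟩
      · exact one_mul _
      · cases b
        · change (μ ^ 2)⁻¹ * xe τ μ (∑ i, β' a i * z i) = xe τ 1 (∑ i, β' a i * z i)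
          unfold xe
          field_simp
        · change μ⁻¹ * ze τ μ (∑ i, β' a i * z i) = ze τ 1 (∑ i, β' a i * z i)
          unfold ze
          field_simp
    rw [← h7]
    exact h6
  · exact hn₂ τ 1 L hL (((le_max_right _ _).trans (le_max_right _ _)).trans hj) hkE ν
      (lt_of_lt_of_le (by omega) (((le_max_left _ _)).trans hν)) x hx hS ω hω K₀ hc ha
      ⟨hτ, one_ne_zero, by rw [one_pow, one_mul]; exact h2, by rw [one_pow, one_mul]; exact h3⟩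
      hp ht β hβ hβi β' hβ' hβi'

/-- The main statement applied to a lattice. -/
theorem app {N s n q n₀ : ℕ} (hU : Uni N s n q n₀)
    {τ ω₁ ω₂ : ℂ} (h : NF τ ω₁ ω₂) (L : IntermediateField ℚ ℂ) (hL : FiniteDimensional ℚ L)
    (hdeg : 2 * (N + s + 2 * n + q + 2) ≤ Module.finrank ℚ L)
    (hj : IsAlgebraic ℚ (jInv ω₁ ω₂) ∨ n₀ ≤ Module.finrank ℚ L)
    (hkL : ∀ g, InK ω₁ ω₂ g → g ∈ L) {ν : ℕ} (hν : n₀ ≤ ν) (x : Fin ν → ℂ)
    (hx : LinearIndependent ℚ x) (hS : Stab L x) (K₀ : IntermediateField ℚ ℂ)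
    (hc : (K₀ : Set ℂ).Countable) (ha : ACl K₀) (h2 : gg2 τ ∈ K₀) (h3 : gg3 τ ∈ K₀)
    (hp : PerK τ 1 K₀) (ht : ¬ HasTrdeg K₀ (N + 1))
    (β : Fin s → Fin q → ℂ) (hβ : ∀ j i, β j i ∈ L) (hβi : LinearIndependent ℚ β)
    (β' : Fin n → Fin q → ℂ) (hβ' : ∀ j i, β' j i ∈ L) (hβi' : KRows ω₁ ω₂ β') :
    Gen x q (s + 2 * n + q) fun z =>
      (∀ j, (∑ i, β' j i * z i) / ω₁ ∉ Lam τ) ∧
      AlgebraicIndependent
        (IntermediateField.adjoin ℚ ((K₀ : Set ℂ) ∪ Set.range (fun i => z i / ω₁)))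
        (fm τ 1 (fun j => ∑ i, β j i * z i) (fun j => (∑ i, β' j i * z i) / ω₁)) := by
  have h1 := h.ne
  have hkE : ∀ g, IsE τ g → g ∈ L := fun g hg => hkL g ((h.iff g).2 hg)
  have hx' : LinearIndependent ℚ (fun i => x i / ω₁) := by
    rw [Fintype.linearIndependent_iff] at hx ⊢
    intro g hg
    apply hx g
    have h2 : ∑ i, g i • x i = (∑ i, g i • (x i / ω₁)) * ω₁ := by
      rw [Finset.sum_mul]
      refine Finset.sum_congr rfl fun i _ => ?_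
      rw [smul_mul_assoc, div_mul_cancel₀ _ h1]
    rw [h2, hg, zero_mul]
  have hS' : Stab L (fun i => x i / ω₁) := by
    intro l hl a
    have h2 := hS l hl a
    rw [Submodule.mem_span_range_iff_exists_fun] at h2 ⊢
    obtain ⟨c, hc⟩ := h2
    refine ⟨c, ?_⟩
    rw [← mul_div_assoc, ← hc, Finset.sum_div]
    exact Finset.sum_congr rfl fun i _ => (smul_div_assoc _ _ _).symm
  obtain ⟨P, hP, hPd, hw⟩ := hU τ h.im L hL hdeg hkE (hj.imp_left h.jalg) ν hν _ hx' hS' ω₁ h1 K₀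
    hc ha h2 h3 hp ht β hβ hβi β' hβ' (fun g hg h0 => hβi' g (fun j => (h.iff _).2 (hg j)) h0)
  refine ⟨P, hP, hPd, fun w hwP => ?_⟩
  obtain ⟨h3, h4⟩ := hw w hwP (fun i => (∑ a, (w i a : ℂ) * x a) / ω₁) (fun i => by
    rw [Finset.sum_div]
    exact Finset.sum_congr rfl fun a _ => by ring)
  have e1 : ∀ j, ∑ i, β' j i * ((∑ a, (w i a : ℂ) * x a) / ω₁) =
      (∑ i, β' j i * ∑ a, (w i a : ℂ) * x a) / ω₁ := by
    intro j
    rw [Finset.sum_div]
    exact Finset.sum_congr rfl fun i _ => by ring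
  have e2 : ∀ j, ω₁ * ∑ i, β j i * ((∑ a, (w i a : ℂ) * x a) / ω₁) =
      ∑ i, β j i * ∑ a, (w i a : ℂ) * x a := by
    intro j
    rw [Finset.mul_sum]
    refine Finset.sum_congr rfl fun i _ => ?_
    field_simp
  simp only [e1, e2] at h3 h4
  exact ⟨h3, h4⟩

end FinA

end Pool.Agent.Work.MP_8da9ea_nt.FR
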