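import Pool.Agent.Work.MP_8da9ea_nt.FR.FinStmt
import Pool.Agent.Work.MP_8da9ea_nt.EC.FinDefs

/-!
# Full rank for spaces stable under a large number field: definitions for the final theorem
-/

set_option autoImplicit false

namespace Pool.Agent.Work.MP_8da9ea_nt.FR

/-- The rows of `B` are linearly independent over the field `k = End ⊗ ℚ` of the lattice
`ℤ ω₁ + ℤ ω₂`. -/
def KRows (ω₁ ω₂ : ℂ) {n q : ℕ} (B : Fin n → Fin q → ℂ) : Prop :=
  ∀ g : Fin n → ℂ, (∀ j, InK ω₁ ω₂ (g j)) → (∀ i, ∑ j, g j * B j i = 0) → g = 0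

/-- `C z` holds for all points `z` of `V^q`, where `V` is the `ℚ`-span of the `x a`, whose
coordinates are not on a certain hypersurface of degree at most `D`. -/
def Gen {ν : ℕ} (x : Fin ν → ℂ) (q D : ℕ) (C : (Fin q → ℂ) → Prop) : Prop :=
  ∃ P : MvPolynomial (Fin q × Fin ν) ℂ, P ≠ 0 ∧ P.totalDegree ≤ D ∧
    ∀ w : Fin q → Fin ν → ℚ, MvPolynomial.eval (fun a => (w a.1 a.2 : ℂ)) P ≠ 0 →
      C (fun i => ∑ a, (w i a : ℂ) * x a)

end Pool.Agent.Work.MP_8da9ea_nt.FR
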