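import Pool.Agent.Work.MP_8da9ea_nt.EC.Defs

/-!
# Full rank for spaces stable under a large number field: the two main statements
-/

set_option autoImplicit false

namespace Pool.Agent.Work.MP_8da9ea_nt.FR

open Pool.Agent.Work.MP_8da9ea_nt.EB Pool.Agent.Work.MP_327059_nt.GL Pool.Agent.Work.MP_8da9ea_nt.S
  Pool.Agent.Work.MP_8da9ea_nt.EC

/-- The `ℚ`-span of the `x a` is stable under `L`. -/
def Stab (L : IntermediateField ℚ ℂ) {ν : ℕ} (x : Fin ν → ℂ) : Prop :=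
  ∀ l ∈ L, ∀ a, l * x a ∈ Submodule.span ℚ (Set.range x)

/-- **Main statement, toric points only.** -/
def S_FRTor : Prop := ∀ N s q : ℕ, ∃ n₀ : ℕ, ∀ L : IntermediateField ℚ ℂ, FiniteDimensional ℚ L →
  N + s + q + 2 ≤ Module.finrank ℚ L →
  ∀ ν : ℕ, n₀ ≤ ν → ∀ x : Fin ν → ℂ, LinearIndependent ℚ x → Stab L x →
  ∀ ω : ℂ, ω ≠ 0 → ∀ K₀ : IntermediateField ℚ ℂ, (K₀ : Set ℂ).Countable → ACl K₀ →
    ¬ HasTrdeg K₀ (N + 1) →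
  ∀ β : Fin s → Fin q → ℂ, (∀ j i, β j i ∈ L) → LinearIndependent ℚ β →
  ∃ P : MvPolynomial (Fin q × Fin ν) ℂ, P ≠ 0 ∧ P.totalDegree ≤ s + q ∧
  ∀ w : Fin q → Fin ν → ℚ, MvPolynomial.eval (fun a => (w a.1 a.2 : ℂ)) P ≠ 0 →
  ∀ z : Fin q → ℂ, (∀ i, z i = ∑ a, (w i a : ℂ) * x a) →
    AlgebraicIndependent (IntermediateField.adjoin ℚ ((K₀ : Set ℂ) ∪ Set.range z))
      (fun j => Complex.exp (ω * ∑ i, β j i * z i))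

/-- **Main statement.** -/
def S_FRMain : Prop := ∀ N s n q : ℕ, ∃ n₀ : ℕ, ∀ (τ μ : ℂ), Nrm τ μ →
  ∀ L : IntermediateField ℚ ℂ, FiniteDimensional ℚ L → (∀ g, IsE τ g → g ∈ L) →
  (∃ a : Fin (N + s + 2 * n + q + 2) → ℂ, (∀ i, a i ∈ L) ∧ KLI τ a) →
  ∀ ν : ℕ, n₀ ≤ ν → ∀ x : Fin ν → ℂ, LinearIndependent ℚ x → Stab L x →
  ∀ ω : ℂ, ω ≠ 0 → ∀ K₀ : IntermediateField ℚ ℂ, (K₀ : Set ℂ).Countable → ACl K₀ → PerK τ μ K₀ →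
    ¬ HasTrdeg K₀ (N + 1) →
  ∀ β : Fin s → Fin q → ℂ, (∀ j i, β j i ∈ L) → LinearIndependent ℚ β →
  ∀ β' : Fin n → Fin q → ℂ, (∀ j i, β' j i ∈ L) →
    (∀ g : Fin n → ℂ, (∀ j, IsE τ (g j)) → (∀ i, ∑ j, g j * β' j i = 0) → g = 0) →
  ∃ P : MvPolynomial (Fin q × Fin ν) ℂ, P ≠ 0 ∧ P.totalDegree ≤ s + 2 * n + q ∧
  ∀ w : Fin q → Fin ν → ℚ, MvPolynomial.eval (fun a => (w a.1 a.2 : ℂ)) P ≠ 0 →
  ∀ z : Fin q → ℂ, (∀ i, z i = ∑ a, (w i a : ℂ) * x a) →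
    (∀ j, ∑ i, β' j i * z i ∉ Lam τ) ∧
    AlgebraicIndependent (IntermediateField.adjoin ℚ ((K₀ : Set ℂ) ∪ Set.range z))
      (fm τ μ (fun j => ω * ∑ i, β j i * z i) (fun j => ∑ i, β' j i * z i))

end Pool.Agent.Work.MP_8da9ea_nt.FR
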