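import Pool.Agent.Work.MP_8da9ea_nt.FR.GA

/-!
# All tuples of a finite-dimensional space: the final theorem
-/

set_option autoImplicit false

namespace Pool.Agent.Work.MP_8da9ea_nt.FR

open Pool.Agent.Work.MP_8da9ea_nt.EB Pool.Agent.Work.MP_327059_nt.GL Pool.Agent.Work.MP_8da9ea_nt.S
  Pool.Agent.Work.MP_8da9ea_nt.EC Pool.Agent.Work.MP_8da9ea_nt.TG Pool.Agent.ED

open FinA FinB PolA KA KB K FA F GA in
/-- **The final theorem.** -/
theorem mainG (hFK : S_FKI) (hC : S_NoSmallC) (hCV : S_NoSmallCV) (hA : S_FRKAu) (hV : S_FRKVu)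
    (hSL : S_SLIex) (hInd : S_IndV) (hDec : S_Dec) (hex : S_NDex) (hform : S_NDform)
    (l1 : S_LamAddK) (l2 : S_LamMulK) (l4 : S_LamZeroK) :
    ∃ cl : Set ℂ → IntermediateField ℚ ℂ,
      (∀ S : Set ℂ, S ⊆ cl S) ∧ (∀ S T : Set ℂ, S ⊆ cl T → cl S ≤ cl T) ∧
      (∀ S x, x ∈ cl S → ∃ T : Finset ℂ, (T : Set ℂ) ⊆ S ∧ x ∈ cl (T : Set ℂ)) ∧
      (∀ S, S.Countable → (cl S : Set ℂ).Countable) ∧
      (∀ S x, IsAlgebraic (cl S) x → x ∈ cl S) ∧
      (∀ S, ∀ ω₁ ∈ cl S, ∀ ω₂ ∈ cl S, ∀ (s n : ℕ) (t : Fin s → ℂ) (p : Fin n → ℂ),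
        (∀ l, t l ∈ cl S) → (∀ i, p i ∈ cl S) → bigField ω₁ ω₂ t p ≤ cl S) ∧
      (∀ S ω₁ ω₂, (ω₂ / ω₁).im ≠ 0 → (jInv ω₁ ω₂ ∈ cl S ↔ ω₂ / ω₁ ∈ cl S)) ∧
      (∀ Q N s n : ℕ, 5 ≤ N → ∃ n₀ : ℕ, ∀ (D : ℕ) (e : Fin D → ℂ),
        -- all tuples, modulo one of finitely many poor subspaces
        ((∃ (m : ℕ) (U : Fin m → Submodule ℚ ℂ),
            (∀ k, PoorT Q (N + (s + n) * (2 * s + 3 * n) + 2) n₀
              (N + (s + n) * (2 * s + 3 * n) + 1) (U k)) ∧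
            ∀ u : Fin s → ℂ, (∀ j, u j ∈ Submodule.span ℚ (Set.range e)) →
              ∃ (k : Fin m) (s₁ : ℕ) (σ : Fin s₁ → Fin s),
                BasMod (Set.range ((↑) : ℚ → ℂ)) u σ (U k) ∧ GenR cl u s₁) ∧
          ∀ ω₁ ω₂ : ℂ, (ω₂ / ω₁).im ≠ 0 →
            (∀ (s' k' : ℕ) (t : Fin s' → ℂ) (p : Fin k' → ℂ),
              ¬ HasTrdeg (bigField ω₁ ω₂ t p) (N + 1) →
              ∃ (m : ℕ) (U U' : Fin m → Submodule ℚ ℂ),
                (∀ k, PoorT Q (N + (s + n) * (2 * s + 3 * n) + 2) n₀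
                    (N + (s + n) * (2 * s + 3 * n) + 1) (U k) ∧
                  PoorE Q (N + (s + n) * (2 * s + 3 * n) + 2) n₀
                    (N + (s + n) * (2 * s + 3 * n) + 1) ω₁ ω₂ (U' k)) ∧
                ∀ (u : Fin s → ℂ) (v : Fin n → ℂ),
                  (∀ j, u j ∈ Submodule.span ℚ (Set.range e)) →
                  (∀ j, v j ∈ Submodule.span ℚ (Set.range e)) →
                  ∃ (k : Fin m) (s₁ n₁ : ℕ) (σ : Fin s₁ → Fin s) (θ : Fin n₁ → Fin n),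
                    BasMod (Set.range ((↑) : ℚ → ℂ)) u σ (U k) ∧
                    BasMod {g | InK ω₁ ω₂ g} v θ (U' k) ∧ AddR ω₁ ω₂ t p u v σ θ) ∧
            ∃ (m : ℕ) (U U' : Fin m → Submodule ℚ ℂ),
              (∀ k, PoorT Q (N + (s + n) * (2 * s + 3 * n) + 2) n₀
                  (N + (s + n) * (2 * s + 3 * n) + 1) (U k) ∧
                PoorE Q (N + (s + n) * (2 * s + 3 * n) + 2) n₀
                  (N + (s + n) * (2 * s + 3 * n) + 1) ω₁ ω₂ (U' k)) ∧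
              ∀ (u : Fin s → ℂ) (v : Fin n → ℂ),
                (∀ j, u j ∈ Submodule.span ℚ (Set.range e)) →
                (∀ j, v j ∈ Submodule.span ℚ (Set.range e)) →
                ∃ (k : Fin m) (s₁ n₁ : ℕ) (σ : Fin s₁ → Fin s) (θ : Fin n₁ → Fin n),
                  BasMod (Set.range ((↑) : ℚ → ℂ)) u σ (U k) ∧
                  BasMod {g | InK ω₁ ω₂ g} v θ (U' k) ∧ CloR cl ω₁ ω₂ u v s₁ n₁) ∧
        -- families of polynomials on rich spaces
        (LinearIndependent ℚ e → ∀ κ m : ℕ, n₀ + κ * (N + 2 * s + 3 * n + 2) ≤ m →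
          ∀ (q : ℕ) (R : Fin s → MvPolynomial (Fin q) ℂ),
            (RichS Q (N + 2 * s + 3 * n + 2) m (Submodule.span ℚ (Set.range e))
                (fun _ _ => True) →
              AllBut κ e q fun z => GradInd (Set.range ((↑) : ℚ → ℂ)) R z →
                GenQ cl fun j => MvPolynomial.eval z (R j)) ∧
            ∀ ω₁ ω₂ : ℂ, (ω₂ / ω₁).im ≠ 0 →
              RichS Q (N + 2 * s + 3 * n + 2) m (Submodule.span ℚ (Set.range e))
                (fun a x => 0 < n → CondE Q ω₁ ω₂ a x) →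
              ∀ V : Fin n → MvPolynomial (Fin q) ℂ,
              (∀ (s' k : ℕ) (t : Fin s' → ℂ) (p : Fin k → ℂ),
                ¬ HasTrdeg (bigField ω₁ ω₂ t p) (N + 1) →
                AllBut κ e q fun z => GradInd (Set.range ((↑) : ℚ → ℂ)) R z →
                  GradInd {g | InK ω₁ ω₂ g} V z → AddQ ω₁ ω₂ t p
                    (fun j => MvPolynomial.eval z (R j)) fun j => MvPolynomial.eval z (V j)) ∧
              AllBut κ e q fun z => GradInd (Set.range ((↑) : ℚ → ℂ)) R z →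
                GradInd {g | InK ω₁ ω₂ g} V z → CloQ cl ω₁ ω₂
                  (fun j => MvPolynomial.eval z (R j)) fun j => MvPolynomial.eval z (V j))) ∧
      -- nondegenerate points
      ∀ s Δ : ℕ, ∃ n₀ : ℕ, ∀ D : ℕ, n₀ ≤ D → ∀ e : Fin D → ℂ, LinearIndependent ℚ e →
        ∀ (q : ℕ) (R : Fin s → MvPolynomial (Fin q) ℂ), (∀ j, (R j).totalDegree ≤ Δ) →
        (NoConst (Set.range ((↑) : ℚ → ℂ)) R →
          AllBut 0 e q (GradInd (Set.range ((↑) : ℚ → ℂ)) R)) ∧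
        ∀ ω₁ ω₂ : ℂ, (ω₂ / ω₁).im ≠ 0 → NoConst {g | InK ω₁ ω₂ g} R →
          AllBut 0 e q (GradInd {g | InK ω₁ ω₂ g} R) := by
  classical
  refine ⟨CD.cl, CD.subset_cl, fun S T h => CD.cl_min (CD.closed_cl T) h, CD.prf_ClF, CD.prf_ClC,
    fun S x => (CD.closed_cl S).alg x, fun S ω₁ h1 ω₂ h2 s n t p ht hp =>
      CD.closed_big (CD.closed_cl S) h1 h2 ht hp,
    fun S ω₁ ω₂ him => CD.closed_jiff (CD.closed_cl S) him, ?_, nd hDec hex hform⟩
  intro Q N s n hN5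
  obtain ⟨n₁, hn₁⟩ := famK hA hV hSL Q 1 s 0 0 (N + 2 * s + 3 * n + 2) (by omega)
  obtain ⟨n₂, hn₂⟩ := famK hA hV hSL Q N s n (s + n) (N + 2 * s + 3 * n + 2) (by omega)
  obtain ⟨n₃, hn₃⟩ := small hC hCV hSL Q (N + (s + n) * (2 * s + 3 * n) + 1 + 1)
    (N + (s + n) * (2 * s + 3 * n) + 1) (by omega)
  -- the field `ℚ(2πi)`
  set K₁ := IntermediateField.adjoin ℚ {2 * (Real.pi : ℂ) * Complex.I} with hK₁
  have hc : (K₁ : Set ℂ).Countable := by
    have : Countable K₁ := countable_adjoin _ (Set.countable_singleton _)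
    exact Set.countable_coe_iff.1 this
  have hnt : ¬ HasTrdeg K₁ (1 + 1) := by
    refine not_trdeg (N := 1) (by omega) (fun _ => 2 * (Real.pi : ℂ) * Complex.I) ?_
    intro y hy
    have h1 : Set.range (fun _ : Fin 1 => 2 * (Real.pi : ℂ) * Complex.I) =
        {2 * (Real.pi : ℂ) * Complex.I} := Set.range_const
    rw [h1]
    exact isAlgebraic_algebraMap (⟨y, hy⟩ : K₁)
  refine ⟨n₁ + n₂ + n₃, fun D e => ⟨?_, fun he κ m hm q R => ⟨?_, ?_⟩⟩⟩
  · refine ⟨?_, fun ω₁ ω₂ him => ?_⟩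
    · -- finitely many subspaces, generic lattices
      obtain ⟨m, F, hF, hconc⟩ := hFK Complex.I 1 1 s 0 0 (CD.acl K₁)
        ⟨(countable_acl' hc).to_subtype, acl_acl _, fun h => absurd h (by omega)⟩
        (not_trdeg_acl hnt) D e
      have hT : 1 + max 1 ((s + 0) * (s + 2 * 0 + 0)) ≤ N + (s + n) * (2 * s + 3 * n) + 1 := by
        have h0 : (s + 0) * (s + 2 * 0 + 0) ≤ (s + n) * (2 * s + 3 * n) :=
          Nat.mul_le_mul (by omega) (by omega)
        omega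
      refine ⟨m, fun k => I_KeyW.SE (hF k).1.acl, fun k => poorT hT (hF k).1.acl (hF k).2.2
        (hn₃ _ (by omega) (F k) (hF k).1.acl
          (fun h => (hF k).2.2 (h.mono le_rfl hT))).1, fun u hu => ?_⟩
      obtain ⟨k, s₁, n₁, σ, θ, hσ, -, g5, -, h5, -, -, h2⟩ := hconc u (fun j => j.elim0)
        (fun j => j.elim0) hu (fun j => j.elim0) (fun j => j.elim0)
      refine ⟨k, s₁, σ, basMod_U (hF k).1.acl hσ g5 h5, genR_of hσ (genQ_of ?_)⟩
      have h3 := h2.comp (Sum.inl : Fin s₁ → Fin s₁ ⊕ Fin n₁ × Bool) Sum.inl_injective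
      exact indep_mono (fun x hx => IntermediateField.subset_adjoin ℚ _
          (Or.inl ((hF k).2.1 (CD.le_acl K₁ hx)))) h3
    · -- finitely many subspaces, one lattice
      obtain ⟨τ, hNF⟩ := exists_nf him
      refine ⟨fun s' k' t p hNt => ?_, ?_⟩
      · obtain ⟨m, F, hF, hG, hFT, hconc⟩ := fkiLat hFK l1 l2 l4 (s := s) (n := n) e hNF
          (CD.acl (bigField ω₁ ω₂ t p)) (countable_acl' (I_FinalZ.big_countable _ _ _ _))
          (acl_acl _) (hNF.g2 t p) (hNF.g3 t p) (hNF.per t p) (not_trdeg_acl hNt)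
        refine ⟨m, fun k => I_KeyW.SE (hF k), fun k => UE l1 l2 (hG k) ω₁, fun k => ⟨?_, ?_⟩,
          fun u v hu hv => ?_⟩
        · exact poorT le_rfl (hF k) (hFT k) (hn₃ _ (by omega) (F k) (hF k) (hFT k)).1
        · exact poorE l1 l2 l4 le_rfl (hF k) (hFT k) hNF (hG k)
            ((hn₃ _ (by omega) (F k) (hF k) (hFT k)).2 τ ω₁ ω₂ hNF (hG k))
        · obtain ⟨k, s₁, n₁, σ, θ, hσ, hθ, hK⟩ := hconc u v hu hv
          exact ⟨k, s₁, n₁, σ, θ, hσ, hθ, addR_of hNF t p u v hσ.1 hθ.1 hK⟩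
      · obtain ⟨m, F, hF, hG, hFT, hconc⟩ := fkiLat hFK l1 l2 l4 (s := s) (n := n) e hNF
          (CD.acl (bigField 1 (ω₂ / ω₁) (![] : Fin 0 → ℂ) (![] : Fin 0 → ℂ)))
          (countable_acl' (I_FinalZ.big_countable _ _ _ _)) (acl_acl _) (hNF.one.g2 _ _)
          (hNF.one.g3 _ _) (hNF.one.per _ _) (not_trdeg_acl (per_small him hN5))
        refine ⟨m, fun k => I_KeyW.SE (hF k), fun k => UE l1 l2 (hG k) ω₁, fun k => ⟨?_, ?_⟩,
          fun u v hu hv => ?_⟩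
        · exact poorT le_rfl (hF k) (hFT k) (hn₃ _ (by omega) (F k) (hF k) (hFT k)).1
        · exact poorE l1 l2 l4 le_rfl (hF k) (hFT k) hNF (hG k)
            ((hn₃ _ (by omega) (F k) (hF k) (hFT k)).2 τ ω₁ ω₂ hNF (hG k))
        · obtain ⟨k, s₁, n₁, σ, θ, hσ, hθ, K, hK, h3, h4, h5, h6⟩ := hconc u v hu hv
          exact ⟨k, s₁, n₁, σ, θ, hσ, hθ, cloR_of hNF hσ.1 hθ.1 (cloQ_of hInd hNF him _ _
            ⟨K, hK, fun j => h3 _, fun j => h4 _, h5, h6⟩)⟩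
  · -- polynomials, generic lattices
    intro hRich
    have hF := hn₁ κ m (by omega) Complex.I (by simp) D e he
      (richS_rich hRich fun a x _ h => absurd h (by omega))
    refine thin_mono (hF q R (fun j => j.elim0) (fun j => j.elim0) (CD.acl K₁) (countable_acl' hc)
      (acl_acl _) (fun h => absurd h (by omega)) (not_trdeg_acl hnt)) fun x hx => ?_
    simp only [Set.mem_setOf_eq, Classical.not_imp] at hx
    obtain ⟨hR, hx⟩ := hx
    refine ⟨ndf_bot.2 hR, fun g _ _ => funext fun j => j.elim0, fun hC => hx (genQ_of ?_)⟩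
    obtain ⟨-, h2⟩ := hC
    have h3 := h2.comp (Sum.inl : Fin s → Fin s ⊕ Fin 0 × Bool) Sum.inl_injective
    exact indep_mono (fun x hx => IntermediateField.subset_adjoin ℚ _
        (Or.inl (CD.le_acl K₁ hx))) h3
  · -- polynomials, one lattice
    intro ω₁ ω₂ him hRich V
    obtain ⟨τ, hNF⟩ := exists_nf him
    have hF := hn₂ κ m (by omega) τ hNF.im D e he
      (richS_rich hRich fun a x => cnd_of hNF)
    refine ⟨fun s' k t p hNt => ?_, ?_⟩
    · exact allBut_mono (appK hNF hF R V (CD.acl (bigField ω₁ ω₂ t p))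
        (countable_acl' (I_FinalZ.big_countable _ _ _ _)) (acl_acl _) (hNF.g2 t p) (hNF.g3 t p)
        (hNF.per t p) (not_trdeg_acl hNt)) fun z hz hR hV' => addQ_of hNF t p _ _ (hz hR hV')
    · exact allBut_mono (appK hNF hF R V
        (CD.acl (bigField 1 (ω₂ / ω₁) (![] : Fin 0 → ℂ) (![] : Fin 0 → ℂ)))
        (countable_acl' (I_FinalZ.big_countable _ _ _ _)) (acl_acl _) (hNF.one.g2 _ _)
        (hNF.one.g3 _ _) (hNF.one.per _ _) (not_trdeg_acl (per_small him hN5)))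
        fun z hz hR hV' => cloQ_of hInd hNF him _ _ (hz hR hV')

end Pool.Agent.Work.MP_8da9ea_nt.FR
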