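import Pool.Agent.Work.MP_8da9ea_nt.FR.StmtsF
import Pool.Agent.Work.MP_8da9ea_nt.FR.I_KeyW

/-!
# [FKI] finitely many small fields, for all tuples

Iteration of `S_FK`: a relation modulo one of the fields of `S_FK` removes one of the points, and `S_FK`
is applied to the remaining points over this field.
-/

set_option autoImplicit false

namespace Pool.Agent.Work.MP_8da9ea_nt.FR

open MvPolynomial Pool.Agent.Work.MP_327059_nt.GL Pool.Agent.Work.MP_8da9ea_nt.S
  Pool.Agent.Work.MP_8da9ea_nt.EB Pool.Agent.Work.MP_8da9ea_nt.EC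

/-- `x` is in the lattice, or the value `X(x)` is in `F`. -/
def PtE (τ μ : ℂ) (F : IntermediateField ℚ ℂ) (x : ℂ) : Prop := x ∈ Lam τ ∨ xe τ μ x ∈ F

/-- The `u_(σ l)` generate the `u_i` modulo the logarithms of elements of `F`, the `v_(θ l)` generate the
`v_j` over `k` modulo the points defined over `F`, and the values of the functions at the `u_(σ l)` and
`v_(θ l)` are algebraically independent over `F(z)`. -/
def RedF (τ μ : ℂ) (F : IntermediateField ℚ ℂ) {s n ρ : ℕ} (u : Fin s → ℂ) (v : Fin n → ℂ)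
    (z : Fin ρ → ℂ) : Prop :=
  ∃ (s' n' : ℕ) (σ : Fin s' → Fin s) (θ : Fin n' → Fin n), Function.Injective σ ∧
    Function.Injective θ ∧
    (∀ i, ∃ c : Fin s' → ℚ, Complex.exp (u i - ∑ l, (c l : ℂ) * u (σ l)) ∈ F) ∧
    (∀ j, ∃ g : Fin n' → ℂ, (∀ l, IsE τ (g l)) ∧ PtE τ μ F (v j - ∑ l, g l * v (θ l))) ∧
    (∀ l, v (θ l) ∉ Lam τ) ∧
    AlgebraicIndependent (IntermediateField.adjoin ℚ ((F : Set ℂ) ∪ Set.range z))
      (fm τ μ (fun l => u (σ l)) (fun l => v (θ l)))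

/-- The `u_(σ l)` are a basis of the `u_i` modulo the logarithms of elements of `F`, the `v_(θ l)` are a
basis of the `v_j` over `k` modulo the points defined over `F`, and the values of the functions at the
`u_(σ l)` and `v_(θ l)` are algebraically independent over `F(z)`. -/
def RedB (τ μ : ℂ) (F : IntermediateField ℚ ℂ) {s n ρ : ℕ} (u : Fin s → ℂ) (v : Fin n → ℂ)
    (z : Fin ρ → ℂ) : Prop :=
  ∃ (s' n' : ℕ) (σ : Fin s' → Fin s) (θ : Fin n' → Fin n), Function.Injective σ ∧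
    Function.Injective θ ∧
    (∀ c : Fin s' → ℚ, Complex.exp (∑ l, (c l : ℂ) * u (σ l)) ∈ F → c = 0) ∧
    (∀ g : Fin n' → ℂ, (∀ l, IsE τ (g l)) → PtE τ μ F (∑ l, g l * v (θ l)) → g = 0) ∧
    (∀ i, ∃ c : Fin s' → ℚ, Complex.exp (u i - ∑ l, (c l : ℂ) * u (σ l)) ∈ F) ∧
    (∀ j, ∃ g : Fin n' → ℂ, (∀ l, IsE τ (g l)) ∧ PtE τ μ F (v j - ∑ l, g l * v (θ l))) ∧
    (∀ l, v (θ l) ∉ Lam τ) ∧
    AlgebraicIndependent (IntermediateField.adjoin ℚ ((F : Set ℂ) ∪ Set.range z))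
      (fm τ μ (fun l => u (σ l)) (fun l => v (θ l)))

/-- **Finitely many small fields, for all tuples.** -/
def S_FKI : Prop := ∀ (τ μ : ℂ) (N s n ρ : ℕ) (K₀ : IntermediateField ℚ ℂ), KF n τ μ K₀ →
  ¬ HasTrdeg K₀ (N + 1) → ∀ (D : ℕ) (e : Fin D → ℂ), ∃ (m : ℕ) (F : Fin m → IntermediateField ℚ ℂ),
    (∀ k, KF n τ μ (F k) ∧ K₀ ≤ F k ∧
      ¬ HasTrdeg (F k) (N + max 1 ((s + n) * (s + 2 * n + ρ)))) ∧
    ∀ (u : Fin s → ℂ) (v : Fin n → ℂ) (z : Fin ρ → ℂ),
      (∀ j, u j ∈ Submodule.span ℚ (Set.range e)) → (∀ j, v j ∈ Submodule.span ℚ (Set.range e)) →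
      (∀ l, z l ∈ Submodule.span ℚ (Set.range e)) → ∃ k, RedB τ μ (F k) u v z

namespace I_FKI

open I_KeyW

theorem exp_add_mem {F : IntermediateField ℚ ℂ} {a b : ℂ} (ha : Complex.exp a ∈ F)
    (hb : Complex.exp b ∈ F) : Complex.exp (a + b) ∈ F := by
  rw [Complex.exp_add]
  exact mul_mem ha hb

theorem exp_smul_mem {F : IntermediateField ℚ ℂ} (hF : ACl F) {a : ℂ} (q : ℚ)
    (ha : Complex.exp a ∈ F) : Complex.exp ((q : ℂ) * a) ∈ F := by
  have h : q • a ∈ SE hF := Submodule.smul_mem _ q ha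
  rw [← Rat.smul_def]
  exact h

theorem ptE_iff (l1 : S_LamAddK) (l2 : S_LamMulK) (l4 : S_LamZeroK) {τ μ : ℂ}
    {F : IntermediateField ℚ ℂ} (hG : GF τ μ F) (hF : ACl F) (x : ℂ) :
    PtE τ μ F x ↔ x ∈ SL l1 l2 hG := (l4 τ μ F hG hF x).symm

theorem ptE_add (l1 : S_LamAddK) (l2 : S_LamMulK) (l4 : S_LamZeroK) {τ μ : ℂ}
    {F : IntermediateField ℚ ℂ} (hG : GF τ μ F) (hF : ACl F) {x y : ℂ} (hx : PtE τ μ F x)
    (hy : PtE τ μ F y) : PtE τ μ F (x + y) := by
  rw [ptE_iff l1 l2 l4 hG hF] at hx hy ⊢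
  exact add_mem hx hy

theorem ptE_mul (l1 : S_LamAddK) (l2 : S_LamMulK) (l4 : S_LamZeroK) {τ μ : ℂ}
    {F : IntermediateField ℚ ℂ} (hG : GF τ μ F) (hF : ACl F) {x g : ℂ} (hx : PtE τ μ F x)
    (hg : IsE τ g) : PtE τ μ F (g * x) := by
  rw [ptE_iff l1 l2 l4 hG hF] at hx ⊢
  have h1 : g ∈ kf τ := ((Kf_pf τ hG.im).2.1 g).2 hg
  exact Submodule.smul_mem _ (⟨g, h1⟩ : kf τ) hx

theorem ptE_mono {τ μ : ℂ} {F F' : IntermediateField ℚ ℂ} (h : F ≤ F') {x : ℂ}
    (hx : PtE τ μ F x) : PtE τ μ F' x := hx.imp id fun h1 => h h1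

theorem kf_mono {n : ℕ} {τ μ : ℂ} {K F : IntermediateField ℚ ℂ} (hK : KF n τ μ K) (h : K ≤ F)
    (hc : Countable F) (ha : ACl F) : KF n τ μ F := by
  refine ⟨hc, ha, fun hn => ?_⟩
  obtain ⟨h1, h2⟩ := hK.ell hn
  exact ⟨⟨h1.im, h1.mu, h h1.g2, h h1.g3⟩, ⟨h h2.mu, h h2.tau, h h2.et, h h2.kap⟩⟩

/-- A relation between the `u_j` removes one of them. -/
theorem dropU {τ μ : ℂ} {F₀ F : IntermediateField ℚ ℂ} (hF : ACl F) (hle : F₀ ≤ F) {s n ρ : ℕ}
    {u : Fin (s + 1) → ℂ} {v : Fin n → ℂ} {z : Fin ρ → ℂ} {c : Fin (s + 1) → ℚ}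
    {i : Fin (s + 1)} (hi : c i ≠ 0) (hc : Complex.exp (∑ j, (c j : ℂ) * u j) ∈ F₀)
    (h : RedF τ μ F (fun j => u (i.succAbove j)) v z) : RedF τ μ F u v z := by
  obtain ⟨s', n', σ, θ, h1, h2, h3, h4, h5, h6⟩ := h
  choose d hd using h3
  refine ⟨s', n', fun l => i.succAbove (σ l), θ, fun a b hab => h1 (i.succAbove_right_injective hab),
    h2, fun j => ?_, h4, h5, h6⟩
  rcases Fin.eq_self_or_eq_succAbove i j with rfl | ⟨j', rfl⟩
  · -- `u_i = c_i⁻¹ (∑ c_j u_j) - ∑_j' c_i⁻¹ c_j' u_j'`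
    refine ⟨fun l => ∑ j', (-(c j)⁻¹ * c (j.succAbove j')) * d j' l, ?_⟩
    have hc0 : (c j : ℂ) ≠ 0 := by exact_mod_cast hi
    have e1 := exp_smul_mem hF (c j)⁻¹ (hle hc)
    have e2 : ∀ T : Finset (Fin s), Complex.exp (∑ j' ∈ T, ((-(c j)⁻¹ * c (j.succAbove j') : ℚ) : ℂ) *
        (u (j.succAbove j') - ∑ l, (d j' l : ℂ) * u (j.succAbove (σ l)))) ∈ F := by
      intro T
      induction T using Finset.induction_on with
      | empty => rw [Finset.sum_empty, Complex.exp_zero]; exact one_mem _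
      | insert a T ha ih =>
        rw [Finset.sum_insert ha]
        exact exp_add_mem (exp_smul_mem hF _ (hd a)) ih
    have e3 := exp_add_mem e1 (e2 Finset.univ)
    refine (congrArg (fun y => Complex.exp y ∈ F) ?_).mp e3
    rw [Fin.sum_univ_succAbove _ j]
    push_cast
    have e4 : ∑ l, (∑ j', (-(c j : ℂ)⁻¹ * (c (j.succAbove j') : ℂ)) * (d j' l : ℂ)) *
        u (j.succAbove (σ l)) = ∑ j', (-(c j : ℂ)⁻¹ * (c (j.succAbove j') : ℂ)) *
          ∑ l, (d j' l : ℂ) * u (j.succAbove (σ l)) := by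
      simp only [Finset.sum_mul, Finset.mul_sum]
      rw [Finset.sum_comm]
      refine Finset.sum_congr rfl fun _ _ => Finset.sum_congr rfl fun _ _ => ?_
      ring
    rw [e4]
    simp only [mul_sub, Finset.sum_sub_distrib]
    rw [mul_add, ← mul_assoc, inv_mul_cancel₀ hc0, one_mul, Finset.mul_sum]
    have e5 : ∑ j', (c j : ℂ)⁻¹ * ((c (j.succAbove j') : ℂ) * u (j.succAbove j')) =
        - ∑ j', -(c j : ℂ)⁻¹ * (c (j.succAbove j') : ℂ) * u (j.succAbove j') := by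
      rw [← Finset.sum_neg_distrib]
      refine Finset.sum_congr rfl fun _ _ => ?_
      ring
    rw [e5]
    ring
  · exact ⟨d j', hd j'⟩

/-- A relation between the `v_j` removes one of them. -/
theorem dropV (l1 : S_LamAddK) (l2 : S_LamMulK) (l4 : S_LamZeroK) {τ μ : ℂ}
    {F₀ F : IntermediateField ℚ ℂ} (hG : GF τ μ F) (hF : ACl F) (hle : F₀ ≤ F) {s n ρ : ℕ}
    {u : Fin s → ℂ} {v : Fin (n + 1) → ℂ} {z : Fin ρ → ℂ} {g : Fin (n + 1) → ℂ}
    (hg : ∀ j, IsE τ (g j)) {i : Fin (n + 1)} (hi : g i ≠ 0)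
    (hc : PtE τ μ F₀ (∑ j, g j * v j))
    (h : RedF τ μ F u (fun j => v (i.succAbove j)) z) : RedF τ μ F u v z := by
  obtain ⟨s', n', σ, θ, h1, h2, h3, h4, h5, h6⟩ := h
  choose d hdE hd using h4
  have hkf := (Kf_pf τ hG.im).2.1
  refine ⟨s', n', σ, fun l => i.succAbove (θ l), h1, fun a b hab => h2 (i.succAbove_right_injective hab),
    h3, fun j => ?_, h5, h6⟩
  rcases Fin.eq_self_or_eq_succAbove i j with rfl | ⟨j', rfl⟩
  · have hE1 : ∀ j', IsE τ (-(g j)⁻¹ * g (j.succAbove j')) := fun j' => by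
      rw [← hkf]
      exact mul_mem (neg_mem (inv_mem ((hkf _).2 (hg _)))) ((hkf _).2 (hg _))
    refine ⟨fun l => ∑ j', (-(g j)⁻¹ * g (j.succAbove j')) * d j' l, fun l => ?_, ?_⟩
    · rw [← hkf]
      exact sum_mem fun j' _ => mul_mem ((hkf _).2 (hE1 j')) ((hkf _).2 (hdE j' l))
    have hiE : IsE τ (g j)⁻¹ := by
      rw [← hkf]
      exact inv_mem ((hkf _).2 (hg _))
    have e1 := ptE_mul l1 l2 l4 hG hF (ptE_mono hle hc) hiE
    have e2 : ∀ T : Finset (Fin n), PtE τ μ F (∑ j' ∈ T, (-(g j)⁻¹ * g (j.succAbove j')) *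
        (v (j.succAbove j') - ∑ l, d j' l * v (j.succAbove (θ l)))) := by
      intro T
      induction T using Finset.induction_on with
      | empty =>
        rw [Finset.sum_empty]
        exact Or.inl (mem_Lam.2 ⟨0, 0, by simp⟩)
      | insert a T ha ih =>
        rw [Finset.sum_insert ha]
        exact ptE_add l1 l2 l4 hG hF (ptE_mul l1 l2 l4 hG hF (hd a) (hE1 a)) ih
    have e3 := ptE_add l1 l2 l4 hG hF e1 (e2 Finset.univ)
    refine (congrArg (PtE τ μ F) ?_).mp e3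
    rw [Fin.sum_univ_succAbove _ j]
    have e4 : ∑ l, (∑ j', (-(g j)⁻¹ * g (j.succAbove j')) * d j' l) *
        v (j.succAbove (θ l)) = ∑ j', (-(g j)⁻¹ * g (j.succAbove j')) *
          ∑ l, d j' l * v (j.succAbove (θ l)) := by
      simp only [Finset.sum_mul, Finset.mul_sum]
      rw [Finset.sum_comm]
      refine Finset.sum_congr rfl fun _ _ => Finset.sum_congr rfl fun _ _ => ?_
      ring
    rw [e4]
    simp only [mul_sub, Finset.sum_sub_distrib]
    rw [mul_add, ← mul_assoc, inv_mul_cancel₀ hi, one_mul, Finset.mul_sum]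
    have e5 : ∑ j', (g j)⁻¹ * (g (j.succAbove j') * v (j.succAbove j')) =
        - ∑ j', -(g j)⁻¹ * g (j.succAbove j') * v (j.succAbove j') := by
      rw [← Finset.sum_neg_distrib]
      refine Finset.sum_congr rfl fun _ _ => ?_
      ring
    rw [e5]
    ring
  · exact ⟨d j', hdE j', hd j'⟩

/-- The induction. -/
theorem main (h : S_FK) (l1 : S_LamAddK) (l2 : S_LamMulK) (l4 : S_LamZeroK) (τ μ : ℂ) (n₁ ρ D : ℕ)
    (e : Fin D → ℂ) : ∀ L s n : ℕ, s + n = L → n ≤ n₁ → ∀ (N : ℕ) (K₀ : IntermediateField ℚ ℂ),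
    KF n₁ τ μ K₀ → ¬ HasTrdeg K₀ (N + 1) → ∃ 𝓕 : Set (IntermediateField ℚ ℂ), 𝓕.Finite ∧
      (∀ F ∈ 𝓕, KF n₁ τ μ F ∧ K₀ ≤ F ∧ ¬ HasTrdeg F (N + max 1 (L * (s + 2 * n + ρ)))) ∧
      ∀ (u : Fin s → ℂ) (v : Fin n → ℂ) (z : Fin ρ → ℂ),
        (∀ j, u j ∈ Submodule.span ℚ (Set.range e)) →
        (∀ j, v j ∈ Submodule.span ℚ (Set.range e)) →
        (∀ l, z l ∈ Submodule.span ℚ (Set.range e)) → ∃ F ∈ 𝓕, RedF τ μ F u v z := by
  classical
  intro L
  induction L using Nat.strong_induction_on with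
  | _ L ih =>
  intro s n hL hn N K₀ hK hN
  have hKn : KF n τ μ K₀ := ⟨hK.cnt, hK.acl, fun h0 => hK.ell (by omega)⟩
  obtain ⟨m, F, hF, hc⟩ := h τ μ N s n ρ K₀ hKn hN D e
  have hF1 : ∀ k, KF n₁ τ μ (F k) := fun k => kf_mono hK (hF k).2.1 (hF k).1.cnt (hF k).1.acl
  -- relations between the `u_j`
  have hA : ∀ k, ∃ 𝓖 : Set (IntermediateField ℚ ℂ), 𝓖.Finite ∧
      (∀ F' ∈ 𝓖, KF n₁ τ μ F' ∧ K₀ ≤ F' ∧ ¬ HasTrdeg F' (N + max 1 (L * (s + 2 * n + ρ)))) ∧
      ∀ (u : Fin s → ℂ) (v : Fin n → ℂ) (z : Fin ρ → ℂ),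
        (∀ j, u j ∈ Submodule.span ℚ (Set.range e)) →
        (∀ j, v j ∈ Submodule.span ℚ (Set.range e)) →
        (∀ l, z l ∈ Submodule.span ℚ (Set.range e)) →
        (∃ c : Fin s → ℚ, c ≠ 0 ∧ Complex.exp (∑ j, (c j : ℂ) * u j) ∈ F k) →
        ∃ F' ∈ 𝓖, RedF τ μ F' u v z := by
    intro k
    cases s with
    | zero =>
      refine ⟨∅, Set.finite_empty, fun F' hF' => hF'.elim, fun u v z _ _ _ hc' => ?_⟩
      obtain ⟨c, hc0, -⟩ := hc'
      exact (hc0 (funext fun j => j.elim0)).elim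
    | succ s =>
      obtain ⟨𝓖, hfin, hG1, hG2⟩ := ih (s + n) (by omega) s n rfl hn (N + s + 2 * n + ρ) (F k)
        (hF1 k) (by
          have := (hF k).2.2
          rwa [show N + (s + 1) + 2 * n + ρ = N + s + 2 * n + ρ + 1 by ring] at this)
      refine ⟨𝓖, hfin, fun F' hF' => ⟨(hG1 F' hF').1, (hF k).2.1.trans (hG1 F' hF').2.1,
        fun ht => (hG1 F' hF').2.2 (ht.mono le_rfl ?_)⟩, fun u v z hu hv hz hc' => ?_⟩
      · have e1 : L = (s + n) + 1 := by omega
        rw [e1]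
        have e2 : (s + n + 1) * (s + 1 + 2 * n + ρ) =
            (s + n) * (s + 2 * n + ρ) + (s + n) + (s + 1 + 2 * n + ρ) := by ring
        rw [e2]
        rcases Nat.eq_zero_or_pos ((s + n) * (s + 2 * n + ρ)) with h0 | h0
        · rw [h0]
          omega
        · rw [max_eq_right (by omega), max_eq_right (by omega)]
          omega
      · obtain ⟨c, hc0, hcF⟩ := hc'
        obtain ⟨i, hi⟩ : ∃ i, c i ≠ 0 := by
          by_contra hcon
          push Not at hcon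
          exact hc0 (funext hcon)
        obtain ⟨F', hF', hR⟩ := hG2 (fun j => u (i.succAbove j)) v z (fun j => hu _) hv hz
        exact ⟨F', hF', dropU (hG1 F' hF').1.acl (hG1 F' hF').2.1 hi hcF hR⟩
  -- relations between the `v_j`
  have hB : ∀ k, ∃ 𝓖 : Set (IntermediateField ℚ ℂ), 𝓖.Finite ∧
      (∀ F' ∈ 𝓖, KF n₁ τ μ F' ∧ K₀ ≤ F' ∧ ¬ HasTrdeg F' (N + max 1 (L * (s + 2 * n + ρ)))) ∧
      ∀ (u : Fin s → ℂ) (v : Fin n → ℂ) (z : Fin ρ → ℂ),
        (∀ j, u j ∈ Submodule.span ℚ (Set.range e)) →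
        (∀ j, v j ∈ Submodule.span ℚ (Set.range e)) →
        (∀ l, z l ∈ Submodule.span ℚ (Set.range e)) →
        (∃ g : Fin n → ℂ, (∀ j, IsE τ (g j)) ∧ g ≠ 0 ∧
          (∑ j, g j * v j ∈ Lam τ ∨ xe τ μ (∑ j, g j * v j) ∈ F k)) →
        ∃ F' ∈ 𝓖, RedF τ μ F' u v z := by
    intro k
    cases n with
    | zero =>
      refine ⟨∅, Set.finite_empty, fun F' hF' => hF'.elim, fun u v z _ _ _ hc' => ?_⟩
      obtain ⟨c, -, hc0, -⟩ := hc'
      exact (hc0 (funext fun j => j.elim0)).elim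
    | succ n =>
      obtain ⟨𝓖, hfin, hG1, hG2⟩ := ih (s + n) (by omega) s n rfl (by omega)
        (N + s + 2 * n + ρ + 1) (F k) (hF1 k) (by
          have := (hF k).2.2
          rwa [show N + s + 2 * (n + 1) + ρ = N + s + 2 * n + ρ + 1 + 1 by ring] at this)
      refine ⟨𝓖, hfin, fun F' hF' => ⟨(hG1 F' hF').1, (hF k).2.1.trans (hG1 F' hF').2.1,
        fun ht => (hG1 F' hF').2.2 (ht.mono le_rfl ?_)⟩, fun u v z hu hv hz hc' => ?_⟩
      · have e1 : L = (s + n) + 1 := by omega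
        rw [e1]
        have e2 : (s + n + 1) * (s + 2 * (n + 1) + ρ) =
            (s + n) * (s + 2 * n + ρ) + 2 * (s + n) + (s + 2 * (n + 1) + ρ) := by ring
        rw [e2]
        rcases Nat.eq_zero_or_pos ((s + n) * (s + 2 * n + ρ)) with h0 | h0
        · rw [h0]
          omega
        · rw [max_eq_right (by omega), max_eq_right (by omega)]
          omega
      · obtain ⟨g, hgE, hg0, hgF⟩ := hc'
        obtain ⟨i, hi⟩ : ∃ i, g i ≠ 0 := by
          by_contra hcon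
          push Not at hcon
          exact hg0 (funext hcon)
        obtain ⟨F', hF', hR⟩ := hG2 u (fun j => v (i.succAbove j)) z hu (fun j => hv _) hz
        have hKF' := (hG1 F' hF').1
        exact ⟨F', hF', dropV l1 l2 l4 (hKF'.ell (by omega)).1 hKF'.acl (hG1 F' hF').2.1 hgE hi
          hgF hR⟩
  choose 𝓐 hA1 hA2 hA3 using hA
  choose 𝓑 hB1 hB2 hB3 using hB
  refine ⟨{K₀} ∪ ((⋃ k, 𝓐 k) ∪ ⋃ k, 𝓑 k),
    (Set.finite_singleton K₀).union ((Set.finite_iUnion hA1).union (Set.finite_iUnion hB1)),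
    fun F' hF' => ?_, fun u v z hu hv hz => ?_⟩
  · rcases hF' with hF' | hF' | hF'
    · rw [Set.mem_singleton_iff] at hF'
      subst hF'
      exact ⟨hK, le_rfl, fun ht => hN (ht.mono le_rfl (by omega))⟩
    · obtain ⟨k, hk⟩ := Set.mem_iUnion.1 hF'
      exact hA2 k F' hk
    · obtain ⟨k, hk⟩ := Set.mem_iUnion.1 hF'
      exact hB2 k F' hk
  · by_cases hS : ∀ k, ¬ Sm τ μ (F k) u v
    · obtain ⟨h1, h2⟩ := hc u v z hu hv hz hS
      refine ⟨K₀, Or.inl rfl, s, n, id, id, Function.injective_id, Function.injective_id,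
        fun i => ⟨Pi.single i 1, ?_⟩, fun j => ⟨Pi.single j 1, fun l => ?_, Or.inl ?_⟩, h1, h2⟩
      · have e1 : ∑ l, ((Pi.single i (1 : ℚ) : Fin s → ℚ) l : ℂ) * u (id l) = u i := by
          rw [Finset.sum_eq_single i]
          · rw [Pi.single_eq_same, Rat.cast_one, one_mul]
            rfl
          · intro b _ hb
            rw [Pi.single_eq_of_ne hb, Rat.cast_zero, zero_mul]
          · intro hi
            exact absurd (Finset.mem_univ i) hi
        rw [e1, sub_self, Complex.exp_zero]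
        exact one_mem _
      · have hτ : 0 < τ.im := (hK.ell (by have := l.pos; omega)).1.im
        rw [← (Kf_pf τ hτ).2.1]
        by_cases hl : l = j
        · subst hl
          rw [Pi.single_eq_same]
          exact one_mem _
        · rw [Pi.single_eq_of_ne hl]
          exact zero_mem _
      · have e1 : ∑ l, (Pi.single j (1 : ℂ) : Fin n → ℂ) l * v (id l) = v j := by
          rw [Finset.sum_eq_single j]
          · rw [Pi.single_eq_same, one_mul]
            rfl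
          · intro b _ hb
            rw [Pi.single_eq_of_ne hb, zero_mul]
          · intro hi
            exact absurd (Finset.mem_univ j) hi
        rw [e1, sub_self]
        exact mem_Lam.2 ⟨0, 0, by simp⟩
    · push Not at hS
      obtain ⟨k, hk⟩ := hS
      rcases hk with hk | hk
      · obtain ⟨F', hF', hR⟩ := hA3 k u v z hu hv hz hk
        exact ⟨F', Or.inr (Or.inl (Set.mem_iUnion.2 ⟨k, hF'⟩)), hR⟩
      · obtain ⟨F', hF', hR⟩ := hB3 k u v z hu hv hz hk
        exact ⟨F', Or.inr (Or.inr (Set.mem_iUnion.2 ⟨k, hF'⟩)), hR⟩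

theorem fm_subU {τ μ : ℂ} {K : IntermediateField ℚ ℂ} {s n : ℕ} {u : Fin (s + 1) → ℂ}
    {v : Fin n → ℂ} (h : AlgebraicIndependent K (fm τ μ u v)) (i : Fin (s + 1)) :
    AlgebraicIndependent K (fm τ μ (fun l => u (i.succAbove l)) v) := by
  have h1 := h.comp (Sum.map (fun l => i.succAbove l) id)
    (Function.Injective.sumMap i.succAbove_right_injective Function.injective_id)
  have h2 : fm τ μ u v ∘ Sum.map (fun l => i.succAbove l) id =
      fm τ μ (fun l => u (i.succAbove l)) v := by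
    funext o
    rcases o with j | ⟨j, b⟩
    · rfl
    · rfl
  rwa [h2] at h1

theorem fm_subV {τ μ : ℂ} {K : IntermediateField ℚ ℂ} {s n : ℕ} {u : Fin s → ℂ}
    {v : Fin (n + 1) → ℂ} (h : AlgebraicIndependent K (fm τ μ u v)) (i : Fin (n + 1)) :
    AlgebraicIndependent K (fm τ μ u (fun l => v (i.succAbove l))) := by
  have h1 := h.comp (Sum.map id (Prod.map (fun l => i.succAbove l) id))
    (Function.Injective.sumMap Function.injective_id
      (Function.Injective.prodMap i.succAbove_right_injective Function.injective_id))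
  have h2 : fm τ μ u v ∘ Sum.map id (Prod.map (fun l => i.succAbove l) id) =
      fm τ μ u (fun l => v (i.succAbove l)) := by
    funext o
    rcases o with j | ⟨j, b⟩
    · rfl
    · rfl
  rwa [h2] at h1

/-- From generators to bases. -/
theorem toB (l1 : S_LamAddK) (l2 : S_LamMulK) (l4 : S_LamZeroK) {τ μ : ℂ}
    {F : IntermediateField ℚ ℂ} (hF : ACl F) {s n ρ : ℕ} (hG : 0 < n → GF τ μ F)
    {u : Fin s → ℂ} {v : Fin n → ℂ} {z : Fin ρ → ℂ} : ∀ L s' n' : ℕ, s' + n' = L →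
    ∀ (σ : Fin s' → Fin s) (θ : Fin n' → Fin n), Function.Injective σ → Function.Injective θ →
    (∀ i, ∃ c : Fin s' → ℚ, Complex.exp (u i - ∑ l, (c l : ℂ) * u (σ l)) ∈ F) →
    (∀ j, ∃ g : Fin n' → ℂ, (∀ l, IsE τ (g l)) ∧ PtE τ μ F (v j - ∑ l, g l * v (θ l))) →
    (∀ l, v (θ l) ∉ Lam τ) →
    AlgebraicIndependent (IntermediateField.adjoin ℚ ((F : Set ℂ) ∪ Set.range z))
      (fm τ μ (fun l => u (σ l)) (fun l => v (θ l))) → RedB τ μ F u v z := by
  classical
  intro L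
  induction L with
  | zero =>
    intro s' n' hL σ θ h1 h2 h3 h4 h5 h6
    obtain ⟨rfl, rfl⟩ : s' = 0 ∧ n' = 0 := by omega
    exact ⟨0, 0, σ, θ, h1, h2, fun c _ => funext fun j => j.elim0,
      fun g _ _ => funext fun j => j.elim0, h3, h4, h5, h6⟩
  | succ L ih =>
    intro s' n' hL σ θ h1 h2 h3 h4 h5 h6
    by_cases hU : ∀ c : Fin s' → ℚ, Complex.exp (∑ l, (c l : ℂ) * u (σ l)) ∈ F → c = 0
    swap
    · -- remove one of the `u_(σ l)`
      push Not at hU
      obtain ⟨c, hcF, hc0⟩ := hU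
      obtain ⟨i, hi⟩ : ∃ i, c i ≠ 0 := by
        by_contra hcon
        push Not at hcon
        exact hc0 (funext hcon)
      cases s' with
      | zero => exact i.elim0
      | succ s' =>
        refine ih s' n' (by omega) (fun l => σ (i.succAbove l)) θ
          (fun a b hab => i.succAbove_right_injective (h1 hab)) h2 (fun j => ?_) h4 h5 ?_
        · obtain ⟨d, hd⟩ := h3 j
          refine ⟨fun l => d (i.succAbove l) - d i / c i * c (i.succAbove l), ?_⟩
          have hi0 : (c i : ℂ) ≠ 0 := by exact_mod_cast hi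
          have e1 := exp_add_mem hd (exp_smul_mem hF (d i / c i) hcF)
          refine (congrArg (fun y => Complex.exp y ∈ F) ?_).mp e1
          rw [Fin.sum_univ_succAbove _ i, Fin.sum_univ_succAbove (fun l => (c l : ℂ) * u (σ l)) i]
          push_cast
          have e2 : ∑ l, ((d (i.succAbove l) : ℂ) - (d i : ℂ) / c i * c (i.succAbove l)) *
              u (σ (i.succAbove l)) = ∑ l, (d (i.succAbove l) : ℂ) * u (σ (i.succAbove l)) -
              (d i : ℂ) / c i * ∑ l, (c (i.succAbove l) : ℂ) * u (σ (i.succAbove l)) := by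
            rw [Finset.mul_sum, ← Finset.sum_sub_distrib]
            exact Finset.sum_congr rfl fun _ _ => by ring
          rw [e2]
          field_simp
          ring
        · exact fm_subU h6 i
    by_cases hV : ∀ g : Fin n' → ℂ, (∀ l, IsE τ (g l)) → PtE τ μ F (∑ l, g l * v (θ l)) → g = 0
    swap
    · -- remove one of the `v_(θ l)`
      push Not at hV
      obtain ⟨g, hgE, hgF, hg0⟩ := hV
      obtain ⟨i, hi⟩ : ∃ i, g i ≠ 0 := by
        by_contra hcon
        push Not at hcon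
        exact hg0 (funext hcon)
      cases n' with
      | zero => exact i.elim0
      | succ n' =>
        have hG' : GF τ μ F := hG (Fin.pos (θ i))
        have hkf := (Kf_pf τ hG'.im).2.1
        refine ih s' n' (by omega) σ (fun l => θ (i.succAbove l)) h1
          (fun a b hab => i.succAbove_right_injective (h2 hab)) h3 (fun j => ?_)
          (fun l => h5 _) ?_
        · obtain ⟨d, hdE, hd⟩ := h4 j
          have hq : IsE τ (d i / g i) := by
            rw [← hkf]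
            exact div_mem ((hkf _).2 (hdE i)) ((hkf _).2 (hgE i))
          refine ⟨fun l => d (i.succAbove l) - d i / g i * g (i.succAbove l), fun l => ?_, ?_⟩
          · rw [← hkf]
            exact sub_mem ((hkf _).2 (hdE _)) (mul_mem ((hkf _).2 hq) ((hkf _).2 (hgE _)))
          have e1 := ptE_add l1 l2 l4 hG' hF hd (ptE_mul l1 l2 l4 hG' hF hgF hq)
          refine (congrArg (PtE τ μ F) ?_).mp e1
          rw [Fin.sum_univ_succAbove _ i, Fin.sum_univ_succAbove (fun l => g l * v (θ l)) i]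
          have e2 : ∑ l, (d (i.succAbove l) - d i / g i * g (i.succAbove l)) *
              v (θ (i.succAbove l)) = ∑ l, d (i.succAbove l) * v (θ (i.succAbove l)) -
              d i / g i * ∑ l, g (i.succAbove l) * v (θ (i.succAbove l)) := by
            rw [Finset.mul_sum, ← Finset.sum_sub_distrib]
            exact Finset.sum_congr rfl fun _ _ => by ring
          rw [e2]
          field_simp
          ring
        · exact fm_subV h6 i
    exact ⟨s', n', σ, θ, h1, h2, hU, hV, h3, h4, h5, h6⟩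

end I_FKI

open I_FKI in
/-- **[FKI]** -/
theorem FKI_pf (h : S_FK) (l1 : S_LamAddK) (l2 : S_LamMulK) (l4 : S_LamZeroK) : S_FKI := by
  classical
  intro τ μ N s n ρ K₀ hK hN D e
  obtain ⟨𝓕, hfin, h1, h2⟩ := main h l1 l2 l4 τ μ n ρ D e (s + n) s n rfl le_rfl N K₀ hK hN
  have := hfin.fintype
  let φ : 𝓕 ≃ Fin (Fintype.card 𝓕) := Fintype.equivFin 𝓕
  refine ⟨Fintype.card 𝓕, fun k => (φ.symm k : IntermediateField ℚ ℂ),
    fun k => h1 _ (φ.symm k).2, fun u v z hu hv hz => ?_⟩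
  obtain ⟨F, hF, s', n', σ, θ, f1, f2, f3, f4, f5, f6⟩ := h2 u v z hu hv hz
  refine ⟨φ ⟨F, hF⟩, ?_⟩
  change RedB τ μ ((φ.symm (φ ⟨F, hF⟩) : 𝓕) : IntermediateField ℚ ℂ) u v z
  rw [Equiv.symm_apply_apply]
  exact toB l1 l2 l4 (h1 F hF).1.acl (fun hn => ((h1 F hF).1.ell hn).1) _ s' n' rfl σ θ f1 f2 f3 f4
    f5 f6

end Pool.Agent.Work.MP_8da9ea_nt.FR
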