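import Pool.Agent.Work.MP_8da9ea_nt.FR.GDefs
import Pool.Agent.Work.MP_8da9ea_nt.FR.I_FKI
import Pool.Agent.Work.MP_8da9ea_nt.FR.F

/-!
# All tuples of a finite-dimensional space: the parts of the final theorem
-/

set_option autoImplicit false

namespace Pool.Agent.Work.MP_8da9ea_nt.FR

open Pool.Agent.Work.MP_8da9ea_nt.EB Pool.Agent.Work.MP_327059_nt.GL Pool.Agent.Work.MP_8da9ea_nt.S
  Pool.Agent.Work.MP_8da9ea_nt.EC Pool.Agent.Work.MP_8da9ea_nt.TG Pool.Agent.ED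

namespace GA

open FinA FinB PolA KA KB K FA F

/-! ## The complement of a subfamily -/

/-- The remaining indices. -/
theorem compl {s s₁ : ℕ} {σ : Fin s₁ → Fin s} (hσ : Function.Injective σ) :
    ∃ σ' : Fin (s - s₁) → Fin s, ∀ i, (∃ l, σ l = i) ∨ ∃ l, σ' l = i := by
  classical
  let T : Finset (Fin s) := Finset.univ \ Finset.univ.image σ
  have hT : T.card = s - s₁ := by
    rw [Finset.card_sdiff_of_subset (Finset.subset_univ _), Finset.card_univ, Fintype.card_fin,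
      Finset.card_image_of_injective _ hσ, Finset.card_univ, Fintype.card_fin]
  let φ : T ≃ Fin (s - s₁) := T.equivFinOfCardEq hT
  refine ⟨fun l => (φ.symm l : Fin s), fun i => ?_⟩
  by_cases hi : ∃ l, σ l = i
  · exact Or.inl hi
  · refine Or.inr ⟨φ ⟨i, ?_⟩, ?_⟩
    · rw [Finset.mem_sdiff]
      refine ⟨Finset.mem_univ i, fun h => hi ?_⟩
      obtain ⟨l, -, hl⟩ := Finset.mem_image.1 h
      exact ⟨l, hl⟩
    · change ((φ.symm (φ ⟨i, _⟩) : T) : Fin s) = i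
      rw [Equiv.symm_apply_apply]

theorem innT_sub {F : IntermediateField ℚ ℂ} {s' s s₁ d : ℕ} {t : Fin s' → ℂ} {u : Fin s → ℂ}
    {t₀ : Fin d → ℂ} {σ : Fin s₁ → Fin s} {σ' : Fin (s - s₁) → Fin s}
    (h : ∀ i, (∃ l, σ l = i) ∨ ∃ l, σ' l = i) (hI : InnT F t (Fin.append u t₀)) :
    InnT F t (Fin.append (fun l => u (σ l)) (Fin.append t₀ fun l => u (σ' l))) := by
  intro x hx hxF
  refine Submodule.span_mono ?_ (hI x hx hxF)
  rintro y (⟨i, rfl⟩ | hy)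
  · refine Or.inl ?_
    refine Fin.addCases (fun i => ?_) (fun i => ?_) i
    · rw [Fin.append_left]
      rcases h i with ⟨l, hl⟩ | ⟨l, hl⟩
      · exact ⟨Fin.castAdd _ l, by rw [Fin.append_left, hl]⟩
      · exact ⟨Fin.natAdd _ (Fin.natAdd _ l), by rw [Fin.append_right, Fin.append_right, hl]⟩
    · rw [Fin.append_right]
      exact ⟨Fin.natAdd _ (Fin.castAdd _ i), by rw [Fin.append_right, Fin.append_left]⟩
  · exact Or.inr hy

/-- Combinations over `k`. -/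
theorem innK_sub {F : IntermediateField ℚ ℂ} {ω₁ ω₂ : ℂ} {τ : ℂ} (hNF : NF τ ω₁ ω₂) {k n n₁ d : ℕ}
    {p : Fin k → ℂ} {v : Fin n → ℂ} {p₀ : Fin d → ℂ} {θ : Fin n₁ → Fin n}
    {θ' : Fin (n - n₁) → Fin n} (h : ∀ i, (∃ l, θ l = i) ∨ ∃ l, θ' l = i)
    (hI : InnK F ω₁ ω₂ p (Fin.append v p₀)) :
    InnK F ω₁ ω₂ p (Fin.append (fun l => v (θ l)) (Fin.append p₀ fun l => v (θ' l))) := by
  classical
  intro g hg hgF
  obtain ⟨a, q, q', ha, hsum⟩ := hI g hg hgF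
  have hkf := (Kf_pf τ hNF.im).2.1
  have hk : ∀ z, InK ω₁ ω₂ z ↔ z ∈ kf τ := fun z => by
    rw [hkf]
    exact hNF.iff z
  -- the space of the combinations
  let W : Submodule (kf τ) ℂ := Submodule.span (kf τ)
    (Set.range (Fin.append (fun l => v (θ l)) (Fin.append p₀ fun l => v (θ' l))))
  have hW : ∑ i, a i * Fin.append v p₀ i ∈ W := by
    refine sum_mem fun i _ => ?_
    have h1 : a i * Fin.append v p₀ i = (⟨a i, (hk _).1 (ha i)⟩ : kf τ) • Fin.append v p₀ i := rfl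
    rw [h1]
    refine Submodule.smul_mem _ _ (Submodule.subset_span ?_)
    refine Fin.addCases (fun i => ?_) (fun i => ?_) i
    · rw [Fin.append_left]
      rcases h i with ⟨l, hl⟩ | ⟨l, hl⟩
      · exact ⟨Fin.castAdd _ l, by rw [Fin.append_left, hl]⟩
      · exact ⟨Fin.natAdd _ (Fin.natAdd _ l), by rw [Fin.append_right, Fin.append_right, hl]⟩
    · rw [Fin.append_right]
      exact ⟨Fin.natAdd _ (Fin.castAdd _ i), by rw [Fin.append_right, Fin.append_left]⟩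
  obtain ⟨c, hc⟩ := (Submodule.mem_span_range_iff_exists_fun (kf τ)).1 hW
  refine ⟨fun i => (c i : ℂ), q, q', fun i => (hk _).2 (c i).2, ?_⟩
  rw [hsum, ← hc]
  rfl

/-! ## Monotonicity of the field -/

theorem big_sub (ω₁ ω₂ : ℂ) {s' k s n s₁ n₁ : ℕ} (t : Fin s' → ℂ) (p : Fin k → ℂ)
    (u : Fin s → ℂ) (v : Fin n → ℂ) (σ : Fin s₁ → Fin s) (θ : Fin n₁ → Fin n) :
    bigField ω₁ ω₂ (Fin.append t fun l => u (σ l)) (Fin.append p fun l => v (θ l)) ≤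
      bigField ω₁ ω₂ (Fin.append t u) (Fin.append p v) := by
  refine big_le ω₁ ω₂ _ _ ?_ ?_ (big_g2 _ _ _ _) (big_g3 _ _ _ _) ?_ ?_ ?_
    (big_o1 _ _ _ _) (big_o2 _ _ _ _) (big_e1 _ _ _ _) (big_e2 _ _ _ _)
  · intro l
    refine Fin.addCases (fun l => ?_) (fun l => ?_) l
    · have := big_t ω₁ ω₂ (Fin.append t u) (Fin.append p v) (Fin.castAdd s l)
      rwa [Fin.append_left] at this ⊢
    · have := big_t ω₁ ω₂ (Fin.append t u) (Fin.append p v) (Fin.natAdd s' (σ l))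
      rwa [Fin.append_right] at this ⊢
  · intro l
    refine Fin.addCases (fun l => ?_) (fun l => ?_) l
    · have := big_exp ω₁ ω₂ (Fin.append t u) (Fin.append p v) (Fin.castAdd s l)
      rwa [Fin.append_left] at this ⊢
    · have := big_exp ω₁ ω₂ (Fin.append t u) (Fin.append p v) (Fin.natAdd s' (σ l))
      rwa [Fin.append_right] at this ⊢
  · intro l
    refine Fin.addCases (fun l => ?_) (fun l => ?_) l
    · have := big_p ω₁ ω₂ (Fin.append t u) (Fin.append p v) (Fin.castAdd n l)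
      rwa [Fin.append_left] at this ⊢
    · have := big_p ω₁ ω₂ (Fin.append t u) (Fin.append p v) (Fin.natAdd k (θ l))
      rwa [Fin.append_right] at this ⊢
  · intro l
    refine Fin.addCases (fun l => ?_) (fun l => ?_) l
    · have := big_wp ω₁ ω₂ (Fin.append t u) (Fin.append p v) (Fin.castAdd n l)
      rwa [Fin.append_left] at this ⊢
    · have := big_wp ω₁ ω₂ (Fin.append t u) (Fin.append p v) (Fin.natAdd k (θ l))
      rwa [Fin.append_right] at this ⊢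
  · intro l
    refine Fin.addCases (fun l => ?_) (fun l => ?_) l
    · have := big_zt ω₁ ω₂ (Fin.append t u) (Fin.append p v) (Fin.castAdd n l)
      rwa [Fin.append_left] at this ⊢
    · have := big_zt ω₁ ω₂ (Fin.append t u) (Fin.append p v) (Fin.natAdd k (θ l))
      rwa [Fin.append_right] at this ⊢

/-! ## The three conclusions -/

theorem genR_of {s s₁ : ℕ} {u : Fin s → ℂ} {σ : Fin s₁ → Fin s} (hσ : Function.Injective σ)
    (h : GenQ CD.cl fun l => u (σ l)) : GenR CD.cl u s₁ := by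
  intro S hS ω₁ ω₂ him hj s' k t p d t₀ hI ρ y hy hyc
  obtain ⟨σ', hσ'⟩ := compl hσ
  have hle : s₁ ≤ s := by
    have := Fintype.card_le_of_injective σ hσ
    rwa [Fintype.card_fin, Fintype.card_fin] at this
  obtain ⟨h1, h2⟩ := h S hS ω₁ ω₂ him hj s' k t p (d + (s - s₁)) _ (innT_sub hσ' hI) ρ y hy hyc
  exact ⟨fun hd => h1 (by omega), fun N hN => h2 N (by omega)⟩

theorem addR_of {τ ω₁ ω₂ : ℂ} (hNF : NF τ ω₁ ω₂) {s' k s n s₁ n₁ : ℕ} (t : Fin s' → ℂ)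
    (p : Fin k → ℂ) (u : Fin s → ℂ) (v : Fin n → ℂ) {σ : Fin s₁ → Fin s} {θ : Fin n₁ → Fin n}
    (hσ : Function.Injective σ) (hθ : Function.Injective θ)
    (h : ∃ K : IntermediateField ℚ ℂ, CD.acl (bigField ω₁ ω₂ t p) ≤ K ∧ (∀ j, u j ∈ K) ∧
      (∀ j, v j / ω₁ ∈ K) ∧ (∀ j, v (θ j) / ω₁ ∉ Lam τ) ∧
      AlgebraicIndependent K (fm τ 1 (fun j => u (σ j)) (fun j => v (θ j) / ω₁))) :
    AddR ω₁ ω₂ t p u v σ θ := by
  classical
  obtain ⟨K, hK, h3, h4, h5, h6⟩ := h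
  have hω : ω₁ ∈ K := hK (CD.le_acl _ (big_o1 _ _ _ _))
  have hs : s₁ ≤ s := by
    have := Fintype.card_le_of_injective σ hσ
    rwa [Fintype.card_fin, Fintype.card_fin] at this
  have hn : n₁ ≤ n := by
    have := Fintype.card_le_of_injective θ hθ
    rwa [Fintype.card_fin, Fintype.card_fin] at this
  obtain ⟨e1, e2, e3, -⟩ := one_ell hNF (Fin.append u v) (fun j => u (σ j)) (fun j => v (θ j)) t p
    h5 (indep_mono (adz_le hK fun i => by
      refine Fin.addCases (fun j => ?_) (fun j => ?_) i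
      · rw [Fin.append_left]
        exact div_mem (h3 j) hω
      · rw [Fin.append_right]
        exact h4 j) h6)
  have e4 : ∀ d, HasTrdeg (bigField ω₁ ω₂ t p) d →
      HasTrdeg (bigField ω₁ ω₂ (Fin.append t u) (Fin.append p v)) (d + s₁ + 2 * n₁) :=
    fun d hd => (e3 d hd).mono (big_sub ω₁ ω₂ t p u v σ θ) le_rfl
  refine ⟨e1, e2, e4, fun hQ => ?_⟩
  unfold Q1
  refine (e4 _ hQ).mono le_rfl ?_
  have f1 := TG.tDim_append t u
  have f2 := I_FinalZ.kDim2_append ω₁ ω₂ p v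
  split_ifs <;> omega

theorem cloR_of {τ ω₁ ω₂ : ℂ} (hNF : NF τ ω₁ ω₂) {s n s₁ n₁ : ℕ} {u : Fin s → ℂ} {v : Fin n → ℂ}
    {σ : Fin s₁ → Fin s} {θ : Fin n₁ → Fin n} (hσ : Function.Injective σ)
    (hθ : Function.Injective θ)
    (h : CloQ CD.cl ω₁ ω₂ (fun l => u (σ l)) (fun l => v (θ l))) : CloR CD.cl ω₁ ω₂ u v s₁ n₁ := by
  intro S hS hj s' k t p d d' t₀ p₀ hI hIK ρ y hy hyc R hR
  obtain ⟨σ', hσ'⟩ := compl hσ
  obtain ⟨θ', hθ'⟩ := compl hθ
  have hs : s₁ ≤ s := by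
    have := Fintype.card_le_of_injective σ hσ
    rwa [Fintype.card_fin, Fintype.card_fin] at this
  have hn : n₁ ≤ n := by
    have := Fintype.card_le_of_injective θ hθ
    rwa [Fintype.card_fin, Fintype.card_fin] at this
  obtain ⟨h1, h2⟩ := h S hS hj s' k t p (d + (s - s₁)) (d' + (n - n₁)) _ _ (innT_sub hσ' hI)
    (innK_sub hNF hθ' hIK) ρ y hy hyc R hR
  refine ⟨fun hd => h1 ?_, fun N hN => h2 N (by omega)⟩
  split_ifs at hd ⊢ <;> omega

/-! ## The main statement applied to a lattice -/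

theorem basMod_U {F : IntermediateField ℚ ℂ} (hF : ACl F) {s s₁ : ℕ} {u : Fin s → ℂ}
    {σ : Fin s₁ → Fin s} (hσ : Function.Injective σ)
    (h' : ∀ c : Fin s₁ → ℚ, Complex.exp (∑ l, (c l : ℂ) * u (σ l)) ∈ F → c = 0)
    (h : ∀ i, ∃ c : Fin s₁ → ℚ, Complex.exp (u i - ∑ l, (c l : ℂ) * u (σ l)) ∈ F) :
    BasMod (Set.range ((↑) : ℚ → ℂ)) u σ (I_KeyW.SE hF) := by
  refine ⟨hσ, fun c hc hcF => ?_, fun i => ?_⟩
  · choose d hd using hc
    have h1 := h' d (by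
      simp only [hd]
      exact hcF)
    funext l
    rw [← hd l, h1, Pi.zero_apply, Pi.zero_apply, Rat.cast_zero]
  obtain ⟨c, hc⟩ := h i
  exact ⟨fun l => (c l : ℂ), fun l => ⟨c l, rfl⟩, hc⟩

theorem basMod_E (l1 : S_LamAddK) (l2 : S_LamMulK) (l4 : S_LamZeroK) {τ ω₁ ω₂ : ℂ}
    (hNF : NF τ ω₁ ω₂) {F : IntermediateField ℚ ℂ} (hG : GF τ 1 F) (hF : ACl F) {n n₁ : ℕ}
    {v : Fin n → ℂ} {θ : Fin n₁ → Fin n} (hθ : Function.Injective θ)
    (h' : ∀ g : Fin n₁ → ℂ, (∀ l, IsE τ (g l)) → PtE τ 1 F (∑ l, g l * (v (θ l) / ω₁)) → g = 0)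
    (h : ∀ j, ∃ g : Fin n₁ → ℂ, (∀ l, IsE τ (g l)) ∧
      PtE τ 1 F (v j / ω₁ - ∑ l, g l * (v (θ l) / ω₁))) :
    BasMod {g | InK ω₁ ω₂ g} v θ (UE l1 l2 hG ω₁) := by
  refine ⟨hθ, fun g hg hgF => h' g (fun l => (hNF.iff _).1 (hg l)) ?_, fun j => ?_⟩
  · rw [mem_UE l1 l2 l4 hG hF] at hgF
    have h9 : (∑ l, g l * v (θ l)) / ω₁ = ∑ l, g l * (v (θ l) / ω₁) := by
      rw [Finset.sum_div]
      exact Finset.sum_congr rfl fun l _ => by ring
    rw [h9] at hgF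
    exact hgF
  obtain ⟨g, hg, hgF⟩ := h j
  refine ⟨g, fun l => (hNF.iff _).2 (hg l), ?_⟩
  rw [mem_UE l1 l2 l4 hG hF]
  have h9 : (v j - ∑ l, g l * v (θ l)) / ω₁ = v j / ω₁ - ∑ l, g l * (v (θ l) / ω₁) := by
    rw [sub_div, Finset.sum_div]
    congr 1
    exact Finset.sum_congr rfl fun l _ => by ring
  rw [h9]
  exact hgF

theorem fkiLat (hFK : S_FKI) (l1 : S_LamAddK) (l2 : S_LamMulK) (l4 : S_LamZeroK) {N s n D : ℕ}
    (e : Fin D → ℂ) {τ ω₁ ω₂ : ℂ} (h : NF τ ω₁ ω₂) (K₀ : IntermediateField ℚ ℂ)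
    (hc : (K₀ : Set ℂ).Countable) (ha : ACl K₀) (h2 : gg2 τ ∈ K₀) (h3 : gg3 τ ∈ K₀)
    (hp : PerK τ 1 K₀) (ht : ¬ HasTrdeg K₀ (N + 1)) :
    ∃ (m : ℕ) (F : Fin m → IntermediateField ℚ ℂ) (hF : ∀ k, ACl (F k)) (hG : ∀ k, GF τ 1 (F k)),
      (∀ k, ¬ HasTrdeg (F k) (N + (s + n) * (2 * s + 3 * n) + 1)) ∧
      ∀ (u : Fin s → ℂ) (v : Fin n → ℂ),
      (∀ j, u j ∈ Submodule.span ℚ (Set.range e)) → (∀ j, v j ∈ Submodule.span ℚ (Set.range e)) →
      ∃ (k : Fin m) (s₁ n₁ : ℕ) (σ : Fin s₁ → Fin s) (θ : Fin n₁ → Fin n),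
        BasMod (Set.range ((↑) : ℚ → ℂ)) u σ (I_KeyW.SE (hF k)) ∧
        BasMod {g | InK ω₁ ω₂ g} v θ (UE l1 l2 (hG k) ω₁) ∧
      ∃ K : IntermediateField ℚ ℂ, K₀ ≤ K ∧ (∀ j, u j ∈ K) ∧ (∀ j, v j / ω₁ ∈ K) ∧
        (∀ j, v (θ j) / ω₁ ∉ Lam τ) ∧
        AlgebraicIndependent K (fm τ 1 (fun l => u (σ l)) (fun j => v (θ j) / ω₁)) := by
  have hG₀ : GF τ 1 K₀ := ⟨h.im, one_ne_zero, by rw [one_pow, one_mul]; exact h2,
    by rw [one_pow, one_mul]; exact h3⟩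
  obtain ⟨m, F, hF, hconc⟩ := hFK τ 1 N s n (s + n) K₀ ⟨hc.to_subtype, ha, fun _ => ⟨hG₀, hp⟩⟩ ht
    (D + D) (Fin.append e fun a => e a / ω₁)
  refine ⟨m, F, fun k => (hF k).1.acl, fun k => ⟨h.im, one_ne_zero, (hF k).2.1 hG₀.g2,
    (hF k).2.1 hG₀.g3⟩, fun k hk => (hF k).2.2 (hk.mono le_rfl ?_), fun u v hu hv => ?_⟩
  · have e1 : (s + n) * (s + 2 * n + (s + n)) = (s + n) * (2 * s + 3 * n) := by ring
    rw [e1]
    omega
  · obtain ⟨k, s₁, n₁, σ, θ, hσ, hθ, g5, g6, h5, h6, h7, h8⟩ := hconc u (fun j => v j / ω₁)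
      (Fin.append u fun j => v j / ω₁) (fun j => span_le_append _ _ (hu j))
      (fun j => div_mem_span _ _ _ (hv j)) (fun l => by
        refine Fin.addCases (fun j => ?_) (fun j => ?_) l
        · rw [Fin.append_left]
          exact span_le_append _ _ (hu j)
        · rw [Fin.append_right]
          exact div_mem_span _ _ _ (hv j))
    refine ⟨k, s₁, n₁, σ, θ, basMod_U (hF k).1.acl hσ g5 h5,
      basMod_E l1 l2 l4 h _ (hF k).1.acl hθ g6 h6,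
      _, fun x hx => IntermediateField.subset_adjoin ℚ _ (Or.inl ((hF k).2.1 hx)), fun j => ?_,
      fun j => ?_, h7, h8⟩
    · exact IntermediateField.subset_adjoin _ _ (Or.inr ⟨Fin.castAdd n j, by rw [Fin.append_left]⟩)
    · exact IntermediateField.subset_adjoin _ _ (Or.inr ⟨Fin.natAdd s j, by rw [Fin.append_right]⟩)

end GA

end Pool.Agent.Work.MP_8da9ea_nt.FR
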