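import Pool.Agent.Work.MP_8da9ea_nt.FR.FDefs

/-!
# All tuples of a finite-dimensional space: definitions for the final theorem
-/

set_option autoImplicit false

namespace Pool.Agent.Work.MP_8da9ea_nt.FR

open Pool.Agent.Work.MP_8da9ea_nt.EC

/-- The numbers `u_(σ l)` are a basis of the `u_i` over `k` modulo `U`: they are independent over `k`
modulo `U`, and every `u_i` is a combination of them with coefficients in `k` modulo `U`. -/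
def BasMod (k : Set ℂ) {s s₁ : ℕ} (u : Fin s → ℂ) (σ : Fin s₁ → Fin s) (U : Submodule ℚ ℂ) : Prop :=
  Function.Injective σ ∧ IndMod k (fun l => u (σ l)) U ∧
    ∀ i, ∃ c : Fin s₁ → ℂ, (∀ l, c l ∈ k) ∧ u i - ∑ l, c l * u (σ l) ∈ U

/-- The conclusion at `u`, if `s₁` of the `s` numbers `u_i` are a basis of them modulo the exceptional
space, for the lattices whose invariant `j` is not in `F = cl S`: the elements of `F` in the span of `t` are in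
the span of `u`, `t₀` and `2πi`. -/
def GenR (cl : Set ℂ → IntermediateField ℚ ℂ) {s : ℕ} (u : Fin s → ℂ) (s₁ : ℕ) : Prop :=
  ∀ S : Set ℂ, S.Countable → ∀ ω₁ ω₂ : ℂ, (ω₂ / ω₁).im ≠ 0 → jInv ω₁ ω₂ ∉ cl S →
  ∀ (s' k : ℕ) (t : Fin s' → ℂ) (p : Fin k → ℂ) (d : ℕ) (t₀ : Fin d → ℂ),
    InnT (cl S) t (Fin.append u t₀) →
  ∀ (ρ : ℕ) (y : Fin ρ → ℂ), (∀ i, IsAlgebraic (bigField ω₁ ω₂ t p) (y i)) →
    (∀ i, y i ∉ cl (S ∪ y '' {j | j < i})) →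
    (d + s ≤ max 1 ρ + s₁ → Q1 ω₁ ω₂ t p) ∧
    ∀ N : ℕ, N + d + s ≤ tDim t + 4 + kDim2 ω₁ ω₂ p + max 1 ρ + s₁ →
      HasTrdeg (bigField ω₁ ω₂ t p) N

/-- The conclusion at `u`, `v`, if the `u_(σ l)`, `v_(θ l)` are bases of the `u_i`, `v_j` modulo the
exceptional spaces, for one lattice and the field `B(t, p)`. -/
def AddR (ω₁ ω₂ : ℂ) {s' k s n : ℕ} (t : Fin s' → ℂ) (p : Fin k → ℂ) (u : Fin s → ℂ)
    (v : Fin n → ℂ) {s₁ n₁ : ℕ} (σ : Fin s₁ → Fin s) (θ : Fin n₁ → Fin n) : Prop :=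
  (∀ j, ∀ a b : ℤ, v (θ j) ≠ a * ω₁ + b * ω₂) ∧
  AlgebraicIndependent (IntermediateField.adjoin ℚ
      ((bigField ω₁ ω₂ t p : Set ℂ) ∪ Set.range (Fin.append u v)))
    (Sum.elim (fun j => Complex.exp (u (σ j)))
      (Sum.elim (fun j => wp ω₁ ω₂ (v (θ j))) (fun j => zt ω₁ ω₂ (v (θ j))))) ∧
  (∀ d, HasTrdeg (bigField ω₁ ω₂ t p) d →
    HasTrdeg (bigField ω₁ ω₂ (Fin.append t u) (Fin.append p v)) (d + s₁ + 2 * n₁)) ∧
  (HasTrdeg (bigField ω₁ ω₂ t p) (tDim t + (open Classical in if IsCM ω₁ ω₂ then 2 else 4) +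
      kDim2 ω₁ ω₂ p + (s - s₁) + 2 * (n - n₁)) → Q1 ω₁ ω₂ (Fin.append t u) (Fin.append p v))

/-- The conclusion at `u`, `v`, if `s₁` of the `s` numbers `u_i` are a basis of them modulo the
exceptional space, and `n₁` of the `n` numbers `v_j` a basis of them over `k`, for one lattice whose invariant `j` is in
`F = cl S`: the elements of `F` in the span of `t` are in the span of `u`, `t₀`, `2πi`, those of `ω₁ F` in
the `k`-span of `p` are in the `k`-span of `v`, `p₀`, `ω₁`. -/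
def CloR (cl : Set ℂ → IntermediateField ℚ ℂ) (ω₁ ω₂ : ℂ) {s n : ℕ} (u : Fin s → ℂ)
    (v : Fin n → ℂ) (s₁ n₁ : ℕ) : Prop :=
  ∀ S : Set ℂ, S.Countable → jInv ω₁ ω₂ ∈ cl S →
  ∀ (s' k : ℕ) (t : Fin s' → ℂ) (p : Fin k → ℂ) (d d' : ℕ) (t₀ : Fin d → ℂ) (p₀ : Fin d' → ℂ),
    InnT (cl S) t (Fin.append u t₀) → InnK (cl S) ω₁ ω₂ p (Fin.append v p₀) →
  ∀ (ρ : ℕ) (y : Fin ρ → ℂ), (∀ i, IsAlgebraic (bigField ω₁ ω₂ t p) (y i)) →
    (∀ i, y i ∉ cl (S ∪ y '' {j | j < i})) →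
  ∀ R : ℕ, R = max ρ (min 1 (modDim (cl S) t + modDim2 (cl S) ω₁ ω₂ p)) →
    ((open Classical in if IsCM ω₁ ω₂ then 0 else 2) + (d + s) + 2 * (d' + n) ≤
      R + s₁ + 2 * n₁ → Q1 ω₁ ω₂ t p) ∧
    ∀ N : ℕ, N + (d + s) + 2 * (d' + n) ≤ tDim t + 2 + kDim2 ω₁ ω₂ p + R + s₁ + 2 * n₁ →
      HasTrdeg (bigField ω₁ ω₂ t p) N

end Pool.Agent.Work.MP_8da9ea_nt.FR
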