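import Pool.Agent.Work.MP_8da9ea_nt.FR.Stmts
import Pool.Agent.Work.MP_8da9ea_nt.EB.I_Kf

/-!
# [AxF] the theorem of Ax in functional form (version 2: the invariants are in the field of constants)
-/

set_option autoImplicit false

namespace Pool.Agent.Work.MP_8da9ea_nt.FR

open MvPolynomial Pool.Agent.Work.MP_327059_nt.GL Pool.Agent.Work.MP_8da9ea_nt.S
  Pool.Agent.Work.MP_8da9ea_nt.EB Pool.Agent.Work.MP_8da9ea_nt.EC

namespace I_AxF

/-- Coordinates modulo a subspace. -/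
theorem decomp {k V : Type} [Field k] [AddCommGroup V] [Module k V] (S : Submodule k V) {s : ℕ}
    (u : Fin s → V) : ∃ (m : ℕ) (b : Fin m → V) (q : Fin s → Fin m → k),
      (∀ j, u j - ∑ i, q j i • b i ∈ S) ∧ ∀ c : Fin m → k, ∑ i, c i • b i ∈ S → c = 0 := by
  let W : Submodule k (V ⧸ S) := Submodule.span k (Set.range fun j => S.mkQ (u j))
  have : Module.Finite k W := Module.Finite.span_of_finite k (Set.finite_range _)
  let e := Module.finBasis k W
  have hlift : ∀ i, ∃ b : V, S.mkQ b = (e i : V ⧸ S) := fun i => Submodule.mkQ_surjective S _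
  choose b hb using hlift
  have hu : ∀ j, S.mkQ (u j) ∈ W := fun j => Submodule.subset_span ⟨j, rfl⟩
  have hker : ∀ x : V, S.mkQ x = 0 ↔ x ∈ S := fun x => Submodule.Quotient.mk_eq_zero S
  refine ⟨_, b, fun j i => e.repr ⟨_, hu j⟩ i, ?_, ?_⟩
  · intro j
    have h1 := e.sum_repr ⟨_, hu j⟩
    have h2 := congrArg W.subtype h1
    rw [map_sum] at h2
    apply (hker _).mp
    rw [map_sub, map_sum, sub_eq_zero]
    rw [show S.mkQ (u j) = W.subtype ⟨_, hu j⟩ from rfl, ← h2]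
    refine Finset.sum_congr rfl fun i _ => ?_
    rw [map_smul, map_smul, hb]
    rfl
  · intro c hc
    rw [← hker, map_sum] at hc
    have h1 : ∑ i, c i • e i = 0 := by
      apply W.subtype_injective
      rw [map_sum, map_zero, ← hc]
      refine Finset.sum_congr rfl fun i _ => ?_
      rw [map_smul, map_smul, hb]
      rfl
    funext i
    exact Fintype.linearIndependent_iff.mp e.linearIndependent c h1 i

theorem th_add (δ : Derivation ℚ ℂ ℂ) (x y : ℂ) : th δ (x + y) = th δ x + th δ y := by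
  unfold th
  have hx := Complex.exp_ne_zero x
  have hy := Complex.exp_ne_zero y
  rw [Complex.exp_add, Derivation.leibniz, smul_eq_mul, smul_eq_mul]
  field_simp
  ring

/-- `th` as a homomorphism. -/
noncomputable def thH (δ : Derivation ℚ ℂ ℂ) : ℂ →+ ℂ := AddMonoidHom.mk' (th δ) (th_add δ)

theorem th_sum (δ : Derivation ℚ ℂ ℂ) {m : ℕ} (q : Fin m → ℚ) (b : Fin m → ℂ) :
    th δ (∑ i, (q i : ℂ) * b i) = ∑ i, (q i : ℂ) * th δ (b i) := by
  have h := map_sum (thH δ) (fun i => (q i : ℂ) * b i) Finset.univ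
  refine h.trans (Finset.sum_congr rfl fun i _ => ?_)
  have h2 := map_rat_smul (thH δ) (q i) (b i)
  rw [Rat.smul_def, Rat.smul_def] at h2
  exact h2

theorem mem_of_der {E : IntermediateField ℚ ℂ} (hE : ACl E) {x : ℂ}
    (h : ∀ δ ∈ DK E, δ x = 0) : x ∈ E := by
  apply hE
  have h1 := Pool.Agent.ED.isAlgebraic_of_derivation (K := ℚ) (E : Set ℂ) x (by
    intro X hX
    exact h X hX)
  have h3 : IntermediateField.adjoin ℚ (E : Set ℂ) = E := IntermediateField.adjoin_self ℚ E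
  rw [h3] at h1
  exact h1

theorem alg_mem {E : IntermediateField ℚ ℂ} (hE : ACl E) {x : ℂ} (hx : IsAlgebraic ℚ x) :
    x ∈ E := hE x (hx.tower_top E)

/-- The `ℚ`-space of the logarithms of elements of `E`. -/
noncomputable def SE {E : IntermediateField ℚ ℂ} (hE : ACl E) : Submodule ℚ ℂ where
  carrier := {x | Complex.exp x ∈ E}
  add_mem' {a b} ha hb := by
    show Complex.exp (a + b) ∈ E
    rw [Complex.exp_add]
    exact mul_mem ha hb
  zero_mem' := by
    show Complex.exp 0 ∈ E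
    rw [Complex.exp_zero]
    exact one_mem _
  smul_mem' q x hx := by
    show Complex.exp (q • x) ∈ E
    apply hE
    have hd : q.den ≠ 0 := q.den_nz
    have h1 : Complex.exp (q • x) ^ q.den = Complex.exp x ^ q.num := by
      rw [← Complex.exp_nat_mul, ← Complex.exp_int_mul, Rat.smul_def]
      congr 1
      have h2 : (q : ℂ) * (q.den : ℂ) = (q.num : ℂ) := by
        have := Rat.mul_den_eq_num q
        exact_mod_cast this
      linear_combination x * h2
    have h3 : Complex.exp x ^ q.num ∈ E := zpow_mem hx _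
    have h4 : IsAlgebraic E (Complex.exp (q • x) ^ q.den) := by
      rw [h1]
      exact isAlgebraic_algebraMap (⟨_, h3⟩ : E)
    exact IsAlgebraic.of_pow (Nat.pos_of_ne_zero hd) h4

theorem lam_zero (τ μ : ℂ) (δ : Derivation ℚ ℂ ℂ) : lam τ μ δ 0 = 0 := by
  have h0 : (0 : ℂ) ∈ Lam τ := by
    rw [mem_Lam]
    exact ⟨0, 0, by simp⟩
  unfold lam
  rw [if_pos h0]

/-- The space of the points defined over `E`. -/
noncomputable def SL (l1 : S_LamAddK) (l2 : S_LamMulK) {τ μ : ℂ} {E : IntermediateField ℚ ℂ}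
    (hG : GF τ μ E) : Submodule (kf τ) ℂ where
  carrier := {x | ∀ δ ∈ DK E, lam τ μ δ x = 0}
  add_mem' {a b} ha hb δ hδ := by
    rw [l1 τ μ E hG δ hδ, ha δ hδ, hb δ hδ, add_zero]
  zero_mem' δ _ := lam_zero τ μ δ
  smul_mem' g x hx δ hδ := by
    have hg : IsE τ (g : ℂ) := ((Kf_pf τ hG.im).2.1 g).mp g.2
    show lam τ μ δ ((g : ℂ) * x) = 0
    rw [l2 τ μ E hG δ hδ g x hg, hx δ hδ, mul_zero]

theorem swap {m s : ℕ} (κ : Fin s → ℂ) (q : Fin s → Fin m → ℂ) (x : Fin m → ℂ) :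
    ∑ i, (∑ j, κ j * q j i) * x i = ∑ j, κ j * ∑ i, q j i * x i := by
  simp only [Finset.sum_mul, Finset.mul_sum]
  rw [Finset.sum_comm]
  refine Finset.sum_congr rfl fun j _ => Finset.sum_congr rfl fun i _ => ?_
  ring

/-- `η_δ` on a sum. -/
theorem etf_sum (l3 : S_EtaAddK) {τ μ : ℂ} {E : IntermediateField ℚ ℂ} (hG : GF τ μ E)
    (hP : PerK τ μ E) {δ : Derivation ℚ ℂ ℂ} (hδ : δ ∈ DK E) {m : ℕ} (x : Fin m → ℂ) :
    etf τ μ δ (∑ i, x i) = ∑ i, etf τ μ δ (x i) :=
  map_sum (AddMonoidHom.mk' (etf τ μ δ) (l3 τ μ E hG hP δ hδ)) x Finset.univ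

/-- The case without elliptic points. -/
theorem ax_zero (h1 : S_MixAx) {τ μ : ℂ} {E : IntermediateField ℚ ℂ} (hc : Countable E)
    (hE : ACl E) {s : ℕ} (u : Fin s → ℂ) (κ : Fin s → ℂ) (hκ : ∀ o, κ o ∈ E) (T : ℂ)
    (hrel : ∀ δ ∈ DK E, ∑ o, κ o * th δ (u o) = δ T) (f : ℂ →ₗ[ℚ] ℚ)
    (hf : ∀ x, Complex.exp x ∈ E → f x = 0) : ∑ j, κ j * (f (u j) : ℂ) = 0 := by
  obtain ⟨m, b, q, hq, hb⟩ := decomp (SE hE) u
  have e1 : ∀ δ ∈ DK E, ∀ j, th δ (u j) = ∑ i, (q j i : ℂ) * th δ (b i) := by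
    intro δ hδ j
    have h3 : u j = ∑ i, (q j i : ℂ) * b i + (u j - ∑ i, q j i • b i) := by
      have h4 : ∑ i, q j i • b i = ∑ i, (q j i : ℂ) * b i :=
        Finset.sum_congr rfl fun i _ => Rat.smul_def _ _
      rw [h4]
      ring
    have h5 : th δ (u j - ∑ i, q j i • b i) = 0 := by
      unfold th
      rw [hδ _ (hq j), zero_div]
    conv_lhs => rw [h3]
    rw [th_add, th_sum, h5, add_zero]
  set A : Fin m → ℂ := fun i => ∑ j, κ j * (q j i : ℂ) with hA
  have hAE : ∀ i, A i ∈ E := fun i => sum_mem fun j _ =>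
    mul_mem (hκ _) (SubfieldClass.ratCast_mem E _)
  obtain ⟨zA, -, -⟩ := h1 τ μ E hc hE (Fin m) (Fin 0) (fun h => h.some.elim0) b
    (fun j => j.elim0) (by
      intro c hc
      apply hb c
      have h3 : ∑ i, c i • b i = ∑ i, (c i : ℂ) * b i :=
        Finset.sum_congr rfl fun i _ => Rat.smul_def _ _
      show Complex.exp (∑ i, c i • b i) ∈ E
      rw [h3]
      exact hc) (fun c _ _ => funext fun j => j.elim0) A (fun j => j.elim0) (fun j => j.elim0)
    hAE (fun j => j.elim0) (fun j => j.elim0) T (by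
      intro δ hδ
      rw [← hrel δ hδ, Fin.sum_univ_zero, Fin.sum_univ_zero, add_zero, add_zero]
      have h8 : ∑ i, A i * th δ (b i) = ∑ j, κ j * ∑ i, (q j i : ℂ) * th δ (b i) :=
        swap _ _ _
      rw [h8]
      refine Finset.sum_congr rfl fun j _ => ?_
      rw [e1 δ hδ j])
  have h3 : ∀ j, f (u j) = ∑ i, q j i * f (b i) := by
    intro j
    have h4 : f (u j - ∑ i, q j i • b i) = 0 := hf _ (hq j)
    rw [map_sub, map_sum, sub_eq_zero] at h4
    rw [h4]
    refine Finset.sum_congr rfl fun i _ => ?_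
    rw [map_smul, smul_eq_mul]
  have h5 : ∑ j, κ j * (f (u j) : ℂ) = ∑ i, A i * (f (b i) : ℂ) := by
    rw [hA, swap]
    refine Finset.sum_congr rfl fun j _ => ?_
    rw [h3 j]
    push_cast
    rfl
  rw [h5, zA]
  simp

end I_AxF

open I_AxF in
/-- **[FR3]** -/
theorem AxF_pf (h1 : S_MixAx) (h2 : S_EtaMul) (l1 : S_LamAddK) (l2 : S_LamMulK)
    (l3 : S_EtaAddK) (l4 : S_LamZeroK) : S_AxF := by
  classical
  intro τ μ E s n hKF u v κ hκ T0 hrel
  have hE : ACl E := hKF.acl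
  rcases Nat.eq_zero_or_pos n with rfl | hn
  · refine ⟨fun f hf => ?_, fun f _ => ?_⟩
    · refine ax_zero h1 (τ := τ) (μ := μ) hKF.cnt hE u (fun j => κ (Sum.inl j))
        (fun j => hκ _) T0 (fun δ hδ => ?_) f hf
      rw [← hrel δ hδ, Fintype.sum_sum_type]
      have h3 : ∑ o : Fin 0 × Bool, κ (Sum.inr o) * omV τ μ u v δ (Sum.inr o) = 0 :=
        Finset.sum_eq_zero fun o _ => o.1.elim0
      rw [h3, add_zero]
      rfl
    · exact ⟨Fin.sum_univ_zero _, fun _ => Fin.sum_univ_zero _⟩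
  obtain ⟨hG, hP⟩ := hKF.ell hn
  have hKf := Kf_pf τ hG.im
  obtain ⟨m, b, q, hq, hb⟩ := decomp (SE hE) u
  obtain ⟨m', b', g, hg, hb'⟩ := decomp (SL l1 l2 hG) v
  -- the constants of FR2
  have hEM : ∀ g : kf τ, ∃ a c : ℂ, ∀ δ ∈ DK E, δ a = 0 ∧ δ c = 0 ∧ ∀ u : ℂ,
        etf τ μ δ ((g : ℂ) * u) = (starRingEnd ℂ) (g : ℂ) * etf τ μ δ u +
          a * lam τ μ δ u + c * δ u := fun g => h2 τ μ E hG hP g ((hKf.2.1 g).mp g.2)
  choose ea ec hEM using hEM
  have hea : ∀ g : kf τ, ea g ∈ E ∧ ec g ∈ E := by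
    intro g
    refine ⟨mem_of_der hE fun δ hδ => ?_, mem_of_der hE fun δ hδ => ?_⟩
    · exact (hEM g δ hδ).1
    · exact (hEM g δ hδ).2.1
  have hgE : ∀ g : kf τ, (g : ℂ) ∈ E := fun g => alg_mem hE (hKf.1 _ ((hKf.2.1 g).mp g.2))
  have hcE : ∀ g : kf τ, (starRingEnd ℂ) (g : ℂ) ∈ E := by
    intro g
    have h3 := hKf.1 _ ((hKf.2.1 g).mp g.2)
    exact alg_mem hE (h3.algHom (starRingEnd ℂ).toRatAlgHom)
  -- the decompositions
  have e1 : ∀ δ ∈ DK E, ∀ j, th δ (u j) = ∑ i, (q j i : ℂ) * th δ (b i) := by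
    intro δ hδ j
    have h3 : u j = ∑ i, (q j i : ℂ) * b i + (u j - ∑ i, q j i • b i) := by
      have h4 : ∑ i, q j i • b i = ∑ i, (q j i : ℂ) * b i :=
        Finset.sum_congr rfl fun i _ => Rat.smul_def _ _
      rw [h4]
      ring
    have h5 : th δ (u j - ∑ i, q j i • b i) = 0 := by
      unfold th
      rw [hδ _ (hq j), zero_div]
    conv_lhs => rw [h3]
    rw [th_add, th_sum, h5, add_zero]
  have hv : ∀ j, v j = ∑ i, (g j i : ℂ) * b' i + (v j - ∑ i, g j i • b' i) := by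
    intro j
    have h4 : ∑ i, g j i • b' i = ∑ i, (g j i : ℂ) * b' i :=
      Finset.sum_congr rfl fun i _ => rfl
    rw [h4]
    ring
  have e2 : ∀ δ ∈ DK E, ∀ j, lam τ μ δ (v j) = ∑ i, (g j i : ℂ) * lam τ μ δ (b' i) := by
    intro δ hδ j
    conv_lhs => rw [hv j]
    rw [l1 τ μ E hG δ hδ, hg j δ hδ, add_zero]
    have h3 := map_sum (AddMonoidHom.mk' (lam τ μ δ) (l1 τ μ E hG δ hδ))
      (fun i => (g j i : ℂ) * b' i) Finset.univ
    refine h3.trans (Finset.sum_congr rfl fun i _ => ?_)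
    exact l2 τ μ E hG δ hδ (g j i) (b' i) ((hKf.2.1 _).mp (g j i).2)
  -- the remainder of `η`
  let zz : Fin n → ℂ := fun j => if v j - ∑ i, g j i • b' i ∈ Lam τ then 0 else ze τ μ (v j - ∑ i, g j i • b' i)
  have hzz : ∀ δ ∈ DK E, ∀ j, etf τ μ δ (v j - ∑ i, g j i • b' i) = δ (zz j) := by
    intro δ hδ j
    have h3 := hg j δ hδ
    show etf τ μ δ (v j - ∑ i, g j i • b' i) = δ (if v j - ∑ i, g j i • b' i ∈ Lam τ then 0
      else ze τ μ (v j - ∑ i, g j i • b' i))
    unfold etf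
    split_ifs with h4
    · rw [map_zero]
    · rw [h3, mul_zero, add_zero]
  have e3 : ∀ δ ∈ DK E, ∀ j, etf τ μ δ (v j) =
      ∑ i, ((starRingEnd ℂ) (g j i : ℂ) * etf τ μ δ (b' i) + ea (g j i) * lam τ μ δ (b' i) +
        ec (g j i) * δ (b' i)) + δ (zz j) := by
    intro δ hδ j
    conv_lhs => rw [hv j]
    rw [l3 τ μ E hG hP δ hδ, hzz δ hδ j, etf_sum l3 hG hP hδ]
    congr 1
    refine Finset.sum_congr rfl fun i _ => ?_
    exact (hEM (g j i) δ hδ).2.2 (b' i)
  -- the coefficients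
  set A : Fin m → ℂ := fun i => ∑ j, κ (Sum.inl j) * (q j i : ℂ) with hA
  set B : Fin m' → ℂ := fun i => ∑ j, κ (Sum.inr (j, false)) * (g j i : ℂ) +
    ∑ j, κ (Sum.inr (j, true)) * ea (g j i) with hB
  set C : Fin m' → ℂ := fun i => ∑ j, κ (Sum.inr (j, true)) * (starRingEnd ℂ) (g j i : ℂ) with hC
  set T : ℂ := T0 - ∑ j, κ (Sum.inr (j, true)) * (∑ i, ec (g j i) * b' i + zz j) with hT
  have hmain : ∀ δ ∈ DK E, ∑ i, A i * th δ (b i) + ∑ i, B i * lam τ μ δ (b' i) +
      ∑ i, C i * etf τ μ δ (b' i) = δ T := by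
    intro δ hδ
    have h3 := hrel δ hδ
    rw [Fintype.sum_sum_type, Fintype.sum_prod_type] at h3
    simp only [Fintype.sum_bool] at h3
    have h4 : ∀ j, κ (Sum.inl j) * omV τ μ u v δ (Sum.inl j) =
        κ (Sum.inl j) * ∑ i, (q j i : ℂ) * th δ (b i) := by
      intro j
      rw [← e1 δ hδ j]
      rfl
    have h5 : ∀ j, κ (Sum.inr (j, true)) * omV τ μ u v δ (Sum.inr (j, true)) +
        κ (Sum.inr (j, false)) * omV τ μ u v δ (Sum.inr (j, false)) =
        κ (Sum.inr (j, true)) * (∑ i, (starRingEnd ℂ) (g j i : ℂ) * etf τ μ δ (b' i)) +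
        κ (Sum.inr (j, true)) * (∑ i, ea (g j i) * lam τ μ δ (b' i)) +
        κ (Sum.inr (j, true)) * (∑ i, ec (g j i) * δ (b' i) + δ (zz j)) +
        κ (Sum.inr (j, false)) * ∑ i, (g j i : ℂ) * lam τ μ δ (b' i) := by
      intro j
      have h6 : omV τ μ u v δ (Sum.inr (j, true)) = etf τ μ δ (v j) := by
        simp [omV]
      have h7 : omV τ μ u v δ (Sum.inr (j, false)) = lam τ μ δ (v j) := by
        simp [omV]
      rw [h6, h7, e2 δ hδ j, e3 δ hδ j, Finset.sum_add_distrib, Finset.sum_add_distrib]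
      ring
    rw [Finset.sum_congr rfl fun j _ => h4 j, Finset.sum_congr rfl fun j _ => h5 j,
      Finset.sum_add_distrib, Finset.sum_add_distrib, Finset.sum_add_distrib] at h3
    have h8 : ∑ i, A i * th δ (b i) = ∑ j, κ (Sum.inl j) * ∑ i, (q j i : ℂ) * th δ (b i) :=
      swap _ _ _
    have h9 : ∑ i, C i * etf τ μ δ (b' i) = ∑ j, κ (Sum.inr (j, true)) *
        ∑ i, (starRingEnd ℂ) (g j i : ℂ) * etf τ μ δ (b' i) := swap _ _ _
    have h10 : ∑ i, B i * lam τ μ δ (b' i) = ∑ j, κ (Sum.inr (j, false)) *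
        ∑ i, (g j i : ℂ) * lam τ μ δ (b' i) + ∑ j, κ (Sum.inr (j, true)) *
        ∑ i, ea (g j i) * lam τ μ δ (b' i) := by
      rw [← swap, ← swap, ← Finset.sum_add_distrib]
      refine Finset.sum_congr rfl fun i _ => ?_
      rw [hB]
      ring
    have h11 : δ T = δ T0 - ∑ j, κ (Sum.inr (j, true)) *
        (∑ i, ec (g j i) * δ (b' i) + δ (zz j)) := by
      rw [hT, map_sub, map_sum]
      congr 1
      refine Finset.sum_congr rfl fun j _ => ?_
      rw [Derivation.leibniz, hδ _ (hκ _), smul_zero, add_zero, smul_eq_mul, map_add, map_sum]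
      congr 2
      refine Finset.sum_congr rfl fun i _ => ?_
      rw [Derivation.leibniz, hδ _ (hea _).2, smul_zero, add_zero, smul_eq_mul]
    rw [h8, h9, h10, h11]
    linear_combination h3
  have hAE : ∀ i, A i ∈ E := fun i => sum_mem fun j _ =>
    mul_mem (hκ _) (SubfieldClass.ratCast_mem E _)
  have hCE : ∀ i, C i ∈ E := fun i => sum_mem fun j _ => mul_mem (hκ _) (hcE _)
  have hBE : ∀ i, B i ∈ E := fun i => add_mem
    (sum_mem fun j _ => mul_mem (hκ _) (hgE _))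
    (sum_mem fun j _ => mul_mem (hκ _) (hea _).1)
  obtain ⟨zA, zB, zC⟩ := h1 τ μ E hKF.cnt hE (Fin m) (Fin m') (fun _ => hG) b b' (by
      intro c hc
      apply hb c
      have h3 : ∑ i, c i • b i = ∑ i, (c i : ℂ) * b i :=
        Finset.sum_congr rfl fun i _ => Rat.smul_def _ _
      show Complex.exp (∑ i, c i • b i) ∈ E
      rw [h3]
      exact hc) (by
      intro c hc hmem
      have h3 := hb' (fun i => ⟨c i, (hKf.2.1 _).mpr (hc i)⟩) (by
        intro δ hδ
        exact ((l4 τ μ E hG hE _).mpr hmem) δ hδ)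
      funext i
      have h4 := congrFun h3 i
      exact congrArg (fun x : kf τ => (x : ℂ)) h4) A B C hAE hBE hCE T hmain
  refine ⟨?_, ?_⟩
  · intro f hf
    have h3 : ∀ j, f (u j) = ∑ i, q j i * f (b i) := by
      intro j
      have h4 : f (u j - ∑ i, q j i • b i) = 0 := hf _ (hq j)
      rw [map_sub, map_sum, sub_eq_zero] at h4
      rw [h4]
      refine Finset.sum_congr rfl fun i _ => ?_
      rw [map_smul, smul_eq_mul]
    have h5 : ∑ j, κ (Sum.inl j) * (f (u j) : ℂ) = ∑ i, A i * (f (b i) : ℂ) := by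
      rw [hA, swap]
      refine Finset.sum_congr rfl fun j _ => ?_
      rw [h3 j]
      push_cast
      rfl
    rw [h5, zA]
    simp
  · intro f hf
    have h3 : ∀ j, (f (v j) : ℂ) = ∑ i, (g j i : ℂ) * (f (b' i) : ℂ) := by
      intro j
      have h4 : f (v j - ∑ i, g j i • b' i) = 0 :=
        hf _ ((l4 τ μ E hG hE _).mp (hg j))
      rw [map_sub, map_sum, sub_eq_zero] at h4
      rw [h4]
      have h5 : ((∑ i, f (g j i • b' i) : kf τ) : ℂ) = ∑ i, ((f (g j i • b' i) : kf τ) : ℂ) :=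
        map_sum (algebraMap (kf τ) ℂ) _ _
      rw [h5]
      refine Finset.sum_congr rfl fun i _ => ?_
      rw [map_smul, smul_eq_mul]
      rfl
    constructor
    · have h5 : ∑ j, κ (Sum.inr (j, true)) * (starRingEnd ℂ) (f (v j) : ℂ) =
          ∑ i, C i * (starRingEnd ℂ) (f (b' i) : ℂ) := by
        rw [hC, swap]
        refine Finset.sum_congr rfl fun j _ => ?_
        rw [h3 j, map_sum]
        simp only [map_mul]
      rw [h5, zC]
      simp
    · intro hz
      have h5 : ∑ j, κ (Sum.inr (j, false)) * (f (v j) : ℂ) =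
          ∑ i, B i * (f (b' i) : ℂ) := by
        have h6 : B = fun i => ∑ j, κ (Sum.inr (j, false)) * (g j i : ℂ) := by
          funext i
          rw [hB]
          simp [hz]
        rw [h6, swap]
        refine Finset.sum_congr rfl fun j _ => ?_
        rw [h3 j]
      rw [h5, zB]
      simp

end Pool.Agent.Work.MP_8da9ea_nt.FR
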