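import Pool.Agent.Work.MP_8da9ea_nt.FR.StmtsF
import Mathlib.FieldTheory.IsAlgClosed.Classification
import Mathlib.RingTheory.Ideal.MinimalPrime.Noetherian
import Mathlib.RingTheory.Polynomial.Basic

/-!
# Block FK, item DecK: decomposition of a set of rational points over a countable field
-/

set_option autoImplicit false

namespace Pool.Agent.Work.MP_8da9ea_nt.FR

open MvPolynomial Metric Filter Topology Pool.Agent.Work.MP_327059_nt.GL
  Pool.Agent.Work.MP_8da9ea_nt.S Pool.Agent.Work.MP_8da9ea_nt.EB Pool.Agent.Work.MP_8da9ea_nt.EC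

namespace I_DecK

open Cardinal

/-- A countable extension of a countable subfield `k` of `ℂ` embeds into `ℂ` over `k`. -/
lemma emb (k : IntermediateField ℚ ℂ) [Countable k] (K : Type) [Field K] [Algebra k K]
    [Countable K] : Nonempty (K →ₐ[k] ℂ) := by
  obtain ⟨s, hs⟩ := exists_isTranscendenceBasis k K
  obtain ⟨t, ht⟩ := exists_isTranscendenceBasis k ℂ
  have hC : ℵ₀ < #ℂ := by
    rw [Cardinal.mk_complex]
    exact Cardinal.aleph0_lt_continuum
  have h1 : #ℂ = #t :=
    IsAlgClosed.cardinal_eq_cardinal_transcendence_basis_of_aleph0_lt' _ ht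
      Cardinal.mk_le_aleph0 hC
  have h2 : #s ≤ #t := by
    rw [← h1]
    exact (Cardinal.mk_le_aleph0 (α := s)).trans hC.le
  obtain ⟨j⟩ := (Cardinal.le_def _ _).1 h2
  have hw : AlgebraicIndependent k (fun i : s => ((j i : t) : ℂ)) :=
    ht.1.comp j j.injective
  let φ : Algebra.adjoin k (Set.range ((↑) : s → K)) →ₐ[k] ℂ :=
    (aeval (fun i : s => ((j i : t) : ℂ))).comp (hs.1.aevalEquiv.symm : _ →ₐ[k] MvPolynomial s k)
  have hφ : Function.Injective φ := by
    intro a b hab
    have h3 : Function.Injective (aeval (R := k) (fun i : s => ((j i : t) : ℂ))) := hw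
    exact hs.1.aevalEquiv.symm.injective (h3 hab)
  let : Algebra (Algebra.adjoin k (Set.range ((↑) : s → K))) ℂ := φ.toRingHom.toAlgebra
  have hmap : ∀ a, algebraMap (Algebra.adjoin k (Set.range ((↑) : s → K))) ℂ a = φ a := fun a => rfl
  have : FaithfulSMul (Algebra.adjoin k (Set.range ((↑) : s → K))) ℂ := by
    rw [faithfulSMul_iff_algebraMap_injective]
    exact hφ
  have : Algebra.IsAlgebraic (Algebra.adjoin k (Set.range ((↑) : s → K))) K := hs.isAlgebraic
  let ψ : K →ₐ[Algebra.adjoin k (Set.range ((↑) : s → K))] ℂ := IsAlgClosed.lift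
  refine ⟨{ ψ.toRingHom with commutes' := fun c => ?_ }⟩
  have h4 : algebraMap k K c =
      algebraMap (Algebra.adjoin k (Set.range ((↑) : s → K))) K (algebraMap k _ c) := rfl
  show ψ (algebraMap k K c) = algebraMap k ℂ c
  rw [h4, ψ.commutes, hmap, φ.commutes]

lemma cnt (A K : Type) [CommRing A] [Field K] [Algebra A K] [IsFractionRing A K] [Countable A] :
    Countable K := by
  have h : #K ≤ ℵ₀ :=
    (IsLocalization.cardinalMk_le (nonZeroDivisors A)).trans Cardinal.mk_le_aleph0
  exact Cardinal.mk_le_aleph0_iff.1 h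

/-- A prime ideal is the ideal of a point with complex coordinates. -/
lemma point (k : IntermediateField ℚ ℂ) [Countable k] {I : Type} [Fintype I]
    (P : Ideal (MvPolynomial I k)) (hP : P.IsPrime) :
    ∃ ξ : I → ℂ, ∀ f : MvPolynomial I k, aeval ξ f = 0 ↔ f ∈ P := by
  let A := MvPolynomial I k ⧸ P
  let K := FractionRing A
  have : Countable (MvPolynomial I k) := by
    have h : #(MvPolynomial I k) ≤ ℵ₀ := by
      refine (MvPolynomial.cardinalMk_le_max).trans ?_
      exact max_le (max_le Cardinal.mk_le_aleph0 Cardinal.mk_le_aleph0) le_rfl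
    exact Cardinal.mk_le_aleph0_iff.1 h
  have : Countable A := Function.Surjective.countable (Ideal.Quotient.mk_surjective (I := P))
  have : Countable K := cnt A K
  obtain ⟨φ⟩ := emb k K
  let ψ : MvPolynomial I k →ₐ[k] ℂ :=
    (φ.comp (IsScalarTower.toAlgHom k A K)).comp (Ideal.Quotient.mkₐ k P)
  have hψ : ∀ f, ψ f = 0 ↔ f ∈ P := by
    intro f
    have h1 : ψ f = φ (algebraMap A K (Ideal.Quotient.mk P f)) := rfl
    rw [h1, map_eq_zero_iff φ φ.toRingHom.injective,
      map_eq_zero_iff _ (IsFractionRing.injective A K), Ideal.Quotient.eq_zero_iff_mem]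
  refine ⟨fun i => ψ (X i), fun f => ?_⟩
  rw [← hψ f]
  have h2 : (aeval (fun i => ψ (X i)) : MvPolynomial I k →ₐ[k] ℂ) = ψ := by
    apply MvPolynomial.algHom_ext
    intro i
    simp
  rw [h2]

end I_DecK

open I_DecK in
/-- **F1, decomposition over a countable field.** -/
theorem DecK_pf : S_DecK := by
  classical
  intro k₁ hk I _ E
  have : Countable k₁ := hk
  -- the ideal of polynomials vanishing on `E`
  let J : Ideal (MvPolynomial I k₁) :=
    { carrier := {f | ∀ x ∈ E, av x f = 0}
      add_mem' := fun {a b} ha hb x hx => by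
        have h1 := ha x hx
        have h2 := hb x hx
        simp only [av] at h1 h2 ⊢
        rw [map_add, h1, h2, add_zero]
      zero_mem' := fun x _ => map_zero _
      smul_mem' := fun c {a} ha x hx => by
        have h1 := ha x hx
        simp only [av] at h1 ⊢
        rw [smul_eq_mul, map_mul, h1, mul_zero] }
  have hJ : ∀ f, f ∈ J ↔ ∀ x ∈ E, av x f = 0 := fun f => Iff.rfl
  have hfin : J.minimalPrimes.Finite := Ideal.finite_minimalPrimes_of_isNoetherianRing _ J
  have : Fintype J.minimalPrimes := hfin.fintype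
  let e := Fintype.equivFin J.minimalPrimes
  let P : Fin (Fintype.card J.minimalPrimes) → Ideal (MvPolynomial I k₁) := fun k => (e.symm k).1
  have hPm : ∀ k, P k ∈ J.minimalPrimes := fun k => (e.symm k).2
  have hPp : ∀ k, (P k).IsPrime := fun k => (hPm k).1.1
  have hPJ : ∀ k, J ≤ P k := fun k => (hPm k).1.2
  choose ξ hξ using fun k => point k₁ (P k) (hPp k)
  have hcov : ∀ x ∈ E, ∃ k, ∀ f ∈ P k, av x f = 0 := by
    intro x hx
    have hpr : (RingHom.ker (aeval (fun i => ((x i : ℚ) : ℂ)) : MvPolynomial I k₁ →ₐ[k₁] ℂ)).IsPrime :=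
      RingHom.ker_isPrime _
    have hle : J ≤ RingHom.ker (aeval (fun i => ((x i : ℚ) : ℂ)) : MvPolynomial I k₁ →ₐ[k₁] ℂ) :=
      fun f hf => hf x hx
    obtain ⟨p, hp, hple⟩ := Ideal.exists_minimalPrimes_le hle
    refine ⟨e ⟨p, hp⟩, ?_⟩
    intro f hf
    have h1 : P (e ⟨p, hp⟩) = p := by
      show (e.symm (e ⟨p, hp⟩)).1 = p
      rw [Equiv.symm_apply_apply]
    rw [h1] at hf
    exact hple hf
  refine ⟨Fintype.card J.minimalPrimes, ξ, fun k => {x | x ∈ E ∧ ∀ f ∈ P k, av x f = 0},
    fun x hx => ?_, fun k => ⟨fun x hx => hx.1, fun f => ?_⟩⟩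
  · obtain ⟨k, hk⟩ := hcov x hx
    exact ⟨k, hx, hk⟩
  · rw [hξ]
    constructor
    · intro hf x hx
      exact hx.2 f hf
    intro hf
    -- a polynomial in the other primes
    have hg : ∃ g, g ∉ P k ∧ ∀ j, j ≠ k → g ∈ P j := by
      by_contra hcon
      push Not at hcon
      have h1 : (Finset.univ.erase k).inf P ≤ P k := by
        intro g hg
        by_contra h2
        obtain ⟨j, hj, hgj⟩ := hcon g h2
        have h3 : (Finset.univ.erase k).inf P ≤ P j :=
          Finset.inf_le (Finset.mem_erase.2 ⟨hj, Finset.mem_univ j⟩)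
        exact hgj (h3 hg)
      obtain ⟨j, hj, hjk⟩ := ((hPp k).inf_le').1 h1
      have h3 : P k ≤ P j := (hPm k).2 ⟨hPp j, hPJ j⟩ hjk
      have h4 : P j = P k := le_antisymm hjk h3
      have h5 : e.symm j = e.symm k := Subtype.ext h4
      exact (Finset.mem_erase.1 hj).1 (e.symm.injective h5)
    obtain ⟨g, hgk, hgj⟩ := hg
    have hfg : f * g ∈ J := by
      rw [hJ]
      intro x hx
      obtain ⟨j, hj⟩ := hcov x hx
      by_cases hjk : j = k
      · subst hjk
        have h1 := hf x ⟨hx, hj⟩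
        simp only [av] at h1 ⊢
        rw [map_mul, h1, zero_mul]
      · have h1 := hj g (hgj j hjk)
        simp only [av] at h1 ⊢
        rw [map_mul, h1, mul_zero]
    rcases (hPp k).mem_or_mem (hPJ k hfg) with h | h
    · exact h
    · exact absurd h hgk

end Pool.Agent.Work.MP_8da9ea_nt.FR
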