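import Pool.Agent.Work.MP_8da9ea_nt.FR.StmtsK

/-!
# Item K13: lattices with algebraic invariants
-/

set_option autoImplicit false

namespace Pool.Agent.Work.MP_8da9ea_nt.FR

open MvPolynomial Metric Filter Topology Pool.Agent.Work.MP_327059_nt.GL
  Pool.Agent.Work.MP_8da9ea_nt.S Pool.Agent.Work.MP_8da9ea_nt.EB Pool.Agent.Work.MP_8da9ea_nt.EC

/-- **K13** -/
theorem FRKA_pf (h1 : S_FRKG) (h2 : S_NoSmallK) : S_FRKA := by
  intro Q N s n ρ κ
  obtain ⟨n₀, h⟩ := h2 Q (N + s + 2 * n + ρ + 2) κ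
  refine ⟨n₀, ?_⟩
  intro τ μ a x hFT hli hx hn D e he hV
  refine h1 N s n ρ κ τ μ D e he fun E _ hE => ?_
  haveI : FiniteDimensional ℚ (Submodule.span ℚ (Set.range e)) :=
    FiniteDimensional.span_of_finite ℚ (Set.finite_range e)
  exact h a x hFT hli hx (Submodule.span ℚ (Set.range e)) inferInstance hV τ μ n hn E hE

end Pool.Agent.Work.MP_8da9ea_nt.FR
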