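import Pool.Agent.Work.MP_8da9ea_nt.FR.StmtsV

/-!
# V10, the main statement for every lattice
-/

set_option autoImplicit false

namespace Pool.Agent.Work.MP_8da9ea_nt.FR

open MvPolynomial Pool.Agent.Work.MP_327059_nt.GL Pool.Agent.Work.MP_8da9ea_nt.S
  Pool.Agent.Work.MP_8da9ea_nt.EB Pool.Agent.Work.MP_8da9ea_nt.EC

namespace I_FRMainV

/-- The span of `x` is stable under `L` as soon as the products `l x_a` are in it. -/
lemma stab_span {L : IntermediateField ℚ ℂ} {ν : ℕ} {x : Fin ν → ℂ} (h : Stab L x) :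
    ∀ β ∈ L, ∀ y ∈ Submodule.span ℚ (Set.range x), β * y ∈ Submodule.span ℚ (Set.range x) := by
  intro β hβ y hy
  induction hy using Submodule.span_induction with
  | mem y hy =>
    obtain ⟨l, rfl⟩ := hy
    exact h β hβ l
  | zero =>
    rw [mul_zero]
    exact Submodule.zero_mem _
  | add y y' _ _ h1 h2 =>
    rw [mul_add]
    exact Submodule.add_mem _ h1 h2
  | smul q y _ h1 =>
    rw [mul_smul_comm]
    exact Submodule.smul_mem _ q h1

end I_FRMainV

open I_FRMainV in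
/-- **V10, the main statement for every lattice.** -/
theorem FRMainV_pf (h1 : S_Core) (h2 : S_FormA) (h3 : S_FormB) (h4 : S_NoSmallV) :
    S_FRMainV := by
  intro N s n q
  obtain ⟨n₀, hn₀⟩ := h4 (N + s + 2 * n + q + 2)
  refine ⟨n₀, ?_⟩
  intro τ μ L hL hLn hE ν hν x hx hst ω hω K₀ hc hacl hG hper hKN β hβ hβi β' hβ' hβi'
  have hV := stab_span hst
  have hKF : KF n τ μ K₀ := ⟨hc.to_subtype, hacl, fun _ => ⟨hG, hper⟩⟩
  have hS : Setup τ L (Submodule.span ℚ (Set.range x)) β β' := ⟨hV, hβ, hβ', hβi, hβi', fun _ => hE⟩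
  have hV0 : Submodule.span ℚ (Set.range x) ≠ ⊥ := by
    intro h
    have h5 : x ⟨0, hν⟩ ∈ Submodule.span ℚ (Set.range x) := Submodule.subset_span ⟨_, rfl⟩
    rw [h, Submodule.mem_bot] at h5
    exact hx.ne_zero _ h5
  have hbig : ∀ E : IntermediateField ℚ ℂ, KF n τ μ E → ¬ HasTrdeg E (N + s + 2 * n + q + 1) →
      (∃ y ∈ Submodule.span ℚ (Set.range x), Complex.exp (ω * y) ∉ E) ∧
      (0 < n → ∃ y ∈ Submodule.span ℚ (Set.range x), y ∉ Lam τ ∧ xe τ μ y ∉ E) := by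
    intro E hKE hEN
    obtain ⟨h5, h6⟩ := hn₀ L hL hLn (Submodule.span ℚ (Set.range x)) hV0 hV E hKE.acl hEN
    exact ⟨h5 ω hω, fun hn => h6 τ μ (hKE.ell hn).1⟩
  obtain ⟨P, hP, hPd, hPw⟩ := h2 τ μ ω K₀ s n q ν hKF β β' x
  refine ⟨P, hP, hPd, fun w hw z hz => ?_⟩
  have hzV : ∀ i, z i ∈ Submodule.span ℚ (Set.range x) := by
    intro i
    rw [hz i]
    refine sum_mem fun l _ => ?_
    rw [← Rat.smul_def]
    exact Submodule.smul_mem _ _ (Submodule.subset_span ⟨l, rfl⟩)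
  have h5 := h1 τ μ ω hω L (Submodule.span ℚ (Set.range x)) s n q N β β' hS K₀ hKF hKN hbig z hzV
    (hPw w hw z hz)
  exact h3 τ μ ω K₀ s n q hKF β β' z h5

end Pool.Agent.Work.MP_8da9ea_nt.FR
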