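import Pool.Agent.Work.MP_8da9ea_nt.FR.Stmts
import Pool.Agent.Work.MP_8da9ea_nt.EB.I_LamAdd
import Pool.Agent.Work.MP_8da9ea_nt.EB.I_EtaAdd
import Pool.Agent.Work.MP_8da9ea_nt.EB.I_RelPol
import Pool.Agent.Work.MP_8da9ea_nt.EC.I_Jac

/-!
# Block FR, item Form: the polynomial of the good points
-/

set_option autoImplicit false

namespace Pool.Agent.Work.MP_8da9ea_nt.FR

open MvPolynomial Pool.Agent.Work.MP_327059_nt.GL Pool.Agent.Work.MP_8da9ea_nt.S
  Pool.Agent.Work.MP_8da9ea_nt.EB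

namespace I_Form

/-- additive functions are linear over the rational numbers -/
theorem addLin {ι : Type} [Fintype ι] (f : ℂ → ℂ) (hf : ∀ u v, f (u + v) = f u + f v) (c : ι → ℚ)
    (β : ι → ℂ) : f (∑ j, (c j : ℂ) * β j) = ∑ j, (c j : ℂ) * f (β j) := by
  have h0 : f 0 = 0 := by
    have e1 := hf 0 0
    rw [add_zero] at e1
    have e2 : f 0 + 0 = f 0 + f 0 := by rw [add_zero]; exact e1
    exact (add_left_cancel e2).symm
  let F : ℂ →+ ℂ := { toFun := f, map_zero' := h0, map_add' := hf }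
  change F (∑ j, (c j : ℂ) * β j) = _
  rw [map_sum]
  refine Finset.sum_congr rfl fun j _ => ?_
  have h1 := map_rat_smul F (c j) (β j)
  rw [Rat.smul_def, Rat.smul_def] at h1
  exact h1

/-- the point in coordinates -/
theorem lc_coord {q R : ℕ} (b : Fin q → ℂ) (y : Fin R → ℂ) (w : Fin q → Fin R → ℚ) (d : ℂ) :
    d * lc b (fun i => ∑ l, (w i l : ℂ) * y l) =
      ∑ o : Fin q × Fin R, ((w o.1 o.2 : ℚ) : ℂ) * (d * (b o.1 * y o.2)) := by
  unfold lc
  rw [Fintype.sum_prod_type, Finset.mul_sum]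
  refine Finset.sum_congr rfl fun i _ => ?_
  rw [Finset.mul_sum, Finset.mul_sum]
  refine Finset.sum_congr rfl fun l _ => ?_
  ring

/-- the form with a given index as a function of the point -/
noncomputable def frm (τ μ : ℂ) {s n : ℕ} (δ : Derivation ℚ ℂ ℂ) (o : Fin s ⊕ Fin n × Bool)
    (u : ℂ) : ℂ :=
  Sum.elim (fun _ => th δ u) (fun p : Fin n × Bool => if p.2 then etf τ μ δ u else lam τ μ δ u) o

/-- the coordinates of the point with a given index -/
noncomputable def ptF (c : ℂ) {s n q R : ℕ} (B : Fin s → Fin q → ℂ) (B' : Fin n → Fin q → ℂ)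
    (y : Fin R → ℂ) (o : Fin s ⊕ Fin n × Bool) (i : Fin q × Fin R) : ℂ :=
  Sum.elim (fun j => 1 * (B j i.1 * y i.2)) (fun p : Fin n × Bool => c * (B' p.1 i.1 * y i.2)) o

theorem frm_add {τ μ : ℂ} (hN : Nrm τ μ) {s n : ℕ} {K : IntermediateField ℚ ℂ} (hK : KF n τ μ K)
    {δ : Derivation ℚ ℂ ℂ} (hδ : δ ∈ DK K) (o : Fin s ⊕ Fin n × Bool) (u v : ℂ) :
    frm τ μ δ o (u + v) = frm τ μ δ o u + frm τ μ δ o v := by
  rcases o with j | ⟨j, b⟩
  · exact EB.I_RelPol.dlog_add δ u v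
  · have hn : 0 < n := lt_of_le_of_lt (Nat.zero_le _) j.2
    obtain ⟨hμ, hτ, het, hkap⟩ := hK.per hn
    cases b with
    | true =>
      exact EtaAdd_pf LamAdd_pf τ μ hN δ (hδ _ (mul_mem hμ het))
        (hδ _ (mul_mem hμ (sub_mem (mul_mem hτ het) hkap))) u v
    | false => exact LamAdd_pf τ μ hN δ u v

theorem omW_coord {τ μ c : ℂ} (hN : Nrm τ μ) {s n q R : ℕ} {K : IntermediateField ℚ ℂ}
    (hK : KF n τ μ K) (B : Fin s → Fin q → ℂ) (B' : Fin n → Fin q → ℂ) (y : Fin R → ℂ)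
    (w : Fin q → Fin R → ℚ) {δ : Derivation ℚ ℂ ℂ} (hδ : δ ∈ DK K) (o : Fin s ⊕ Fin n × Bool) :
    omW τ μ c B B' (fun i => ∑ l, (w i l : ℂ) * y l) δ o =
      ∑ i : Fin q × Fin R, ((w i.1 i.2 : ℚ) : ℂ) * frm τ μ δ o (ptF c B B' y o i) := by
  rw [← addLin (frm τ μ δ o) (frm_add hN hK hδ o) (fun i : Fin q × Fin R => w i.1 i.2)]
  rcases o with j | ⟨j, b⟩
  · have h1 := lc_coord (B j) y w 1
    rw [one_mul] at h1
    change th δ (lc (B j) (fun i => ∑ l, (w i l : ℂ) * y l)) = th δ _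
    rw [h1]
    rfl
  · have h1 := lc_coord (B' j) y w c
    cases b with
    | true =>
      change etf τ μ δ (c * lc (B' j) (fun i => ∑ l, (w i l : ℂ) * y l)) = etf τ μ δ _
      rw [h1]
      rfl
    | false =>
      change lam τ μ δ (c * lc (B' j) (fun i => ∑ l, (w i l : ℂ) * y l)) = lam τ μ δ _
      rw [h1]
      rfl

/-- full rank gives surjectivity -/
theorem surj_of_rank {V σ : Type} [AddCommGroup V] [Module ℂ V] [Fintype σ] (S : Submodule ℂ V)
    (f : V →ₗ[ℂ] (σ → ℂ)) (h : Fintype.card σ ≤ Module.finrank ℂ (S.map f)) (t : σ → ℂ) :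
    ∃ δ ∈ S, f δ = t := by
  have h1 : S.map f = ⊤ := by
    apply Submodule.eq_top_of_finrank_eq
    refine le_antisymm (Submodule.finrank_le _) ?_
    rw [Module.finrank_fintype_fun_eq_card]
    exact h
  have h2 : t ∈ S.map f := by rw [h1]; trivial
  exact h2

/-- an invertible matrix of values gives surjectivity -/
theorem surj_of_det {V σ : Type} [AddCommGroup V] [Module ℂ V] [Fintype σ] [DecidableEq σ]
    (S : Submodule ℂ V) (f : V →ₗ[ℂ] (σ → ℂ)) (δ : σ → V) (hδ : ∀ o, δ o ∈ S)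
    (h : (Matrix.of fun o o' => f (δ o) o').det ≠ 0) (t : σ → ℂ) : ∃ x ∈ S, f x = t := by
  set M : Matrix σ σ ℂ := Matrix.of fun o o' => f (δ o) o' with hM
  have h1 : IsUnit M := (Matrix.isUnit_iff_isUnit_det _).2 (isUnit_iff_ne_zero.2 h)
  obtain ⟨a, ha⟩ := Matrix.vecMul_surjective_iff_isUnit.2 h1 t
  refine ⟨∑ o, a o • δ o, Submodule.sum_mem _ fun o _ => S.smul_mem _ (hδ o), ?_⟩
  rw [map_sum, ← ha]
  funext o'
  rw [Finset.sum_apply]
  simp only [map_smul, Pi.smul_apply, smul_eq_mul, Matrix.vecMul, dotProduct, hM, Matrix.of_apply]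

end I_Form

open I_Form in
theorem Form_pf : S_Form := by
  classical
  intro τ μ c hN K s n q R hK B B' y w₀ hfr
  have hcard : Fintype.card (Fin s ⊕ Fin n × Bool) = s + 2 * n := by
    rw [Fintype.card_sum, Fintype.card_prod, Fintype.card_fin, Fintype.card_fin,
      Fintype.card_bool, mul_comm]
  choose δ hδ hen using fun o : Fin s ⊕ Fin n × Bool =>
    surj_of_rank (DK K) (omW τ μ c B B' (fun i => ∑ l, (w₀ i l : ℂ) * y l))
      (by rw [hcard]; exact hfr) (Pi.single o 1)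
  obtain ⟨p, hp⟩ : ∃ p : Matrix (Fin s ⊕ Fin n × Bool) (Fin s ⊕ Fin n × Bool)
      (MvPolynomial (Fin q × Fin R) ℂ), ∀ o o',
        p o o' = ∑ i, X i * C (frm τ μ (δ o) o' (ptF c B B' y o' i)) := ⟨_, fun _ _ => rfl⟩
  have hev : ∀ (w : Fin q → Fin R → ℚ), MvPolynomial.eval (fun o => (w o.1 o.2 : ℂ)) p.det =
      (Matrix.of fun o o' =>
        omW τ μ c B B' (fun i => ∑ l, (w i l : ℂ) * y l) (δ o) o').det := by
    intro w
    rw [RingHom.map_det]
    congr 1
    ext o o'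
    rw [Matrix.of_apply, omW_coord hN hK B B' y w (hδ o) o', RingHom.mapMatrix_apply,
      Matrix.map_apply, hp, map_sum]
    refine Finset.sum_congr rfl fun i _ => ?_
    rw [map_mul, MvPolynomial.eval_X, MvPolynomial.eval_C]
  refine ⟨p.det, ?_, ?_, ?_⟩
  · intro h0
    have h6 := hev w₀
    rw [h0, map_zero] at h6
    have h7 : (Matrix.of fun o o' =>
        omW τ μ c B B' (fun i => ∑ l, (w₀ i l : ℂ) * y l) (δ o) o') = 1 := by
      ext o o'
      rw [Matrix.of_apply, hen, Matrix.one_apply, Pi.single_apply]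
      simp only [eq_comm]
    rw [h7, Matrix.det_one] at h6
    exact zero_ne_one h6
  · rw [← hcard]
    refine EB.I_RelPol.detHom p fun o o' => ?_
    rw [hp]
    refine MvPolynomial.IsHomogeneous.sum _ _ _ fun i _ => ?_
    have h4 := (MvPolynomial.isHomogeneous_X ℂ i).mul
      (MvPolynomial.isHomogeneous_C (Fin q × Fin R) (frm τ μ (δ o) o' (ptF c B B' y o' i)))
    rwa [add_zero] at h4
  · intro w hP z hz
    rw [hev] at hP
    have hz' : z = fun i => ∑ l, (w i l : ℂ) * y l := funext hz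
    rw [← hz'] at hP
    exact EC.Jac_pf τ μ hN K s n (fun j => lc (B j) z) (fun j => c * lc (B' j) z)
      (surj_of_det (DK K) (omW τ μ c B B' z) δ hδ hP)

end Pool.Agent.Work.MP_8da9ea_nt.FR
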