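import Pool.Agent.Work.MP_8da9ea_nt.FR.StmtsP

/-!
# Item P2: the restriction of a polynomial to a line
-/

set_option autoImplicit false

namespace Pool.Agent.Work.MP_8da9ea_nt.FR

open MvPolynomial

namespace I_Line

/-- The line through `β` in the direction `γ e_i`. -/
noncomputable def ln {q : ℕ} (β : Fin q → ℂ) (i : Fin q) (γ : ℂ) (l : Fin q) : Polynomial ℂ :=
  Polynomial.C (β l) + if l = i then Polynomial.C γ * Polynomial.X else 0

lemma ln_eval {q : ℕ} (β : Fin q → ℂ) (i : Fin q) (γ : ℂ) (l : Fin q) (c : ℂ) :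
    (ln β i γ l).eval c = β l + if l = i then c * γ else 0 := by
  unfold ln
  split_ifs
  · simp
    ring
  · simp

lemma ln_deg {q : ℕ} (β : Fin q → ℂ) (i : Fin q) (γ : ℂ) (l : Fin q) :
    (ln β i γ l).natDegree ≤ 1 := by
  unfold ln
  split_ifs
  · refine (Polynomial.natDegree_add_le _ _).trans (max_le ?_ ?_)
    · rw [Polynomial.natDegree_C]
      exact Nat.zero_le _
    · refine (Polynomial.natDegree_C_mul_le _ _).trans ?_
      exact Polynomial.natDegree_X_le
  · rw [add_zero, Polynomial.natDegree_C]
    exact Nat.zero_le _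

lemma eval_aeval {q : ℕ} (f : Fin q → Polynomial ℂ) (A : MvPolynomial (Fin q) ℂ) (c : ℂ) :
    (aeval f A).eval c = eval (fun l => (f l).eval c) A := by
  induction A using MvPolynomial.induction_on with
  | C a => simp
  | add p p' hp hp' => simp [hp, hp']
  | mul_X p l hp => simp [hp]

lemma deriv_aeval {q : ℕ} (β : Fin q → ℂ) (i : Fin q) (γ : ℂ) (A : MvPolynomial (Fin q) ℂ) :
    Polynomial.derivative (aeval (ln β i γ) A) =
      Polynomial.C γ * aeval (ln β i γ) (pderiv i A) := by
  have hd : ∀ l, Polynomial.derivative (ln β i γ l) = if l = i then Polynomial.C γ else 0 := by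
    intro l
    unfold ln
    split_ifs <;> simp
  induction A using MvPolynomial.induction_on with
  | C a => simp
  | add p p' hp hp' => simp [hp, hp', mul_add]
  | mul_X p l hp =>
    rw [map_mul, aeval_X, Polynomial.derivative_mul, hp, hd, Derivation.leibniz, pderiv_X]
    by_cases hl : l = i
    · subst hl
      simp
      ring
    · rw [if_neg hl]
      simp [hl]
      ring

end I_Line

open I_Line in
/-- **P2** -/
theorem Line_pf : S_Line := by
  intro q A β i γ
  refine ⟨aeval (ln β i γ) A, ?_, ?_, ?_, ?_⟩
  · have h := MvPolynomial.aeval_natDegree_le (m := A.totalDegree) (n := 1) A le_rfl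
      (ln β i γ) (ln_deg β i γ)
    rwa [mul_one] at h
  · rw [Polynomial.coeff_zero_eq_eval_zero, eval_aeval]
    congr 2
    funext l
    rw [ln_eval]
    simp
  · have h1 : (aeval (ln β i γ) A).coeff 1 =
        (Polynomial.derivative (aeval (ln β i γ) A)).coeff 0 := by
      rw [Polynomial.coeff_derivative]
      simp
    rw [h1, deriv_aeval, Polynomial.coeff_C_mul, Polynomial.coeff_zero_eq_eval_zero, eval_aeval]
    congr 3
    funext l
    rw [ln_eval]
    simp
  · intro c
    rw [eval_aeval]
    congr 2
    funext l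
    rw [ln_eval]

end Pool.Agent.Work.MP_8da9ea_nt.FR
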