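import Pool.Agent.Work.MP_8da9ea_nt.FR.StmtsV
import Pool.Agent.Work.MP_8da9ea_nt.Ode
import Pool.Agent.Work.MP_8da9ea_nt.Bd.B01

/-!
# Block FR, V5: the local inverse, lattice included
-/

set_option autoImplicit false

namespace Pool.Agent.Work.MP_8da9ea_nt.FR

open MvPolynomial Metric Filter Topology Pool.Agent.Work.MP_327059_nt.GL
  Pool.Agent.Work.MP_8da9ea_nt.S Pool.Agent.Work.MP_8da9ea_nt.EB Pool.Agent.Work.MP_8da9ea_nt.EC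

namespace I_LocV

/-- A quantitative form of the inverse function theorem in two variables. -/
lemma inv2 {F : ℂ × ℂ → ℂ × ℂ} {A B A' B' : ℂ} {p : ℂ × ℂ}
    (hF : HasStrictFDerivAt F ((lf A B).prod (lf A' B')) p) (hdet : A * B' - A' * B ≠ 0) :
    ∃ C η : ℝ, 1 ≤ C ∧ 0 < η ∧ ∀ y : ℂ × ℂ, ‖y - F p‖ ≤ η →
      ∃ x : ℂ × ℂ, F x = y ∧ ‖x - p‖ ≤ C * ‖y - F p‖ := by
  set D := A * B' - A' * B with hD
  have hl : Function.LeftInverse ((lf (D⁻¹ * B') (-(D⁻¹ * B))).prod (lf (-(D⁻¹ * A')) (D⁻¹ * A)))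
      ((lf A B).prod (lf A' B')) := by
    rintro ⟨a, b⟩
    simp only [ContinuousLinearMap.prod_apply, lf_apply]
    refine Prod.ext ?_ ?_
    · show D⁻¹ * B' * (A * a + B * b) + -(D⁻¹ * B) * (A' * a + B' * b) = a
      have : D⁻¹ * B' * (A * a + B * b) + -(D⁻¹ * B) * (A' * a + B' * b) = D⁻¹ * D * a := by
        rw [hD]; ring
      rw [this, inv_mul_cancel₀ hdet, one_mul]
    · show -(D⁻¹ * A') * (A * a + B * b) + D⁻¹ * A * (A' * a + B' * b) = b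
      have : -(D⁻¹ * A') * (A * a + B * b) + D⁻¹ * A * (A' * a + B' * b) = D⁻¹ * D * b := by
        rw [hD]; ring
      rw [this, inv_mul_cancel₀ hdet, one_mul]
  have hr : Function.RightInverse ((lf (D⁻¹ * B') (-(D⁻¹ * B))).prod (lf (-(D⁻¹ * A')) (D⁻¹ * A)))
      ((lf A B).prod (lf A' B')) := by
    rintro ⟨a, b⟩
    simp only [ContinuousLinearMap.prod_apply, lf_apply]
    refine Prod.ext ?_ ?_
    · show A * (D⁻¹ * B' * a + -(D⁻¹ * B) * b) + B * (-(D⁻¹ * A') * a + D⁻¹ * A * b) = a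
      have : A * (D⁻¹ * B' * a + -(D⁻¹ * B) * b) + B * (-(D⁻¹ * A') * a + D⁻¹ * A * b) =
          D⁻¹ * D * a := by
        rw [hD]; ring
      rw [this, inv_mul_cancel₀ hdet, one_mul]
    · show A' * (D⁻¹ * B' * a + -(D⁻¹ * B) * b) + B' * (-(D⁻¹ * A') * a + D⁻¹ * A * b) = b
      have : A' * (D⁻¹ * B' * a + -(D⁻¹ * B) * b) + B' * (-(D⁻¹ * A') * a + D⁻¹ * A * b) =
          D⁻¹ * D * b := by
        rw [hD]; ring
      rw [this, inv_mul_cancel₀ hdet, one_mul]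
  let e : (ℂ × ℂ) ≃L[ℂ] (ℂ × ℂ) := ContinuousLinearEquiv.equivOfInverse _ _ hl hr
  have hF' : HasStrictFDerivAt F (e : (ℂ × ℂ) →L[ℂ] (ℂ × ℂ)) p := hF
  have hg0 : hF'.localInverse F e p (F p) = p := HasStrictFDerivAt.localInverse_apply_image ..
  have hright : ∀ᶠ y in 𝓝 (F p), F (hF'.localInverse F e p y) = y :=
    HasStrictFDerivAt.eventually_right_inverse ..
  have hgd := hF'.to_localInverse
  generalize hF'.localInverse F e p = g at hg0 hright hgd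
  obtain ⟨C, hC⟩ := hgd.hasFDerivAt.isBigO_sub.bound
  rw [hg0] at hC
  obtain ⟨ε, hε, H⟩ := Metric.eventually_nhds_iff.1 (hright.and hC)
  refine ⟨max 1 C, ε / 2, le_max_left _ _, by positivity, fun y hy => ?_⟩
  have hy1 : dist y (F p) < ε := by
    rw [dist_eq_norm]
    linarith
  obtain ⟨h1, h2⟩ := H hy1
  exact ⟨g y, h1, h2.trans (mul_le_mul_of_nonneg_right (le_max_right _ _) (norm_nonneg _))⟩

/-- the norm of a pair -/
lemma norm_pair_le {a b : ℂ} {r : ℝ} (ha : ‖a‖ ≤ r) (hb : ‖b‖ ≤ r) : ‖((a, b) : ℂ × ℂ)‖ ≤ r := by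
  rw [Prod.norm_def]
  exact max_le ha hb

/-- Stage 1: the invariants. -/
lemma stage1 {τ μ : ℂ} (hτ : 0 < τ.im) (hμ : μ ≠ 0) : ∃ C η : ℝ, 1 ≤ C ∧ 0 < η ∧
    ∀ (a b : ℂ) (ε : ℝ), ε ≤ η → ‖a - μ ^ 4 * gg2 τ‖ ≤ ε → ‖b - μ ^ 6 * gg3 τ‖ ≤ ε →
      ∃ τ' μ' : ℂ, 0 < τ'.im ∧ μ' ≠ 0 ∧ μ' ^ 4 * gg2 τ' = a ∧ μ' ^ 6 * gg3 τ' = b ∧
        ‖τ' - τ‖ ≤ C * ε ∧ ‖μ' - μ‖ ≤ C * ε := by
  set d2 : ℂ := (-4 * et τ * gg2 τ + 6 * gg3 τ) / kap with hd2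
  set d3 : ℂ := (-6 * et τ * gg3 τ + gg2 τ ^ 2 / 3) / kap with hd3
  have s2 : HasStrictDerivAt gg2 d2 τ := by
    have h := (analyticAt_gg2 hτ).hasStrictDerivAt
    rwa [(ode_gg2 hτ).deriv] at h
  have s3 : HasStrictDerivAt gg3 d3 τ := by
    have h := (analyticAt_gg3 hτ).hasStrictDerivAt
    rwa [(ode_gg3 hτ).deriv] at h
  have hfst : HasStrictFDerivAt (fun p : ℂ × ℂ => p.1) (ContinuousLinearMap.fst ℂ ℂ ℂ) (τ, μ) :=
    hasStrictFDerivAt_fst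
  have hsnd : HasStrictFDerivAt (fun p : ℂ × ℂ => p.2) (ContinuousLinearMap.snd ℂ ℂ ℂ) (τ, μ) :=
    hasStrictFDerivAt_snd
  have f2 : HasStrictFDerivAt (fun p : ℂ × ℂ => p.2 ^ 4 * gg2 p.1)
      (lf (μ ^ 4 * d2) (4 * μ ^ 3 * gg2 τ)) (τ, μ) := by
    have h1 := (HasStrictDerivAt.comp_hasStrictFDerivAt (τ, μ)
      (h₂ := fun x : ℂ => x ^ 4) (h₂' := 4 * μ ^ 3) (by
        simpa using hasStrictDerivAt_pow 4 μ) hsnd).mul
      (HasStrictDerivAt.comp_hasStrictFDerivAt (τ, μ) (h₂ := gg2) s2 hfst)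
    refine h1.congr_fderiv ?_
    refine ContinuousLinearMap.ext fun v => ?_
    simp [lf_apply]
    ring
  have f3 : HasStrictFDerivAt (fun p : ℂ × ℂ => p.2 ^ 6 * gg3 p.1)
      (lf (μ ^ 6 * d3) (6 * μ ^ 5 * gg3 τ)) (τ, μ) := by
    have h1 := (HasStrictDerivAt.comp_hasStrictFDerivAt (τ, μ)
      (h₂ := fun x : ℂ => x ^ 6) (h₂' := 6 * μ ^ 5) (by
        simpa using hasStrictDerivAt_pow 6 μ) hsnd).mul
      (HasStrictDerivAt.comp_hasStrictFDerivAt (τ, μ) (h₂ := gg3) s3 hfst)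
    refine h1.congr_fderiv ?_
    refine ContinuousLinearMap.ext fun v => ?_
    simp [lf_apply]
    ring
  have hk : kap ≠ 0 := kap_ne_zero
  have hdet : μ ^ 4 * d2 * (6 * μ ^ 5 * gg3 τ) - μ ^ 6 * d3 * (4 * μ ^ 3 * gg2 τ) ≠ 0 := by
    have h1 : μ ^ 4 * d2 * (6 * μ ^ 5 * gg3 τ) - μ ^ 6 * d3 * (4 * μ ^ 3 * gg2 τ) =
        -(4 / 3) * μ ^ 9 * (gg2 τ ^ 3 - 27 * gg3 τ ^ 2) / kap := by
      rw [hd2, hd3]
      field_simp
      ring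
    rw [h1]
    exact div_ne_zero (mul_ne_zero (mul_ne_zero (by norm_num) (pow_ne_zero _ hμ))
      (Fx.disc_ne hτ)) hk
  obtain ⟨C, η, hC, hη, H⟩ := inv2 (f2.prodMk f3) hdet
  have hev : ∀ᶠ x : ℂ × ℂ in 𝓝 (τ, μ), 0 < x.1.im ∧ x.2 ≠ 0 := by
    refine Filter.Eventually.and ?_ ?_
    · exact (Complex.continuous_im.comp continuous_fst).continuousAt.eventually (lt_mem_nhds hτ)
    · exact continuous_snd.continuousAt.eventually_ne hμ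
  obtain ⟨r, hr, Hr⟩ := Metric.eventually_nhds_iff.1 hev
  refine ⟨C, min η (r / (2 * C)), hC, lt_min hη (by positivity), fun a b ε hε ha hb => ?_⟩
  have hC0 : 0 < C := by linarith
  have hy : ‖((a, b) : ℂ × ℂ) - (μ ^ 4 * gg2 τ, μ ^ 6 * gg3 τ)‖ ≤ ε := by
    rw [Prod.mk_sub_mk]
    exact norm_pair_le ha hb
  obtain ⟨x, hx1, hx2⟩ := H (a, b) (hy.trans (hε.trans (min_le_left _ _)))
  have hx3 : ‖x - (τ, μ)‖ ≤ C * ε := hx2.trans (mul_le_mul_of_nonneg_left hy hC0.le)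
  have hx4 : dist x (τ, μ) < r := by
    rw [dist_eq_norm]
    have h1 : C * ε ≤ C * (r / (2 * C)) :=
      mul_le_mul_of_nonneg_left (hε.trans (min_le_right _ _)) hC0.le
    have h2 : C * (r / (2 * C)) = r / 2 := by field_simp
    linarith
  obtain ⟨h5, h6⟩ := Hr hx4
  have hx5 : ‖x.1 - τ‖ ≤ C * ε := (norm_fst_le (x - (τ, μ))).trans hx3
  have hx6 : ‖x.2 - μ‖ ≤ C * ε := (norm_snd_le (x - (τ, μ))).trans hx3
  exact ⟨x.1, x.2, h5, h6, congrArg Prod.fst hx1, congrArg Prod.snd hx1, hx5, hx6⟩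

/-- Stage 2: one point. -/
lemma stage2 {τ μ u : ℂ} (hτ : 0 < τ.im) (hμ : μ ≠ 0) (hu : u ∉ Lam τ) (hw : wpd τ u ≠ 0) :
    ∃ C η : ℝ, 1 ≤ C ∧ 0 < η ∧ ∀ (τ' μ' X Y : ℂ) (ε : ℝ), ε ≤ η → ‖τ' - τ‖ ≤ ε → ‖μ' - μ‖ ≤ ε →
      ‖X - μ ^ 2 * wp 1 τ u‖ ≤ ε → ‖Y - μ ^ 3 * wpd τ u‖ ≤ ε →
      Y ^ 2 = 4 * X ^ 3 - μ' ^ 4 * gg2 τ' * X - μ' ^ 6 * gg3 τ' →
      ∃ u' : ℂ, u' ∉ Lam τ' ∧ μ' ^ 2 * wp 1 τ' u' = X ∧ μ' ^ 3 * wpd τ' u' = Y ∧
        ‖u' - u‖ ≤ C * ε := by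
  have hfst : HasStrictFDerivAt (fun p : ℂ × ℂ => p.1) (lf 1 0) (τ, u) := by
    have h1 : lf 1 0 = ContinuousLinearMap.fst ℂ ℂ ℂ := by
      refine ContinuousLinearMap.ext fun v => ?_
      simp [lf_apply]
    rw [h1]
    exact hasStrictFDerivAt_fst
  obtain ⟨C, η, hC, hη, H⟩ := inv2 (hfst.prodMk (hasStrictFDerivAt_wp hτ hu))
    (by simpa using hw)
  have hC0 : 0 < C := by linarith
  -- the neighbourhood
  have hne : μ ^ 3 * wpd τ u ≠ 0 := mul_ne_zero (pow_ne_zero 3 hμ) hw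
  have hev : ∀ᶠ x : (ℂ × ℂ) × ℂ in 𝓝 ((τ, u), μ), (0 < x.1.1.im ∧ x.1.2 ∉ Lam x.1.1) ∧
      ‖x.2 ^ 3 * wpd x.1.1 x.1.2 - μ ^ 3 * wpd τ u‖ < ‖μ ^ 3 * wpd τ u‖ := by
    refine Filter.Eventually.and ?_ ?_
    · exact continuous_fst.continuousAt.eventually (Dom_nhds hτ hu)
    · have h1 : ContinuousAt (fun x : (ℂ × ℂ) × ℂ => x.2 ^ 3 * wpd x.1.1 x.1.2) ((τ, u), μ) := by
        refine ContinuousAt.mul (by fun_prop) ?_
        exact ContinuousAt.comp (g := fun p : ℂ × ℂ => wpd p.1 p.2) (f := Prod.fst)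
          (hasStrictFDerivAt_wpd hτ hu).continuousAt continuous_fst.continuousAt
      have h2 := h1.tendsto.eventually (Metric.ball_mem_nhds _ (norm_pos_iff.2 hne))
      filter_upwards [h2] with x hx
      rwa [dist_eq_norm] at hx
  obtain ⟨r, hr, Hr⟩ := Metric.eventually_nhds_iff.1 hev
  have hμ0 : 0 < ‖μ‖ := norm_pos_iff.2 hμ
  -- the constant for the division by `μ'²`
  set K : ℝ := 1 + 4 / ‖μ‖ ^ 2 * (1 + ‖wp 1 τ u‖ * (3 * ‖μ‖)) with hK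
  have hK1 : 1 ≤ K := by
    rw [hK]
    have : 0 ≤ 4 / ‖μ‖ ^ 2 * (1 + ‖wp 1 τ u‖ * (3 * ‖μ‖)) := by positivity
    linarith
  have hK0 : 0 < K := by linarith
  refine ⟨C * K, min (min (‖μ‖ / 2) (η / K)) (min (r / (2 * (C * K))) (‖μ ^ 3 * wpd τ u‖ / 2)),
    ?_, ?_, ?_⟩
  · calc (1 : ℝ) = 1 * 1 := (one_mul 1).symm
      _ ≤ C * K := mul_le_mul hC hK1 zero_le_one hC0.le
  · have := norm_pos_iff.2 hne
    exact lt_min (lt_min (by positivity) (by positivity)) (lt_min (by positivity) (by positivity))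
  intro τ' μ' X Y ε hε h1 h2 h3 h4 h5
  have e1 : ε ≤ ‖μ‖ / 2 := hε.trans ((min_le_left _ _).trans (min_le_left _ _))
  have e2 : ε ≤ η / K := hε.trans ((min_le_left _ _).trans (min_le_right _ _))
  have e3 : ε ≤ r / (2 * (C * K)) := hε.trans ((min_le_right _ _).trans (min_le_left _ _))
  have e4 : ε ≤ ‖μ ^ 3 * wpd τ u‖ / 2 := hε.trans ((min_le_right _ _).trans (min_le_right _ _))
  have e0 : 0 ≤ ε := (norm_nonneg _).trans h1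
  have hm1 : ‖μ‖ / 2 ≤ ‖μ'‖ := by
    have := norm_sub_norm_le μ μ'
    rw [norm_sub_rev] at this
    linarith
  have hm2 : ‖μ + μ'‖ ≤ 3 * ‖μ‖ := by
    have h6 : μ + μ' = (μ' - μ) + 2 * μ := by ring
    rw [h6]
    refine (norm_add_le _ _).trans ?_
    rw [norm_mul, Complex.norm_ofNat]
    linarith
  have hμ' : μ' ≠ 0 := by
    intro h
    rw [h, norm_zero] at hm1
    linarith
  have hq : ‖X / μ' ^ 2 - wp 1 τ u‖ ≤ K * ε := by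
    have h6 : X / μ' ^ 2 - wp 1 τ u = ((X - μ ^ 2 * wp 1 τ u) +
        wp 1 τ u * ((μ + μ') * -(μ' - μ))) / μ' ^ 2 := by
      field_simp
      ring
    have h7 : ‖(X - μ ^ 2 * wp 1 τ u) + wp 1 τ u * ((μ + μ') * -(μ' - μ))‖ ≤
        ε * (1 + ‖wp 1 τ u‖ * (3 * ‖μ‖)) := by
      refine (norm_add_le _ _).trans ?_
      rw [norm_mul, norm_mul, norm_neg]
      have h8 : ‖μ + μ'‖ * ‖μ' - μ‖ ≤ (3 * ‖μ‖) * ε :=
        mul_le_mul hm2 h2 (norm_nonneg _) (by positivity)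
      have h9 := mul_le_mul_of_nonneg_left h8 (norm_nonneg (wp 1 τ u))
      calc ‖X - μ ^ 2 * wp 1 τ u‖ + ‖wp 1 τ u‖ * (‖μ + μ'‖ * ‖μ' - μ‖)
          ≤ ε + ‖wp 1 τ u‖ * (3 * ‖μ‖ * ε) := add_le_add h3 h9
        _ = ε * (1 + ‖wp 1 τ u‖ * (3 * ‖μ‖)) := by ring
    rw [h6, norm_div, norm_pow, div_le_iff₀ (by positivity)]
    have h10 : ‖μ‖ ^ 2 / 4 ≤ ‖μ'‖ ^ 2 := by
      have := mul_self_le_mul_self (by positivity) hm1
      nlinarith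
    have h11 : ε * (1 + ‖wp 1 τ u‖ * (3 * ‖μ‖)) ≤ K * ε * (‖μ‖ ^ 2 / 4) := by
      have h12 : K * ε * (‖μ‖ ^ 2 / 4) = ε * (‖μ‖ ^ 2 / 4) +
          ε * (1 + ‖wp 1 τ u‖ * (3 * ‖μ‖)) := by
        rw [hK]
        field_simp
      rw [h12]
      have : 0 ≤ ε * (‖μ‖ ^ 2 / 4) := by positivity
      linarith
    exact h7.trans (h11.trans (mul_le_mul_of_nonneg_left h10 (by positivity)))
  have hy : ‖((τ', X / μ' ^ 2) : ℂ × ℂ) - (τ, wp 1 τ u)‖ ≤ K * ε := by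
    rw [Prod.mk_sub_mk]
    refine norm_pair_le (h1.trans ?_) hq
    nlinarith
  have hKε : K * ε ≤ η := by
    have := mul_le_mul_of_nonneg_left e2 hK0.le
    rwa [mul_div_cancel₀ _ hK0.ne'] at this
  obtain ⟨x, hx1, hx2⟩ := H (τ', X / μ' ^ 2) (hy.trans hKε)
  have hx3 : ‖x - (τ, u)‖ ≤ C * K * ε := by
    refine hx2.trans ?_
    rw [mul_assoc]
    exact mul_le_mul_of_nonneg_left hy hC0.le
  have hx5 : ‖x.1 - τ‖ ≤ C * K * ε := (norm_fst_le (x - (τ, u))).trans hx3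
  have hx6 : ‖x.2 - u‖ ≤ C * K * ε := (norm_snd_le (x - (τ, u))).trans hx3
  have hxt : x.1 = τ' := congrArg Prod.fst hx1
  have hxw : wp 1 x.1 x.2 = X / μ' ^ 2 := congrArg Prod.snd hx1
  have hCK : 1 ≤ C * K := by nlinarith
  have hrr : C * K * ε < r := by
    have h6 := mul_le_mul_of_nonneg_left e3 (by positivity : 0 ≤ C * K)
    have h7 : C * K * (r / (2 * (C * K))) = r / 2 := by field_simp
    linarith
  have hdist : dist ((x, μ') : (ℂ × ℂ) × ℂ) ((τ, u), μ) < r := by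
    rw [dist_eq_norm, Prod.mk_sub_mk, Prod.norm_def]
    refine max_lt (hx3.trans_lt hrr) ?_
    refine lt_of_le_of_lt (h2.trans ?_) hrr
    nlinarith
  obtain ⟨⟨him, hL⟩, hsg⟩ := Hr hdist
  simp only at him hL hsg
  rw [hxt] at him hL hsg hxw
  have hXX : μ' ^ 2 * wp 1 τ' x.2 = X := by
    rw [hxw]
    field_simp
  refine ⟨x.2, hL, hXX, ?_, hx6⟩
  have hsq := wpd_sq him hL
  have h6 : Y ^ 2 = (μ' ^ 3 * wpd τ' x.2) ^ 2 := by
    rw [h5, mul_pow, hsq, ← hXX]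
    ring
  rcases sq_eq_sq_iff_eq_or_eq_neg.1 h6 with h7 | h7
  · exact h7.symm
  · exfalso
    have h8 : (2 : ℂ) * (μ ^ 3 * wpd τ u) = -(Y - μ ^ 3 * wpd τ u) -
        (μ' ^ 3 * wpd τ' x.2 - μ ^ 3 * wpd τ u) := by
      rw [h7]
      ring
    have h9 : ‖(2 : ℂ) * (μ ^ 3 * wpd τ u)‖ ≤ ‖Y - μ ^ 3 * wpd τ u‖ +
        ‖μ' ^ 3 * wpd τ' x.2 - μ ^ 3 * wpd τ u‖ := by
      rw [h8]
      refine (norm_sub_le _ _).trans ?_
      rw [norm_neg]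
    rw [norm_mul, Complex.norm_ofNat] at h9
    have := norm_pos_iff.2 hne
    linarith

end I_LocV

open I_LocV in
/-- **V5.** -/
theorem LocV_pf : S_LocV := by
  intro τ μ hτ hμ n m u hu
  obtain ⟨C₁, η₁, hC₁, hη₁, H₁⟩ := stage1 hτ hμ
  have h2 := fun o : Fin n × Fin m => stage2 hτ hμ (hu o.1 o.2).1 (hu o.1 o.2).2
  choose C₂ η₂ hC₂ hη₂ H₂ using h2
  -- uniform constants
  obtain ⟨C, hC⟩ : ∃ C : ℝ, ∀ o, C₂ o ≤ C := by
    obtain ⟨C, hC⟩ := (Set.finite_range C₂).bddAbove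
    exact ⟨C, fun o => hC ⟨o, rfl⟩⟩
  obtain ⟨η, hη, hηo⟩ : ∃ η : ℝ, 0 < η ∧ ∀ o, η ≤ η₂ o := by
    rcases isEmpty_or_nonempty (Fin n × Fin m) with hE | hE
    · exact ⟨1, one_pos, fun o => hE.elim o⟩
    · obtain ⟨o₀, ho₀⟩ := Finite.exists_min η₂
      exact ⟨η₂ o₀, hη₂ o₀, ho₀⟩
  have hC₁0 : 0 < C₁ := by linarith
  refine ⟨C₁ * max 1 C, min η₁ (η / C₁), ?_, lt_min hη₁ (by positivity), ?_⟩
  · calc (1 : ℝ) = 1 * 1 := (one_mul 1).symm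
      _ ≤ C₁ * max 1 C := mul_le_mul hC₁ (le_max_left _ _) zero_le_one hC₁0.le
  intro θ ε hε hθ heq
  have hε0 : 0 ≤ ε := (norm_nonneg _).trans (hθ (Sum.inl 0))
  obtain ⟨τ', μ', ht, hm, ha, hb, hd1, hd2⟩ := H₁ (θ (Sum.inl 0)) (θ (Sum.inl 1)) ε
    (hε.trans (min_le_left _ _)) (by simpa [ptE] using hθ (Sum.inl 0))
    (by simpa [ptE] using hθ (Sum.inl 1))
  have hε2 : C₁ * ε ≤ η := by
    have := mul_le_mul_of_nonneg_left (hε.trans (min_le_right _ _)) hC₁0.le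
    rwa [mul_div_cancel₀ _ hC₁0.ne'] at this
  have hεC : ε ≤ C₁ * ε := by nlinarith
  have h3 : ∀ o : Fin n × Fin m, ∃ u' : ℂ, u' ∉ Lam τ' ∧
      μ' ^ 2 * wp 1 τ' u' = θ (Sum.inr (o.1, o.2, false)) ∧
      μ' ^ 3 * wpd τ' u' = θ (Sum.inr (o.1, o.2, true)) ∧ ‖u' - u o.1 o.2‖ ≤ C₂ o * (C₁ * ε) := by
    intro o
    refine H₂ o τ' μ' _ _ (C₁ * ε) (hε2.trans (hηo o)) hd1 hd2 ?_ ?_ ?_
    · exact le_trans (by simpa [ptE, xe] using hθ (Sum.inr (o.1, o.2, false))) hεC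
    · exact le_trans (by simpa [ptE, ye] using hθ (Sum.inr (o.1, o.2, true))) hεC
    · rw [ha, hb]
      exact heq o.1 o.2
  choose u' hu1 hu2 hu3 hu4 using h3
  have hmax : (1 : ℝ) ≤ max 1 C := le_max_left _ _
  have hb1 : C₁ * ε ≤ C₁ * max 1 C * ε := by
    have h5 : 0 ≤ C₁ * ε := by positivity
    nlinarith
  refine ⟨τ', μ', fun i j => u' (i, j), ht, hm, fun i j => hu1 (i, j), ?_, hd1.trans hb1,
    hd2.trans hb1, fun i j => (hu4 (i, j)).trans ?_⟩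
  · funext o
    rcases o with q | ⟨i, j, c⟩
    · fin_cases q
      · simpa [ptE] using ha
      · simpa [ptE] using hb
    · cases c
      · simpa [ptE, xe] using hu2 (i, j)
      · simpa [ptE, ye] using hu3 (i, j)
  · have h5 : C₂ (i, j) ≤ max 1 C := (hC _).trans (le_max_right _ _)
    have h6 : 0 ≤ C₁ * ε := by positivity
    calc C₂ (i, j) * (C₁ * ε) ≤ max 1 C * (C₁ * ε) := mul_le_mul_of_nonneg_right h5 h6
      _ = C₁ * max 1 C * ε := by ring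

end Pool.Agent.Work.MP_8da9ea_nt.FR
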