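import Pool.Agent.Work.MP_8da9ea_nt.FR.StmtsV

/-!
# Block FR, part P: polynomial families (VERSION 2: no field `L`)

The points are the values `R_j(β)`, `S_j(β)` of arbitrary complex polynomials in `q` variables at points
`β ∈ V^q`, `V` a finite-dimensional `ℚ`-space of complex numbers containing a product set `{a_l x_i}`.
Same proof as for linear families (`FR/Stmts.lean`), with the perturbation `β + c γ e_i`, `γ ∈ V`,
`c ∈ ℚ`.
-/

set_option autoImplicit false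

namespace Pool.Agent.Work.MP_8da9ea_nt.FR

open MvPolynomial Metric Filter Topology Pool.Agent.Work.MP_327059_nt.GL
  Pool.Agent.Work.MP_8da9ea_nt.S Pool.Agent.Work.MP_8da9ea_nt.EB Pool.Agent.Work.MP_8da9ea_nt.EC

/-- The values of the polynomials `R_j` at `β`. -/
noncomputable def pv {q s : ℕ} (R : Fin s → MvPolynomial (Fin q) ℂ) (β : Fin q → ℂ) : Fin s → ℂ :=
  fun j => eval β (R j)

/-- The partial derivatives `∂_i R_j(β)`. -/
noncomputable def pg {q s : ℕ} (R : Fin s → MvPolynomial (Fin q) ℂ) (β : Fin q → ℂ) (i : Fin q) :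
    Fin s → ℂ :=
  fun j => eval β (pderiv i (R j))

/-- The point with coordinates `w` in the family `e`. -/
noncomputable def co {q D : ℕ} (e : Fin D → ℂ) (w : Fin q → Fin D → ℚ) : Fin q → ℂ :=
  fun i => ∑ a, (w i a : ℂ) * e a

/-- The gradients of the `R_j` at `β` are linearly independent over `k`. -/
def NDf (k : IntermediateField ℚ ℂ) {q s : ℕ} (R : Fin s → MvPolynomial (Fin q) ℂ)
    (β : Fin q → ℂ) : Prop :=
  ∀ c : Fin s → ℂ, (∀ j, c j ∈ k) → (∀ i, ∑ j, c j * pg R β i j = 0) → c = 0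

/-- The forms at `(u, v)` together with the forms `δ z_i`. -/
noncomputable def omZ (τ μ : ℂ) {s n ρ : ℕ} (u : Fin s → ℂ) (v : Fin n → ℂ) (z : Fin ρ → ℂ) :
    Derivation ℚ ℂ ℂ →ₗ[ℂ] ((Fin s ⊕ Fin n × Bool → ℂ) × (Fin ρ → ℂ)) :=
  (omV τ μ u v).prod (dz z)

/-- The rank of all forms on `DK K` is maximal at `β` among the points of `V^q`. -/
def MaxP (τ μ : ℂ) (K : IntermediateField ℚ ℂ) (V : Submodule ℚ ℂ) {q s n ρ : ℕ}
    (R : Fin s → MvPolynomial (Fin q) ℂ) (S : Fin n → MvPolynomial (Fin q) ℂ)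
    (Z : Fin ρ → MvPolynomial (Fin q) ℂ) (β : Fin q → ℂ) : Prop :=
  ∀ γ : Fin q → ℂ, (∀ i, γ i ∈ V) →
    Module.finrank ℂ ((DK K).map (omZ τ μ (pv R γ) (pv S γ) (pv Z γ))) ≤
      Module.finrank ℂ ((DK K).map (omZ τ μ (pv R β) (pv S β) (pv Z β)))

/-- `E` does not contain all exponentials, or all values of `X`, of any multiple `V y`. -/
def BigS (τ μ : ℂ) (n : ℕ) (V : Set ℂ) (E : IntermediateField ℚ ℂ) : Prop := ∀ y : ℂ, y ≠ 0 →
  (∃ γ ∈ V, Complex.exp (γ * y) ∉ E) ∧ (0 < n → ∃ γ ∈ V, γ * y ∉ Lam τ ∧ xe τ μ (γ * y) ∉ E)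

/-! ## Linear algebra -/

/-- **P1, perturbation along a polynomial curve.** Proof as for `S_Pert` (`FR/I_Pert.lean`): suppose
`om (w 0) δ₀ = 0` and `∑ κ om (w 1) δ₀ ≠ 0`. Let `Φ(c) = ∑_k c^k w_k` (`k ≤ d + 1`), `δ_1, …, δ_r` such
that the `om (w 0) δ_i` form a basis of the range of `om (w 0)`. The `r + 1` vectors `om (Φ(c)) δ_i`,
`c⁻¹ om (Φ(c)) δ₀ = om (w 1) δ₀ + c (…)` depend polynomially on `c` and are independent at `c = 0` (`κ`
kills the first `r` and not the last), so they are independent for some rational `c ≠ 0`, and the rank of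
`om (Φ(c))` is `≥ r + 1`. -/
def S_PertP : Prop := ∀ (T W S : Type) [AddCommGroup T] [Module ℂ T] [AddCommGroup W] [Module ℚ W]
  [Fintype S] (om : W → T →ₗ[ℂ] (S → ℂ)), (∀ w w', om (w + w') = om w + om w') →
  (∀ (c : ℚ) (w : W), om (c • w) = (c : ℂ) • om w) → ∀ (d : ℕ) (w : ℕ → W),
  (∀ c : ℚ, Module.finrank ℂ (LinearMap.range (om (∑ k ∈ Finset.range (d + 2), c ^ k • w k))) ≤
    Module.finrank ℂ (LinearMap.range (om (w 0)))) →
  ∀ κ : S → ℂ, (∀ δ, ∑ o, κ o * om (w 0) δ o = 0) → ∀ δ, om (w 0) δ = 0 →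
    ∑ o, κ o * om (w 1) δ o = 0

/-- **P2, the restriction of a polynomial to a line**: `A(β + c γ e_i)` is a polynomial in `c` with
constant term `A(β)` and linear term `γ ∂_iA(β)`. (Induction on `A`, or Taylor expansion of a polynomial
in one variable.) -/
def S_Line : Prop := ∀ (q : ℕ) (A : MvPolynomial (Fin q) ℂ) (β : Fin q → ℂ) (i : Fin q) (γ : ℂ),
  ∃ f : Polynomial ℂ, f.natDegree ≤ A.totalDegree ∧ f.coeff 0 = eval β A ∧
    f.coeff 1 = γ * eval β (pderiv i A) ∧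
    ∀ c : ℂ, eval (fun l => β l + if l = i then c * γ else 0) A = f.eval c

/-! ## The key lemma -/

/-- **P3, the key lemma.** `u i j`, `v i j` are the gradients, `V` any set. Proof. Toric part: for every
`ℚ`-linear `g : ℂ → ℚ` vanishing on `{x | e^x ∈ E}` (a `ℚ`-space, as `E` is algebraically closed),
`S_AxF` gives `∑_j κ_j g(γ u_ij) = 0`. The functions `φ_j(i, γ, g) = g(γ u_ij)` on the set of all such
triples are `ℚ`-linearly independent: if `∑ c_j φ_j = 0` then `g(γ y_i) = 0` for all `g`,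
`y_i = ∑ c_j u_ij`, so `e^(γ y_i) ∈ E` for all `γ ∈ V` (functionals vanishing on a subspace separate the
points outside it), so `y_i = 0` by `BigS`, so `c = 0`. `S_Fun` (with `k = ⊥`) gives `κ = 0` on the toric
places. In the same way with `kf τ`-linear `g : ℂ → kf τ` vanishing on `{x | x ∈ Lam τ ∨ X(x) ∈ E}`
(as in `Key_pf`, `FR/I_Key.lean`), first for the places `(j, true)` (the functions `conj g(γ v_ij)`,
`y_i = ∑ conj(c_j) v_ij`), then for the places `(j, false)`. -/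
def S_KeyP : Prop := ∀ (τ μ : ℂ) (V : Set ℂ) (E : IntermediateField ℚ ℂ) (s n q : ℕ), KF n τ μ E →
  BigS τ μ n V E → ∀ (u : Fin q → Fin s → ℂ) (v : Fin q → Fin n → ℂ),
  (∀ c : Fin s → ℚ, (∀ i, ∑ j, (c j : ℂ) * u i j = 0) → c = 0) →
  (∀ g : Fin n → ℂ, (∀ j, IsE τ (g j)) → (∀ i, ∑ j, g j * v i j = 0) → g = 0) →
  ∀ κ : Fin s ⊕ Fin n × Bool → ℂ, (∀ o, κ o ∈ E) →
    (∀ i, ∀ γ ∈ V, ∃ T : ℂ, ∀ δ ∈ DK E,
      ∑ o, κ o * omV τ μ (fun j => γ * u i j) (fun j => γ * v i j) δ o = δ T) → κ = 0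

/-- **P4, the core.** As `Core_pf` (`FR/I_Core.lean`), with P1, P2 (`W = (Fin s → ℂ) × (Fin n → ℂ) ×
(Fin ρ → ℂ)` over `ℚ`; the forms on `DK K` are additive on `ℂ`, by `S_LamAddK`, `S_EtaAddK`) and P3.
Suppose not: there is a relation `(κ, κ')`, `κ ≠ 0`, with `∑ κ omV + ∑ κ' δ Z_i(β) = 0` on `DK K`
(duality). `E` from `S_EField`, `E`-rational relation by `S_RelStab`, `S_RelE`. P1 along
`β + c γ e_i`: `∑ κ omV(γ ∂_iR, γ ∂_iS) + ∑ κ'_l δ(γ ∂_iZ_l) = 0` for `δ ∈ DK E`, so the first sum is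
exact, and P3 gives `κ = 0`. -/
def S_CoreP : Prop := ∀ (τ μ : ℂ) (V : Submodule ℚ ℂ) (s n q ρ N : ℕ)
  (R : Fin s → MvPolynomial (Fin q) ℂ) (S : Fin n → MvPolynomial (Fin q) ℂ)
  (Z : Fin ρ → MvPolynomial (Fin q) ℂ) (K : IntermediateField ℚ ℂ), KF n τ μ K →
  ¬ HasTrdeg K (N + 1) →
  (∀ E : IntermediateField ℚ ℂ, KF n τ μ E → ¬ HasTrdeg E (N + s + 2 * n + ρ + 1) →
    BigS τ μ n (V : Set ℂ) E) →
  ∀ β : Fin q → ℂ, (∀ i, β i ∈ V) → MaxP τ μ K V R S Z β → NDf ⊥ R β →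
    (∀ g : Fin n → ℂ, (∀ j, IsE τ (g j)) → (∀ i, ∑ j, g j * pg S β i j = 0) → g = 0) →
    s + 2 * n ≤ Module.finrank ℂ
      ((DK K ⊓ TT (pv Z β)).map (omV τ μ (pv R β) (pv S β)))

/-- **P4', the Jacobian criterion**, for arbitrary points. The proof of `FormB_pf`
(`FR/I_FormB.lean`) does not use the form of the points. -/
def S_FormBZ : Prop := ∀ (τ μ : ℂ) (K : IntermediateField ℚ ℂ) (s n ρ : ℕ), KF n τ μ K →
  ∀ (u : Fin s → ℂ) (v : Fin n → ℂ) (z : Fin ρ → ℂ),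
    s + 2 * n ≤ Module.finrank ℂ ((DK K ⊓ TT z).map (omV τ μ u v)) →
      (∀ j, v j ∉ Lam τ) ∧
      AlgebraicIndependent (IntermediateField.adjoin ℚ ((K : Set ℂ) ∪ Set.range z)) (fm τ μ u v)

/-! ## Genericity -/

/-- **P5, the polynomial of the points of maximal rank.** Let `β₀ = co e w₀` have maximal rank `r`, choose
`r` derivations in `DK K` and `r` of the forms with nonzero minor at `β₀`. For an additive `f : ℂ → ℂ`
and a polynomial `A`, `f(A(co e w))` is a polynomial in the rational `w`: expand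
`A(∑_a w_ia e_a) = ∑_b w^b x_b`, then `f(A(co e w)) = ∑_b w^b f(x_b)`. So the minor is a polynomial in
`w`, nonzero at `w₀`, and where it does not vanish the rank is maximal. -/
def S_FormP : Prop := ∀ (τ μ : ℂ) (K : IntermediateField ℚ ℂ) (s n q ρ D : ℕ), KF n τ μ K →
  ∀ (R : Fin s → MvPolynomial (Fin q) ℂ) (S : Fin n → MvPolynomial (Fin q) ℂ)
  (Z : Fin ρ → MvPolynomial (Fin q) ℂ) (e : Fin D → ℂ),
    ∃ P : MvPolynomial (Fin q × Fin D) ℂ, P ≠ 0 ∧ ∀ w : Fin q → Fin D → ℚ,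
      eval (fun o => (w o.1 o.2 : ℂ)) P ≠ 0 →
        MaxP τ μ K (Submodule.span ℚ (Set.range e)) R S Z (co e w)

/-- **P6, nondegeneracy is an open condition.** Let the gradients be independent over `k` at
`β₀ = co e w₀`. They are `s` vectors in the `k`-space `ℂ^q`, so there are `k`-linear functionals
`F_1, …, F_s : ℂ^q → k` with `det(F_a(gradient_j)) ≠ 0`. As in P5, the determinant at `co e w` is a
polynomial in the rational `w`. -/
def S_NDform : Prop := ∀ (k : IntermediateField ℚ ℂ) (s q D : ℕ)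
  (R : Fin s → MvPolynomial (Fin q) ℂ) (e : Fin D → ℂ) (w₀ : Fin q → Fin D → ℚ),
  NDf k R (co e w₀) → ∃ P : MvPolynomial (Fin q × Fin D) ℂ, P ≠ 0 ∧
    ∀ w : Fin q → Fin D → ℚ, eval (fun o => (w o.1 o.2 : ℂ)) P ≠ 0 → NDf k R (co e w)

/-- **P7, specialisation to points of a large `ℚ`-space keeps linear independence over `ℚ`**
(`n₀ = Δ s (s - 1) + 1`, say). Proof (counting). Suppose that at every point `β = co e w`,
`w ∈ {0, …, B - 1}^(q D)`, the vectors `G_j(β) = (eval β (G j l))_l ∈ ℂ^t` are dependent over `ℚ`. Expand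
`G j l (co e w) = ∑_b w^b x_{jlb}`, choose a `ℚ`-basis of the span of all `x_{jlb}` and a common
denominator: up to a constant factor the `G_j(β)` become integral vectors with entries of absolute value
`≤ X = C B^Δ`. They are dependent, so their rank is `r ≤ s - 1`, it is enough to make `r` suitable
coordinates of `∑ c_j G_j(β)` vanish, and Siegel's lemma (`Int.Matrix.exists_ne_zero_int_vec_norm_le`, or
Cramer's rule) gives an integral `c ≠ 0` with `∑ c_j G_j(β) = 0` and `|c_j| ≤ (s X)^(s - 1)`. For every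
`c ≠ 0` some polynomial `∑_j c_j G_jl ≠ 0` of degree `≤ Δ` vanishes at all `β` in the box with this `c`:
at most `Δ |A|^(q - 1)` points of `A^q`, where `A = {∑ w_a e_a}`, `|A| = B^D`
(`MvPolynomial.schwartz_zippel_totalDegree`). Together
`B^(D q) ≤ (2 (s X)^(s - 1) + 1)^s Δ B^(D (q - 1))`, that is `B^D ≤ C' B^(Δ s (s - 1))`: false for large
`B`. (`q = 0` or `Δ = 0`: the `G j l` are constant, nothing to prove.) -/
def S_Indep : Prop := ∀ s Δ : ℕ, ∃ n₀ : ℕ, ∀ D : ℕ, n₀ ≤ D → ∀ e : Fin D → ℂ,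
  LinearIndependent ℚ e → ∀ (q t : ℕ) (G : Fin s → Fin t → MvPolynomial (Fin q) ℂ),
  (∀ j l, (G j l).totalDegree ≤ Δ) →
  (∀ c : Fin s → ℚ, (∀ l, ∑ j, C (c j : ℂ) * G j l = 0) → c = 0) →
    ∃ w : Fin q → Fin D → ℚ,
      ∀ c : Fin s → ℚ, (∀ l, ∑ j, (c j : ℂ) * eval (co e w) (G j l) = 0) → c = 0

/-- **P8, nondegenerate points exist.** From P7: let `θ_1, …, θ_d` be a basis of `k` over `ℚ`; apply P7 to
the `s d` tuples `(θ_a ∂_iR_j)_i` (`t = q`): `∑ c_ja θ_a ∂_iR_j = 0` for all `i` means that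
`∑_j (∑_a c_ja θ_a) R_j` is constant (characteristic zero), so all `∑_a c_ja θ_a` and all `c_ja` are
`0`. -/
def S_NDex : Prop := ∀ s Δ d : ℕ, ∃ n₀ : ℕ, ∀ k : IntermediateField ℚ ℂ, FiniteDimensional ℚ k →
  Module.finrank ℚ k ≤ d → ∀ D : ℕ, n₀ ≤ D → ∀ e : Fin D → ℂ, LinearIndependent ℚ e →
  ∀ (q : ℕ) (R : Fin s → MvPolynomial (Fin q) ℂ), (∀ j, (R j).totalDegree ≤ Δ) →
    (∀ c : Fin s → ℂ, (∀ j, c j ∈ k) → ∀ a : ℂ, ∑ j, C (c j) * R j = C a → c = 0) →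
      ∃ w : Fin q → Fin D → ℚ, NDf k R (co e w)

/-! ## The transcendence input -/

/-- **P9.** `NoSmall_pf` (`FR/I_NoSmall.lean`) for a product set instead of a stable space, and a factor
`y`: the numbers `a_l (x_i y)`; only `a_l x_i ∈ V` is used there. -/
def S_NoSmallC : Prop := ∀ Q M : ℕ, ∃ n₀ : ℕ, ∀ (a : Fin M → ℂ) (x : Fin n₀ → ℂ), FT Q a →
  LinearIndependent ℚ a → LinearIndependent ℚ x → ∀ V : Submodule ℚ ℂ, (∀ l i, a l * x i ∈ V) →
  ∀ (τ μ : ℂ) (n : ℕ), (0 < n → Nrm τ μ ∧ KLI τ a) →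
  ∀ E : IntermediateField ℚ ℂ, ¬ HasTrdeg E (M - 1) → BigS τ μ n (V : Set ℂ) E

/-- **P10.** The same for every lattice, from V7 (`S_TIV`): as `NoSmallV_pf`, but with the product set
`a_l (x_i y)`; the measure `MS Q'` of `x` passes to `(cmb (g i) (y x))_i` (`y ≠ 0`, `g` fixed, with a
larger constant). -/
def S_NoSmallCV : Prop := ∀ Q Q' M : ℕ, ∃ n₀ : ℕ, ∀ (a : Fin M → ℂ) (x : Fin n₀ → ℂ), FT Q a →
  SLI a → MS Q' x → ∀ V : Submodule ℚ ℂ, (∀ l i, a l * x i ∈ V) →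
  ∀ (τ μ : ℂ) (n : ℕ) (E : IntermediateField ℚ ℂ), ACl E → (0 < n → GF τ μ E) →
    ¬ HasTrdeg E (M - 1) → BigS τ μ n (V : Set ℂ) E

/-! ## The main statements -/

/-- The conclusion: full rank for all polynomial families of degree at most `Δ` at almost all points of
`V^q`, `V` the span of `e`. -/
def FamC (τ μ : ℂ) (N s n ρ Δ : ℕ) {D : ℕ} (e : Fin D → ℂ) : Prop :=
  ∀ (q : ℕ) (R : Fin s → MvPolynomial (Fin q) ℂ) (S : Fin n → MvPolynomial (Fin q) ℂ)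
    (Z : Fin ρ → MvPolynomial (Fin q) ℂ),
  (∀ j, (R j).totalDegree ≤ Δ) → (∀ j, (S j).totalDegree ≤ Δ) →
  (∀ c : Fin s → ℚ, ∀ a : ℂ, ∑ j, C (c j : ℂ) * R j = C a → c = 0) →
  (∀ g : Fin n → ℂ, (∀ j, IsE τ (g j)) → ∀ a : ℂ, ∑ j, C (g j) * S j = C a → g = 0) →
  ∀ K₀ : IntermediateField ℚ ℂ, (K₀ : Set ℂ).Countable → ACl K₀ →
    (0 < n → GF τ μ K₀ ∧ PerK τ μ K₀) → ¬ HasTrdeg K₀ (N + 1) →
  ∃ P : MvPolynomial (Fin q × Fin D) ℂ, P ≠ 0 ∧
  ∀ w : Fin q → Fin D → ℚ, eval (fun a => (w a.1 a.2 : ℂ)) P ≠ 0 →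
    (∀ j, pv S (co e w) j ∉ Lam τ) ∧
    AlgebraicIndependent (IntermediateField.adjoin ℚ ((K₀ : Set ℂ) ∪ Set.range (pv Z (co e w))))
      (fm τ μ (pv R (co e w)) (pv S (co e w)))

/-- **P11, general form.** From `S_CoreP`, `S_FormP`, `S_FormBZ`, `S_NDex`, `S_NDform` (for `k = ⊥` and
the `R_j`, and, if `0 < n`, for `k = kf τ` and the `S_j`; `kf τ` has degree `≤ 2`, `I_Kf`; `0 < τ.im`
from `GF`). Take the product of the polynomials. -/
def S_FRPG : Prop := ∀ N s n ρ Δ : ℕ, ∃ n₀ : ℕ, ∀ (τ μ : ℂ) (D : ℕ), n₀ ≤ D → ∀ e : Fin D → ℂ,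
  LinearIndependent ℚ e →
  (∀ E : IntermediateField ℚ ℂ, KF n τ μ E → ¬ HasTrdeg E (N + s + 2 * n + ρ + 1) →
    BigS τ μ n (Submodule.span ℚ (Set.range e) : Set ℂ) E) → FamC τ μ N s n ρ Δ e

/-- **P12, lattices with algebraic invariants** (and the toric case `n = 0`), from P11 and P9. (`D` is
large, as the span of `e` contains the independent numbers `a_0 x_i`.) -/
def S_FRPA : Prop := ∀ Q N s n ρ Δ : ℕ, ∃ n₀ : ℕ, ∀ (τ μ : ℂ)
  (a : Fin (N + s + 2 * n + ρ + 2) → ℂ) (x : Fin n₀ → ℂ), FT Q a → LinearIndependent ℚ a →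
  LinearIndependent ℚ x → (0 < n → Nrm τ μ ∧ KLI τ a) → ∀ (D : ℕ) (e : Fin D → ℂ),
  LinearIndependent ℚ e → (∀ l i, a l * x i ∈ Submodule.span ℚ (Set.range e)) →
    FamC τ μ N s n ρ Δ e

/-- **P13, every lattice**, from P11 and P10. (`MS Q' x` implies that `x` is independent over `ℚ`.) -/
def S_FRPV : Prop := ∀ Q Q' N s n ρ Δ : ℕ, ∃ n₀ : ℕ, ∀ (τ μ : ℂ)
  (a : Fin (N + s + 2 * n + ρ + 2) → ℂ) (x : Fin n₀ → ℂ), FT Q a → SLI a → MS Q' x →
  ∀ (D : ℕ) (e : Fin D → ℂ), LinearIndependent ℚ e →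
  (∀ l i, a l * x i ∈ Submodule.span ℚ (Set.range e)) → FamC τ μ N s n ρ Δ e

end Pool.Agent.Work.MP_8da9ea_nt.FR
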