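import Pool.Agent.Work.MP_8da9ea_nt.FR.PolDefs
import Pool.Agent.Work.MP_8da9ea_nt.FR.StmtsP
import Pool.Agent.Work.MP_8da9ea_nt.FR.FinA

/-!
# Full rank for polynomial families: application of the main statements
-/

set_option autoImplicit false

namespace Pool.Agent.Work.MP_8da9ea_nt.FR

open Pool.Agent.Work.MP_8da9ea_nt.EB Pool.Agent.Work.MP_327059_nt.GL Pool.Agent.Work.MP_8da9ea_nt.S
  Pool.Agent.Work.MP_8da9ea_nt.EC Pool.Agent.Work.MP_8da9ea_nt.TG Pool.Agent.ED

namespace PolA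

open FinA

/-! ## Subfamilies -/

theorem len_rename {m m' : ℕ} {f : Fin m' → Fin m} (hf : Function.Injective f)
    (P : MvPolynomial (Fin m') ℤ) : len (MvPolynomial.rename f P) = len P := by
  classical
  unfold len
  rw [MvPolynomial.support_rename_of_injective hf, Finset.sum_image]
  · refine Finset.sum_congr rfl fun d _ => ?_
    rw [MvPolynomial.coeff_rename_mapDomain f hf]
  · intro d _ d' _ h
    exact Finsupp.mapDomain_injective hf h

theorem FT_sub {Q m m' : ℕ} {b : Fin m → ℂ} (h : FT Q b) {f : Fin m' → Fin m}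
    (hf : Function.Injective f) : FT Q (fun i => b (f i)) := by
  obtain ⟨C, hC, h⟩ := h
  refine ⟨C, hC, fun P t ht hd hl h0 => ?_⟩
  have h1 : MvPolynomial.aeval (fun i => b (f i)) P =
      MvPolynomial.aeval b (MvPolynomial.rename f P) := (MvPolynomial.aeval_rename f b P).symm
  rw [h1] at h0 ⊢
  refine h _ t ht (le_trans ?_ hd) (by rw [len_rename hf]; exact hl) h0
  exact_mod_cast MvPolynomial.totalDegree_rename_le f P

theorem sum_ext {R : Type} [CommSemiring R] {m m' : ℕ} {f : Fin m' → Fin m}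
    (hf : Function.Injective f) (g : Fin m' → R) (h : Fin m → R) :
    ∑ i, Function.extend f g 0 i * h i = ∑ j, g j * h (f j) := by
  classical
  rw [← Finset.sum_subset (Finset.subset_univ (Finset.univ.image f)), Finset.sum_image]
  · exact Finset.sum_congr rfl fun j _ => by rw [hf.extend_apply]
  · intro i _ j _ hij
    exact hf hij
  · intro i _ hi
    rw [Function.extend_apply', Pi.zero_apply, zero_mul]
    rintro ⟨j, rfl⟩
    exact hi (Finset.mem_image_of_mem f (Finset.mem_univ j))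

theorem KLI_sub {τ : ℂ} {m m' : ℕ} {b : Fin m → ℂ} (h : KLI τ b) {f : Fin m' → Fin m}
    (hf : Function.Injective f) : KLI τ (fun i => b (f i)) := by
  intro g hg h0
  have h1 := h (Function.extend f g 0) (fun j => ?_) (by rw [sum_ext hf]; exact h0)
  · funext i
    have h2 := congrFun h1 (f i)
    rwa [hf.extend_apply] at h2
  · by_cases hj : ∃ i, f i = j
    · obtain ⟨i, rfl⟩ := hj
      rw [hf.extend_apply]
      exact hg i
    · rw [Function.extend_apply' _ _ _ hj]
      exact ⟨1, one_ne_zero, by simpa using I_Ind.mem0 τ, by simpa using I_Ind.mem0 τ⟩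

theorem MS_sub {Q n n' : ℕ} {x : Fin n → ℂ} (h : MS Q x) {f : Fin n' → Fin n}
    (hf : Function.Injective f) : MS Q (fun i => x (f i)) := by
  obtain ⟨B, hB, h⟩ := h
  refine ⟨B, hB, fun s hs S hS hsS => ?_⟩
  have h1 := h (Function.extend f s 0) (fun h0 => hs ?_) S hS (fun i => ?_)
  · have h2 : ∑ i, ((Function.extend f s 0 i : ℤ) : ℂ) * x i = ∑ i, (s i : ℂ) * x (f i) := by
      rw [← sum_ext hf (fun i => (s i : ℂ))]
      refine Finset.sum_congr rfl fun i _ => ?_
      by_cases hi : ∃ j, f j = i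
      · obtain ⟨j, rfl⟩ := hi
        rw [hf.extend_apply, hf.extend_apply]
      · rw [Function.extend_apply' _ _ _ hi, Function.extend_apply' _ _ _ hi, Pi.zero_apply,
          Pi.zero_apply, Int.cast_zero]
    rw [h2] at h1
    exact h1
  · funext i
    have h2 := congrFun h0 (f i)
    rwa [hf.extend_apply] at h2
  · by_cases hi : ∃ j, f j = i
    · obtain ⟨j, rfl⟩ := hi
      rw [hf.extend_apply]
      exact hsS j
    · rw [Function.extend_apply' _ _ _ hi, Pi.zero_apply, Int.cast_zero, abs_zero]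
      linarith

/-! ## Number fields -/

/-- Multiples of a basis of a number field have a measure of linear independence. -/
theorem MS_alg {n : ℕ} {β : Fin n → ℂ} (hβ : ∀ i, IsAlgebraic ℚ (β i))
    (hli : LinearIndependent ℚ β) {y : ℂ} (hy : y ≠ 0) : MS 1 (fun i => β i * y) := by
  classical
  obtain ⟨C, hC, h⟩ := x_FTalg n β hβ
  refine ⟨C * (n + 1) + |Real.log ‖y‖| + 1, ?_, fun s hs S hS hsS => ?_⟩
  · have h1 : (0 : ℝ) ≤ C * (n + 1) := by positivity
    have h2 := abs_nonneg (Real.log ‖y‖)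
    linarith
  · set P : MvPolynomial (Fin n) ℤ := ∑ i, MvPolynomial.C (s i) * MvPolynomial.X i with hP
    have hPe : MvPolynomial.aeval β P = ∑ i, (s i : ℂ) * β i := by
      rw [hP, map_sum]
      refine Finset.sum_congr rfl fun i _ => ?_
      rw [map_mul, MvPolynomial.aeval_X, ← MvPolynomial.algebraMap_eq, AlgHom.commutes]
      rfl
    have h0 : MvPolynomial.aeval β P ≠ 0 := by
      rw [hPe]
      intro h0
      apply hs
      rw [Fintype.linearIndependent_iff] at hli
      have h3 := hli (fun i => (s i : ℚ)) (by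
        rw [← h0]
        refine Finset.sum_congr rfl fun i _ => ?_
        rw [Rat.smul_def]
        push_cast
        rfl)
      funext i
      exact_mod_cast h3 i
    have hcoef : ∀ d, |((P.coeff d : ℤ) : ℝ)| ≤ ∑ i, if d = Finsupp.single i 1 then S else 0 := by
      intro d
      rw [hP, MvPolynomial.coeff_sum]
      push_cast
      refine (Finset.abs_sum_le_sum_abs _ _).trans (Finset.sum_le_sum fun i _ => ?_)
      rw [MvPolynomial.coeff_C_mul, MvPolynomial.coeff_X]
      by_cases hd : Finsupp.single i 1 = d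
      · rw [if_pos hd, if_pos hd.symm, mul_one]
        exact hsS i
      · rw [if_neg hd, if_neg (fun h => hd h.symm), mul_zero, Int.cast_zero, abs_zero]
    have hlen : len P ≤ n * S := by
      unfold len
      refine (Finset.sum_le_sum fun d _ => hcoef d).trans ?_
      rw [Finset.sum_comm]
      have h4 : ∀ i : Fin n, ∑ d ∈ P.support, (if d = Finsupp.single i 1 then S else 0) ≤ S := by
        intro i
        rw [Finset.sum_ite_eq']
        split_ifs
        · exact le_rfl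
        · linarith
      refine (Finset.sum_le_sum fun i _ => h4 i).trans ?_
      rw [Finset.sum_const, Finset.card_univ, Fintype.card_fin, nsmul_eq_mul]
    have hdeg : P.totalDegree ≤ 1 := by
      rw [hP]
      refine MvPolynomial.totalDegree_finsetSum_le fun i _ => ?_
      refine (MvPolynomial.totalDegree_mul _ _).trans ?_
      rw [MvPolynomial.totalDegree_C, MvPolynomial.totalDegree_X]
    have hS0 : (0 : ℝ) ≤ S := by linarith
    have ht : (1 : ℝ) ≤ (n + 1) * S := by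
      have h5 : (0 : ℝ) ≤ n * S := by positivity
      nlinarith
    have h5 := h P ((n + 1) * S) ht (by
      have h6 : (P.totalDegree : ℝ) ≤ 1 := by exact_mod_cast hdeg
      linarith) (by
      refine hlen.trans ?_
      have h6 := Real.add_one_le_exp ((n + 1) * S)
      have h7 : (n : ℝ) * S ≤ (n + 1) * S := by nlinarith
      linarith) h0
    rw [pow_one] at h5
    have h6 : ∑ i, (s i : ℂ) * (β i * y) = MvPolynomial.aeval β P * y := by
      rw [hPe, Finset.sum_mul]
      exact Finset.sum_congr rfl fun i _ => by ring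
    rw [h6, norm_mul, pow_one]
    have hy' : 0 < ‖y‖ := norm_pos_iff.2 hy
    have h7 : Real.exp (-|Real.log ‖y‖|) ≤ ‖y‖ := by
      have h8 := Real.exp_log hy'
      calc Real.exp (-|Real.log ‖y‖|) ≤ Real.exp (Real.log ‖y‖) :=
            Real.exp_le_exp.2 (neg_abs_le _)
        _ = ‖y‖ := h8
    calc Real.exp (-((C * (n + 1) + |Real.log ‖y‖| + 1) * S))
        ≤ Real.exp (-(C * ((n + 1) * S)) + -|Real.log ‖y‖|) := by
          refine Real.exp_le_exp.2 ?_
          have h9 := abs_nonneg (Real.log ‖y‖)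
          nlinarith
      _ = Real.exp (-(C * ((n + 1) * S))) * Real.exp (-|Real.log ‖y‖|) := Real.exp_add _ _
      _ ≤ ‖MvPolynomial.aeval β P‖ * ‖y‖ :=
          mul_le_mul h5 h7 (Real.exp_pos _).le (norm_nonneg _)

/-- A space stable under a large number field contains a product set. -/
theorem nf (hS : S_SLIex) (M n : ℕ) {D : ℕ} {e : Fin D → ℂ} (he : LinearIndependent ℚ e)
    (L : IntermediateField ℚ ℂ) (hL : FiniteDimensional ℚ L) (hM : 2 * M ≤ Module.finrank ℚ L)
    (hn : n ≤ Module.finrank ℚ L) (hD : 0 < D) (hSt : Stab L e) :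
    ∃ (a : Fin M → ℂ) (x : Fin n → ℂ), FT 1 a ∧ SLI a ∧ MS 1 x ∧
      ∀ l i, a l * x i ∈ Submodule.span ℚ (Set.range e) := by
  obtain ⟨a, haL, hSLI⟩ := hS L M hL hM
  obtain ⟨f, hf⟩ := exists_linearIndependent_of_le_finrank hn
  have halg : ∀ y ∈ L, IsAlgebraic ℚ y := by
    intro y hy
    have h4 : IsAlgebraic ℚ (⟨y, hy⟩ : L) := Algebra.IsAlgebraic.isAlgebraic _
    exact h4.algebraMap
  have hf' : LinearIndependent ℚ (fun i => ((f i : L) : ℂ)) :=
    hf.map' L.val.toLinearMap (LinearMap.ker_eq_bot.2 L.val.injective)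
  have hy : e ⟨0, hD⟩ ≠ 0 := he.ne_zero _
  refine ⟨a, fun i => (f i : ℂ) * e ⟨0, hD⟩, x_FTalg M a fun j => halg _ (haL j), hSLI,
    MS_alg (fun i => halg _ (f i).2) hf' hy, fun l i => ?_⟩
  rw [← mul_assoc]
  exact hSt _ (mul_mem (haL l) (f i).2) _

/-! ## The main statements for the lattice `ℤ + ℤ τ` -/

/-- The condition on the product set, for elliptic points. -/
def Cnd (τ : ℂ) (Q n : ℕ) {M k : ℕ} (a : Fin M → ℂ) (x : Fin k → ℂ) : Prop :=
  0 < n → (IsAlgebraic ℚ (jInv 1 τ) ∧ KLI τ a) ∨ (SLI a ∧ MS Q x)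

/-- Passing from the normalised functions to the functions of `ℤ + ℤ τ`. -/
theorem FamC_one {τ μ : ℂ} (hμ : Nrm τ μ)
    (hμa : ∀ K : IntermediateField ℚ ℂ, gg2 τ ∈ K → gg3 τ ∈ K → IsAlgebraic K μ)
    {N s n ρ Δ D : ℕ} {e : Fin D → ℂ} (h : FamC τ μ N s n ρ Δ e) (hn : 0 < n) :
    FamC τ 1 N s n ρ Δ e := by
  intro q R S Z hR hS hRi hSi K₀ hc ha hG ht
  obtain ⟨hGF, hP⟩ := hG hn
  have h2 : gg2 τ ∈ K₀ := by
    have := hGF.g2
    rwa [one_pow, one_mul] at this
  have h3 : gg3 τ ∈ K₀ := by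
    have := hGF.g3
    rwa [one_pow, one_mul] at this
  have hμK : μ ∈ K₀ := ha μ (hμa K₀ h2 h3)
  obtain ⟨P, hP0, hw⟩ := h q R S Z hR hS hRi hSi K₀ hc ha
    (fun _ => ⟨⟨hGF.im, hμ.mu, mul_mem (pow_mem hμK 4) h2, mul_mem (pow_mem hμK 6) h3⟩,
      ⟨hμK, hP.tau, hP.et, hP.kap⟩⟩) ht
  refine ⟨P, hP0, fun w hwP => ?_⟩
  obtain ⟨h4, h5⟩ := hw w hwP
  refine ⟨h4, ?_⟩
  set u := pv R (co e w) with hu
  set v := pv S (co e w) with hv
  set K := IntermediateField.adjoin ℚ ((K₀ : Set ℂ) ∪ Set.range (pv Z (co e w))) with hK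
  have hμK' : μ ∈ K := IntermediateField.subset_adjoin _ _ (Or.inl hμK)
  let c : Fin s ⊕ Fin n × Bool → ℂ :=
    Sum.elim (fun _ => 1) (fun o => if o.2 then μ⁻¹ else (μ ^ 2)⁻¹)
  have hcK : ∀ o, c o ∈ K := by
    rintro (a | ⟨a, b⟩)
    · exact one_mem _
    · cases b
      · exact inv_mem (pow_mem hμK' 2)
      · exact inv_mem hμK'
  have hc0 : ∀ o, c o ≠ 0 := by
    rintro (a | ⟨a, b⟩)
    · exact one_ne_zero
    · cases b
      · exact inv_ne_zero (pow_ne_zero 2 hμ.mu)
      · exact inv_ne_zero hμ.mu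
  have h6 := indep_smul h5 c hcK hc0
  have h7 : (fun o => c o * fm τ μ u v o) = fm τ 1 u v := by
    funext o
    have hμ0 := hμ.mu
    rcases o with a | ⟨a, b⟩
    · exact one_mul _
    · cases b
      · change (μ ^ 2)⁻¹ * xe τ μ (v a) = xe τ 1 (v a)
        unfold xe
        field_simp
      · change μ⁻¹ * ze τ μ (v a) = ze τ 1 (v a)
        unfold ze
        field_simp
  rw [← h7]
  exact h6

/-- **Full rank for every lattice `ℤ + ℤ τ`.** -/
theorem fam (hA : S_FRPA) (hV : S_FRPV) (hS : S_SLIex) (Q N s n ρ Δ M : ℕ)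
    (hM : N + s + 2 * n + ρ + 2 ≤ M) :
    ∃ n₁ : ℕ, ∀ n₀, n₁ ≤ n₀ → ∀ τ : ℂ, 0 < τ.im → ∀ (D : ℕ) (e : Fin D → ℂ),
      LinearIndependent ℚ e → Rich Q M n₀ e (Cnd τ Q n) → FamC τ 1 N s n ρ Δ e := by
  obtain ⟨n₁, h1⟩ := hA Q N s n ρ Δ
  obtain ⟨n₂, h2⟩ := hV Q Q N s n ρ Δ
  obtain ⟨n₃, h3⟩ := hV 1 1 N s n ρ Δ
  refine ⟨n₁ + n₂ + n₃ + 2 * M, fun n₀ hn₀ τ hτ D e he hR => ?_⟩
  rcases hR with ⟨L, hL, hdeg, hD, hSt⟩ | ⟨a, x, hFT, hai, hxi, hax, hC⟩
  · obtain ⟨a, x, hFT, hSLI, hMS, hax⟩ := nf hS (N + s + 2 * n + ρ + 2) n₃ he L hL (by omega)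
      (by omega) hD hSt
    exact h3 τ 1 a x hFT hSLI hMS D e he hax
  · have hf : Function.Injective (Fin.castLE hM) := Fin.castLE_injective hM
    have hg₁ : Function.Injective (Fin.castLE (show n₁ ≤ n₀ by omega)) := Fin.castLE_injective _
    have hg₂ : Function.Injective (Fin.castLE (show n₂ ≤ n₀ by omega)) := Fin.castLE_injective _
    rcases Nat.eq_zero_or_pos n with hn | hn
    · exact h1 τ 1 _ _ (FT_sub hFT hf) (hai.comp _ hf) (hxi.comp _ hg₁)
        (fun h => absurd h (by omega)) D e he (fun l i => hax _ _)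
    · rcases hC hn with ⟨hj, hK⟩ | ⟨hSL, hMS⟩
      · obtain ⟨μ, hμ, hμa⟩ := Norm_pf τ hτ hj
        exact FamC_one hμ hμa (h1 τ μ _ _ (FT_sub hFT hf) (hai.comp _ hf) (hxi.comp _ hg₁)
          (fun _ => ⟨hμ, KLI_sub hK hf⟩) D e he (fun l i => hax _ _)) hn
      · exact h2 τ 1 _ _ (FT_sub hFT hf) (fun τ' hτ' => KLI_sub (hSL τ' hτ') hf)
          (MS_sub hMS hg₂) D e he (fun l i => hax _ _)

end PolA

end Pool.Agent.Work.MP_8da9ea_nt.FR
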