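import Pool.Agent.Work.MP_8da9ea_nt.FR.KDefs
import Pool.Agent.Work.MP_8da9ea_nt.FR.PolA
import Pool.Agent.Work.MP_8da9ea_nt.FR.U

/-!
# Full rank outside closed sets of high codimension: application of the main statements
-/

set_option autoImplicit false

namespace Pool.Agent.Work.MP_8da9ea_nt.FR

open Pool.Agent.Work.MP_8da9ea_nt.EB Pool.Agent.Work.MP_327059_nt.GL Pool.Agent.Work.MP_8da9ea_nt.S
  Pool.Agent.Work.MP_8da9ea_nt.EC Pool.Agent.Work.MP_8da9ea_nt.TG Pool.Agent.ED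

namespace KA

open FinA PolA

theorem thin_mono {I : Type} [Fintype I] {κ : ℕ} {E E' : Set (I → ℚ)} (h : Thin κ E')
    (hE : E ⊆ E') : Thin κ E := by
  obtain ⟨m, ξ, h1, h2⟩ := h
  exact ⟨m, ξ, h1, hE.trans h2⟩

/-- Passing from the normalised functions to the functions of `ℤ + ℤ τ`. -/
theorem FamK_one {τ μ : ℂ} (hμ : Nrm τ μ)
    (hμa : ∀ K : IntermediateField ℚ ℂ, gg2 τ ∈ K → gg3 τ ∈ K → IsAlgebraic K μ)
    {N s n ρ κ D : ℕ} {e : Fin D → ℂ} (h : FamK τ μ N s n ρ κ e) (hn : 0 < n) :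
    FamK τ 1 N s n ρ κ e := by
  intro q R S Z K₀ hc ha hG ht
  obtain ⟨hGF, hP⟩ := hG hn
  have h2 : gg2 τ ∈ K₀ := by
    have := hGF.g2
    rwa [one_pow, one_mul] at this
  have h3 : gg3 τ ∈ K₀ := by
    have := hGF.g3
    rwa [one_pow, one_mul] at this
  have hμK : μ ∈ K₀ := ha μ (hμa K₀ h2 h3)
  refine thin_mono (h q R S Z K₀ hc ha
    (fun _ => ⟨⟨hGF.im, hμ.mu, mul_mem (pow_mem hμK 4) h2, mul_mem (pow_mem hμK 6) h3⟩,
      ⟨hμK, hP.tau, hP.et, hP.kap⟩⟩) ht) ?_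
  rintro x ⟨hx1, hx2, hx3⟩
  refine ⟨hx1, hx2, fun hC => hx3 ?_⟩
  obtain ⟨h4, h5⟩ := hC
  refine ⟨h4, ?_⟩
  set u := pv R (cx e x) with hu
  set v := pv S (cx e x) with hv
  set K := IntermediateField.adjoin ℚ ((K₀ : Set ℂ) ∪ Set.range (pv Z (cx e x))) with hK
  have hμK' : μ ∈ K := IntermediateField.subset_adjoin _ _ (Or.inl hμK)
  let c : Fin s ⊕ Fin n × Bool → ℂ :=
    Sum.elim (fun _ => 1) (fun o => if o.2 then μ⁻¹ else (μ ^ 2)⁻¹)
  have hcK : ∀ o, c o ∈ K := by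
    rintro (a | ⟨a, b⟩)
    · exact one_mem _
    · cases b
      · exact inv_mem (pow_mem hμK' 2)
      · exact inv_mem hμK'
  have hc0 : ∀ o, c o ≠ 0 := by
    rintro (a | ⟨a, b⟩)
    · exact one_ne_zero
    · cases b
      · exact inv_ne_zero (pow_ne_zero 2 hμ.mu)
      · exact inv_ne_zero hμ.mu
  have h6 := indep_smul h5 c hcK hc0
  have h7 : (fun o => c o * fm τ μ u v o) = fm τ 1 u v := by
    funext o
    have hμ0 := hμ.mu
    rcases o with a | ⟨a, b⟩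
    · exact one_mul _
    · cases b
      · change (μ ^ 2)⁻¹ * xe τ μ (v a) = xe τ 1 (v a)
        unfold xe
        field_simp
      · change μ⁻¹ * ze τ μ (v a) = ze τ 1 (v a)
        unfold ze
        field_simp
  rw [← h7]
  exact h6

/-- **Full rank for every lattice `ℤ + ℤ τ`.** -/
theorem famK (hA : S_FRKAu) (hV : S_FRKVu) (hS : S_SLIex) (Q N s n ρ M : ℕ)
    (hM : N + s + 2 * n + ρ + 2 ≤ M) :
    ∃ n₁ : ℕ, ∀ κ n₀, n₁ + κ * M ≤ n₀ → ∀ τ : ℂ, 0 < τ.im → ∀ (D : ℕ) (e : Fin D → ℂ),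
      LinearIndependent ℚ e → Rich Q M n₀ e (Cnd τ Q n) → FamK τ 1 N s n ρ κ e := by
  obtain ⟨n₁, h1⟩ := hA Q N s n ρ
  obtain ⟨n₂, h2⟩ := hV Q Q N s n ρ
  obtain ⟨n₃, h3⟩ := hV 1 1 N s n ρ
  refine ⟨n₁ + n₂ + n₃ + 2 * M, fun κ n₀ hn₀ τ hτ D e he hR => ?_⟩
  have hκ : κ * (N + s + 2 * n + ρ + 2) ≤ κ * M := Nat.mul_le_mul_left κ hM
  rcases hR with ⟨L, hL, hdeg, hD, hSt⟩ | ⟨a, x, hFT, hai, hxi, hax, hC⟩
  · obtain ⟨a, x, hFT, hSLI, hMS, hax⟩ := nf hS (N + s + 2 * n + ρ + 2)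
      (n₃ + κ * (N + s + 2 * n + ρ + 2)) he L hL (by omega) (by omega) hD hSt
    exact h3 κ _ rfl τ 1 a x hFT hSLI hMS D e he hax
  · have hf : Function.Injective (Fin.castLE hM) := Fin.castLE_injective hM
    have hg₁ : Function.Injective (Fin.castLE
      (show n₁ + κ * (N + s + 2 * n + ρ + 2) ≤ n₀ by omega)) := Fin.castLE_injective _
    have hg₂ : Function.Injective (Fin.castLE
      (show n₂ + κ * (N + s + 2 * n + ρ + 2) ≤ n₀ by omega)) := Fin.castLE_injective _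
    rcases Nat.eq_zero_or_pos n with hn | hn
    · exact h1 κ _ rfl τ 1 _ _ (FT_sub hFT hf) (hai.comp _ hf) (hxi.comp _ hg₁)
        (fun h => absurd h (by omega)) D e he (fun l i => hax _ _)
    · rcases hC hn with ⟨hj, hK⟩ | ⟨hSL, hMS⟩
      · obtain ⟨μ, hμ, hμa⟩ := Norm_pf τ hτ hj
        exact FamK_one hμ hμa (h1 κ _ rfl τ μ _ _ (FT_sub hFT hf) (hai.comp _ hf)
          (hxi.comp _ hg₁) (fun _ => ⟨hμ, KLI_sub hK hf⟩) D e he (fun l i => hax _ _)) hn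
      · exact h2 κ _ rfl τ 1 _ _ (FT_sub hFT hf) (fun τ' hτ' => KLI_sub (hSL τ' hτ') hf)
          (MS_sub hMS hg₂) D e he (fun l i => hax _ _)

end KA

end Pool.Agent.Work.MP_8da9ea_nt.FR
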