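import Pool.Agent.Work.MP_8da9ea_nt.FR.StmtsP

/-!
# Block FR, part K: exceptional sets of high codimension

The exceptional rational points lie in a closed set of codimension `> κ`, for any given `κ`: the
perturbation argument works at a rational point `z` of maximal rank of any irreducible closed `W`, in the
directions of the tangent space of `W` at `z`; and a subspace of codimension `κ` of a space with a large
product set contains a large product set. Irreducible closed sets over `ℚ` are given by generic points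
`ξ ∈ ℂ^I`.
-/

set_option autoImplicit false

namespace Pool.Agent.Work.MP_8da9ea_nt.FR

open MvPolynomial Metric Filter Topology Pool.Agent.Work.MP_327059_nt.GL
  Pool.Agent.Work.MP_8da9ea_nt.S Pool.Agent.Work.MP_8da9ea_nt.EB Pool.Agent.Work.MP_8da9ea_nt.EC

/-- The rational points of the closure of `ξ` over `ℚ`. -/
def Wv {I : Type} (ξ : I → ℂ) : Set (I → ℚ) :=
  {x | ∀ f : MvPolynomial I ℚ, aeval ξ f = 0 → eval x f = 0}

/-- `E` is a dense set of rational points of the closure of `ξ`. -/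
def Dns {I : Type} (ξ : I → ℂ) (E : Set (I → ℚ)) : Prop :=
  E ⊆ Wv ξ ∧ ∀ f : MvPolynomial I ℚ, (∀ x ∈ E, eval x f = 0) → aeval ξ f = 0

/-- The tangent space at `z` of the closure of `ξ`. -/
def Tz {I : Type} [Fintype I] (ξ : I → ℂ) (z : I → ℚ) : Submodule ℚ (I → ℚ) where
  carrier := {h | ∀ f : MvPolynomial I ℚ, aeval ξ f = 0 → ∑ i, h i * eval z (pderiv i f) = 0}
  add_mem' {a b} ha hb f hf := by
    simp only [Pi.add_apply, add_mul, Finset.sum_add_distrib, ha f hf, hb f hf, add_zero]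
  zero_mem' f _ := by simp
  smul_mem' c a ha f hf := by
    simp only [Pi.smul_apply, smul_eq_mul, mul_assoc, ← Finset.mul_sum, ha f hf, mul_zero]

/-- `E` is contained in the rational points of a closed set (over `ℚ`) of codimension greater than `κ`:
the finite union of the closures of points of transcendence degree less than `|I| - κ`. -/
def Thin {I : Type} [Fintype I] (κ : ℕ) (E : Set (I → ℚ)) : Prop :=
  ∃ (m : ℕ) (ξ : Fin m → I → ℂ), (∀ k, ∃ d, d + κ < Fintype.card I ∧ TrLe d (ξ k)) ∧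
    E ⊆ ⋃ k, Wv (ξ k)

/-! ## Geometry -/

/-- **K1, decomposition.** The ideal `J` of all polynomials vanishing on `E` is radical; `ℚ[x_I]` is
Noetherian, so `J` is the intersection of its finitely many minimal primes `P_k`
(`Ideal.finite_minimalPrimes_of_isNoetherianRing`, `Ideal.sInf_minimalPrimes`). Each prime `P` is
`{f | f(ξ) = 0}` for some `ξ ∈ ℂ^I`: embed the fraction field of `ℚ[x_I] / P` into `ℂ` (send a
transcendence basis among the `x_i` to algebraically independent complex numbers, extend by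
`IsAlgClosed.lift`). `E ⊆ ⋃ Z(P_k)`: a point `x` of `E` has a prime ideal containing `J`, so containing
some `P_k`. Density: choose `g` in all `P_j`, `j ≠ k`, not in `P_k`; if `f` vanishes on `E ∩ Z(P_k)` then
`f g ∈ J ⊆ P_k`, so `f ∈ P_k`. -/
def S_Dec : Prop := ∀ (I : Type) [Fintype I] (E : Set (I → ℚ)), ∃ (m : ℕ) (ξ : Fin m → I → ℂ),
  E ⊆ ⋃ k, Wv (ξ k) ∧ ∀ k, Dns (ξ k) (E ∩ Wv (ξ k))

/-- **K2, the dimension of the tangent space.** Let the transcendence degree of `ξ` be `≥ d + 1`, and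
suppose that `Tz ξ z` has dimension `≤ d`. Then there are `f_1, …, f_r`, `r = |I| - d`, vanishing at `ξ`,
with linearly independent gradients at `z`, so a minor `M = det (∂_i f_a)_{i ∈ I', a}`, `|I'| = r`, with
`M(z) ≠ 0`, so `M(ξ) ≠ 0` as `z ∈ Wv ξ`. The complement of `I'` has `d` elements, so not all `ξ_i` are
algebraic over `ℚ(ξ_i, i ∉ I')`, and there is a derivation `δ` of `ℂ` killing the `ξ_i`, `i ∉ I'`, and not
all `ξ_i`. But `∑_{i ∈ I'} ∂_i f_a(ξ) δ ξ_i = δ (f_a(ξ)) = 0` for all `a`, contradicting `M(ξ) ≠ 0`. -/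
def S_TanDim : Prop := ∀ (I : Type) [Fintype I] (ξ : I → ℂ) (z : I → ℚ), z ∈ Wv ξ → ∀ d : ℕ,
  ¬ TrLe d ξ → d + 1 ≤ Module.finrank ℚ (Tz ξ z)

/-! ## Perturbation on closed sets -/

/-- The value at `x` of a polynomial with coefficients in `W`. -/
noncomputable def pe {I W : Type} [AddCommGroup W] [Module ℚ W] (Φ : (I →₀ ℕ) →₀ W) (x : I → ℚ) : W :=
  Φ.sum fun b w => eval x (monomial b (1 : ℚ)) • w

/-- Its derivative at `x` in the direction `h`. -/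
noncomputable def pd {I W : Type} [Fintype I] [AddCommGroup W] [Module ℚ W] (Φ : (I →₀ ℕ) →₀ W)
    (x h : I → ℚ) : W :=
  Φ.sum fun b w => (∑ i, h i * eval x (pderiv i (monomial b (1 : ℚ)))) • w

/-- **K3, points of maximal rank exist in every dense set.** Let the rank of `om (pe Φ x)` be maximal,
`= r`, among the `x ∈ Wv ξ`, at `x₀`. There are `δ_1, …, δ_r` and `r` places with nonzero minor at `x₀`.
The minor at `x` is `F(x)`, `F` a polynomial with complex coefficients. Write `F = ∑ c_a f_a`, `f_a` with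
rational coefficients, the `c_a ∈ ℂ` independent over `ℚ`; `f_a(x₀) ≠ 0` for some `a`, so
`f_a(ξ) ≠ 0`, so `f_a(z) ≠ 0` for some `z ∈ E'`, so `F(z) ≠ 0`. -/
def S_MaxW : Prop := ∀ (I T W S : Type) [Fintype I] [AddCommGroup T] [Module ℂ T] [AddCommGroup W]
  [Module ℚ W] [Fintype S] (om : W → T →ₗ[ℂ] (S → ℂ)), (∀ w w', om (w + w') = om w + om w') →
  (∀ (c : ℚ) (w : W), om (c • w) = (c : ℂ) • om w) → ∀ (Φ : (I →₀ ℕ) →₀ W) (ξ : I → ℂ)
  (E' : Set (I → ℚ)), Dns ξ E' → ∃ z ∈ E', ∀ x ∈ Wv ξ,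
    Module.finrank ℂ (LinearMap.range (om (pe Φ x))) ≤
      Module.finrank ℂ (LinearMap.range (om (pe Φ z)))

/-- **K4, perturbation on a closed set.** Let `om (pe Φ z) δ₀ = 0`, `v = om (pd Φ z h) δ₀`, and let
`δ_1, …, δ_r` be such that the `om (pe Φ z) δ_i` form a basis of the range. For any `r + 1` places let
`F(x)` be the minor of the vectors `om (pe Φ x) δ_i`, `om (pe Φ x) δ₀`: a polynomial with complex
coefficients vanishing on `E'`. Write `F = ∑ c_a f_a` as in K3: all `f_a` vanish on `E'`, so at `ξ`,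
so `D_h f_a(z) = 0` (`h ∈ Tz ξ z`) and `D_h F(z) = 0`. As `om (pe Φ z) δ₀ = 0`, `D_h F(z)` is the minor of
the vectors `om (pe Φ z) δ_i`, `v`. All these minors vanish, so `v` is in the range of `om (pe Φ z)`,
which is killed by `κ`. -/
def S_PertW : Prop := ∀ (I T W S : Type) [Fintype I] [AddCommGroup T] [Module ℂ T] [AddCommGroup W]
  [Module ℚ W] [Fintype S] (om : W → T →ₗ[ℂ] (S → ℂ)), (∀ w w', om (w + w') = om w + om w') →
  (∀ (c : ℚ) (w : W), om (c • w) = (c : ℂ) • om w) → ∀ (Φ : (I →₀ ℕ) →₀ W) (ξ : I → ℂ)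
  (E' : Set (I → ℚ)), Dns ξ E' → ∀ z : I → ℚ,
  (∀ x ∈ E', Module.finrank ℂ (LinearMap.range (om (pe Φ x))) ≤
    Module.finrank ℂ (LinearMap.range (om (pe Φ z)))) →
  ∀ κ : S → ℂ, (∀ δ, ∑ o, κ o * om (pe Φ z) δ o = 0) → ∀ δ, om (pe Φ z) δ = 0 →
    ∀ h ∈ Tz ξ z, ∑ o, κ o * om (pd Φ z h) δ o = 0

/-! ## The key lemma and the core -/

/-- No combination of the families of points stays in `E`. -/
def BigT (τ μ : ℂ) (E : IntermediateField ℚ ℂ) {Θ : Type} {s n : ℕ} (u : Θ → Fin s → ℂ)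
    (v : Θ → Fin n → ℂ) : Prop :=
  (∀ c : Fin s → ℚ, c ≠ 0 → ∃ θ, Complex.exp (∑ j, (c j : ℂ) * u θ j) ∉ E) ∧
  ∀ g : Fin n → ℂ, (∀ j, IsE τ (g j)) → g ≠ 0 →
    ∃ θ, ∑ j, g j * v θ j ∉ Lam τ ∧ xe τ μ (∑ j, g j * v θ j) ∉ E

/-- **K5, the key lemma.** As `KeyP_pf` (`FR/I_KeyP.lean`): the functions `(θ, g) ↦ g(u θ j)`. -/
def S_KeyW : Prop := ∀ (τ μ : ℂ) (E : IntermediateField ℚ ℂ) (s n : ℕ) (Θ : Type), KF n τ μ E →
  ∀ (u : Θ → Fin s → ℂ) (v : Θ → Fin n → ℂ), BigT τ μ E u v →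
  ∀ κ : Fin s ⊕ Fin n × Bool → ℂ, (∀ o, κ o ∈ E) →
    (∀ θ, ∃ T : ℂ, ∀ δ ∈ DK E, ∑ o, κ o * omV τ μ (u θ) (v θ) δ o = δ T) → κ = 0

/-- The point with coordinates `x` in the family `e`. -/
noncomputable def cx {q D : ℕ} (e : Fin D → ℂ) (x : Fin q × Fin D → ℚ) : Fin q → ℂ :=
  co e (fun i a => x (i, a))

/-- The derivatives of the `R_j` at the point with coordinates `z` in the direction `h`. -/
noncomputable def tv {q s D : ℕ} (R : Fin s → MvPolynomial (Fin q) ℂ) (e : Fin D → ℂ)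
    (z h : Fin q × Fin D → ℚ) : Fin s → ℂ :=
  fun j => ∑ i, cx e h i * pg R (cx e z) i j

/-- The rank of all forms on `DK K` at the point with coordinates `x`. -/
noncomputable def rkx (τ μ : ℂ) (K : IntermediateField ℚ ℂ) {q s n ρ D : ℕ}
    (R : Fin s → MvPolynomial (Fin q) ℂ) (S : Fin n → MvPolynomial (Fin q) ℂ)
    (Z : Fin ρ → MvPolynomial (Fin q) ℂ) (e : Fin D → ℂ) (x : Fin q × Fin D → ℚ) : ℕ :=
  Module.finrank ℂ ((DK K).map (omZ τ μ (pv R (cx e x)) (pv S (cx e x)) (pv Z (cx e x))))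

/-- **K6, maximal rank in dense sets**: K3 for the forms (`T = DK K`, `W = (Fin s → ℂ) × (Fin n → ℂ) ×
(Fin ρ → ℂ)`, `Φ` the coefficients of the polynomials `R_j(∑_a x_ia e_a)`, … in the rational variables
`x`). -/
def S_MaxX : Prop := ∀ (τ μ : ℂ) (s n q ρ D : ℕ) (R : Fin s → MvPolynomial (Fin q) ℂ)
  (S : Fin n → MvPolynomial (Fin q) ℂ) (Z : Fin ρ → MvPolynomial (Fin q) ℂ)
  (K : IntermediateField ℚ ℂ), KF n τ μ K → ∀ (e : Fin D → ℂ) (ξ : Fin q × Fin D → ℂ)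
  (E' : Set (Fin q × Fin D → ℚ)), Dns ξ E' →
    ∃ z ∈ E', ∀ x ∈ Wv ξ, rkx τ μ K R S Z e x ≤ rkx τ μ K R S Z e z

/-- **K7, the core on a closed set.** As `CoreP_pf` (`FR/I_CoreP.lean`) with K4 (`Φ` as in K6, its
derivative in the direction `h` is `(tv R, tv S, tv Z)`) and K5 (`Θ = Tz ξ z`). -/
def S_CoreW : Prop := ∀ (τ μ : ℂ) (s n q ρ N D : ℕ) (R : Fin s → MvPolynomial (Fin q) ℂ)
  (S : Fin n → MvPolynomial (Fin q) ℂ) (Z : Fin ρ → MvPolynomial (Fin q) ℂ)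
  (K : IntermediateField ℚ ℂ), KF n τ μ K → ¬ HasTrdeg K (N + 1) →
  ∀ (e : Fin D → ℂ) (ξ : Fin q × Fin D → ℂ) (E' : Set (Fin q × Fin D → ℚ)), Dns ξ E' →
  ∀ z ∈ Wv ξ, (∀ x ∈ E', rkx τ μ K R S Z e x ≤ rkx τ μ K R S Z e z) →
  (∀ E : IntermediateField ℚ ℂ, KF n τ μ E → ¬ HasTrdeg E (N + s + 2 * n + ρ + 1) →
    BigT τ μ E (fun h : Tz ξ z => tv R e z h) (fun h : Tz ξ z => tv S e z h)) →
    s + 2 * n ≤ Module.finrank ℂ
      ((DK K ⊓ TT (pv Z (cx e z))).map (omV τ μ (pv R (cx e z)) (pv S (cx e z))))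

/-! ## Subspaces -/

/-- `BigS` for all subspaces of codimension at most `κ`. -/
def BigK (τ μ : ℂ) (n κ : ℕ) (V : Submodule ℚ ℂ) (E : IntermediateField ℚ ℂ) : Prop :=
  ∀ V' : Submodule ℚ ℂ, V' ≤ V → Module.finrank ℚ V ≤ Module.finrank ℚ V' + κ →
    BigS τ μ n (V' : Set ℂ) E

/-- **K8.** Let `c ≠ 0`. By nondegeneracy `y = ∑ c_j ∂_i R_j ≠ 0` for some `i`. The `γ ∈ V` with
`γ` at the place `i` in `T` form a subspace `V'` of codimension `≤ κ` of `V`, and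
`∑_j c_j tv R e z h j = γ y` for such `h`. The same for `v` and `g`. -/
def S_BigW : Prop := ∀ (τ μ : ℂ) (E : IntermediateField ℚ ℂ) (s n q D κ : ℕ) (e : Fin D → ℂ),
  LinearIndependent ℚ e → BigK τ μ n κ (Submodule.span ℚ (Set.range e)) E →
  ∀ (R : Fin s → MvPolynomial (Fin q) ℂ) (S : Fin n → MvPolynomial (Fin q) ℂ)
  (z : Fin q × Fin D → ℚ) (T : Submodule ℚ (Fin q × Fin D → ℚ)),
  q * D ≤ Module.finrank ℚ T + κ → NDf ⊥ R (cx e z) →
  (∀ g : Fin n → ℂ, (∀ j, IsE τ (g j)) → (∀ i, ∑ j, g j * pg S (cx e z) i j = 0) → g = 0) →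
    BigT τ μ E (fun h : T => tv R e z h) (fun h : T => tv S e z h)

/-- **K9, product sets in subspaces.** The conditions `a_l x ∈ V'` (`l = 1, …, M`) on `x` in the span of
the `x_i` are at most `κ M` linear conditions over `ℚ` (`V' ≤ V` has codimension `≤ κ`). -/
def S_PrdSub : Prop := ∀ (M n₀ κ : ℕ) (a : Fin M → ℂ) (x : Fin (n₀ + κ * M) → ℂ),
  LinearIndependent ℚ x → ∀ V V' : Submodule ℚ ℂ, FiniteDimensional ℚ V → V' ≤ V →
  Module.finrank ℚ V ≤ Module.finrank ℚ V' + κ → (∀ l i, a l * x i ∈ V) →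
    ∃ g : Fin n₀ → Fin (n₀ + κ * M) → ℤ, LinearIndependent ℚ (fun i => cmb (g i) x) ∧
      ∀ l i, a l * cmb (g i) x ∈ V'

/-- **K10.** From `S_NoSmallC` and K9. -/
def S_NoSmallK : Prop := ∀ Q M κ : ℕ, ∃ n₀ : ℕ, ∀ (a : Fin M → ℂ) (x : Fin n₀ → ℂ), FT Q a →
  LinearIndependent ℚ a → LinearIndependent ℚ x → ∀ V : Submodule ℚ ℂ, FiniteDimensional ℚ V →
  (∀ l i, a l * x i ∈ V) → ∀ (τ μ : ℂ) (n : ℕ), (0 < n → Nrm τ μ ∧ KLI τ a) →
  ∀ E : IntermediateField ℚ ℂ, ¬ HasTrdeg E (M - 1) → BigK τ μ n κ V E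

/-- **K11.** From `S_NoSmallCV` and K9 (the measure `MS Q'` passes to `(cmb (g i) x)_i`). -/
def S_NoSmallVK : Prop := ∀ Q Q' M κ : ℕ, ∃ n₀ : ℕ, ∀ (a : Fin M → ℂ) (x : Fin n₀ → ℂ), FT Q a →
  SLI a → MS Q' x → ∀ V : Submodule ℚ ℂ, FiniteDimensional ℚ V → (∀ l i, a l * x i ∈ V) →
  ∀ (τ μ : ℂ) (n : ℕ) (E : IntermediateField ℚ ℂ), ACl E → (0 < n → GF τ μ E) →
    ¬ HasTrdeg E (M - 1) → BigK τ μ n κ V E

/-! ## The main statements -/

/-- The conclusion at the point with coordinates `x`. -/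
def Cc (τ μ : ℂ) (K : IntermediateField ℚ ℂ) {q s n ρ D : ℕ}
    (R : Fin s → MvPolynomial (Fin q) ℂ) (S : Fin n → MvPolynomial (Fin q) ℂ)
    (Z : Fin ρ → MvPolynomial (Fin q) ℂ) (e : Fin D → ℂ) (x : Fin q × Fin D → ℚ) : Prop :=
  (∀ j, pv S (cx e x) j ∉ Lam τ) ∧
  AlgebraicIndependent (IntermediateField.adjoin ℚ ((K : Set ℂ) ∪ Set.range (pv Z (cx e x))))
    (fm τ μ (pv R (cx e x)) (pv S (cx e x)))

/-- The conclusion: the exceptional nondegenerate points form a set of codimension `> κ`. -/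
def FamK (τ μ : ℂ) (N s n ρ κ : ℕ) {D : ℕ} (e : Fin D → ℂ) : Prop :=
  ∀ (q : ℕ) (R : Fin s → MvPolynomial (Fin q) ℂ) (S : Fin n → MvPolynomial (Fin q) ℂ)
    (Z : Fin ρ → MvPolynomial (Fin q) ℂ) (K₀ : IntermediateField ℚ ℂ), (K₀ : Set ℂ).Countable →
  ACl K₀ → (0 < n → GF τ μ K₀ ∧ PerK τ μ K₀) → ¬ HasTrdeg K₀ (N + 1) →
    Thin κ {x : Fin q × Fin D → ℚ | NDf ⊥ R (cx e x) ∧
      (∀ g : Fin n → ℂ, (∀ j, IsE τ (g j)) → (∀ i, ∑ j, g j * pg S (cx e x) i j = 0) → g = 0) ∧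
      ¬ Cc τ μ K₀ R S Z e x}

/-- **K12, general form.** Let `Exc` be the set in question, `ξ_k` from K1. Suppose `ξ = ξ_k` has no
`d` with `d + κ < q D` and `TrLe d ξ`. Then `q D ≤ finrank (Tz ξ z) + κ` for all `z ∈ Wv ξ` (K2 with
`d = q D - κ - 1`, if `κ < q D`). Take `z ∈ Exc ∩ Wv ξ` from K6. By K8 (`T = Tz ξ z`; `z` is
nondegenerate) and K7 the rank is full at `z`, so `S_FormBZ` gives the conclusion at `z`, a contradiction
to `z ∈ Exc`. -/
def S_FRKG : Prop := ∀ (N s n ρ κ : ℕ) (τ μ : ℂ) (D : ℕ) (e : Fin D → ℂ), LinearIndependent ℚ e →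
  (∀ E : IntermediateField ℚ ℂ, KF n τ μ E → ¬ HasTrdeg E (N + s + 2 * n + ρ + 1) →
    BigK τ μ n κ (Submodule.span ℚ (Set.range e)) E) → FamK τ μ N s n ρ κ e

/-- **K13, lattices with algebraic invariants** (and `n = 0`). -/
def S_FRKA : Prop := ∀ Q N s n ρ κ : ℕ, ∃ n₀ : ℕ, ∀ (τ μ : ℂ)
  (a : Fin (N + s + 2 * n + ρ + 2) → ℂ) (x : Fin n₀ → ℂ), FT Q a → LinearIndependent ℚ a →
  LinearIndependent ℚ x → (0 < n → Nrm τ μ ∧ KLI τ a) → ∀ (D : ℕ) (e : Fin D → ℂ),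
  LinearIndependent ℚ e → (∀ l i, a l * x i ∈ Submodule.span ℚ (Set.range e)) →
    FamK τ μ N s n ρ κ e

/-- **K14, every lattice.** -/
def S_FRKV : Prop := ∀ Q Q' N s n ρ κ : ℕ, ∃ n₀ : ℕ, ∀ (τ μ : ℂ)
  (a : Fin (N + s + 2 * n + ρ + 2) → ℂ) (x : Fin n₀ → ℂ), FT Q a → SLI a → MS Q' x →
  ∀ (D : ℕ) (e : Fin D → ℂ), LinearIndependent ℚ e →
  (∀ l i, a l * x i ∈ Submodule.span ℚ (Set.range e)) → FamK τ μ N s n ρ κ e

end Pool.Agent.Work.MP_8da9ea_nt.FR
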