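import Pool.Agent.Work.MP_8da9ea_nt.FR.PolDefs
import Pool.Agent.Work.MP_8da9ea_nt.FR.StmtsK

/-!
# Full rank outside closed sets of high codimension: definitions for the final theorem
-/

set_option autoImplicit false

namespace Pool.Agent.Work.MP_8da9ea_nt.FR

/-- The gradients at `z` of the polynomials `R_j` are linearly independent over `k`. -/
def GradInd (k : Set ℂ) {s q : ℕ} (R : Fin s → MvPolynomial (Fin q) ℂ) (z : Fin q → ℂ) : Prop :=
  ∀ c : Fin s → ℂ, (∀ j, c j ∈ k) →
    (∀ i, ∑ j, c j * MvPolynomial.eval z (MvPolynomial.pderiv i (R j)) = 0) → c = 0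

/-- `C z` holds for all points `z` of `V^q`, where `V` is the `ℚ`-span of the numbers `e_a`, with
coordinates outside a closed set of codimension greater than `κ`. -/
def AllBut (κ : ℕ) {D : ℕ} (e : Fin D → ℂ) (q : ℕ) (C : (Fin q → ℂ) → Prop) : Prop :=
  Thin κ {x : Fin q × Fin D → ℚ | ¬ C (fun i => ∑ a, (x (i, a) : ℂ) * e a)}

end Pool.Agent.Work.MP_8da9ea_nt.FR
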