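import Pool.Agent.Work.MP_8da9ea_nt.FR.FinStmt
import Pool.Agent.Work.MP_8da9ea_nt.EC.FinDefs

/-!
# Full rank for polynomial families: definitions for the final theorem
-/

set_option autoImplicit false

namespace Pool.Agent.Work.MP_8da9ea_nt.FR

/-- No combination of the polynomials `R_j` with coefficients in `k` is constant, except the trivial
one. -/
def NoConst (k : Set ℂ) {s q : ℕ} (R : Fin s → MvPolynomial (Fin q) ℂ) : Prop :=
  ∀ c : Fin s → ℂ, (∀ j, c j ∈ k) → ∀ a : ℂ,
    ∑ j, MvPolynomial.C (c j) * R j = MvPolynomial.C a → c = 0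

/-- `C β` holds for all points `β` of `V^q`, where `V` is the `ℚ`-span of the numbers `e_a`, whose
coordinates `w` do not satisfy a certain nontrivial polynomial equation `P(w) = 0`. -/
def AlmAll {D : ℕ} (e : Fin D → ℂ) (q : ℕ) (C : (Fin q → ℂ) → Prop) : Prop :=
  ∃ P : MvPolynomial (Fin q × Fin D) ℂ, P ≠ 0 ∧ ∀ w : Fin q → Fin D → ℚ,
    MvPolynomial.eval (fun o => (w o.1 o.2 : ℂ)) P ≠ 0 → C (fun i => ∑ a, (w i a : ℂ) * e a)

/-- The `ℚ`-span `V` of the numbers `e_a` is nonzero and stable under the multiplication by a number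
field of degree at least `n₀`, or it contains the products `a_l x_i` of `M` numbers `a_l` of finite
type `Q` and `n₀` numbers `x_i`, both independent over `ℚ`, with the property `C a x`. -/
def Rich (Q M n₀ : ℕ) {D : ℕ} (e : Fin D → ℂ) (C : (Fin M → ℂ) → (Fin n₀ → ℂ) → Prop) : Prop :=
  (∃ L : IntermediateField ℚ ℂ, FiniteDimensional ℚ L ∧ n₀ ≤ Module.finrank ℚ L ∧ 0 < D ∧
    Stab L e) ∨
  ∃ (a : Fin M → ℂ) (x : Fin n₀ → ℂ), S.FT Q a ∧ LinearIndependent ℚ a ∧
    LinearIndependent ℚ x ∧ (∀ l i, a l * x i ∈ Submodule.span ℚ (Set.range e)) ∧ C a x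

end Pool.Agent.Work.MP_8da9ea_nt.FR
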