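import Pool.Agent.Work.MP_8da9ea_nt.FR.FinStmt
import Pool.Agent.Work.MP_8da9ea_nt.EB.StmtsG
import Pool.Agent.Work.MP_8da9ea_nt.EB.FinDefs

/-!
# Block FR: full rank for points in spaces stable under a number field (VERSION 2)

Paper proof: note 3909 of helper60 on `MP_8da9ea_nt` (BLOCK FR), with the rows `δ z_i` added (helper27).
The lattice is arbitrary: the invariants are only supposed to be in the field of constants.
-/

set_option autoImplicit false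

namespace Pool.Agent.Work.MP_8da9ea_nt.FR

open MvPolynomial Pool.Agent.Work.MP_327059_nt.GL Pool.Agent.Work.MP_8da9ea_nt.S
  Pool.Agent.Work.MP_8da9ea_nt.EB Pool.Agent.Work.MP_8da9ea_nt.EC

/-- `δ(e^u) / e^u`. -/
noncomputable def th (δ : Derivation ℚ ℂ ℂ) (u : ℂ) : ℂ := δ (Complex.exp u) / Complex.exp u

/-- The invariants `G₂ = μ⁴ g₂`, `G₃ = μ⁶ g₃` are in `K`. -/
structure GF (τ μ : ℂ) (K : IntermediateField ℚ ℂ) : Prop where
  im : 0 < τ.im
  mu : μ ≠ 0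
  g2 : μ ^ 4 * gg2 τ ∈ K
  g3 : μ ^ 6 * gg3 τ ∈ K

/-- The fields of constants: countable, algebraically closed in `ℂ`, and, if there are elliptic points
(`0 < n`), containing the invariants and the periods. -/
structure KF (n : ℕ) (τ μ : ℂ) (K : IntermediateField ℚ ℂ) : Prop where
  cnt : Countable K
  acl : ACl K
  ell : 0 < n → GF τ μ K ∧ PerK τ μ K

/-- The point `∑_i B_i z_i`. -/
noncomputable def lc {q : ℕ} (B z : Fin q → ℂ) : ℂ := ∑ i, B i * z i

/-- The forms `δ(e^{u_j}) / e^{u_j}`, `λ_δ(v_j)`, `η_δ(v_j)`. -/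
noncomputable def omV (τ μ : ℂ) {s n : ℕ} (u : Fin s → ℂ) (v : Fin n → ℂ) :
    Derivation ℚ ℂ ℂ →ₗ[ℂ] (Fin s ⊕ Fin n × Bool → ℂ) where
  toFun δ := Sum.elim (fun j => th δ (u j))
    (fun o => if o.2 then etf τ μ δ (v o.1) else lam τ μ δ (v o.1))
  map_add' a b := by
    funext o
    rcases o with j | ⟨j, c⟩
    · simp only [Sum.elim_inl, Pi.add_apply, th, Derivation.add_apply]
      ring
    · cases c
      · simp only [Sum.elim_inr, Pi.add_apply, lam, Derivation.add_apply, Bool.false_eq_true,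
          if_false]
        split_ifs
        · ring
        · ring
      · simp only [Sum.elim_inr, Pi.add_apply, lam, etf, Derivation.add_apply, if_true]
        split_ifs
        · ring
        · ring
  map_smul' c a := by
    funext o
    rcases o with j | ⟨j, c'⟩
    · simp only [Sum.elim_inl, Pi.smul_apply, th, Derivation.smul_apply, smul_eq_mul,
        RingHom.id_apply]
      ring
    · cases c'
      · simp only [Sum.elim_inr, Pi.smul_apply, lam, Derivation.smul_apply, smul_eq_mul,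
          RingHom.id_apply, Bool.false_eq_true, if_false]
        split_ifs
        · ring
        · ring
      · simp only [Sum.elim_inr, Pi.smul_apply, lam, etf, Derivation.smul_apply, smul_eq_mul,
          RingHom.id_apply, if_true]
        split_ifs
        · ring
        · ring

/-- The forms `δ z_i`. -/
noncomputable def dz {q : ℕ} (z : Fin q → ℂ) : Derivation ℚ ℂ ℂ →ₗ[ℂ] (Fin q → ℂ) where
  toFun δ := fun i => δ (z i)
  map_add' a b := by
    funext i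
    simp only [Pi.add_apply, Derivation.add_apply]
  map_smul' c a := by
    funext i
    simp only [Pi.smul_apply, Derivation.smul_apply, RingHom.id_apply]

/-- The forms at the toric points `ω ∑_i B_ji w_i` and the elliptic points `∑_i B'_ji w_i`. -/
noncomputable def omW (τ μ ω : ℂ) {s n q : ℕ} (B : Fin s → Fin q → ℂ) (B' : Fin n → Fin q → ℂ)
    (w : Fin q → ℂ) : Derivation ℚ ℂ ℂ →ₗ[ℂ] (Fin s ⊕ Fin n × Bool → ℂ) :=
  omV τ μ (fun j => ω * lc (B j) w) (fun j => lc (B' j) w)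

/-- The forms `omW` together with the forms `δ w_i`. -/
noncomputable def omX (τ μ ω : ℂ) {s n q : ℕ} (B : Fin s → Fin q → ℂ) (B' : Fin n → Fin q → ℂ)
    (w : Fin q → ℂ) : Derivation ℚ ℂ ℂ →ₗ[ℂ] ((Fin s ⊕ Fin n × Bool → ℂ) × (Fin q → ℂ)) :=
  (omW τ μ ω B B' w).prod (dz w)

/-! ## The forms over a field containing the invariants (adapt the landed proofs of the elliptic block,
where the invariants were algebraic) -/

/-- L1. Adapt `LamAdd_pf` (`EB/I_LamAdd.lean`): only `δ G₂ = δ G₃ = 0` is used there. -/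
def S_LamAddK : Prop := ∀ (τ μ : ℂ) (K : IntermediateField ℚ ℂ), GF τ μ K → ∀ δ ∈ DK K,
  ∀ u v : ℂ, lam τ μ δ (u + v) = lam τ μ δ u + lam τ μ δ v

/-- L2. Adapt `LamMul_pf` (`EB/I_LamMul.lean`). -/
def S_LamMulK : Prop := ∀ (τ μ : ℂ) (K : IntermediateField ℚ ℂ), GF τ μ K → ∀ δ ∈ DK K,
  ∀ g u : ℂ, IsE τ g → lam τ μ δ (g * u) = g * lam τ μ δ u

/-- L3. Adapt `EtaAdd_pf` (`EB/I_EtaAdd.lean`). -/
def S_EtaAddK : Prop := ∀ (τ μ : ℂ) (K : IntermediateField ℚ ℂ), GF τ μ K → PerK τ μ K →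
  ∀ δ ∈ DK K, ∀ u v : ℂ, etf τ μ δ (u + v) = etf τ μ δ u + etf τ μ δ v

/-- L4. Adapt `LamZero_pf` (`EB/I_LamZero.lean`). -/
def S_LamZeroK : Prop := ∀ (τ μ : ℂ) (E : IntermediateField ℚ ℂ), GF τ μ E → ACl E → ∀ u : ℂ,
  (∀ δ ∈ DK E, lam τ μ δ u = 0) ↔ (u ∈ Lam τ ∨ xe τ μ u ∈ E)

/-- L5. Adapt `Closed_pf` (`EB/I_Closed.lean`). -/
def S_ClosedK : Prop := ∀ (τ μ : ℂ) (K : IntermediateField ℚ ℂ), GF τ μ K → ∀ δ ∈ DK K,
  ∀ δ' ∈ DK K, ∀ u : ℂ,
    δ (lam τ μ δ' u) - δ' (lam τ μ δ u) = lam τ μ ⁅δ, δ'⁆ u ∧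
    δ (etf τ μ δ' u) - δ' (etf τ μ δ u) = etf τ μ ⁅δ, δ'⁆ u

/-- **L6, the form of the second kind and multiplication by endomorphisms.** `η_δ(g u)` is
`ḡ η_δ(u)` plus a multiple of `λ_δ(u)` plus a multiple of `δ u`, for `δ` killing the periods and the
invariants.
Proof. `CD.prf_Sum` (as used in `LamMul_pf`) gives, for an integral endomorphism `g ≠ 0`,
`g² ℘(g u) = ∑_w ℘(u + w) + c`, `w` in the kernel `g⁻¹ Λ / Λ`, which has `N = g ḡ` elements; integrate: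
`g ζ(g u) = N ζ(u) + ∑_{w ≠ 0} (℘'(u) - ℘'(w)) / (2 (℘(u) - ℘(w))) - c u + const`. Apply `δ`: with
`R = ∑ …`, `δ (μ R(u)) = (N X(u) - g² X(g u) + c μ²) λ_δ(u)` (`X(w)`, `Y(w)`, `μ² c` are algebraic over
`G₂, G₃`, and `δ` kills `const`, as it kills `μ ζ(w)` for torsion points `w`), so
`η_δ(g u) = ḡ η_δ(u) + (c μ² / g) λ_δ(u) - (c μ / g) δ u`. Points of `ℚΛ`: everything is `0`. For
`g = 0` trivial, and `N g` integral gives the general case by additivity. -/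
def S_EtaMul : Prop := ∀ (τ μ : ℂ) (K : IntermediateField ℚ ℂ), GF τ μ K → PerK τ μ K →
  ∀ g : ℂ, IsE τ g → ∃ a b : ℂ, ∀ δ ∈ DK K, δ a = 0 ∧ δ b = 0 ∧ ∀ u : ℂ,
    etf τ μ δ (g * u) = (starRingEnd ℂ) g * etf τ μ δ u + a * lam τ μ δ u + b * δ u

/-! ## Ax type input -/

/-- **FR1, the mixed theorem of Ax for independent families.** Proof: as `AK1_pf` (`EB/I_AK1.lean`) and
`AK2_pf`: put `f = (e^{u_i}; X(v_j), Y(v_j); T')`, `T' = T - ∑ C_j Z(v_j)`, embed `E(f)` into a field of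
germs by `S_Emb`, lift the points `v_j` (`I_AK1.lift`) and the `u_i` (logarithms of germs), and apply
`fx_prop : FXprop` with `c = B μ^…`, `d = C μ^…`, `e = A`. Its conclusion, a relation with constant
value between the lifted logarithms, is differentiated and carried back by the last clause of `S_Emb`:
`∑ g_j λ_δ(v_j) = 0` on `DK E`, so `λ_δ(∑ g_j v_j) = 0` by L1, L2, and L4 contradicts
the independence of the `v_j`; respectively `∑ m_i th δ (u_i) = 0`, so `δ` kills `exp (∑ m_i u_i)` for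
all `δ ∈ DK E`, which is then in `E`. If there are no `v_j` use the lattice `ℤ + ℤ i`. -/
def S_MixAx : Prop := ∀ (τ μ : ℂ) (E : IntermediateField ℚ ℂ), Countable E → ACl E →
  ∀ (ι κ : Type) [Fintype ι] [Fintype κ], (Nonempty κ → GF τ μ E) → ∀ (u : ι → ℂ) (v : κ → ℂ),
    (∀ q : ι → ℚ, Complex.exp (∑ i, (q i : ℂ) * u i) ∈ E → q = 0) →
    (∀ g : κ → ℂ, (∀ j, IsE τ (g j)) →
      (∑ j, g j * v j ∈ Lam τ ∨ xe τ μ (∑ j, g j * v j) ∈ E) → g = 0) →
    ∀ (A : ι → ℂ) (B C : κ → ℂ), (∀ i, A i ∈ E) → (∀ j, B j ∈ E) → (∀ j, C j ∈ E) → ∀ T : ℂ,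
      (∀ δ ∈ DK E, ∑ i, A i * th δ (u i) + ∑ j, B j * lam τ μ δ (v j) +
        ∑ j, C j * etf τ μ δ (v j) = δ T) → A = 0 ∧ B = 0 ∧ C = 0

/-- **FR3, the theorem of Ax in functional form** (from FR1, L1-L4, L6). Let `κ₁, κ₂, κ₃` have entries in
`E` and let `∑ κ₁ th(u_j) + ∑ κ₂ λ(v_j) + ∑ κ₃ η(v_j)` be exact (`= δ T`) on `DK E`. Then
`∑ κ₁_j ⊗ u_j` is zero modulo the `ℚ`-space `{u : e^u ∈ E}`, and `∑ κ₃_j ⊗ v_j`, `∑ κ₂_j ⊗ v_j` are zero
modulo the `k`-space `{v : v ∈ Λ or X(v) ∈ E}` (for `κ₂` if `κ₃ = 0`).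
Proof. `S = {u : e^u ∈ E}` is a `ℚ`-space, `S' = {v : v ∈ Λ or X(v) ∈ E}` is a `k`-space by L4, L1, L2.
Choose `ũ_i` whose classes form a basis of the span of the classes of the `u_j`
in `ℂ / S`, `u_j = ∑ q_ji ũ_i + s_j`, and `v_j = ∑ g_ji ṽ_i + s'_j` over `k`. On `DK E`: `th(s_j) = 0`,
`λ(s'_j) = 0`, `η(s'_j) = δ Z(s'_j)` or `0`. By L3, L6 the relation becomes
`∑ A_i th(ũ_i) + ∑ B_i λ(ṽ_i) + ∑ C_i η(ṽ_i) = δ T'` with `A_i = ∑_j κ₁_j q_ji`,
`C_i = ∑_j κ₃_j conj(g_ji)`, and `B_i = ∑_j κ₂_j g_ji` if `κ₃ = 0`; all coefficients are in `E` (the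
constants `a, b` of L6 are killed by `DK E`, so they are in `E`). By FR1 they vanish. A functional `g`
vanishing on `S` (`S'`) gives `∑ κ₁_j g(u_j) = ∑_i A_i g(ũ_i) = 0` etc. -/
def S_AxF : Prop := ∀ (τ μ : ℂ) (E : IntermediateField ℚ ℂ) (s n : ℕ), KF n τ μ E →
  ∀ (u : Fin s → ℂ) (v : Fin n → ℂ) (κ : Fin s ⊕ Fin n × Bool → ℂ), (∀ o, κ o ∈ E) →
    ∀ T : ℂ, (∀ δ ∈ DK E, ∑ o, κ o * omV τ μ u v δ o = δ T) →
      (∀ g : ℂ →ₗ[ℚ] ℚ, (∀ x, Complex.exp x ∈ E → g x = 0) →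
        ∑ j, κ (Sum.inl j) * (g (u j) : ℂ) = 0) ∧
      (∀ g : ℂ →ₗ[kf τ] kf τ, (∀ x, (x ∈ Lam τ ∨ xe τ μ x ∈ E) → g x = 0) →
        ∑ j, κ (Sum.inr (j, true)) * (starRingEnd ℂ) (g (v j) : ℂ) = 0 ∧
        ((∀ j, κ (Sum.inr (j, true)) = 0) →
          ∑ j, κ (Sum.inr (j, false)) * (g (v j) : ℂ) = 0))

/-! ## Linear algebra -/

/-- **FR4, perturbation at a point of maximal rank.** Proof. Suppose `om z δ₀ = 0` and
`∑ κ om w δ₀ ≠ 0`. Let `δ_1, …, δ_r` be such that the `om z δ_i` form a basis of the range of `om z`.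
The `r + 1` vectors `om (z + c w) δ_i`, `om w δ₀` depend polynomially on `c`, and are linearly
independent at `c = 0` (`κ` kills the first `r` and not the last), so they are linearly independent for
some rational `c ≠ 0` (a minor of size `r + 1` is a nonzero polynomial in `c`). As
`om (z + c w) δ₀ = c om w δ₀`, the rank of `om (z + c w)` is `≥ r + 1`. -/
def S_Pert : Prop := ∀ (T W S : Type) [AddCommGroup T] [Module ℂ T] [AddCommGroup W] [Module ℚ W]
  [Fintype S] (om : W → T →ₗ[ℂ] (S → ℂ)), (∀ w w', om (w + w') = om w + om w') →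
  (∀ (c : ℚ) (w : W), om (c • w) = (c : ℂ) • om w) → ∀ z : W,
  (∀ w, Module.finrank ℂ (LinearMap.range (om w)) ≤ Module.finrank ℂ (LinearMap.range (om z))) →
  ∀ κ : S → ℂ, (∀ δ, ∑ o, κ o * om z δ o = 0) → ∀ w δ, om z δ = 0 → ∑ o, κ o * om w δ o = 0

/-- **FR5, a subspace stable under the derivations killing `E` is spanned by its vectors with entries in
`E`**; in the form: if some vector of `R` does not vanish at a place of `S₀`, some vector of `R` with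
entries in `E` does not vanish at a place of `S₀`. (`x_Stab : S_Stab` of `MP_327059_nt`, `Bd/B01.lean`
line 508, transported along `S ≃ Fin m`; the constants of `DK E` are the elements of `E`, as `E` is
algebraically closed in `ℂ`. Or directly: project `R` to the coordinates of `S₀`, take a vector with
minimal support there and one entry `1`, …) -/
def S_RelE : Prop := ∀ E : IntermediateField ℚ ℂ, ACl E → ∀ (S : Type) [Fintype S] (S₀ : Set S)
  (R : Submodule ℂ (S → ℂ)), (∃ κ ∈ R, ∃ o ∈ S₀, κ o ≠ 0) →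
    (∀ δ ∈ DK E, ∀ κ ∈ R, (fun o => δ (κ o)) ∈ R) →
      ∃ κ ∈ R, (∃ o ∈ S₀, κ o ≠ 0) ∧ ∀ o, κ o ∈ E

/-- **FR6, functions with values in a subfield which are independent over it are independent over `ℂ`.**
(Expand the `κ j` in a basis of `ℂ` over `k`.) -/
def S_Fun : Prop := ∀ (k : IntermediateField ℚ ℂ) (X : Type) (n : ℕ) (φ : Fin n → X → ℂ),
  (∀ j x, φ j x ∈ k) →
  (∀ c : Fin n → ℂ, (∀ j, c j ∈ k) → (∀ x, ∑ j, c j * φ j x = 0) → c = 0) →
    ∀ κ : Fin n → ℂ, (∀ x, ∑ j, κ j * φ j x = 0) → κ = 0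

/-! ## The field generated by the values at a point -/

/-- **FR8, the field `E` of the values.** `E` is the algebraic closure in `ℂ` of the field generated
over `K` by the `z_i`, the `e^{u_j}` and the `X(v_j)`, `Z(v_j)` with `v_j ∉ Λ`. The derivations killing
`K` at which all forms vanish are those killing `E`. (If `Y(v_j) = 0` then `X(v_j)` is algebraic over
`G₂, G₃`.) -/
def S_EField : Prop := ∀ (τ μ : ℂ) (K : IntermediateField ℚ ℂ) (s n q N : ℕ),
  KF n τ μ K → ∀ (u : Fin s → ℂ) (v : Fin n → ℂ) (z : Fin q → ℂ), ¬ HasTrdeg K (N + 1) →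
    ∃ E : IntermediateField ℚ ℂ, KF n τ μ E ∧ K ≤ E ∧ ¬ HasTrdeg E (N + s + 2 * n + q + 1) ∧
      ∀ δ ∈ DK K, ((omV τ μ u v δ = 0 ∧ dz z δ = 0) ↔ δ ∈ DK E)

/-- **FR9, closedness**: the relations at a point are stable under the derivations at which all forms
vanish. (`δ₀ (om(δ)) = om([δ₀, δ])` if `om(δ₀) = 0`, by L5 and the same computation for `th`, `dz`.) -/
def S_RelStab : Prop := ∀ (τ μ : ℂ) (K : IntermediateField ℚ ℂ) (s n q : ℕ), (0 < n → GF τ μ K) →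
  ∀ (u : Fin s → ℂ) (v : Fin n → ℂ) (z : Fin q → ℂ) (δ₀ : Derivation ℚ ℂ ℂ), δ₀ ∈ DK K →
    omV τ μ u v δ₀ = 0 → dz z δ₀ = 0 → ∀ (κ : Fin s ⊕ Fin n × Bool → ℂ) (κ' : Fin q → ℂ),
      (∀ δ ∈ DK K, ∑ o, κ o * omV τ μ u v δ o + ∑ i, κ' i * dz z δ i = 0) →
        ∀ δ ∈ DK K, ∑ o, δ₀ (κ o) * omV τ μ u v δ o + ∑ i, δ₀ (κ' i) * dz z δ i = 0

/-! ## The transcendence input -/

/-- **FR10, small fields cannot contain all exponentials, or all values of `X`, of a large space.**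
Proof: `x_TIX` (exponentials), `x_TIE` with `RedNT_pf` (values of `X`), and `S_FTalg`. -/
def S_NoSmall : Prop := ∀ M : ℕ, ∃ n₀ : ℕ, ∀ (V : Submodule ℚ ℂ) (b : Fin M → ℂ),
  (∀ j, IsAlgebraic ℚ (b j)) → (∀ j, ∀ y ∈ V, b j * y ∈ V) →
  (∃ x : Fin n₀ → ℂ, (∀ i, x i ∈ V) ∧ LinearIndependent ℚ x) →
  ∀ E : IntermediateField ℚ ℂ, ¬ HasTrdeg E (M - 1) →
    (LinearIndependent ℚ b → ∀ ω : ℂ, ω ≠ 0 → ∃ y ∈ V, Complex.exp (ω * y) ∉ E) ∧
    ∀ (τ μ : ℂ), Nrm τ μ → KLI τ b → ∃ y ∈ V, y ∉ Lam τ ∧ xe τ μ y ∉ E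

/-! ## The core -/

/-- The hypotheses on the field `L`, the space `V` and the multipliers. -/
structure Setup (τ : ℂ) (L : IntermediateField ℚ ℂ) (V : Submodule ℚ ℂ) {s n q : ℕ}
    (B : Fin s → Fin q → ℂ) (B' : Fin n → Fin q → ℂ) : Prop where
  stab : ∀ β ∈ L, ∀ y ∈ V, β * y ∈ V
  mB : ∀ j i, B j i ∈ L
  mB' : ∀ j i, B' j i ∈ L
  liB : LinearIndependent ℚ B
  liB' : ∀ g : Fin n → ℂ, (∀ j, IsE τ (g j)) → (∀ i, ∑ j, g j * B' j i = 0) → g = 0
  kL : 0 < n → ∀ g : ℂ, IsE τ g → g ∈ L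

/-- **FR11, the key lemma.** A relation valid, up to exact forms, at all points of `V^q` is zero
unless `E` contains the exponentials (the values `X`) of all points of `V`.
Proof. Suppose `e^{ω y} ∉ E`, `y ∈ V`. There is a functional `g : ℂ → ℚ` with `g(ω y) = 1` vanishing on
the `ℚ`-space `{x : e^x ∈ E}` (Mathlib, `Submodule.exists_le_ker_of_notMem` or a basis). For
`β ∈ L`, `i`: FR3 for `w = (0, …, β y, …, 0)` gives `∑_j κ₁_j g(ω B_ji β y) = 0`. The functions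
`φ_j(i, β) = g(ω B_ji β y)` on `Fin q × L` are independent over `ℚ`: if `∑ c_j φ_j = 0`, then
`g(ω (∑_j c_j B_ji) β y) = 0` for all `β ∈ L`, and `β = (∑_j c_j B_ji)⁻¹` would give `g(ω y) = 0`. So
`κ₁ = 0` by FR6 (with `k = ⊥`). In the same way with `g : ℂ → kf τ`, `g y = 1`, vanishing on the
`kf τ`-space `{x : x ∈ Λ or X(x) ∈ E}` (a space by L1, L2, L4), first for `κ₃`
(take complex conjugates of the equations), and then for `κ₂`; `S_Kf` for `kf τ` and `IsE τ`. -/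
def S_Key : Prop := ∀ (τ μ ω : ℂ), ω ≠ 0 → ∀ (L : IntermediateField ℚ ℂ)
  (V : Submodule ℚ ℂ) (s n q : ℕ) (B : Fin s → Fin q → ℂ) (B' : Fin n → Fin q → ℂ),
  Setup τ L V B B' → ∀ E : IntermediateField ℚ ℂ, KF n τ μ E →
  ∀ κ : Fin s ⊕ Fin n × Bool → ℂ, (∀ o, κ o ∈ E) →
    (∀ w : Fin q → ℂ, (∀ i, w i ∈ V) → ∃ T : ℂ, ∀ δ ∈ DK E,
      ∑ o, κ o * omW τ μ ω B B' w δ o = δ T) →
      ((∃ y ∈ V, Complex.exp (ω * y) ∉ E) → ∀ j, κ (Sum.inl j) = 0) ∧
      ((0 < n → ∃ y ∈ V, y ∉ Lam τ ∧ xe τ μ y ∉ E) → ∀ o, κ (Sum.inr o) = 0)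

/-- The rank of all forms (with the `δ w_i`) on `DK K` is maximal at `z` among the points of `V^q`. -/
def MaxAt (τ μ ω : ℂ) (K : IntermediateField ℚ ℂ) (V : Submodule ℚ ℂ) {s n q : ℕ}
    (B : Fin s → Fin q → ℂ) (B' : Fin n → Fin q → ℂ) (z : Fin q → ℂ) : Prop :=
  ∀ w : Fin q → ℂ, (∀ i, w i ∈ V) → Module.finrank ℂ ((DK K).map (omX τ μ ω B B' w)) ≤
    Module.finrank ℂ ((DK K).map (omX τ μ ω B B' z))

/-- **FR12, the core**: at every point `z ∈ V^q` of maximal rank (all forms with the `δ z_i`, on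
`DK K`), the forms `omW z` have full rank on the derivations killing `K` and the `z_i`. Hypothesis
`hbig`: fields of transcendence degree `≤ N + s + 2 n + q` do not contain all exponentials, or all values
of `X`, of the points of `V` (it comes from FR10). Proof. Suppose not. Then there is a relation `(κ, κ')`,
`κ ≠ 0`, with `∑ κ omW z + ∑ κ' δ z_i = 0` on `DK K` (duality: the annihilator of
`image ∩ (first factor)` is the projection of the annihilator of the image). Take `E` from FR8; the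
space of relations is stable under `DK E` (FR9), so FR5 (`S₀` = the places of `κ`) gives such a relation
with `κ ≠ 0` and all entries in `E`. FR4, with `T = DK K` and `W = (Fin q → V)`, shows that it is a
relation on `DK E` at all points `w` of `V^q` (the forms are additive on `DK K` by L1, L3; `th` is
additive), where `∑ κ'_i δ w_i = δ (∑ κ'_i w_i)` is exact. `hbig` and FR11 give `κ = 0`. -/
def S_Core : Prop := ∀ (τ μ ω : ℂ), ω ≠ 0 → ∀ (L : IntermediateField ℚ ℂ) (V : Submodule ℚ ℂ)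
  (s n q N : ℕ) (B : Fin s → Fin q → ℂ) (B' : Fin n → Fin q → ℂ), Setup τ L V B B' →
  ∀ K : IntermediateField ℚ ℂ, KF n τ μ K → ¬ HasTrdeg K (N + 1) →
  (∀ E : IntermediateField ℚ ℂ, KF n τ μ E → ¬ HasTrdeg E (N + s + 2 * n + q + 1) →
    (∃ y ∈ V, Complex.exp (ω * y) ∉ E) ∧ (0 < n → ∃ y ∈ V, y ∉ Lam τ ∧ xe τ μ y ∉ E)) →
  ∀ z : Fin q → ℂ, (∀ i, z i ∈ V) → MaxAt τ μ ω K V B B' z →
    s + 2 * n ≤ Module.finrank ℂ ((DK K ⊓ TT z).map (omW τ μ ω B B' z))

/-- **FR13a, the polynomial of the points of maximal rank.** Proof: as in `RelPol_pf` / `GPE_pf`: let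
`r` be the maximal rank, attained at `z₀`; choose `r` derivations in `DK K` and `r` of the
`s + 2 n + q` forms with nonzero determinant at `z₀`; the determinant at `w` is a form of degree `r`
in the coordinates, not zero as a polynomial. -/
def S_FormA : Prop := ∀ (τ μ ω : ℂ) (K : IntermediateField ℚ ℂ) (s n q ν : ℕ), KF n τ μ K →
  ∀ (B : Fin s → Fin q → ℂ) (B' : Fin n → Fin q → ℂ) (x : Fin ν → ℂ),
    ∃ P : MvPolynomial (Fin q × Fin ν) ℂ, P ≠ 0 ∧ P.totalDegree ≤ s + 2 * n + q ∧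
      ∀ w : Fin q → Fin ν → ℚ, MvPolynomial.eval (fun o => (w o.1 o.2 : ℂ)) P ≠ 0 →
      ∀ z : Fin q → ℂ, (∀ i, z i = ∑ l, (w i l : ℂ) * x l) →
        MaxAt τ μ ω K (Submodule.span ℚ (Set.range x)) B B' z

/-- **FR13b, the Jacobian criterion.** Proof: `rel_jac` (`TG/RelH.lean`), as in `RelPol_pf`, over the
field generated by `K` and the `z_i`. -/
def S_FormB : Prop := ∀ (τ μ ω : ℂ) (K : IntermediateField ℚ ℂ) (s n q : ℕ), KF n τ μ K →
  ∀ (B : Fin s → Fin q → ℂ) (B' : Fin n → Fin q → ℂ) (z : Fin q → ℂ),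
    s + 2 * n ≤ Module.finrank ℂ ((DK K ⊓ TT z).map (omW τ μ ω B B' z)) →
      (∀ j, lc (B' j) z ∉ Lam τ) ∧
      AlgebraicIndependent (IntermediateField.adjoin ℚ ((K : Set ℂ) ∪ Set.range z))
        (fm τ μ (fun j => ω * lc (B j) z) (fun j => lc (B' j) z))

/-! The items FR14a, FR14b prove `S_FRTor` and `S_FRMain` (`FR/FinStmt.lean`) from `S_Core`, `S_FormA`,
`S_FormB`, `S_NoSmall`. -/

end Pool.Agent.Work.MP_8da9ea_nt.FR
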